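import Pool.Agent.FPP.AV

/-!
# FPZ/BK: the van den Berg-Kesten inequality on a finite product of totally preordered alphabets

`wt : α → ℝ` orders the alphabet; an event is witnessed by a set `I` of coordinates if it holds for
all configurations whose weights on `I` are at most those of the given one.  Proof: the coordinates
are doubled one at a time; for one coordinate the two witnessed events are lower sets of a linear
preorder, so one of them contains the other.
-/

set_option autoImplicit false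

noncomputable section

namespace Pool.Agent.FPZ

open Finset Pool.FPP

variable {ι α : Type*} [DecidableEq ι]

/-- the coordinates in `I` witness the event `A` -/
def Wit (wt : α → ℝ) (A : (ι → α) → Prop) (I : Finset ι) (ω : ι → α) : Prop :=
  ∀ ξ : ι → α, (∀ i ∈ I, wt (ξ i) ≤ wt (ω i)) → A ξ

omit [DecidableEq ι] in
theorem wit_mono {wt : α → ℝ} {A : (ι → α) → Prop} {I : Finset ι} {ω ω' : ι → α}
    (h : Wit wt A I ω) (h' : ∀ i ∈ I, wt (ω' i) ≤ wt (ω i)) : Wit wt A I ω' :=
  fun ξ hξ => h ξ (fun i hi => (hξ i hi).trans (h' i hi))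

theorem wit_update {wt : α → ℝ} {A : (ι → α) → Prop} {I : Finset ι} {ω : ι → α} {e : ι}
    (he : e ∉ I) (x : α) : Wit wt A I (Function.update ω e x) ↔ Wit wt A I ω := by
  constructor
  · intro h
    refine wit_mono h (fun i hi => ?_)
    rw [Function.update_of_ne (fun h' : i = e => he (h' ▸ hi))]
  · intro h
    refine wit_mono h (fun i hi => ?_)
    rw [Function.update_of_ne (fun h' : i = e => he (h' ▸ hi))]

/-- disjoint occurrence, where the coordinates in `K` have been doubled -/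
def BQ (wt : α → ℝ) (A B : (ι → α) → Prop) (K : Finset ι) (ω ω' : ι → α) : Prop :=
  ∃ I J : Finset ι, (∀ i, i ∉ K → i ∈ I → i ∉ J) ∧ Wit wt A I ω ∧ Wit wt B J (mix K ω' ω)

/-- first alternative: `J` does not use `e` -/
def BU (wt : α → ℝ) (A B : (ι → α) → Prop) (K : Finset ι) (ω ω' : ι → α) (e : ι) (x : α) : Prop :=
  ∃ I J : Finset ι, e ∉ J ∧ (∀ i, i ∉ K → i ∈ I → i ∉ J) ∧ Wit wt A I (Function.update ω e x) ∧
    Wit wt B J (mix K ω' ω)

/-- second alternative: `I` does not use `e` -/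
def BV (wt : α → ℝ) (A B : (ι → α) → Prop) (K : Finset ι) (ω ω' : ι → α) (e : ι) (x : α) : Prop :=
  ∃ I J : Finset ι, e ∉ I ∧ (∀ i, i ∉ K → i ∈ I → i ∉ J) ∧ Wit wt A I ω ∧
    Wit wt B J (Function.update (mix K ω' ω) e x)

theorem mix_update_out {K : Finset ι} {e : ι} (he : e ∉ K) (ω ω' : ι → α) (x y : α) :
    mix K (Function.update ω' e y) (Function.update ω e x) =
      Function.update (mix K ω' ω) e x := by
  funext i
  by_cases hi : i = e
  · subst hi
    simp [mix, he]
  · rw [Function.update_of_ne hi]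
    simp only [mix, Function.update_of_ne hi]

theorem mix_update_in {K : Finset ι} {e : ι} (ω ω' : ι → α) (x y : α) :
    mix (insert e K) (Function.update ω' e y) (Function.update ω e x) =
      Function.update (mix K ω' ω) e y := by
  funext i
  by_cases hi : i = e
  · subst hi
    simp [mix]
  · rw [Function.update_of_ne hi]
    simp only [mix, Function.update_of_ne hi, mem_insert, hi, false_or]

theorem bq_split {wt : α → ℝ} {A B : (ι → α) → Prop} {K : Finset ι} {ω ω' : ι → α} {e : ι}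
    (he : e ∉ K) {x y : α}
    (h : BQ wt A B K (Function.update ω e x) (Function.update ω' e y)) :
    BU wt A B K ω ω' e x ∨ BV wt A B K ω ω' e x := by
  obtain ⟨I, J, h1, h2, h3⟩ := h
  rw [mix_update_out he] at h3
  by_cases heI : e ∈ I
  · left
    have heJ := h1 e he heI
    exact ⟨I, J, heJ, h1, h2, (wit_update heJ x).1 h3⟩
  · right
    exact ⟨I, J, heI, h1, (wit_update heI x).1 h2, h3⟩

theorem bq_join {wt : α → ℝ} {A B : (ι → α) → Prop} {K : Finset ι} {ω ω' : ι → α} {e : ι}
    {x y : α} (h : BU wt A B K ω ω' e x ∨ BV wt A B K ω ω' e y) :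
    BQ wt A B (insert e K) (Function.update ω e x) (Function.update ω' e y) := by
  rcases h with ⟨I, J, h0, h1, h2, h3⟩ | ⟨I, J, h0, h1, h2, h3⟩
  · refine ⟨I, J, fun i hi => h1 i (fun h => hi (mem_insert_of_mem h)), h2, ?_⟩
    rw [mix_update_in]
    exact (wit_update h0 y).2 h3
  · refine ⟨I, J, fun i hi => h1 i (fun h => hi (mem_insert_of_mem h)),
      (wit_update h0 x).2 h2, ?_⟩
    rw [mix_update_in]
    exact h3

theorem bu_mono {wt : α → ℝ} {A B : (ι → α) → Prop} {K : Finset ι} {ω ω' : ι → α} {e : ι}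
    {x x' : α} (hx : wt x' ≤ wt x) (h : BU wt A B K ω ω' e x) : BU wt A B K ω ω' e x' := by
  obtain ⟨I, J, h0, h1, h2, h3⟩ := h
  refine ⟨I, J, h0, h1, wit_mono h2 (fun i _ => ?_), h3⟩
  by_cases hi : i = e
  · subst hi
    simpa using hx
  · rw [Function.update_of_ne hi, Function.update_of_ne hi]

theorem bv_mono {wt : α → ℝ} {A B : (ι → α) → Prop} {K : Finset ι} {ω ω' : ι → α} {e : ι}
    {x x' : α} (hx : wt x' ≤ wt x) (h : BV wt A B K ω ω' e x) : BV wt A B K ω ω' e x' := by
  obtain ⟨I, J, h0, h1, h2, h3⟩ := h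
  refine ⟨I, J, h0, h1, h2, wit_mono h3 (fun i _ => ?_)⟩
  by_cases hi : i = e
  · subst hi
    simpa using hx
  · rw [Function.update_of_ne hi, Function.update_of_ne hi]

open scoped Classical in
/-- indicator -/
def ib (p : Prop) : ℝ := if p then 1 else 0

theorem ib_nonneg (p : Prop) : 0 ≤ ib p := by
  unfold ib
  split_ifs <;> norm_num

theorem ib_mono {p q : Prop} (h : p → q) : ib p ≤ ib q := by
  unfold ib
  by_cases hp : p
  · rw [if_pos hp, if_pos (h hp)]
  · rw [if_neg hp]
    split_ifs <;> norm_num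

theorem ib_and (p q : Prop) : ib (p ∧ q) = ib p * ib q := by
  unfold ib
  by_cases hp : p <;> by_cases hq : q <;> simp [hp, hq]

variable [Fintype α]

/-- one coordinate -/
theorem bk_one {wt : α → ℝ} {U V : α → Prop} (hU : ∀ x x', wt x' ≤ wt x → U x → U x')
    (hV : ∀ x x', wt x' ≤ wt x → V x → V x') :
    Ex (fun x : α => Ex (fun _ : α => ib (U x ∨ V x))) ≤
      Ex (fun x : α => Ex (fun y : α => ib (U x ∨ V y))) := by
  by_cases h : ∀ x, V x → U x
  · refine Ex_mono (fun x => Ex_mono (fun y => ib_mono ?_))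
    rintro (h1 | h1)
    · exact Or.inl h1
    · exact Or.inl (h x h1)
  · push Not at h
    obtain ⟨x0, h1, h2⟩ := h
    have h3 : ∀ x, U x → V x := by
      intro x hx
      rcases le_total (wt x) (wt x0) with h4 | h4
      · exact hV x0 x h4 h1
      · exact absurd (hU x x0 h4 hx) h2
    calc Ex (fun x : α => Ex (fun _ : α => ib (U x ∨ V x)))
        ≤ Ex (fun x : α => Ex (fun _ : α => ib (V x))) :=
          Ex_mono (fun x => Ex_mono (fun _ => ib_mono (fun h5 => h5.elim (h3 x) id)))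
      _ = Ex (fun _ : α => Ex (fun y : α => ib (V y))) := Ex_comm (fun x _ => ib (V x))
      _ ≤ Ex (fun x : α => Ex (fun y : α => ib (U x ∨ V y))) :=
          Ex_mono (fun x => Ex_mono (fun y => ib_mono Or.inr))

variable [Nonempty α] [Fintype ι]

/-- average over one coordinate -/
theorem Ex_update (e : ι) (g : (ι → α) → ℝ) :
    Ex (fun ω : ι → α => Ex (fun x : α => g (Function.update ω e x))) = Ex g := by
  have hinv : Function.Involutive
      (fun p : (ι → α) × α => (Function.update p.1 e p.2, p.1 e)) := by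
    intro p
    refine Prod.ext ?_ ?_
    · simp
    · simp
  have h1 := Ex_equiv hinv.toPerm (fun p : (ι → α) × α => g p.1)
  rw [Ex_prod, Ex_prod] at h1
  have h2 : Ex (fun x : ι → α => Ex (fun _ : α => g x)) = Ex g := by
    congr 1
    funext x
    exact Ex_const _
  exact h1.trans h2

theorem Ex_update2 (e : ι) (g : (ι → α) → (ι → α) → ℝ) :
    Ex (fun ω : ι → α => Ex (fun ω' : ι → α => Ex (fun x : α => Ex (fun y : α =>
      g (Function.update ω e x) (Function.update ω' e y))))) =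
      Ex (fun ω : ι → α => Ex (fun ω' : ι → α => g ω ω')) := by
  have h1 : ∀ ω : ι → α, Ex (fun ω' : ι → α => Ex (fun x : α => Ex (fun y : α =>
      g (Function.update ω e x) (Function.update ω' e y)))) =
      Ex (fun x : α => Ex (fun ω' : ι → α => g (Function.update ω e x) ω')) := by
    intro ω
    rw [Ex_comm]
    congr 1
    funext x
    exact Ex_update e (fun ω' => g (Function.update ω e x) ω')
  simp only [h1]
  exact Ex_update e (fun ω => Ex (fun ω' => g ω ω'))

theorem bk_step {wt : α → ℝ} {A B : (ι → α) → Prop} {K : Finset ι} {e : ι} (he : e ∉ K) :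
    Ex (fun ω : ι → α => Ex (fun ω' : ι → α => ib (BQ wt A B K ω ω'))) ≤
      Ex (fun ω : ι → α => Ex (fun ω' : ι → α => ib (BQ wt A B (insert e K) ω ω'))) := by
  rw [← Ex_update2 e (fun ω ω' => ib (BQ wt A B K ω ω')),
    ← Ex_update2 e (fun ω ω' => ib (BQ wt A B (insert e K) ω ω'))]
  refine Ex_mono (fun ω => Ex_mono (fun ω' => ?_))
  calc _ ≤ Ex (fun x : α => Ex (fun _ : α =>
          ib (BU wt A B K ω ω' e x ∨ BV wt A B K ω ω' e x))) :=
        Ex_mono (fun x => Ex_mono (fun y => ib_mono (bq_split he)))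
    _ ≤ Ex (fun x : α => Ex (fun y : α =>
          ib (BU wt A B K ω ω' e x ∨ BV wt A B K ω ω' e y))) :=
        bk_one (wt := wt) (fun _ _ h => bu_mono h) (fun _ _ h => bv_mono h)
    _ ≤ _ := Ex_mono (fun x => Ex_mono (fun y => ib_mono bq_join))

theorem bk_ind {wt : α → ℝ} {A B : (ι → α) → Prop} (K : Finset ι) :
    Ex (fun ω : ι → α => Ex (fun ω' : ι → α => ib (BQ wt A B ∅ ω ω'))) ≤
      Ex (fun ω : ι → α => Ex (fun ω' : ι → α => ib (BQ wt A B K ω ω'))) := by
  induction K using Finset.induction_on with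
  | empty => exact le_rfl
  | insert e K he ih => exact ih.trans (bk_step he)

/-- **BK inequality**: disjoint occurrence of two events. -/
theorem bk_box (wt : α → ℝ) (A B : (ι → α) → Prop) :
    Ex (fun ω : ι → α => ib (∃ I J : Finset ι, Disjoint I J ∧ Wit wt A I ω ∧ Wit wt B J ω)) ≤
      Ex (fun ω : ι → α => ib (A ω)) * Ex (fun ω : ι → α => ib (B ω)) := by
  calc Ex (fun ω : ι → α => ib (∃ I J : Finset ι, Disjoint I J ∧ Wit wt A I ω ∧ Wit wt B J ω))
      = Ex (fun ω : ι → α => Ex (fun _ : ι → α =>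
          ib (∃ I J : Finset ι, Disjoint I J ∧ Wit wt A I ω ∧ Wit wt B J ω))) := by
        congr 1
        funext ω
        exact (Ex_const _).symm
    _ ≤ Ex (fun ω : ι → α => Ex (fun ω' : ι → α => ib (BQ wt A B ∅ ω ω'))) := by
        refine Ex_mono (fun ω => Ex_mono (fun ω' => ib_mono ?_))
        rintro ⟨I, J, h1, h2, h3⟩
        refine ⟨I, J, fun i _ hi => Finset.disjoint_left.1 h1 hi, h2, ?_⟩
        have h4 : mix (∅ : Finset ι) ω' ω = ω := by
          funext i
          simp [mix]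
        rw [h4]
        exact h3
    _ ≤ Ex (fun ω : ι → α => Ex (fun ω' : ι → α => ib (BQ wt A B univ ω ω'))) := bk_ind univ
    _ ≤ Ex (fun ω : ι → α => Ex (fun ω' : ι → α => ib (A ω) * ib (B ω'))) := by
        refine Ex_mono (fun ω => Ex_mono (fun ω' => ?_))
        rw [← ib_and]
        refine ib_mono ?_
        rintro ⟨I, J, -, h2, h3⟩
        have h4 : mix (univ : Finset ι) ω' ω = ω' := by
          funext i
          simp [mix]
        rw [h4] at h3
        exact ⟨h2 ω (fun _ _ => le_rfl), h3 ω' (fun _ _ => le_rfl)⟩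
    _ = Ex (fun ω : ι → α => ib (A ω) * Ex (fun ω' : ι → α => ib (B ω'))) := by
        congr 1
        funext ω
        exact Ex_mul_left _ _
    _ = _ := Ex_mul_right _ _

/-- **BK inequality, witness form.** -/
theorem bk_wit (wt : α → ℝ) (F1 F2 : (ι → α) → ℝ) (S1 S2 : (ι → α) → Finset ι)
    (h1 : ∀ ω ω' : ι → α, (∀ i ∈ S1 ω, wt (ω' i) ≤ wt (ω i)) → F1 ω' ≤ F1 ω)
    (h2 : ∀ ω ω' : ι → α, (∀ i ∈ S2 ω, wt (ω' i) ≤ wt (ω i)) → F2 ω' ≤ F2 ω) (x1 x2 : ℝ) :
    Ex (fun ω : ι → α => ib (F1 ω ≤ x1 ∧ F2 ω ≤ x2 ∧ Disjoint (S1 ω) (S2 ω))) ≤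
      Ex (fun ω : ι → α => ib (F1 ω ≤ x1)) * Ex (fun ω : ι → α => ib (F2 ω ≤ x2)) := by
  refine le_trans (Ex_mono (fun ω => ib_mono ?_))
    (bk_box wt (fun ω => F1 ω ≤ x1) (fun ω => F2 ω ≤ x2))
  rintro ⟨ha, hb, hd⟩
  exact ⟨S1 ω, S2 ω, hd, fun ξ hξ => (h1 ω ξ hξ).trans ha, fun ξ hξ => (h2 ω ξ hξ).trans hb⟩

end Pool.Agent.FPZ
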