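import Pool.Agent.FPZ.Defs
import Pool.Agent.FPZ.BK

/-!
# FPZ/BKc: the van den Berg-Kesten inequality in terms of `Pr` and `PrC`

`Pr_bk`: witness form.  `Pr_bk2`: witness form on the coordinates in `B`, with two (possibly
different) configurations outside `B`.  `PrC_bk`: the same, conditional probabilities.
-/

set_option autoImplicit false

noncomputable section

namespace Pool.Agent.FPZ

open Finset Pool.FPP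

theorem Pr_eq_ib {Ω : Type} [Fintype Ω] (s : Ω → Prop) : Pr s = Ex (fun ω => ib (s ω)) := rfl

variable {ι α : Type} [Fintype ι] [DecidableEq ι] [Fintype α] [Nonempty α]

theorem Pr_bk_box (wt : α → ℝ) (A B : (ι → α) → Prop) :
    Pr (fun ω : ι → α => ∃ I J : Finset ι, Disjoint I J ∧ Wit wt A I ω ∧ Wit wt B J ω) ≤
      Pr A * Pr B := by
  rw [Pr_eq_ib, Pr_eq_ib, Pr_eq_ib]
  exact bk_box wt A B

theorem Pr_bk (wt : α → ℝ) (F1 F2 : (ι → α) → ℝ) (S1 S2 : (ι → α) → Finset ι)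
    (h1 : ∀ ω ω' : ι → α, (∀ i ∈ S1 ω, wt (ω' i) ≤ wt (ω i)) → F1 ω' ≤ F1 ω)
    (h2 : ∀ ω ω' : ι → α, (∀ i ∈ S2 ω, wt (ω' i) ≤ wt (ω i)) → F2 ω' ≤ F2 ω) (x1 x2 : ℝ) :
    Pr (fun ω : ι → α => F1 ω ≤ x1 ∧ F2 ω ≤ x2 ∧ Disjoint (S1 ω) (S2 ω)) ≤
      Pr (fun ω : ι → α => F1 ω ≤ x1) * Pr (fun ω : ι → α => F2 ω ≤ x2) := by
  rw [Pr_eq_ib, Pr_eq_ib, Pr_eq_ib]
  exact bk_wit wt F1 F2 S1 S2 h1 h2 x1 x2

/-- the hypothesis on a witness map on the coordinates in `B`, for the outside `o` -/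
theorem wit_inside {wt : α → ℝ} {B : Finset ι} {F : (ι → α) → ℝ} {S : (ι → α) → Finset ι}
    (h : ∀ ω ω' : ι → α, (∀ i, i ∉ B → ω' i = ω i) → (∀ i ∈ S ω, i ∈ B → wt (ω' i) ≤ wt (ω i)) →
      F ω' ≤ F ω) (o : ι → α) (ξ ξ' : ι → α)
    (h' : ∀ i ∈ S (mix B ξ o) ∩ B, wt (ξ' i) ≤ wt (ξ i)) : F (mix B ξ' o) ≤ F (mix B ξ o) := by
  refine h (mix B ξ o) (mix B ξ' o) ?_ ?_
  · intro i hi
    simp [mix, hi]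
  · intro i hi hiB
    have h1 := h' i (mem_inter.2 ⟨hi, hiB⟩)
    simpa [mix, hiB] using h1

/-- BK inequality on the coordinates in `B`; the two functions may have different outsides. -/
theorem Pr_bk2 (wt : α → ℝ) (B : Finset ι) (F1 F2 : (ι → α) → ℝ) (S1 S2 : (ι → α) → Finset ι)
    (h1 : ∀ ω ω' : ι → α, (∀ i, i ∉ B → ω' i = ω i) →
      (∀ i ∈ S1 ω, i ∈ B → wt (ω' i) ≤ wt (ω i)) → F1 ω' ≤ F1 ω)
    (h2 : ∀ ω ω' : ι → α, (∀ i, i ∉ B → ω' i = ω i) →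
      (∀ i ∈ S2 ω, i ∈ B → wt (ω' i) ≤ wt (ω i)) → F2 ω' ≤ F2 ω) (x1 x2 : ℝ) (o1 o2 : ι → α) :
    Pr (fun ξ : ι → α => F1 (mix B ξ o1) ≤ x1 ∧ F2 (mix B ξ o2) ≤ x2 ∧
      Disjoint (S1 (mix B ξ o1) ∩ B) (S2 (mix B ξ o2) ∩ B)) ≤
      PrC B (fun ω : ι → α => F1 ω ≤ x1) o1 * PrC B (fun ω : ι → α => F2 ω ≤ x2) o2 :=
  Pr_bk wt (fun ξ => F1 (mix B ξ o1)) (fun ξ => F2 (mix B ξ o2)) (fun ξ => S1 (mix B ξ o1) ∩ B)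
    (fun ξ => S2 (mix B ξ o2) ∩ B) (wit_inside h1 o1) (wit_inside h2 o2) x1 x2

theorem PrC_bk (wt : α → ℝ) (B : Finset ι) (F1 F2 : (ι → α) → ℝ) (S1 S2 : (ι → α) → Finset ι)
    (h1 : ∀ ω ω' : ι → α, (∀ i, i ∉ B → ω' i = ω i) →
      (∀ i ∈ S1 ω, i ∈ B → wt (ω' i) ≤ wt (ω i)) → F1 ω' ≤ F1 ω)
    (h2 : ∀ ω ω' : ι → α, (∀ i, i ∉ B → ω' i = ω i) →
      (∀ i ∈ S2 ω, i ∈ B → wt (ω' i) ≤ wt (ω i)) → F2 ω' ≤ F2 ω) (x1 x2 : ℝ) (o : ι → α) :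
    PrC B (fun ω : ι → α => F1 ω ≤ x1 ∧ F2 ω ≤ x2 ∧ Disjoint (S1 ω ∩ B) (S2 ω ∩ B)) o ≤
      PrC B (fun ω : ι → α => F1 ω ≤ x1) o * PrC B (fun ω : ι → α => F2 ω ≤ x2) o :=
  Pr_bk2 wt B F1 F2 S1 S2 h1 h2 x1 x2 o o

end Pool.Agent.FPZ
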