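import Pool.Agent.FPP.Defs

/-!
# First passage percolation, `Var ≤ C |v|^(1-ε)`: definitions

Vertices are points of `ℤ × ℤ`, edges are `(x, false)` (joins `x` and `x + (1,0)`) and `(x, true)`
(joins `x` and `x + (0,1)`).  Paths are functions `p : ℕ → ℤ × ℤ` with a length `n`.
The randomness is a configuration `ω : Ix N → Al` on the edges of the torus of side `N` with a finite
alphabet `Al`, read as the `N`-periodic environment `env wt ω` on the edges of `ℤ × ℤ`.
Averages are `Pool.FPP.Ex`, `Pool.FPP.av`, `Pool.FPP.mix` (see `Pool/Agent/FPP/Defs.lean` and the rules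
in `Pool/Agent/FPP/AV.lean`).
-/

set_option autoImplicit false

noncomputable section

namespace Pool.Agent.FPZ

open Finset Pool.FPP

/-! ## probability of events -/

open Classical in
/-- probability of an event under the uniform measure of a finite type -/
def Pr {Ω : Type} [Fintype Ω] (s : Ω → Prop) : ℝ := Ex (fun ω => if s ω then (1 : ℝ) else 0)

/-- conditional probability of an event given the coordinates outside `B` -/
def PrC {ι α : Type} [Fintype ι] [DecidableEq ι] [Fintype α] (B : Finset ι)
    (s : (ι → α) → Prop) (o : ι → α) : ℝ := Pr (fun ξ : ι → α => s (mix B ξ o))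

/-! ## the square lattice -/

/-- vertices -/
abbrev V : Type := ℤ × ℤ

/-- edges -/
abbrev E : Type := (ℤ × ℤ) × Bool

/-- second end point of an edge, the first one is `e.1` -/
def hd (e : E) : V := if e.2 then (e.1.1, e.1.2 + 1) else (e.1.1 + 1, e.1.2)

/-- `e` joins `x` and `y` -/
def joins (e : E) (x y : V) : Prop := (e.1 = x ∧ hd e = y) ∨ (e.1 = y ∧ hd e = x)

/-- adjacency -/
def adj (x y : V) : Prop := ∃ e : E, joins e x y

/-- the edge between two adjacent vertices (the formula of the frozen statement) -/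
def edg (x y : V) : E := ((min x.1 y.1, min x.2 y.2), decide (x.2 ≠ y.2))

/-- the vertex `z` is an end point of `e` -/
def inc (e : E) (z : V) : Prop := e.1 = z ∨ hd e = z

/-- the column of a vertex; strips are sets `α ≤ col z ≤ β` -/
def col (z : V) : ℤ := 2 * z.1 + z.2

/-- the shift `s` units along the strips: `col (z + su s) = col z`, `(z + su s).1 = z.1 + s` -/
def su (s : ℤ) : V := (s, -2 * s)

/-! ## paths and passage times in an environment `A : E → ℝ` -/

/-- `p` is a path of length `n` from `x` to `y` -/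
def IsPath (n : ℕ) (p : ℕ → V) (x y : V) : Prop :=
  p 0 = x ∧ p n = y ∧ ∀ k < n, adj (p k) (p (k + 1))

/-- cost of the part of the path between the times `i` and `j` -/
def cost (A : E → ℝ) (i j : ℕ) (p : ℕ → V) : ℝ :=
  ∑ k ∈ Ico i j, A (edg (p k) (p (k + 1)))

/-- passage time -/
def dst (A : E → ℝ) (x y : V) : ℝ :=
  sInf {t : ℝ | ∃ (n : ℕ) (p : ℕ → V), IsPath n p x y ∧ t = cost A 0 n p}

/-- `p` is a geodesic of length `n` from `x` to `y` -/
def IsGeo (A : E → ℝ) (n : ℕ) (p : ℕ → V) (x y : V) : Prop :=
  IsPath n p x y ∧ cost A 0 n p = dst A x y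

/-- edges of the part of the path between the times `i` and `j` -/
def eset (i j : ℕ) (p : ℕ → V) : Finset E := (Ico i j).image (fun k => edg (p k) (p (k + 1)))

open Classical in
/-- length of the chosen geodesic from `x` to `y` -/
def gl (A : E → ℝ) (x y : V) : ℕ :=
  if h : ∃ q : ℕ × (ℕ → V), IsGeo A q.1 q.2 x y then (Classical.choose h).1 else 0

open Classical in
/-- the chosen geodesic from `x` to `y` -/
def gp (A : E → ℝ) (x y : V) : ℕ → V :=
  if h : ∃ q : ℕ × (ℕ → V), IsGeo A q.1 q.2 x y then (Classical.choose h).2 else fun _ => x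

/-- edge set of the chosen geodesic -/
def ges (A : E → ℝ) (x y : V) : Finset E := eset 0 (gl A x y) (gp A x y)

/-- all weights are between `a` and `b` -/
def Bd (a b : ℝ) (A : E → ℝ) : Prop := ∀ e, a ≤ A e ∧ A e ≤ b

/-- the box `|z.1| ≤ Q, |z.2| ≤ Q` -/
def inBox (Q : ℤ) (z : V) : Prop := |z.1| ≤ Q ∧ |z.2| ≤ Q

/-- generic environment: different finite sets of edges in the box have different total weights.
Geodesics between vertices of the box are then unique (as edge sets). -/
def Gen (Q : ℤ) (A : E → ℝ) : Prop :=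
  ∀ S S' : Finset E, (∀ e ∈ S, inBox Q e.1) → (∀ e ∈ S', inBox Q e.1) →
    ∑ e ∈ S, A e = ∑ e ∈ S', A e → S = S'

/-- no backtracking across a strip of width `Y` inside the strip `[α, β]` -/
def NB (Y α β : ℤ) (n : ℕ) (p : ℕ → V) : Prop :=
  ∀ x : ℤ, α ≤ x → x + Y ≤ β → ∀ i j : ℕ, i ≤ j → j ≤ n → ¬ (x + Y ≤ col (p i) ∧ col (p j) ≤ x)

/-- number of visits of the path to the columns of `[α, β)` -/
def vis (α β : ℤ) (n : ℕ) (p : ℕ → V) : ℕ :=
  ((range (n + 1)).filter (fun i => α ≤ col (p i) ∧ col (p i) < β)).card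

/-- both end points of `e` lie in the closed strip `[α, β]` -/
def inStrip (α β : ℤ) (e : E) : Prop := α ≤ col e.1 ∧ col (hd e) ≤ β

open Classical in
/-- the edges of `S` inside the closed strip `[α, β]` -/
def trc (α β : ℤ) (S : Finset E) : Finset E := S.filter (fun e => inStrip α β e)

/-! ## symmetries of the lattice -/

/-- translation of edges -/
def shE (z : V) (e : E) : E := (e.1 + z, e.2)

/-- point reflection `z ↦ c - z` of edges -/
def rfE (c : V) (e : E) : E := (c - hd e, e.2)

/-! ## the planar relation of two edge sets at the line `L + 1/2` -/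

/-- the edge crosses the line `col = L + 1/2` -/
def crs (L : ℤ) (e : E) : Prop := col e.1 ≤ L ∧ L < col (hd e)

/-- four times the height of the crossing of the edge `e` with the line `col = L + 1/2` -/
def hgt (L : ℤ) (e : E) : ℤ :=
  4 * e.1.1 + (if e.2 then 0 else (if col e.1 = L then 1 else 3))

open Classical in
/-- number of pairs (crossing of `S₁`, crossing of `S₂`) with the second one below the first one -/
def rr (L : ℤ) (S₁ S₂ : Finset E) : ℕ :=
  ((S₁ ×ˢ S₂).filter (fun q => crs L q.1 ∧ crs L q.2 ∧ hgt L q.2 < hgt L q.1)).card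

/-- the two edge sets have a common vertex -/
def meetS (S₁ S₂ : Finset E) : Prop := ∃ e₁ ∈ S₁, ∃ e₂ ∈ S₂, ∃ z : V, inc e₁ z ∧ inc e₂ z

/-! ## configurations -/

/-- index set of the configurations: the edges of the torus -/
abbrev Ix (N : ℕ) : Type := (ZMod N × ZMod N) × Bool

/-- reduction of an edge modulo `N` -/
def red (N : ℕ) (e : E) : Ix N := (((e.1.1 : ZMod N), (e.1.2 : ZMod N)), e.2)

section Conf

variable {N : ℕ} {Al : Type}

/-- the periodic environment of a configuration -/
def env (wt : Al → ℝ) (ω : Ix N → Al) : E → ℝ := fun e => wt (ω (red N e))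

/-- translated configuration: `env wt (shiftC z ω) e = env wt ω (shE z e)` -/
def shiftC (z : V) (ω : Ix N → Al) : Ix N → Al :=
  fun i => ω ((i.1.1 + (z.1 : ZMod N), i.1.2 + (z.2 : ZMod N)), i.2)

/-- second end point of a torus edge -/
def hdI (i : Ix N) : ZMod N × ZMod N := if i.2 then (i.1.1, i.1.2 + 1) else (i.1.1 + 1, i.1.2)

/-- reflected configuration: `env wt (reflC c ω) e = env wt ω (rfE c e)` -/
def reflC (c : V) (ω : Ix N → Al) : Ix N → Al :=
  fun i => ω (((c.1 : ZMod N) - (hdI i).1, (c.2 : ZMod N) - (hdI i).2), i.2)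

/-- column of a torus edge (of its first end point), in `ZMod N` -/
def colI (i : Ix N) : ZMod N := 2 * i.1.1 + i.1.2

end Conf

open Classical in
/-- half open block: torus edges whose first end point has its column in `[α, β)` -/
def blkI (N : ℕ) [NeZero N] (α β : ℤ) : Finset (Ix N) :=
  univ.filter (fun i => ∃ k : ℤ, α ≤ k ∧ k < β ∧ colI i = (k : ZMod N))

open Classical in
/-- closed strip: torus edges with both end points in the strip `[α, β]` -/
def clI (N : ℕ) [NeZero N] (α β : ℤ) : Finset (Ix N) :=
  univ.filter (fun i => ∃ k : ℤ, α ≤ k ∧ k + (if i.2 then 1 else 2) ≤ β ∧ colI i = (k : ZMod N))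

section Pass

variable {N : ℕ} [NeZero N] {Al : Type}

/-- passage time from `0` to `v` as a function of the configuration -/
def Fv (wt : Al → ℝ) (v : V) (ω : Ix N → Al) : ℝ := dst (env wt ω) 0 v

/-- length of the geodesic -/
def Gn (wt : Al → ℝ) (v : V) (ω : Ix N → Al) : ℕ := gl (env wt ω) 0 v

/-- the geodesic -/
def Gp (wt : Al → ℝ) (v : V) (ω : Ix N → Al) : ℕ → V := gp (env wt ω) 0 v

/-- the edge set of the geodesic -/
def GE (wt : Al → ℝ) (v : V) (ω : Ix N → Al) : Finset E := ges (env wt ω) 0 v

/-- the torus edges of the geodesic -/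
def GI (wt : Al → ℝ) (v : V) (ω : Ix N → Al) : Finset (Ix N) := (GE wt v ω).image (red N)

end Pass

end Pool.Agent.FPZ
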