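import Mathlib

/-!
# FPZ, sections 6 and 7: the numerical core

`centre_pick`: for one centre of reflection the discrete intermediate value theorem gives a value of
the centre for which the two paths coincide in the inner groups with high probability.
`final_contra`: the contradiction from the functions `J₄, J₅, J₆`.
-/

set_option autoImplicit false

namespace Pool.Agent.FPZ

/-- One centre of reflection. Index `0` is the outermost group `k₀`, index `1` its mirror image,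
`2, 3` the next pair.  `A, B, Z` are the probabilities of above, below and meet, for the centre
number `c`; `D j` are the probabilities of non-coincidence in the inner groups. -/
theorem centre_pick {κ : Type*} (N : ℕ) (ε δ : ℝ) (hε1 : ε ≤ 1 / 1000)
    (hδ1 : δ ≤ 1 / 100)
    (A B Z : ℕ → Fin 4 → ℝ) (D : ℕ → κ → ℝ)
    (hA : ∀ c ≤ N, ∀ k, 0 ≤ A c k) (hB : ∀ c ≤ N, ∀ k, 0 ≤ B c k) (hZ : ∀ c ≤ N, ∀ k, 0 ≤ Z c k)
    (hD : ∀ c ≤ N, ∀ k, 0 ≤ D c k)
    (hsum : ∀ c ≤ N, ∀ k, A c k + B c k + Z c k = 1)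
    (symA : ∀ c ≤ N, A c 0 = A c 1) (symB : ∀ c ≤ N, B c 0 = B c 1) 
    (pABA : ∀ c ≤ N, ∀ k, k = 2 ∨ k = 3 → A c 0 * B c k * A c 1 ≤ ε)
    (pBAB : ∀ c ≤ N, ∀ k, k = 2 ∨ k = 3 → B c 0 * A c k * B c 1 ≤ ε)
    (pZNZ : ∀ c ≤ N, ∀ k, k = 2 ∨ k = 3 → Z c 0 * (A c k + B c k) * Z c 1 ≤ ε)
    (pZDZ : ∀ c ≤ N, ∀ k, Z c 2 * D c k * Z c 3 ≤ ε)
    (incA : ∀ c < N, |A (c + 1) 0 - A c 0| ≤ δ)
    (start : 1 - δ ≤ A 0 0) (fin : 1 - δ ≤ B N 0) :
    ∃ c ≤ N, ∀ k, D c k ≤ 2 * ε := by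
  classical
  have hex : ∃ c, c ≤ N ∧ A c 0 < 1 / 2 := by
    refine ⟨N, le_refl _, ?_⟩
    have h1 := hsum N le_rfl 0
    have h2 := hZ N le_rfl 0
    linarith
  let c := Nat.find hex
  have hc : c ≤ N ∧ A c 0 < 1 / 2 := Nat.find_spec hex
  have hc0 : c ≠ 0 := by
    intro h
    have := hc.2
    rw [h] at this
    linarith
  have hlow : 1 / 2 - δ ≤ A c 0 := by
    obtain ⟨d, hd⟩ := Nat.exists_eq_succ_of_ne_zero hc0
    have hdN : d < N := by omega
    have hnot : ¬ (d ≤ N ∧ A d 0 < 1 / 2) := Nat.find_min hex (by show d < c; omega)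
    have h1 : 1 / 2 ≤ A d 0 := by
      by_contra h
      exact hnot ⟨hdN.le, not_le.1 h⟩
    have h2 := incA d hdN
    have h3 := (abs_le.1 h2).1
    have : A c 0 = A (d + 1) 0 := by rw [hd]
    rw [this]; linarith
  obtain ⟨hcN, hup⟩ := hc
  refine ⟨c, hcN, fun k => ?_⟩
  have hs0 := hsum c hcN 0
  have hA0 := hA c hcN 0
  have hB0 := hB c hcN 0
  have hZ0 := hZ c hcN 0
  have hA1 : A c 1 = A c 0 := (symA c hcN).symm
  have hB1 : B c 1 = B c 0 := (symB c hcN).symm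
  have hZ1 : Z c 1 = Z c 0 := by
    have h1 := hsum c hcN 1
    linarith
  have key : ∀ k : Fin 4, k = 2 ∨ k = 3 → 17 / 20 ≤ Z c k := by
    intro k hk
    have hAk := hA c hcN k
    have hBk := hB c hcN k
    have hZk := hZ c hcN k
    have hsk := hsum c hcN k
    have e1 := pABA c hcN k hk
    have e2 := pBAB c hcN k hk
    have e3 := pZNZ c hcN k hk
    rw [hA1] at e1
    rw [hB1] at e2
    rw [hZ1] at e3
    -- `B c k ≤ 1/100`
    have b1 : B c k ≤ 1 / 100 := by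
      by_contra hcon
      push Not at hcon
      have : (12 / 25 : ℝ) ≤ A c 0 := by linarith
      nlinarith [mul_le_mul this this (by norm_num) hA0]
    by_cases hz : 1 / 9 < Z c 0
    · by_contra hcon
      push Not at hcon
      have h1 : 3 / 20 < A c k + B c k := by linarith
      have h2 : (1 / 81 : ℝ) ≤ Z c 0 * Z c 0 := by nlinarith
      nlinarith
    · push Not at hz
      have h1 : (1 / 3 : ℝ) < B c 0 := by linarith
      have h2 : (1 / 9 : ℝ) ≤ B c 0 * B c 0 := by nlinarith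
      by_contra hcon
      push Not at hcon
      have h3 : 1 / 10 < A c k := by linarith
      nlinarith
  have k2 := key 2 (Or.inl rfl)
  have k3 := key 3 (Or.inr rfl)
  have hz := pZDZ c hcN k
  have hD0 := hD c hcN k
  have h2 : (1 / 2 : ℝ) ≤ Z c 2 * Z c 3 := by nlinarith
  nlinarith

/-- The final contradiction. -/
theorem final_contra (ε δ : ℝ) (hε1 : ε ≤ 1 / 1000) (hδ1 : δ ≤ 1 / 100)
    (J4 J5 J6 : ℕ → ℝ) (S : ℕ)
    (h45 : ∀ s ≤ S, |J4 s - J5 s| ≤ 4 * ε) (h65 : ∀ s ≤ S, |J6 s - J5 s| ≤ 4 * ε)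
    (hpat : ∀ s ≤ S, (1 - J4 s) * J5 s * (1 - J6 s) ≤ ε)
    (start : J5 0 ≤ δ) (fin : 1 - δ ≤ J5 S) (inc : ∀ s < S, |J5 (s + 1) - J5 s| ≤ δ) : False := by
  classical
  have hex : ∃ s, s ≤ S ∧ 1 / 3 < J5 s := ⟨S, le_rfl, by linarith⟩
  let s := Nat.find hex
  have hs : s ≤ S ∧ 1 / 3 < J5 s := Nat.find_spec hex
  have hs0 : s ≠ 0 := by
    intro h
    have := hs.2
    rw [h] at this
    linarith
  have hup : J5 s ≤ 1 / 3 + δ := by
    obtain ⟨d, hd⟩ := Nat.exists_eq_succ_of_ne_zero hs0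
    have hdS : d < S := by omega
    have hnot : ¬ (d ≤ S ∧ 1 / 3 < J5 d) := Nat.find_min hex (by show d < s; omega)
    have h1 : J5 d ≤ 1 / 3 := by
      by_contra h
      exact hnot ⟨hdS.le, not_le.1 h⟩
    have h2 := inc d hdS
    have h3 := (abs_le.1 h2).2
    have : J5 s = J5 (d + 1) := by rw [hd]
    rw [this]; linarith
  have a4 := (abs_le.1 (h45 s hs.1)).2
  have a6 := (abs_le.1 (h65 s hs.1)).2
  have hp := hpat s hs.1
  have u4 : (3 / 5 : ℝ) ≤ 1 - J4 s := by linarith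
  have u6 : (3 / 5 : ℝ) ≤ 1 - J6 s := by linarith
  have h5 := hs.2
  have m1 : (1 / 5 : ℝ) ≤ (1 - J4 s) * J5 s := by nlinarith
  nlinarith

end Pool.Agent.FPZ
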