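import Pool.Agent.FPZ.PrB
import Pool.Agent.FPZ.Q67Num

/-!
# FPZ, sections 6 and 7 in abstract form

A window at a fixed outside.  `ι` = index set of the configurations, `ω : ι → α` uniform,
`sg k ω : X` = localised trace of the geodesic in the middle part of the group number `k`, a function
of the coordinates in `grp k` only (`1 ≤ k ≤ 7`).
`τ` = shift along the strips, `ρ j` = two reflections: `ρ j` exchanges the groups `k` and
`7 + 2 j - k`; `ρ j * τ ^ c` are the reflections with moved centre.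
A symmetry is a pair: a permutation of the indices (moves configurations `ω ↦ ω ∘ g.1`) and a
permutation of the traces.  If the trace in the configuration `ω ∘ g.1` is `T` then `g.2 T` is the
same path seen in the configuration `ω`.

Main results: `Hyp` (structure with all that is used) and `Hyp.false`.
-/

set_option autoImplicit false

noncomputable section

namespace Pool.Agent.FPZ.Q67

open Finset Pool.FPP Pool.Agent.FPZ

/-! ## Moves -/

section Move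

variable {ι α : Type} {X : Type*} [DecidableEq ι]

/-- the configuration `ω` moved by `e` in the region `D` -/
def act (D : Finset ι) (e : Equiv.Perm ι) (ω : ι → α) : ι → α :=
  fun i => if i ∈ D then ω (e i) else ω i

omit [DecidableEq ι] in
/-- the region is invariant -/
def Inv (D : Finset ι) (e : Equiv.Perm ι) : Prop := ∀ i, e i ∈ D ↔ i ∈ D

omit [DecidableEq ι] in
theorem Inv.symm {D : Finset ι} {e : Equiv.Perm ι} (h : Inv D e) : ∀ i, e.symm i ∈ D ↔ i ∈ D := by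
  intro i
  have := h (e.symm i)
  rw [Equiv.apply_symm_apply] at this
  exact this.symm

/-- the action as a bijection -/
def actEquiv (D : Finset ι) (e : Equiv.Perm ι) (h : Inv D e) : (ι → α) ≃ (ι → α) where
  toFun := act D e
  invFun := act D e.symm
  left_inv ω := by
    funext i
    by_cases hi : i ∈ D
    · have h1 : e.symm i ∈ D := (h.symm i).2 hi
      simp [act, hi, h1]
    · simp [act, hi]
  right_inv ω := by
    funext i
    by_cases hi : i ∈ D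
    · have h1 : e i ∈ D := (h i).2 hi
      simp [act, hi, h1]
    · simp [act, hi]

omit [DecidableEq ι] in
/-- the twisted version of a trace: `g.1` moves configurations, `g.2` moves traces -/
def tw (g : Equiv.Perm ι × Equiv.Perm X) (f : (ι → α) → X) (ω : ι → α) : X :=
  g.2 (f fun i => ω (g.1 i))

omit [DecidableEq ι] in
theorem tw_mul (g g' : Equiv.Perm ι × Equiv.Perm X) (f : (ι → α) → X) :
    tw (g * g') f = tw g (tw g' f) := rfl

omit [DecidableEq ι] in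
theorem tw_one (f : (ι → α) → X) : tw 1 f = f := rfl

omit [DecidableEq ι] in
theorem tw_dep {S S' : Finset ι} {g : Equiv.Perm ι × Equiv.Perm X} (h : ∀ i, g.1 i ∈ S ↔ i ∈ S')
    {f : (ι → α) → X} (hf : Dep S' f) : Dep S (tw g f) := by
  intro x y hxy
  unfold tw
  rw [hf (fun i => x (g.1 i)) (fun i => y (g.1 i)) (fun i hi => hxy _ ((h i).2 hi))]

variable [Fintype ι] [Fintype α]

/-- probability that two traces differ -/
def dd (f g : (ι → α) → X) : ℝ := Pr fun ω => f ω ≠ g ω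

theorem dd_nonneg (f g : (ι → α) → X) : 0 ≤ dd f g := Pr_nonneg _

theorem dd_self (f : (ι → α) → X) : dd f f = 0 := by
  unfold dd
  rw [← Pr_false (Ω := ι → α)]
  exact Pr_congr fun ω => ⟨fun h => h rfl, fun h => h.elim⟩

theorem dd_comm (f g : (ι → α) → X) : dd f g = dd g f := Pr_congr fun _ => ne_comm

theorem dd_tri (f g h : (ι → α) → X) : dd f h ≤ dd f g + dd g h := by
  refine Pr_le_add fun ω hω => ?_
  by_cases h1 : f ω = g ω
  · right
    intro h2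
    exact hω (h1.trans h2)
  · left
    exact h1

/-- a global change of variables -/
theorem Pr_perm (e : Equiv.Perm ι) (A : (ι → α) → Prop) :
    Pr (fun ω : ι → α => A fun i => ω (e i)) = Pr A :=
  Pr_equiv (e.symm.arrowCongr (Equiv.refl α)) A

theorem dd_tw (e : Equiv.Perm ι × Equiv.Perm X) (f g : (ι → α) → X) :
    dd (tw e f) (tw e g) = dd f g := by
  unfold dd
  rw [← Pr_perm e.1 fun ω => f ω ≠ g ω]
  refine Pr_congr fun ω => ?_
  show ¬ (e.2 _ = e.2 _) ↔ ¬ (_ = _)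
  rw [e.2.injective.eq_iff]

/-- `J_k(s)` -/
def JJ (τ : Equiv.Perm ι × Equiv.Perm X) (f : (ι → α) → X) (s : ℕ) : ℝ := dd f (tw (τ ^ s) f)

theorem JJ_zero (τ : Equiv.Perm ι × Equiv.Perm X) (f : (ι → α) → X) : JJ τ f 0 = 0 := by
  unfold JJ
  rw [pow_zero, tw_one, dd_self]

theorem JJ_step (τ : Equiv.Perm ι × Equiv.Perm X) (f : (ι → α) → X) (s : ℕ) :
    |JJ τ f (s + 1) - JJ τ f s| ≤ JJ τ f 1 := by
  have h1 : dd (tw (τ ^ s) f) (tw (τ ^ (s + 1)) f) = JJ τ f 1 := by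
    rw [pow_succ, tw_mul, dd_tw]
    unfold JJ
    rw [pow_one]
  have h2 := dd_tri f (tw (τ ^ s) f) (tw (τ ^ (s + 1)) f)
  have h3 := dd_tri f (tw (τ ^ (s + 1)) f) (tw (τ ^ s) f)
  rw [dd_comm (tw (τ ^ (s + 1)) f) (tw (τ ^ s) f), h1] at h3
  rw [h1] at h2
  have e1 : JJ τ f (s + 1) = dd f (tw (τ ^ (s + 1)) f) := rfl
  have e2 : JJ τ f s = dd f (tw (τ ^ s) f) := rfl
  rw [abs_le]
  constructor <;> linarith

theorem JJ_reflect (τ e : Equiv.Perm ι × Equiv.Perm X) (f g : (ι → α) → X) (s : ℕ)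
    (h : τ ^ s * e = e * (τ ^ s)⁻¹) : |JJ τ f s - JJ τ g s| ≤ 2 * dd f (tw e g) := by
  have key : dd (tw e g) (tw (τ ^ s) (tw e g)) = JJ τ g s := by
    rw [← tw_mul, h, tw_mul, dd_tw]
    have := dd_tw (τ ^ s) g (tw (τ ^ s)⁻¹ g)
    rw [← tw_mul, mul_inv_cancel, tw_one] at this
    rw [← this, dd_comm]
    rfl
  have k1 : dd (tw (τ ^ s) (tw e g)) (tw (τ ^ s) f) = dd f (tw e g) := by
    rw [dd_tw, dd_comm]
  have t1 := dd_tri f (tw e g) (tw (τ ^ s) f)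
  have t2 := dd_tri (tw e g) (tw (τ ^ s) (tw e g)) (tw (τ ^ s) f)
  have t3 := dd_tri (tw e g) f (tw (τ ^ s) (tw e g))
  have t4 := dd_tri f (tw (τ ^ s) f) (tw (τ ^ s) (tw e g))
  rw [dd_comm (tw e g) f] at t3
  rw [dd_comm (tw (τ ^ s) f) (tw (τ ^ s) (tw e g))] at t4
  have e1 : JJ τ f s = dd f (tw (τ ^ s) f) := rfl
  rw [abs_le]
  constructor <;> linarith

/-- the commutation rule between shifts and moved reflections -/
theorem refl_comm (τ ρ : Equiv.Perm ι × Equiv.Perm X) (h2 : ρ * τ = τ⁻¹ * ρ) (c s : ℕ) :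
    τ ^ s * (ρ * τ ^ c) = ρ * τ ^ c * (τ ^ s)⁻¹ := by
  have h3 : ∀ n : ℕ, ρ * τ ^ n = (τ ^ n)⁻¹ * ρ := by
    intro n
    induction n with
    | zero => simp
    | succ n ih =>
      rw [pow_succ, ← mul_assoc, ih, mul_assoc, h2, ← mul_assoc, ← mul_inv_rev]
      rw [← pow_succ', ← pow_succ]
  have h4 : ∀ n : ℕ, τ ^ n * ρ = ρ * (τ ^ n)⁻¹ := by
    intro n
    have := h3 n
    rw [eq_mul_inv_iff_mul_eq, mul_assoc, this, ← mul_assoc, mul_inv_cancel, one_mul]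
  rw [← mul_assoc, h4, mul_assoc, mul_assoc]
  congr 1
  have : Commute (τ ^ s)⁻¹ (τ ^ c) := ((Commute.refl τ).pow_pow s c).inv_left
  exact this.eq

theorem refl_invol (τ ρ : Equiv.Perm ι × Equiv.Perm X) (h1 : ρ * ρ = 1) (h2 : ρ * τ = τ⁻¹ * ρ)
    (c : ℕ) : (ρ * τ ^ c) * (ρ * τ ^ c) = 1 := by
  rw [mul_assoc, refl_comm τ ρ h2 c c, ← mul_assoc, ← mul_assoc, h1, one_mul, mul_inv_cancel]

end Move

/-! ## The window -/

section Pat

variable {X : Type*} {ι α : Type} [Fintype ι] [DecidableEq ι] [Fintype α]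

/-- the relation at the group `k` of the localised traces for the reflection number `j` with the
centre number `c` -/
def rl (sg : ℤ → (ι → α) → X) (τ : Equiv.Perm ι × Equiv.Perm X)
    (ρ : Fin 2 → Equiv.Perm ι × Equiv.Perm X) (rel : ℤ → X → X → SignType) (j : Fin 2) (c : ℕ)
    (k : ℤ) (ω : ι → α) : SignType :=
  rel k (sg k ω) (tw (ρ j * τ ^ c) (sg (7 + 2 * (j : ℕ) - k)) ω)

/-- Everything that is used about the window. `rel k T T' = 1`: `T` is above `T'`, `-1`: below,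
`0`: they meet. -/
structure Hyp (grp : ℤ → Finset ι) (sg : ℤ → (ι → α) → X)
    (τ : Equiv.Perm ι × Equiv.Perm X) (ρ : Fin 2 → Equiv.Perm ι × Equiv.Perm X)
    (rel : ℤ → X → X → SignType) (N S : ℕ) : Prop where
  disj : ∀ j k : ℤ, 1 ≤ j → j < k → k ≤ 7 → Disjoint (grp j) (grp k)
  dep : ∀ k : ℤ, 1 ≤ k → k ≤ 7 → Dep (grp k) (sg k)
  tauG : ∀ k : ℤ, 1 ≤ k → k ≤ 7 → ∀ i, τ.1 i ∈ grp k ↔ i ∈ grp k
  rhoG : ∀ j : Fin 2, ∀ k : ℤ, 1 + (j : ℕ) ≤ k → k ≤ 6 + (j : ℕ) →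
    ∀ i, (ρ j).1 i ∈ grp k ↔ i ∈ grp (7 + 2 * (j : ℕ) - k)
  rho2 : ∀ j, ρ j * ρ j = 1
  rhotau : ∀ j, ρ j * τ = τ⁻¹ * ρ j
  /-- shift by one -/
  jone : ∀ k : ℤ, 1 ≤ k → k ≤ 7 → JJ τ (sg k) 1 ≤ 1 / 100
  /-- excluded pattern for the rotation by `s` -/
  pattau : ∀ s ≤ S, Pr (fun ω => sg 3 ω = tw (τ ^ s) (sg 3) ω ∧ sg 4 ω ≠ tw (τ ^ s) (sg 4) ω ∧
    sg 5 ω = tw (τ ^ s) (sg 5) ω) ≤ 1 / 1000
  /-- excluded patterns for the reflections -/
  patrho : ∀ j : Fin 2, ∀ c ≤ N, ∀ k₁ k₂ k₃ : ℤ, 1 + (j : ℕ) ≤ k₁ → k₁ < k₂ → k₂ < k₃ →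
    k₃ ≤ 6 + (j : ℕ) →
    (∀ x : SignType, x ≠ 0 → Pr (fun ω => rl sg τ ρ rel j c k₁ ω = x ∧
      rl sg τ ρ rel j c k₂ ω = -x ∧ rl sg τ ρ rel j c k₃ ω = x) ≤ 1 / 1000) ∧
    Pr (fun ω => rl sg τ ρ rel j c k₁ ω = 0 ∧
      sg k₂ ω ≠ tw (ρ j * τ ^ c) (sg (7 + 2 * (j : ℕ) - k₂)) ω ∧
      rl sg τ ρ rel j c k₃ ω = 0) ≤ 1 / 1000
  selfrel : ∀ k : ℤ, 1 ≤ k → k ≤ 7 → ∀ ω, rel k (sg k ω) (sg k ω) = 0
  symrel : ∀ j : Fin 2, ∀ c ≤ N, ∀ ω ω',
    rel (1 + (j : ℕ)) (sg (1 + (j : ℕ)) ω) ((ρ j * τ ^ c).2 (sg (6 + (j : ℕ)) ω'))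
      = rel (6 + (j : ℕ)) (sg (6 + (j : ℕ)) ω') ((ρ j * τ ^ c).2 (sg (1 + (j : ℕ)) ω))
  start : ∀ j : Fin 2, ∀ ω ω',
    rel (1 + (j : ℕ)) (sg (1 + (j : ℕ)) ω) ((ρ j).2 (sg (6 + (j : ℕ)) ω')) = -1
  fin : ∀ j : Fin 2, ∀ ω ω',
    rel (1 + (j : ℕ)) (sg (1 + (j : ℕ)) ω) ((ρ j * τ ^ N).2 (sg (6 + (j : ℕ)) ω')) = 1
  endtau : ∀ ω ω', sg 4 ω ≠ (τ ^ S).2 (sg 4 ω')

variable {grp : ℤ → Finset ι} {sg : ℤ → (ι → α) → X}
  {τ : Equiv.Perm ι × Equiv.Perm X} {ρ : Fin 2 → Equiv.Perm ι × Equiv.Perm X}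
  {rel : ℤ → X → X → SignType} {N S : ℕ}

omit [Fintype ι] [DecidableEq ι] in
theorem pow_grp (g : Equiv.Perm ι × Equiv.Perm X) (G : Finset ι) (h : ∀ i, g.1 i ∈ G ↔ i ∈ G)
    (c : ℕ) : ∀ i, (g ^ c).1 i ∈ G ↔ i ∈ G := by
  induction c with
  | zero => intro i; simp
  | succ n ih =>
    intro i
    rw [pow_succ, Prod.fst_mul, Equiv.Perm.mul_apply, ih, h]

variable [Nonempty α]

/-- one centre of reflection -/
theorem Hyp.centre (H : Hyp grp sg τ ρ rel N S) (j : Fin 2) :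
    ∃ c ≤ N, dd (sg (3 + (j : ℕ))) (tw (ρ j * τ ^ c) (sg (4 + (j : ℕ)))) ≤ 2 * (1 / 1000) := by
  classical
  have hj := j.isLt
  -- group numbers
  let G : Fin 4 → ℤ := ![1 + (j : ℕ), 6 + (j : ℕ), 2 + (j : ℕ), 5 + (j : ℕ)]
  have hG : ∀ i, 1 + ((j : ℕ) : ℤ) ≤ G i ∧ G i ≤ 6 + (j : ℕ) := by
    intro i
    fin_cases i <;> simp [G]
  let pr : ℕ → Fin 4 → SignType → ℝ := fun c i x => Pr (fun ω => rl sg τ ρ rel j c (G i) ω = x)
  have hgrp : ∀ c : ℕ, ∀ k : ℤ, 1 + (j : ℕ) ≤ k → k ≤ 6 + (j : ℕ) → ∀ i,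
      (ρ j * τ ^ c).1 i ∈ grp k ↔ i ∈ grp (7 + 2 * (j : ℕ) - k) := by
    intro c k hk1 hk2 i
    rw [Prod.fst_mul, Equiv.Perm.mul_apply, H.rhoG j k hk1 hk2]
    exact pow_grp τ _ (H.tauG _ (by omega) (by omega)) c i
  have hdep : ∀ c : ℕ, ∀ k : ℤ, 1 + (j : ℕ) ≤ k → k ≤ 6 + (j : ℕ) →
      Dep (grp k) (fun ω => (sg k ω, tw (ρ j * τ ^ c) (sg (7 + 2 * (j : ℕ) - k)) ω)) := by
    intro c k hk1 hk2
    exact (H.dep k (by omega) (by omega)).pair
      (tw_dep (hgrp c k hk1 hk2) (H.dep _ (by omega) (by omega)))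
  -- patterns
  have hpat : ∀ c ≤ N, ∀ k₁ k₂ k₃ : ℤ, 1 + (j : ℕ) ≤ k₁ → k₁ < k₂ → k₂ < k₃ → k₃ ≤ 6 + (j : ℕ) →
      (∀ x : SignType, x ≠ 0 → Pr (fun ω => rl sg τ ρ rel j c k₁ ω = x) *
        Pr (fun ω => rl sg τ ρ rel j c k₂ ω = -x) *
        Pr (fun ω => rl sg τ ρ rel j c k₃ ω = x) ≤ 1 / 1000) ∧
      Pr (fun ω => rl sg τ ρ rel j c k₁ ω = 0) *
        dd (sg k₂) (tw (ρ j * τ ^ c) (sg (7 + 2 * (j : ℕ) - k₂))) *
        Pr (fun ω => rl sg τ ρ rel j c k₃ ω = 0) ≤ 1 / 1000 := by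
    intro c hc k₁ k₂ k₃ h1 h12 h23 h3
    have hp := H.patrho j c hc k₁ k₂ k₃ h1 h12 h23 h3
    have d12 := H.disj k₁ k₂ (by omega) h12 (by omega)
    have d13 := H.disj k₁ k₃ (by omega) (by omega) (by omega)
    have d23 := H.disj k₂ k₃ (by omega) h23 (by omega)
    constructor
    · intro x hx
      have h := Pr_three d12 d13 d23 (hdep c k₁ h1 (by omega)) (hdep c k₂ (by omega) (by omega))
        (hdep c k₃ (by omega) h3)
        (fun q => rel k₁ q.1 q.2 = x) (fun q => rel k₂ q.1 q.2 = -x) (fun q => rel k₃ q.1 q.2 = x)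
      exact le_trans (le_of_eq h.symm) (hp.1 x hx)
    · have h := Pr_three d12 d13 d23 (hdep c k₁ h1 (by omega)) (hdep c k₂ (by omega) (by omega))
        (hdep c k₃ (by omega) h3)
        (fun q => rel k₁ q.1 q.2 = 0) (fun q => q.1 ≠ q.2) (fun q => rel k₃ q.1 q.2 = 0)
      exact le_trans (le_of_eq h.symm) hp.2
  -- meeting versus coincidence
  have hcoin : ∀ c, ∀ k : ℤ, 1 + (j : ℕ) ≤ k → k ≤ 6 + (j : ℕ) →
      Pr (fun ω => rl sg τ ρ rel j c k ω = -1) + Pr (fun ω => rl sg τ ρ rel j c k ω = 1)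
      ≤ dd (sg k) (tw (ρ j * τ ^ c) (sg (7 + 2 * (j : ℕ) - k))) := by
    intro c k hk1 hk2
    rw [← Pr_or_of_disjoint]
    · refine Pr_mono fun ω hω => ?_
      intro heq
      have h0 : rl sg τ ρ rel j c k ω = 0 := by
        unfold rl
        rw [← heq]
        exact H.selfrel k (by omega) (by omega) _
      rw [h0] at hω
      rcases hω with h | h
      · exact absurd h (by decide)
      · exact absurd h (by decide)
    · rintro ω ⟨h1, h2⟩
      rw [h1] at h2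
      exact absurd h2 (by decide)
  have hsum : ∀ c, ∀ i, pr c i (-1) + pr c i 1 + pr c i 0 = 1 := by
    intro c i
    have h1 : pr c i (-1) + pr c i 1 =
        Pr (fun ω => rl sg τ ρ rel j c (G i) ω = -1 ∨ rl sg τ ρ rel j c (G i) ω = 1) := by
      rw [Pr_or_of_disjoint]
      rintro ω ⟨h1, h2⟩
      rw [h1] at h2
      exact absurd h2 (by decide)
    have h2 : pr c i 0 = Pr (fun ω => ¬ (rl sg τ ρ rel j c (G i) ω = -1 ∨
          rl sg τ ρ rel j c (G i) ω = 1)) := by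
      refine Pr_congr fun ω => ?_
      generalize rl sg τ ρ rel j c (G i) ω = x
      revert x
      decide
    rw [h1, h2, Pr_not]
    ring
  have m1 : (7 + 2 * ((j : ℕ) : ℤ) - (1 + (j : ℕ))) = 6 + (j : ℕ) := by ring
  have m6 : (7 + 2 * ((j : ℕ) : ℤ) - (6 + (j : ℕ))) = 1 + (j : ℕ) := by ring
  -- symmetry
  have hsym : ∀ c ≤ N, ∀ x, pr c 0 x = pr c 1 x := by
    intro c hc x
    have hinv := refl_invol τ (ρ j) (H.rho2 j) (H.rhotau j) c
    have h1 := Pr_perm (ι := ι) (α := α) (ρ j * τ ^ c).1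
      (fun ω => rl sg τ ρ rel j c (6 + (j : ℕ)) ω = x)
    have e1 : pr c 1 x = Pr (fun ω => rl sg τ ρ rel j c (6 + (j : ℕ)) ω = x) := rfl
    have e0 : pr c 0 x = Pr (fun ω => rl sg τ ρ rel j c (1 + (j : ℕ)) ω = x) := rfl
    rw [e1, ← h1, e0]
    refine Pr_congr fun ω => ?_
    have hs := H.symrel j c hc ω (fun i => ω ((ρ j * τ ^ c).1 i))
    have l1 : rl sg τ ρ rel j c (1 + (j : ℕ)) ω =
        rel (1 + (j : ℕ)) (sg (1 + (j : ℕ)) ω) ((ρ j * τ ^ c).2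
          (sg (6 + (j : ℕ)) (fun i => ω ((ρ j * τ ^ c).1 i)))) := by
      unfold rl
      rw [m1]
      rfl
    have l2 : rl sg τ ρ rel j c (6 + (j : ℕ)) (fun i => ω ((ρ j * τ ^ c).1 i)) =
        rel (6 + (j : ℕ)) (sg (6 + (j : ℕ)) (fun i => ω ((ρ j * τ ^ c).1 i)))
          ((ρ j * τ ^ c).2 (sg (1 + (j : ℕ)) ω)) := by
      unfold rl
      rw [m6]
      unfold tw
      have h3 : ∀ i, (ρ j * τ ^ c).1 ((ρ j * τ ^ c).1 i) = i := by
        intro i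
        rw [← Equiv.Perm.mul_apply, ← Prod.fst_mul, hinv]
        rfl
      simp only [h3]
    rw [l1, hs, ← l2]
  -- increments
  have hinc : ∀ c < N, |pr (c + 1) 0 (-1) - pr c 0 (-1)| ≤ 1 / 100 := by
    intro c _
    have h1 := Pr_sub_le (Ω := ι → α)
      (fun ω => (sg (1 + (j : ℕ)) ω, tw (ρ j * τ ^ (c + 1)) (sg (6 + (j : ℕ))) ω))
      (fun ω => (sg (1 + (j : ℕ)) ω, tw (ρ j * τ ^ c) (sg (6 + (j : ℕ))) ω))
      (fun q => rel (1 + (j : ℕ)) q.1 q.2 = -1)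
    have h2 : Pr (fun ω => (sg (1 + (j : ℕ)) ω, tw (ρ j * τ ^ (c + 1)) (sg (6 + (j : ℕ))) ω)
        ≠ (sg (1 + (j : ℕ)) ω, tw (ρ j * τ ^ c) (sg (6 + (j : ℕ))) ω)) ≤
        dd (tw (ρ j * τ ^ (c + 1)) (sg (6 + (j : ℕ)))) (tw (ρ j * τ ^ c) (sg (6 + (j : ℕ)))) := by
      refine Pr_mono fun ω hω heq => hω ?_
      exact Prod.ext rfl heq
    have h3 : dd (tw (ρ j * τ ^ (c + 1)) (sg (6 + (j : ℕ))))
        (tw (ρ j * τ ^ c) (sg (6 + (j : ℕ)))) = JJ τ (sg (6 + (j : ℕ))) 1 := by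
      rw [pow_succ, ← mul_assoc, tw_mul, dd_tw, dd_comm]
      unfold JJ
      rw [pow_one]
    have h4 := H.jone (6 + (j : ℕ)) (by omega) (by omega)
    have e1 : ∀ c, pr c 0 (-1) = Pr (fun ω => rel (1 + (j : ℕ)) (sg (1 + (j : ℕ)) ω)
        (tw (ρ j * τ ^ c) (sg (6 + (j : ℕ))) ω) = -1) := by
      intro c
      refine Pr_congr fun ω => ?_
      show rl sg τ ρ rel j c (1 + (j : ℕ)) ω = -1 ↔ _
      unfold rl
      rw [m1]
    rw [e1, e1]
    refine h1.trans (h2.trans ?_)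
    rw [h3]
    exact h4
  have hnn : ∀ c i x, 0 ≤ pr c i x := fun c i x => Pr_nonneg _
  have hmid : ∀ i : Fin 4, i = 2 ∨ i = 3 → 1 + ((j : ℕ) : ℤ) < G i ∧ G i < 6 + (j : ℕ) := by
    intro i hi
    rcases hi with rfl | rfl
    · show 1 + ((j : ℕ) : ℤ) < 2 + (j : ℕ) ∧ 2 + ((j : ℕ) : ℤ) < 6 + (j : ℕ)
      omega
    · show 1 + ((j : ℕ) : ℤ) < 5 + (j : ℕ) ∧ 5 + ((j : ℕ) : ℤ) < 6 + (j : ℕ)
      omega
  obtain ⟨c, hc, hD⟩ := centre_pick (κ := Unit) N (1 / 1000) (1 / 100) (by norm_num) (by norm_num)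
    (fun c i => pr c i (-1)) (fun c i => pr c i 1) (fun c i => pr c i 0)
    (fun c _ => dd (sg (3 + (j : ℕ))) (tw (ρ j * τ ^ c) (sg (4 + (j : ℕ)))))
    (fun c _ i => hnn c i _) (fun c _ i => hnn c i _) (fun c _ i => hnn c i _)
    (fun c _ _ => dd_nonneg _ _) (fun c _ i => hsum c i)
    (fun c hc => hsym c hc _) (fun c hc => hsym c hc _)
    (fun c hc i hi => ((hpat c hc (1 + (j : ℕ)) (G i) (6 + (j : ℕ)) le_rfl (hmid i hi).1
      (hmid i hi).2 le_rfl).1 (-1) (by decide)))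
    (fun c hc i hi => ((hpat c hc (1 + (j : ℕ)) (G i) (6 + (j : ℕ)) le_rfl (hmid i hi).1
      (hmid i hi).2 le_rfl).1 1 (by decide)))
    (fun c hc i hi => by
      have h1 := (hpat c hc (1 + (j : ℕ)) (G i) (6 + (j : ℕ)) le_rfl (hmid i hi).1
        (hmid i hi).2 le_rfl).2
      have h2 := hcoin c (G i) (hG i).1 (hG i).2
      refine le_trans ?_ h1
      refine mul_le_mul_of_nonneg_right ?_ (hnn c 1 0)
      exact mul_le_mul_of_nonneg_left h2 (hnn c 0 0))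
    (fun c hc _ => by
      have h1 := (hpat c hc (2 + (j : ℕ)) (3 + (j : ℕ)) (5 + (j : ℕ)) (by omega) (by omega)
        (by omega) (by omega)).2
      have h2 : (7 + 2 * ((j : ℕ) : ℤ) - (3 + (j : ℕ))) = 4 + (j : ℕ) := by ring
      rw [h2] at h1
      exact h1)
    hinc
    (by
      have h1 : pr 0 0 (-1) = 1 := by
        rw [← Pr_true (Ω := ι → α)]
        refine Pr_congr fun ω => ⟨fun _ => trivial, fun _ => ?_⟩
        show rl sg τ ρ rel j 0 (1 + (j : ℕ)) ω = -1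
        unfold rl
        rw [m1, pow_zero, mul_one]
        exact H.start j _ _
      show 1 - 1 / 100 ≤ pr 0 0 (-1)
      rw [h1]; norm_num)
    (by
      have h1 : pr N 0 1 = 1 := by
        rw [← Pr_true (Ω := ι → α)]
        refine Pr_congr fun ω => ⟨fun _ => trivial, fun _ => ?_⟩
        show rl sg τ ρ rel j N (1 + (j : ℕ)) ω = 1
        unfold rl
        rw [m1]
        exact H.fin j _ _
      show 1 - 1 / 100 ≤ pr N 0 1
      rw [h1]; norm_num)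
  exact ⟨c, hc, hD ()⟩

/-- the contradiction -/
theorem Hyp.false (H : Hyp grp sg τ ρ rel N S) : False := by
  classical
  obtain ⟨c0, hc0, h0⟩ := H.centre 0
  obtain ⟨c1, hc1, h1⟩ := H.centre 1
  have h0' : dd (sg 3) (tw (ρ 0 * τ ^ c0) (sg 4)) ≤ 2 * (1 / 1000) := by simpa using h0
  have h1' : dd (sg 4) (tw (ρ 1 * τ ^ c1) (sg 5)) ≤ 2 * (1 / 1000) := by simpa using h1
  refine final_contra (1 / 1000) (1 / 100) (by norm_num) (by norm_num)
    (fun s => JJ τ (sg 3) s) (fun s => JJ τ (sg 4) s)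
    (fun s => JJ τ (sg 5) s) S ?_ ?_ ?_ ?_ ?_ ?_
  · intro s _
    have h := JJ_reflect τ (ρ 0 * τ ^ c0) (sg 3) (sg 4) s
      (refl_comm τ (ρ 0) (H.rhotau 0) c0 s)
    linarith
  · intro s _
    have h := JJ_reflect τ (ρ 1 * τ ^ c1) (sg 4) (sg 5) s
      (refl_comm τ (ρ 1) (H.rhotau 1) c1 s)
    rw [abs_sub_comm] at h
    linarith
  · intro s hs
    have hp := H.pattau s hs
    have hdep : ∀ k : ℤ, 1 ≤ k → k ≤ 7 → Dep (grp k) (fun ω => (sg k ω, tw (τ ^ s) (sg k) ω)) := by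
      intro k hk1 hk2
      exact (H.dep k hk1 hk2).pair (tw_dep (pow_grp τ _ (H.tauG k hk1 hk2) s) (H.dep k hk1 hk2))
    have h := Pr_three (H.disj 3 4 (by norm_num) (by norm_num) (by norm_num))
      (H.disj 3 5 (by norm_num) (by norm_num) (by norm_num))
      (H.disj 4 5 (by norm_num) (by norm_num) (by norm_num))
      (hdep 3 (by norm_num) (by norm_num)) (hdep 4 (by norm_num) (by norm_num))
      (hdep 5 (by norm_num) (by norm_num))
      (fun q => q.1 = q.2) (fun q => q.1 ≠ q.2) (fun q => q.1 = q.2)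
    have hz : ∀ k : ℤ, 1 - JJ τ (sg k) s = Pr (fun ω => sg k ω = tw (τ ^ s) (sg k) ω) := by
      intro k
      have e1 : 1 - JJ τ (sg k) s = Pr (fun ω => ¬ (sg k ω ≠ tw (τ ^ s) (sg k) ω)) := by
        rw [Pr_not]
        rfl
      rw [e1]
      exact Pr_congr fun ω => not_not
    show (1 - JJ τ (sg 3) s) * JJ τ (sg 4) s * (1 - JJ τ (sg 5) s) ≤ 1 / 1000
    rw [hz, hz]
    exact le_trans (le_of_eq h.symm) hp
  · rw [JJ_zero]
    norm_num
  · have h1 : JJ τ (sg 4) S = 1 := by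
      unfold JJ dd
      rw [← Pr_true (Ω := ι → α)]
      exact Pr_congr fun ω => ⟨fun _ => trivial, fun _ => H.endtau _ _⟩
    rw [h1]
    norm_num
  · intro s _
    exact (JJ_step τ (sg 4) s).trans (H.jone 4 (by norm_num) (by norm_num))

end Pat

end Pool.Agent.FPZ.Q67
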