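import Pool.Agent.FPZ.W2Defs
import Pool.Agent.FPZ.Q67Abs

/-!
# FPZ, sections 6 and 7: the contradiction from `Sig`, `J1`, `PatR`, `PatF`

`grp`: for a window `W` the localisation maps, the shift by one and the excluded patterns are
contradictory.  The only geometric input that is left as a hypothesis is `hodd`: the trace of the
geodesic in the middle part of a group has an odd number of edges that cross the middle line.
-/

set_option autoImplicit false

noncomputable section

namespace Pool.Agent.FPZ.Q67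

open Finset Pool.FPP Pool.Agent.FPZ

/-! ## symmetries of edges -/

theorem shE_shE (z z' : V) (e : E) : shE z (shE z' e) = shE (z + z') e := by
  unfold shE
  ext <;> simp <;> ring

theorem shE_zero (e : E) : shE 0 e = e := by
  unfold shE
  simp

theorem hd_shE (z : V) (e : E) : hd (shE z e) = hd e + z := by
  unfold hd shE
  rcases e with ⟨⟨x, y⟩, d⟩
  rcases z with ⟨z1, z2⟩
  cases d <;> simp <;> ring

theorem hd_rfE (c : V) (e : E) : hd (rfE c e) = c - e.1 := by
  unfold rfE hd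
  rcases e with ⟨⟨x, y⟩, d⟩
  rcases c with ⟨c1, c2⟩
  cases d <;> simp <;> ring

theorem rfE_rfE (c : V) (e : E) : rfE c (rfE c e) = e := by
  have h := hd_rfE c e
  unfold rfE at h ⊢
  ext
  · simp [h]
  · simp [h]
  · rfl

theorem rfE_shE (c z : V) (e : E) : rfE c (shE z e) = rfE (c - z) e := by
  unfold rfE
  rw [hd_shE]
  ext
  · simp; ring
  · simp; ring
  · rfl

theorem shE_rfE (c z : V) (e : E) : shE z (rfE c e) = rfE (c + z) e := by
  unfold rfE shE
  ext
  · simp; ring
  · simp; ring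
  · rfl

/-- translation of edges as a permutation -/
def shP (z : V) : Equiv.Perm E where
  toFun := shE z
  invFun := shE (-z)
  left_inv e := by rw [shE_shE, neg_add_cancel, shE_zero]
  right_inv e := by rw [shE_shE, add_neg_cancel, shE_zero]

/-- reflection of edges as a permutation -/
def rfP (c : V) : Equiv.Perm E where
  toFun := rfE c
  invFun := rfE c
  left_inv e := rfE_rfE c e
  right_inv e := rfE_rfE c e

/-- action of a permutation on finite sets -/
def imP (e : Equiv.Perm E) : Equiv.Perm (Finset E) where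
  toFun S := S.image e
  invFun S := S.image e.symm
  left_inv S := by
    show (S.image e).image e.symm = S
    rw [Finset.image_image]
    simp
  right_inv S := by
    show (S.image e.symm).image e = S
    rw [Finset.image_image]
    simp

theorem imP_mul (e e' : Equiv.Perm E) : imP (e * e') = imP e * imP e' := by
  ext1 S
  show S.image (e * e') = (S.image e').image e
  rw [Finset.image_image]
  rfl

theorem imP_one : imP 1 = 1 := by
  ext1 S
  show S.image (fun x => x) = S
  simp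

section Index

variable {N : ℕ}

/-- translation of torus edges -/
def shI (z : V) : Equiv.Perm (Ix N) where
  toFun i := ((i.1.1 + (z.1 : ZMod N), i.1.2 + (z.2 : ZMod N)), i.2)
  invFun i := ((i.1.1 - (z.1 : ZMod N), i.1.2 - (z.2 : ZMod N)), i.2)
  left_inv i := by simp
  right_inv i := by simp

theorem hdI_rf (c : V) (i : Ix N) :
    hdI (((c.1 : ZMod N) - (hdI i).1, (c.2 : ZMod N) - (hdI i).2), i.2)
      = ((c.1 : ZMod N) - i.1.1, (c.2 : ZMod N) - i.1.2) := by
  rcases i with ⟨⟨x, y⟩, d⟩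
  unfold hdI
  cases d
  · simp
    ring
  · simp
    ring

/-- reflection of torus edges -/
def rfI (c : V) : Equiv.Perm (Ix N) where
  toFun i := (((c.1 : ZMod N) - (hdI i).1, (c.2 : ZMod N) - (hdI i).2), i.2)
  invFun i := (((c.1 : ZMod N) - (hdI i).1, (c.2 : ZMod N) - (hdI i).2), i.2)
  left_inv i := by
    simp only [hdI_rf]
    simp
  right_inv i := by
    simp only [hdI_rf]
    simp

theorem rfI_shI (c z : V) (i : Ix N) : rfI c (shI z i) = rfI (c - z) i := by
  rcases i with ⟨⟨x, y⟩, d⟩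
  cases d
  · simp only [rfI, shI, hdI, Equiv.coe_fn_mk, Prod.fst_sub, Prod.snd_sub, Int.cast_sub]
    simp
    constructor <;> ring
  · simp only [rfI, shI, hdI, Equiv.coe_fn_mk, Prod.fst_sub, Prod.snd_sub, Int.cast_sub]
    simp
    constructor <;> ring

theorem shI_rfI (c z : V) (i : Ix N) : shI z (rfI c i) = rfI (c + z) i := by
  rcases i with ⟨⟨x, y⟩, d⟩
  cases d
  · simp only [rfI, shI, hdI, Equiv.coe_fn_mk, Prod.fst_add, Prod.snd_add, Int.cast_add]
    simp
    constructor <;> ring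
  · simp only [rfI, shI, hdI, Equiv.coe_fn_mk, Prod.fst_add, Prod.snd_add, Int.cast_add]
    simp
    constructor <;> ring

theorem shI_shI (z z' : V) (i : Ix N) : shI z (shI z' i) = shI (z + z') i := by
  rcases i with ⟨⟨x, y⟩, d⟩
  simp only [shI, Equiv.coe_fn_mk, Prod.fst_add, Prod.snd_add, Int.cast_add]
  simp
  constructor <;> ring

/-- the shift as a symmetry -/
def tauW : Equiv.Perm (Ix N) × Equiv.Perm (Finset E) := (shI (su 1), imP (shP (su 1)))

/-- the reflection as a symmetry -/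
def rhoW (c : V) : Equiv.Perm (Ix N) × Equiv.Perm (Finset E) := (rfI c, imP (rfP c))

theorem tau_pow (s : ℕ) : (tauW (N := N)) ^ s = (shI (su s), imP (shP (su s))) := by
  induction s with
  | zero =>
    refine Prod.ext ?_ ?_
    · ext1 i
      rcases i with ⟨⟨x, y⟩, d⟩
      simp [shI, su]
    · have : shP (su ((0 : ℕ) : ℤ)) = 1 := by
        ext1 e
        show shE (su 0) e = e
        have : su 0 = 0 := by simp [su]
        rw [this, shE_zero]
      simp only [pow_zero, Prod.snd_one, this, imP_one]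
  | succ n ih =>
    rw [pow_succ, ih]
    have hs : su ((n : ℤ)) + su 1 = su (((n + 1 : ℕ) : ℤ)) := by
      unfold su
      ext
      · simp
      · simp; ring
    refine Prod.ext ?_ ?_
    · ext1 i
      show shI (su n) (shI (su 1) i) = shI (su ((n + 1 : ℕ) : ℤ)) i
      rw [shI_shI, hs]
    · show imP (shP (su n)) * imP (shP (su 1)) = imP (shP (su ((n + 1 : ℕ) : ℤ)))
      rw [← imP_mul]
      congr 1
      ext1 e
      show shE (su n) (shE (su 1) e) = shE (su ((n + 1 : ℕ) : ℤ)) e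
      rw [shE_shE, hs]

theorem rho_mul (c : V) : (rhoW (N := N) c) * rhoW c = 1 := by
  refine Prod.ext ?_ ?_
  · ext1 i
    exact (rfI c).left_inv i
  · show imP (rfP c) * imP (rfP c) = 1
    rw [← imP_mul]
    have : rfP c * rfP c = 1 := by
      ext1 e
      exact rfE_rfE c e
    rw [this, imP_one]

theorem rho_tau (c : V) : (rhoW (N := N) c) * tauW = tauW⁻¹ * rhoW c := by
  rw [eq_inv_mul_iff_mul_eq]
  refine Prod.ext ?_ ?_
  · ext1 i
    show shI (su 1) (rfI c (shI (su 1) i)) = rfI c i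
    rw [rfI_shI, shI_rfI]
    simp
  · show imP (shP (su 1)) * (imP (rfP c) * imP (shP (su 1))) = imP (rfP c)
    rw [← imP_mul, ← imP_mul]
    congr 1
    ext1 e
    show shE (su 1) (rfE c (shE (su 1) e)) = rfE c e
    rw [rfE_shE, shE_rfE]
    simp

theorem rho_tau_pow (c : V) (s : ℕ) : (rhoW (N := N) c) * tauW ^ s = rhoW (c - su s) := by
  rw [tau_pow]
  refine Prod.ext ?_ ?_
  · ext1 i
    show rfI c (shI (su s) i) = rfI (c - su s) i
    rw [rfI_shI]
  · show imP (rfP c) * imP (shP (su s)) = imP (rfP (c - su s))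
    rw [← imP_mul]
    congr 1
    ext1 e
    show rfE c (shE (su s) e) = rfE (c - su s) e
    rw [rfE_shE]

end Index

/-! ## the line relation under the reflection -/

theorem col_hd (e : E) : col (hd e) = col e.1 + (if e.2 then 1 else 2) := by
  rcases e with ⟨⟨x, y⟩, d⟩
  unfold hd col
  cases d
  · simp; ring
  · simp; ring

theorem col_sub (z z' : V) : col (z - z') = col z - col z' := by
  unfold col
  simp; ring

theorem crs_rf {L L' : ℤ} {c : V} (h : L + L' + 1 = col c) (e : E) :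
    crs L' (rfE c e) ↔ crs L e := by
  unfold crs
  rw [hd_rfE]
  have h1 : col (rfE c e).1 = col c - col (hd e) := col_sub c (hd e)
  rw [h1, col_sub]
  constructor
  · rintro ⟨h2, h3⟩
    constructor <;> omega
  · rintro ⟨h2, h3⟩
    constructor <;> omega

theorem hgt_rf {L L' : ℤ} {c : V} (h : L + L' + 1 = col c) (e : E) (he : crs L e) :
    hgt L' (rfE c e) = 4 * c.1 - hgt L e := by
  rcases e with ⟨⟨x, y⟩, d⟩
  rcases c with ⟨c1, c2⟩
  unfold crs hd col at he
  unfold col at h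
  cases d
  · simp only [Bool.false_eq_true, if_false] at he
    unfold hgt rfE hd col
    simp only [Bool.false_eq_true, if_false, Prod.mk_sub_mk]
    simp only at h he
    split_ifs <;> omega
  · unfold hgt rfE hd col
    simp only [if_true, Prod.mk_sub_mk]
    ring

theorem rr_rf {L L' : ℤ} {c : V} (h : L + L' + 1 = col c) (A B : Finset E) :
    rr L A (B.image (rfE c)) = rr L' B (A.image (rfE c)) := by
  classical
  have h' : L' + L + 1 = col c := by rw [← h]; ring
  unfold rr
  refine Finset.card_bij' (fun q _ => (rfE c q.2, rfE c q.1)) (fun q _ => (rfE c q.2, rfE c q.1))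
    ?_ ?_ ?_ ?_
  · rintro ⟨e, g⟩ hq
    simp only [Finset.mem_filter, Finset.mem_product, Finset.mem_image] at hq ⊢
    obtain ⟨⟨he, f, hf, rfl⟩, c1, c2, hh⟩ := hq
    rw [rfE_rfE]
    have c2' : crs L' f := (crs_rf h' f).1 c2
    have hg := hgt_rf h' f c2'
    have hg2 := hgt_rf h e c1
    refine ⟨⟨hf, e, he, rfl⟩, c2', (crs_rf h e).2 c1, ?_⟩
    rw [hg2]
    rw [hg] at hh
    omega
  · rintro ⟨f, g⟩ hq
    simp only [Finset.mem_filter, Finset.mem_product, Finset.mem_image] at hq ⊢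
    obtain ⟨⟨hf, e, he, rfl⟩, c1, c2, hh⟩ := hq
    rw [rfE_rfE]
    have c2' : crs L e := (crs_rf h e).1 c2
    have hg := hgt_rf h e c2'
    have hg2 := hgt_rf h' f c1
    refine ⟨⟨he, f, hf, rfl⟩, c2', (crs_rf h' f).2 c1, ?_⟩
    rw [hg2]
    rw [hg] at hh
    omega
  · rintro ⟨e, g⟩ _
    simp [rfE_rfE]
  · rintro ⟨e, g⟩ _
    simp [rfE_rfE]

theorem inc_rf (c : V) (e : E) (z : V) : inc (rfE c e) (c - z) ↔ inc e z := by
  unfold inc
  rw [hd_rfE]
  have h1 : (rfE c e).1 = c - hd e := rfl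
  rw [h1]
  constructor
  · rintro (h | h)
    · right
      exact sub_right_injective h
    · left
      exact sub_right_injective h
  · rintro (h | h)
    · right
      rw [h]
    · left
      rw [h]

theorem meetS_rf (c : V) (A B : Finset E) :
    meetS A (B.image (rfE c)) ↔ meetS B (A.image (rfE c)) := by
  have key : ∀ A B : Finset E, meetS A (B.image (rfE c)) → meetS B (A.image (rfE c)) := by
    rintro A B ⟨e, he, g, hg, z, h1, h2⟩
    obtain ⟨f, hf, rfl⟩ := Finset.mem_image.1 hg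
    refine ⟨f, hf, rfE c e, Finset.mem_image_of_mem _ he, c - z, ?_, ?_⟩
    · have := (inc_rf c f (c - z)).1
      rw [sub_sub_cancel] at this
      exact this h2
    · exact (inc_rf c e z).2 h1
  exact ⟨key A B, key B A⟩

/-! ## the relation -/

section Rel

variable {N : ℕ} [NeZero N] {Al : Type} [Fintype Al] [Nonempty Al]

open Classical in
/-- relation of two traces at the middle line of the group `k` -/
def relW (W : Win N Al) (k : ℤ) (A B : Finset E) : SignType :=
  if meetS A B then 0 else if rr (W.mln k) A B % 2 = 1 then 1 else -1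

theorem relW_zero (W : Win N Al) (k : ℤ) (A B : Finset E) : relW W k A B = 0 ↔ meetS A B := by
  classical
  unfold relW
  split_ifs with h1 h2
  · simp [h1]
  · simp [h1]
  · simp [h1]

theorem relW_one (W : Win N Al) (k : ℤ) (A B : Finset E) : relW W k A B = 1 ↔ abv W k A B := by
  classical
  unfold relW abv
  split_ifs with h1 h2
  · simp [h1]
  · simp [h1, h2]
  · simp [h1, h2]

theorem relW_neg (W : Win N Al) (k : ℤ) (A B : Finset E) : relW W k A B = -1 ↔ blw W k A B := by
  classical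
  unfold relW blw
  split_ifs with h1 h2
  · simp [h1]
  · simp [h1, h2]
  · simp [h1]
    omega

theorem mln_add (W : Win N Al) (k κ : ℤ) :
    W.mln k + W.mln (κ - k) + 1 = 2 * W.x + 7 * (κ + 1) * W.L := by
  obtain ⟨m, hm⟩ := W.hodd
  unfold Win.mln Win.mlo
  have h1 : (W.L - 1) / 2 = m := by omega
  rw [h1, hm]
  ring

theorem relW_sym (W : Win N Al) (k κ : ℤ) (c : V) (hc : col c = 2 * W.x + 7 * (κ + 1) * W.L)
    (A B : Finset E) :
    relW W k A (B.image (rfE c)) = relW W (κ - k) B (A.image (rfE c)) := by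
  classical
  have h := mln_add W k κ
  rw [← hc] at h
  unfold relW
  rw [rr_rf h A B]
  have hm := meetS_rf c A B
  by_cases h1 : meetS A (B.image (rfE c))
  · rw [if_pos h1, if_pos (hm.1 h1)]
  · rw [if_neg h1, if_neg (fun h2 => h1 (hm.2 h2))]

/-! ## groups of torus edges -/

theorem colI_sh (s : ℤ) (i : Ix N) : colI (shI (su s) i) = colI i := by
  rcases i with ⟨⟨x, y⟩, d⟩
  unfold colI su
  simp only [shI, Equiv.coe_fn_mk]
  push_cast
  ring

theorem colI_rf (c : V) (i : Ix N) :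
    colI (rfI c i) = (col c : ZMod N) - colI i - (if i.2 then 1 else 2) := by
  rcases i with ⟨⟨x, y⟩, d⟩
  unfold colI col
  simp only [rfI, hdI, Equiv.coe_fn_mk]
  cases d
  · simp
    ring
  · simp
    ring

theorem clI_sh (α β s : ℤ) (i : Ix N) : shI (su s) i ∈ clI N α β ↔ i ∈ clI N α β := by
  classical
  unfold clI
  simp only [Finset.mem_filter, Finset.mem_univ, true_and]
  rw [colI_sh]
  rfl

theorem clI_rf (α β : ℤ) (c : V) (i : Ix N) :
    rfI c i ∈ clI N α β ↔ i ∈ clI N (col c - β) (col c - α) := by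
  classical
  unfold clI
  simp only [Finset.mem_filter, Finset.mem_univ, true_and]
  rw [colI_rf]
  have h2 : (rfI c i).2 = i.2 := rfl
  rw [h2]
  constructor
  · rintro ⟨k, h1, h2, h3⟩
    refine ⟨col c - k - (if i.2 then 1 else 2), ?_, ?_, ?_⟩
    · omega
    · omega
    · have h4 : colI i = (col c : ZMod N) - (k : ZMod N) - (if i.2 then 1 else 2) := by
        rw [← h3]; ring
      rw [h4]
      cases i.2 <;> simp
  · rintro ⟨k, h1, h2, h3⟩
    refine ⟨col c - k - (if i.2 then 1 else 2), ?_, ?_, ?_⟩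
    · omega
    · omega
    · rw [h3]
      cases i.2 <;> simp

theorem G_rf (W : Win N Al) (k κ : ℤ) (c : V) (hc : col c = 2 * W.x + 7 * (κ + 1) * W.L)
    (i : Ix N) : rfI c i ∈ W.G k ↔ i ∈ W.G (κ - k) := by
  unfold Win.G
  rw [clI_rf]
  have h1 : col c - W.hi k = W.lo (κ - k) := by
    unfold Win.hi Win.lo
    rw [hc]; ring
  have h2 : col c - W.lo k = W.hi (κ - k) := by
    unfold Win.hi Win.lo
    rw [hc]; ring
  rw [h1, h2]

theorem disj_cl {α β α' β' : ℤ} (h0 : 0 < α) (h1 : β ≤ α') (h2 : β' ≤ N) :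
    Disjoint (clI N α β) (clI N α' β') := by
  classical
  rw [Finset.disjoint_left]
  intro i hi hi'
  unfold clI at hi hi'
  simp only [Finset.mem_filter, Finset.mem_univ, true_and] at hi hi'
  obtain ⟨m, a1, a2, a3⟩ := hi
  obtain ⟨m', b1, b2, b3⟩ := hi'
  rw [a3, ZMod.intCast_eq_intCast_iff_dvd_sub] at b3
  obtain ⟨q, hq⟩ := b3
  have hw : (1 : ℤ) ≤ (if i.2 then 1 else 2) := by split_ifs <;> norm_num
  have hm : m < m' := by omega
  have hN : (0 : ℤ) < N := by
    have := NeZero.ne N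
    omega
  have hm2 : m' - m < N := by omega
  have hq1 : 0 < q := by
    by_contra hcon
    push Not at hcon
    have : (N : ℤ) * q ≤ 0 := by nlinarith
    omega
  have : (N : ℤ) * 1 ≤ N * q := by nlinarith
  omega

/-! ## ranges of traces -/

theorem tr_range (W : Win N Al) (k : ℤ) (ω : Ix N → Al) (e : E) (he : e ∈ W.tr k ω) :
    -W.Q ≤ e.1.1 ∧ e.1.1 ≤ W.Q ∧ -W.Q ≤ (hd e).1 ∧ (hd e).1 ≤ W.Q + 1 ∧ col e.1 ≤ 3 * W.Q ∧
      W.mlo k ≤ col e.1 := by
  classical
  unfold Win.tr trc at he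
  rw [Finset.mem_filter] at he
  obtain ⟨h1, h2⟩ := he
  unfold GE ges eset at h1
  obtain ⟨i, hi, rfl⟩ := Finset.mem_image.1 h1
  rw [Finset.mem_Ico] at hi
  have hb1 := W.hbox ω i (by unfold Gn; omega)
  have hb2 := W.hbox ω (i + 1) (by unfold Gn; omega)
  unfold Gp inBox at hb1 hb2
  rw [abs_le, abs_le] at hb1 hb2
  set P := gp (env W.wt ω) 0 W.v i with hP
  set P' := gp (env W.wt ω) 0 W.v (i + 1) with hP'
  have e1 : (edg P P').1.1 = min P.1 P'.1 := rfl
  have e2 : (edg P P').1.2 = min P.2 P'.2 := rfl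
  have hh : (edg P P').1.1 ≤ (hd (edg P P')).1 ∧ (hd (edg P P')).1 ≤ (edg P P').1.1 + 1 := by
    unfold hd
    split_ifs <;> simp
  refine ⟨by omega, by omega, by omega, by omega, ?_, h2.1⟩
  unfold col
  omega

variable (W : Win N Al)

/-- the centre of the reflection number `j` -/
def cenW (κ : ℤ) : V := (4 * W.Q, 2 * W.x + 7 * (κ + 1) * W.L - 8 * W.Q)

theorem col_cenW (κ n : ℤ) : col (cenW W κ - su n) = 2 * W.x + 7 * (κ + 1) * W.L := by
  unfold cenW su col
  simp
  ring

theorem Q_large (hodd : ∀ k : ℤ, 0 ≤ k → k ≤ 8 → ∀ ω : Ix N → Al,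
      ∃ e ∈ W.tr k ω, crs (W.mln k) e) : W.x + 59 * W.L ≤ 3 * W.Q := by
  obtain ⟨e, he, _⟩ := hodd 8 (by norm_num) le_rfl (fun _ => Classical.arbitrary Al)
  have h := tr_range W 8 _ e he
  have h1 := h.2.2.2.2.1
  have h2 := h.2.2.2.2.2
  unfold Win.mlo at h2
  linarith

/-- the set of crossings of the middle line -/
theorem rr_zero {L : ℤ} {A B : Finset E}
    (h : ∀ e ∈ A, ∀ f ∈ B, crs L e → crs L f → hgt L e ≤ hgt L f) : rr L A B = 0 := by
  classical
  unfold rr
  rw [Finset.card_eq_zero, Finset.filter_eq_empty_iff]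
  rintro ⟨e, f⟩ hq
  rw [Finset.mem_product] at hq
  rintro ⟨h1, h2, h3⟩
  have := h e hq.1 f hq.2 h1 h2
  simp only at h3
  omega

open Classical in
theorem rr_full {L : ℤ} {A B : Finset E}
    (h : ∀ e ∈ A, ∀ f ∈ B, crs L e → crs L f → hgt L f < hgt L e) :
    rr L A B = (A.filter (crs L)).card * (B.filter (crs L)).card := by
  unfold rr
  rw [← Finset.card_product]
  congr 1
  ext ⟨e, f⟩
  simp only [Finset.mem_filter, Finset.mem_product]
  constructor
  · rintro ⟨⟨h1, h2⟩, h3, h4, h5⟩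
    exact ⟨⟨h1, h3⟩, h2, h4⟩
  · rintro ⟨⟨h1, h3⟩, h2, h4⟩
    exact ⟨⟨h1, h2⟩, h3, h4, h e h1 f h2 h3 h4⟩

open Classical in
theorem card_crs_rf {L L' : ℤ} {c : V} (h : L + L' + 1 = col c) (B : Finset E) :
    ((B.image (rfE c)).filter (crs L)).card = (B.filter (crs L')).card := by
  have h' : L' + L + 1 = col c := by rw [← h]; ring
  refine Finset.card_bij' (fun q _ => rfE c q) (fun q _ => rfE c q) ?_ ?_ ?_ ?_
  · intro g hg
    simp only [Finset.mem_filter, Finset.mem_image] at hg ⊢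
    obtain ⟨⟨f, hf, rfl⟩, c1⟩ := hg
    rw [rfE_rfE]
    exact ⟨hf, (crs_rf h' f).1 c1⟩
  · intro f hf
    simp only [Finset.mem_filter, Finset.mem_image] at hf ⊢
    exact ⟨⟨f, hf.1, rfl⟩, (crs_rf h' f).2 hf.2⟩
  · intro g _
    exact rfE_rfE c g
  · intro g _
    exact rfE_rfE c g

theorem hgt_bound (L : ℤ) (e : E) : 4 * e.1.1 ≤ hgt L e ∧ hgt L e ≤ 4 * e.1.1 + 3 := by
  unfold hgt
  split_ifs <;> constructor <;> omega

/-- the reflected trace is far above -/
theorem start_rel (hQ : 10 ≤ W.Q) (k k' : ℤ) (c : V) (hc : c.1 = 4 * W.Q) (ω ω' : Ix N → Al) :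
    relW W k (W.tr k ω) ((W.tr k' ω').image (rfE c)) = -1 := by
  rw [relW_neg]
  have hA := fun e he => tr_range W k ω e he
  have hB : ∀ f ∈ (W.tr k' ω').image (rfE c), 3 * W.Q - 1 ≤ f.1.1 ∧ 3 * W.Q - 1 ≤ (hd f).1 := by
    intro f hf
    obtain ⟨g, hg, rfl⟩ := Finset.mem_image.1 hf
    have h := tr_range W k' ω' g hg
    rw [hd_rfE]
    have e1 : (rfE c g).1.1 = c.1 - (hd g).1 := rfl
    have e2 : (c - g.1).1 = c.1 - g.1.1 := rfl
    rw [e1, e2, hc]
    omega
  constructor
  · rintro ⟨e, he, f, hf, z, h1, h2⟩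
    have a := hA e he
    have b := hB f hf
    have z1 : z.1 ≤ W.Q + 1 := by
      rcases h1 with h1 | h1 <;> rw [← h1] <;> omega
    have z2 : 3 * W.Q - 1 ≤ z.1 := by
      rcases h2 with h2 | h2 <;> rw [← h2] <;> omega
    omega
  · rw [rr_zero]
    intro e he f hf _ _
    have a := hA e he
    have b := hB f hf
    have c1 := hgt_bound (W.mln k) e
    have c2 := hgt_bound (W.mln k) f
    omega

open Classical in
/-- the reflected trace is far below -/
theorem fin_rel (hodd : ∀ k : ℤ, 0 ≤ k → k ≤ 8 → ∀ ω : Ix N → Al,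
      Odd ((W.tr k ω).filter (crs (W.mln k))).card) (hQ : 10 ≤ W.Q) (k κ : ℤ)
    (h0 : 0 ≤ k) (h8 : k ≤ 8) (h0' : 0 ≤ κ - k) (h8' : κ - k ≤ 8) (c : V)
    (hc : c.1 = -4 * W.Q) (hcol : col c = 2 * W.x + 7 * (κ + 1) * W.L) (ω ω' : Ix N → Al) :
    relW W k (W.tr k ω) ((W.tr (κ - k) ω').image (rfE c)) = 1 := by
  rw [relW_one]
  have hA := fun e he => tr_range W k ω e he
  have hB : ∀ f ∈ (W.tr (κ - k) ω').image (rfE c), f.1.1 ≤ -3 * W.Q ∧ (hd f).1 ≤ -3 * W.Q := by
    intro f hf
    obtain ⟨g, hg, rfl⟩ := Finset.mem_image.1 hf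
    have h := tr_range W (κ - k) ω' g hg
    rw [hd_rfE]
    have e1 : (rfE c g).1.1 = c.1 - (hd g).1 := rfl
    have e2 : (c - g.1).1 = c.1 - g.1.1 := rfl
    rw [e1, e2, hc]
    omega
  constructor
  · rintro ⟨e, he, f, hf, z, h1, h2⟩
    have a := hA e he
    have b := hB f hf
    have z1 : -W.Q ≤ z.1 := by
      rcases h1 with h1 | h1 <;> rw [← h1] <;> omega
    have z2 : z.1 ≤ -3 * W.Q := by
      rcases h2 with h2 | h2 <;> rw [← h2] <;> omega
    omega
  · rw [rr_full]
    · have h := mln_add W k κ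
      rw [← hcol] at h
      have e1 := card_crs_rf h (W.tr (κ - k) ω')
      have o1 := hodd k h0 h8 ω
      have o2 := hodd (κ - k) h0' h8' ω'
      have o3 : Odd (((W.tr k ω).filter (crs (W.mln k))).card *
          (((W.tr (κ - k) ω').image (rfE c)).filter (crs (W.mln k))).card) := by
        refine Odd.mul ?_ ?_
        · convert o1 using 2
        · rw [e1]
          convert o2 using 2
      rw [Nat.odd_iff] at o3
      convert o3 using 2
    · intro e he f hf _ _
      have a := hA e he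
      have b := hB f hf
      have c1 := hgt_bound (W.mln k) e
      have c2 := hgt_bound (W.mln k) f
      omega

open Classical in
/-- **Sections 6 and 7.** -/
theorem grp (S : Sig W (1 / 1000)) (hJ : J1 S (1 / 100)) (hR : PatR S (1 / 1000))
    (hF : PatF S (1 / 1000))
    (hodd : ∀ k : ℤ, 0 ≤ k → k ≤ 8 → ∀ ω : Ix N → Al,
      Odd ((W.tr k ω).filter (crs (W.mln k))).card) : False := by
  have hne : ∀ k : ℤ, 0 ≤ k → k ≤ 8 → ∀ ω : Ix N → Al, ∃ e ∈ W.tr k ω, crs (W.mln k) e := by
    intro k h0 h8 ω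
    have h := (hodd k h0 h8 ω).pos
    obtain ⟨e, he⟩ := Finset.card_pos.1 h
    rw [Finset.mem_filter] at he
    exact ⟨e, he.1, he.2⟩
  have hQ := Q_large W hne
  have hL := W.hL
  have hx := W.hx
  have hQN := W.hQ
  have hQ10 : 10 ≤ W.Q := by omega
  -- values of the localisation maps
  have hsne : ∀ k : ℤ, 0 ≤ k → k ≤ 8 → ∀ ξ : Ix N → Al, ∃ e, e ∈ S.sig k ξ := by
    intro k h0 h8 ξ
    obtain ⟨ω, hω⟩ := S.rng k h0 h8 ξ
    obtain ⟨e, he, _⟩ := hne k h0 h8 ω
    exact ⟨e, by rw [hω]; exact he⟩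
  let cc : Fin 2 → V := fun j => cenW W (7 + 2 * ((j : ℕ) : ℤ))
  have hcc : ∀ j : Fin 2, ∀ c : ℕ, c ≤ (8 * W.Q).toNat →
      col (cc j - su c) = 2 * W.x + 7 * ((7 + 2 * ((j : ℕ) : ℤ)) + 1) * W.L ∧
      |(cc j - su c).1| ≤ 4 * W.Q := by
    intro j c hc
    refine ⟨col_cenW W _ _, ?_⟩
    have h1 : (cc j - su c).1 = 4 * W.Q - c := rfl
    rw [h1, abs_le]
    omega
  have hκ : ∀ j : Fin 2, (7 + 2 * ((j : ℕ) : ℤ)) = 7 ∨ (7 + 2 * ((j : ℕ) : ℤ)) = 9 := by
    intro j
    fin_cases j
    · left; simp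
    · right; simp
  have htw : ∀ j : Fin 2, ∀ c : ℕ, ∀ k : ℤ, ∀ ξ : Ix N → Al,
      tw (rhoW (cc j) * tauW ^ c) (S.sig (7 + 2 * ((j : ℕ) : ℤ) - k)) ξ
        = bF S (7 + 2 * ((j : ℕ) : ℤ)) (cc j - su c) k ξ := by
    intro j c k ξ
    rw [rho_tau_pow]
    rfl
  have htwR : ∀ s : ℕ, ∀ k : ℤ, ∀ ξ : Ix N → Al,
      tw (tauW ^ s) (S.sig k) ξ = bR S s k ξ := by
    intro s k ξ
    rw [tau_pow]
    rfl
  have H : Hyp (ι := Ix N) (α := Al) W.G S.sig tauW (fun j => rhoW (cc j)) (relW W)
      (8 * W.Q).toNat (4 * W.Q).toNat := by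
    constructor
    · -- disj
      intro j k h1 hjk h7
      unfold Win.G
      refine disj_cl ?_ ?_ ?_
      · unfold Win.lo
        nlinarith
      · unfold Win.hi Win.lo
        nlinarith
      · unfold Win.hi
        nlinarith
    · -- dep
      intro k h1 h7
      exact S.loc k (by omega) (by omega)
    · -- tauG
      intro k _ _ i
      exact clI_sh _ _ _ i
    · -- rhoG
      intro j k _ _ i
      refine G_rf W k (7 + 2 * ((j : ℕ) : ℤ)) (cc j) ?_ i
      have := col_cenW W (7 + 2 * ((j : ℕ) : ℤ)) 0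
      have h0 : su 0 = 0 := by simp [su]
      rw [h0, sub_zero] at this
      exact this
    · intro j
      exact rho_mul _
    · intro j
      exact rho_tau _
    · -- jone
      intro k h1 h7
      have h := hJ k h1 h7
      refine le_trans (le_of_eq ?_) h
      refine Pr_congr fun ξ => ?_
      show S.sig k ξ ≠ tw (tauW ^ 1) (S.sig k) ξ ↔ _
      rw [htwR]
      rfl
    · -- pattau
      intro s hs
      have h := hR s (by rw [abs_le]; omega)
      refine le_trans (le_of_eq ?_) h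
      refine Pr_congr fun ξ => ?_
      rw [htwR, htwR, htwR]
    · -- patrho
      intro j c hc k₁ k₂ k₃ h1 h12 h23 h3
      obtain ⟨hcol, habs⟩ := hcc j c hc
      have hj := j.isLt
      obtain ⟨p1, p2, p3⟩ := hF (7 + 2 * ((j : ℕ) : ℤ)) (hκ j) (cc j - su c) hcol habs k₁ k₂ k₃
        (by omega) (by omega) h12 h23 (by omega) (by omega)
      have hrl : ∀ k : ℤ, ∀ ξ, rl S.sig tauW (fun j => rhoW (cc j)) (relW W) j c k ξ
          = relW W k (S.sig k ξ) (bF S (7 + 2 * ((j : ℕ) : ℤ)) (cc j - su c) k ξ) := by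
        intro k ξ
        unfold rl
        rw [htw]
      constructor
      · intro x hx
        have hx' : x = 1 ∨ x = -1 := by
          revert hx
          revert x
          decide
        rcases hx' with rfl | rfl
        · refine le_trans (le_of_eq (Pr_congr fun ξ => ?_)) p1
          rw [hrl, hrl, hrl, relW_one, relW_one, relW_neg]
        · refine le_trans (le_of_eq (Pr_congr fun ξ => ?_)) p2
          rw [hrl, hrl, hrl, neg_neg, relW_one, relW_neg, relW_neg]
      · refine le_trans (le_of_eq (Pr_congr fun ξ => ?_)) p3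
        rw [hrl, hrl, relW_zero, relW_zero, htw]
    · -- selfrel
      intro k h1 h7 ξ
      rw [relW_zero]
      obtain ⟨e, he⟩ := hsne k (by omega) (by omega) ξ
      exact ⟨e, he, e, he, e.1, Or.inl rfl, Or.inl rfl⟩
    · -- symrel
      intro j c hc ξ ξ'
      obtain ⟨hcol, habs⟩ := hcc j c hc
      have h := relW_sym W (1 + ((j : ℕ) : ℤ)) (7 + 2 * ((j : ℕ) : ℤ)) (cc j - su c) hcol
        (S.sig (1 + ((j : ℕ) : ℤ)) ξ) (S.sig (6 + ((j : ℕ) : ℤ)) ξ')
      have e1 : (7 + 2 * ((j : ℕ) : ℤ)) - (1 + ((j : ℕ) : ℤ)) = 6 + ((j : ℕ) : ℤ) := by ring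
      rw [e1] at h
      rw [rho_tau_pow]
      exact h
    · -- start
      intro j ξ ξ'
      have hj := j.isLt
      obtain ⟨ω, hω⟩ := S.rng (1 + ((j : ℕ) : ℤ)) (by omega) (by omega) ξ
      obtain ⟨ω', hω'⟩ := S.rng (6 + ((j : ℕ) : ℤ)) (by omega) (by omega) ξ'
      rw [hω, hω']
      exact start_rel W hQ10 _ _ (cc j) rfl ω ω'
    · -- fin
      intro j ξ ξ'
      have hj := j.isLt
      obtain ⟨ω, hω⟩ := S.rng (1 + ((j : ℕ) : ℤ)) (by omega) (by omega) ξ
      obtain ⟨ω', hω'⟩ := S.rng (6 + ((j : ℕ) : ℤ)) (by omega) (by omega) ξ'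
      obtain ⟨hcol, habs⟩ := hcc j (8 * W.Q).toNat le_rfl
      have e1 : (7 + 2 * ((j : ℕ) : ℤ)) - (1 + ((j : ℕ) : ℤ)) = 6 + ((j : ℕ) : ℤ) := by ring
      have e2 : (cc j - su ((8 * W.Q).toNat : ℤ)).1 = -4 * W.Q := by
        have h1 : (cc j - su ((8 * W.Q).toNat : ℤ)).1 = 4 * W.Q - ((8 * W.Q).toNat : ℤ) := rfl
        rw [h1]
        omega
      have h := fin_rel W hodd hQ10 (1 + ((j : ℕ) : ℤ)) (7 + 2 * ((j : ℕ) : ℤ)) (by omega) (by omega)
        (by omega) (by omega) (cc j - su ((8 * W.Q).toNat : ℤ)) e2 hcol ω ω'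
      rw [e1] at h
      rw [hω, hω', rho_tau_pow]
      exact h
    · -- endtau
      intro ξ ξ' heq
      obtain ⟨ω, hω⟩ := S.rng 4 (by norm_num) (by norm_num) ξ
      obtain ⟨ω', hω'⟩ := S.rng 4 (by norm_num) (by norm_num) ξ'
      obtain ⟨e, he, _⟩ := hne 4 (by norm_num) (by norm_num) ω
      rw [tau_pow, hω, hω'] at heq
      have h1 : e ∈ (W.tr 4 ω').image (shE (su ((4 * W.Q).toNat : ℤ))) := by
        have : (imP (shP (su ((4 * W.Q).toNat : ℤ)))) (W.tr 4 ω')
            = (W.tr 4 ω').image (shE (su ((4 * W.Q).toNat : ℤ))) := rfl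
        rw [← this]
        exact heq ▸ he
      obtain ⟨f, hf, hfe⟩ := Finset.mem_image.1 h1
      have a := tr_range W 4 ω e he
      have b := tr_range W 4 ω' f hf
      have e1 : e.1.1 = f.1.1 + ((4 * W.Q).toNat : ℤ) := by
        rw [← hfe]
        rfl
      omega
  exact H.false

end Rel

end Pool.Agent.FPZ.Q67
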