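import Mathlib

/-!
# Section 4, part 0: integer sequences without backtracking

`NBs c n lo hi Y`: once the sequence `c 0, .., c n` has reached `β + Y` it stays above `β`, for
every `β` in `[lo, hi]`.
-/

set_option autoImplicit false

namespace Pool.Agent.FPZ

/-- no backtracking by `Y` over the lines `β ∈ [lo, hi]` -/
def NBs (c : ℕ → ℤ) (n : ℕ) (lo hi Y : ℤ) : Prop :=
  ∀ i j : ℕ, i ≤ j → j ≤ n → ∀ β : ℤ, lo ≤ β → β ≤ hi → β + Y ≤ c i → β < c j

variable {c : ℕ → ℤ} {n : ℕ} {lo hi Y : ℤ}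

theorem NBs.low (h : NBs c n lo hi Y) {i t : ℕ} (hit : i ≤ t) (ht : t ≤ n)
    (h1 : lo ≤ c i - Y) (h2 : c i - Y ≤ hi) : c i - Y < c t :=
  h i t hit ht (c i - Y) h1 h2 (by omega)

theorem NBs.high (h : NBs c n lo hi Y) {t j : ℕ} (htj : t ≤ j) (hj : j ≤ n)
    (h1 : lo ≤ c j) (h2 : c j ≤ hi) : c t < c j + Y := by
  by_contra hc
  have := h t j htj hj (c j) h1 h2 (by omega)
  omega

theorem NBs.order (h : NBs c n lo hi Y) {i j : ℕ} (hi' : i ≤ n) (h1 : lo ≤ c i)
    (h2 : c i ≤ hi) (hij : c i + Y ≤ c j) : i < j := by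
  by_contra hc
  have := h j i (by omega) hi' (c i) h1 h2 hij
  omega

theorem NBs.mono (h : NBs c n lo hi Y) {lo' hi' Y' : ℤ} (h1 : lo ≤ lo') (h2 : hi' ≤ hi)
    (h3 : Y ≤ Y') : NBs c n lo' hi' Y' := by
  intro i j hij hj β hβ1 hβ2 hβ3
  exact h i j hij hj β (by omega) (by omega) (by omega)

/-- reversing the sequence and reflecting the values keeps the property -/
theorem NBs.refl_rev (h : NBs c n lo hi Y) (C : ℤ) :
    NBs (fun i => C - c (n - i)) n (C - hi - Y) (C - lo - Y) Y := by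
  intro i j hij hj β h1 h2 h3
  by_contra hc
  have := h (n - j) (n - i) (by omega) (by omega) (C - β - Y) (by omega) (by omega) (by
    simp only at h3 hc
    omega)
  simp only at h3 hc
  omega

theorem NBs.congr (h : NBs c n lo hi Y) {c' : ℕ → ℤ} (hc : ∀ i ≤ n, c' i = c i) :
    NBs c' n lo hi Y := by
  intro i j hij hj β h1 h2 h3
  rw [hc j hj]
  rw [hc i (by omega)] at h3
  exact h i j hij hj β h1 h2 h3

end Pool.Agent.FPZ
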