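import Pool.Agent.FPZ.Defs
import Pool.Agent.FPZ.Q4Seq

/-!
# Section 4, part 1: two geodesics of environments which agree on a strip coincide between two
common vertices

The facts about geodesics (`segment of a geodesic`, `passage time is at most the cost`, `cost of a
geodesic is the sum over its edge set`) are hypotheses here; they are instantiated from the group GEO.
-/

set_option autoImplicit false

noncomputable section

namespace Pool.Agent.FPZ

open Finset Pool.FPP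

theorem NB.nbs {Y α β : ℤ} {n : ℕ} {p : ℕ → V} (h : NB Y α β n p) :
    NBs (fun i => col (p i)) n α (β - Y) Y := by
  intro i j hij hj x h1 h2 h3
  by_contra hc
  exact h x h1 (by omega) i j hij hj ⟨h3, by simp only at hc; omega⟩

theorem mem_eset {i j : ℕ} {p : ℕ → V} {e : E} :
    e ∈ eset i j p ↔ ∃ k, i ≤ k ∧ k < j ∧ edg (p k) (p (k + 1)) = e := by
  unfold eset
  rw [mem_image]
  constructor
  · rintro ⟨k, hk, rfl⟩
    rw [mem_Ico] at hk
    exact ⟨k, hk.1, hk.2, rfl⟩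
  · rintro ⟨k, h1, h2, rfl⟩
    exact ⟨k, mem_Ico.2 ⟨h1, h2⟩, rfl⟩

/-- the end points of `edg x y` are `x` and `y` -/
theorem joins_edg {x y : V} (h : adj x y) : joins (edg x y) x y := by
  obtain ⟨e, he⟩ := h
  obtain ⟨⟨x1, x2⟩, b⟩ := e
  obtain ⟨y1, y2⟩ := y
  obtain ⟨z1, z2⟩ := x
  unfold joins edg hd at *
  cases b <;> simp only [Bool.false_eq_true, if_false, if_true, Prod.mk.injEq] at he ⊢ <;>
    rcases he with ⟨⟨h1, h2⟩, h3, h4⟩ | ⟨⟨h1, h2⟩, h3, h4⟩ <;> subst h1 h2 h3 h4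
  · left; simp
  · right; simp
  · left; simp
  · right; simp

theorem edg_fst_mem {x y : V} (h : adj x y) :
    ((edg x y).1 = x ∨ (edg x y).1 = y) := by
  rcases joins_edg h with h | h
  · exact Or.inl h.1
  · exact Or.inr h.1

theorem inStrip_edg {x y : V} (h : adj x y) (α β : ℤ) :
    inStrip α β (edg x y) ↔ (α ≤ col x ∧ α ≤ col y ∧ col x ≤ β ∧ col y ≤ β) := by
  have key : ∀ e : E, col e.1 ≤ col (hd e) := by
    intro e
    unfold col hd
    split <;> simp <;> omega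
  unfold inStrip
  rcases joins_edg h with h | h
  · have := key (edg x y)
    rw [h.1, h.2] at this
    rw [h.1, h.2]
    constructor
    · rintro ⟨a, b⟩; exact ⟨a, by omega, by omega, b⟩
    · rintro ⟨a, b, c, d⟩; exact ⟨a, d⟩
  · have := key (edg x y)
    rw [h.1, h.2] at this
    rw [h.1, h.2]
    constructor
    · rintro ⟨a, b⟩; exact ⟨by omega, a, b, by omega⟩
    · rintro ⟨a, b, c, d⟩; exact ⟨b, c⟩

theorem cost_congr {A1 A2 : E → ℝ} {i j : ℕ} {p : ℕ → V}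
    (h : ∀ e ∈ eset i j p, A1 e = A2 e) : cost A1 i j p = cost A2 i j p := by
  unfold cost
  refine Finset.sum_congr rfl fun k hk => ?_
  rw [mem_Ico] at hk
  exact h _ (mem_eset.2 ⟨k, hk.1, hk.2, rfl⟩)

/-- the middle parts of two geodesics with common end points inside a strip on which the
environments agree have the same edges -/
theorem middle_eq {A1 A2 : E → ℝ} {p1 p2 : ℕ → V} {i1 j1 i2 j2 : ℕ}
    (hP : p1 i1 = p2 i2) (hQ : p1 j1 = p2 j2)
    (g1 : cost A1 i1 j1 p1 = dst A1 (p1 i1) (p1 j1))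
    (g2 : cost A2 i2 j2 p2 = dst A2 (p2 i2) (p2 j2))
    (l1 : dst A2 (p1 i1) (p1 j1) ≤ cost A2 i1 j1 p1)
    (l2 : dst A1 (p2 i2) (p2 j2) ≤ cost A1 i2 j2 p2)
    (s1 : cost A1 i1 j1 p1 = ∑ e ∈ eset i1 j1 p1, A1 e)
    (s2 : cost A2 i2 j2 p2 = ∑ e ∈ eset i2 j2 p2, A2 e)
    (a1 : ∀ e ∈ eset i1 j1 p1, A1 e = A2 e)
    (a2 : ∀ e ∈ eset i2 j2 p2, A1 e = A2 e)
    {Q : ℤ} (hG : Gen Q A1)
    (b1 : ∀ e ∈ eset i1 j1 p1, inBox Q e.1) (b2 : ∀ e ∈ eset i2 j2 p2, inBox Q e.1) :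
    eset i1 j1 p1 = eset i2 j2 p2 := by
  apply hG _ _ b1 b2
  rw [← s1]
  have e2 : ∑ e ∈ eset i2 j2 p2, A1 e = ∑ e ∈ eset i2 j2 p2, A2 e :=
    Finset.sum_congr rfl a2
  rw [e2, ← s2]
  have c1 := cost_congr a1
  have c2 := cost_congr a2
  rw [hP, hQ] at g1 l1
  apply le_antisymm
  · calc cost A1 i1 j1 p1 = dst A1 (p2 i2) (p2 j2) := g1
      _ ≤ cost A1 i2 j2 p2 := l2
      _ = cost A2 i2 j2 p2 := c2
  · calc cost A2 i2 j2 p2 = dst A2 (p2 i2) (p2 j2) := g2
      _ ≤ cost A2 i1 j1 p1 := l1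
      _ = cost A1 i1 j1 p1 := c1.symm

/-- position of the middle part: indices between two visits -/
theorem middle_strip {n : ℕ} {p : ℕ → V} {Y α β : ℤ} (hY : 0 < Y) (hNB : NB Y α β n p)
    {i j : ℕ} (hj : j ≤ n)
    (hα : α + Y ≤ col (p i)) (hβ : col (p j) + Y ≤ β) (hPQ : col (p i) + Y ≤ col (p j))
    {t : ℕ} (h1 : i ≤ t) (h2 : t ≤ j) : α ≤ col (p t) ∧ col (p t) ≤ β := by
  have h := hNB.nbs
  have hl := h.low (i := i) (t := t) h1 (by omega) (by omega) (by omega)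
  have hh := h.high (t := t) (j := j) h2 hj (by omega) (by omega)
  omega

theorem middle_order {n : ℕ} {p : ℕ → V} {Y α β : ℤ} (hY : 0 < Y) (hNB : NB Y α β n p)
    {i j : ℕ} (hi : i ≤ n)
    (hα : α + Y ≤ col (p i)) (hβ : col (p j) + Y ≤ β) (hPQ : col (p i) + Y ≤ col (p j)) :
    i < j := by
  have h := hNB.nbs
  exact h.order (i := i) (j := j) hi (by omega) (by omega) (by omega)

/-- edges in the inner strip belong to the middle part -/
theorem inner_mem {n : ℕ} {p : ℕ → V} {Y α β γ δ : ℤ} (hY : 0 < Y) (hNB : NB Y α β n p)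
    (hadj : ∀ k < n, adj (p k) (p (k + 1)))
    {i j : ℕ} (hi : i ≤ n) (hj : j ≤ n)
    (hα : α + Y ≤ col (p i)) (hβ : col (p j) + Y ≤ β) (hPQ : col (p i) + Y ≤ col (p j))
    (hγ : col (p i) + Y ≤ γ) (hδ : δ + Y ≤ col (p j)) {e : E}
    (he : e ∈ eset 0 n p) (hs : inStrip γ δ e) : e ∈ eset i j p := by
  have h := hNB.nbs
  obtain ⟨k, -, hk, rfl⟩ := mem_eset.1 he
  have hs' := (inStrip_edg (hadj k hk) γ δ).1 hs
  refine mem_eset.2 ⟨k, ?_, ?_, rfl⟩
  · by_contra hc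
    have := h.high (t := k) (j := i) (by omega) hi (by omega) (by omega)
    omega
  · by_contra hc
    have := h.low (i := j) (t := k + 1) (by omega) (by omega) (by omega)
      (by omega)
    omega

end Pool.Agent.FPZ
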