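import Pool.Agent.FPZ.WDefs

/-!
# Section 4: the moves (shift by `z`, point reflection `c - z`) on environments, geodesics and
configurations

All elementary.  `shE z e = (e.1 + z, e.2)`, `rfE c e = (c - hd e, e.2)`.
-/

set_option autoImplicit false

noncomputable section

namespace Pool.Agent.FPZ

open Finset Pool.FPP

/-! ## environments -/

theorem q4_env_shiftC {N : ℕ} {Al : Type} (wt : Al → ℝ) (z : V) (ω : Ix N → Al) (e : E) :
    env wt (shiftC z ω) e = env wt ω (shE z e) := by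
  simp only [env, shiftC, red, shE]
  simp

theorem q4_env_reflC {N : ℕ} {Al : Type} (wt : Al → ℝ) (c : V) (ω : Ix N → Al) (e : E) :
    env wt (reflC c ω) e = env wt ω (rfE c e) := by
  obtain ⟨⟨x, y⟩, t⟩ := e
  cases t <;> simp [env, reflC, red, rfE, hdI, hd]

theorem q4_rfE_rfE (c : V) (e : E) : rfE c (rfE c e) = e := by
  obtain ⟨⟨x, y⟩, t⟩ := e
  obtain ⟨c1, c2⟩ := c
  cases t
  · simp [rfE, hd]
    ring
  · simp [rfE, hd]
    ring

theorem q4_shE_shE (z z' : V) (e : E) : shE z (shE z' e) = shE (z + z') e := by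
  simp only [shE]
  rw [add_assoc, add_comm z' z]

theorem q4_col_add (x y : V) : col (x + y) = col x + col y := by
  simp only [col, Prod.fst_add, Prod.snd_add]
  ring

theorem q4_col_sub (x y : V) : col (x - y) = col x - col y := by
  simp only [col, Prod.fst_sub, Prod.snd_sub]
  ring

theorem q4_col_su (s : ℤ) : col (su s) = 0 := by
  simp only [col, su]
  ring

theorem q4_hd_shE (z : V) (e : E) : hd (shE z e) = hd e + z := by
  obtain ⟨⟨x, y⟩, t⟩ := e
  obtain ⟨z1, z2⟩ := z
  cases t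
  · refine Prod.ext ?_ ?_
    · simp [hd, shE]
      ring
    · simp [hd, shE]
  · refine Prod.ext ?_ ?_
    · simp [hd, shE]
    · simp [hd, shE]
      ring

theorem q4_hd_rfE (c : V) (e : E) : hd (rfE c e) = c - e.1 := by
  obtain ⟨⟨x, y⟩, t⟩ := e
  obtain ⟨c1, c2⟩ := c
  cases t
  · refine Prod.ext ?_ ?_
    · simp [hd, rfE]
      ring
    · simp [hd, rfE]
  · refine Prod.ext ?_ ?_
    · simp [hd, rfE]
    · simp [hd, rfE]
      ring

theorem q4_inStrip_shE (α β s : ℤ) (e : E) : inStrip α β (shE (su s) e) ↔ inStrip α β e := by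
  unfold inStrip
  rw [q4_hd_shE, q4_col_add, q4_col_su]
  simp only [shE]
  rw [q4_col_add, q4_col_su]
  constructor
  · rintro ⟨h1, h2⟩
    exact ⟨by omega, by omega⟩
  · rintro ⟨h1, h2⟩
    exact ⟨by omega, by omega⟩

theorem q4_inStrip_rfE (α β : ℤ) (c : V) (e : E) :
    inStrip α β (rfE c e) ↔ inStrip (col c - β) (col c - α) e := by
  unfold inStrip
  rw [q4_hd_rfE, q4_col_sub]
  simp only [rfE]
  rw [q4_col_sub]
  constructor
  · rintro ⟨h1, h2⟩
    exact ⟨by omega, by omega⟩
  · rintro ⟨h1, h2⟩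
    exact ⟨by omega, by omega⟩

/-! ## geodesics -/

theorem q4_edg_of_joins {e : E} {x y : V} (h : joins e x y) : edg x y = e := by
  obtain ⟨⟨u, w⟩, t⟩ := e
  rcases h with ⟨h1, h2⟩ | ⟨h1, h2⟩
  · cases t
    · simp only [hd, Bool.false_eq_true, if_false] at h2
      subst h1 h2
      simp [edg]
    · simp only [hd, if_true] at h2
      subst h1 h2
      simp [edg]
  · cases t
    · simp only [hd, Bool.false_eq_true, if_false] at h2
      subst h1 h2
      simp [edg]
    · simp only [hd, if_true] at h2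
      subst h1 h2
      simp [edg]

theorem q4_joins_symm {e : E} {x y : V} (h : joins e x y) : joins e y x := by
  rcases h with ⟨h1, h2⟩ | ⟨h1, h2⟩
  · exact Or.inr ⟨h1, h2⟩
  · exact Or.inl ⟨h1, h2⟩

theorem q4_adj_symm {x y : V} (h : adj x y) : adj y x := by
  obtain ⟨e, he⟩ := h
  exact ⟨e, q4_joins_symm he⟩

theorem q4_joins_shE {e : E} {x y : V} (z : V) (h : joins e x y) :
    joins (shE z e) (x + z) (y + z) := by
  unfold joins
  rw [q4_hd_shE]
  rcases h with ⟨h1, h2⟩ | ⟨h1, h2⟩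
  · refine Or.inl ⟨?_, ?_⟩
    · simp only [shE]
      rw [h1]
    · rw [h2]
  · refine Or.inr ⟨?_, ?_⟩
    · simp only [shE]
      rw [h1]
    · rw [h2]

theorem q4_joins_rfE {e : E} {x y : V} (c : V) (h : joins e x y) :
    joins (rfE c e) (c - x) (c - y) := by
  unfold joins
  rw [q4_hd_rfE]
  rcases h with ⟨h1, h2⟩ | ⟨h1, h2⟩
  · refine Or.inr ⟨?_, ?_⟩
    · simp only [rfE]
      rw [h2]
    · rw [h1]
  · refine Or.inl ⟨?_, ?_⟩
    · simp only [rfE]
      rw [h2]
    · rw [h1]

theorem q4_edg_shE (x y z : V) : edg (x + z) (y + z) = shE z (edg x y) := by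
  simp only [edg, shE, Prod.fst_add, Prod.snd_add]
  refine Prod.ext (Prod.ext ?_ ?_) ?_
  · simp only [Prod.fst_add]
    exact (min_add_add_right _ _ _)
  · simp only [Prod.snd_add]
    exact (min_add_add_right _ _ _)
  · simp

theorem q4_edg_rfE {x y : V} (c : V) (h : adj x y) : edg (c - x) (c - y) = rfE c (edg x y) := by
  obtain ⟨e, he⟩ := h
  rw [q4_edg_of_joins he]
  exact q4_edg_of_joins (q4_joins_rfE c he)

theorem q4_edg_comm (x y : V) : edg x y = edg y x := by
  unfold edg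
  rw [min_comm x.1, min_comm x.2]
  simp only [ne_comm]

theorem q4_adj_shE {x y : V} (z : V) (h : adj x y) : adj (x + z) (y + z) := by
  obtain ⟨e, he⟩ := h
  exact ⟨_, q4_joins_shE z he⟩

theorem q4_adj_rfE {x y : V} (c : V) (h : adj x y) : adj (c - x) (c - y) := by
  obtain ⟨e, he⟩ := h
  exact ⟨_, q4_joins_rfE c he⟩

private theorem cost_shift (A : E → ℝ) (i j : ℕ) (p : ℕ → V) (z : V) :
    cost (fun e => A (shE (-z) e)) i j (fun k => p k + z) = cost A i j p := by
  unfold cost
  refine Finset.sum_congr rfl fun k _ => ?_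
  simp only
  rw [q4_edg_shE, q4_shE_shE]
  simp [shE]

private theorem path_shift {n : ℕ} {p : ℕ → V} {x y : V} (h : IsPath n p x y) (z : V) :
    IsPath n (fun i => p i + z) (x + z) (y + z) := by
  obtain ⟨h1, h2, h3⟩ := h
  refine ⟨?_, ?_, fun k hk => q4_adj_shE z (h3 k hk)⟩
  · simp only
    rw [h1]
  · simp only
    rw [h2]

theorem q4_dst_shift (A : E → ℝ) (x y z : V) :
    dst (fun e => A (shE (-z) e)) (x + z) (y + z) = dst A x y := by
  unfold dst
  congr 1
  ext t
  constructor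
  · rintro ⟨n, p, hp, rfl⟩
    refine ⟨n, fun i => p i + -z, ?_, ?_⟩
    · have := path_shift hp (-z)
      simpa using this
    · have := cost_shift (fun e => A (shE (-z) e)) 0 n p (-z)
      rw [← this]
      unfold cost
      refine Finset.sum_congr rfl fun k _ => ?_
      simp only [q4_shE_shE]
      simp [shE]
  · rintro ⟨n, p, hp, rfl⟩
    exact ⟨n, fun i => p i + z, path_shift hp z, (cost_shift A 0 n p z).symm⟩

/-- translated geodesic -/
theorem q4_geo_shift {A : E → ℝ} {n : ℕ} {p : ℕ → V} {x y : V} (h : IsGeo A n p x y) (z : V) :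
    IsGeo (fun e => A (shE (-z) e)) n (fun i => p i + z) (x + z) (y + z) := by
  refine ⟨path_shift h.1 z, ?_⟩
  rw [cost_shift, q4_dst_shift]
  exact h.2

theorem q4_eset_shift (i j : ℕ) (p : ℕ → V) (z : V) :
    eset i j (fun k => p k + z) = (eset i j p).image (shE z) := by
  unfold eset
  rw [Finset.image_image]
  refine Finset.image_congr fun k _ => ?_
  simp only [Function.comp]
  exact q4_edg_shE _ _ _

private theorem cost_refl {n : ℕ} {p : ℕ → V} (A : E → ℝ)
    (hp : ∀ k < n, adj (p k) (p (k + 1))) (c : V) :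
    cost (fun e => A (rfE c e)) 0 n (fun i => c - p (n - i)) = cost A 0 n p := by
  unfold cost
  have h1 : ∀ k ∈ Ico 0 n, A (rfE c (edg (c - p (n - k)) (c - p (n - (k + 1))))) =
      (fun m => A (edg (p m) (p (m + 1)))) (n - 1 - k) := by
    intro k hk
    have hk' := (Finset.mem_Ico.1 hk).2
    have e1 : n - (k + 1) = n - 1 - k := by omega
    have e2 : n - k = n - 1 - k + 1 := by omega
    simp only
    rw [e1, e2, q4_edg_comm (c - p (n - 1 - k + 1)),
      q4_edg_rfE c (hp (n - 1 - k) (by omega)), q4_rfE_rfE]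
  rw [Finset.sum_congr rfl h1, ← Finset.range_eq_Ico]
  exact Finset.sum_range_reflect (fun m => A (edg (p m) (p (m + 1)))) n

private theorem path_refl {n : ℕ} {p : ℕ → V} {x y : V} (h : IsPath n p x y) (c : V) :
    IsPath n (fun i => c - p (n - i)) (c - y) (c - x) := by
  obtain ⟨h1, h2, h3⟩ := h
  refine ⟨?_, ?_, fun k hk => ?_⟩
  · simp only [Nat.sub_zero]
    rw [h2]
  · simp only [Nat.sub_self]
    rw [h1]
  · simp only
    have e2 : n - k = n - (k + 1) + 1 := by omega
    rw [e2]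
    exact q4_adj_rfE c (q4_adj_symm (h3 (n - (k + 1)) (by omega)))

private theorem mem_refl {A : E → ℝ} {x y : V} (c : V) {t : ℝ}
    (h : ∃ (n : ℕ) (p : ℕ → V), IsPath n p x y ∧ t = cost A 0 n p) :
    ∃ (n : ℕ) (p : ℕ → V), IsPath n p (c - y) (c - x) ∧
      t = cost (fun e => A (rfE c e)) 0 n p := by
  obtain ⟨n, p, hp, rfl⟩ := h
  exact ⟨n, fun i => c - p (n - i), path_refl hp c, (cost_refl A hp.2.2 c).symm⟩

theorem q4_dst_refl (A : E → ℝ) (x y c : V) :
    dst (fun e => A (rfE c e)) (c - y) (c - x) = dst A x y := by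
  unfold dst
  congr 1
  ext t
  constructor
  · intro h
    have h' := mem_refl c h
    simp only [sub_sub_cancel, q4_rfE_rfE] at h'
    exact h'
  · intro h
    exact mem_refl c h

/-- reversed and reflected geodesic -/
theorem q4_geo_refl {A : E → ℝ} {n : ℕ} {p : ℕ → V} {x y : V} (h : IsGeo A n p x y) (c : V) :
    IsGeo (fun e => A (rfE c e)) n (fun i => c - p (n - i)) (c - y) (c - x) := by
  refine ⟨path_refl h.1 c, ?_⟩
  rw [cost_refl A h.1.2.2, q4_dst_refl]
  exact h.2

theorem q4_eset_refl {A : E → ℝ} {n : ℕ} {p : ℕ → V} {x y : V} (h : IsGeo A n p x y) (c : V) :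
    eset 0 n (fun i => c - p (n - i)) = (eset 0 n p).image (rfE c) := by
  have hp := h.1.2.2
  have key : ∀ k, k < n → edg (c - p (n - k)) (c - p (n - (k + 1))) =
      rfE c (edg (p (n - 1 - k)) (p (n - 1 - k + 1))) := by
    intro k hk
    have e1 : n - (k + 1) = n - 1 - k := by omega
    have e2 : n - k = n - 1 - k + 1 := by omega
    rw [e1, e2, q4_edg_comm (c - p (n - 1 - k + 1)), q4_edg_rfE c (hp (n - 1 - k) (by omega))]
  ext e
  simp only [eset, Finset.mem_image, Finset.mem_Ico]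
  constructor
  · rintro ⟨k, ⟨_, hk⟩, rfl⟩
    exact ⟨_, ⟨n - 1 - k, ⟨Nat.zero_le _, by omega⟩, rfl⟩, (key k hk).symm⟩
  · rintro ⟨e', ⟨k, ⟨_, hk⟩, rfl⟩, rfl⟩
    refine ⟨n - 1 - k, ⟨Nat.zero_le _, by omega⟩, ?_⟩
    rw [key (n - 1 - k) (by omega)]
    have e1 : n - 1 - (n - 1 - k) = k := by omega
    rw [e1]

end Pool.Agent.FPZ
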