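import Pool.Agent.FPZ.P5Ord
import Pool.Agent.FPZ.Q4Coi
import Pool.Agent.FPZ.Q4Mov

/-!
# Section 5, part 2: the parity of the relation of two paths

General statements are in the namespace `Pool.Agent.FPZ.P5`: `rr_step`, `rr_range`, `inc_eset`,
`edg_inj`, `dgr_path`, `ncr_path`, `cv`, `smp_geo`, `rvp` (reversed reflected path), `shp`
(translated path).  Statements on windows: `Win.smp`, `Win.ncr_tr`, `Win.cv_rf`.
-/

set_option autoImplicit false

noncomputable section

namespace Pool.Agent.FPZ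

open Finset Pool.FPP

open Classical in
/-- degree of the vertex `z` in the edge set `S` -/
def dgr (S : Finset E) (z : V) : ℕ := (S.filter (fun e => inc e z)).card

/-- the path visits no vertex twice -/
def Smp (n : ℕ) (p : ℕ → V) : Prop := ∀ i ≤ n, ∀ j ≤ n, p i = p j → i = j

namespace P5

theorem col_hd_lt (e : E) : col e.1 < col (hd e) := by
  obtain ⟨⟨x, y⟩, u⟩ := e
  cases u <;> simp only [hd_t, hd_f, col] <;> omega

/-- the edge has an end point in the column `L + 1` -/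
def vt (L : ℤ) (e : E) : Prop := col e.1 = L + 1 ∨ col (hd e) = L + 1

open Classical in
/-- the end point in the column `L + 1` -/
def wv (L : ℤ) (e : E) : V := if col e.1 = L + 1 then e.1 else hd e

open Classical in
/-- position of the edge near the column `L + 1` -/
def ps (L : ℤ) (e : E) : ℤ := if vt L e then 4 * (wv L e).1 else 4 * e.1.1 + 2

theorem wv_col {L : ℤ} {e : E} (h : vt L e) : col (wv L e) = L + 1 := by
  unfold wv
  split_ifs with h1
  · exact h1
  · exact h.resolve_left h1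

theorem wv_inc {L : ℤ} {e : E} {z : V} (hz : col z = L + 1) :
    (vt L e ∧ wv L e = z) ↔ inc e z := by
  have h := col_hd_lt e
  unfold vt wv inc
  constructor
  · rintro ⟨h1, h2⟩
    split_ifs at h2 with h3
    · exact Or.inl h2
    · exact Or.inr h2
  · rintro (h1 | h1)
    · rw [h1, if_pos hz]
      exact ⟨Or.inl hz, rfl⟩
    · have h2 : ¬ col e.1 = L + 1 := by rw [← h1] at hz; omega
      rw [if_neg h2, h1]
      exact ⟨Or.inr hz, rfl⟩

theorem wv_fst (L : ℤ) (e : E) :
    (wv L e).1 = if e.2 then e.1.1 else if col e.1 = L + 1 then e.1.1 else e.1.1 + 1 := by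
  obtain ⟨⟨x, y⟩, u⟩ := e
  unfold wv
  cases u
  · rw [hd_f]
    by_cases h : col (x, y) = L + 1 <;> simp [h]
  · rw [hd_t]
    by_cases h : col (x, y) = L + 1 <;> simp [h]

theorem ord_L {L : ℤ} {e f : E} (he : crs L e) (hf : crs L f)
    (hne : vt L e → vt L f → (wv L e).1 ≠ (wv L f).1) :
    hgt L f < hgt L e ↔ ps L f < ps L e := by
  obtain ⟨⟨x, y⟩, u⟩ := e
  obtain ⟨⟨x', y'⟩, u'⟩ := f
  rw [wv_fst, wv_fst] at hne
  simp only [crs, hgt, col, ps, vt, wv_fst] at he hf hne ⊢
  cases u <;> cases u' <;>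
    simp only [hd_t, hd_f, if_true, Bool.false_eq_true, if_false] at he hf hne ⊢ <;>
    omega

theorem ord_R {L : ℤ} {e f : E} (he : crs (L + 1) e) (hf : crs (L + 1) f)
    (hne : vt L e → vt L f → (wv L e).1 ≠ (wv L f).1) :
    hgt (L + 1) f < hgt (L + 1) e ↔ ps L f < ps L e := by
  obtain ⟨⟨x, y⟩, u⟩ := e
  obtain ⟨⟨x', y'⟩, u'⟩ := f
  rw [wv_fst, wv_fst] at hne
  simp only [crs, hgt, col, ps, vt, wv_fst] at he hf hne ⊢
  cases u <;> cases u' <;>
    simp only [hd_t, hd_f, if_true, Bool.false_eq_true, if_false] at he hf hne ⊢ <;>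
    omega

open Classical in
/-- weights on the two sides of a column -/
theorem star {L : ℤ} {S : Finset E} (h : ∀ z, col z = L + 1 → Even (dgr S z)) (g : ℤ → ZMod 2) :
    ∑ e ∈ S with crs L e, g (ps L e) = ∑ e ∈ S with crs (L + 1) e, g (ps L e) := by
  rw [← CharTwo.add_eq_zero, Finset.sum_filter, Finset.sum_filter, ← Finset.sum_add_distrib]
  have h1 : ∀ e ∈ S, ((if crs L e then g (ps L e) else 0) +
      (if crs (L + 1) e then g (ps L e) else 0)) =
      if vt L e then g (4 * (wv L e).1) else 0 := by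
    intro e _
    have hc := col_hd_lt e
    by_cases hv : vt L e
    · rw [if_pos hv]
      have hp : ps L e = 4 * (wv L e).1 := by unfold ps; rw [if_pos hv]
      rw [hp]
      rcases hv with hv | hv
      · rw [if_neg (by unfold crs; omega), if_pos (by unfold crs; omega), zero_add]
      · rw [if_pos (by unfold crs; omega), if_neg (by unfold crs; omega), add_zero]
    · rw [if_neg hv]
      unfold vt at hv
      by_cases hL : crs L e
      · have hR : crs (L + 1) e := by unfold crs at hL ⊢; omega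
        rw [if_pos hL, if_pos hR, CharTwo.add_self_eq_zero]
      · have hR : ¬ crs (L + 1) e := by unfold crs at hL ⊢; omega
        rw [if_neg hL, if_neg hR, add_zero]
  rw [Finset.sum_congr rfl h1, ← Finset.sum_filter,
    Finset.sum_comp (fun z : V => g (4 * z.1)) (wv L)]
  refine Finset.sum_eq_zero fun z hz => ?_
  rw [mem_image] at hz
  obtain ⟨e, he, rfl⟩ := hz
  rw [mem_filter] at he
  have hcol := wv_col he.2
  have h2 : ((S.filter (fun e => vt L e)).filter (fun a => wv L a = wv L e)).card =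
      dgr S (wv L e) := by
    unfold dgr
    rw [Finset.filter_filter]
    congr 1
    ext a
    simp only [mem_filter, wv_inc hcol]
  rw [h2, nsmul_eq_mul, (ZMod.natCast_eq_zero_iff_even).2 (h _ hcol), zero_mul]

open Classical in
theorem rr_cast (L : ℤ) (S₁ S₂ : Finset E) :
    (rr L S₁ S₂ : ZMod 2) = ∑ e ∈ S₁ with crs L e, ∑ f ∈ S₂ with crs L f,
      if hgt L f < hgt L e then 1 else 0 := by
  unfold rr
  rw [← Finset.sum_product', Finset.card_eq_sum_ones, Nat.cast_sum, ← Finset.sum_filter]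
  simp only [Nat.cast_one]
  refine Finset.sum_congr ?_ fun _ _ => rfl
  ext q
  simp only [mem_filter, mem_product]
  tauto

/-- one column: the relation changes only at a common vertex -/
theorem rr_step {L : ℤ} {S₁ S₂ : Finset E} (h₁ : ∀ z, col z = L + 1 → Even (dgr S₁ z))
    (h₂ : ∀ z, col z = L + 1 → Even (dgr S₂ z))
    (hno : ∀ z, col z = L + 1 → ∀ e ∈ S₁, ∀ f ∈ S₂, inc e z → ¬ inc f z) :
    rr L S₁ S₂ % 2 = rr (L + 1) S₁ S₂ % 2 := by
  classical
  have hne : ∀ e ∈ S₁, ∀ f ∈ S₂, vt L e → vt L f → (wv L e).1 ≠ (wv L f).1 := by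
    intro e he f hf h3 h4 h5
    have h6 := wv_col h3
    have h7 := wv_col h4
    have h8 : wv L e = wv L f := by
      unfold col at h6 h7
      refine Prod.ext h5 ?_
      omega
    exact hno _ h6 e he f hf ((wv_inc h6).1 ⟨h3, rfl⟩) ((wv_inc h6).1 ⟨h4, h8.symm⟩)
  have e1 : (rr L S₁ S₂ : ZMod 2) = ∑ e ∈ S₁ with crs L e, ∑ f ∈ S₂ with crs L f,
      if ps L f < ps L e then 1 else 0 := by
    rw [rr_cast]
    refine Finset.sum_congr rfl fun e he => Finset.sum_congr rfl fun f hf => ?_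
    rw [mem_filter] at he hf
    have := ord_L he.2 hf.2 (hne e he.1 f hf.1)
    simp only [this]
  have e2 : (rr (L + 1) S₁ S₂ : ZMod 2) = ∑ e ∈ S₁ with crs (L + 1) e,
      ∑ f ∈ S₂ with crs (L + 1) f, if ps L f < ps L e then 1 else 0 := by
    rw [rr_cast]
    refine Finset.sum_congr rfl fun e he => Finset.sum_congr rfl fun f hf => ?_
    rw [mem_filter] at he hf
    have := ord_R he.2 hf.2 (hne e he.1 f hf.1)
    simp only [this]
  have e3 : (rr L S₁ S₂ : ZMod 2) = rr (L + 1) S₁ S₂ := by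
    rw [e1, e2]
    have h5 : ∀ t : ℤ, (∑ f ∈ S₂ with crs L f, if ps L f < t then (1 : ZMod 2) else 0) =
        ∑ f ∈ S₂ with crs (L + 1) f, if ps L f < t then (1 : ZMod 2) else 0 :=
      fun t => star h₂ (fun s => if s < t then (1 : ZMod 2) else 0)
    simp only [h5]
    exact star h₁ (fun t => ∑ f ∈ S₂ with crs (L + 1) f, if ps L f < t then (1 : ZMod 2) else 0)
  exact (ZMod.natCast_eq_natCast_iff' _ _ _).1 e3

/-- many columns -/
theorem rr_range {L₁ L₂ : ℤ} (hL : L₁ ≤ L₂) {S₁ S₂ : Finset E}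
    (h₁ : ∀ z, L₁ < col z → col z ≤ L₂ → Even (dgr S₁ z))
    (h₂ : ∀ z, L₁ < col z → col z ≤ L₂ → Even (dgr S₂ z))
    (hno : ∀ z, L₁ < col z → col z ≤ L₂ → ∀ e ∈ S₁, ∀ f ∈ S₂, inc e z → ¬ inc f z) :
    rr L₁ S₁ S₂ % 2 = rr L₂ S₁ S₂ % 2 := by
  obtain ⟨m, rfl⟩ : ∃ m : ℕ, L₂ = L₁ + m := ⟨(L₂ - L₁).toNat, by omega⟩
  clear hL
  induction m with
  | zero => simp
  | succ m ih =>
    rw [ih (fun z a b => h₁ z a (by push_cast; omega)) (fun z a b => h₂ z a (by push_cast; omega))
      (fun z a b => hno z a (by push_cast; omega))]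
    have := rr_step (L := L₁ + m) (S₁ := S₁) (S₂ := S₂)
      (fun z a => h₁ z (by omega) (by push_cast; omega))
      (fun z a => h₂ z (by omega) (by push_cast; omega))
      (fun z a => hno z (by omega) (by push_cast; omega))
    rw [this]
    push_cast
    rw [add_assoc]

/-- an edge of a path is incident exactly to its two end points -/
theorem inc_edg {x y : V} (h : adj x y) (z : V) : inc (edg x y) z ↔ (x = z ∨ y = z) := by
  unfold inc
  rcases joins_edg h with h | h
  · rw [h.1, h.2]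
  · rw [h.1, h.2]; tauto

/-- an edge of a path is incident only to vertices of the path -/
theorem inc_eset {n : ℕ} {p : ℕ → V} {x y : V} (h : IsPath n p x y) {e : E}
    (he : e ∈ eset 0 n p) {z : V} (hz : inc e z) : ∃ i ≤ n, p i = z := by
  obtain ⟨k, -, hk, rfl⟩ := mem_eset.1 he
  rcases (inc_edg (h.2.2 k hk) z).1 hz with h1 | h1
  · exact ⟨k, hk.le, h1⟩
  · exact ⟨k + 1, hk, h1⟩

theorem adj_ne {x y : V} (h : adj x y) : x ≠ y := by
  rintro rfl
  have h1 := joins_edg h
  have h2 := col_hd_lt (edg x x)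
  rcases h1 with h1 | h1 <;> rw [h1.1, h1.2] at h2 <;> exact lt_irrefl _ h2

/-- the edges of a simple path are different -/
theorem edg_inj {n : ℕ} {p : ℕ → V} {x y : V} (h : IsPath n p x y) (hs : Smp n p) {k l : ℕ}
    (hk : k < n) (hl : l < n) (he : edg (p k) (p (k + 1)) = edg (p l) (p (l + 1))) : k = l := by
  have h1 : inc (edg (p l) (p (l + 1))) (p k) := by
    rw [← he]; exact (inc_edg (h.2.2 k hk) _).2 (Or.inl rfl)
  have h2 : inc (edg (p l) (p (l + 1))) (p (k + 1)) := by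
    rw [← he]; exact (inc_edg (h.2.2 k hk) _).2 (Or.inr rfl)
  rcases (inc_edg (h.2.2 l hl) _).1 h1 with h3 | h3
  · exact (hs l hl.le k hk.le h3).symm
  · rcases (inc_edg (h.2.2 l hl) _).1 h2 with h4 | h4
    · have h5 := hs _ hl _ hk.le h3
      have h6 := hs _ hl.le _ hk h4
      omega
    · have h6 := hs _ hl _ hk h4
      omega

open Classical in
/-- counting edges of a simple path by their times -/
theorem card_eset {n : ℕ} {p : ℕ → V} {x y : V} (h : IsPath n p x y) (hs : Smp n p)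
    (P : E → Prop) : ((eset 0 n p).filter P).card =
      ((range n).filter (fun k => P (edg (p k) (p (k + 1))))).card := by
  unfold eset
  rw [Finset.filter_image, Finset.card_image_of_injOn]
  · rw [← Finset.range_eq_Ico]
  · intro k hk l hl he
    simp only [coe_filter, mem_Ico, Set.mem_ofPred_eq] at hk hl
    exact edg_inj h hs hk.1.2 hl.1.2 he

/-- even degrees of a simple path outside its end points -/
theorem dgr_path {n : ℕ} {p : ℕ → V} {x y : V} (h : IsPath n p x y) (hs : Smp n p) {z : V}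
    (hx : z ≠ x) (hy : z ≠ y) : Even (dgr (eset 0 n p) z) := by
  classical
  unfold dgr
  rw [card_eset h hs]
  have h1 : (range n).filter (fun k => inc (edg (p k) (p (k + 1))) z) =
      (range n).filter (fun k => p k = z) ∪ (range n).filter (fun k => p (k + 1) = z) := by
    ext k
    simp only [mem_filter, mem_union, mem_range]
    constructor
    · rintro ⟨h1, h2⟩
      rcases (inc_edg (h.2.2 k h1) z).1 h2 with h3 | h3
      · exact Or.inl ⟨h1, h3⟩
      · exact Or.inr ⟨h1, h3⟩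
    · rintro (⟨h1, h2⟩ | ⟨h1, h2⟩)
      · exact ⟨h1, (inc_edg (h.2.2 k h1) z).2 (Or.inl h2)⟩
      · exact ⟨h1, (inc_edg (h.2.2 k h1) z).2 (Or.inr h2)⟩
  have h2 : Disjoint ((range n).filter (fun k => p k = z))
      ((range n).filter (fun k => p (k + 1) = z)) := by
    rw [Finset.disjoint_left]
    intro k hk hk'
    rw [mem_filter, mem_range] at hk hk'
    exact adj_ne (h.2.2 k hk.1) (hk.2.trans hk'.2.symm)
  rw [h1, Finset.card_union_of_disjoint h2, Finset.card_filter, Finset.card_filter]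
  have h3 := Finset.sum_range_succ (fun k => if p k = z then 1 else 0) n
  have h4 := Finset.sum_range_succ' (fun k => if p k = z then 1 else 0) n
  rw [if_neg (by rw [h.2.1]; exact hy.symm)] at h3
  rw [if_neg (by rw [h.1]; exact hx.symm)] at h4
  rw [h3] at h4
  rw [add_zero, add_zero] at h4
  rw [h4]
  exact ⟨_, rfl⟩

/-- an edge crosses the line iff its end points are on different sides -/
theorem crs_edg {x y : V} (h : adj x y) (L : ℤ) :
    crs L (edg x y) ↔ ¬ (col x ≤ L ↔ col y ≤ L) := by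
  have h2 := col_hd_lt (edg x y)
  unfold crs
  rcases joins_edg h with h | h <;> rw [h.1, h.2] at h2 ⊢ <;> omega

/-- a simple path from the left to the right of a line crosses it an odd number of times -/
theorem ncr_path {n : ℕ} {p : ℕ → V} {x y : V} (h : IsPath n p x y) (hs : Smp n p) {L : ℤ}
    (hx : col x ≤ L) (hy : L < col y) : ncr L (eset 0 n p) % 2 = 1 := by
  classical
  unfold ncr
  rw [card_eset h hs, Finset.card_filter]
  have key : ∀ m ≤ n, (∑ k ∈ range m, if crs L (edg (p k) (p (k + 1))) then 1 else 0) % 2 =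
      if col (p m) ≤ L then 0 else 1 := by
    intro m hm
    induction m with
    | zero => rw [h.1, if_pos hx]; simp
    | succ m ih =>
      have ih := ih (by omega)
      rw [Finset.sum_range_succ]
      have h1 := crs_edg (h.2.2 m (by omega)) L
      split_ifs at ih ⊢ with h2 h3 h4 h4 <;> first | omega | (exfalso; tauto)
  rw [key n le_rfl, h.2.1, if_neg (by omega)]

/-- (cv) the relation of two simple paths from left to right changes only at a common vertex -/
theorem cv {n₁ n₂ : ℕ} {p₁ p₂ : ℕ → V} {x₁ y₁ x₂ y₂ : V} {L₁ L₂ : ℤ}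
    (h₁ : IsPath n₁ p₁ x₁ y₁) (h₂ : IsPath n₂ p₂ x₂ y₂) (s₁ : Smp n₁ p₁) (s₂ : Smp n₂ p₂)
    (hL : L₁ ≤ L₂) (hx₁ : col x₁ ≤ L₁) (hx₂ : col x₂ ≤ L₁) (hy₁ : L₂ < col y₁)
    (hy₂ : L₂ < col y₂)
    (hno : ∀ i ≤ n₁, ∀ j ≤ n₂, p₁ i = p₂ j → L₁ < col (p₁ i) → col (p₁ i) ≤ L₂ → False) :
    rr L₁ (eset 0 n₁ p₁) (eset 0 n₂ p₂) % 2 = rr L₂ (eset 0 n₁ p₁) (eset 0 n₂ p₂) % 2 := by
  refine rr_range hL (fun z a b => ?_) (fun z a b => ?_) (fun z a b e he f hf i1 i2 => ?_)
  · refine dgr_path h₁ s₁ ?_ ?_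
    · rintro rfl; omega
    · rintro rfl; omega
  · refine dgr_path h₂ s₂ ?_ ?_
    · rintro rfl; omega
    · rintro rfl; omega
  · obtain ⟨i, hi, hi'⟩ := inc_eset h₁ he i1
    obtain ⟨j, hj, hj'⟩ := inc_eset h₂ hf i2
    refine hno i hi j hj (hi'.trans hj'.symm) ?_ ?_
    · rw [hi']; exact a
    · rw [hi']; exact b

theorem dst_le_path {A : E → ℝ} (hA : ∀ e, 0 ≤ A e) {n : ℕ} {p : ℕ → V} {x y : V}
    (h : IsPath n p x y) : dst A x y ≤ cost A 0 n p := by
  refine csInf_le ⟨0, ?_⟩ ⟨n, p, h, rfl⟩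
  rintro t ⟨m, q, _, rfl⟩
  exact Finset.sum_nonneg fun k _ => hA _

/-- geodesics in positive environments are simple -/
theorem smp_geo {A : E → ℝ} {a : ℝ} (ha : 0 < a) (hA : ∀ e, a ≤ A e) {n : ℕ} {p : ℕ → V}
    {x y : V} (h : IsGeo A n p x y) : Smp n p := by
  have key : ∀ i j, i < j → j ≤ n → p i ≠ p j := by
    intro i j hij hj he
    obtain ⟨⟨h0, hn, hadj⟩, hc⟩ := h
    let q : ℕ → V := fun k => if k ≤ i then p k else p (k + (j - i))
    have q1 : ∀ k ≤ i, q k = p k := fun k hk => if_pos hk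
    have q2 : ∀ k, i ≤ k → q k = p (k + (j - i)) := by
      intro k hk
      rcases hk.eq_or_lt with hk | hk
      · rw [q1 k hk.ge, ← hk, he]
        congr 1
        omega
      · exact if_neg (by omega)
    have hq : IsPath (n - (j - i)) q x y := by
      refine ⟨?_, ?_, ?_⟩
      · rw [q1 0 (Nat.zero_le _), h0]
      · rw [q2 _ (by omega), ← hn]
        congr 1
        omega
      · intro k hk
        by_cases hki : k + 1 ≤ i
        · rw [q1 k (by omega), q1 _ hki]
          exact hadj k (by omega)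
        · rw [q2 k (by omega), q2 _ (by omega),
            show k + 1 + (j - i) = k + (j - i) + 1 by omega]
          exact hadj _ (by omega)
    have hle := dst_le_path (A := A) (fun e => ha.le.trans (hA e)) hq
    rw [← hc] at hle
    unfold cost at hle
    have c1 : ∑ k ∈ Ico 0 (n - (j - i)), A (edg (q k) (q (k + 1))) =
        ∑ k ∈ Ico 0 i, A (edg (p k) (p (k + 1))) + ∑ k ∈ Ico j n, A (edg (p k) (p (k + 1))) := by
      rw [← Finset.sum_Ico_consecutive _ (Nat.zero_le i) (show i ≤ n - (j - i) by omega)]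
      congr 1
      · refine Finset.sum_congr rfl fun k hk => ?_
        rw [mem_Ico] at hk
        rw [q1 k (by omega), q1 _ (by omega)]
      · rw [show Ico j n = Ico (i + (j - i)) (n - (j - i) + (j - i)) by congr 1 <;> omega,
          ← Finset.sum_Ico_add']
        refine Finset.sum_congr rfl fun k hk => ?_
        rw [mem_Ico] at hk
        rw [q2 k (by omega), q2 _ (by omega), show k + 1 + (j - i) = k + (j - i) + 1 by omega]
    have c2 : ∑ k ∈ Ico 0 n, A (edg (p k) (p (k + 1))) =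
        ∑ k ∈ Ico 0 i, A (edg (p k) (p (k + 1))) + (∑ k ∈ Ico i j, A (edg (p k) (p (k + 1))) +
          ∑ k ∈ Ico j n, A (edg (p k) (p (k + 1)))) := by
      rw [Finset.sum_Ico_consecutive _ hij.le hj, Finset.sum_Ico_consecutive _ (Nat.zero_le i)
        (hij.le.trans hj)]
    have c3 : 0 < ∑ k ∈ Ico i j, A (edg (p k) (p (k + 1))) :=
      Finset.sum_pos (fun k _ => ha.trans_le (hA _)) ⟨i, mem_Ico.2 ⟨le_rfl, hij⟩⟩
    linarith
  intro i hi j hj he
  rcases lt_trichotomy i j with hh | hh | hh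
  · exact absurd he (key i j hh hj)
  · exact hh
  · exact absurd he.symm (key j i hh hi)

/-- the reflected reversed path -/
def rvp (c : V) (n : ℕ) (p : ℕ → V) : ℕ → V := fun i => c - p (n - i)

theorem rvp_path {n : ℕ} {p : ℕ → V} {x y : V} (c : V) (h : IsPath n p x y) :
    IsPath n (rvp c n p) (c - y) (c - x) := by
  obtain ⟨h1, h2, h3⟩ := h
  refine ⟨?_, ?_, fun k hk => ?_⟩
  · simp only [rvp, Nat.sub_zero, h2]
  · simp only [rvp, Nat.sub_self, h1]
  · simp only [rvp]
    have e2 : n - k = n - (k + 1) + 1 := by omega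
    rw [e2]
    exact q4_adj_rfE c (q4_adj_symm (h3 (n - (k + 1)) (by omega)))

theorem rvp_smp {n : ℕ} {p : ℕ → V} (c : V) (h : Smp n p) : Smp n (rvp c n p) := by
  intro i hi j hj he
  simp only [rvp, sub_right_inj] at he
  have := h _ (Nat.sub_le n i) _ (Nat.sub_le n j) he
  omega

theorem rvp_eset {n : ℕ} {p : ℕ → V} {x y : V} (c : V) (h : IsPath n p x y) :
    eset 0 n (rvp c n p) = (eset 0 n p).image (rfE c) := by
  have hp := h.2.2
  have key : ∀ k, k < n → edg (rvp c n p k) (rvp c n p (k + 1)) =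
      rfE c (edg (p (n - 1 - k)) (p (n - 1 - k + 1))) := by
    intro k hk
    simp only [rvp]
    have e1 : n - (k + 1) = n - 1 - k := by omega
    have e2 : n - k = n - 1 - k + 1 := by omega
    rw [e1, e2, q4_edg_comm (c - p (n - 1 - k + 1)), q4_edg_rfE c (hp (n - 1 - k) (by omega))]
  ext e
  rw [mem_eset, mem_image]
  constructor
  · rintro ⟨k, _, hk, rfl⟩
    refine ⟨_, mem_eset.2 ⟨n - 1 - k, Nat.zero_le _, by omega, rfl⟩, (key k hk).symm⟩
  · rintro ⟨e', he', rfl⟩
    obtain ⟨k, _, hk, rfl⟩ := mem_eset.1 he'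
    refine ⟨n - 1 - k, Nat.zero_le _, by omega, ?_⟩
    rw [key _ (by omega), show n - 1 - (n - 1 - k) = k by omega]

/-- the translated path -/
def shp (z : V) (p : ℕ → V) : ℕ → V := fun i => p i + z

theorem shp_path {n : ℕ} {p : ℕ → V} {x y : V} (z : V) (h : IsPath n p x y) :
    IsPath n (shp z p) (x + z) (y + z) := by
  obtain ⟨h1, h2, h3⟩ := h
  refine ⟨?_, ?_, fun k hk => q4_adj_shE z (h3 k hk)⟩
  · simp only [shp, h1]
  · simp only [shp, h2]

theorem shp_smp {n : ℕ} {p : ℕ → V} (z : V) (h : Smp n p) : Smp n (shp z p) := by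
  intro i hi j hj he
  simp only [shp, add_left_inj] at he
  exact h i hi j hj he

theorem shp_eset {n : ℕ} {p : ℕ → V} {x y : V} (z : V) (_ : IsPath n p x y) :
    eset 0 n (shp z p) = (eset 0 n p).image (shE z) :=
  q4_eset_shift 0 n p z

end P5

open P5

section win

variable {N : ℕ} [NeZero N] {Al : Type} [Fintype Al] [Nonempty Al]

theorem Win.smp (W : Win N Al) {ω : Ix N → Al}
    (hgeo : IsGeo (env W.wt ω) (Gn W.wt W.v ω) (Gp W.wt W.v ω) 0 W.v) :
    Smp (Gn W.wt W.v ω) (Gp W.wt W.v ω) :=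
  smp_geo W.ha (fun _ => (W.hwt _).1) hgeo

/-- odd number of crossings of the trace of the geodesic at the middle line -/
theorem Win.ncr_tr (W : Win N Al) {k : ℤ} (h0 : 0 ≤ k) (h8 : k ≤ 8) (ω : Ix N → Al)
    (hgeo : IsGeo (env W.wt ω) (Gn W.wt W.v ω) (Gp W.wt W.v ω) 0 W.v) :
    ncr (W.mln k) (W.tr k ω) % 2 = 1 := by
  unfold Win.tr
  rw [ncr_trc (W.mln_lo k) (W.mln_hi k)]
  have hL := W.hL
  have hx := W.hx
  have hv := W.hv
  have h1 : 0 ≤ k * W.L := mul_nonneg h0 (by omega)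
  have h2 : k * W.L ≤ 8 * W.L := mul_le_mul_of_nonneg_right h8 (by omega)
  have h3 := W.mln_hi k
  have h4 := W.mln_lo k
  have h5 : W.mlo k = W.x + 7 * (k * W.L) + 3 * W.L := by unfold Win.mlo; ring
  have h6 : W.mhi k = W.x + 7 * (k * W.L) + 4 * W.L := by unfold Win.mhi; ring
  refine ncr_path hgeo.1 (W.smp hgeo) ?_ ?_
  · have : col 0 = 0 := by simp [col]
    omega
  · omega

/-- (cv) for two geodesics, the second one reflected -/
theorem Win.cv_rf (W : Win N Al) {κ : ℤ} {c : V} (hc : col c = 2 * W.x + 7 * (κ + 1) * W.L)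
    {k₁ k₂ : ℤ} (h0 : 0 ≤ k₁) (h0' : κ - 8 ≤ k₁) (hk : k₁ ≤ k₂) (h8 : k₂ ≤ 8) (h8' : k₂ ≤ κ)
    (ω ω' : Ix N → Al)
    (hgeo : IsGeo (env W.wt ω) (Gn W.wt W.v ω) (Gp W.wt W.v ω) 0 W.v)
    (hgeo' : IsGeo (env W.wt ω') (Gn W.wt W.v ω') (Gp W.wt W.v ω') 0 W.v)
    (hno : ∀ i ≤ Gn W.wt W.v ω, ∀ j ≤ Gn W.wt W.v ω', Gp W.wt W.v ω i = c - Gp W.wt W.v ω' j →
      W.mln k₁ < col (Gp W.wt W.v ω i) → col (Gp W.wt W.v ω i) ≤ W.mln k₂ → False) :
    rr (W.mln k₁) (GE W.wt W.v ω) ((GE W.wt W.v ω').image (rfE c)) % 2 =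
      rr (W.mln k₂) (GE W.wt W.v ω) ((GE W.wt W.v ω').image (rfE c)) % 2 := by
  have hL := W.hL
  have hx := W.hx
  have hv := W.hv
  have h1 : 0 ≤ k₁ * W.L := mul_nonneg h0 (by omega)
  have h1' : (κ - 8) * W.L ≤ k₁ * W.L := mul_le_mul_of_nonneg_right h0' (by omega)
  have h2 : k₂ * W.L ≤ 8 * W.L := mul_le_mul_of_nonneg_right h8 (by omega)
  have h2' : k₂ * W.L ≤ κ * W.L := mul_le_mul_of_nonneg_right h8' (by omega)
  have h2'' : k₁ * W.L ≤ k₂ * W.L := mul_le_mul_of_nonneg_right hk (by omega)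
  have e1 : (κ - 8) * W.L = κ * W.L - 8 * W.L := by ring
  have e2 : col c = 2 * W.x + 7 * (κ * W.L) + 7 * W.L := by rw [hc]; ring
  have m1 : W.mln k₁ = W.x + 7 * (k₁ * W.L) + 3 * W.L + (W.L - 1) / 2 := by
    unfold Win.mln Win.mlo; ring
  have m2 : W.mln k₂ = W.x + 7 * (k₂ * W.L) + 3 * W.L + (W.L - 1) / 2 := by
    unfold Win.mln Win.mlo; ring
  have c0 : col 0 = 0 := by simp [col]
  have key := cv (L₁ := W.mln k₁) (L₂ := W.mln k₂) hgeo.1 (rvp_path c hgeo'.1) (W.smp hgeo)
    (rvp_smp c (W.smp hgeo')) (by omega) (by omega) (by rw [col_sub]; omega) (by omega)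
    (by rw [col_sub]; omega) (by
      intro i hi j hj he h3 h4
      exact hno i hi _ (Nat.sub_le _ j) he h3 h4)
  rw [rvp_eset c hgeo'.1] at key
  exact key

end win

end Pool.Agent.FPZ
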