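import Pool.Agent.FPZ.GRP
import Pool.Agent.FPZ.P5Par

/-!
# FPZ, sections 6 and 7: the contradiction with the parity of the crossings inserted
-/

set_option autoImplicit false

noncomputable section

namespace Pool.Agent.FPZ

open Finset Pool.FPP

variable {N : ℕ} [NeZero N] {Al : Type} [Fintype Al] [Nonempty Al]

/-- sections 6 and 7; `hgeo` is the existence of geodesics (for positive weights) -/
theorem grp_geo (W : Win N Al) (S : Sig W (1 / 1000)) (hJ : J1 S (1 / 100)) (hR : PatR S (1 / 1000))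
    (hF : PatF S (1 / 1000))
    (hgeo : ∀ ω : Ix N → Al, IsGeo (env W.wt ω) (Gn W.wt W.v ω) (Gp W.wt W.v ω) 0 W.v) :
    False := by
  classical
  refine Q67.grp W S hJ hR hF (fun k h0 h8 ω => ?_)
  have h := W.ncr_tr h0 h8 ω (hgeo ω)
  unfold ncr at h
  rw [Nat.odd_iff]
  convert h using 2

/-- the same with smaller error probabilities -/
theorem grp_geo' (W : Win N Al) {ε : ℝ} (hε : ε ≤ 1 / 1000) (S : Sig W ε) (hJ : J1 S ε)
    (hR : PatR S ε) (hF : PatF S ε)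
    (hgeo : ∀ ω : Ix N → Al, IsGeo (env W.wt ω) (Gn W.wt W.v ω) (Gp W.wt W.v ω) 0 W.v) :
    False := by
  refine grp_geo W ⟨S.sig, S.loc, S.rng, fun k h0 h8 => (S.prb k h0 h8).trans hε⟩ ?_ ?_ ?_ hgeo
  · intro k h1 h7
    exact (hJ k h1 h7).trans (hε.trans (by norm_num))
  · intro s hs
    exact (hR s hs).trans hε
  · intro κ hκ c hc hc1 k₁ k₂ k₃ h1 h2 h3 h4 h5 h6
    obtain ⟨p1, p2, p3⟩ := hF κ hκ c hc hc1 k₁ k₂ k₃ h1 h2 h3 h4 h5 h6
    exact ⟨p1.trans hε, p2.trans hε, p3.trans hε⟩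

end Pool.Agent.FPZ
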