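import Mathlib

/-!
Module R8Fun (section 8): the linear functional `h` at scale `ℓ` (no limit shape needed). Pure analysis on `ℤ × ℤ`.

PROOF of `exists_functional`. `W := {u : nrm u ≤ ℓ}` (finite, at most `(2ℓ+1)²` elements).
`K(x) := inf {∑_{w∈W} λ_w g(w) : λ ≥ 0, ∑ λ_w w = x}`, `x ∈ ℝ × ℝ` (nonempty: `±e_1, ±e_2 ∈ W`; bounded below by 0).
`K` is positively homogeneous and subadditive, `K(w) ≤ g(w)` for `w ∈ W`. Mathlib `exists_extension_of_le_sublinear` with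
`f = LinearPMap.mkSpanSingleton v (K v)` (for `v ≠ 0`; on `t v`, `t < 0`: `t K(v) ≤ K(t v)` as `0 = K 0 ≤ K(tv) + K(-t v)`;
if `v = 0` take `h = 0`) gives a linear `h ≤ K` with `h v = K v`.
Rounding: for every admissible `λ` with `∑ λ_w w = v` let `k_w = ⌊λ_w⌋₊`, `v' = ∑ k_w w ∈ ℤ²`; `nrm (v - v') ≤ (2ℓ+1)² ℓ ≤ 9 ℓ³`,
so `g v ≤ ∑ k_w g(w) + b · 9 ℓ³ ≤ ∑ λ_w g(w) + 9 b ℓ³` (`g (k • w) ≤ k g w`, `g 0 ≤ 0`). Hence `K v ≥ g v - 9 b ℓ³`.
Symmetrization: `(h_1, h_2) ↦ (max |h_1| |h_2|, min |h_1| |h_2|)`: still `≤ g` on `W` by the symmetries of `g`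
(`H_1 u_1 + H_2 u_2` is the value of the old functional at the image of `u` under a signed permutation), and the value at `v`
does not decrease since `0 ≤ v_2 ≤ v_1`. Finally `h_1 = h·e_1 ≤ g(e_1) ≤ b`.
-/

set_option autoImplicit false

noncomputable section

namespace Pool.Agent.FPZ

open Finset

/-- `ℓ¹` norm on `ℤ²` -/
def nrm (u : ℤ × ℤ) : ℕ := u.1.natAbs + u.2.natAbs

/-- integer points as real points -/
def toR (u : ℤ × ℤ) : ℝ × ℝ := ((u.1 : ℝ), (u.2 : ℝ))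

/-- the integer points of norm at most `l` -/
def fW (l : ℕ) : Finset (ℤ × ℤ) :=
  ((Finset.Icc (-(l : ℤ)) l) ×ˢ (Finset.Icc (-(l : ℤ)) l)).filter (fun u => nrm u ≤ l)

theorem mem_fW {l : ℕ} {u : ℤ × ℤ} : u ∈ fW l ↔ nrm u ≤ l := by
  unfold fW
  rw [Finset.mem_filter, Finset.mem_product, Finset.mem_Icc, Finset.mem_Icc]
  refine ⟨fun h => h.2, fun h => ⟨?_, h⟩⟩
  unfold nrm at h
  omega

theorem card_fW (l : ℕ) (hl : 1 ≤ l) : ((fW l).card : ℝ) ≤ 9 * (l : ℝ) ^ 2 := by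
  have h1 : (fW l).card ≤ (2 * l + 1) * (2 * l + 1) := by
    refine (Finset.card_filter_le _ _).trans ?_
    rw [Finset.card_product, Int.card_Icc]
    have : ((l : ℤ) + 1 - -(l : ℤ)).toNat = 2 * l + 1 := by omega
    rw [this]
  have h2 : (2 * l + 1) * (2 * l + 1) ≤ 9 * l ^ 2 := by nlinarith
  exact_mod_cast h1.trans h2

/-- values of nonnegative combinations representing `x` -/
def repS (g : ℤ × ℤ → ℝ) (l : ℕ) (x : ℝ × ℝ) : Set ℝ :=
  {s | ∃ c : ℤ × ℤ → ℝ, (∀ w, 0 ≤ c w) ∧ (∑ w ∈ fW l, c w * w.1 = x.1) ∧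
    (∑ w ∈ fW l, c w * w.2 = x.2) ∧ s = ∑ w ∈ fW l, c w * g w}

/-- the sublinear function -/
def subK (g : ℤ × ℤ → ℝ) (l : ℕ) (x : ℝ × ℝ) : ℝ := sInf (repS g l x)

theorem repS_nonneg {g : ℤ × ℤ → ℝ} (h0 : ∀ u, 0 ≤ g u) {l : ℕ} {x : ℝ × ℝ} {s : ℝ}
    (hs : s ∈ repS g l x) : 0 ≤ s := by
  obtain ⟨c, hc, _, _, rfl⟩ := hs
  exact Finset.sum_nonneg fun w _ => mul_nonneg (hc w) (h0 w)

theorem repS_bdd {g : ℤ × ℤ → ℝ} (h0 : ∀ u, 0 ≤ g u) (l : ℕ) (x : ℝ × ℝ) :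
    BddBelow (repS g l x) := ⟨0, fun _ hs => repS_nonneg h0 hs⟩

theorem repS_single (g : ℤ × ℤ → ℝ) {l : ℕ} {w : ℤ × ℤ} (hw : w ∈ fW l) {r : ℝ} (hr : 0 ≤ r) :
    r * g w ∈ repS g l (r * w.1, r * w.2) := by
  refine ⟨fun u => if u = w then r else 0, ?_, ?_, ?_, ?_⟩
  · intro u
    dsimp only
    split_ifs
    · exact hr
    · exact le_rfl
  · rw [Finset.sum_eq_single w]
    · simp
    · intro u _ hu; simp [hu]
    · intro h; exact absurd hw h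
  · rw [Finset.sum_eq_single w]
    · simp
    · intro u _ hu; simp [hu]
    · intro h; exact absurd hw h
  · rw [Finset.sum_eq_single w]
    · simp
    · intro u _ hu; simp [hu]
    · intro h; exact absurd hw h

theorem repS_add {g : ℤ × ℤ → ℝ} {l : ℕ} {x y : ℝ × ℝ} {s t : ℝ} (hs : s ∈ repS g l x)
    (ht : t ∈ repS g l y) : s + t ∈ repS g l (x + y) := by
  obtain ⟨c, hc, h1, h2, rfl⟩ := hs
  obtain ⟨d, hd, h3, h4, rfl⟩ := ht
  refine ⟨fun w => c w + d w, fun w => add_nonneg (hc w) (hd w), ?_, ?_, ?_⟩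
  · rw [Prod.fst_add, ← h1, ← h3, ← Finset.sum_add_distrib]
    exact Finset.sum_congr rfl fun w _ => by ring
  · rw [Prod.snd_add, ← h2, ← h4, ← Finset.sum_add_distrib]
    exact Finset.sum_congr rfl fun w _ => by ring
  · rw [← Finset.sum_add_distrib]
    exact Finset.sum_congr rfl fun w _ => by ring

theorem repS_smul {g : ℤ × ℤ → ℝ} {l : ℕ} {x : ℝ × ℝ} {s r : ℝ} (hr : 0 ≤ r)
    (hs : s ∈ repS g l x) : r * s ∈ repS g l (r • x) := by
  obtain ⟨c, hc, h1, h2, rfl⟩ := hs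
  refine ⟨fun w => r * c w, fun w => mul_nonneg hr (hc w), ?_, ?_, ?_⟩
  · rw [Prod.smul_fst, smul_eq_mul, ← h1, Finset.mul_sum]
    exact Finset.sum_congr rfl fun w _ => by ring
  · rw [Prod.smul_snd, smul_eq_mul, ← h2, Finset.mul_sum]
    exact Finset.sum_congr rfl fun w _ => by ring
  · rw [Finset.mul_sum]
    exact Finset.sum_congr rfl fun w _ => by ring

theorem repS_nonempty (g : ℤ × ℤ → ℝ) {l : ℕ} (hl : 1 ≤ l) (x : ℝ × ℝ) :
    (repS g l x).Nonempty := by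
  have e1 : ((1, 0) : ℤ × ℤ) ∈ fW l := mem_fW.2 (by simpa [nrm] using hl)
  have e2 : ((0, 1) : ℤ × ℤ) ∈ fW l := mem_fW.2 (by simpa [nrm] using hl)
  have e3 : ((-1, 0) : ℤ × ℤ) ∈ fW l := mem_fW.2 (by simpa [nrm] using hl)
  have e4 : ((0, -1) : ℤ × ℤ) ∈ fW l := mem_fW.2 (by simpa [nrm] using hl)
  have a1 := repS_single g e1 (le_max_right x.1 0)
  have a2 := repS_single g e2 (le_max_right x.2 0)
  have a3 := repS_single g e3 (le_max_right (-x.1) 0)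
  have a4 := repS_single g e4 (le_max_right (-x.2) 0)
  have a5 := repS_add (repS_add a1 a3) (repS_add a2 a4)
  have hx : (((max x.1 0 * (((1, 0) : ℤ × ℤ).1 : ℝ), max x.1 0 * (((1, 0) : ℤ × ℤ).2 : ℝ)) : ℝ × ℝ)
        + (max (-x.1) 0 * (((-1, 0) : ℤ × ℤ).1 : ℝ), max (-x.1) 0 * (((-1, 0) : ℤ × ℤ).2 : ℝ)))
        + ((max x.2 0 * (((0, 1) : ℤ × ℤ).1 : ℝ), max x.2 0 * (((0, 1) : ℤ × ℤ).2 : ℝ))
        + (max (-x.2) 0 * (((0, -1) : ℤ × ℤ).1 : ℝ), max (-x.2) 0 * (((0, -1) : ℤ × ℤ).2 : ℝ)))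
        = x := by
    ext
    · simp only [Prod.fst_add, Int.cast_one, Int.cast_zero, Int.cast_neg]
      rcases le_total x.1 0 with h | h
      · rw [max_eq_right h, max_eq_left (show (0 : ℝ) ≤ -x.1 by linarith)]; ring
      · rw [max_eq_left h, max_eq_right (show -x.1 ≤ (0 : ℝ) by linarith)]; ring
    · simp only [Prod.snd_add, Int.cast_one, Int.cast_zero, Int.cast_neg]
      rcases le_total x.2 0 with h | h
      · rw [max_eq_right h, max_eq_left (show (0 : ℝ) ≤ -x.2 by linarith)]; ring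
      · rw [max_eq_left h, max_eq_right (show -x.2 ≤ (0 : ℝ) by linarith)]; ring
  rw [hx] at a5
  exact ⟨_, a5⟩

theorem subK_nonneg {g : ℤ × ℤ → ℝ} (h0 : ∀ u, 0 ≤ g u) {l : ℕ} (hl : 1 ≤ l) (x : ℝ × ℝ) :
    0 ≤ subK g l x := le_csInf (repS_nonempty g hl x) fun _ hs => repS_nonneg h0 hs

theorem subK_add {g : ℤ × ℤ → ℝ} (h0 : ∀ u, 0 ≤ g u) {l : ℕ} (hl : 1 ≤ l) (x y : ℝ × ℝ) :
    subK g l (x + y) ≤ subK g l x + subK g l y := by
  refine le_of_forall_pos_le_add fun e he => ?_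
  obtain ⟨s, hs, hs'⟩ := exists_lt_of_csInf_lt (repS_nonempty g hl x)
    (show sInf (repS g l x) < subK g l x + e / 2 by unfold subK; linarith)
  obtain ⟨t, ht, ht'⟩ := exists_lt_of_csInf_lt (repS_nonempty g hl y)
    (show sInf (repS g l y) < subK g l y + e / 2 by unfold subK; linarith)
  have h1 : subK g l (x + y) ≤ s + t := csInf_le (repS_bdd h0 l _) (repS_add hs ht)
  linarith

theorem subK_smul_le {g : ℤ × ℤ → ℝ} (h0 : ∀ u, 0 ≤ g u) {l : ℕ} (hl : 1 ≤ l) {r : ℝ}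
    (hr : 0 < r) (x : ℝ × ℝ) : subK g l (r • x) ≤ r * subK g l x := by
  rw [← div_le_iff₀' hr]
  refine le_csInf (repS_nonempty g hl x) fun s hs => ?_
  rw [div_le_iff₀' hr]
  exact csInf_le (repS_bdd h0 l _) (repS_smul hr.le hs)

theorem subK_smul {g : ℤ × ℤ → ℝ} (h0 : ∀ u, 0 ≤ g u) {l : ℕ} (hl : 1 ≤ l) {r : ℝ}
    (hr : 0 < r) (x : ℝ × ℝ) : subK g l (r • x) = r * subK g l x := by
  refine le_antisymm (subK_smul_le h0 hl hr x) ?_
  have h1 := subK_smul_le h0 hl (inv_pos.2 hr) (r • x)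
  rw [smul_smul, inv_mul_cancel₀ hr.ne', one_smul] at h1
  calc r * subK g l x ≤ r * (r⁻¹ * subK g l (r • x)) := mul_le_mul_of_nonneg_left h1 hr.le
    _ = subK g l (r • x) := by rw [← mul_assoc, mul_inv_cancel₀ hr.ne', one_mul]

theorem subK_le {g : ℤ × ℤ → ℝ} (h0 : ∀ u, 0 ≤ g u) {l : ℕ} {w : ℤ × ℤ} (hw : nrm w ≤ l) :
    subK g l (toR w) ≤ g w := by
  have h1 := repS_single g (mem_fW.2 hw) (zero_le_one (α := ℝ))
  rw [one_mul, one_mul, one_mul] at h1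
  exact csInf_le (repS_bdd h0 l _) h1

theorem g_zero {g : ℤ × ℤ → ℝ} {b : ℝ} (hb : ∀ u, g u ≤ b * nrm u) : g 0 ≤ 0 := by
  have := hb 0
  simpa [nrm] using this

theorem g_nsmul {g : ℤ × ℤ → ℝ} {b : ℝ} (hadd : ∀ u u', g (u + u') ≤ g u + g u')
    (hb : ∀ u, g u ≤ b * nrm u) (k : ℕ) (u : ℤ × ℤ) : g (k • u) ≤ k * g u := by
  induction k with
  | zero => simpa using g_zero hb
  | succ k ih =>
    rw [succ_nsmul]
    have := hadd (k • u) u
    push_cast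
    linarith

theorem g_sum {g : ℤ × ℤ → ℝ} {b : ℝ} (hadd : ∀ u u', g (u + u') ≤ g u + g u')
    (hb : ∀ u, g u ≤ b * nrm u) (s : Finset (ℤ × ℤ)) (f : ℤ × ℤ → ℤ × ℤ) :
    g (∑ w ∈ s, f w) ≤ ∑ w ∈ s, g (f w) := by
  classical
  induction s using Finset.induction_on with
  | empty => simpa using g_zero hb
  | insert a s ha ih =>
    rw [Finset.sum_insert ha, Finset.sum_insert ha]
    have := hadd (f a) (∑ w ∈ s, f w)
    linarith

theorem nrm_cast (u : ℤ × ℤ) : ((nrm u : ℕ) : ℝ) = |(u.1 : ℝ)| + |(u.2 : ℝ)| := by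
  unfold nrm
  push_cast
  rw [Nat.cast_natAbs, Nat.cast_natAbs]
  push_cast
  rfl

/-- rounding -/
theorem le_subK {g : ℤ × ℤ → ℝ} {b : ℝ} (hb0 : 0 ≤ b)
    (hadd : ∀ u u', g (u + u') ≤ g u + g u') (h0 : ∀ u, 0 ≤ g u) (hb : ∀ u, g u ≤ b * nrm u)
    {l : ℕ} (hl : 1 ≤ l) (v : ℤ × ℤ) : g v - 9 * b * (l : ℝ) ^ 3 ≤ subK g l (toR v) := by
  refine le_csInf (repS_nonempty g hl _) ?_
  rintro _ ⟨c, hc, h1, h2, rfl⟩
  set k : ℤ × ℤ → ℕ := fun w => ⌊c w⌋₊ with hk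
  have hk1 : ∀ w, (k w : ℝ) ≤ c w := fun w => Nat.floor_le (hc w)
  have hk2 : ∀ w, c w - k w ≤ 1 := fun w => by
    have := (Nat.lt_floor_add_one (c w)).le
    linarith
  set v' : ℤ × ℤ := ∑ w ∈ fW l, k w • w with hv'
  have hv1 : (v'.1 : ℝ) = ∑ w ∈ fW l, (k w : ℝ) * w.1 := by
    rw [hv', Prod.fst_sum]
    push_cast
    refine Finset.sum_congr rfl fun w _ => ?_
    simp
  have hv2 : (v'.2 : ℝ) = ∑ w ∈ fW l, (k w : ℝ) * w.2 := by
    rw [hv', Prod.snd_sum]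
    push_cast
    refine Finset.sum_congr rfl fun w _ => ?_
    simp
  have hd1 : |((v - v').1 : ℝ)| ≤ ∑ w ∈ fW l, |(w.1 : ℝ)| := by
    have : ((v - v').1 : ℝ) = ∑ w ∈ fW l, (c w - k w) * w.1 := by
      rw [Prod.fst_sub, Int.cast_sub, hv1]
      have h3 : (v.1 : ℝ) = ∑ w ∈ fW l, c w * w.1 := h1.symm
      rw [h3, ← Finset.sum_sub_distrib]
      exact Finset.sum_congr rfl fun w _ => by ring
    rw [this]
    refine (Finset.abs_sum_le_sum_abs _ _).trans (Finset.sum_le_sum fun w _ => ?_)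
    rw [abs_mul, abs_of_nonneg (by linarith [hk1 w])]
    have := abs_nonneg (w.1 : ℝ)
    nlinarith [hk2 w]
  have hd2 : |((v - v').2 : ℝ)| ≤ ∑ w ∈ fW l, |(w.2 : ℝ)| := by
    have : ((v - v').2 : ℝ) = ∑ w ∈ fW l, (c w - k w) * w.2 := by
      rw [Prod.snd_sub, Int.cast_sub, hv2]
      have h3 : (v.2 : ℝ) = ∑ w ∈ fW l, c w * w.2 := h2.symm
      rw [h3, ← Finset.sum_sub_distrib]
      exact Finset.sum_congr rfl fun w _ => by ring
    rw [this]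
    refine (Finset.abs_sum_le_sum_abs _ _).trans (Finset.sum_le_sum fun w _ => ?_)
    rw [abs_mul, abs_of_nonneg (by linarith [hk1 w])]
    have := abs_nonneg (w.2 : ℝ)
    nlinarith [hk2 w]
  have hd : ((nrm (v - v') : ℕ) : ℝ) ≤ 9 * (l : ℝ) ^ 3 := by
    rw [nrm_cast]
    have h3 : ∑ w ∈ fW l, |(w.1 : ℝ)| + ∑ w ∈ fW l, |(w.2 : ℝ)| ≤ ∑ _w ∈ fW l, (l : ℝ) := by
      rw [← Finset.sum_add_distrib]
      refine Finset.sum_le_sum fun w hw => ?_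
      rw [← nrm_cast]
      exact_mod_cast mem_fW.1 hw
    rw [Finset.sum_const, nsmul_eq_mul] at h3
    have h4 := mul_le_mul_of_nonneg_right (card_fW l hl) (Nat.cast_nonneg (α := ℝ) l)
    have h5 : 9 * (l : ℝ) ^ 2 * l = 9 * (l : ℝ) ^ 3 := by ring
    linarith
  have hg1 : g v ≤ g v' + g (v - v') := by
    have := hadd v' (v - v')
    rwa [add_sub_cancel] at this
  have hg2 : g (v - v') ≤ 9 * b * (l : ℝ) ^ 3 := by
    have h3 := hb (v - v')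
    have h4 := mul_le_mul_of_nonneg_left hd hb0
    linarith
  have hg3 : g v' ≤ ∑ w ∈ fW l, c w * g w := by
    refine (g_sum hadd hb _ _).trans (Finset.sum_le_sum fun w _ => ?_)
    exact (g_nsmul hadd hb _ _).trans (mul_le_mul_of_nonneg_right (hk1 w) (h0 w))
  linarith

/-- the functional before the symmetrization -/
theorem exists_functional0 {g : ℤ × ℤ → ℝ} {b : ℝ} (hb0 : 0 ≤ b)
    (hadd : ∀ u u', g (u + u') ≤ g u + g u') (h0 : ∀ u, 0 ≤ g u) (hb : ∀ u, g u ≤ b * nrm u)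
    {l : ℕ} (hl : 1 ≤ l) (v : ℤ × ℤ) :
    ∃ H1 H2 : ℝ, (∀ u : ℤ × ℤ, nrm u ≤ l → H1 * u.1 + H2 * u.2 ≤ g u) ∧
      g v - 9 * b * (l : ℝ) ^ 3 ≤ H1 * v.1 + H2 * v.2 := by
  by_cases hv : v = 0
  · refine ⟨0, 0, fun u _ => by simpa using h0 u, ?_⟩
    have h1 := g_zero hb
    rw [hv]
    have h2 : 0 ≤ 9 * b * (l : ℝ) ^ 3 := by positivity
    simp only [zero_mul, add_zero]
    linarith
  have hv' : toR v ≠ 0 := by
    intro h
    apply hv
    have h1 := congrArg Prod.fst h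
    have h2 := congrArg Prod.snd h
    simp only [toR, Prod.fst_zero, Prod.snd_zero, Int.cast_eq_zero] at h1 h2
    exact Prod.ext h1 h2
  obtain ⟨G, hG1, hG2⟩ := exists_extension_of_le_sublinear
    (LinearPMap.mkSpanSingleton (K := ℝ) (L := ℝ) (σ := RingHom.id ℝ) (toR v)
      (subK g l (toR v)) hv') (subK g l)
    (fun c hc x => subK_smul h0 hl hc x) (fun x y => subK_add h0 hl x y) (by
      rintro ⟨x, hx⟩
      obtain ⟨c, rfl⟩ := Submodule.mem_span_singleton.1 hx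
      have h3 : (LinearPMap.mkSpanSingleton (K := ℝ) (L := ℝ) (σ := RingHom.id ℝ) (toR v)
          (subK g l (toR v)) hv') ⟨c • toR v, hx⟩ = c • subK g l (toR v) :=
        LinearPMap.mkSpanSingleton'_apply _ _ _ _ _
      rw [h3, smul_eq_mul]
      change c * subK g l (toR v) ≤ subK g l (c • toR v)
      rcases lt_or_ge 0 c with h4 | h4
      · rw [subK_smul h0 hl h4]
      · have h5 := subK_nonneg h0 hl (toR v)
        have h6 := subK_nonneg h0 hl (c • toR v)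
        nlinarith)
  have hGv : G (toR v) = subK g l (toR v) := by
    have h1 := hG1 ⟨toR v, Submodule.mem_span_singleton_self _⟩
    rw [LinearPMap.mkSpanSingleton_apply ℝ ℝ hv'] at h1
    exact h1
  have hGx : ∀ u : ℤ × ℤ, G (toR u) = G (1, 0) * u.1 + G (0, 1) * u.2 := by
    intro u
    have h1 : toR u = (u.1 : ℝ) • ((1, 0) : ℝ × ℝ) + (u.2 : ℝ) • ((0, 1) : ℝ × ℝ) := by
      ext <;> simp [toR]
    rw [h1, map_add, map_smul, map_smul, smul_eq_mul, smul_eq_mul]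
    ring
  refine ⟨G (1, 0), G (0, 1), fun u hu => ?_, ?_⟩
  · rw [← hGx]
    exact (hG2 _).trans (subK_le h0 hu)
  · rw [← hGx, hGv]
    exact le_subK hb0 hadd h0 hb hl v

theorem exists_functional {g : ℤ × ℤ → ℝ} {b : ℝ} (hb0 : 0 ≤ b)
    (hadd : ∀ u u', g (u + u') ≤ g u + g u') (h0 : ∀ u, 0 ≤ g u) (hb : ∀ u, g u ≤ b * nrm u)
    (hs1 : ∀ u : ℤ × ℤ, g (-u.1, u.2) = g u) (hs2 : ∀ u : ℤ × ℤ, g (u.1, -u.2) = g u)
    (hs3 : ∀ u : ℤ × ℤ, g (u.2, u.1) = g u) {l : ℕ} (hl : 1 ≤ l) (v : ℤ × ℤ)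
    (hv2 : 0 ≤ v.2) (hv1 : v.2 ≤ v.1) :
    ∃ h1 h2 : ℝ, 0 ≤ h2 ∧ h2 ≤ h1 ∧ h1 ≤ b ∧
      (∀ u : ℤ × ℤ, nrm u ≤ l → h1 * u.1 + h2 * u.2 ≤ g u) ∧
      g v - 9 * b * (l : ℝ) ^ 3 ≤ h1 * v.1 + h2 * v.2 := by
  obtain ⟨H1, H2, hH, hHv⟩ := exists_functional0 hb0 hadd h0 hb hl v
  have hv2' : (0 : ℝ) ≤ v.2 := by exact_mod_cast hv2
  have hv1' : (v.2 : ℝ) ≤ v.1 := by exact_mod_cast hv1
  -- signs
  have hsg : ∀ u : ℤ × ℤ, nrm u ≤ l → |H1| * u.1 + |H2| * u.2 ≤ g u := by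
    intro u hu
    have a1 := hH u hu
    have a2 := hH (-u.1, u.2) (by simpa [nrm] using hu)
    have a3 := hH (u.1, -u.2) (by simpa [nrm] using hu)
    have a4 := hH (-u.1, -u.2) (by simpa [nrm] using hu)
    have e4 : g (-u.1, -u.2) = g u := by
      have := hs1 (u.1, -u.2)
      rw [hs2] at this
      exact this
    rw [hs1] at a2
    rw [hs2] at a3
    rw [e4] at a4
    push_cast at a1 a2 a3 a4
    rcases abs_cases H1 with ⟨h1, _⟩ | ⟨h1, _⟩ <;> rcases abs_cases H2 with ⟨h2, _⟩ | ⟨h2, _⟩ <;>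
      rw [h1, h2] <;> linarith
  have hsw : ∀ u : ℤ × ℤ, nrm u ≤ l → |H2| * u.1 + |H1| * u.2 ≤ g u := by
    intro u hu
    have a1 := hsg (u.2, u.1) (by
      unfold nrm at hu ⊢
      dsimp only
      omega)
    rw [hs3] at a1
    dsimp only at a1
    linarith
  have hH1 : H1 * v.1 ≤ |H1| * v.1 :=
    mul_le_mul_of_nonneg_right (le_abs_self _) (hv2'.trans hv1')
  have hH2 : H2 * v.2 ≤ |H2| * v.2 := mul_le_mul_of_nonneg_right (le_abs_self _) hv2'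
  have hb1 : ∀ h1 h2 : ℝ, (∀ u : ℤ × ℤ, nrm u ≤ l → h1 * u.1 + h2 * u.2 ≤ g u) → h1 ≤ b := by
    intro h1 h2 h
    have a1 := h (1, 0) (by simpa [nrm] using hl)
    have a2 := hb (1, 0)
    simp only [nrm, Int.cast_one, mul_one, Int.cast_zero, mul_zero, add_zero,
      Int.natAbs_one, Int.natAbs_zero, Nat.cast_one] at a1 a2
    linarith
  rcases le_total |H2| |H1| with h | h
  · exact ⟨|H1|, |H2|, abs_nonneg _, h, hb1 _ _ hsg, hsg, by linarith⟩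
  · refine ⟨|H2|, |H1|, abs_nonneg _, h, hb1 _ _ hsw, hsw, ?_⟩
    nlinarith [mul_nonneg (sub_nonneg.2 h) (sub_nonneg.2 hv1')]

/-- the slack inequality (pure arithmetic): if `g` dominates `h` and is invariant under the symmetries, then
`g u - h·u ≥ (h1/3) |u|_1 - (7/6) h1 (2u_1+u_2)^+`, hence with `a/2 ≤ h1 ≤ b` the stated form.
PROOF: `g u ≥ h1 max(|u_1|,|u_2|) + h2 min(|u_1|,|u_2|) =: m(u)`, `Q(u) := m(u) - h·u` is defined for real `u`.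
If `2u_1+u_2 ≤ 0`: `Q(u) ≥ (h1/3)|u|_1` (cases: `u_1<0, |u_1| ≥ |u_2|`: `Q ≥ 2 h1 |u_1|`; `u_1<0, u_2 > |u_1|`: then
`u_2 ≤ 2|u_1|`, `Q ≥ (h1-h2)u_2 + (h1+h2)|u_1| ≥ h1 |u_1|`; `u_1 < 0, u_2 ≤ -|u_1|`: `Q ≥ h1|u|_1`;
`u_1 ≥ 0`: `|u_2| ≥ 2u_1`, `Q ≥ h1(|u_2| - u_1) ≥ h1|u_2|/2`). In general compare `u` with `u' = u - ((2u_1+u_2)^+/2) e_1`:
`Q(u) ≥ Q(u') - 2 h1 (2u_1+u_2)^+/2`, `|u'|_1 ≥ |u|_1 - (2u_1+u_2)^+/2`. -/
theorem slack_ge {g : ℤ × ℤ → ℝ} {l : ℕ} {h1 h2 : ℝ} (h20 : 0 ≤ h2) (h21 : h2 ≤ h1)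
    (hs1 : ∀ u : ℤ × ℤ, g (-u.1, u.2) = g u) (hs2 : ∀ u : ℤ × ℤ, g (u.1, -u.2) = g u)
    (hs3 : ∀ u : ℤ × ℤ, g (u.2, u.1) = g u)
    (hg : ∀ u : ℤ × ℤ, nrm u ≤ l → h1 * u.1 + h2 * u.2 ≤ g u) (u : ℤ × ℤ) (hu : nrm u ≤ l) :
    h1 / 3 * nrm u - 7 / 6 * h1 * max 0 (2 * (u.1 : ℝ) + u.2) ≤ g u - (h1 * u.1 + h2 * u.2) := by
  have h10 : 0 ≤ h1 := h20.trans h21
  have e4 : g (-u.1, -u.2) = g u := by
    have := hs1 (u.1, -u.2)
    rw [hs2] at this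
    exact this
  have f1 : g (u.2, -u.1) = g u := by
    have := hs3 (-u.1, u.2)
    rw [hs1] at this
    exact this
  have f2 : g (-u.2, u.1) = g u := by
    have := hs3 (u.1, -u.2)
    rw [hs2] at this
    exact this
  have f3 : g (-u.2, -u.1) = g u := by
    have := hs3 (-u.1, -u.2)
    rw [e4] at this
    exact this
  have a1 := hg u hu
  have a2 := hg (-u.1, u.2) (by simpa [nrm] using hu)
  have a3 := hg (u.1, -u.2) (by simpa [nrm] using hu)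
  have a4 := hg (-u.1, -u.2) (by simpa [nrm] using hu)
  have b1 := hg (u.2, u.1) (by unfold nrm at hu ⊢; dsimp only; omega)
  have b2 := hg (u.2, -u.1) (by unfold nrm at hu ⊢; dsimp only; omega)
  have b3 := hg (-u.2, u.1) (by unfold nrm at hu ⊢; dsimp only; omega)
  have b4 := hg (-u.2, -u.1) (by unfold nrm at hu ⊢; dsimp only; omega)
  rw [hs1] at a2
  rw [hs2] at a3
  rw [e4] at a4
  rw [hs3] at b1
  rw [f1] at b2
  rw [f2] at b3
  rw [f3] at b4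
  push_cast at a1 a2 a3 a4 b1 b2 b3 b4
  rw [nrm_cast]
  set x : ℝ := (u.1 : ℝ) with hx
  set y : ℝ := (u.2 : ℝ) with hy
  clear_value x y
  rcases le_total (2 * x + y) 0 with hm | hm
  · rw [max_eq_left hm]
    rcases abs_cases x with ⟨hx1, hx2⟩ | ⟨hx1, hx2⟩ <;>
      rcases abs_cases y with ⟨hy1, hy2⟩ | ⟨hy1, hy2⟩ <;> rw [hx1, hy1]
    · have : x = 0 := by linarith
      have : y = 0 := by linarith
      subst_vars
      nlinarith
    · nlinarith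
    · nlinarith
    · nlinarith
  · rw [max_eq_right hm]
    have c1 := mul_nonneg h10 hm
    rcases abs_cases x with ⟨hx1, hx2⟩ | ⟨hx1, hx2⟩
    · rcases abs_cases y with ⟨hy1, hy2⟩ | ⟨hy1, hy2⟩
      · rw [hx1, hy1]
        have c2 := mul_nonneg h10 hx2
        have c3 := mul_nonneg h10 hy2
        linarith
      · rw [hx1, hy1]
        have c2 := mul_nonneg h20 hx2
        have c3 := mul_nonneg h20 (neg_nonneg.2 hy2.le)
        linarith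
    · have hy0 : 0 ≤ y := by linarith
      rw [hx1, abs_of_nonneg hy0]
      have c2 := mul_nonneg (sub_nonneg.2 h21) hy0
      have c3 := mul_nonneg h20 (neg_nonneg.2 hx2.le)
      linarith

end Pool.Agent.FPZ
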