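import Pool.Agent.FPZ.Defs
import Pool.Agent.FPZ.R8Fun
import Pool.Agent.FPP.AV

/-!
Module R8Sym (section 8): the mean passage time `gE` and its exact symmetries. Uses GEO (helper28: triangle inequality,
`a * nrm ≤ dst ≤ b * nrm` in environments with `Bd a b`).

PROOF. General lemma: let `σ : V → V` be a bijection, `σE : E → E`, `σI : Ix N ≃ Ix N` with `adj x y ↔ adj (σ x) (σ y)`,
`edg (σ x) (σ y) = σE (edg x y)` for adjacent `x y`, `red N (σE e) = σI (red N e)`. Then
`dst (env wt (ω ∘ σI)) x y = dst (env wt ω) (σ x) (σ y)` (map paths by `σ` and by its inverse) and by `Ex_equiv` the means agree.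
Instances: translation (`σ z = z + c`, `σI` = shift), `σ z = (-z.1, z.2)` (`σE (z,false) = ((-z.1-1, z.2), false)`,
`σE (z,true) = ((-z.1, z.2), true)`), `σ z = (z.1, -z.2)`, `σ z = (z.2, z.1)` (`σE (z,d) = ((z.2,z.1), !d)`).
-/

set_option autoImplicit false

noncomputable section

namespace Pool.Agent.FPZ

open Finset Pool.FPP

variable {N : ℕ} [NeZero N] {Al : Type} [Fintype Al] [Nonempty Al]

/-- mean passage time from `0` to `u` -/
def gE (N : ℕ) [NeZero N] {Al : Type} [Fintype Al] (wt : Al → ℝ) (u : V) : ℝ :=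
  Ex (fun ω : Ix N → Al => dst (env wt ω) 0 u)

/-! ### adjacency, paths -/

theorem sym_adj_iff (x y : V) : adj x y ↔
    (y.1 = x.1 + 1 ∧ y.2 = x.2) ∨ (y.1 = x.1 ∧ y.2 = x.2 + 1) ∨
      (x.1 = y.1 + 1 ∧ x.2 = y.2) ∨ (x.1 = y.1 ∧ x.2 = y.2 + 1) := by
  constructor
  · rintro ⟨⟨z, d⟩, h⟩
    cases d
    · rcases h with ⟨h1, h2⟩ | ⟨h1, h2⟩
      · simp only [hd] at h1 h2
        subst h1; rw [← h2]; simp
      · simp only [hd] at h1 h2
        subst h1; rw [← h2]; simp
    · rcases h with ⟨h1, h2⟩ | ⟨h1, h2⟩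
      · simp only [hd] at h1 h2
        subst h1; rw [← h2]; simp
      · simp only [hd] at h1 h2
        subst h1; rw [← h2]; simp
  · rintro (⟨h1, h2⟩ | ⟨h1, h2⟩ | ⟨h1, h2⟩ | ⟨h1, h2⟩)
    · exact ⟨(x, false), Or.inl ⟨rfl, by ext <;> simp [hd, h1, h2]⟩⟩
    · exact ⟨(x, true), Or.inl ⟨rfl, by ext <;> simp [hd, h1, h2]⟩⟩
    · exact ⟨(y, false), Or.inr ⟨rfl, by ext <;> simp [hd, h1, h2]⟩⟩
    · exact ⟨(y, true), Or.inr ⟨rfl, by ext <;> simp [hd, h1, h2]⟩⟩

/-- transport of passage times by a bijection of the vertices -/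
theorem sym_dst_map (A A' : E → ℝ) (σ τ : V → V) (h1 : ∀ z, τ (σ z) = z) (h2 : ∀ z, σ (τ z) = z)
    (hσ : ∀ x y, adj x y → adj (σ x) (σ y)) (hτ : ∀ x y, adj x y → adj (τ x) (τ y))
    (hA : ∀ x y, adj x y → A' (edg x y) = A (edg (σ x) (σ y))) (x y : V) :
    dst A' x y = dst A (σ x) (σ y) := by
  unfold dst
  congr 1
  ext t
  constructor
  · rintro ⟨n, p, ⟨p0, pn, pa⟩, rfl⟩
    refine ⟨n, fun k => σ (p k), ⟨by simp only [p0], by simp only [pn], fun k hk => hσ _ _ (pa k hk)⟩, ?_⟩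
    unfold cost
    refine Finset.sum_congr rfl fun k hk => ?_
    exact hA _ _ (pa k (Finset.mem_Ico.mp hk).2)
  · rintro ⟨n, q, ⟨q0, qn, qa⟩, rfl⟩
    refine ⟨n, fun k => τ (q k), ⟨by simp only [q0, h1], by simp only [qn, h1],
      fun k hk => hτ _ _ (qa k hk)⟩, ?_⟩
    unfold cost
    refine Finset.sum_congr rfl fun k hk => ?_
    have := hA _ _ (hτ _ _ (qa k (Finset.mem_Ico.mp hk).2))
    simp only [h2] at this
    exact this.symm

omit [Nonempty Al] in
/-- the law of the passage time is invariant under the symmetries -/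
theorem sym_law_map (g : ℝ → ℝ) (wt : Al → ℝ) (σ τ : V → V) (σI : Ix N ≃ Ix N)
    (h1 : ∀ z, τ (σ z) = z) (h2 : ∀ z, σ (τ z) = z)
    (hσ : ∀ x y, adj x y → adj (σ x) (σ y)) (hτ : ∀ x y, adj x y → adj (τ x) (τ y))
    (hI : ∀ x y, adj x y → red N (edg (σ x) (σ y)) = σI (red N (edg x y))) (x y : V) :
    Ex (fun ω : Ix N → Al => g (dst (env wt ω) (σ x) (σ y))) =
      Ex (fun ω : Ix N → Al => g (dst (env wt ω) x y)) := by
  let e : (Ix N → Al) ≃ (Ix N → Al) :=
    { toFun := fun ω i => ω (σI i)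
      invFun := fun ω i => ω (σI.symm i)
      left_inv := fun ω => by funext i; simp
      right_inv := fun ω => by funext i; simp }
  rw [← Ex_equiv e (fun ω : Ix N → Al => g (dst (env wt ω) x y))]
  congr 1
  funext ω
  congr 1
  refine (sym_dst_map (env wt ω) (env wt (e ω)) σ τ h1 h2 hσ hτ ?_ x y).symm
  intro x y hxy
  change wt (ω (σI (red N (edg x y)))) = wt (ω (red N (edg (σ x) (σ y))))
  rw [hI x y hxy]

omit [Nonempty Al] in
/-- the mean passage time is invariant under the symmetries -/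
theorem sym_Ex_map (wt : Al → ℝ) (σ τ : V → V) (σI : Ix N ≃ Ix N)
    (h1 : ∀ z, τ (σ z) = z) (h2 : ∀ z, σ (τ z) = z)
    (hσ : ∀ x y, adj x y → adj (σ x) (σ y)) (hτ : ∀ x y, adj x y → adj (τ x) (τ y))
    (hI : ∀ x y, adj x y → red N (edg (σ x) (σ y)) = σI (red N (edg x y))) (x y : V) :
    Ex (fun ω : Ix N → Al => dst (env wt ω) (σ x) (σ y)) =
      Ex (fun ω : Ix N → Al => dst (env wt ω) x y) :=
  sym_law_map (fun t => t) wt σ τ σI h1 h2 hσ hτ hI x y

theorem sym_trans (wt : Al → ℝ) (c x y : V) :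
    Ex (fun ω : Ix N → Al => dst (env wt ω) (x + c) (y + c)) =
      Ex (fun ω : Ix N → Al => dst (env wt ω) x y) := by
  refine sym_Ex_map wt (fun z => z + c) (fun z => z - c)
    { toFun := fun i => ((i.1.1 + (c.1 : ZMod N), i.1.2 + (c.2 : ZMod N)), i.2)
      invFun := fun i => ((i.1.1 - (c.1 : ZMod N), i.1.2 - (c.2 : ZMod N)), i.2)
      left_inv := fun i => by simp
      right_inv := fun i => by simp } (fun z => by simp) (fun z => by simp) ?_ ?_ ?_ x y
  · intro x y h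
    rw [sym_adj_iff] at h ⊢
    simp only [Prod.fst_add, Prod.snd_add]
    omega
  · intro x y h
    rw [sym_adj_iff] at h ⊢
    simp only [Prod.fst_sub, Prod.snd_sub]
    omega
  · intro x y h
    simp only [red, edg, Prod.fst_add, Prod.snd_add, min_add_add_right, Int.cast_add, ne_eq,
      add_left_inj, Equiv.coe_fn_mk]

theorem Ex_dst (wt : Al → ℝ) (x y : V) :
    Ex (fun ω : Ix N → Al => dst (env wt ω) x y) = gE N wt (y - x) := by
  unfold gE
  have h := sym_trans (N := N) wt x 0 (y - x)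
  rw [zero_add, sub_add_cancel] at h
  exact h

theorem sym_dst_nonneg {A : E → ℝ} (hA : ∀ e, 0 ≤ A e) (x y : V) : 0 ≤ dst A x y := by
  refine Real.sInf_nonneg ?_
  rintro t ⟨n, p, -, rfl⟩
  exact Finset.sum_nonneg fun _ _ => hA _

omit [NeZero N] [Fintype Al] [Nonempty Al] in
theorem sym_env_nonneg {a b : ℝ} (ha : 0 < a) {wt : Al → ℝ} (hw : ∀ x, a ≤ wt x ∧ wt x ≤ b)
    (ω : Ix N → Al) (e : E) : 0 ≤ env wt ω e := ha.le.trans (hw _).1

theorem sym_bdd {A : E → ℝ} (hA : ∀ e, 0 ≤ A e) (x y : V) :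
    BddBelow {t : ℝ | ∃ (n : ℕ) (p : ℕ → V), IsPath n p x y ∧ t = cost A 0 n p} := by
  refine ⟨0, ?_⟩
  rintro t ⟨n, p, -, rfl⟩
  exact Finset.sum_nonneg fun _ _ => hA _

theorem sym_nrm_step {u w : V} (h : adj u w) (x : V) : nrm (w - x) ≤ nrm (u - x) + 1 := by
  rw [sym_adj_iff] at h
  simp only [nrm, Prod.fst_sub, Prod.snd_sub]
  omega

theorem sym_nrm_le {n : ℕ} {p : ℕ → V} {x y : V} (h : IsPath n p x y) : nrm (y - x) ≤ n := by
  obtain ⟨p0, pn, pa⟩ := h
  have key : ∀ k, k ≤ n → nrm (p k - x) ≤ k := by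
    intro k
    induction k with
    | zero => intro _; rw [p0]; simp [nrm]
    | succ k ih =>
      intro hk
      exact (sym_nrm_step (pa k hk) x).trans (Nat.succ_le_succ (ih (by omega)))
  have := key n le_rfl
  rwa [pn] at this

theorem sym_path_exists (n : ℕ) : ∀ x y : V, nrm (y - x) = n → ∃ p, IsPath n p x y := by
  induction n with
  | zero =>
    intro x y h
    have : y = x := by
      simp only [nrm, Prod.fst_sub, Prod.snd_sub] at h
      ext <;> omega
    subst this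
    exact ⟨fun _ => y, rfl, rfl, fun k hk => absurd hk (Nat.not_lt_zero _)⟩
  | succ n ih =>
    intro x y h
    obtain ⟨y', hy', hadj⟩ : ∃ y' : V, nrm (y' - x) = n ∧ adj y' y := by
      simp only [nrm, Prod.fst_sub, Prod.snd_sub] at h
      by_cases h1 : y.1 = x.1
      · by_cases h2 : x.2 < y.2
        · refine ⟨(y.1, y.2 - 1), ?_, ?_⟩
          · simp only [nrm, Prod.fst_sub, Prod.snd_sub]; omega
          · exact (sym_adj_iff _ _).mpr (Or.inr (Or.inl ⟨rfl, by simp⟩))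
        · refine ⟨(y.1, y.2 + 1), ?_, ?_⟩
          · simp only [nrm, Prod.fst_sub, Prod.snd_sub]; omega
          · exact (sym_adj_iff _ _).mpr (Or.inr (Or.inr (Or.inr ⟨rfl, rfl⟩)))
      · by_cases h2 : x.1 < y.1
        · refine ⟨(y.1 - 1, y.2), ?_, ?_⟩
          · simp only [nrm, Prod.fst_sub, Prod.snd_sub]; omega
          · exact (sym_adj_iff _ _).mpr (Or.inl ⟨by simp, rfl⟩)
        · refine ⟨(y.1 + 1, y.2), ?_, ?_⟩
          · simp only [nrm, Prod.fst_sub, Prod.snd_sub]; omega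
          · exact (sym_adj_iff _ _).mpr (Or.inr (Or.inr (Or.inl ⟨rfl, rfl⟩)))
    obtain ⟨p, p0, pn, pa⟩ := ih x y' hy'
    refine ⟨fun k => if k ≤ n then p k else y, ?_, ?_, ?_⟩
    · simp [p0]
    · simp
    · intro k hk
      by_cases hk2 : k = n
      · subst hk2
        simp only [le_refl, if_true, pn]
        rw [if_neg (by omega)]
        exact hadj
      · simp only
        rw [if_pos (by omega), if_pos (by omega)]
        exact pa k (by omega)

theorem sym_dst_le {a b : ℝ} (ha : 0 < a) {A : E → ℝ} (hA : ∀ e, a ≤ A e ∧ A e ≤ b) (x y : V) :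
    dst A x y ≤ b * nrm (y - x) := by
  obtain ⟨p, hp⟩ := sym_path_exists _ x y rfl
  refine (csInf_le (sym_bdd (fun e => ha.le.trans (hA e).1) x y) ⟨_, p, hp, rfl⟩).trans ?_
  unfold cost
  refine (Finset.sum_le_card_nsmul _ _ b fun k _ => (hA _).2).trans ?_
  rw [Nat.card_Ico, nsmul_eq_mul, Nat.sub_zero, mul_comm]

theorem sym_le_dst {a b : ℝ} (ha : 0 < a) {A : E → ℝ} (hA : ∀ e, a ≤ A e ∧ A e ≤ b) (x y : V) :
    a * nrm (y - x) ≤ dst A x y := by
  obtain ⟨p, hp⟩ := sym_path_exists _ x y rfl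
  refine le_csInf ⟨_, _, p, hp, rfl⟩ ?_
  rintro t ⟨n, q, hq, rfl⟩
  have h1 : (nrm (y - x) : ℝ) ≤ n := by exact_mod_cast sym_nrm_le hq
  have h2 := Finset.card_nsmul_le_sum (Finset.Ico 0 n) (fun k => A (edg (q k) (q (k + 1)))) a
    fun k _ => (hA _).1
  rw [Nat.card_Ico, nsmul_eq_mul, Nat.sub_zero, mul_comm] at h2
  exact (mul_le_mul_of_nonneg_left h1 ha.le).trans h2

/-- triangle inequality -/
theorem sym_dst_triangle {A : E → ℝ} (hA : ∀ e, 0 ≤ A e) (x y z : V) :
    dst A x z ≤ dst A x y + dst A y z := by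
  obtain ⟨p0, hp0⟩ := sym_path_exists _ x y rfl
  obtain ⟨q0, hq0⟩ := sym_path_exists _ y z rfl
  have key : ∀ (n : ℕ) (p : ℕ → V), IsPath n p x y → ∀ (m : ℕ) (q : ℕ → V), IsPath m q y z →
      dst A x z ≤ cost A 0 n p + cost A 0 m q := by
    intro n p hp m q hq
    obtain ⟨p1, p2, p3⟩ := hp
    obtain ⟨q1, q2, q3⟩ := hq
    set r : ℕ → V := fun k => if k ≤ n then p k else q (k - n) with hr
    have hrp : ∀ k, k ≤ n → r k = p k := fun k hk => by rw [hr]; simp only; rw [if_pos hk]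
    have hrq : ∀ k, r (n + k) = q k := by
      intro k
      rcases Nat.eq_zero_or_pos k with h | h
      · subst h
        rw [Nat.add_zero, hrp n le_rfl, p2, q1]
      · rw [hr]; simp only; rw [if_neg (by omega)]
        congr 1; omega
    have hpath : IsPath (n + m) r x z := by
      refine ⟨by rw [hrp 0 (Nat.zero_le _), p1], by rw [hrq, q2], ?_⟩
      intro k hk
      by_cases h : k < n
      · rw [hrp k h.le, hrp (k + 1) h]; exact p3 k h
      · obtain ⟨j, rfl⟩ : ∃ j, k = n + j := ⟨k - n, by omega⟩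
        rw [hrq j, Nat.add_assoc, hrq (j + 1)]
        exact q3 j (by omega)
    refine (csInf_le (sym_bdd hA x z) ⟨_, r, hpath, rfl⟩).trans (le_of_eq ?_)
    unfold cost
    rw [← Finset.sum_Ico_consecutive _ (Nat.zero_le n) (Nat.le_add_right n m)]
    congr 1
    · refine Finset.sum_congr rfl fun k hk => ?_
      have := (Finset.mem_Ico.mp hk).2
      rw [hrp k this.le, hrp (k + 1) this]
    · rw [Finset.sum_Ico_eq_sum_range, Finset.sum_Ico_eq_sum_range]
      simp only [Nat.add_sub_cancel_left, Nat.sub_zero, Nat.zero_add]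
      refine Finset.sum_congr rfl fun k _ => ?_
      rw [hrq k, Nat.add_assoc, hrq (k + 1)]
  have h1 : ∀ (m : ℕ) (q : ℕ → V), IsPath m q y z → dst A x z - cost A 0 m q ≤ dst A x y := by
    intro m q hq
    refine le_csInf ⟨_, _, p0, hp0, rfl⟩ ?_
    rintro t ⟨n, p, hp, rfl⟩
    have := key n p hp m q hq
    linarith
  have h2 : dst A x z - dst A x y ≤ dst A y z := by
    refine le_csInf ⟨_, _, q0, hq0, rfl⟩ ?_
    rintro t ⟨m, q, hq, rfl⟩
    have := h1 m q hq
    linarith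
  linarith

theorem gE_nonneg {a b : ℝ} (ha : 0 < a) {wt : Al → ℝ} (hw : ∀ x, a ≤ wt x ∧ wt x ≤ b) (u : V) :
    0 ≤ gE N wt u :=
  Ex_nonneg fun ω => sym_dst_nonneg (sym_env_nonneg ha hw ω) _ _

theorem gE_le {a b : ℝ} (ha : 0 < a) {wt : Al → ℝ} (hw : ∀ x, a ≤ wt x ∧ wt x ≤ b) (u : V) :
    gE N wt u ≤ b * nrm u := by
  unfold gE
  rw [← Ex_const (Ω := Ix N → Al) (b * nrm u)]
  refine Ex_mono fun ω => ?_
  have h := sym_dst_le ha (A := env wt ω) (fun e => hw _) 0 u
  rwa [sub_zero] at h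

theorem gE_ge {a b : ℝ} (ha : 0 < a) {wt : Al → ℝ} (hw : ∀ x, a ≤ wt x ∧ wt x ≤ b) (u : V) :
    a * nrm u ≤ gE N wt u := by
  unfold gE
  rw [← Ex_const (Ω := Ix N → Al) (a * nrm u)]
  refine Ex_mono fun ω => ?_
  have h := sym_le_dst ha (A := env wt ω) (fun e => hw _) 0 u
  rwa [sub_zero] at h

theorem gE_add {a b : ℝ} (ha : 0 < a) {wt : Al → ℝ} (hw : ∀ x, a ≤ wt x ∧ wt x ≤ b) (u u' : V) :
    gE N wt (u + u') ≤ gE N wt u + gE N wt u' := by
  have h1 : gE N wt u' = Ex (fun ω : Ix N → Al => dst (env wt ω) u (u + u')) := by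
    rw [Ex_dst, add_sub_cancel_left]
  rw [h1]
  unfold gE
  rw [← Ex_add]
  exact Ex_mono fun ω => sym_dst_triangle (sym_env_nonneg ha hw ω) 0 u (u + u')

omit [Nonempty Al] in
theorem law_neg1 (g : ℝ → ℝ) (wt : Al → ℝ) (u : V) :
    Ex (fun ω : Ix N → Al => g (dst (env wt ω) 0 (-u.1, u.2))) =
      Ex (fun ω : Ix N → Al => g (dst (env wt ω) 0 u)) := by
  have h := sym_law_map g wt (N := N) (fun z => (-z.1, z.2)) (fun z => (-z.1, z.2))
    { toFun := fun i => ((if i.2 then -i.1.1 else -i.1.1 - 1, i.1.2), i.2)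
      invFun := fun i => ((if i.2 then -i.1.1 else -i.1.1 - 1, i.1.2), i.2)
      left_inv := fun i => by obtain ⟨⟨i1, i2⟩, d⟩ := i; cases d <;> simp
      right_inv := fun i => by obtain ⟨⟨i1, i2⟩, d⟩ := i; cases d <;> simp }
    (fun z => by simp) (fun z => by simp) ?_ ?_ ?_ 0 u
  · exact h
  · intro x y h
    rw [sym_adj_iff] at h ⊢
    simp only
    omega
  · intro x y h
    rw [sym_adj_iff] at h ⊢
    simp only
    omega
  · intro x y h
    rw [sym_adj_iff] at h
    by_cases h2 : x.2 = y.2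
    · have e1 : min (-x.1) (-y.1) = -(min x.1 y.1) - 1 := by omega
      simp [red, edg, h2, e1]
    · have e1 : min (-x.1) (-y.1) = -(min x.1 y.1) := by omega
      simp [red, edg, h2, e1]

omit [Nonempty Al] in
theorem law_neg2 (g : ℝ → ℝ) (wt : Al → ℝ) (u : V) :
    Ex (fun ω : Ix N → Al => g (dst (env wt ω) 0 (u.1, -u.2))) =
      Ex (fun ω : Ix N → Al => g (dst (env wt ω) 0 u)) := by
  have h := sym_law_map g wt (N := N) (fun z => (z.1, -z.2)) (fun z => (z.1, -z.2))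
    { toFun := fun i => ((i.1.1, if i.2 then -i.1.2 - 1 else -i.1.2), i.2)
      invFun := fun i => ((i.1.1, if i.2 then -i.1.2 - 1 else -i.1.2), i.2)
      left_inv := fun i => by obtain ⟨⟨i1, i2⟩, d⟩ := i; cases d <;> simp
      right_inv := fun i => by obtain ⟨⟨i1, i2⟩, d⟩ := i; cases d <;> simp }
    (fun z => by simp) (fun z => by simp) ?_ ?_ ?_ 0 u
  · exact h
  · intro x y h
    rw [sym_adj_iff] at h ⊢
    simp only
    omega
  · intro x y h
    rw [sym_adj_iff] at h ⊢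
    simp only
    omega
  · intro x y h
    rw [sym_adj_iff] at h
    by_cases h2 : x.2 = y.2
    · have e1 : min (-x.2) (-y.2) = -(min x.2 y.2) := by omega
      simp [red, edg, h2]
    · have e1 : min (-x.2) (-y.2) = -(min x.2 y.2) - 1 := by omega
      simp [red, edg, h2, e1]

omit [Nonempty Al] in
theorem law_swap (g : ℝ → ℝ) (wt : Al → ℝ) (u : V) :
    Ex (fun ω : Ix N → Al => g (dst (env wt ω) 0 (u.2, u.1))) =
      Ex (fun ω : Ix N → Al => g (dst (env wt ω) 0 u)) := by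
  have h := sym_law_map g wt (N := N) (fun z => (z.2, z.1)) (fun z => (z.2, z.1))
    { toFun := fun i => ((i.1.2, i.1.1), !i.2)
      invFun := fun i => ((i.1.2, i.1.1), !i.2)
      left_inv := fun i => by simp
      right_inv := fun i => by simp }
    (fun z => by simp) (fun z => by simp) ?_ ?_ ?_ 0 u
  · exact h
  · intro x y h
    rw [sym_adj_iff] at h ⊢
    simp only
    omega
  · intro x y h
    rw [sym_adj_iff] at h ⊢
    simp only
    omega
  · intro x y h
    rw [sym_adj_iff] at h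
    by_cases h2 : x.2 = y.2
    · have h3 : x.1 ≠ y.1 := by omega
      simp [red, edg, h2, h3]
    · have h3 : x.1 = y.1 := by omega
      simp [red, edg, h2, h3]

theorem gE_neg1 (wt : Al → ℝ) (u : V) : gE N wt (-u.1, u.2) = gE N wt u :=
  law_neg1 (fun t => t) wt u

theorem gE_neg2 (wt : Al → ℝ) (u : V) : gE N wt (u.1, -u.2) = gE N wt u :=
  law_neg2 (fun t => t) wt u

theorem gE_swap (wt : Al → ℝ) (u : V) : gE N wt (u.2, u.1) = gE N wt u :=
  law_swap (fun t => t) wt u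

end Pool.Agent.FPZ
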