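import Pool.Agent.FPZ.Q4Coi
import Pool.Agent.FPZ.R8Sym

/-!
# Geodesics on `ℤ × ℤ` in environments with weights in `[a, b]`, `0 < a`

* `geo_isGeo`: the chosen geodesic is a geodesic.
* `geo_dst_le_seg`, `geo_seg_eq`: part of a path, part of a geodesic.
* `geo_inj`, `geo_edge_inj`, `geo_cost_sum`: a geodesic has different vertices and different edges.
* `geo_gl_le`, `geo_hbox`: length and confinement.
-/

set_option autoImplicit false

noncomputable section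

namespace Pool.Agent.FPZ

open Finset Pool.FPP

/-! ### concatenation -/

/-- first `i` steps of `p`, then `q` -/
def cat (i : ℕ) (p q : ℕ → V) : ℕ → V := fun k => if k ≤ i then p k else q (k - i)

theorem cat_le {i k : ℕ} (p q : ℕ → V) (h : k ≤ i) : cat i p q k = p k := by
  unfold cat
  rw [if_pos h]

theorem cat_ge {i : ℕ} {p q : ℕ → V} (h : p i = q 0) (k : ℕ) : cat i p q (i + k) = q k := by
  unfold cat
  split_ifs with h1
  · have : k = 0 := by omega
    subst this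
    rw [Nat.add_zero, h]
  · congr 1
    omega

theorem cat_path {i m : ℕ} {p q : ℕ → V} {x y z : V} (hp : IsPath i p x y) (hq : IsPath m q y z) :
    IsPath (i + m) (cat i p q) x z := by
  have h0 : p i = q 0 := by rw [hp.2.1, hq.1]
  refine ⟨?_, ?_, ?_⟩
  · rw [cat_le p q (Nat.zero_le i)]
    exact hp.1
  · rw [cat_ge h0]
    exact hq.2.1
  · intro k hk
    rcases Nat.lt_or_ge k i with h | h
    · rw [cat_le p q h.le, cat_le p q h]
      exact hp.2.2 k h
    · obtain ⟨j, rfl⟩ := Nat.exists_eq_add_of_le h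
      rw [cat_ge h0, Nat.add_assoc, cat_ge h0]
      exact hq.2.2 j (by omega)

theorem cost_self (A : E → ℝ) (i : ℕ) (p : ℕ → V) : cost A i i p = 0 := by
  unfold cost
  simp

theorem cost_split (A : E → ℝ) {i j k : ℕ} (p : ℕ → V) (hij : i ≤ j) (hjk : j ≤ k) :
    cost A i k p = cost A i j p + cost A j k p := by
  unfold cost
  exact (Finset.sum_Ico_consecutive _ hij hjk).symm

theorem cost_nonneg {A : E → ℝ} (hA : ∀ e, 0 ≤ A e) (i j : ℕ) (p : ℕ → V) : 0 ≤ cost A i j p :=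
  Finset.sum_nonneg fun _ _ => hA _

/-- translation of times -/
theorem cost_shift_time (A : E → ℝ) (i j : ℕ) (p : ℕ → V) :
    cost A i (i + j) p = cost A 0 j (fun k => p (i + k)) := by
  unfold cost
  rw [Finset.sum_Ico_eq_sum_range, Finset.sum_Ico_eq_sum_range]
  apply Finset.sum_congr
  · congr 1
    omega
  · intro k _
    simp only [Nat.zero_add]
    rfl

theorem cost_cat (A : E → ℝ) {i : ℕ} (m : ℕ) {p q : ℕ → V} (h : p i = q 0) :
    cost A 0 (i + m) (cat i p q) = cost A 0 i p + cost A 0 m q := by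
  rw [cost_split A (cat i p q) (Nat.zero_le i) (Nat.le_add_right i m), cost_shift_time]
  congr 1
  · unfold cost
    apply Finset.sum_congr rfl
    intro k hk
    rw [mem_Ico] at hk
    rw [cat_le p q (by omega), cat_le p q (by omega)]
  · unfold cost
    apply Finset.sum_congr rfl
    intro k _
    show A (edg (cat i p q (i + k)) (cat i p q (i + (k + 1)))) = _
    rw [cat_ge h, cat_ge h]

/-- part of a path -/
theorem seg_path {n : ℕ} {p : ℕ → V} (hp : ∀ k < n, adj (p k) (p (k + 1))) {i j : ℕ} (hij : i ≤ j)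
    (hj : j ≤ n) : IsPath (j - i) (fun k => p (i + k)) (p i) (p j) := by
  refine ⟨by simp, ?_, ?_⟩
  · show p (i + (j - i)) = p j
    congr 1
    omega
  · intro k hk
    exact hp (i + k) (by omega)

theorem dst_le_cost {A : E → ℝ} (hA : ∀ e, 0 ≤ A e) {n : ℕ} {p : ℕ → V} {x y : V}
    (hp : IsPath n p x y) : dst A x y ≤ cost A 0 n p :=
  csInf_le ⟨0, by
    rintro t ⟨m, q, _, rfl⟩
    exact cost_nonneg hA _ _ _⟩ ⟨n, p, hp, rfl⟩

theorem geo_dst_le_seg {A : E → ℝ} (hA : ∀ e, 0 ≤ A e) {i j : ℕ} {p : ℕ → V} (hij : i ≤ j)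
    (hp : ∀ k, i ≤ k → k < j → adj (p k) (p (k + 1))) :
    dst A (p i) (p j) ≤ cost A i j p := by
  have h1 : IsPath (j - i) (fun k => p (i + k)) (p i) (p j) := by
    refine ⟨by simp, ?_, ?_⟩
    · show p (i + (j - i)) = p j
      congr 1
      omega
    · intro k hk
      exact hp (i + k) (by omega) (by omega)
  have h2 := dst_le_cost hA h1
  rw [← cost_shift_time] at h2
  rwa [Nat.add_sub_cancel' hij] at h2

/-- the passage time is the infimum: approximation -/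
theorem exists_path_lt {A : E → ℝ} {x y : V} {c : ℝ} (hex : ∃ n p, IsPath n p x y)
    (h : dst A x y < c) : ∃ n p, IsPath n p x y ∧ cost A 0 n p < c := by
  obtain ⟨n0, p0, h0⟩ := hex
  have hne : {t : ℝ | ∃ (n : ℕ) (p : ℕ → V), IsPath n p x y ∧ t = cost A 0 n p}.Nonempty :=
    ⟨_, n0, p0, h0, rfl⟩
  obtain ⟨t, ⟨n, p, hp, rfl⟩, ht⟩ := exists_lt_of_csInf_lt hne h
  exact ⟨n, p, hp, ht⟩

theorem geo_seg_eq {A : E → ℝ} (hA : ∀ e, 0 ≤ A e) {n : ℕ} {p : ℕ → V} {x y : V}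
    (h : IsGeo A n p x y) {i j : ℕ} (hij : i ≤ j) (hj : j ≤ n) :
    cost A i j p = dst A (p i) (p j) := by
  apply le_antisymm _ (geo_dst_le_seg hA hij fun k _ hk => h.1.2.2 k (by omega))
  by_contra hlt
  rw [not_le] at hlt
  have hseg := seg_path h.1.2.2 hij hj
  obtain ⟨m, q, hq, hqc⟩ := exists_path_lt ⟨_, _, hseg⟩ hlt
  have h1 : IsPath i p x (p i) := ⟨h.1.1, rfl, fun k hk => h.1.2.2 k (by omega)⟩
  have h2 := cat_path h1 hq
  have h3 : IsPath (n - j) (fun k => p (j + k)) (p j) y := by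
    have := seg_path h.1.2.2 hj le_rfl
    rwa [h.1.2.1] at this
  have h4 := cat_path h2 h3
  have h5 := dst_le_cost hA h4
  rw [cost_cat A (n - j) (by rw [h2.2.1]; rfl), cost_cat A m hq.1.symm, ← cost_shift_time,
    Nat.add_sub_cancel' hj] at h5
  have h6 := h.2
  rw [cost_split A p (Nat.zero_le i) (hij.trans hj), cost_split A p hij hj] at h6
  linarith

/-! ### existence -/

theorem nbr_finite (x : V) : {z : V | adj x z}.Finite := by
  apply Set.Finite.subset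
    (({(x.1 + 1, x.2), (x.1 - 1, x.2), (x.1, x.2 + 1), (x.1, x.2 - 1)} : Finset V).finite_toSet)
  intro z hz
  have hz := (sym_adj_iff x z).1 hz
  simp only [Finset.coe_insert, Finset.coe_singleton, Set.mem_insert_iff, Set.mem_singleton_iff]
  obtain ⟨x1, x2⟩ := x
  obtain ⟨z1, z2⟩ := z
  simp only [Prod.mk.injEq] at hz ⊢
  omega

theorem costs_finite (A : E → ℝ) (y : V) (n : ℕ) : ∀ x : V,
    {t : ℝ | ∃ p : ℕ → V, IsPath n p x y ∧ t = cost A 0 n p}.Finite := by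
  induction n with
  | zero =>
    intro x
    apply Set.Finite.subset (Set.finite_singleton (0 : ℝ))
    rintro t ⟨p, _, rfl⟩
    simp [cost]
  | succ n ih =>
    intro x
    have hfin := (nbr_finite x).biUnion (t := fun z => (fun t : ℝ => A (edg x z) + t) ''
      {t : ℝ | ∃ p : ℕ → V, IsPath n p z y ∧ t = cost A 0 n p})
      (fun z _ => (ih z).image _)
    apply hfin.subset
    rintro t ⟨p, hp, rfl⟩
    rw [Set.mem_iUnion₂]
    refine ⟨p 1, ?_, ?_⟩
    · have := hp.2.2 0 (by omega)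
      rw [hp.1] at this
      exact this
    · refine ⟨cost A 0 n (fun k => p (1 + k)), ⟨fun k => p (1 + k), ⟨rfl, ?_, ?_⟩, rfl⟩, ?_⟩
      · show p (1 + n) = y
        rw [Nat.add_comm]
        exact hp.2.1
      · intro k hk
        have := hp.2.2 (1 + k) (by omega)
        exact this
      · show A (edg x (p 1)) + cost A 0 n (fun k => p (1 + k)) = cost A 0 (n + 1) p
        rw [cost_split A p (Nat.zero_le 1) (Nat.le_add_left 1 n), Nat.add_comm n 1,
          cost_shift_time]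
        congr 1
        unfold cost
        rw [Finset.sum_Ico_succ_top (Nat.zero_le 0)]
        simp [hp.1]

theorem cost_ge {A : E → ℝ} {a : ℝ} (hA : ∀ e, a ≤ A e) (i j : ℕ) (p : ℕ → V) :
    a * ((j - i : ℕ) : ℝ) ≤ cost A i j p := by
  unfold cost
  have h2 : ∑ k ∈ Ico i j, a ≤ ∑ k ∈ Ico i j, A (edg (p k) (p (k + 1))) :=
    Finset.sum_le_sum fun k _ => hA _
  rw [Finset.sum_const, Nat.card_Ico, nsmul_eq_mul] at h2
  linarith

theorem exists_geo {A : E → ℝ} {a : ℝ} (ha : 0 < a) (hA : ∀ e, a ≤ A e) (x y : V) :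
    ∃ q : ℕ × (ℕ → V), IsGeo A q.1 q.2 x y := by
  have hA0 : ∀ e, 0 ≤ A e := fun e => ha.le.trans (hA e)
  obtain ⟨p0, hp0⟩ := sym_path_exists (nrm (y - x)) x y rfl
  set n0 := nrm (y - x)
  set c0 := cost A 0 n0 p0 with hc0
  obtain ⟨m, hm⟩ := exists_nat_ge (c0 / a)
  set T : Set ℝ := {t : ℝ | ∃ (n : ℕ) (p : ℕ → V), IsPath n p x y ∧ t = cost A 0 n p} with hT
  have hfin : (T ∩ Set.Iic c0).Finite := by
    have h1 : (⋃ n ∈ (range (m + 1) : Finset ℕ),
        {t : ℝ | ∃ p : ℕ → V, IsPath n p x y ∧ t = cost A 0 n p}).Finite :=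
      Set.Finite.biUnion (Finset.finite_toSet _) (fun n _ => costs_finite A y n x)
    apply h1.subset
    rintro t ⟨⟨n, p, hp, rfl⟩, ht⟩
    rw [Set.mem_Iic] at ht
    rw [Set.mem_iUnion₂]
    refine ⟨n, ?_, p, hp, rfl⟩
    rw [mem_range]
    have h2 := cost_ge hA 0 n p
    rw [Nat.sub_zero] at h2
    have h3 : (n : ℝ) ≤ c0 / a := by
      rw [le_div_iff₀ ha]
      linarith
    have h4 : (n : ℝ) ≤ m := h3.trans hm
    have h5 : n ≤ m := by exact_mod_cast h4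
    omega
  have hne : (T ∩ Set.Iic c0).Nonempty := ⟨c0, ⟨n0, p0, hp0, rfl⟩, Set.mem_Iic.2 le_rfl⟩
  obtain ⟨t, ht, hmin⟩ := Set.exists_min_image _ id hfin hne
  obtain ⟨⟨n, p, hp, rfl⟩, htc⟩ := ht
  refine ⟨(n, p), hp, ?_⟩
  apply le_antisymm _ (dst_le_cost hA0 hp)
  show cost A 0 n p ≤ sInf T
  refine le_csInf ⟨c0, n0, p0, hp0, rfl⟩ ?_
  rintro s ⟨n', p', hp', rfl⟩
  rcases le_total (cost A 0 n' p') c0 with h | h
  · exact hmin _ ⟨⟨n', p', hp', rfl⟩, h⟩
  · exact (hmin c0 ⟨⟨n0, p0, hp0, rfl⟩, Set.mem_Iic.2 le_rfl⟩).trans h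

/-- the chosen geodesic is a geodesic -/
theorem geo_isGeo {A : E → ℝ} {a b : ℝ} (ha : 0 < a) (h : Bd a b A) (x y : V) :
    IsGeo A (gl A x y) (gp A x y) x y := by
  have hex := exists_geo ha (fun e => (h e).1) x y
  unfold gl gp
  rw [dif_pos hex, dif_pos hex]
  exact Classical.choose_spec hex

theorem geo_env {N : ℕ} {Al : Type} {a b : ℝ} {wt : Al → ℝ} (hw : ∀ x, a ≤ wt x ∧ wt x ≤ b)
    (ω : Ix N → Al) : Bd a b (env wt ω) := fun _ => hw _

theorem geo_G {N : ℕ} {Al : Type} {a b : ℝ} (ha : 0 < a) {wt : Al → ℝ}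
    (hw : ∀ x, a ≤ wt x ∧ wt x ≤ b) (v : V) (ω : Ix N → Al) :
    IsGeo (env wt ω) (Gn wt v ω) (Gp wt v ω) 0 v := geo_isGeo ha (geo_env hw ω) 0 v

/-! ### different vertices and edges -/

theorem geo_inj {A : E → ℝ} (hA : ∀ e, 0 < A e) {n : ℕ} {p : ℕ → V} {x y : V}
    (h : IsGeo A n p x y) {i j : ℕ} (hij : i < j) (hj : j ≤ n) : p i ≠ p j := by
  intro heq
  have hA0 : ∀ e, 0 ≤ A e := fun e => (hA e).le
  have h1 := geo_seg_eq hA0 h hij.le hj
  rw [← heq] at h1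
  have h2 : dst A (p i) (p i) ≤ 0 := by
    have : IsPath 0 (fun _ => p i) (p i) (p i) := ⟨rfl, rfl, fun k hk => absurd hk (by omega)⟩
    have := dst_le_cost hA0 this
    rwa [cost_self] at this
  have h3 : 0 < cost A i j p := by
    unfold cost
    exact Finset.sum_pos (fun _ _ => hA _) ⟨i, mem_Ico.2 ⟨le_rfl, hij⟩⟩
  linarith

theorem geo_inj' {A : E → ℝ} (hA : ∀ e, 0 < A e) {n : ℕ} {p : ℕ → V} {x y : V}
    (h : IsGeo A n p x y) {i j : ℕ} (hi : i ≤ n) (hj : j ≤ n) (heq : p i = p j) : i = j := by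
  rcases lt_trichotomy i j with h1 | h1 | h1
  · exact absurd heq (geo_inj hA h h1 hj)
  · exact h1
  · exact absurd heq.symm (geo_inj hA h h1 hi)

theorem edg_eq_cases {x y x' y' : V} (h : adj x y) (h' : adj x' y') (he : edg x y = edg x' y') :
    (x = x' ∧ y = y') ∨ (x = y' ∧ y = x') := by
  have h1 := joins_edg h
  have h2 := joins_edg h'
  rw [← he] at h2
  rcases h1 with h1 | h1 <;> rcases h2 with h2 | h2
  · left; exact ⟨h1.1.symm.trans h2.1, h1.2.symm.trans h2.2⟩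
  · right; exact ⟨h1.1.symm.trans h2.1, h1.2.symm.trans h2.2⟩
  · right; exact ⟨h1.2.symm.trans h2.2, h1.1.symm.trans h2.1⟩
  · left; exact ⟨h1.2.symm.trans h2.2, h1.1.symm.trans h2.1⟩

theorem geo_edge_inj {A : E → ℝ} (hA : ∀ e, 0 < A e) {n : ℕ} {p : ℕ → V} {x y : V}
    (h : IsGeo A n p x y) {i j : ℕ} (hi : i < n) (hj : j < n)
    (heq : edg (p i) (p (i + 1)) = edg (p j) (p (j + 1))) : i = j := by
  rcases edg_eq_cases (h.1.2.2 i hi) (h.1.2.2 j hj) heq with h1 | h1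
  · exact geo_inj' hA h hi.le hj.le h1.1
  · have h2 := geo_inj' hA h hi.le hj h1.1
    have h3 := geo_inj' hA h hi hj.le h1.2
    omega

theorem geo_cost_sum {A : E → ℝ} (hA : ∀ e, 0 < A e) {n : ℕ} {p : ℕ → V} {x y : V}
    (h : IsGeo A n p x y) {i j : ℕ} (hj : j ≤ n) :
    cost A i j p = ∑ e ∈ eset i j p, A e := by
  unfold cost eset
  rw [Finset.sum_image]
  intro k hk k' hk' heq
  rw [Finset.mem_coe, mem_Ico] at hk hk'
  exact geo_edge_inj hA h (by omega) (by omega) heq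

theorem geo_card {A : E → ℝ} (hA : ∀ e, 0 < A e) {n : ℕ} {p : ℕ → V} {x y : V}
    (h : IsGeo A n p x y) : (eset 0 n p).card = n := by
  unfold eset
  rw [Finset.card_image_of_injOn, Nat.card_Ico, Nat.sub_zero]
  intro k hk k' hk' heq
  rw [Finset.mem_coe, mem_Ico] at hk hk'
  exact geo_edge_inj hA h (by omega) (by omega) heq

/-! ### lengths and confinement -/

theorem geo_length {A : E → ℝ} {a b : ℝ} (ha : 0 < a) (hA : Bd a b A) {n : ℕ} {p : ℕ → V} {x y : V}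
    (h : IsGeo A n p x y) : (n : ℝ) ≤ b / a * nrm (y - x) := by
  have h1 := cost_ge (fun e => (hA e).1) 0 n p
  rw [Nat.sub_zero, h.2] at h1
  have h2 := sym_dst_le ha hA x y
  rw [div_mul_eq_mul_div, le_div_iff₀ ha]
  linarith

theorem geo_gl_le {A : E → ℝ} {a b : ℝ} (ha : 0 < a) (hA : Bd a b A) (x y : V) :
    (gl A x y : ℝ) ≤ b / a * nrm (y - x) := geo_length ha hA (geo_isGeo ha hA x y)

theorem path_nrm {n : ℕ} {p : ℕ → V} {x y : V} (h : IsPath n p x y) {i j : ℕ} (hij : i ≤ j)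
    (hj : j ≤ n) : nrm (p j - p i) ≤ j - i :=
  sym_nrm_le (seg_path h.2.2 hij hj)

theorem nrm_box {z : V} {m : ℕ} (h : nrm z ≤ m) : inBox (m : ℤ) z := by
  unfold nrm at h
  unfold inBox
  rw [abs_le, abs_le]
  omega

theorem inBox_mono {Q Q' : ℤ} (h : Q ≤ Q') {z : V} (hz : inBox Q z) : inBox Q' z :=
  ⟨hz.1.trans h, hz.2.trans h⟩

theorem geo_nrm_cast (v : V) : ((|v.1| + |v.2| : ℤ) : ℝ) = nrm v := by
  unfold nrm
  push_cast
  rw [Nat.cast_natAbs, Nat.cast_natAbs]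
  push_cast
  ring

/-- the geodesic from `0` to `v` stays in the box of size `boxQ` (written out) -/
theorem geo_box {A : E → ℝ} {a b : ℝ} (ha : 0 < a) (hA : Bd a b A) {v : V} {n : ℕ} {p : ℕ → V}
    (h : IsGeo A n p 0 v) {i : ℕ} (hi : i ≤ n) :
    inBox ⌈(b / a) * ((|v.1| + |v.2| : ℤ) : ℝ)⌉ (p i) := by
  have h1 := path_nrm h.1 (Nat.zero_le i) hi
  rw [h.1.1, sub_zero, Nat.sub_zero] at h1
  have h2 := geo_length ha hA h
  rw [sub_zero] at h2
  apply inBox_mono _ (nrm_box (h1.trans hi))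
  have h3 : (n : ℝ) ≤ (⌈(b / a) * ((|v.1| + |v.2| : ℤ) : ℝ)⌉ : ℤ) := by
    rw [geo_nrm_cast]
    exact h2.trans (Int.le_ceil _)
  exact_mod_cast h3

theorem geo_hbox {N : ℕ} {Al : Type} {a b : ℝ} (ha : 0 < a) {wt : Al → ℝ}
    (hw : ∀ x, a ≤ wt x ∧ wt x ≤ b) (v : V) (ω : Ix N → Al) {i : ℕ} (hi : i ≤ Gn wt v ω) :
    inBox ⌈(b / a) * ((|v.1| + |v.2| : ℤ) : ℝ)⌉ (Gp wt v ω i) :=
  geo_box ha (geo_env hw ω) (geo_G ha hw v ω) hi

theorem geo_Fv_nonneg {N : ℕ} {Al : Type} {a b : ℝ} (ha : 0 < a) {wt : Al → ℝ}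
    (hw : ∀ x, a ≤ wt x ∧ wt x ≤ b) (v : V) (ω : Ix N → Al) : 0 ≤ Fv wt v ω :=
  sym_dst_nonneg (fun _ => ha.le.trans (hw _).1) 0 v

theorem geo_Fv_le {N : ℕ} [NeZero N] {Al : Type} {a b : ℝ} (ha : 0 < a) {wt : Al → ℝ}
    (hw : ∀ x, a ≤ wt x ∧ wt x ≤ b) (v : V) (ω : Ix N → Al) : Fv wt v ω ≤ b * nrm v := by
  have := sym_dst_le ha (geo_env hw ω) 0 v
  rwa [sub_zero] at this

theorem geo_le_Fv {N : ℕ} [NeZero N] {Al : Type} {a b : ℝ} (ha : 0 < a) {wt : Al → ℝ}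
    (hw : ∀ x, a ≤ wt x ∧ wt x ≤ b) (v : V) (ω : Ix N → Al) : a * nrm v ≤ Fv wt v ω := by
  have := sym_le_dst ha (geo_env hw ω) 0 v
  rwa [sub_zero] at this

end Pool.Agent.FPZ
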