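import Pool.Agent.FPZ.Geo

/-!
# FPZ/GeoU: segments of geodesics and uniqueness of geodesics in generic environments
-/

set_option autoImplicit false

noncomputable section

namespace Pool.Agent.FPZ

open Finset Pool.FPP

/-- a segment of a geodesic is a geodesic -/
theorem geo_sub {A : E → ℝ} (hA : ∀ e, 0 ≤ A e) {n : ℕ} {p : ℕ → V} {x y : V}
    (h : IsGeo A n p x y) {i j : ℕ} (hij : i ≤ j) (hj : j ≤ n) :
    IsGeo A (j - i) (fun k => p (i + k)) (p i) (p j) := by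
  refine ⟨seg_path h.1.2.2 hij hj, ?_⟩
  rw [← geo_seg_eq hA h hij hj, ← cost_shift_time, Nat.add_sub_cancel' hij]

/-- lengths of segments of a geodesic -/
theorem geo_seg_len {A : E → ℝ} {a b : ℝ} (ha : 0 < a) (hA : Bd a b A) {n : ℕ} {p : ℕ → V}
    {x y : V} (h : IsGeo A n p x y) {i j : ℕ} (hij : i ≤ j) (hj : j ≤ n) :
    a * ((j - i : ℕ) : ℝ) ≤ b * nrm (p j - p i) := by
  have h1 := cost_ge (fun e => (hA e).1) i j p
  have h2 := sym_dst_le ha hA (p i) (p j)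
  rw [← geo_seg_eq (fun e => ha.le.trans (hA e).1) h hij hj] at h2
  linarith

/-- the edges of a path in the box are in the box -/
theorem geo_box_edge {Q : ℤ} {n : ℕ} {p : ℕ → V} (hp : ∀ k < n, adj (p k) (p (k + 1)))
    (hb : ∀ i ≤ n, inBox Q (p i)) {e : E} (he : e ∈ eset 0 n p) : inBox Q e.1 := by
  obtain ⟨k, -, hk, rfl⟩ := mem_eset.1 he
  rcases edg_fst_mem (hp k hk) with h3 | h3
  · rw [h3]
    exact hb k hk.le
  · rw [h3]
    exact hb (k + 1) hk

/-- uniqueness of geodesics in a generic environment -/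
theorem geo_unique {A : E → ℝ} (hA : ∀ e, 0 < A e) {Q : ℤ} (hG : Gen Q A) {n1 n2 : ℕ}
    {p1 p2 : ℕ → V} {x y : V} (h1 : IsGeo A n1 p1 x y) (h2 : IsGeo A n2 p2 x y)
    (hb1 : ∀ i ≤ n1, inBox Q (p1 i)) (hb2 : ∀ i ≤ n2, inBox Q (p2 i)) :
    eset 0 n1 p1 = eset 0 n2 p2 := by
  refine hG _ _ (fun e he => geo_box_edge h1.1.2.2 hb1 he) (fun e he => geo_box_edge h2.1.2.2 hb2 he)
    ?_
  rw [← geo_cost_sum hA h1 le_rfl, ← geo_cost_sum hA h2 le_rfl, h1.2, h2.2]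

end Pool.Agent.FPZ
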