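import Pool.Agent.FPP.ES
import Pool.Agent.FPZ.Defs

/-!
Module KR (section 3): the Kolmogorov-Rogozin inequality by the Sperner / Littlewood-Offord method.

`X i` depends only on the coordinates in `blk i` (disjoint blocks) and no interval of length `2 d` carries
more than `1 - c` of the law of `X i`.  Then no interval of length `2 d` carries more than
`12 / (c² √g)` of the law of `∑ X i`, `g` = number of blocks.
-/

set_option autoImplicit false

noncomputable section

namespace Pool.Agent.FPZ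

open Finset Pool.FPP

/-! ## the binomial coefficient -/

theorem kr_central (n : ℕ) : (Nat.centralBinom n) ^ 2 * (2 * n + 1) ≤ 16 ^ n := by
  induction n with
  | zero => simp
  | succ n ih =>
    have h := Nat.succ_mul_centralBinom_succ n
    have h1 : (n + 1) ^ 2 * ((Nat.centralBinom (n + 1)) ^ 2 * (2 * (n + 1) + 1)) ≤
        (n + 1) ^ 2 * 16 ^ (n + 1) := by
      calc (n + 1) ^ 2 * ((Nat.centralBinom (n + 1)) ^ 2 * (2 * (n + 1) + 1))
          = ((n + 1) * Nat.centralBinom (n + 1)) ^ 2 * (2 * n + 3) := by ring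
        _ = (2 * (2 * n + 1) * Nat.centralBinom n) ^ 2 * (2 * n + 3) := by rw [h]
        _ = (Nat.centralBinom n) ^ 2 * (2 * n + 1) * (4 * (2 * n + 1) * (2 * n + 3)) := by ring
        _ ≤ 16 ^ n * (16 * (n + 1) ^ 2) := Nat.mul_le_mul ih (by nlinarith)
        _ = (n + 1) ^ 2 * 16 ^ (n + 1) := by ring
    exact Nat.le_of_mul_le_mul_left h1 (by positivity)

theorem kr_choose (m : ℕ) : (m.choose (m / 2)) ^ 2 * (m + 1) ≤ 4 ^ m := by
  rcases Nat.even_or_odd' m with ⟨n, rfl | rfl⟩
  · have h := kr_central n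
    have h2 : 2 * n / 2 = n := by omega
    rw [h2, pow_mul]
    simpa [Nat.centralBinom] using h
  · have h := kr_central (n + 1)
    have h2 : (2 * n + 1) / 2 = n := by omega
    have h3 : Nat.centralBinom (n + 1) = 2 * (2 * n + 1).choose n := by
      unfold Nat.centralBinom
      have e : 2 * (n + 1) = (2 * n + 1) + 1 := by ring
      rw [e, Nat.choose_succ_succ]
      have : (2 * n + 1).choose (n + 1) = (2 * n + 1).choose n := by
        have := Nat.choose_symm_of_eq_add (show 2 * n + 1 = (n + 1) + n by ring)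
        exact this
      rw [this]; ring
    rw [h2]
    rw [h3] at h
    have h4 : 4 * (((2 * n + 1).choose n) ^ 2 * (2 * n + 1 + 1)) ≤ 4 * 4 ^ (2 * n + 1) := by
      calc 4 * (((2 * n + 1).choose n) ^ 2 * (2 * n + 1 + 1))
          ≤ (2 * (2 * n + 1).choose n) ^ 2 * (2 * (n + 1) + 1) := by
            have : ((2 * n + 1).choose n) ^ 2 * (2 * n + 1 + 1) ≤
                ((2 * n + 1).choose n) ^ 2 * (2 * (n + 1) + 1) :=
              Nat.mul_le_mul_left _ (by omega)
            calc 4 * (((2 * n + 1).choose n) ^ 2 * (2 * n + 1 + 1))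
                ≤ 4 * (((2 * n + 1).choose n) ^ 2 * (2 * (n + 1) + 1)) :=
                  Nat.mul_le_mul_left _ this
              _ = _ := by ring
        _ ≤ 16 ^ (n + 1) := h
        _ = 4 * 4 ^ (2 * n + 1) := by
            rw [show (16 : ℕ) = 4 ^ 2 by norm_num, ← pow_mul, ← pow_succ']
            congr 1
    exact Nat.le_of_mul_le_mul_left h4 (by norm_num)

/-! ## Littlewood-Offord -/

open Classical in
/-- all steps longer than `d`: at most the middle binomial coefficient many sums in an interval of length `d` -/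
theorem kr_lo {β : Type} [Fintype β] (c : β → ℝ) (a d : ℝ) (hc : ∀ i, d < |c i|) :
    (univ.filter (fun S : Finset β => a ≤ ∑ i ∈ S, c i ∧ ∑ i ∈ S, c i ≤ a + d)).card ≤
      (Fintype.card β).choose (Fintype.card β / 2) := by
  set N : Finset β := univ.filter (fun i => c i < 0) with hN
  have hsum : ∀ S : Finset β, ∑ i ∈ S, c i = ∑ i ∈ symmDiff S N, |c i| + ∑ i ∈ N, c i := by
    intro S
    have e1 : ∑ i ∈ S, c i = ∑ i, (if i ∈ S then c i else 0) := by
      rw [← Finset.sum_filter]; congr 1; ext i; simp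
    have e2 : ∑ i ∈ symmDiff S N, |c i| = ∑ i, (if i ∈ symmDiff S N then |c i| else 0) := by
      rw [← Finset.sum_filter]; congr 1; ext i; simp
    have e3 : ∑ i ∈ N, c i = ∑ i, (if i ∈ N then c i else 0) := by
      rw [← Finset.sum_filter]; congr 1; ext i; simp
    rw [e1, e2, e3, ← Finset.sum_add_distrib]
    refine Finset.sum_congr rfl fun i _ => ?_
    by_cases hi : c i < 0
    · have hiN : i ∈ N := by simp [hN, hi]
      by_cases hS : i ∈ S
      · have : i ∉ symmDiff S N := by simp [Finset.mem_symmDiff, hS, hiN]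
        simp [hS, hiN, this]
      · have : i ∈ symmDiff S N := by simp [Finset.mem_symmDiff, hS, hiN]
        simp [hS, hiN, this, abs_of_neg hi]
    · have hiN : i ∉ N := by simp [hN, hi]
      by_cases hS : i ∈ S
      · have : i ∈ symmDiff S N := by simp [Finset.mem_symmDiff, hS, hiN]
        simp [hS, hiN, this, abs_of_nonneg (not_lt.mp hi)]
      · have : i ∉ symmDiff S N := by simp [Finset.mem_symmDiff, hS, hiN]
        simp [hS, hiN, this]
  set F := univ.filter (fun S : Finset β => a ≤ ∑ i ∈ S, c i ∧ ∑ i ∈ S, c i ≤ a + d) with hF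
  set A : Finset (Finset β) := F.image (fun S => symmDiff S N) with hA
  have hcard : F.card = A.card := by
    rw [hA, Finset.card_image_of_injective]
    intro S T h
    exact symmDiff_left_injective N h
  have hanti : IsAntichain (· ⊆ ·) (A : Set (Finset β)) := by
    intro T1 h1 T2 h2 hne hsub
    simp only [hA, Finset.coe_image, Set.mem_image, Finset.mem_coe] at h1 h2
    obtain ⟨S1, hS1, rfl⟩ := h1
    obtain ⟨S2, hS2, rfl⟩ := h2
    have hs : symmDiff S1 N ⊂ symmDiff S2 N := lt_of_le_of_ne hsub hne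
    obtain ⟨i, hi2, hi1⟩ := Finset.exists_of_ssubset hs
    have h3 : ∑ j ∈ symmDiff S1 N, |c j| + |c i| ≤ ∑ j ∈ symmDiff S2 N, |c j| := by
      have : insert i (symmDiff S1 N) ⊆ symmDiff S2 N := by
        intro j hj
        rcases Finset.mem_insert.mp hj with rfl | hj
        · exact hi2
        · exact hsub hj
      calc ∑ j ∈ symmDiff S1 N, |c j| + |c i| = ∑ j ∈ insert i (symmDiff S1 N), |c j| := by
            rw [Finset.sum_insert hi1]; ring
        _ ≤ _ := Finset.sum_le_sum_of_subset_of_nonneg this (fun _ _ _ => abs_nonneg _)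
    have h4 := hsum S1
    have h5 := hsum S2
    simp only [hF, Finset.mem_filter, Finset.mem_univ, true_and] at hS1 hS2
    have h6 := hc i
    linarith [hS1.1, hS1.2, hS2.1, hS2.2]
  rw [hcard]
  exact hanti.sperner

open Classical in
/-- only the steps in `I` are long -/
theorem kr_lo_sub {κ : Type} [Fintype κ] (c : κ → ℝ) (a d : ℝ) (I : Finset κ)
    (hc : ∀ i ∈ I, d < |c i|) :
    (univ.filter (fun S : Finset κ => a ≤ ∑ i ∈ S, c i ∧ ∑ i ∈ S, c i ≤ a + d)).card ≤
      (I.card).choose (I.card / 2) * 2 ^ (Fintype.card κ - I.card) := by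
  set F := univ.filter (fun S : Finset κ => a ≤ ∑ i ∈ S, c i ∧ ∑ i ∈ S, c i ≤ a + d) with hF
  have himg : (F.image (fun S => S \ I)).card ≤ 2 ^ (Fintype.card κ - I.card) := by
    calc (F.image (fun S => S \ I)).card ≤ (Iᶜ.powerset).card := by
          apply Finset.card_le_card
          intro T hT
          obtain ⟨S, _, rfl⟩ := Finset.mem_image.mp hT
          rw [Finset.mem_powerset]
          intro i hi
          rw [Finset.mem_compl]
          exact (Finset.mem_sdiff.mp hi).2
      _ = 2 ^ (Fintype.card κ - I.card) := by rw [Finset.card_powerset, Finset.card_compl]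
  refine le_trans (Finset.card_le_mul_card_image F ((I.card).choose (I.card / 2)) ?_)
    (Nat.mul_le_mul_left _ himg)
  intro T _
  have hcardI : Fintype.card {i // i ∈ I} = I.card := Fintype.card_coe I
  have hlo := kr_lo (β := {i // i ∈ I}) (fun i => c i.1) (a - ∑ i ∈ T, c i) d
    (fun i => hc i.1 i.2)
  rw [hcardI] at hlo
  refine le_trans ?_ hlo
  refine Finset.card_le_card_of_injOn (fun S => S.subtype (· ∈ I)) ?_ ?_
  · intro S hS
    simp only [Finset.coe_filter, Set.mem_ofPred_eq, hF, Finset.mem_filter, Finset.mem_univ,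
      true_and] at hS
    obtain ⟨⟨h1, h2⟩, h3⟩ := hS
    have hs : ∑ i ∈ S.subtype (· ∈ I), c i.1 = ∑ i ∈ S, c i - ∑ i ∈ T, c i := by
      have e1 : ∑ i ∈ S.subtype (· ∈ I), c i.1 = ∑ i ∈ S.filter (· ∈ I), c i := by
        rw [Finset.sum_subtype_eq_sum_filter]
      have e2 : ∑ i ∈ S, c i = ∑ i ∈ S.filter (· ∈ I), c i + ∑ i ∈ T, c i := by
        rw [← Finset.sum_filter_add_sum_filter_not S (· ∈ I)]
        congr 1
        rw [← h3]
        congr 1
        ext i
        simp
      rw [e1, e2]; ring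
    simp only [Finset.coe_filter, Set.mem_ofPred_eq, Finset.mem_univ, true_and, hs]
    constructor <;> linarith
  · intro S hS S' hS' h
    simp only [Finset.coe_filter, Set.mem_ofPred_eq] at hS hS'
    ext i
    by_cases hi : i ∈ I
    · have := congrArg (fun W : Finset {i // i ∈ I} => (⟨i, hi⟩ : {i // i ∈ I}) ∈ W) h
      simpa using this
    · have h1 : i ∈ S \ I ↔ i ∈ S' \ I := by rw [hS.2, hS'.2]
      simpa [hi] using h1

open Classical in
theorem kr_bits {κ : Type} [Fintype κ] [DecidableEq κ] (x y : κ → ℝ) (a d : ℝ) :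
    ((univ.filter (fun S : Finset κ =>
      |∑ i, (if i ∈ S then y i else x i) - a| ≤ d)).card : ℝ) ≤
      2 ^ Fintype.card κ * (2 / √(((univ.filter (fun i => d < |y i - x i|)).card : ℝ) + 1)) := by
  set I : Finset κ := univ.filter (fun i => d < |y i - x i|) with hI
  set m := I.card with hm
  set g := Fintype.card κ with hg
  have hmg : m ≤ g := Finset.card_le_univ I
  have hc : ∀ i ∈ I, d < |y i - x i| := fun i hi => (Finset.mem_filter.mp hi).2
  have h1 := kr_lo_sub (fun i => y i - x i) (a - d - ∑ i, x i) d I hc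
  have h2 := kr_lo_sub (fun i => y i - x i) (a - ∑ i, x i) d I hc
  set F1 := univ.filter (fun S : Finset κ => a - d - ∑ i, x i ≤ ∑ i ∈ S, (y i - x i) ∧
    ∑ i ∈ S, (y i - x i) ≤ a - d - ∑ i, x i + d) with hF1
  set F2 := univ.filter (fun S : Finset κ => a - ∑ i, x i ≤ ∑ i ∈ S, (y i - x i) ∧
    ∑ i ∈ S, (y i - x i) ≤ a - ∑ i, x i + d) with hF2
  have hsub : univ.filter (fun S : Finset κ =>
      |∑ i, (if i ∈ S then y i else x i) - a| ≤ d) ⊆ F1 ∪ F2 := by
    intro S hS
    have hS' := (Finset.mem_filter.mp hS).2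
    have hs : ∑ i, (if i ∈ S then y i else x i) = ∑ i, x i + ∑ i ∈ S, (y i - x i) := by
      have e : ∑ i ∈ S, (y i - x i) = ∑ i, (if i ∈ S then y i - x i else 0) := by
        rw [← Finset.sum_filter]; congr 1; ext i; simp
      rw [e, ← Finset.sum_add_distrib]
      refine Finset.sum_congr rfl fun i _ => ?_
      split_ifs <;> ring
    rw [hs, abs_le] at hS'
    rw [Finset.mem_union]
    rcases le_total (∑ i ∈ S, (y i - x i)) (a - ∑ i, x i) with h | h
    · left
      simp only [hF1, Finset.mem_filter, Finset.mem_univ, true_and]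
      constructor <;> linarith [hS'.1, hS'.2]
    · right
      simp only [hF2, Finset.mem_filter, Finset.mem_univ, true_and]
      constructor <;> linarith [hS'.1, hS'.2]
  have h3 : (univ.filter (fun S : Finset κ =>
      |∑ i, (if i ∈ S then y i else x i) - a| ≤ d)).card ≤
      2 * (m.choose (m / 2) * 2 ^ (g - m)) := by
    calc _ ≤ (F1 ∪ F2).card := Finset.card_le_card hsub
      _ ≤ F1.card + F2.card := Finset.card_union_le _ _
      _ ≤ _ := by
          have a1 : F1.card ≤ m.choose (m / 2) * 2 ^ (g - m) := h1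
          have a2 : F2.card ≤ m.choose (m / 2) * 2 ^ (g - m) := h2
          omega
  have h4 : ((m.choose (m / 2) : ℕ) : ℝ) ≤ 2 ^ m / √((m : ℝ) + 1) := by
    rw [le_div_iff₀ (by positivity)]
    have h5 := kr_choose m
    have h6 : (((m.choose (m / 2) : ℕ) : ℝ) * √((m : ℝ) + 1)) ^ 2 ≤ ((2 : ℝ) ^ m) ^ 2 := by
      rw [mul_pow, Real.sq_sqrt (by positivity), ← pow_mul, mul_comm m 2, pow_mul]
      norm_num
      exact_mod_cast h5
    exact le_of_sq_le_sq h6 (by positivity)
  have h7 : (2 : ℝ) ^ g = 2 ^ m * 2 ^ (g - m) := by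
    rw [← pow_add]; congr 1; omega
  calc ((univ.filter (fun S : Finset κ =>
      |∑ i, (if i ∈ S then y i else x i) - a| ≤ d)).card : ℝ)
      ≤ ((2 * (m.choose (m / 2) * 2 ^ (g - m)) : ℕ) : ℝ) := by exact_mod_cast h3
    _ = 2 * (((m.choose (m / 2) : ℕ) : ℝ) * 2 ^ (g - m)) := by push_cast; ring
    _ ≤ 2 * ((2 ^ m / √((m : ℝ) + 1)) * 2 ^ (g - m)) := by gcongr
    _ = 2 ^ g * (2 / √((m : ℝ) + 1)) := by rw [h7]; ring

/-! ## the probability part -/

section Prob

variable {ι α κ : Type} [Fintype ι] [DecidableEq ι] [Fintype α] [Nonempty α] [Fintype κ]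
  [DecidableEq κ]

omit [Nonempty α] [Fintype κ] [DecidableEq κ] in
theorem kr_Ex_pair (g : (ι → α) → (ι → α) → ℝ) :
    Ex (fun w : ι → α × α => g (fstc w) (sndc w)) = Ex (fun ω => Ex (fun η => g ω η)) := by
  have h := Ex_equiv (Equiv.arrowProdEquivProdArrow ι (fun _ => α) (fun _ => α))
    (fun p : (ι → α) × (ι → α) => g p.1 p.2)
  rw [Ex_prod] at h
  exact h

open Classical in
/-- variance of a sum of indicators of disjoint blocks -/
theorem kr_var (blk : κ → Finset ι) (hdis : ∀ i j, i ≠ j → Disjoint (blk i) (blk j))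
    (p : κ → (ι → α) → Prop)
    (hp : ∀ i ω ω', (∀ e ∈ blk i, ω e = ω' e) → (p i ω ↔ p i ω')) :
    Ex (fun ω => (((univ.filter (fun i => p i ω)).card : ℝ) -
      Ex (fun ω => ((univ.filter (fun i => p i ω)).card : ℝ))) ^ 2) ≤ (Fintype.card κ : ℝ) := by
  set u : (ι → α) → ℝ := fun ω => ((univ.filter (fun i => p i ω)).card : ℝ) with hu
  have hus : ∀ ω, u ω = ∑ i, (if p i ω then (1 : ℝ) else 0) := by
    intro ω
    simp [hu]
  have hU : ∀ η ω, u (mix (U blk univ) η ω) = u η := by
    intro η ω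
    rw [hus, hus]
    refine Finset.sum_congr rfl fun i _ => ?_
    have : p i (mix (U blk univ) η ω) ↔ p i η := by
      apply hp
      intro e he
      have : e ∈ U blk univ := Finset.mem_biUnion.mpr ⟨i, Finset.mem_univ i, he⟩
      simp [mix, this]
    simp [this]
  have hav : ∀ ω, av (U blk univ) u ω = Ex u := by
    intro ω
    unfold av
    simp only [hU]
  have ω0 : ι → α := fun _ => Classical.arbitrary α
  have h := efron_stein blk hdis univ u ω0
  have hl : av (U blk univ) (fun ω => (u ω - av (U blk univ) u ω) ^ 2) ω0 =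
      Ex (fun ω => (u ω - Ex u) ^ 2) := by
    change Ex (fun η : ι → α => _) = _
    congr 1
    funext η
    change (u (mix (U blk univ) η ω0) - av (U blk univ) u (mix (U blk univ) η ω0)) ^ 2 = _
    rw [hav, hU]
  rw [hl] at h
  refine h.trans ?_
  have hterm : ∀ s : κ, av (U blk univ) (fun ω => (u ω - av (blk s) u ω) ^ 2) ω0 ≤ 1 := by
    intro s
    have hb : ∀ ω, (u ω - av (blk s) u ω) ^ 2 ≤ 1 := by
      intro ω
      have e1 : u ω - av (blk s) u ω = Ex (fun η : ι → α => u ω - u (mix (blk s) η ω)) := by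
        rw [Ex_sub, Ex_const]; rfl
      have e2 : |u ω - av (blk s) u ω| ≤ 1 := by
        rw [e1]
        refine (abs_Ex_le _).trans ?_
        refine (Ex_mono (g := fun _ => (1 : ℝ)) ?_).trans (le_of_eq (Ex_const 1))
        intro η
        have e3 : u ω - u (mix (blk s) η ω) =
            (if p s ω then (1 : ℝ) else 0) - (if p s (mix (blk s) η ω) then (1 : ℝ) else 0) := by
          rw [hus, hus, ← Finset.sum_sub_distrib]
          refine Finset.sum_eq_single s ?_ (by simp)
          intro i _ hi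
          have : p i (mix (blk s) η ω) ↔ p i ω := by
            apply hp
            intro e he
            have : e ∉ blk s := fun h' => (Finset.disjoint_left.mp (hdis i s hi)) he h'
            simp [mix, this]
          simp [this]
        rw [e3]
        split_ifs <;> simp
      calc (u ω - av (blk s) u ω) ^ 2 = |u ω - av (blk s) u ω| ^ 2 := (sq_abs _).symm
        _ ≤ 1 ^ 2 := by gcongr
        _ = 1 := one_pow 2
    calc av (U blk univ) (fun ω => (u ω - av (blk s) u ω) ^ 2) ω0
        ≤ av (U blk univ) (fun _ => (1 : ℝ)) ω0 := av_mono _ hb _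
      _ = 1 := av_const _ _ _
  calc ∑ s ∈ (univ : Finset κ), av (U blk univ) (fun ω => (u ω - av (blk s) u ω) ^ 2) ω0
      ≤ ∑ s ∈ (univ : Finset κ), (1 : ℝ) := Finset.sum_le_sum fun s _ => hterm s
    _ = (Fintype.card κ : ℝ) := by simp

/-- **Kolmogorov-Rogozin**: `X i` depends on `blk i` only and has no interval `[a - d, a + d]` of
probability more than `1 - c`; `Y` does not depend on the blocks -/
theorem kolmogorov_rogozin [Nonempty κ] (blk : κ → Finset ι)
    (hdis : ∀ i j, i ≠ j → Disjoint (blk i) (blk j)) (X : κ → (ι → α) → ℝ)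
    (hX : ∀ i ω ω', (∀ e ∈ blk i, ω e = ω' e) → X i ω = X i ω')
    (Y : (ι → α) → ℝ) (hY : ∀ ω ω', (∀ e ∉ U blk univ, ω e = ω' e) → Y ω = Y ω')
    {c d : ℝ} (hc : 0 < c) (hconc : ∀ i a, Pr (fun ω => |X i ω - a| ≤ d) ≤ 1 - c) (a : ℝ) :
    Pr (fun ω => |(∑ i, X i ω) + Y ω - a| ≤ d) ≤ 12 / (c ^ 2 * √(Fintype.card κ : ℝ)) := by
  classical
  set g := Fintype.card κ with hg
  have hg1 : 1 ≤ g := Fintype.card_pos
  have hgr : (1 : ℝ) ≤ g := by exact_mod_cast hg1
  obtain ⟨i0⟩ := (inferInstance : Nonempty κ)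
  have hPr0 : ∀ s : (ι → α) → Prop, 0 ≤ Pr s := by
    intro s
    unfold Pr
    exact Ex_nonneg fun ω => by split_ifs <;> norm_num
  have hc1 : c ≤ 1 := by
    have h1 := hconc i0 0
    have h2 := hPr0 (fun ω => |X i0 ω - 0| ≤ d)
    linarith
  set I : (ι → α × α) → Finset κ :=
    fun w => univ.filter (fun i => d < |X i (sndc w) - X i (fstc w)|) with hI
  set J : (ι → α × α) → ℝ := fun w => ((I w).card : ℝ) with hJ
  -- step 1
  have hstep1 : Pr (fun ω => |(∑ i, X i ω) + Y ω - a| ≤ d) ≤ Ex (fun w => 2 / √(J w + 1)) := by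
    have hS : ∀ S : Finset κ, Pr (fun ω => |(∑ i, X i ω) + Y ω - a| ≤ d) =
        Ex (fun w : ι → α × α => if |∑ i, (if i ∈ S then X i (sndc w) else X i (fstc w)) -
          (a - Y (fstc w))| ≤ d then (1 : ℝ) else 0) := by
      intro S
      unfold Pr
      rw [← Ex_res (U blk S)]
      congr 1
      funext w
      have hx : ∀ i, X i (res (U blk S) w) = if i ∈ S then X i (sndc w) else X i (fstc w) := by
        intro i
        split_ifs with hi
        · apply hX
          intro e he
          have : e ∈ U blk S := Finset.mem_biUnion.mpr ⟨i, hi, he⟩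
          simp [res, mix, this]
        · apply hX
          intro e he
          have : e ∉ U blk S := by
            intro h
            obtain ⟨j, hj, hej⟩ := Finset.mem_biUnion.mp h
            have hij : i ≠ j := fun h => hi (h ▸ hj)
            exact (Finset.disjoint_left.mp (hdis i j hij)) he hej
          simp [res, mix, this]
      have hy : Y (res (U blk S) w) = Y (fstc w) := by
        apply hY
        intro e he
        have : e ∉ U blk S := by
          intro h
          obtain ⟨j, hj, hej⟩ := Finset.mem_biUnion.mp h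
          exact he (Finset.mem_biUnion.mpr ⟨j, Finset.mem_univ j, hej⟩)
        simp [res, mix, this]
      simp only [hx, hy]
      have : ∀ s y : ℝ, s + y - a = s - (a - y) := by intros; ring
      rw [this]
    have hsum : (2 : ℝ) ^ g * Pr (fun ω => |(∑ i, X i ω) + Y ω - a| ≤ d) ≤
        2 ^ g * Ex (fun w => 2 / √(J w + 1)) := by
      calc (2 : ℝ) ^ g * Pr (fun ω => |(∑ i, X i ω) + Y ω - a| ≤ d)
          = ∑ S : Finset κ, Pr (fun ω => |(∑ i, X i ω) + Y ω - a| ≤ d) := by
            rw [Finset.sum_const, Finset.card_univ, Fintype.card_finset, nsmul_eq_mul]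
            push_cast
            rfl
        _ = ∑ S : Finset κ, Ex (fun w : ι → α × α =>
              if |∑ i, (if i ∈ S then X i (sndc w) else X i (fstc w)) -
              (a - Y (fstc w))| ≤ d then (1 : ℝ) else 0) := Finset.sum_congr rfl fun S _ => hS S
        _ = Ex (fun w : ι → α × α => ∑ S : Finset κ,
              if |∑ i, (if i ∈ S then X i (sndc w) else X i (fstc w)) -
              (a - Y (fstc w))| ≤ d then (1 : ℝ) else 0) := (Ex_sum univ _).symm
        _ ≤ Ex (fun w => 2 ^ g * (2 / √(J w + 1))) := by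
            apply Ex_mono
            intro w
            have := kr_bits (fun i => X i (fstc w)) (fun i => X i (sndc w)) (a - Y (fstc w)) d
            simpa [hJ, hI, hg] using this
        _ = 2 ^ g * Ex (fun w => 2 / √(J w + 1)) := Ex_mul_left _ _
    exact le_of_mul_le_mul_left hsum (by positivity)
  -- step 2: mean of `J`
  have hmean : c * g ≤ Ex J := by
    have e1 : ∀ w, J w = ∑ i, (if d < |X i (sndc w) - X i (fstc w)| then (1 : ℝ) else 0) := by
      intro w
      simp [hJ, hI]
    have e2 : Ex J = ∑ i, Ex (fun w : ι → α × α =>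
        if d < |X i (sndc w) - X i (fstc w)| then (1 : ℝ) else 0) := by
      rw [← Ex_sum univ]
      congr 1
      funext w
      exact e1 w
    rw [e2]
    have e3 : ∀ i, c ≤ Ex (fun w : ι → α × α =>
        if d < |X i (sndc w) - X i (fstc w)| then (1 : ℝ) else 0) := by
      intro i
      rw [kr_Ex_pair (fun ω η => if d < |X i η - X i ω| then (1 : ℝ) else 0)]
      have : ∀ ω, c ≤ Ex (fun η => if d < |X i η - X i ω| then (1 : ℝ) else 0) := by
        intro ω
        have h1 := hconc i (X i ω)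
        unfold Pr at h1
        have h2 : Ex (fun η => if d < |X i η - X i ω| then (1 : ℝ) else 0) =
            1 - Ex (fun η => if |X i η - X i ω| ≤ d then (1 : ℝ) else 0) := by
          rw [eq_sub_iff_add_eq, ← Ex_add]
          rw [show (fun η => (if d < |X i η - X i ω| then (1 : ℝ) else 0) +
            (if |X i η - X i ω| ≤ d then (1 : ℝ) else 0)) = fun _ => (1 : ℝ) from ?_]
          · exact Ex_const 1
          funext η
          by_cases h : d < |X i η - X i ω|
          · simp [h, not_le.mpr h]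
          · simp [h, not_lt.mp h]
        rw [h2]
        linarith
      calc c = Ex (fun _ : ι → α => c) := (Ex_const c).symm
        _ ≤ _ := Ex_mono this
    calc c * g = ∑ i : κ, c := by rw [Finset.sum_const, Finset.card_univ, nsmul_eq_mul]; ring
      _ ≤ _ := Finset.sum_le_sum fun i _ => e3 i
  -- step 3: variance of `J`
  have hvar : Ex (fun w => (J w - Ex J) ^ 2) ≤ g := by
    refine kr_var blk hdis (fun i (w : ι → α × α) => d < |X i (sndc w) - X i (fstc w)|) ?_
    intro i w w' h
    have h1 : X i (sndc w) = X i (sndc w') := hX i _ _ fun e he => by simp [sndc, h e he]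
    have h2 : X i (fstc w) = X i (fstc w') := hX i _ _ fun e he => by simp [fstc, h e he]
    simp only [h1, h2]
  -- step 4
  set m : ℝ := c * g / 2 with hm
  have hm0 : 0 < m := by positivity
  have hJ0 : ∀ w, 0 ≤ J w := fun w => Nat.cast_nonneg _
  have hpt : ∀ w, 2 / √(J w + 1) ≤ 2 / √m + (2 / m ^ 2) * (J w - Ex J) ^ 2 := by
    intro w
    rcases le_or_gt m (J w) with h | h
    · have h1 : √m ≤ √(J w + 1) := Real.sqrt_le_sqrt (by linarith)
      have h2 : 2 / √(J w + 1) ≤ 2 / √m := by
        apply div_le_div_of_nonneg_left (by norm_num) (Real.sqrt_pos.mpr hm0) h1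
      have h3 : 0 ≤ (2 / m ^ 2) * (J w - Ex J) ^ 2 := by positivity
      linarith
    · have h1 : 1 ≤ √(J w + 1) := by
        rw [show (1 : ℝ) = √1 by simp]
        exact Real.sqrt_le_sqrt (by simpa using hJ0 w)
      have h2 : 2 / √(J w + 1) ≤ 2 := by
        rw [div_le_iff₀ (by linarith)]
        linarith
      have h3 : m ^ 2 ≤ (J w - Ex J) ^ 2 := by
        have : m ≤ Ex J - J w := by
          have : 2 * m ≤ Ex J := by rw [hm]; linarith
          linarith
        nlinarith
      have h4 : 2 ≤ (2 / m ^ 2) * (J w - Ex J) ^ 2 := by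
        rw [div_mul_eq_mul_div, le_div_iff₀ (by positivity)]
        linarith
      have h5 : 0 ≤ 2 / √m := by positivity
      linarith
  have hstep2 : Ex (fun w => 2 / √(J w + 1)) ≤ 2 / √m + (2 / m ^ 2) * g := by
    calc Ex (fun w => 2 / √(J w + 1))
        ≤ Ex (fun w => 2 / √m + (2 / m ^ 2) * (J w - Ex J) ^ 2) := Ex_mono hpt
      _ = 2 / √m + (2 / m ^ 2) * Ex (fun w => (J w - Ex J) ^ 2) := by
          rw [Ex_add, Ex_const, Ex_mul_left]
      _ ≤ _ := by gcongr
  have hgs : 1 ≤ √(g : ℝ) := by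
    rw [show (1 : ℝ) = √1 by simp]
    exact Real.sqrt_le_sqrt hgr
  have hgs2 : √(g : ℝ) ^ 2 = g := Real.sq_sqrt (by positivity)
  have hb1 : 2 / √m ≤ 4 / (c ^ 2 * √(g : ℝ)) := by
    have h1 : √m = √c * √(g : ℝ) / √2 := by
      rw [hm, Real.sqrt_div (by positivity), Real.sqrt_mul hc.le]
    have h2 : c ^ 2 ≤ √c := by
      apply Real.le_sqrt_of_sq_le
      calc (c ^ 2) ^ 2 = c * c ^ 3 := by ring
        _ ≤ c * 1 := by
            apply mul_le_mul_of_nonneg_left _ hc.le
            exact pow_le_one₀ hc.le hc1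
        _ = c := mul_one c
    have h3 : √2 ≤ 2 := by
      rw [Real.sqrt_le_left (by norm_num)]; norm_num
    have hsc : 0 < √c := Real.sqrt_pos.mpr hc
    rw [h1, div_div_eq_mul_div]
    rw [div_le_div_iff₀ (by positivity) (by positivity)]
    have h4 : 2 * √2 ≤ 4 := by linarith
    have h5 : c ^ 2 * √(g : ℝ) ≤ √c * √(g : ℝ) := by gcongr
    calc 2 * √2 * (c ^ 2 * √(g : ℝ)) ≤ 4 * (√c * √(g : ℝ)) := by
          apply mul_le_mul h4 h5 (by positivity) (by norm_num)
      _ = _ := rfl
  have hb2 : (2 / m ^ 2) * g ≤ 8 / (c ^ 2 * √(g : ℝ)) := by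
    have h1 : (2 / m ^ 2) * g = 8 / (c ^ 2 * g) := by
      rw [hm]
      field_simp
      ring
    rw [h1]
    apply div_le_div_of_nonneg_left (by norm_num) (by positivity)
    have : √(g : ℝ) ≤ g := by
      calc √(g : ℝ) = √(g : ℝ) * 1 := (mul_one _).symm
        _ ≤ √(g : ℝ) * √(g : ℝ) := by gcongr
        _ = g := by rw [← pow_two, hgs2]
    gcongr
  calc Pr (fun ω => |(∑ i, X i ω) + Y ω - a| ≤ d) ≤ Ex (fun w => 2 / √(J w + 1)) := hstep1
    _ ≤ 2 / √m + (2 / m ^ 2) * g := hstep2
    _ ≤ 4 / (c ^ 2 * √(g : ℝ)) + 8 / (c ^ 2 * √(g : ℝ)) := add_le_add hb1 hb2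
    _ = 12 / (c ^ 2 * √(g : ℝ)) := by rw [← add_div]; norm_num

omit [Fintype κ] in
/-- the same with a finite set `t` of blocks; only the blocks in `s ⊆ t` are non-degenerate -/
theorem kr_sub (blk : κ → Finset ι) (X : κ → (ι → α) → ℝ) (t s : Finset κ)
    (hdis : ∀ i ∈ t, ∀ j ∈ t, i ≠ j → Disjoint (blk i) (blk j))
    (hX : ∀ i ∈ t, ∀ ω ω', (∀ e ∈ blk i, ω e = ω' e) → X i ω = X i ω')
    (hst : s ⊆ t) (hs : s.Nonempty)
    (Y : (ι → α) → ℝ) (hY : ∀ ω ω', (∀ e ∉ U blk s, ω e = ω' e) → Y ω = Y ω')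
    {c d : ℝ} (hc : 0 < c)
    (hconc : ∀ i ∈ s, ∀ a, Pr (fun ω => |X i ω - a| ≤ d) ≤ 1 - c) (a : ℝ) :
    Pr (fun ω => |(∑ i ∈ t, X i ω) + Y ω - a| ≤ d) ≤ 12 / (c ^ 2 * √(s.card : ℝ)) := by
  classical
  have : Nonempty {i // i ∈ s} := ⟨⟨hs.choose, hs.choose_spec⟩⟩
  have h := kolmogorov_rogozin (κ := {i // i ∈ s}) (fun i => blk i.1)
    (fun i j hij => hdis i.1 (hst i.2) j.1 (hst j.2) (fun h => hij (Subtype.ext h)))
    (fun i => X i.1)
    (fun i => hX i.1 (hst i.2)) (fun ω => (∑ i ∈ t \ s, X i ω) + Y ω) (by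
      intro ω ω' hω
      have hω' : ∀ e ∉ U blk s, ω e = ω' e := by
        intro e he
        apply hω
        intro he'
        obtain ⟨i, _, hi⟩ := Finset.mem_biUnion.mp he'
        exact he (Finset.mem_biUnion.mpr ⟨i.1, i.2, hi⟩)
      change (∑ i ∈ t \ s, X i ω) + Y ω = (∑ i ∈ t \ s, X i ω') + Y ω'
      rw [hY ω ω' hω']
      congr 1
      refine Finset.sum_congr rfl fun i hi =>
        hX i (Finset.mem_sdiff.mp hi).1 _ _ fun e he => hω' e ?_
      intro he'
      obtain ⟨j, hj, hej⟩ := Finset.mem_biUnion.mp he'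
      have hij : i ≠ j := fun h => (Finset.mem_sdiff.mp hi).2 (h ▸ hj)
      exact (Finset.disjoint_left.mp
        (hdis i (Finset.mem_sdiff.mp hi).1 j (hst hj) hij)) he hej)
    hc (fun i => hconc i.1 i.2) a
  rw [Fintype.card_coe] at h
  have e : ∀ ω, (∑ i ∈ t, X i ω) + Y ω - a =
      (∑ i : {i // i ∈ s}, X i.1 ω) + ((∑ i ∈ t \ s, X i ω) + Y ω) - a := by
    intro ω
    rw [← Finset.sum_sdiff hst, Finset.sum_coe_sort s (fun i => X i ω)]
    ring
  simp only [e]
  exact h

end Prob

/-- form used by the meeting lemma; `C = 12 / c0 ^ 2` -/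
theorem kr (c0 : ℝ) (hc0 : 0 < c0) : ∃ C : ℝ, 0 < C ∧
    ∀ {ι Al κ : Type} [Fintype ι] [DecidableEq ι] [Fintype Al] [Nonempty Al] [DecidableEq κ]
      (M G : Finset κ) (blk : κ → Finset ι) (φ : κ → (ι → Al) → ℝ) (d : ℝ),
      G ⊆ M → G.Nonempty → 0 ≤ d →
      (∀ m ∈ M, ∀ m' ∈ M, m ≠ m' → Disjoint (blk m) (blk m')) →
      (∀ m ∈ M, ∀ x x', (∀ i ∈ blk m, x i = x' i) → φ m x = φ m x') →
      (∀ m ∈ G, ∀ a, Pr (fun x => |φ m x - a| ≤ d) ≤ 1 - c0) →
      ∀ a, Pr (fun x => |∑ m ∈ M, φ m x - a| ≤ d) ≤ C / Real.sqrt G.card := by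
  refine ⟨12 / c0 ^ 2, by positivity, ?_⟩
  intro ι Al κ _ _ _ _ _ M G blk φ d hGM hG _ hdis hdep hconc a
  have h := kr_sub blk φ M G hdis hdep hGM hG (fun _ => 0) (fun _ _ _ => rfl) hc0 hconc a
  simp only [add_zero] at h
  rw [div_div]
  exact h

end Pool.Agent.FPZ
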