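import Pool.Agent.FPZ.W1Defs
import Pool.Agent.FPP.AV

/-!
# Choice of lines with few crossings

`lin`: in an interval of `L'` columns there is a column `α` such that the mean number of visits of the
columns `α, α + 1` is at most `2 K / L'`, `K` = bound for the mean number of visits of the whole strip.
-/

set_option autoImplicit false

noncomputable section

namespace Pool.Agent.FPZ

open Finset Pool.FPP

theorem lin_count {x0 X1 p L' : ℤ} (h0 : x0 ≤ p) (h1 : p + L' + 1 ≤ X1) (n : ℕ)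
    (q : ℕ → V) : ∑ al ∈ Ico p (p + L'), vis al (al + 2) n q ≤ 2 * vis x0 X1 n q := by
  unfold vis
  simp_rw [Finset.card_filter]
  rw [Finset.sum_comm, Finset.mul_sum]
  refine Finset.sum_le_sum fun i _ => ?_
  by_cases hc : x0 ≤ col (q i) ∧ col (q i) < X1
  · rw [if_pos hc, ← Finset.card_filter]
    have hsub : (Ico p (p + L')).filter (fun al => al ≤ col (q i) ∧ col (q i) < al + 2) ⊆
        {col (q i) - 1, col (q i)} := by
      intro al hal
      rw [mem_filter] at hal
      rw [mem_insert, mem_singleton]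
      omega
    exact (Finset.card_le_card hsub).trans (Finset.card_le_two)
  · rw [if_neg hc, mul_zero]
    refine le_of_eq (Finset.sum_eq_zero fun al hal => ?_)
    rw [mem_Ico] at hal
    rw [if_neg]
    omega

theorem lin {N : ℕ} [NeZero N] {Al : Type} [Fintype Al] [Nonempty Al] (wt : Al → ℝ) (v : V)
    (B : Finset (Ix N)) (o : Ix N → Al) (x0 X1 p L' : ℤ) (K : ℝ)
    (h : av B (fun ω => (vis x0 X1 (Gn wt v ω) (Gp wt v ω) : ℝ)) o ≤ K) (h0 : x0 ≤ p)
    (hL : 0 < L') (h1 : p + L' + 1 ≤ X1) : ∃ al : ℤ, p ≤ al ∧ al < p + L' ∧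
      av B (fun ω => (vis al (al + 2) (Gn wt v ω) (Gp wt v ω) : ℝ)) o ≤ 2 * K / L' := by
  have hLr : (0 : ℝ) < (L' : ℝ) := by exact_mod_cast hL
  have hsum : ∑ al ∈ Ico p (p + L'),
      av B (fun ω => (vis al (al + 2) (Gn wt v ω) (Gp wt v ω) : ℝ)) o ≤ 2 * K := by
    rw [← av_sum B (Ico p (p + L'))
      (fun al ω => (vis al (al + 2) (Gn wt v ω) (Gp wt v ω) : ℝ)) o]
    have h2 : av B (fun ω => ∑ al ∈ Ico p (p + L'),
        (vis al (al + 2) (Gn wt v ω) (Gp wt v ω) : ℝ)) o ≤
        av B (fun ω => 2 * (vis x0 X1 (Gn wt v ω) (Gp wt v ω) : ℝ)) o := by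
      refine av_mono B (fun ω => ?_) o
      have := lin_count h0 h1 (Gn wt v ω) (Gp wt v ω)
      exact_mod_cast this
    rw [av_mul_left] at h2
    linarith
  have hcard : ((Ico p (p + L')).card : ℝ) = L' := by
    rw [Int.card_Ico]
    have : p + L' - p = L' := by ring
    rw [this]
    have h3 : ((L'.toNat : ℤ) : ℝ) = (L' : ℝ) := by rw [Int.toNat_of_nonneg hL.le]
    exact_mod_cast h3
  have hne : (Ico p (p + L')).Nonempty := ⟨p, by rw [mem_Ico]; omega⟩
  obtain ⟨al, hal, hle⟩ := Finset.exists_le_of_sum_le (s := Ico p (p + L'))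
    (f := fun al => av B (fun ω => (vis al (al + 2) (Gn wt v ω) (Gp wt v ω) : ℝ)) o)
    (g := fun _ => 2 * K / L') hne (by
      rw [Finset.sum_const, nsmul_eq_mul, hcard]
      have : (L' : ℝ) * (2 * K / L') = 2 * K := by field_simp
      rw [this]
      exact hsum)
  rw [mem_Ico] at hal
  exact ⟨al, hal.1, hal.2, hle⟩

end Pool.Agent.FPZ
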