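import Pool.Agent.FPZ.PrL
import Pool.Agent.FPZ.BKc
import Pool.Agent.FPZ.KR

/-!
# First passage percolation: the meeting lemma

Two functions `F₁, F₂` of a configuration with monotone witnesses `S₁, S₂` (for us: passage times and
edge sets of geodesics) are, on a region `Rg` made of `q` super-blocks `bet j`, both of the form
`c_i + ∑_j Ψ_j ± κ` with `c_i` independent of the contents of `Rg` and `Ψ_j` a function of the contents
of `bet j`.  Then the witnesses have a common element in `Rg`, except with probability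
`exp(-θ q) + 4 q θ² + 3 q (E₁ + E₂)`, `θ` = concentration of the `Ψ_j` at scale `κ`, `E_i` =
probability that the approximation of `F_i` fails.
-/

set_option autoImplicit false

noncomputable section

namespace Pool.Agent.FPZ

open Finset Pool.FPP Pool.Agent.FPZ.PL

/-- quantiles of a function on a finite probability space -/
theorem exists_quantile {Ω : Type} [Fintype Ω] [Nonempty Ω] (f : Ω → ℝ) (θ : ℝ) (h0 : 0 ≤ θ)
    (h1 : θ ≤ 1) : ∃ lam : ℝ, Pr (fun x => f x < lam) ≤ θ ∧ θ ≤ Pr (fun x => f x ≤ lam) := by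
  classical
  obtain ⟨xm, -, hxm⟩ := Finset.exists_max_image (univ : Finset Ω) f univ_nonempty
  have hT : (univ.filter (fun x : Ω => θ ≤ Pr (fun y => f y ≤ f x))).Nonempty := by
    refine ⟨xm, ?_⟩
    rw [mem_filter]
    refine ⟨mem_univ _, ?_⟩
    rw [Pr_congr (t := fun _ : Ω => True) (fun y => by simp [hxm y (mem_univ _)]), Pr_true]
    exact h1
  obtain ⟨x0, hx0, hmin⟩ := Finset.exists_min_image _ f hT
  rw [mem_filter] at hx0
  refine ⟨f x0, ?_, hx0.2⟩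
  by_contra hc
  push Not at hc
  have hne : (univ.filter (fun y : Ω => f y < f x0)).Nonempty := by
    obtain ⟨y, hy⟩ := exists_of_Pr_pos (lt_of_le_of_lt h0 hc)
    exact ⟨y, by rw [mem_filter]; exact ⟨mem_univ _, hy⟩⟩
  obtain ⟨y0, hy0, hmax⟩ := Finset.exists_max_image _ f hne
  rw [mem_filter] at hy0
  have h2 : θ ≤ Pr (fun y => f y ≤ f y0) := by
    refine hc.le.trans (Pr_mono fun y hy => hmax y ?_)
    rw [mem_filter]
    exact ⟨mem_univ _, hy⟩
  have h3 := hmin y0 (by rw [mem_filter]; exact ⟨mem_univ _, h2⟩)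
  exact absurd hy0.2 (not_lt.2 h3)

section

variable {ι Al : Type} [Fintype ι] [DecidableEq ι] [Fintype Al] [Nonempty Al]

/-- numbers: the product of two conditional probabilities -/
theorem ml_num {p1 p2 e1 e2 θ : ℝ} (hp1 : 0 ≤ p1) (hp2 : 0 ≤ p2) (h11 : p1 ≤ 1) (h21 : p2 ≤ 1)
    (he1 : 0 ≤ e1) (he2 : 0 ≤ e2) (he21 : e2 ≤ 1) (hθ : 0 ≤ θ) (h1 : p1 ≤ e1 + 2 * θ)
    (h2 : p2 ≤ e2 + 2 * θ) : p1 * p2 ≤ 4 * θ ^ 2 + 2 * (e1 + e2) := by
  rcases le_or_gt (2 * θ) 1 with h | h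
  · have h3 : p1 * p2 ≤ (e1 + 2 * θ) * (e2 + 2 * θ) := mul_le_mul h1 h2 hp2 (by positivity)
    have h4 : 2 * θ * (e1 + e2) ≤ 1 * (e1 + e2) :=
      mul_le_mul_of_nonneg_right h (by positivity)
    have h5 : e1 * e2 ≤ e1 * 1 := mul_le_mul_of_nonneg_left he21 he1
    nlinarith
  · have h3 : p1 * p2 ≤ 1 * 1 := mul_le_mul h11 h21 hp2 (by norm_num)
    nlinarith

/-- meeting lemma, one super-block -/
theorem ml_block (wt : Al → ℝ) (B : Finset ι) (Psi : (ι → Al) → ℝ)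
    (hPsi : ∀ x y, (∀ i ∈ B, x i = y i) → Psi x = Psi y)
    (κ θ lam : ℝ) (hθ : 0 ≤ θ)
    (hlow : Pr (fun x => Psi x < lam) ≤ θ)
    (hQ : Pr (fun x => |Psi x - (lam + κ)| ≤ κ) ≤ θ)
    (F1 F2 : (ι → Al) → ℝ) (S1 S2 : (ι → Al) → Finset ι)
    (hw1 : ∀ x x', (∀ i ∉ B, x' i = x i) → (∀ i ∈ S1 x ∩ B, wt (x' i) ≤ wt (x i)) →
      F1 x' ≤ F1 x)
    (hw2 : ∀ x x', (∀ i ∉ B, x' i = x i) → (∀ i ∈ S2 x ∩ B, wt (x' i) ≤ wt (x i)) →
      F2 x' ≤ F2 x)
    (C1 C2 : (ι → Al) → ℝ)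
    (hC1 : ∀ x y, (∀ i ∉ B, x i = y i) → C1 x = C1 y)
    (hC2 : ∀ x y, (∀ i ∉ B, x i = y i) → C2 x = C2 y) :
    Pr (fun x => Psi x ≤ lam ∧ Disjoint (S1 x ∩ B) (S2 x ∩ B)) ≤
      4 * θ ^ 2 + 3 * (Pr (fun x => κ < |F1 x - C1 x - Psi x|) +
        Pr (fun x => κ < |F2 x - C2 x - Psi x|)) := by
  classical
  -- the two error events
  set X1 : (ι → Al) → Prop := fun x => κ < |F1 x - C1 x - Psi x| with hX1
  set X2 : (ι → Al) → Prop := fun x => κ < |F2 x - C2 x - Psi x| with hX2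
  have hcond : ∀ o : ι → Al, PrC B (fun x => Psi x ≤ lam ∧ Disjoint (S1 x ∩ B) (S2 x ∩ B)) o ≤
      4 * θ ^ 2 + 3 * (PrC B X1 o + PrC B X2 o) := by
    intro o
    -- one function
    have hone : ∀ (F C : (ι → Al) → ℝ), (∀ x y, (∀ i ∉ B, x i = y i) → C x = C y) →
        PrC B (fun x => F x ≤ C o + lam + κ) o ≤
          PrC B (fun x => κ < |F x - C x - Psi x|) o + 2 * θ := by
      intro F C hC
      have hCo : ∀ ξ : ι → Al, C (mix B ξ o) = C o := fun ξ =>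
        hC _ _ fun i hi => by simp [mix, hi]
      have h1 : PrC B (fun x => F x ≤ C o + lam + κ) o ≤
          Pr (fun ξ : ι → Al => (κ < |F (mix B ξ o) - C (mix B ξ o) - Psi (mix B ξ o)|) ∨
            (Psi ξ < lam ∨ |Psi ξ - (lam + κ)| ≤ κ)) := by
        refine Pr_mono fun ξ hξ => ?_
        by_cases hx : κ < |F (mix B ξ o) - C (mix B ξ o) - Psi (mix B ξ o)|
        · exact Or.inl hx
        · right
          by_cases hl : Psi ξ < lam
          · exact Or.inl hl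
          · right
            have hP : Psi (mix B ξ o) = Psi ξ := hPsi _ _ fun i hi => by simp [mix, hi]
            rw [hCo, hP] at hx
            push Not at hx hl
            rw [abs_le] at hx ⊢
            constructor
            · linarith
            · linarith [hx.1]
      refine h1.trans ?_
      have h2 := Pr_or (fun ξ : ι → Al =>
        (κ < |F (mix B ξ o) - C (mix B ξ o) - Psi (mix B ξ o)|))
        (fun ξ : ι → Al => (Psi ξ < lam ∨ |Psi ξ - (lam + κ)| ≤ κ))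
      have h3 := Pr_or (fun ξ : ι → Al => Psi ξ < lam) (fun ξ : ι → Al =>
        |Psi ξ - (lam + κ)| ≤ κ)
      have h4 : PrC B (fun x => κ < |F x - C x - Psi x|) o =
        Pr (fun ξ : ι → Al => (κ < |F (mix B ξ o) - C (mix B ξ o) - Psi (mix B ξ o)|)) := rfl
      rw [h4]
      linarith
    have hp1 := hone F1 C1 hC1
    have hp2 := hone F2 C2 hC2
    -- BK
    have hbk : PrC B (fun x => F1 x ≤ C1 o + lam + κ ∧ F2 x ≤ C2 o + lam + κ ∧
        Disjoint (S1 x ∩ B) (S2 x ∩ B)) o ≤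
        PrC B (fun x => F1 x ≤ C1 o + lam + κ) o * PrC B (fun x => F2 x ≤ C2 o + lam + κ) o := by
      refine Pr_bk wt (fun ξ => F1 (mix B ξ o)) (fun ξ => F2 (mix B ξ o))
        (fun ξ => S1 (mix B ξ o) ∩ B) (fun ξ => S2 (mix B ξ o) ∩ B) ?_ ?_ _ _
      · intro ξ ξ' h
        refine hw1 _ _ ?_ ?_
        · intro i hi
          simp [mix, hi]
        · intro i hi
          have hiB : i ∈ B := (mem_inter.1 hi).2
          simpa [mix, hiB] using h i hi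
      · intro ξ ξ' h
        refine hw2 _ _ ?_ ?_
        · intro i hi
          simp [mix, hi]
        · intro i hi
          have hiB : i ∈ B := (mem_inter.1 hi).2
          simpa [mix, hiB] using h i hi
    -- splitting
    have hsplit : PrC B (fun x => Psi x ≤ lam ∧ Disjoint (S1 x ∩ B) (S2 x ∩ B)) o ≤
        PrC B X1 o + PrC B X2 o + PrC B (fun x => F1 x ≤ C1 o + lam + κ ∧
          F2 x ≤ C2 o + lam + κ ∧ Disjoint (S1 x ∩ B) (S2 x ∩ B)) o := by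
      have h1 : PrC B (fun x => Psi x ≤ lam ∧ Disjoint (S1 x ∩ B) (S2 x ∩ B)) o ≤
          Pr (fun ξ : ι → Al => (X1 (mix B ξ o) ∨ X2 (mix B ξ o)) ∨
            (F1 (mix B ξ o) ≤ C1 o + lam + κ ∧ F2 (mix B ξ o) ≤ C2 o + lam + κ ∧
              Disjoint (S1 (mix B ξ o) ∩ B) (S2 (mix B ξ o) ∩ B))) := by
        refine Pr_mono fun ξ hξ => ?_
        by_cases hx : X1 (mix B ξ o) ∨ X2 (mix B ξ o)
        · exact Or.inl hx
        · right
          rw [hX1, hX2] at hx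
          push Not at hx
          have hC1o : C1 (mix B ξ o) = C1 o := hC1 _ _ fun i hi => by simp [mix, hi]
          have hC2o : C2 (mix B ξ o) = C2 o := hC2 _ _ fun i hi => by simp [mix, hi]
          obtain ⟨hx1, hx2⟩ := hx
          rw [abs_le] at hx1 hx2
          rw [hC1o] at hx1
          rw [hC2o] at hx2
          refine ⟨?_, ?_, hξ.2⟩
          · linarith [hx1.2, hξ.1]
          · linarith [hx2.2, hξ.1]
      refine h1.trans ?_
      refine (Pr_or _ _).trans ?_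
      have h2 := Pr_or (fun ξ : ι → Al => X1 (mix B ξ o)) (fun ξ : ι → Al => X2 (mix B ξ o))
      have h3 : PrC B X1 o = Pr (fun ξ : ι → Al => X1 (mix B ξ o)) := rfl
      have h4 : PrC B X2 o = Pr (fun ξ : ι → Al => X2 (mix B ξ o)) := rfl
      have h5 : PrC B (fun x => F1 x ≤ C1 o + lam + κ ∧
          F2 x ≤ C2 o + lam + κ ∧ Disjoint (S1 x ∩ B) (S2 x ∩ B)) o =
          Pr (fun ξ : ι → Al => F1 (mix B ξ o) ≤ C1 o + lam + κ ∧
            F2 (mix B ξ o) ≤ C2 o + lam + κ ∧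
              Disjoint (S1 (mix B ξ o) ∩ B) (S2 (mix B ξ o) ∩ B)) := rfl
      rw [h3, h4, h5]
      linarith
    have hnum := ml_num (PrC_nonneg B (fun x => F1 x ≤ C1 o + lam + κ) o)
      (PrC_nonneg B (fun x => F2 x ≤ C2 o + lam + κ) o)
      (PrC_le_one B (fun x => F1 x ≤ C1 o + lam + κ) o)
      (PrC_le_one B (fun x => F2 x ≤ C2 o + lam + κ) o)
      (PrC_nonneg B X1 o) (PrC_nonneg B X2 o) (PrC_le_one B X2 o) hθ hp1 hp2
    linarith
  rw [← Ex_PrC B (fun x => Psi x ≤ lam ∧ Disjoint (S1 x ∩ B) (S2 x ∩ B)), ← Ex_PrC B X1,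
    ← Ex_PrC B X2]
  refine (Ex_mono hcond).trans (le_of_eq ?_)
  rw [Ex_add (fun _ => 4 * θ ^ 2) (fun o => 3 * (PrC B X1 o + PrC B X2 o)), Ex_const,
    Ex_mul_left, Ex_add]

/-- meeting lemma -/
theorem ml (wt : Al → ℝ) (q : ℕ) (bet : Fin q → Finset ι)
    (hbet : ∀ j k, j ≠ k → Disjoint (bet j) (bet k))
    (Psi : Fin q → (ι → Al) → ℝ)
    (hPsi : ∀ j x y, (∀ i ∈ bet j, x i = y i) → Psi j x = Psi j y)
    (κ θ : ℝ) (hθ : 0 ≤ θ)
    (hQ : ∀ j a, Pr (fun x => |Psi j x - a| ≤ κ) ≤ θ)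
    (F1 F2 : (ι → Al) → ℝ) (S1 S2 : (ι → Al) → Finset ι)
    (hw1 : ∀ x x', (∀ i ∉ univ.biUnion bet, x' i = x i) →
      (∀ i ∈ S1 x ∩ univ.biUnion bet, wt (x' i) ≤ wt (x i)) → F1 x' ≤ F1 x)
    (hw2 : ∀ x x', (∀ i ∉ univ.biUnion bet, x' i = x i) →
      (∀ i ∈ S2 x ∩ univ.biUnion bet, wt (x' i) ≤ wt (x i)) → F2 x' ≤ F2 x)
    (c1 c2 : (ι → Al) → ℝ)
    (hc1 : ∀ x y, (∀ i ∉ univ.biUnion bet, x i = y i) → c1 x = c1 y)
    (hc2 : ∀ x y, (∀ i ∉ univ.biUnion bet, x i = y i) → c2 x = c2 y) :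
    Pr (fun x => Disjoint (S1 x ∩ univ.biUnion bet) (S2 x ∩ univ.biUnion bet)) ≤
      Real.exp (-(θ * q)) + 4 * q * θ ^ 2 +
        3 * q * (Pr (fun x => κ < |F1 x - c1 x - ∑ j, Psi j x|) +
          Pr (fun x => κ < |F2 x - c2 x - ∑ j, Psi j x|)) := by
  classical
  set Rg : Finset ι := univ.biUnion bet with hRg
  set E1 : ℝ := Pr (fun x => κ < |F1 x - c1 x - ∑ j, Psi j x|) with hE1
  set E2 : ℝ := Pr (fun x => κ < |F2 x - c2 x - ∑ j, Psi j x|) with hE2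
  have hE1n : 0 ≤ E1 := Pr_nonneg _
  have hE2n : 0 ≤ E2 := Pr_nonneg _
  have hqn : (0 : ℝ) ≤ q := Nat.cast_nonneg q
  have hle1 := Pr_le_one (fun x : ι → Al => Disjoint (S1 x ∩ Rg) (S2 x ∩ Rg))
  have hsubR : ∀ j, bet j ⊆ Rg := fun j => subset_biUnion_of_mem bet (mem_univ j)
  rcases Nat.eq_zero_or_pos q with hq0 | hqpos
  · refine hle1.trans ?_
    subst hq0
    simp
  have hq1 : (1 : ℝ) ≤ q := by exact_mod_cast hqpos
  rcases le_or_gt θ 1 with hθ1 | hθ1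
  swap
  · refine hle1.trans ?_
    have h1 : 0 < Real.exp (-(θ * q)) := Real.exp_pos _
    have h2 : (1 : ℝ) ≤ θ ^ 2 := by nlinarith
    have h3 : 4 * 1 * 1 ≤ 4 * (q : ℝ) * θ ^ 2 := by
      have : (1 : ℝ) * 1 ≤ q * θ ^ 2 := mul_le_mul hq1 h2 (by norm_num) hqn
      linarith
    have h4 : 0 ≤ 3 * (q : ℝ) * (E1 + E2) := by positivity
    linarith
  -- quantiles
  have hquant : ∀ j : Fin q, ∃ lam : ℝ, Pr (fun x => Psi j x < lam) ≤ θ ∧
      θ ≤ Pr (fun x => Psi j x ≤ lam) := fun j => exists_quantile (Psi j) θ hθ hθ1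
  choose lam hlam1 hlam2 using hquant
  -- no low super-block
  have hno : Pr (fun x => ∀ j ∈ (univ : Finset (Fin q)), ¬ Psi j x ≤ lam j) ≤
      Real.exp (-(θ * q)) := by
    rw [Pr_forall_indep (univ : Finset (Fin q)) bet (fun j _ k _ h => hbet j k h)
      (fun j x => ¬ Psi j x ≤ lam j) (fun j _ x y h => by rw [hPsi j x y h])]
    have h1 : ∏ j : Fin q, Pr (fun x => ¬ Psi j x ≤ lam j) ≤ ∏ _j : Fin q, Real.exp (-θ) := by
      refine Finset.prod_le_prod (fun j _ => Pr_nonneg _) fun j _ => ?_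
      rw [Pr_not]
      have h2 := Real.add_one_le_exp (-θ)
      linarith [hlam2 j]
    refine h1.trans (le_of_eq ?_)
    rw [Finset.prod_const, Finset.card_univ, Fintype.card_fin, ← Real.exp_nat_mul]
    congr 1
    ring
  -- one super-block
  have hblk : ∀ j : Fin q, Pr (fun x => Psi j x ≤ lam j ∧
      Disjoint (S1 x ∩ bet j) (S2 x ∩ bet j)) ≤ 4 * θ ^ 2 + 3 * (E1 + E2) := by
    intro j
    have hwit : ∀ (F : (ι → Al) → ℝ) (S : (ι → Al) → Finset ι),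
        (∀ x x', (∀ i ∉ Rg, x' i = x i) → (∀ i ∈ S x ∩ Rg, wt (x' i) ≤ wt (x i)) →
          F x' ≤ F x) →
        (∀ x x', (∀ i ∉ bet j, x' i = x i) → (∀ i ∈ S x ∩ bet j, wt (x' i) ≤ wt (x i)) →
          F x' ≤ F x) := by
      intro F S h x x' h1 h2
      refine h x x' (fun i hi => h1 i fun hij => hi (hsubR j hij)) fun i hi => ?_
      by_cases hij : i ∈ bet j
      · exact h2 i (mem_inter.2 ⟨(mem_inter.1 hi).1, hij⟩)
      · rw [h1 i hij]
    have hCind : ∀ c : (ι → Al) → ℝ, (∀ x y, (∀ i ∉ Rg, x i = y i) → c x = c y) →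
        ∀ x y, (∀ i ∉ bet j, x i = y i) →
          c x + ∑ k ∈ univ.erase j, Psi k x = c y + ∑ k ∈ univ.erase j, Psi k y := by
      intro c hc x y hxy
      congr 1
      · exact hc x y fun i hi => hxy i fun hij => hi (hsubR j hij)
      · refine Finset.sum_congr rfl fun k hk => ?_
        have hkj : k ≠ j := (mem_erase.1 hk).1
        refine hPsi k x y fun i hi => hxy i fun hij => ?_
        exact (Finset.disjoint_left.1 (hbet k j hkj) hi) hij
    have h := ml_block wt (bet j) (Psi j) (hPsi j) κ θ (lam j) hθ (hlam1 j)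
      (hQ j (lam j + κ)) F1 F2 S1 S2 (hwit F1 S1 hw1) (hwit F2 S2 hw2)
      (fun x => c1 x + ∑ k ∈ univ.erase j, Psi k x)
      (fun x => c2 x + ∑ k ∈ univ.erase j, Psi k x) (hCind c1 hc1) (hCind c2 hc2)
    have hsum : ∀ x, ∑ k, Psi k x = Psi j x + ∑ k ∈ univ.erase j, Psi k x := fun x =>
      (Finset.add_sum_erase univ (fun k => Psi k x) (mem_univ j)).symm
    have he : ∀ (F c : (ι → Al) → ℝ) (x : ι → Al),
        F x - (c x + ∑ k ∈ univ.erase j, Psi k x) - Psi j x = F x - c x - ∑ k, Psi k x := by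
      intro F c x
      rw [hsum x]
      ring
    simp only [he] at h
    exact h
  -- conclusion
  have hmain : Pr (fun x => Disjoint (S1 x ∩ Rg) (S2 x ∩ Rg)) ≤
      Pr (fun x => (∀ j ∈ (univ : Finset (Fin q)), ¬ Psi j x ≤ lam j) ∨
        (∃ j ∈ (univ : Finset (Fin q)), Psi j x ≤ lam j ∧
          Disjoint (S1 x ∩ bet j) (S2 x ∩ bet j))) := by
    refine Pr_mono fun x hx => ?_
    by_cases hl : ∀ j ∈ (univ : Finset (Fin q)), ¬ Psi j x ≤ lam j
    · exact Or.inl hl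
    · right
      push Not at hl
      obtain ⟨j, hj, hj2⟩ := hl
      refine ⟨j, hj, hj2, ?_⟩
      refine Disjoint.mono ?_ ?_ hx
      · exact inter_subset_inter_left (hsubR j)
      · exact inter_subset_inter_left (hsubR j)
  refine hmain.trans ((Pr_or _ _).trans ?_)
  have hex := Pr_exists_le (univ : Finset (Fin q)) (fun j x => Psi j x ≤ lam j ∧
    Disjoint (S1 x ∩ bet j) (S2 x ∩ bet j))
  have hsumle : ∑ j : Fin q, Pr (fun x => Psi j x ≤ lam j ∧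
      Disjoint (S1 x ∩ bet j) (S2 x ∩ bet j)) ≤ ∑ _j : Fin q, (4 * θ ^ 2 + 3 * (E1 + E2)) :=
    Finset.sum_le_sum fun j _ => hblk j
  rw [Finset.sum_const, Finset.card_univ, Fintype.card_fin, nsmul_eq_mul] at hsumle
  nlinarith

end

/-- Meeting lemma with the concentration of the super-blocks from Kolmogorov-Rogozin: `Rg` is a union of
blocks `blk m`, `m ∈ M j`, `j < q`, and every super-block `j` contains at least `g` blocks `m` with
`P(|φ_m - a| ≤ κ) ≤ 1 - c₀` for all `a`.  `C` depends on `c₀` only. -/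
theorem ml_blocks (c0 : ℝ) (hc0 : 0 < c0) : ∃ C : ℝ, 0 < C ∧
    ∀ {ι Al κi : Type} [Fintype ι] [DecidableEq ι] [Fintype Al] [Nonempty Al] [DecidableEq κi]
      (wt : Al → ℝ) (q g : ℕ) (M G : Fin q → Finset κi) (blk : κi → Finset ι)
      (φ : κi → (ι → Al) → ℝ) (κ θ : ℝ) (Rg : Finset ι)
      (F1 F2 : (ι → Al) → ℝ) (S1 S2 : (ι → Al) → Finset ι) (c1 c2 : (ι → Al) → ℝ),
      (∀ j k, j ≠ k → Disjoint (M j) (M k)) →
      (∀ m ∈ univ.biUnion M, ∀ m' ∈ univ.biUnion M, m ≠ m' → Disjoint (blk m) (blk m')) →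
      Rg = (univ.biUnion M).biUnion blk →
      (∀ m ∈ univ.biUnion M, ∀ x x', (∀ i ∈ blk m, x i = x' i) → φ m x = φ m x') →
      0 < g → (∀ j, G j ⊆ M j) → (∀ j, g ≤ (G j).card) → 0 ≤ κ →
      (∀ j, ∀ m ∈ G j, ∀ a, Pr (fun x => |φ m x - a| ≤ κ) ≤ 1 - c0) →
      C / Real.sqrt g ≤ θ →
      (∀ x x', (∀ i ∉ Rg, x' i = x i) → (∀ i ∈ S1 x ∩ Rg, wt (x' i) ≤ wt (x i)) →
        F1 x' ≤ F1 x) →
      (∀ x x', (∀ i ∉ Rg, x' i = x i) → (∀ i ∈ S2 x ∩ Rg, wt (x' i) ≤ wt (x i)) →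
        F2 x' ≤ F2 x) →
      (∀ x y, (∀ i ∉ Rg, x i = y i) → c1 x = c1 y) →
      (∀ x y, (∀ i ∉ Rg, x i = y i) → c2 x = c2 y) →
      Pr (fun x => Disjoint (S1 x ∩ Rg) (S2 x ∩ Rg)) ≤
        Real.exp (-(θ * q)) + 4 * q * θ ^ 2 +
          3 * q * (Pr (fun x => κ < |F1 x - c1 x - ∑ m ∈ univ.biUnion M, φ m x|) +
            Pr (fun x => κ < |F2 x - c2 x - ∑ m ∈ univ.biUnion M, φ m x|)) := by
  obtain ⟨C, hC, hkr⟩ := kr c0 hc0
  refine ⟨C, hC, ?_⟩
  intro ι Al κi _ _ _ _ _ wt q g M G blk φ κ θ Rg F1 F2 S1 S2 c1 c2 hM hblk hRg hφ hg hGM hGc hκ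
    hdeg hθ hw1 hw2 hc1 hc2
  classical
  have hRg' : Rg = univ.biUnion (fun j => (M j).biUnion blk) := by
    rw [hRg]
    ext i
    simp only [mem_biUnion, mem_univ, true_and]
    constructor
    · rintro ⟨m, ⟨j, hj⟩, hi⟩
      exact ⟨j, m, hj, hi⟩
    · rintro ⟨j, m, hj, hi⟩
      exact ⟨m, ⟨j, hj⟩, hi⟩
  have hmem : ∀ j, ∀ m ∈ M j, m ∈ univ.biUnion M := fun j m hm =>
    mem_biUnion.2 ⟨j, mem_univ j, hm⟩
  have hθ0 : 0 ≤ θ := le_trans (div_nonneg hC.le (Real.sqrt_nonneg _)) hθ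
  have hsum : ∀ x, ∑ m ∈ univ.biUnion M, φ m x = ∑ j, ∑ m ∈ M j, φ m x := fun x =>
    Finset.sum_biUnion (fun j _ k _ h => hM j k h)
  simp only [hsum]
  rw [hRg'] at hw1 hw2 hc1 hc2 ⊢
  refine ml wt q (fun j => (M j).biUnion blk) ?_ (fun j x => ∑ m ∈ M j, φ m x) ?_ κ θ hθ0 ?_
    F1 F2 S1 S2 hw1 hw2 c1 c2 hc1 hc2
  · intro j k hjk
    rw [Finset.disjoint_left]
    intro i hi hi'
    obtain ⟨m, hm, hmi⟩ := mem_biUnion.1 hi
    obtain ⟨m', hm', hmi'⟩ := mem_biUnion.1 hi'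
    have hne : m ≠ m' := by
      rintro rfl
      exact (Finset.disjoint_left.1 (hM j k hjk) hm) hm'
    exact (Finset.disjoint_left.1 (hblk m (hmem j m hm) m' (hmem k m' hm') hne) hmi) hmi'
  · intro j x y hxy
    refine Finset.sum_congr rfl fun m hm => ?_
    exact hφ m (hmem j m hm) x y fun i hi => hxy i (mem_biUnion.2 ⟨m, hm, hi⟩)
  · intro j a
    have hGne : (G j).Nonempty := by
      rw [← Finset.card_pos]
      exact lt_of_lt_of_le hg (hGc j)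
    refine (hkr (M j) (G j) blk φ κ (hGM j) hGne hκ
      (fun m hm m' hm' h => hblk m (hmem j m hm) m' (hmem j m' hm') h)
      (fun m hm => hφ m (hmem j m hm)) (hdeg j) a).trans (le_trans ?_ hθ)
    have h1 : Real.sqrt g ≤ Real.sqrt (G j).card := Real.sqrt_le_sqrt (by exact_mod_cast hGc j)
    have h2 : 0 < Real.sqrt g := Real.sqrt_pos.2 (by exact_mod_cast hg)
    exact div_le_div_of_nonneg_left hC.le h2 h1

/-- distribution of a finite set into `q` pairwise disjoint sets with at least `g` elements each -/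
theorem ml_parts {κi : Type} [DecidableEq κi] (K : Finset κi) (q g : ℕ) (hq : 0 < q) (hg : 0 < g)
    (h : q * g ≤ K.card) : ∃ M : Fin q → Finset κi, (∀ j k, j ≠ k → Disjoint (M j) (M k)) ∧
      univ.biUnion M = K ∧ ∀ j, g ≤ (M j).card := by
  classical
  have hqK : q ≤ K.card := le_trans (Nat.le_mul_of_pos_right q hg) h
  obtain ⟨P, hP, hcard⟩ := Finpartition.exists_equipartition_card_eq K hq.ne' hqK
  let e : P.parts ≃ Fin q := Finset.equivFinOfCardEq hcard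
  refine ⟨fun j => (e.symm j).1, ?_, ?_, ?_⟩
  · intro j k hjk
    refine P.disjoint (e.symm j).2 (e.symm k).2 ?_
    intro h1
    exact hjk (e.symm.injective (Subtype.ext h1))
  · ext i
    constructor
    · intro hi
      obtain ⟨j, -, hj⟩ := mem_biUnion.1 hi
      exact P.le (e.symm j).2 hj
    · intro hi
      have h1 : i ∈ P.parts.biUnion id := by rw [P.biUnion_parts]; exact hi
      obtain ⟨t, ht, hit⟩ := mem_biUnion.1 h1
      refine mem_biUnion.2 ⟨e ⟨t, ht⟩, mem_univ _, ?_⟩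
      simpa using hit
  · intro j
    have h1 := hP.average_le_card_part (e.symm j).2
    rw [hcard] at h1
    refine le_trans ?_ h1
    rw [Nat.le_div_iff_mul_le hq]
    rw [mul_comm]
    exact h

/-- **Meeting lemma.**  `Rg` is a union of many disjoint blocks (`q ≤ K.card`); `F₁`, `F₂` are, up to
`d/8`, of the form `c_i + ∑_{m ∈ K} φ_m` with the same `φ_m`, functions of the single blocks with
concentration at most `1 - c₀` at scale `d`, `c_i` independent of the contents of `Rg`.  Then the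
witnesses of `F₁` and `F₂` have a common element in `Rg`, except with a small probability. -/
theorem meeting (c0 : ℝ) (hc0 : 0 < c0) (ep : ℝ) (hep : 0 < ep) : ∃ (q : ℕ) (C : ℝ), 0 ≤ C ∧
    ∀ (ι Al sg : Type) [Fintype ι] [DecidableEq ι] [Fintype Al] [Nonempty Al] [DecidableEq sg]
      (wt : Al → ℝ) (K : Finset sg) (blk : sg → Finset ι),
      (∀ m ∈ K, ∀ m' ∈ K, m ≠ m' → Disjoint (blk m) (blk m')) → q ≤ K.card →
      ∀ φ : sg → (ι → Al) → ℝ,
      (∀ m ∈ K, ∀ x y, (∀ i ∈ blk m, x i = y i) → φ m x = φ m y) →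
      ∀ d : ℝ, 0 < d → (∀ m ∈ K, ∀ x : ℝ, Pr (fun ω => |φ m ω - x| ≤ d) ≤ 1 - c0) →
      ∀ (F1 F2 c1 c2 : (ι → Al) → ℝ) (S1 S2 : (ι → Al) → Finset ι),
      (∀ x y, (∀ i, i ∉ K.biUnion blk → x i = y i) → c1 x = c1 y) →
      (∀ x y, (∀ i, i ∉ K.biUnion blk → x i = y i) → c2 x = c2 y) →
      (∀ ω ω' : ι → Al, (∀ i, i ∉ K.biUnion blk → ω' i = ω i) →
        (∀ i ∈ S1 ω, i ∈ K.biUnion blk → wt (ω' i) ≤ wt (ω i)) → F1 ω' ≤ F1 ω) →
      (∀ ω ω' : ι → Al, (∀ i, i ∉ K.biUnion blk → ω' i = ω i) →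
        (∀ i ∈ S2 ω, i ∈ K.biUnion blk → wt (ω' i) ≤ wt (ω i)) → F2 ω' ≤ F2 ω) →
      Pr (fun ω => ¬ ∃ i ∈ K.biUnion blk, i ∈ S1 ω ∧ i ∈ S2 ω) ≤
        ep + C * (Pr (fun ω => d / 8 < |F1 ω - c1 ω - ∑ m ∈ K, φ m ω|) +
          Pr (fun ω => d / 8 < |F2 ω - c2 ω - ∑ m ∈ K, φ m ω|)) := by
  obtain ⟨C, hC, hml⟩ := ml_blocks c0 hc0
  -- parameters
  obtain ⟨A, hA1, hA⟩ : ∃ A : ℝ, 1 ≤ A ∧ Real.exp (-A) ≤ ep / 2 := by
    refine ⟨max 1 (-Real.log (ep / 2)), le_max_left _ _, ?_⟩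
    have h1 : -max 1 (-Real.log (ep / 2)) ≤ Real.log (ep / 2) := by
      have := le_max_right 1 (-Real.log (ep / 2))
      linarith
    calc Real.exp (-max 1 (-Real.log (ep / 2))) ≤ Real.exp (Real.log (ep / 2)) :=
          Real.exp_le_exp.2 h1
      _ = ep / 2 := Real.exp_log (by linarith)
  obtain ⟨q0, hq0⟩ := exists_nat_gt (8 * A ^ 2 / ep)
  have hq0pos : (0 : ℝ) < q0 := lt_trans (by positivity) hq0
  have hq0nat : 0 < q0 := by exact_mod_cast hq0pos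
  obtain ⟨g0, hg0⟩ := exists_nat_gt ((C * q0 / A) ^ 2)
  have hg0pos : (0 : ℝ) < g0 := lt_of_le_of_lt (sq_nonneg _) hg0
  have hg0nat : 0 < g0 := by exact_mod_cast hg0pos
  have hApos : 0 < A := by linarith
  refine ⟨q0 * g0, 3 * q0, by positivity, ?_⟩
  intro ι Al sg _ _ _ _ _ wt K blk hblk hqK φ hφ d hd hdeg F1 F2 c1 c2 S1 S2 hc1 hc2 hw1 hw2
  classical
  obtain ⟨M, hMd, hMK, hMc⟩ := ml_parts K q0 g0 hq0nat hg0nat hqK
  have hθ : C / Real.sqrt g0 ≤ A / q0 := by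
    have h1 : C * q0 / A ≤ Real.sqrt g0 := by
      refine Real.le_sqrt_of_sq_le hg0.le
    have h2 : 0 < Real.sqrt g0 := Real.sqrt_pos.2 hg0pos
    rw [div_le_div_iff₀ h2 hq0pos]
    rw [div_le_iff₀ hApos] at h1
    linarith
  have hmem : ∀ j, ∀ m ∈ M j, m ∈ K := fun j m hm => by
    rw [← hMK]
    exact mem_biUnion.2 ⟨j, mem_univ j, hm⟩
  have h := @hml ι Al sg _ _ _ _ _ wt q0 g0 M M blk φ (d / 8) (A / q0) (K.biUnion blk) F1 F2 S1 S2
    c1 c2 hMd (by rw [hMK]; exact hblk) (by rw [hMK]) (by rw [hMK]; exact hφ) hg0nat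
    (fun j => Subset.refl _) hMc (by positivity)
    (fun j m hm a => (Pr_mono fun x hx => le_trans hx (by linarith)).trans
      (hdeg m (hmem j m hm) a)) hθ
    (fun x x' h1 h2 => hw1 x x' h1 fun i hi hi' => h2 i (mem_inter.2 ⟨hi, hi'⟩))
    (fun x x' h1 h2 => hw2 x x' h1 fun i hi hi' => h2 i (mem_inter.2 ⟨hi, hi'⟩)) hc1 hc2
  rw [hMK] at h
  have h1 : Pr (fun ω => ¬ ∃ i ∈ K.biUnion blk, i ∈ S1 ω ∧ i ∈ S2 ω) ≤
      Pr (fun x => Disjoint (S1 x ∩ K.biUnion blk) (S2 x ∩ K.biUnion blk)) := by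
    refine Pr_mono fun x hx => ?_
    rw [Finset.disjoint_left]
    intro i hi hi'
    exact hx ⟨i, (mem_inter.1 hi).2, (mem_inter.1 hi).1, (mem_inter.1 hi').1⟩
  refine h1.trans (h.trans ?_)
  have h2 : A / (q0 : ℝ) * q0 = A := by field_simp
  have h3 : 4 * (q0 : ℝ) * (A / q0) ^ 2 ≤ ep / 2 := by
    have h4 : 4 * (q0 : ℝ) * (A / q0) ^ 2 = 4 * A ^ 2 / q0 := by
      field_simp
    rw [h4, div_le_iff₀ hq0pos]
    rw [div_lt_iff₀ hep] at hq0
    linarith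
  rw [h2]
  linarith

end Pool.Agent.FPZ
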