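import Pool.Agent.FPZ.WClaim

/-!
# Statement of the model bound (output of sections 1 and 8, input of the transfer)
-/

set_option autoImplicit false

noncomputable section

namespace Pool.Agent.FPZ

open Finset Pool.FPP

/-- size of the box that contains all geodesics from `0` to `v` -/
def boxQ (a b : ℝ) (v : V) : ℤ := ⌈(b / a) * ((|v.1| + |v.2| : ℤ) : ℝ)⌉

/-- the bound for all finite alphabets, large tori and almost surely unique geodesics -/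
def ModelBound : Prop :=
  ∀ a b : ℝ, 0 < a → a ≤ b → ∃ ε : ℝ, 0 < ε ∧ ε < 1 ∧ ∃ C : ℝ, 0 ≤ C ∧
    ∀ v : V, 0 ≤ v.2 → v.2 ≤ v.1 → 0 < v.1 →
    ∀ (N : ℕ) [NeZero N], 100 * boxQ a b v < (N : ℤ) → C * ((v.1 + v.2 : ℤ) : ℝ) ≤ (N : ℝ) →
    ∀ (Al : Type) [Fintype Al] [Nonempty Al] (wt : Al → ℝ), (∀ l, a ≤ wt l ∧ wt l ≤ b) →
      Pr (fun ω : Ix N → Al => ¬ Gen (20 * boxQ a b v) (env wt ω)) ≤ 1 / ((v.1 + v.2 : ℤ) : ℝ) →
      Ex (fun ω : Ix N → Al => (Fv wt v ω - Ex (Fv (N := N) wt v)) ^ 2) ≤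
        C * ((v.1 + v.2 : ℤ) : ℝ) ^ (1 - ε)

end Pool.Agent.FPZ
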