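import Pool.Agent.FPZ.W2Defs

/-!
# Section 5, part 1: crossings of the line `col = L + 1/2`, their order, symmetries

The general rules are in the namespace `Pool.Agent.FPZ.P5`, the rules for windows are
`Pool.Agent.FPZ.Win.*`.
-/

set_option autoImplicit false

noncomputable section

namespace Pool.Agent.FPZ

open Finset Pool.FPP

open Classical in
/-- number of edges of `S` that cross the line `L + 1/2` -/
def ncr (L : ℤ) (S : Finset E) : ℕ := (S.filter (fun e => crs L e)).card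

namespace P5

theorem hd_t (x y : ℤ) : hd ((x, y), true) = (x, y + 1) := by simp [hd]

theorem hd_f (x y : ℤ) : hd ((x, y), false) = (x + 1, y) := by simp [hd]

/-- different crossings have different heights -/
theorem hgt_inj {L : ℤ} {e f : E} (he : crs L e) (hf : crs L f) (h : hgt L e = hgt L f) : e = f := by
  obtain ⟨⟨x, y⟩, u⟩ := e
  obtain ⟨⟨x', y'⟩, u'⟩ := f
  simp only [crs, hgt, col] at he hf h
  cases u <;> cases u' <;> simp only [hd_t, hd_f, if_true, Bool.false_eq_true, if_false] at he hf h <;>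
    first | (exfalso; omega) | (simp only [Prod.mk.injEq, and_true]; omega)

theorem hgt_lo (L : ℤ) (e : E) : 4 * e.1.1 ≤ hgt L e := by
  unfold hgt
  split_ifs <;> omega

theorem hgt_hi (L : ℤ) (e : E) : hgt L e ≤ 4 * e.1.1 + 3 := by
  unfold hgt
  split_ifs <;> omega

/-- order of the crossings of two edge sets -/
theorem rr_add_rr (L : ℤ) (S₁ S₂ : Finset E) :
    rr L S₁ S₂ + rr L S₂ S₁ + ncr L (S₁ ∩ S₂) = ncr L S₁ * ncr L S₂ := by
  classical
  have h2 : rr L S₂ S₁ =
      ((S₁ ×ˢ S₂).filter (fun q => crs L q.1 ∧ crs L q.2 ∧ hgt L q.1 < hgt L q.2)).card := by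
    unfold rr
    refine Finset.card_bij (fun q _ => (q.2, q.1)) ?_ ?_ ?_
    · intro q hq
      simp only [mem_filter, mem_product] at hq ⊢
      tauto
    · intro q _ q' _ h
      simp only [Prod.mk.injEq] at h
      exact Prod.ext h.2 h.1
    · intro q hq
      refine ⟨(q.2, q.1), ?_, rfl⟩
      simp only [mem_filter, mem_product] at hq ⊢
      tauto
  have h3 : ncr L (S₁ ∩ S₂) =
      ((S₁ ×ˢ S₂).filter (fun q => crs L q.1 ∧ crs L q.2 ∧ hgt L q.1 = hgt L q.2)).card := by
    unfold ncr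
    refine Finset.card_bij (fun e _ => (e, e)) ?_ ?_ ?_
    · intro q hq
      simp only [mem_filter, mem_product, mem_inter] at hq ⊢
      tauto
    · intro q _ q' _ h
      simp only [Prod.mk.injEq] at h
      exact h.1
    · intro q hq
      simp only [mem_filter, mem_product, mem_inter] at hq
      have := hgt_inj hq.2.1 hq.2.2.1 hq.2.2.2
      refine ⟨q.1, ?_, ?_⟩
      · simp only [mem_filter, mem_inter]
        refine ⟨⟨hq.1.1, ?_⟩, hq.2.1⟩
        rw [this]; exact hq.1.2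
      · exact Prod.ext rfl this
  have h4 : ncr L S₁ * ncr L S₂ =
      ((S₁ ×ˢ S₂).filter (fun q => crs L q.1 ∧ crs L q.2)).card := by
    unfold ncr
    rw [← Finset.card_product]
    congr 1
    ext q
    simp only [mem_filter, mem_product]
    tauto
  rw [h2, h3, h4]
  unfold rr
  rw [← Finset.card_union_of_disjoint, ← Finset.card_union_of_disjoint]
  · congr 1
    ext q
    simp only [mem_filter, mem_product, mem_union]
    constructor
    · tauto
    · rintro ⟨h, h', h''⟩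
      rcases lt_trichotomy (hgt L q.1) (hgt L q.2) with hh | hh | hh <;> tauto
  · rw [Finset.disjoint_left]
    intro q hq hq'
    simp only [mem_filter, mem_product, mem_union] at hq hq'
    rcases hq with hq | hq <;> omega
  · rw [Finset.disjoint_left]
    intro q hq hq'
    simp only [mem_filter, mem_product] at hq hq'
    omega

theorem ncr_eq_zero {L : ℤ} {S : Finset E} (h : ∀ e ∈ S, ¬ crs L e) : ncr L S = 0 := by
  classical
  unfold ncr
  rw [Finset.card_eq_zero, Finset.filter_eq_empty_iff]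
  exact fun e he => h e he

/-- antisymmetry of the relation of two disjoint edge sets with an odd number of crossings -/
theorem rr_anti {L : ℤ} {S₁ S₂ : Finset E} (h₁ : ncr L S₁ % 2 = 1) (h₂ : ncr L S₂ % 2 = 1)
    (hd : ∀ e ∈ S₁, e ∈ S₂ → ¬ crs L e) : (rr L S₁ S₂ + rr L S₂ S₁) % 2 = 1 := by
  have h := rr_add_rr L S₁ S₂
  rw [ncr_eq_zero (S := S₁ ∩ S₂) (fun e he => by
    rw [mem_inter] at he; exact hd e he.1 he.2), add_zero] at h
  rw [h, Nat.mul_mod, h₁, h₂]

theorem rr_far_lo {L : ℤ} {S₁ S₂ : Finset E}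
    (h : ∀ e ∈ S₁, ∀ f ∈ S₂, crs L e → crs L f → e.1.1 < f.1.1) : rr L S₁ S₂ = 0 := by
  classical
  unfold rr
  rw [Finset.card_eq_zero, Finset.filter_eq_empty_iff]
  rintro q hq ⟨h1, h2, h3⟩
  rw [mem_product] at hq
  have := h q.1 hq.1 q.2 hq.2 h1 h2
  have h4 := hgt_lo L q.2
  have h5 := hgt_hi L q.1
  omega

theorem rr_far_hi {L : ℤ} {S₁ S₂ : Finset E}
    (h : ∀ e ∈ S₁, ∀ f ∈ S₂, crs L e → crs L f → f.1.1 < e.1.1) :
    rr L S₁ S₂ = ncr L S₁ * ncr L S₂ := by
  classical
  have h0 := rr_add_rr L S₁ S₂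
  rw [rr_far_lo (S₁ := S₂) (S₂ := S₁) (fun e he f hf h1 h2 => h f hf e he h2 h1),
    ncr_eq_zero (S := S₁ ∩ S₂) (fun e he hc => by
      rw [mem_inter] at he
      exact lt_irrefl _ (h e he.1 e he.2 hc hc))] at h0
  omega

/-! ## translations -/

theorem hd_shE (z : V) (e : E) : hd (shE z e) = hd e + z := by
  obtain ⟨⟨x, y⟩, u⟩ := e
  obtain ⟨a, b⟩ := z
  cases u <;> simp only [shE, hd_t, hd_f, Prod.mk_add_mk, Prod.mk.injEq, and_true, true_and] <;> ring

theorem col_add (z w : V) : col (z + w) = col z + col w := by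
  simp only [col, Prod.fst_add, Prod.snd_add]; ring

theorem col_sub (z w : V) : col (z - w) = col z - col w := by
  simp only [col, Prod.fst_sub, Prod.snd_sub]; ring

theorem col_su (s : ℤ) : col (su s) = 0 := by
  simp only [col, su]; ring

theorem shE_inj (z : V) : Function.Injective (shE z) := by
  intro e f h
  simp only [shE, Prod.mk.injEq, add_left_inj] at h
  exact Prod.ext h.1 h.2

theorem shE_shE (z w : V) (e : E) : shE z (shE w e) = shE (w + z) e := by
  simp only [shE, add_assoc]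

theorem inc_shE (z w : V) (e : E) : inc (shE z e) (w + z) ↔ inc e w := by
  unfold inc
  rw [hd_shE]
  simp only [shE, add_left_inj]

theorem crs_shE (L : ℤ) (z : V) (e : E) : crs (L + col z) (shE z e) ↔ crs L e := by
  unfold crs
  rw [hd_shE, col_add]
  simp only [shE, col_add]
  omega

theorem hgt_shE (L : ℤ) (z : V) (e : E) : hgt (L + col z) (shE z e) = hgt L e + 4 * z.1 := by
  unfold hgt
  simp only [shE, col_add, add_left_inj, Prod.fst_add]
  ring

theorem ncr_shE (L : ℤ) (z : V) (S : Finset E) : ncr (L + col z) (S.image (shE z)) = ncr L S := by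
  classical
  unfold ncr
  rw [Finset.filter_image, Finset.card_image_of_injective _ (shE_inj z)]
  congr 1
  ext e
  simp only [mem_filter, crs_shE]

theorem rr_shE (L : ℤ) (z : V) (S₁ S₂ : Finset E) :
    rr (L + col z) (S₁.image (shE z)) (S₂.image (shE z)) = rr L S₁ S₂ := by
  classical
  unfold rr
  symm
  refine Finset.card_bij (fun q _ => (shE z q.1, shE z q.2)) ?_ ?_ ?_
  · intro q hq
    simp only [mem_filter, mem_product, mem_image] at hq ⊢
    simp only [crs_shE, hgt_shE]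
    refine ⟨⟨⟨q.1, hq.1.1, rfl⟩, ⟨q.2, hq.1.2, rfl⟩⟩, hq.2.1, hq.2.2.1, by linarith [hq.2.2.2]⟩
  · intro q _ q' _ h
    simp only [Prod.mk.injEq] at h
    exact Prod.ext (shE_inj z h.1) (shE_inj z h.2)
  · intro q hq
    simp only [mem_filter, mem_product, mem_image] at hq
    obtain ⟨⟨⟨e, he, he'⟩, ⟨f, hf, hf'⟩⟩, h1, h2, h3⟩ := hq
    rw [← he', crs_shE] at h1
    rw [← hf', crs_shE] at h2
    rw [← hf', ← he', hgt_shE, hgt_shE] at h3
    refine ⟨(e, f), ?_, ?_⟩
    · simp only [mem_filter, mem_product]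
      exact ⟨⟨he, hf⟩, h1, h2, by linarith⟩
    · exact Prod.ext he' hf'

theorem rr_su (L s : ℤ) (S₁ S₂ : Finset E) :
    rr L (S₁.image (shE (su s))) (S₂.image (shE (su s))) = rr L S₁ S₂ := by
  have h := rr_shE L (su s) S₁ S₂
  rwa [col_su, add_zero] at h

theorem ncr_su (L s : ℤ) (S : Finset E) : ncr L (S.image (shE (su s))) = ncr L S := by
  have h := ncr_shE L (su s) S
  rwa [col_su, add_zero] at h

theorem inStrip_shE (α β : ℤ) (z : V) (e : E) :
    inStrip (α + col z) (β + col z) (shE z e) ↔ inStrip α β e := by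
  unfold inStrip
  rw [hd_shE, col_add]
  simp only [shE, col_add]
  omega

theorem trc_shE (α β : ℤ) (z : V) (S : Finset E) :
    (trc α β S).image (shE z) = trc (α + col z) (β + col z) (S.image (shE z)) := by
  classical
  unfold trc
  rw [Finset.filter_image]
  congr 1
  ext e
  simp only [mem_filter, inStrip_shE]

theorem trc_su (α β s : ℤ) (S : Finset E) :
    (trc α β S).image (shE (su s)) = trc α β (S.image (shE (su s))) := by
  have h := trc_shE α β (su s) S
  rwa [col_su, add_zero, add_zero] at h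

theorem meetS_shE (z : V) (S₁ S₂ : Finset E) :
    meetS (S₁.image (shE z)) (S₂.image (shE z)) ↔ meetS S₁ S₂ := by
  unfold meetS
  constructor
  · rintro ⟨e, he, f, hf, w, h1, h2⟩
    rw [mem_image] at he hf
    obtain ⟨e', he', rfl⟩ := he
    obtain ⟨f', hf', rfl⟩ := hf
    refine ⟨e', he', f', hf', w - z, ?_, ?_⟩
    · rw [← inc_shE z]; simpa using h1
    · rw [← inc_shE z]; simpa using h2
  · rintro ⟨e, he, f, hf, w, h1, h2⟩
    exact ⟨_, mem_image_of_mem _ he, _, mem_image_of_mem _ hf, w + z, (inc_shE z w e).2 h1,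
      (inc_shE z w f).2 h2⟩

theorem meetS_comm (S₁ S₂ : Finset E) : meetS S₁ S₂ ↔ meetS S₂ S₁ := by
  unfold meetS
  constructor <;>
  · rintro ⟨e, he, f, hf, w, h1, h2⟩
    exact ⟨f, hf, e, he, w, h2, h1⟩

/-! ## point reflections -/

theorem hd_rfE (c : V) (e : E) : hd (rfE c e) = c - e.1 := by
  obtain ⟨⟨x, y⟩, u⟩ := e
  obtain ⟨a, b⟩ := c
  cases u <;> simp only [rfE, hd_t, hd_f, Prod.mk_sub_mk, Prod.mk.injEq] <;>
    refine ⟨?_, ?_⟩ <;> first | trivial | ring

theorem rfE_rfE (c : V) (e : E) : rfE c (rfE c e) = e := by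
  have h := hd_rfE c e
  rw [show rfE c (rfE c e) = (c - hd (rfE c e), e.2) from rfl, h, sub_sub_cancel]

theorem rfE_inj (c : V) : Function.Injective (rfE c) := by
  intro e f h
  rw [← rfE_rfE c e, ← rfE_rfE c f, h]

theorem image_rfE_rfE (c : V) (S : Finset E) : (S.image (rfE c)).image (rfE c) = S := by
  rw [Finset.image_image]
  have : rfE c ∘ rfE c = id := by
    funext e; exact rfE_rfE c e
  rw [this, Finset.image_id]

/-- reflection after translation -/
theorem rfE_shE (c z : V) (e : E) : rfE c (shE z e) = rfE (c - z) e := by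
  rw [show rfE c (shE z e) = (c - hd (shE z e), e.2) from rfl, hd_shE]
  rw [show rfE (c - z) e = (c - z - hd e, e.2) from rfl]
  congr 1
  abel

/-- translation after reflection -/
theorem shE_rfE (c z : V) (e : E) : shE z (rfE c e) = rfE (c + z) e := by
  rw [show shE z (rfE c e) = (c - hd e + z, e.2) from rfl]
  rw [show rfE (c + z) e = (c + z - hd e, e.2) from rfl]
  congr 1
  abel

theorem inc_rfE (c w : V) (e : E) : inc (rfE c e) (c - w) ↔ inc e w := by
  unfold inc
  rw [hd_rfE]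
  simp only [rfE, sub_right_inj]
  tauto

theorem crs_rfE (L : ℤ) (c : V) (e : E) : crs (col c - 1 - L) (rfE c e) ↔ crs L e := by
  unfold crs
  rw [hd_rfE, col_sub]
  simp only [rfE, col_sub]
  omega

theorem hgt_rfE {L : ℤ} {e : E} (c : V) (he : crs L e) :
    hgt (col c - 1 - L) (rfE c e) = 4 * c.1 - hgt L e := by
  obtain ⟨⟨x, y⟩, u⟩ := e
  obtain ⟨a, b⟩ := c
  cases u
  · simp only [crs, hgt, rfE, hd_f, col, Bool.false_eq_true, if_false, Prod.mk_sub_mk] at he ⊢
    split_ifs <;> omega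
  · simp only [crs, hgt, rfE, hd_t, col, if_true, Prod.mk_sub_mk] at he ⊢
    omega

theorem ncr_rfE (L : ℤ) (c : V) (S : Finset E) :
    ncr (col c - 1 - L) (S.image (rfE c)) = ncr L S := by
  classical
  unfold ncr
  rw [Finset.filter_image, Finset.card_image_of_injective _ (rfE_inj c)]
  congr 1
  ext e
  simp only [mem_filter, crs_rfE]

/-- the reflection reverses the order -/
theorem rr_rfE (L : ℤ) (c : V) (S₁ S₂ : Finset E) :
    rr (col c - 1 - L) (S₁.image (rfE c)) (S₂.image (rfE c)) = rr L S₂ S₁ := by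
  classical
  unfold rr
  symm
  refine Finset.card_bij (fun q _ => (rfE c q.2, rfE c q.1)) ?_ ?_ ?_
  · intro q hq
    simp only [mem_filter, mem_product, mem_image] at hq ⊢
    obtain ⟨⟨h1, h2⟩, h3, h4, h5⟩ := hq
    rw [crs_rfE, crs_rfE, hgt_rfE c h3, hgt_rfE c h4]
    exact ⟨⟨⟨q.2, h2, rfl⟩, ⟨q.1, h1, rfl⟩⟩, h4, h3, by linarith⟩
  · intro q _ q' _ h
    simp only [Prod.mk.injEq] at h
    exact Prod.ext (rfE_inj c h.2) (rfE_inj c h.1)
  · intro q hq
    simp only [mem_filter, mem_product, mem_image] at hq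
    obtain ⟨⟨⟨e, he, he'⟩, ⟨f, hf, hf'⟩⟩, h1, h2, h3⟩ := hq
    rw [← he', crs_rfE] at h1
    rw [← hf', crs_rfE] at h2
    rw [← hf', ← he', hgt_rfE c h1, hgt_rfE c h2] at h3
    refine ⟨(f, e), ?_, ?_⟩
    · simp only [mem_filter, mem_product]
      exact ⟨⟨hf, he⟩, h2, h1, by linarith⟩
    · exact Prod.ext he' hf'

theorem inStrip_rfE (α β : ℤ) (c : V) (e : E) :
    inStrip (col c - β) (col c - α) (rfE c e) ↔ inStrip α β e := by
  unfold inStrip
  rw [hd_rfE, col_sub]
  simp only [rfE, col_sub]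
  omega

theorem trc_rfE (α β : ℤ) (c : V) (S : Finset E) :
    (trc α β S).image (rfE c) = trc (col c - β) (col c - α) (S.image (rfE c)) := by
  classical
  unfold trc
  rw [Finset.filter_image]
  congr 1
  ext e
  simp only [mem_filter, inStrip_rfE]

theorem meetS_rfE (c : V) (S₁ S₂ : Finset E) :
    meetS (S₁.image (rfE c)) (S₂.image (rfE c)) ↔ meetS S₁ S₂ := by
  unfold meetS
  constructor
  · rintro ⟨e, he, f, hf, w, h1, h2⟩
    rw [mem_image] at he hf
    obtain ⟨e', he', rfl⟩ := he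
    obtain ⟨f', hf', rfl⟩ := hf
    refine ⟨e', he', f', hf', c - w, ?_, ?_⟩
    · rw [← inc_rfE c]; simpa using h1
    · rw [← inc_rfE c]; simpa using h2
  · rintro ⟨e, he, f, hf, w, h1, h2⟩
    exact ⟨_, mem_image_of_mem _ he, _, mem_image_of_mem _ hf, c - w, (inc_rfE c w e).2 h1,
      (inc_rfE c w f).2 h2⟩

/-! ## traces -/

theorem crs_inStrip {α β L : ℤ} (h₁ : α + 1 ≤ L) (h₂ : L + 2 ≤ β) {e : E} (he : crs L e) :
    inStrip α β e := by
  obtain ⟨⟨x, y⟩, u⟩ := e
  cases u <;> simp only [crs, inStrip, hd_t, hd_f, col] at he ⊢ <;> omega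

theorem ncr_trc {α β L : ℤ} (h₁ : α + 1 ≤ L) (h₂ : L + 2 ≤ β) (S : Finset E) :
    ncr L (trc α β S) = ncr L S := by
  classical
  unfold ncr trc
  rw [Finset.filter_filter]
  congr 1
  ext e
  simp only [mem_filter]
  constructor
  · rintro ⟨h, _, h'⟩; exact ⟨h, h'⟩
  · rintro ⟨h, h'⟩; exact ⟨h, crs_inStrip h₁ h₂ h', h'⟩

theorem rr_trc {α β L : ℤ} (h₁ : α + 1 ≤ L) (h₂ : L + 2 ≤ β) (S₁ S₂ : Finset E) :
    rr L (trc α β S₁) (trc α β S₂) = rr L S₁ S₂ := by
  classical
  unfold rr trc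
  congr 1
  ext q
  simp only [mem_filter, mem_product]
  constructor
  · rintro ⟨⟨h, h'⟩, h''⟩; exact ⟨⟨h.1, h'.1⟩, h''⟩
  · rintro ⟨⟨h, h'⟩, h1, h2, h3⟩
    exact ⟨⟨⟨h, crs_inStrip h₁ h₂ h1⟩, ⟨h', crs_inStrip h₁ h₂ h2⟩⟩, h1, h2, h3⟩

end P5

open P5

section win

variable {N : ℕ} [NeZero N] {Al : Type} [Fintype Al] [Nonempty Al]

theorem Win.mln_lo (W : Win N Al) (k : ℤ) : W.mlo k + 1 ≤ W.mln k := by
  have h := W.hL
  unfold Win.mln
  omega

theorem Win.mhi_eq (W : Win N Al) (k : ℤ) : W.mhi k = W.mlo k + W.L := by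
  unfold Win.mhi Win.mlo
  ring

theorem Win.mln_hi (W : Win N Al) (k : ℤ) : W.mln k + 2 ≤ W.mhi k := by
  have h := W.hL
  rw [W.mhi_eq]
  unfold Win.mln
  omega

theorem Win.mlo_rf (W : Win N Al) {κ : ℤ} {c : V} (hc : col c = 2 * W.x + 7 * (κ + 1) * W.L)
    (k : ℤ) : col c - W.mlo k = W.mhi (κ - k) := by
  unfold Win.mhi Win.mlo
  rw [hc]
  ring

theorem Win.mhi_rf (W : Win N Al) {κ : ℤ} {c : V} (hc : col c = 2 * W.x + 7 * (κ + 1) * W.L)
    (k : ℤ) : col c - W.mhi k = W.mlo (κ - k) := by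
  unfold Win.mhi Win.mlo
  rw [hc]
  ring

theorem Win.mln_rf (W : Win N Al) {κ : ℤ} {c : V} (hc : col c = 2 * W.x + 7 * (κ + 1) * W.L)
    (k : ℤ) : col c - 1 - W.mln k = W.mln (κ - k) := by
  have h := W.mlo_rf hc k
  rw [W.mhi_eq] at h
  obtain ⟨m, hm⟩ := W.hodd
  unfold Win.mln
  omega

/-- (tr) the relation of the traces at the middle line is the relation of the whole sets -/
theorem Win.rr_tr (W : Win N Al) (k : ℤ) (S₁ S₂ : Finset E) :
    rr (W.mln k) (trc (W.mlo k) (W.mhi k) S₁) (trc (W.mlo k) (W.mhi k) S₂) =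
      rr (W.mln k) S₁ S₂ :=
  rr_trc (W.mln_lo k) (W.mln_hi k) S₁ S₂

/-- reflection rule at the middle lines -/
theorem Win.rr_rf (W : Win N Al) {κ : ℤ} {c : V} (hc : col c = 2 * W.x + 7 * (κ + 1) * W.L)
    (k : ℤ) (S₁ S₂ : Finset E) :
    rr (W.mln (κ - k)) (S₁.image (rfE c)) (S₂.image (rfE c)) = rr (W.mln k) S₂ S₁ := by
  rw [← W.mln_rf hc k]
  exact rr_rfE _ _ _ _

end win

end Pool.Agent.FPZ
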