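import Pool.Agent.FPP.AV
import Pool.Agent.FPZ.Defs

/-!
Section FPA (near equality in the Burkholder recursion): definitions.
`ι → α` is a finite product space with the uniform law, `Ex` the average, `av A f` the average over
the coordinates in `A` (both from `Pool.FPP`), `Pr` the probability of an event (from
`Pool.Agent.FPZ.Defs`).
-/

set_option autoImplicit false

noncomputable section

namespace Pool.FPA

open Finset Pool.FPP
open Pool.Agent.FPZ (Pr)

section

variable {ι κ α : Type*}

open Classical in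
/-- indicator of a proposition -/
def ind (P : Prop) : ℝ := if P then 1 else 0

/-- `f` depends only on the coordinates in `A` -/
def Dep (A : Finset ι) (f : (ι → α) → ℝ) : Prop :=
  ∀ ω ω' : ι → α, (∀ i ∈ A, ω i = ω' i) → f ω = f ω'

/-- `f` does not depend on the coordinates in `A` -/
def Off [DecidableEq ι] (A : Finset ι) (f : (ι → α) → ℝ) : Prop :=
  ∀ η ω : ι → α, f (mix A η ω) = f ω

/-- indices that are at least `k` -/
def hi (R k : ℕ) : Finset (Fin R) := univ.filter fun j => k ≤ (j : ℕ)

/-- indices that are less than `k` -/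
def lo (R k : ℕ) : Finset (Fin R) := univ.filter fun j => (j : ℕ) < k

variable [Fintype ι] [DecidableEq ι] [Fintype α]

/-- martingale difference of the family `B` of sets of coordinates (the martingale is
`av (B k) F`, the family `B` is decreasing) -/
def Dg (B : ℕ → Finset ι) (F : (ι → α) → ℝ) (k : ℕ) (ω : ι → α) : ℝ :=
  av (B (k + 1)) F ω - av (B k) F ω

/-- running maximum of `|av (B k) F - av (B 0) F|` -/
def mx (B : ℕ → Finset ι) (F : (ι → α) → ℝ) : ℕ → (ι → α) → ℝ
  | 0, _ => 0
  | n + 1, ω => max (mx B F n ω) |av (B (n + 1)) F ω - av (B 0) F ω|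

/-- the part of `F` that depends on the content of the block `A` (for `F` and a window `W`): average
of `F - av A F` over the other coordinates of `W` -/
def phi (W A : Finset ι) (F : (ι → α) → ℝ) : (ι → α) → ℝ :=
  av (W \ A) (fun ω => F ω - av A F ω)

end

theorem ind_nonneg (P : Prop) : 0 ≤ ind P := by
  unfold ind
  split_ifs <;> norm_num

theorem ind_le_one (P : Prop) : ind P ≤ 1 := by
  unfold ind
  split_ifs <;> norm_num

theorem ind_of {P : Prop} (h : P) : ind P = 1 := by
  unfold ind
  rw [if_pos h]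

theorem ind_of_not {P : Prop} (h : ¬ P) : ind P = 0 := by
  unfold ind
  rw [if_neg h]

theorem ind_mono {P Q : Prop} (h : P → Q) : ind P ≤ ind Q := by
  by_cases hP : P
  · rw [ind_of hP, ind_of (h hP)]
  · rw [ind_of_not hP]
    exact ind_nonneg Q

theorem Pr_eq {Ω : Type} [Fintype Ω] (P : Ω → Prop) : Pr P = Ex (fun ω => ind (P ω)) := rfl

theorem Pr_nonneg {Ω : Type} [Fintype Ω] (P : Ω → Prop) : 0 ≤ Pr P :=
  Ex_nonneg fun _ => ind_nonneg _

theorem Pr_le_one {Ω : Type} [Fintype Ω] (P : Ω → Prop) : Pr P ≤ 1 := by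
  rw [Pr_eq]
  rcases isEmpty_or_nonempty Ω with h | h
  · have : Ex (fun ω : Ω => ind (P ω)) = 0 := by
      unfold Ex
      simp
    rw [this]
    norm_num
  · calc Ex (fun ω => ind (P ω)) ≤ Ex (fun _ : Ω => (1 : ℝ)) := Ex_mono fun ω => ind_le_one _
      _ = 1 := Ex_const 1

theorem Pr_mono {Ω : Type} [Fintype Ω] {P Q : Ω → Prop} (h : ∀ ω, P ω → Q ω) : Pr P ≤ Pr Q :=
  Ex_mono fun ω => ind_mono (h ω)

/-- Markov inequality -/
theorem Pr_markov {Ω : Type} [Fintype Ω] (P : Ω → Prop) (f : Ω → ℝ) (hf : ∀ ω, 0 ≤ f ω) (c : ℝ)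
    (h : ∀ ω, P ω → c ≤ f ω) : c * Pr P ≤ Ex f := by
  rw [Pr_eq, ← Ex_mul_left]
  refine Ex_mono fun ω => ?_
  by_cases hP : P ω
  · rw [ind_of hP, mul_one]
    exact h ω hP
  · rw [ind_of_not hP, mul_zero]
    exact hf ω

section

variable {ι κ α : Type*} [Fintype ι] [DecidableEq ι] [Fintype α]

theorem mx_nonneg (B : ℕ → Finset ι) (F : (ι → α) → ℝ) (n : ℕ) (ω : ι → α) : 0 ≤ mx B F n ω := by
  cases n with
  | zero => exact le_refl 0
  | succ n => exact le_trans (abs_nonneg _) (le_max_right _ _)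

theorem le_mx (B : ℕ → Finset ι) (F : (ι → α) → ℝ) {k n : ℕ} (h : k ≤ n) (ω : ι → α) :
    |av (B k) F ω - av (B 0) F ω| ≤ mx B F n ω := by
  induction n with
  | zero =>
    have : k = 0 := Nat.le_zero.mp h
    subst this
    simp [mx]
  | succ n ih =>
    rcases Nat.lt_or_ge k (n + 1) with h1 | h1
    · exact le_trans (ih (Nat.lt_succ_iff.mp h1)) (le_max_left _ _)
    · have : k = n + 1 := le_antisymm h h1
      subst this
      exact le_max_right _ _

end

end Pool.FPA
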