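import Pool.Agent.FPZ.PA0

/-!
Module PA1 (30 min): algebra of the martingale `av (B k) F` for a decreasing family `B`.
Everything follows from `av_av` (`av A (av B f) = av (A ∪ B) f`), `Ex_av`, `av_mix`,
`av_mul_of_indep`, and `Ex_mono`/`abs_Ex_le`.
* `Off_av`: `av_mix` for `A ⊆ B` (write `mix A η ω` inside; `av_congr_off`).
* `Ex_mul_av`: `Ex (G * f) = Ex (av A (G * f)) = Ex (G * av A f)`.
* `Ex_mul_Dg`: `Ex (G * Dg) = Ex (G * av (B k) Dg)` and `av (B k) (Dg B F k) = 0` since
  `av (B k) (av (B (k+1)) F) = av (B k) F`.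
* `submart`: `|av (B k) F - c| = |av (B k) (av (B (k+1)) F - c)| ≤ av (B k) |av (B (k+1)) F - c|`
  as `c` does not depend on the coordinates in `B k`; multiply by `G`, average, use `Ex_mul_av`.
* the block families: `U blk (hi R k) = blk k ∪ U blk (hi R (k+1))` and
  `U blk (lo R (k+1)) = blk k ∪ U blk (lo R k)`.
-/

set_option autoImplicit false

noncomputable section

namespace Pool.FPA

open Finset Pool.FPP

section

variable {ι κ α : Type*} [Fintype ι] [DecidableEq ι] [Fintype α] [Nonempty α]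

theorem Off_av {A B : Finset ι} (h : A ⊆ B) (f : (ι → α) → ℝ) : Off A (av B f) := by
  intro η ω
  refine av_congr_off B f _ _ (fun i hi => ?_)
  have hiA : i ∉ A := fun hA => hi (h hA)
  simp [mix, hiA]

theorem Off_mono {A B : Finset ι} (h : A ⊆ B) {f : (ι → α) → ℝ} (hf : Off B f) : Off A f := by
  intro η ω
  have h1 : mix A η ω = mix B (mix A η ω) ω := by
    funext i
    by_cases hA : i ∈ A
    · simp [mix, hA, h hA]
    · simp [mix, hA]
  rw [h1]
  exact hf _ _

theorem av_of_Off {A : Finset ι} {f : (ι → α) → ℝ} (hf : Off A f) : av A f = f := by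
  funext ω
  unfold av
  simp only [hf _ ω]
  exact Ex_const _

theorem av_tower {A B : Finset ι} (h : A ⊆ B) (f : (ι → α) → ℝ) : av B (av A f) = av B f := by
  rw [av_av, Finset.union_eq_left.2 h]

theorem av_tower' {A B : Finset ι} (h : A ⊆ B) (f : (ι → α) → ℝ) : av A (av B f) = av B f := by
  rw [av_av, Finset.union_eq_right.2 h]

theorem Dep_av {A W : Finset ι} {f : (ι → α) → ℝ} (hf : Dep W f) : Dep (W \ A) (av A f) := by
  intro ω ω' h
  unfold av
  congr 1
  funext η
  refine hf _ _ (fun i hi => ?_)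
  by_cases hA : i ∈ A
  · simp [mix, hA]
  · simp only [mix, hA, if_false]
    exact h i (Finset.mem_sdiff.2 ⟨hi, hA⟩)

theorem Dep_mono {A W : Finset ι} (h : A ⊆ W) {f : (ι → α) → ℝ} (hf : Dep A f) : Dep W f :=
  fun ω ω' hω => hf ω ω' (fun i hi => hω i (h hi))

theorem Off_of_Dep {A W : Finset ι} (h : Disjoint A W) {f : (ι → α) → ℝ} (hf : Dep W f) :
    Off A f := by
  intro η ω
  refine hf _ _ (fun i hi => ?_)
  have hA : i ∉ A := fun hA => (Finset.disjoint_left.1 h hA) hi
  simp [mix, hA]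

/-- a function of the coordinates in `W` has average `av W` equal to the full average -/
theorem av_of_Dep {W : Finset ι} {f : (ι → α) → ℝ} (hf : Dep W f) (ω : ι → α) :
    av W f ω = Ex f := by
  unfold av
  congr 1
  funext η
  refine hf _ _ (fun i hi => ?_)
  simp [mix, hi]

theorem Ex_mul_av {A : Finset ι} {G : (ι → α) → ℝ} (hG : Off A G) (f : (ι → α) → ℝ) :
    Ex (fun ω => G ω * av A f ω) = Ex (fun ω => G ω * f ω) := by
  rw [← Ex_av A (fun ω => G ω * f ω)]
  congr 1
  funext ω
  exact (av_mul_of_indep A f G hG ω).symm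

theorem Ex_mul_Dg {B : ℕ → Finset ι} {k : ℕ} (hB : B (k + 1) ⊆ B k) {G : (ι → α) → ℝ}
    (hG : Off (B k) G) (F : (ι → α) → ℝ) : Ex (fun ω => G ω * Dg B F k ω) = 0 := by
  have h1 : (fun ω => G ω * Dg B F k ω) =
      fun ω => G ω * av (B (k + 1)) F ω - G ω * av (B k) F ω := by
    funext ω
    unfold Dg
    ring
  rw [h1, Ex_sub, Ex_mul_av hG, Ex_mul_av (Off_mono hB hG), sub_self]

theorem sum_Dg (B : ℕ → Finset ι) (F : (ι → α) → ℝ) (n : ℕ) (ω : ι → α) :
    ∑ k ∈ range n, Dg B F k ω = av (B n) F ω - av (B 0) F ω :=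
  Finset.sum_range_sub (fun k => av (B k) F ω) n

theorem submart {B : ℕ → Finset ι} {k : ℕ} (hB : B (k + 1) ⊆ B k) {G c : (ι → α) → ℝ}
    (hG : Off (B k) G) (hG0 : ∀ ω, 0 ≤ G ω) (hc : Off (B k) c) (F : (ι → α) → ℝ) :
    Ex (fun ω => G ω * |av (B k) F ω - c ω|) ≤ Ex (fun ω => G ω * |av (B (k + 1)) F ω - c ω|) := by
  rw [← Ex_mul_av hG (fun ω => |av (B (k + 1)) F ω - c ω|)]
  refine Ex_mono (fun ω => mul_le_mul_of_nonneg_left ?_ (hG0 ω))
  have h1 : av (B k) F ω - c ω = av (B k) (fun ω => av (B (k + 1)) F ω - c ω) ω := by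
    rw [av_sub (B k) (av (B (k + 1)) F) c ω, av_tower hB, av_of_Off hc]
  rw [h1]
  exact abs_Ex_le _

theorem Off_mx {B : ℕ → Finset ι} (hB : Antitone B) (F : (ι → α) → ℝ) (n : ℕ) :
    Off (B n) (mx B F n) := by
  induction n with
  | zero => intro η ω; rfl
  | succ n ih =>
    intro η ω
    have h1 := Off_mono (hB (Nat.le_succ n)) ih η ω
    have h2 := Off_av (le_refl (B (n + 1))) F η ω
    have h3 := Off_av (hB (Nat.zero_le (n + 1))) F η ω
    simp only [mx]
    rw [h1, h2, h3]

/-- the forward block filtration -/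
def fw {R : ℕ} (blk : Fin R → Finset ι) (k : ℕ) : Finset ι := U blk (hi R k)

/-- the backward block filtration -/
def bw {R : ℕ} (blk : Fin R → Finset ι) (k : ℕ) : Finset ι := U blk (lo R (R - k))

omit [Fintype ι] in
theorem fw_anti {R : ℕ} (blk : Fin R → Finset ι) : Antitone (fw blk) := by
  intro k l h
  unfold fw U
  refine Finset.biUnion_subset_biUnion_of_subset_left blk (fun j hj => ?_)
  simp only [hi, Finset.mem_filter, Finset.mem_univ, true_and] at hj ⊢
  exact h.trans hj

omit [Fintype ι] in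
theorem bw_anti {R : ℕ} (blk : Fin R → Finset ι) : Antitone (bw blk) := by
  intro k l h
  unfold bw U
  refine Finset.biUnion_subset_biUnion_of_subset_left blk (fun j hj => ?_)
  simp only [lo, Finset.mem_filter, Finset.mem_univ, true_and] at hj ⊢
  omega

omit [Fintype ι] in
theorem fw_zero {R : ℕ} (blk : Fin R → Finset ι) : fw blk 0 = U blk univ := by
  unfold fw
  congr 1
  ext j
  simp [hi]

omit [Fintype ι] in
theorem bw_zero {R : ℕ} (blk : Fin R → Finset ι) : bw blk 0 = U blk univ := by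
  unfold bw
  congr 1
  ext j
  simp [lo]

omit [Fintype ι] in
theorem fw_last {R : ℕ} (blk : Fin R → Finset ι) : fw blk R = ∅ := by
  have h : hi R R = ∅ := by
    ext j
    simp [hi]
  unfold fw U
  rw [h, Finset.biUnion_empty]

omit [Fintype ι] in
theorem bw_last {R : ℕ} (blk : Fin R → Finset ι) : bw blk R = ∅ := by
  have h : lo R (R - R) = ∅ := by
    ext j
    simp [lo]
  unfold bw U
  rw [h, Finset.biUnion_empty]

omit [Fintype ι] [Nonempty α] [Fintype α] in
private theorem pa1_hi {R : ℕ} (blk : Fin R → Finset ι) (k : Fin R) :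
    U blk (hi R k) = U blk (hi R (k + 1)) ∪ blk k := by
  have h : hi R (k : ℕ) = insert k (hi R (k + 1)) := by
    ext j
    simp only [hi, Finset.mem_filter, Finset.mem_univ, true_and, Finset.mem_insert, Fin.ext_iff]
    omega
  unfold U
  rw [h, Finset.biUnion_insert, Finset.union_comm]

omit [Fintype ι] [Nonempty α] [Fintype α] in
private theorem pa1_lo {R : ℕ} (blk : Fin R → Finset ι) (k : Fin R) :
    U blk (lo R (k + 1)) = U blk (lo R k) ∪ blk k := by
  have h : lo R ((k : ℕ) + 1) = insert k (lo R k) := by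
    ext j
    simp only [lo, Finset.mem_filter, Finset.mem_univ, true_and, Finset.mem_insert, Fin.ext_iff]
    omega
  unfold U
  rw [h, Finset.biUnion_insert, Finset.union_comm]

/-- forward differences -/
theorem Dg_fw {R : ℕ} (blk : Fin R → Finset ι) (F : (ι → α) → ℝ) (k : Fin R) (ω : ι → α) :
    Dg (fw blk) F k ω = av (U blk (hi R (k + 1))) (fun ω => F ω - av (blk k) F ω) ω := by
  rw [av_sub _ F (av (blk k) F) ω, av_av]
  unfold Dg fw
  rw [pa1_hi blk k]

/-- backward differences -/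
theorem Dg_bw {R : ℕ} (blk : Fin R → Finset ι) (F : (ι → α) → ℝ) (k : Fin R) (ω : ι → α) :
    Dg (bw blk) F (R - 1 - k) ω = av (U blk (lo R k)) (fun ω => F ω - av (blk k) F ω) ω := by
  rw [av_sub _ F (av (blk k) F) ω, av_av]
  unfold Dg bw
  have hk := k.isLt
  have h1 : R - (R - 1 - (k : ℕ) + 1) = k := by omega
  have h2 : R - (R - 1 - (k : ℕ)) = k + 1 := by omega
  rw [h1, h2, pa1_lo blk k]

end

end Pool.FPA
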