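import Pool.Agent.FPZ.PA6

/-!
Module PA5 (20 min): uniform convexity. `g = av A f`. `clarkson` with `x = f`, `y = g`, averaged:
`E |(f+g)/2|^p + 2^(-p) E |f-g|^p ≤ (E |f|^p + E |g|^p)/2`, and `av A ((f+g)/2) = g`, so
`E |g|^p ≤ E |(f+g)/2|^p` by `Ex_abs_av_rpow`. Rearrange and multiply by 2.
-/

set_option autoImplicit false

noncomputable section

namespace Pool.FPA

open Finset Pool.FPP

section

variable {ι α : Type*} [Fintype ι] [DecidableEq ι] [Fintype α] [Nonempty α]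

theorem unif_conv {p : ℝ} (hp : 2 ≤ p) (A : Finset ι) (f : (ι → α) → ℝ) :
    Ex (fun ω => |av A f ω| ^ p) + 2 ^ (1 - p) * Ex (fun ω => |f ω - av A f ω| ^ p) ≤
      Ex (fun ω => |f ω| ^ p) := by
  set g := av A f with hg
  have hgg : av A g = g := by rw [hg, av_av, Finset.union_self]
  have hp0 : 0 ≤ p := by linarith
  have h1 : ∀ ω, |(f ω + g ω) / 2| ^ p + |(f ω - g ω) / 2| ^ p ≤ (|f ω| ^ p + |g ω| ^ p) / 2 :=
    fun ω => clarkson p hp (f ω) (g ω)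
  have h2 := Ex_mono h1
  have h3 : av A (fun ω => (f ω + g ω) / 2) = g := by
    funext ω
    have h4 : (fun ω => (f ω + g ω) / 2) = fun ω => (1 / 2 : ℝ) * (f ω + g ω) := by
      funext ω; ring
    rw [h4, av_mul_left, av_add, hgg, ← hg]
    ring
  have h4 : Ex (fun ω => |g ω| ^ p) ≤ Ex (fun ω => |(f ω + g ω) / 2| ^ p) := by
    have := Ex_abs_av_rpow (p := p) (by linarith) A (fun ω => (f ω + g ω) / 2)
    rwa [h3] at this
  have h5 : ∀ ω, |(f ω - g ω) / 2| ^ p = 2 ^ (-p) * |f ω - g ω| ^ p := by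
    intro ω
    rw [abs_div, Real.div_rpow (abs_nonneg _) (abs_nonneg _), Real.rpow_neg (by norm_num),
      abs_of_pos (show (0 : ℝ) < 2 by norm_num)]
    ring
  have h6 : Ex (fun ω => |(f ω + g ω) / 2| ^ p + |(f ω - g ω) / 2| ^ p)
      = Ex (fun ω => |(f ω + g ω) / 2| ^ p) + 2 ^ (-p) * Ex (fun ω => |f ω - g ω| ^ p) := by
    rw [Ex_add, ← Ex_mul_left]
    simp only [h5]
  have h7 : Ex (fun ω => (|f ω| ^ p + |g ω| ^ p) / 2)
      = (Ex (fun ω => |f ω| ^ p) + Ex (fun ω => |g ω| ^ p)) / 2 := by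
    have h8 : (fun ω => (|f ω| ^ p + |g ω| ^ p) / 2)
        = fun ω => (1 / 2 : ℝ) * (|f ω| ^ p + |g ω| ^ p) := by funext ω; ring
    rw [h8, Ex_mul_left, Ex_add]
    ring
  rw [h6, h7] at h2
  have h8 : (2 : ℝ) ^ (1 - p) = 2 * 2 ^ (-p) := by
    rw [show (1 : ℝ) - p = 1 + -p by ring, Real.rpow_add (by norm_num), Real.rpow_one]
  rw [h8]
  linarith

/-- form used: `p ≤ 3` -/
theorem unif_conv' {p : ℝ} (hp : 2 ≤ p) (hp3 : p ≤ 3) (A : Finset ι) (f : (ι → α) → ℝ) :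
    Ex (fun ω => |f ω - av A f ω| ^ p) ≤
      4 * (Ex (fun ω => |f ω| ^ p) - Ex (fun ω => |av A f ω| ^ p)) := by
  have h1 := unif_conv hp A f
  have h2 : (1 / 4 : ℝ) ≤ 2 ^ (1 - p) := by
    have h3 : (2 : ℝ) ^ (-2 : ℝ) ≤ 2 ^ (1 - p) :=
      Real.rpow_le_rpow_of_exponent_le (by norm_num) (by linarith)
    have h4 : (2 : ℝ) ^ (-2 : ℝ) = 1 / 4 := by
      rw [Real.rpow_neg (by norm_num), show (2 : ℝ) = ((2 : ℕ) : ℝ) by norm_num, Real.rpow_natCast]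
      norm_num
    rw [h4] at h3
    exact h3
  have h3 : 0 ≤ Ex (fun ω => |f ω - av A f ω| ^ p) :=
    Ex_nonneg fun ω => Real.rpow_nonneg (abs_nonneg _) _
  have h4 := mul_le_mul_of_nonneg_right h2 h3
  linarith

end

end Pool.FPA
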