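import Mathlib

/-!
Module PA9 (40 min): power mean inequality with deficit. `X = ∑ u`, `y k = R u k / X` (`X > 0`), so
`∑ y = R` and `R^t ∑ u^(1+t) = X^(1+t) * (1/R) ∑ y^(1+t)`.
* `pm_le`: `Real.rpow_sum_le_const_mul_sum_rpow` or Jensen.
* `pm_deficit`: `y^(1+t) = y * exp (t log y) ≥ y (1 + t log y)` for `y > 0`, so
  `(1/R) ∑ y^(1+t) ≥ 1 + t (1/R) ∑ y log y` (`0 * log 0 = 0`). Tangent inequality
  `y log y ≥ ℓ y - exp (ℓ-1)` for every `ℓ` (from `log z ≤ z - 1` with `z = exp (ℓ-1)/y`).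
  Use `ℓ = 164` for the indices with `y k ≥ 1/2` (at most `exp (-164) R` of them, and their sum is
  `≥ R/2` since the others contribute at most `R/2`) and `ℓ = 0` for the others:
  `(1/R) ∑ y log y ≥ 164/2 - exp (-164) exp 163 - exp (-1) ≥ 82 - 2 = 80`.
-/

set_option autoImplicit false

noncomputable section

namespace Pool.FPA

open Finset

/-- proportion of comparable squares -/
def cA : ℝ := Real.exp (-164)

theorem mul_log_ge (ℓ y : ℝ) (hy : 0 ≤ y) : ℓ * y - Real.exp (ℓ - 1) ≤ y * Real.log y := by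
  rcases hy.eq_or_lt with h | h
  · rw [← h]
    have := Real.exp_pos (ℓ - 1)
    simp only [mul_zero, zero_sub, zero_mul]
    linarith
  · have hz : 0 < Real.exp (ℓ - 1) / y := div_pos (Real.exp_pos _) h
    have h1 := Real.log_le_sub_one_of_pos hz
    rw [Real.log_div (Real.exp_pos _).ne' h.ne', Real.log_exp] at h1
    have h2 : ℓ - Real.log y ≤ Real.exp (ℓ - 1) / y := by linarith
    have h3 := mul_le_mul_of_nonneg_left h2 h.le
    rw [mul_div_cancel₀ _ h.ne'] at h3
    nlinarith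

theorem pm_le {R : ℕ} (u : Fin R → ℝ) (hu : ∀ k, 0 ≤ u k) {t : ℝ} (ht : 0 ≤ t) :
    (∑ k, u k) ^ (1 + t) ≤ (R : ℝ) ^ t * ∑ k, u k ^ (1 + t) := by
  have h := Real.rpow_sum_le_const_mul_sum_rpow_of_nonneg (s := (Finset.univ : Finset (Fin R)))
    (f := u) (p := 1 + t) (by linarith) (fun i _ => hu i)
  rw [Finset.card_univ, Fintype.card_fin] at h
  have e : 1 + t - 1 = t := by ring
  rw [e] at h
  exact h

theorem rpow_one_add_ge {t : ℝ} (ht : 0 ≤ t) {y : ℝ} (hy : 0 ≤ y) :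
    y + t * (y * Real.log y) ≤ y ^ (1 + t) := by
  rcases hy.eq_or_lt with h | h
  · rw [← h, Real.zero_rpow (by linarith)]
    simp
  · rw [Real.rpow_add h, Real.rpow_one, Real.rpow_def_of_pos h]
    have h1 := Real.add_one_le_exp (Real.log y * t)
    have h2 := mul_le_mul_of_nonneg_left h1 h.le
    nlinarith

theorem pm_deficit {R : ℕ} (u : Fin R → ℝ) (hu : ∀ k, 0 ≤ u k) {t : ℝ} (ht : 0 ≤ t)
    (hbad : ((univ.filter fun k => (∑ j, u j) / (2 * R) ≤ u k).card : ℝ) < cA * R) :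
    (1 + 80 * t) * (∑ k, u k) ^ (1 + t) ≤ (R : ℝ) ^ t * ∑ k, u k ^ (1 + t) := by
  classical
  set X : ℝ := ∑ k, u k with hX
  have hX0 : 0 ≤ X := Finset.sum_nonneg (fun k _ => hu k)
  have hcA : 0 < cA := Real.exp_pos _
  have hR : 0 < (R : ℝ) := by
    rcases Nat.eq_zero_or_pos R with h | h
    · exfalso
      have h0 : (R : ℝ) = 0 := by rw [h]; simp
      rw [h0, mul_zero] at hbad
      have : (0 : ℝ) ≤ ((univ.filter fun k => X / (2 * (0 : ℝ)) ≤ u k).card : ℝ) := Nat.cast_nonneg _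
      linarith
    · exact_mod_cast h
  have hXpos : 0 < X := by
    rcases hX0.eq_or_lt with h | h
    · exfalso
      have h1 : (univ.filter fun k => X / (2 * (R : ℝ)) ≤ u k) = univ := by
        rw [Finset.filter_true_of_mem]
        intro k _
        rw [← h, zero_div]
        exact hu k
      rw [h1, Finset.card_univ, Fintype.card_fin] at hbad
      have h2 : cA ≤ 1 := by
        unfold cA
        rw [Real.exp_le_one_iff]
        norm_num
      have h3 : cA * (R : ℝ) ≤ 1 * R := mul_le_mul_of_nonneg_right h2 hR.le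
      linarith
    · exact h
  set y : Fin R → ℝ := fun k => R * u k / X with hy
  have hy0 : ∀ k, 0 ≤ y k := fun k => div_nonneg (mul_nonneg hR.le (hu k)) hXpos.le
  have hysum : ∑ k, y k = R := by
    simp only [hy]
    rw [← Finset.sum_div, ← Finset.mul_sum, ← hX]
    exact mul_div_cancel_right₀ _ hXpos.ne'
  have huy : ∀ k, u k = X / R * y k := by
    intro k
    simp only [hy]
    field_simp
  have hmain : (R : ℝ) ^ t * ∑ k, u k ^ (1 + t) = X ^ (1 + t) * (1 / R * ∑ k, y k ^ (1 + t)) := by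
    have h1 : ∀ k, u k ^ (1 + t) = X ^ (1 + t) / (R : ℝ) ^ (1 + t) * y k ^ (1 + t) := by
      intro k
      rw [huy k, Real.mul_rpow (div_nonneg hXpos.le hR.le) (hy0 k),
        Real.div_rpow hXpos.le hR.le]
    rw [Finset.sum_congr rfl (fun k _ => h1 k), ← Finset.mul_sum]
    have h2 : (R : ℝ) ^ (1 + t) = R * (R : ℝ) ^ t := by
      rw [Real.rpow_add hR, Real.rpow_one]
    have h3 : (R : ℝ) ^ t ≠ 0 := (Real.rpow_pos_of_pos hR t).ne'
    rw [h2]
    field_simp
  set B : Finset (Fin R) := univ.filter fun k => X / (2 * R) ≤ u k with hB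
  have hBy : ∀ k, k ∉ B → y k ≤ 1 / 2 := by
    intro k hk
    have h1 : ¬ (X / (2 * R) ≤ u k) := by
      intro h
      exact hk (by rw [hB, Finset.mem_filter]; exact ⟨Finset.mem_univ _, h⟩)
    have h2 := not_le.1 h1
    simp only [hy]
    rw [div_le_iff₀ hXpos]
    rw [lt_div_iff₀ (by positivity)] at h2
    nlinarith
  have hsplit : ∀ f : Fin R → ℝ, ∑ k, f k = ∑ k ∈ B, f k + ∑ k ∈ Bᶜ, f k := fun f =>
    (Finset.sum_add_sum_compl B f).symm
  have hcompl : ∑ k ∈ Bᶜ, y k ≤ R / 2 := by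
    calc ∑ k ∈ Bᶜ, y k ≤ ∑ k ∈ Bᶜ, (1 / 2 : ℝ) :=
          Finset.sum_le_sum (fun k hk => hBy k (Finset.mem_compl.1 hk))
      _ = (Bᶜ.card : ℝ) * (1 / 2) := by rw [Finset.sum_const, nsmul_eq_mul]
      _ ≤ R * (1 / 2) := by
          refine mul_le_mul_of_nonneg_right ?_ (by norm_num)
          have h1 := Finset.card_le_univ Bᶜ
          rw [Fintype.card_fin] at h1
          exact_mod_cast h1
      _ = R / 2 := by ring
  have hBsum : (R : ℝ) / 2 ≤ ∑ k ∈ B, y k := by
    have h1 := hsplit y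
    rw [hysum] at h1
    linarith
  have hlog1 : 164 * (∑ k ∈ B, y k) - (B.card : ℝ) * Real.exp 163 ≤
      ∑ k ∈ B, y k * Real.log (y k) := by
    have h1 : ∑ k ∈ B, (164 * y k - Real.exp 163) ≤ ∑ k ∈ B, y k * Real.log (y k) := by
      refine Finset.sum_le_sum (fun k _ => ?_)
      have h2 := mul_log_ge 164 (y k) (hy0 k)
      have h3 : (164 : ℝ) - 1 = 163 := by norm_num
      rw [h3] at h2
      exact h2
    rw [Finset.sum_sub_distrib, ← Finset.mul_sum, Finset.sum_const, nsmul_eq_mul] at h1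
    exact h1
  have hlog2 : -(R : ℝ) ≤ ∑ k ∈ Bᶜ, y k * Real.log (y k) := by
    have h1 : ∑ k ∈ Bᶜ, (-1 : ℝ) ≤ ∑ k ∈ Bᶜ, y k * Real.log (y k) := by
      refine Finset.sum_le_sum (fun k _ => ?_)
      have h2 := mul_log_ge 0 (y k) (hy0 k)
      have h3 : Real.exp (0 - 1) ≤ 1 := by
        rw [Real.exp_le_one_iff]
        norm_num
      linarith
    rw [Finset.sum_const, nsmul_eq_mul] at h1
    have h4 := Finset.card_le_univ Bᶜ
    rw [Fintype.card_fin] at h4
    have h5 : (Bᶜ.card : ℝ) ≤ R := by exact_mod_cast h4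
    linarith
  have hBcard : (B.card : ℝ) * Real.exp 163 ≤ R := by
    have h1 : (B.card : ℝ) * Real.exp 163 ≤ cA * R * Real.exp 163 :=
      mul_le_mul_of_nonneg_right hbad.le (Real.exp_pos _).le
    have h2 : cA * Real.exp 163 ≤ 1 := by
      unfold cA
      rw [← Real.exp_add, Real.exp_le_one_iff]
      norm_num
    have h3 : cA * R * Real.exp 163 = R * (cA * Real.exp 163) := by ring
    have h4 : (R : ℝ) * (cA * Real.exp 163) ≤ R * 1 := mul_le_mul_of_nonneg_left h2 hR.le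
    linarith
  have hent : 80 * (R : ℝ) ≤ ∑ k, y k * Real.log (y k) := by
    rw [hsplit (fun k => y k * Real.log (y k))]
    linarith
  have hpow : (R : ℝ) + t * (80 * R) ≤ ∑ k, y k ^ (1 + t) := by
    have h1 : ∑ k, (y k + t * (y k * Real.log (y k))) ≤ ∑ k, y k ^ (1 + t) :=
      Finset.sum_le_sum (fun k _ => rpow_one_add_ge ht (hy0 k))
    rw [Finset.sum_add_distrib, ← Finset.mul_sum, hysum] at h1
    have h2 := mul_le_mul_of_nonneg_left hent ht
    linarith
  rw [hmain, mul_comm (1 + 80 * t)]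
  refine mul_le_mul_of_nonneg_left ?_ (Real.rpow_nonneg hX0 _)
  have h1 : 1 / (R : ℝ) * ((R : ℝ) + t * (80 * R)) ≤ 1 / R * ∑ k, y k ^ (1 + t) :=
    mul_le_mul_of_nonneg_left hpow (by positivity)
  have h2 : 1 / (R : ℝ) * ((R : ℝ) + t * (80 * R)) = 1 + 80 * t := by
    field_simp
  linarith

end Pool.FPA
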