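import Pool.Agent.FPZ.PA4
import Pool.Agent.FPZ.PA5
import Pool.Agent.FPZ.PA9

/-!
Module PA10 (45 min; the rest of this list is in PA10b.lean): approximation by the
block projections. Blocks `blk m`, `m : Fin R`, pairwise disjoint, `W = U blk univ`, `F` depends only
on `W`. `p = 2+2t`. `f_m = F - av (blk m) F`, `dF m`, `dB m` forward, backward differences,
`φ_m = phi W (blk m) F`.
* `burk_fw`, `burk_bw`: `burkholder` for `fw blk`, `bw blk` with `n = R`; `av ∅ F = F`,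
  `av W F = Ex F` (`av_of_Dep`); `Dg_fw`, `Dg_bw` identify the differences (for `bw` reindex the sum
  over `range R` by `k ↦ R-1-k`, `Finset.sum_range_reflect`, `Fin.sum_univ_eq_sum_range`).
* `burk_all`: `burk_fw`, `pm_le` (pointwise, `u = (dF m)^2`, `(x^2)^(1+t) = |x|^p`) and
  `E |dF m|^p ≤ E |f_m|^p` (`Ex_abs_av_rpow`).
* `gain_bw`: `(1-t) R^t aS < bS ≤ e^(12t) R^t ∑ E |dB m|^p` (`burk_bw`, `pm_le`), and
  `(1-t) e^(-12t) ≥ (1-t)(1-12t) ≥ 1-13t`.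
* `near_phi`: `unif_conv'` with `A = U blk (lo R m)`, `f = f_m`: `∑ E |f_m - dB m|^p ≤
  4 (aS - ∑ E |dB m|^p) ≤ 52 t aS`. `φ_m = av (U blk (hi R (m+1))) (dB m)` since `W \ blk m` is the
  disjoint union of `U blk (lo R m)` and `U blk (hi R (m+1))`; so
  `dF m - φ_m = av (U blk (hi R (m+1))) (f_m - dB m)`, and Jensen `Ex_abs_av_rpow`.
* `near_sum`: `F - Ex F = ∑ dF m` (`sum_Dg`), so `F - Ex F - ∑ φ_m = ∑ (dF m - φ_m)`; use
  `abs_sum_rpow_le` (`R^(p-1) ≤ R^2`, `p ≤ 3`, `R ≥ 1`).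
* `bad_quarter`: pointwise `R^t ∑ |dF m|^p ≥ X^(1+t) (1 + 80 t ind Bad)` (`pm_le`, `pm_deficit`,
  `X = XF`). Average: `E X^(1+t) + 80 t E (X^(1+t); Bad) ≤ R^t ∑ E |dF m|^p ≤ R^t aS
  < bS / (1-t) ≤ e^(12t)/(1-t) E X^(1+t) ≤ (1+20t) E X^(1+t)` (`t ≤ 1/100`).
* `app_small`: on the event `X^(1+t) ≤ (8R)^(1+t) ∑ |dF m - φ_m|^p`, `(8R)^(1+t) ≤ 64 R^2`,
  `near_phi`, and `aS ≤ e^(12t)/(1-t) R^(-t) E X^(1+t) ≤ 1.2 E X^(1+t)`;
  `64 R^2 * 52 t * 1.2 ≤ 1/64`.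
-/

set_option autoImplicit false

noncomputable section

namespace Pool.FPA

open Finset Pool.FPP

section

variable {ι α : Type*} [Fintype ι] [DecidableEq ι] [Fintype α] [Nonempty α]

/-- forward difference of the block `m` -/
def dF {R : ℕ} (blk : Fin R → Finset ι) (F : (ι → α) → ℝ) (m : Fin R) : (ι → α) → ℝ :=
  av (U blk (hi R (m + 1))) (fun ω => F ω - av (blk m) F ω)

/-- backward difference of the block `m` -/
def dB {R : ℕ} (blk : Fin R → Finset ι) (F : (ι → α) → ℝ) (m : Fin R) : (ι → α) → ℝ :=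
  av (U blk (lo R m)) (fun ω => F ω - av (blk m) F ω)

/-- sum of the `p`-th moments of the block increments -/
def aS {R : ℕ} (blk : Fin R → Finset ι) (F : (ι → α) → ℝ) (p : ℝ) : ℝ :=
  ∑ m, Ex (fun ω => |F ω - av (blk m) F ω| ^ p)

/-- `p`-th moment of the window -/
def bS (F : (ι → α) → ℝ) (p : ℝ) : ℝ := Ex (fun ω => |F ω - Ex F| ^ p)

/-- square function of the forward differences -/
def XF {R : ℕ} (blk : Fin R → Finset ι) (F : (ι → α) → ℝ) (ω : ι → α) : ℝ := ∑ m, dF blk F m ω ^ 2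

omit [DecidableEq ι] [Fintype ι] [Fintype α] [Nonempty α] in
private theorem pa10_sq_rpow (x t : ℝ) : (x ^ 2) ^ (1 + t) = |x| ^ (2 + 2 * t) := by
  have h1 : x ^ 2 = |x| ^ (2 : ℝ) := by
    rw [← sq_abs, ← Real.rpow_natCast]
    norm_num
  rw [h1, ← Real.rpow_mul (abs_nonneg x)]
  congr 1
  ring

theorem burk_fw {R : ℕ} (blk : Fin R → Finset ι) {F : (ι → α) → ℝ} (hF : Dep (U blk univ) F)
    {t : ℝ} (ht : 0 < t) (ht1 : t ≤ 1 / 2) :
    bS F (2 + 2 * t) ≤ Real.exp (12 * t) * Ex (fun ω => XF blk F ω ^ (1 + t)) := by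
  have h := burkholder (fw_anti blk) F ht ht1 R
  rw [fw_last, fw_zero] at h
  have e1 : (fun ω => |av ∅ F ω - av (U blk univ) F ω| ^ (2 + 2 * t)) =
      fun ω => |F ω - Ex F| ^ (2 + 2 * t) := by
    funext ω
    rw [av_empty, av_of_Dep hF]
  have e2 : (fun ω => (∑ k ∈ range R, Dg (fw blk) F k ω ^ 2) ^ (1 + t)) =
      fun ω => XF blk F ω ^ (1 + t) := by
    funext ω
    congr 1
    rw [Finset.sum_range]
    unfold XF
    refine Finset.sum_congr rfl fun k _ => ?_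
    rw [Dg_fw]
    rfl
  rw [e1, e2] at h
  exact h

theorem burk_bw {R : ℕ} (blk : Fin R → Finset ι) {F : (ι → α) → ℝ} (hF : Dep (U blk univ) F)
    {t : ℝ} (ht : 0 < t) (ht1 : t ≤ 1 / 2) :
    bS F (2 + 2 * t) ≤ Real.exp (12 * t) * Ex (fun ω => (∑ m, dB blk F m ω ^ 2) ^ (1 + t)) := by
  have h := burkholder (bw_anti blk) F ht ht1 R
  rw [bw_last, bw_zero] at h
  have e1 : (fun ω => |av ∅ F ω - av (U blk univ) F ω| ^ (2 + 2 * t)) =
      fun ω => |F ω - Ex F| ^ (2 + 2 * t) := by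
    funext ω
    rw [av_empty, av_of_Dep hF]
  have e2 : (fun ω => (∑ k ∈ range R, Dg (bw blk) F k ω ^ 2) ^ (1 + t)) =
      fun ω => (∑ m, dB blk F m ω ^ 2) ^ (1 + t) := by
    funext ω
    congr 1
    rw [← Finset.sum_range_reflect, Finset.sum_range]
    refine Finset.sum_congr rfl fun k _ => ?_
    rw [Dg_bw]
    rfl
  rw [e1, e2] at h
  exact h

private theorem pa10_pm {R : ℕ} (d : Fin R → (ι → α) → ℝ) {t : ℝ} (ht : 0 < t) :
    Ex (fun ω => (∑ m, d m ω ^ 2) ^ (1 + t)) ≤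
      (R : ℝ) ^ t * ∑ m, Ex (fun ω => |d m ω| ^ (2 + 2 * t)) := by
  rw [← Ex_sum, ← Ex_mul_left]
  refine Ex_mono fun ω => ?_
  have h := pm_le (fun m => d m ω ^ 2) (fun m => sq_nonneg _) ht.le
  refine h.trans_eq ?_
  congr 1
  exact Finset.sum_congr rfl fun m _ => pa10_sq_rpow _ _

/-- the inequality available in every window -/
theorem burk_all {R : ℕ} (blk : Fin R → Finset ι) {F : (ι → α) → ℝ} (hF : Dep (U blk univ) F)
    {t : ℝ} (ht : 0 < t) (ht1 : t ≤ 1 / 2) :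
    bS F (2 + 2 * t) ≤ Real.exp (12 * t) * ((R : ℝ) ^ t * aS blk F (2 + 2 * t)) := by
  refine (burk_fw blk hF ht ht1).trans ?_
  refine mul_le_mul_of_nonneg_left ?_ (Real.exp_pos _).le
  refine (pa10_pm (fun m => dF blk F m) ht).trans ?_
  refine mul_le_mul_of_nonneg_left ?_ (Real.rpow_nonneg (Nat.cast_nonneg _) _)
  refine Finset.sum_le_sum fun m _ => ?_
  exact Ex_abs_av_rpow (by linarith) _ _

theorem gain_bw {R : ℕ} (blk : Fin R → Finset ι) {F : (ι → α) → ℝ} (hF : Dep (U blk univ) F)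
    {t : ℝ} (ht : 0 < t) (ht1 : t ≤ 1 / 100)
    (hH : (1 - t) * ((R : ℝ) ^ t * aS blk F (2 + 2 * t)) < bS F (2 + 2 * t)) :
    (1 - 13 * t) * aS blk F (2 + 2 * t) ≤ ∑ m, Ex (fun ω => |dB blk F m ω| ^ (2 + 2 * t)) := by
  rcases Nat.eq_zero_or_pos R with hR | hR
  · subst hR
    simp [aS]
  set a := aS blk F (2 + 2 * t) with ha
  set s := ∑ m, Ex (fun ω => |dB blk F m ω| ^ (2 + 2 * t)) with hs
  have ha0 : 0 ≤ a := Finset.sum_nonneg fun m _ =>
    Ex_nonneg fun ω => Real.rpow_nonneg (abs_nonneg _) _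
  have h1 := burk_bw blk hF ht (by linarith)
  have h2 := pa10_pm (fun m => dB blk F m) ht
  have hRt : 0 < (R : ℝ) ^ t := Real.rpow_pos_of_pos (by exact_mod_cast hR) _
  have h3 : (1 - t) * ((R : ℝ) ^ t * a) ≤ Real.exp (12 * t) * ((R : ℝ) ^ t * s) :=
    hH.le.trans (h1.trans (mul_le_mul_of_nonneg_left h2 (Real.exp_pos _).le))
  have h4 : (1 - t) * a ≤ Real.exp (12 * t) * s := by
    have h5 : (R : ℝ) ^ t * ((1 - t) * a) ≤ (R : ℝ) ^ t * (Real.exp (12 * t) * s) := by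
      calc (R : ℝ) ^ t * ((1 - t) * a) = (1 - t) * ((R : ℝ) ^ t * a) := by ring
        _ ≤ Real.exp (12 * t) * ((R : ℝ) ^ t * s) := h3
        _ = (R : ℝ) ^ t * (Real.exp (12 * t) * s) := by ring
    exact le_of_mul_le_mul_left h5 hRt
  have h6 : 1 - 12 * t ≤ Real.exp (-(12 * t)) := by
    have := Real.add_one_le_exp (-(12 * t))
    linarith
  have h7 : Real.exp (-(12 * t)) * ((1 - t) * a) ≤ s := by
    have h8 := mul_le_mul_of_nonneg_left h4 (Real.exp_pos (-(12 * t))).le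
    rw [← mul_assoc (Real.exp (-(12 * t))) (Real.exp (12 * t)), ← Real.exp_add, neg_add_cancel,
      Real.exp_zero, one_mul] at h8
    exact h8
  have h9 : (1 - 12 * t) * ((1 - t) * a) ≤ Real.exp (-(12 * t)) * ((1 - t) * a) :=
    mul_le_mul_of_nonneg_right h6 (mul_nonneg (by linarith) ha0)
  have h10 : (1 - 13 * t) * a ≤ (1 - 12 * t) * ((1 - t) * a) := by
    nlinarith [mul_nonneg (mul_nonneg ht.le ht.le) ha0]
  linarith

end

end Pool.FPA
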