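import Pool.Agent.FPZ.PA10

/-!
Module PA10b (45 min): see the header of `PA10.lean` (`near_fw` ... `near_sum`).
-/

set_option autoImplicit false

noncomputable section

namespace Pool.FPA

open Finset Pool.FPP

section

variable {ι α : Type*} [Fintype ι] [DecidableEq ι] [Fintype α] [Nonempty α]

theorem phi_dep {W A : Finset ι} (hA : A ⊆ W) {F : (ι → α) → ℝ} (hF : Dep W F) :
    Dep A (phi W A F) := by
  have h1 : Dep W (fun ω => F ω - av A F ω) := by
    intro ω ω' h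
    have h2 := Dep_mono (sdiff_subset (s := W) (t := A)) (Dep_av (A := A) hF) ω ω' h
    show F ω - av A F ω = F ω' - av A F ω'
    rw [hF ω ω' h, h2]
  have h3 := Dep_av (A := W \ A) h1
  rw [Finset.sdiff_sdiff_eq_self hA] at h3
  exact h3

theorem phi_mean (W A : Finset ι) (F : (ι → α) → ℝ) : Ex (phi W A F) = 0 := by
  unfold phi
  rw [Ex_av, Ex_sub]
  have h := Ex_av A F
  rw [show (Ex fun x => av A F x) = Ex F from h, sub_self]

omit [Fintype ι] in
theorem pab_sdiff {R : ℕ} {blk : Fin R → Finset ι} (hd : Pairwise fun i j => Disjoint (blk i) (blk j))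
    (m : Fin R) : U blk univ \ blk m = U blk (lo R m) ∪ U blk (hi R (m + 1)) := by
  ext i
  unfold U lo hi
  simp only [mem_sdiff, mem_biUnion, mem_union, mem_filter, mem_univ, true_and]
  constructor
  · rintro ⟨⟨j, hj⟩, hm⟩
    have hne : j ≠ m := by
      rintro rfl
      exact hm hj
    rcases lt_or_gt_of_ne hne with h | h
    · exact Or.inl ⟨j, h, hj⟩
    · exact Or.inr ⟨j, h, hj⟩
  · rintro (⟨j, hj, hi⟩ | ⟨j, hj, hi⟩)
    · refine ⟨⟨j, hi⟩, fun hm => ?_⟩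
      have hne : j ≠ m := by
        rintro rfl
        exact lt_irrefl _ hj
      exact (Finset.disjoint_left.mp (hd hne)) hi hm
    · refine ⟨⟨j, hi⟩, fun hm => ?_⟩
      have hne : j ≠ m := by
        rintro rfl
        omega
      exact (Finset.disjoint_left.mp (hd hne)) hi hm

theorem phi_eq_fw {R : ℕ} {blk : Fin R → Finset ι} (hd : Pairwise fun i j => Disjoint (blk i) (blk j))
    (F : (ι → α) → ℝ) (m : Fin R) :
    phi (U blk univ) (blk m) F = av (U blk (lo R m)) (dF blk F m) := by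
  unfold phi dF
  rw [av_av, pab_sdiff hd]

theorem phi_eq_bw {R : ℕ} {blk : Fin R → Finset ι} (hd : Pairwise fun i j => Disjoint (blk i) (blk j))
    (F : (ι → α) → ℝ) (m : Fin R) :
    phi (U blk univ) (blk m) F = av (U blk (hi R (m + 1))) (dB blk F m) := by
  unfold phi dB
  rw [av_av, pab_sdiff hd, union_comm]

theorem phi_le {R : ℕ} {blk : Fin R → Finset ι} (hd : Pairwise fun i j => Disjoint (blk i) (blk j))
    (F : (ι → α) → ℝ) (m : Fin R) {p : ℝ} (hp : 1 ≤ p) :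
    Ex (fun ω => |phi (U blk univ) (blk m) F ω| ^ p) ≤
      Ex (fun ω => |F ω - av (blk m) F ω| ^ p) := by
  unfold phi
  exact Ex_abs_av_rpow hp _ _

/-- `∑ E φ^2 ≤ E X` -/
theorem phi_sq_le {R : ℕ} {blk : Fin R → Finset ι} (hd : Pairwise fun i j => Disjoint (blk i) (blk j))
    (F : (ι → α) → ℝ) :
    ∑ m, Ex (fun ω => phi (U blk univ) (blk m) F ω ^ 2) ≤ Ex (XF blk F) := by
  have h : Ex (XF blk F) = ∑ m, Ex (fun ω => dF blk F m ω ^ 2) := by
    unfold XF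
    exact Ex_sum univ (fun m ω => dF blk F m ω ^ 2)
  rw [h]
  refine sum_le_sum fun m _ => ?_
  rw [phi_eq_fw hd]
  exact Ex_sq_av_le _ _

/-- difference of the forward difference and the projection -/
theorem pab_diff {R : ℕ} {blk : Fin R → Finset ι} (hd : Pairwise fun i j => Disjoint (blk i) (blk j))
    (F : (ι → α) → ℝ) (m : Fin R) (ω : ι → α) :
    dF blk F m ω - phi (U blk univ) (blk m) F ω =
      av (U blk (hi R (m + 1))) (fun ω => (F ω - av (blk m) F ω) - dB blk F m ω) ω := by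
  rw [phi_eq_bw hd, av_sub]
  rfl

theorem near_phi {R : ℕ} {blk : Fin R → Finset ι} (hd : Pairwise fun i j => Disjoint (blk i) (blk j))
    {F : (ι → α) → ℝ} (hF : Dep (U blk univ) F) {t : ℝ} (ht : 0 < t) (ht1 : t ≤ 1 / 100)
    (hH : (1 - t) * ((R : ℝ) ^ t * aS blk F (2 + 2 * t)) < bS F (2 + 2 * t)) :
    ∑ m, Ex (fun ω => |dF blk F m ω - phi (U blk univ) (blk m) F ω| ^ (2 + 2 * t)) ≤
      52 * t * aS blk F (2 + 2 * t) := by
  have hp : (2 : ℝ) ≤ 2 + 2 * t := by linarith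
  have hp1 : (1 : ℝ) ≤ 2 + 2 * t := by linarith
  have hp3 : 2 + 2 * t ≤ (3 : ℝ) := by linarith
  have h1 : ∀ m : Fin R, Ex (fun ω => |dF blk F m ω - phi (U blk univ) (blk m) F ω| ^ (2 + 2 * t)) ≤
      4 * (Ex (fun ω => |F ω - av (blk m) F ω| ^ (2 + 2 * t)) -
        Ex (fun ω => |dB blk F m ω| ^ (2 + 2 * t))) := by
    intro m
    have h2 : (fun ω => |dF blk F m ω - phi (U blk univ) (blk m) F ω| ^ (2 + 2 * t)) =
        (fun ω => |av (U blk (hi R (m + 1)))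
          (fun ω => (F ω - av (blk m) F ω) - dB blk F m ω) ω| ^ (2 + 2 * t)) := by
      funext ω
      rw [pab_diff hd]
    rw [h2]
    refine le_trans (Ex_abs_av_rpow hp1 _ _) ?_
    exact unif_conv' hp hp3 (U blk (lo R m)) (fun ω => F ω - av (blk m) F ω)
  have h3 := gain_bw blk hF ht ht1 hH
  calc ∑ m, Ex (fun ω => |dF blk F m ω - phi (U blk univ) (blk m) F ω| ^ (2 + 2 * t))
      ≤ ∑ m, 4 * (Ex (fun ω => |F ω - av (blk m) F ω| ^ (2 + 2 * t)) -
        Ex (fun ω => |dB blk F m ω| ^ (2 + 2 * t))) := sum_le_sum fun m _ => h1 m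
    _ = 4 * (aS blk F (2 + 2 * t) - ∑ m, Ex (fun ω => |dB blk F m ω| ^ (2 + 2 * t))) := by
      rw [← mul_sum, sum_sub_distrib]
      rfl
    _ ≤ 52 * t * aS blk F (2 + 2 * t) := by nlinarith

theorem near_sum {R : ℕ} {blk : Fin R → Finset ι} (hd : Pairwise fun i j => Disjoint (blk i) (blk j))
    {F : (ι → α) → ℝ} (hF : Dep (U blk univ) F) {t : ℝ} (ht : 0 < t) (ht1 : t ≤ 1 / 100)
    (hH : (1 - t) * ((R : ℝ) ^ t * aS blk F (2 + 2 * t)) < bS F (2 + 2 * t)) :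
    Ex (fun ω => |F ω - Ex F - ∑ m, phi (U blk univ) (blk m) F ω| ^ (2 + 2 * t)) ≤
      (R : ℝ) ^ 2 * (52 * t * aS blk F (2 + 2 * t)) := by
  have hp1 : (1 : ℝ) ≤ 2 + 2 * t := by linarith
  have hsum : ∀ ω, F ω - Ex F = ∑ m, dF blk F m ω := by
    intro ω
    have h1 := sum_Dg (fw blk) F R ω
    rw [fw_last, fw_zero, av_empty, av_of_Dep hF] at h1
    rw [← h1, ← Fin.sum_univ_eq_sum_range (fun k => Dg (fw blk) F k ω) R]
    exact sum_congr rfl fun m _ => Dg_fw blk F m ω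
  have hRp : (R : ℝ) ^ (2 + 2 * t - 1) ≤ (R : ℝ) ^ 2 := by
    rcases Nat.eq_zero_or_pos R with h | h
    · rw [h, Nat.cast_zero, Real.zero_rpow (by linarith)]
      norm_num
    · have h1 : (1 : ℝ) ≤ R := by exact_mod_cast h
      rw [← Real.rpow_natCast (R : ℝ) 2]
      apply Real.rpow_le_rpow_of_exponent_le h1
      push_cast
      linarith
  have hpt : ∀ ω, |F ω - Ex F - ∑ m, phi (U blk univ) (blk m) F ω| ^ (2 + 2 * t) ≤
      (R : ℝ) ^ 2 * ∑ m, |dF blk F m ω - phi (U blk univ) (blk m) F ω| ^ (2 + 2 * t) := by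
    intro ω
    rw [hsum, ← sum_sub_distrib]
    have h1 := abs_sum_rpow_le (2 + 2 * t) hp1 univ
      (fun m => dF blk F m ω - phi (U blk univ) (blk m) F ω)
    rw [card_univ, Fintype.card_fin] at h1
    refine le_trans h1 (mul_le_mul_of_nonneg_right hRp ?_)
    exact sum_nonneg fun m _ => Real.rpow_nonneg (abs_nonneg _) _
  refine le_trans (Ex_mono hpt) ?_
  rw [Ex_mul_left, Ex_sum univ (fun m ω => |dF blk F m ω - phi (U blk univ) (blk m) F ω| ^ (2 + 2 * t))]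
  exact mul_le_mul_of_nonneg_left (near_phi hd hF ht ht1 hH) (by positivity)

theorem pab_exp {t : ℝ} (ht : 0 < t) (ht1 : t ≤ 1 / 100) :
    Real.exp (12 * t) ≤ (1 + 20 * t) * (1 - t) := by
  have h1 : |12 * t| ≤ 1 := by
    rw [abs_of_nonneg (by linarith)]
    linarith
  have h2 := Real.abs_exp_sub_one_sub_id_le h1
  have h3 := le_abs_self (Real.exp (12 * t) - 1 - 12 * t)
  nlinarith

theorem pab_X_nonneg {R : ℕ} (blk : Fin R → Finset ι) (F : (ι → α) → ℝ) (ω : ι → α) :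
    0 ≤ XF blk F ω := sum_nonneg fun _ _ => sq_nonneg _

theorem pab_sq_rpow (x t : ℝ) : (x ^ 2) ^ (1 + t) = |x| ^ (2 + 2 * t) := by
  rw [← sq_abs x, ← Real.rpow_natCast |x| 2, ← Real.rpow_mul (abs_nonneg x)]
  congr 1
  push_cast
  ring

theorem pab_aS {R : ℕ} {blk : Fin R → Finset ι} {F : (ι → α) → ℝ}
    (hF : Dep (U blk univ) F) {t : ℝ} (ht : 0 < t) (ht1 : t ≤ 1 / 100)
    (hH : (1 - t) * ((R : ℝ) ^ t * aS blk F (2 + 2 * t)) < bS F (2 + 2 * t)) :
    (R : ℝ) ^ t * aS blk F (2 + 2 * t) ≤ (1 + 20 * t) * Ex (fun ω => XF blk F ω ^ (1 + t)) := by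
  have h1 := burk_fw blk hF ht (by linarith)
  have h2 : 0 ≤ Ex (fun ω => XF blk F ω ^ (1 + t)) :=
    Ex_nonneg fun ω => Real.rpow_nonneg (pab_X_nonneg _ _ _) _
  have h3 := mul_le_mul_of_nonneg_right (pab_exp ht ht1) h2
  have h4 : 0 < 1 - t := by linarith
  have h5 : (1 - t) * ((R : ℝ) ^ t * aS blk F (2 + 2 * t)) ≤
      (1 - t) * ((1 + 20 * t) * Ex (fun ω => XF blk F ω ^ (1 + t))) := by
    calc (1 - t) * ((R : ℝ) ^ t * aS blk F (2 + 2 * t)) ≤ bS F (2 + 2 * t) := hH.le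
      _ ≤ Real.exp (12 * t) * Ex (fun ω => XF blk F ω ^ (1 + t)) := h1
      _ ≤ (1 + 20 * t) * (1 - t) * Ex (fun ω => XF blk F ω ^ (1 + t)) := h3
      _ = (1 - t) * ((1 + 20 * t) * Ex (fun ω => XF blk F ω ^ (1 + t))) := by ring
  exact le_of_mul_le_mul_left h5 h4

/-- the deficit: the bad event has weight at most 1/4 -/
theorem bad_quarter {R : ℕ} {blk : Fin R → Finset ι} {F : (ι → α) → ℝ}
    (hF : Dep (U blk univ) F) {t : ℝ} (ht : 0 < t) (ht1 : t ≤ 1 / 100)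
    (hH : (1 - t) * ((R : ℝ) ^ t * aS blk F (2 + 2 * t)) < bS F (2 + 2 * t)) :
    Ex (fun ω => XF blk F ω ^ (1 + t) *
        ind (((univ.filter fun m => XF blk F ω / (2 * R) ≤ dF blk F m ω ^ 2).card : ℝ) < cA * R)) ≤
      1 / 4 * Ex (fun ω => XF blk F ω ^ (1 + t)) := by
  obtain ⟨I, hI⟩ : ∃ I : (ι → α) → ℝ, I = fun ω => XF blk F ω ^ (1 + t) *
        ind (((univ.filter fun m => XF blk F ω / (2 * R) ≤ dF blk F m ω ^ 2).card : ℝ) < cA * R) :=
    ⟨_, rfl⟩
  have hpt : ∀ ω, XF blk F ω ^ (1 + t) + 80 * t * I ω ≤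
      (R : ℝ) ^ t * ∑ m, |dF blk F m ω| ^ (2 + 2 * t) := by
    intro ω
    have hX : XF blk F ω = ∑ m, dF blk F m ω ^ 2 := rfl
    have h0 : ∑ m, |dF blk F m ω| ^ (2 + 2 * t) = ∑ m, (dF blk F m ω ^ 2) ^ (1 + t) :=
      sum_congr rfl fun m _ => (pab_sq_rpow _ _).symm
    rw [h0, hI]
    by_cases hbad : (((univ.filter fun m => XF blk F ω / (2 * R) ≤ dF blk F m ω ^ 2).card : ℝ) <
        cA * R)
    · have h1 := pm_deficit (fun m => dF blk F m ω ^ 2) (fun m => sq_nonneg _) ht.le hbad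
      show XF blk F ω ^ (1 + t) + 80 * t * (XF blk F ω ^ (1 + t) * ind _) ≤ _
      rw [ind_of hbad, mul_one, hX]
      refine le_trans (le_of_eq ?_) h1
      ring
    · have h1 := pm_le (fun m => dF blk F m ω ^ 2) (fun m => sq_nonneg _) ht.le
      show XF blk F ω ^ (1 + t) + 80 * t * (XF blk F ω ^ (1 + t) * ind _) ≤ _
      rw [ind_of_not hbad, mul_zero, mul_zero, add_zero, hX]
      exact h1
  have hav := Ex_mono hpt
  rw [Ex_add, Ex_mul_left, Ex_mul_left, Ex_sum univ (fun m ω => |dF blk F m ω| ^ (2 + 2 * t))] at hav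
  have hle : ∑ m, Ex (fun ω => |dF blk F m ω| ^ (2 + 2 * t)) ≤ aS blk F (2 + 2 * t) := by
    unfold aS
    refine sum_le_sum fun m _ => ?_
    unfold dF
    exact Ex_abs_av_rpow (by linarith) _ _
  have h2 := pab_aS hF ht ht1 hH
  have h3 : (R : ℝ) ^ t * ∑ m, Ex (fun ω => |dF blk F m ω| ^ (2 + 2 * t)) ≤
      (R : ℝ) ^ t * aS blk F (2 + 2 * t) :=
    mul_le_mul_of_nonneg_left hle (Real.rpow_nonneg (Nat.cast_nonneg _) _)
  have h4 : 80 * t * Ex (fun x => I x) ≤ 20 * t * Ex (fun ω => XF blk F ω ^ (1 + t)) := by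
    nlinarith
  have h5 : Ex (fun x => I x) ≤ 1 / 4 * Ex (fun ω => XF blk F ω ^ (1 + t)) := by
    have h6 : (80 * t) * Ex (fun x => I x) ≤
        (80 * t) * (1 / 4 * Ex (fun ω => XF blk F ω ^ (1 + t))) := by
      refine le_trans h4 (le_of_eq ?_)
      ring
    exact le_of_mul_le_mul_left h6 (by positivity)
  rw [hI] at h5
  exact h5

/-- the approximation error is small on most of the mass -/
theorem app_small {R : ℕ} {blk : Fin R → Finset ι} (hd : Pairwise fun i j => Disjoint (blk i) (blk j))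
    {F : (ι → α) → ℝ} (hF : Dep (U blk univ) F) {t : ℝ} (ht : 0 < t)
    (ht1 : t ≤ 1 / (500000 * (R : ℝ) ^ 2)) (ht2 : t ≤ 1 / 100) (hR : 1 ≤ R)
    (hH : (1 - t) * ((R : ℝ) ^ t * aS blk F (2 + 2 * t)) < bS F (2 + 2 * t)) :
    Ex (fun ω => XF blk F ω ^ (1 + t) *
        ind (∃ m, XF blk F ω / (8 * R) < (dF blk F m ω - phi (U blk univ) (blk m) F ω) ^ 2)) ≤
      1 / 64 * Ex (fun ω => XF blk F ω ^ (1 + t)) := by
  have hR1 : (1 : ℝ) ≤ R := by exact_mod_cast hR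
  have hR0 : (0 : ℝ) < R := by linarith
  have hE : 0 ≤ Ex (fun ω => XF blk F ω ^ (1 + t)) :=
    Ex_nonneg fun ω => Real.rpow_nonneg (pab_X_nonneg _ _ _) _
  have h8 : (8 * (R : ℝ)) ^ (1 + t) ≤ 64 * (R : ℝ) ^ 2 := by
    have h1 : (8 * (R : ℝ)) ^ (1 + t) ≤ (8 * (R : ℝ)) ^ (2 : ℝ) := by
      apply Real.rpow_le_rpow_of_exponent_le (by linarith)
      linarith
    refine le_trans h1 (le_of_eq ?_)
    rw [show (2 : ℝ) = ((2 : ℕ) : ℝ) by norm_num, Real.rpow_natCast]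
    push_cast
    ring
  have hpt : ∀ ω, XF blk F ω ^ (1 + t) *
        ind (∃ m, XF blk F ω / (8 * R) < (dF blk F m ω - phi (U blk univ) (blk m) F ω) ^ 2) ≤
      64 * (R : ℝ) ^ 2 * ∑ m, |dF blk F m ω - phi (U blk univ) (blk m) F ω| ^ (2 + 2 * t) := by
    intro ω
    have hS : 0 ≤ ∑ m, |dF blk F m ω - phi (U blk univ) (blk m) F ω| ^ (2 + 2 * t) :=
      sum_nonneg fun m _ => Real.rpow_nonneg (abs_nonneg _) _
    by_cases hb : ∃ m, XF blk F ω / (8 * R) < (dF blk F m ω - phi (U blk univ) (blk m) F ω) ^ 2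
    · rw [ind_of hb, mul_one]
      obtain ⟨m, hm⟩ := hb
      have h1 : XF blk F ω ≤ 8 * R * (dF blk F m ω - phi (U blk univ) (blk m) F ω) ^ 2 := by
        rw [div_lt_iff₀ (by positivity)] at hm
        linarith
      calc XF blk F ω ^ (1 + t)
          ≤ (8 * R * (dF blk F m ω - phi (U blk univ) (blk m) F ω) ^ 2) ^ (1 + t) :=
            Real.rpow_le_rpow (pab_X_nonneg _ _ _) h1 (by linarith)
        _ = (8 * (R : ℝ)) ^ (1 + t) * |dF blk F m ω - phi (U blk univ) (blk m) F ω| ^ (2 + 2 * t) := by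
            rw [Real.mul_rpow (by positivity) (sq_nonneg _), pab_sq_rpow]
        _ ≤ 64 * (R : ℝ) ^ 2 * |dF blk F m ω - phi (U blk univ) (blk m) F ω| ^ (2 + 2 * t) :=
            mul_le_mul_of_nonneg_right h8 (Real.rpow_nonneg (abs_nonneg _) _)
        _ ≤ _ := by
            apply mul_le_mul_of_nonneg_left _ (by positivity)
            exact single_le_sum
              (f := fun m => |dF blk F m ω - phi (U blk univ) (blk m) F ω| ^ (2 + 2 * t))
              (fun m _ => Real.rpow_nonneg (abs_nonneg _) _) (mem_univ m)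
    · rw [ind_of_not hb, mul_zero]
      positivity
  have hav := Ex_mono hpt
  rw [Ex_mul_left, Ex_sum univ
    (fun m ω => |dF blk F m ω - phi (U blk univ) (blk m) F ω| ^ (2 + 2 * t))] at hav
  have h2 := near_phi hd hF ht ht2 hH
  have h3 := pab_aS hF ht ht2 hH
  have haS : 0 ≤ aS blk F (2 + 2 * t) := by
    unfold aS
    exact sum_nonneg fun m _ => Ex_nonneg fun ω => Real.rpow_nonneg (abs_nonneg _) _
  have h4 : aS blk F (2 + 2 * t) ≤ (R : ℝ) ^ t * aS blk F (2 + 2 * t) := by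
    have h5 : (1 : ℝ) ≤ (R : ℝ) ^ t := Real.one_le_rpow hR1 ht.le
    nlinarith
  have h5 : aS blk F (2 + 2 * t) ≤ 1.2 * Ex (fun ω => XF blk F ω ^ (1 + t)) := by
    refine le_trans (le_trans h4 h3) (mul_le_mul_of_nonneg_right ?_ hE)
    linarith
  have h6 : t * (R : ℝ) ^ 2 ≤ 1 / 500000 := by
    have h7 := mul_le_mul_of_nonneg_right ht1 (sq_nonneg (R : ℝ))
    refine le_trans h7 (le_of_eq ?_)
    field_simp
  calc Ex (fun ω => XF blk F ω ^ (1 + t) *
        ind (∃ m, XF blk F ω / (8 * R) < (dF blk F m ω - phi (U blk univ) (blk m) F ω) ^ 2))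
      ≤ 64 * (R : ℝ) ^ 2 * ∑ m, Ex (fun ω => |dF blk F m ω - phi (U blk univ) (blk m) F ω| ^
          (2 + 2 * t)) := hav
    _ ≤ 64 * (R : ℝ) ^ 2 * (52 * t * aS blk F (2 + 2 * t)) :=
        mul_le_mul_of_nonneg_left h2 (by positivity)
    _ ≤ 64 * (R : ℝ) ^ 2 * (52 * t * (1.2 * Ex (fun ω => XF blk F ω ^ (1 + t)))) := by
        apply mul_le_mul_of_nonneg_left _ (by positivity)
        exact mul_le_mul_of_nonneg_left h5 (by positivity)
    _ = (t * (R : ℝ) ^ 2) * (3993.6 * Ex (fun ω => XF blk F ω ^ (1 + t))) := by ring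
    _ ≤ 1 / 500000 * (3993.6 * Ex (fun ω => XF blk F ω ^ (1 + t))) :=
        mul_le_mul_of_nonneg_right h6 (by positivity)
    _ ≤ 1 / 64 * Ex (fun ω => XF blk F ω ^ (1 + t)) := by nlinarith

end

end Pool.FPA
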