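import Pool.Agent.FPZ.PA1

/-!
Module PA11 (30 min): independence of functions of disjoint blocks.
* `Ex_mul_indep`: `Ex (f * g) = Ex (av A (f * g)) = Ex (g * av A f)` as `g` is `Off A`
  (`Off_of_Dep`), and `av A f = Ex f` (`av_of_Dep`).
* `Ex_prod_indep`: induction on `S`; the product over `S` depends only on `U blk S`.
* `Ex_prod_exp`: `Ex ∏ (1 + l g_k) = ∏ (1 + l Ex g_k) ≤ exp (l ∑ Ex g_k)` (`Real.add_one_le_exp`).
-/

set_option autoImplicit false

noncomputable section

namespace Pool.FPA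

open Finset Pool.FPP

section

variable {ι α : Type*} [Fintype ι] [DecidableEq ι] [Fintype α] [Nonempty α]

theorem Ex_mul_indep {A B : Finset ι} (hAB : Disjoint A B) {f g : (ι → α) → ℝ} (hf : Dep A f)
    (hg : Dep B g) : Ex (fun ω => f ω * g ω) = Ex f * Ex g := by
  have h1 := Ex_mul_av (Off_of_Dep hAB hg) f
  have h2 : (fun ω => f ω * g ω) = fun ω => g ω * f ω := funext fun ω => mul_comm _ _
  rw [h2, ← h1]
  have h3 : (fun ω => g ω * av A f ω) = fun ω => g ω * Ex f :=
    funext fun ω => by rw [av_of_Dep hf]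
  rw [h3, Ex_mul_right, mul_comm]

theorem Ex_prod_indep {κ : Type*} [DecidableEq κ] {blk : κ → Finset ι}
    (hd : Pairwise fun i j => Disjoint (blk i) (blk j)) {h : κ → (ι → α) → ℝ}
    (hh : ∀ k, Dep (blk k) (h k)) (S : Finset κ) :
    Ex (fun ω => ∏ k ∈ S, h k ω) = ∏ k ∈ S, Ex (h k) := by
  induction S using Finset.induction_on with
  | empty =>
    simp only [Finset.prod_empty]
    exact Ex_const 1
  | insert a s ha ih =>
    have h1 : (fun ω => ∏ k ∈ insert a s, h k ω) = fun ω => h a ω * ∏ k ∈ s, h k ω :=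
      funext fun ω => Finset.prod_insert ha
    rw [h1, Finset.prod_insert ha, ← ih]
    refine Ex_mul_indep (B := U blk s) ?_ (hh a) ?_
    · unfold U
      rw [Finset.disjoint_biUnion_right]
      intro i hi
      exact hd fun hai => ha (hai ▸ hi)
    · intro ω ω' hω
      refine Finset.prod_congr rfl fun k hk => hh k ω ω' fun i hi => hω i ?_
      exact Finset.mem_biUnion.2 ⟨k, hk, hi⟩

theorem Ex_prod_exp {κ : Type*} [DecidableEq κ] {blk : κ → Finset ι}
    (hd : Pairwise fun i j => Disjoint (blk i) (blk j)) {g : κ → (ι → α) → ℝ}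
    (hg : ∀ k, Dep (blk k) (g k)) (hg0 : ∀ k ω, 0 ≤ g k ω) {l : ℝ} (hl : 0 ≤ l) (S : Finset κ) :
    Ex (fun ω => ∏ k ∈ S, (1 + l * g k ω)) ≤ Real.exp (l * ∑ k ∈ S, Ex (g k)) := by
  have h1 := Ex_prod_indep hd (h := fun k ω => 1 + l * g k ω)
    (fun k ω ω' hω => by
      change 1 + l * g k ω = 1 + l * g k ω'
      rw [hg k ω ω' hω]) S
  rw [h1]
  have h2 : ∀ k ∈ S, Ex (fun ω => 1 + l * g k ω) = 1 + l * Ex (g k) := fun k _ => by
    rw [Ex_add, Ex_const, Ex_mul_left]
  rw [Finset.prod_congr rfl h2, Finset.mul_sum, Real.exp_sum]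
  refine Finset.prod_le_prod (fun k _ => ?_) fun k _ => ?_
  · have := mul_nonneg hl (Ex_nonneg (hg0 k))
    linarith
  · have := Real.add_one_le_exp (l * Ex (g k))
    linarith

end

end Pool.FPA
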