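import Pool.Agent.FPZ.PA9
import Pool.Agent.FPZ.PA11

/-!
Module PA12 (rows PA12a = `sel_count`, `sel_prod`, `sel_weight`, 45 min; PA12b = `sel_R0`,
`selection`, 60 min): selection of the scale `σ`.
Notation: `X = ∑ (d m)^2`, `E = Ex X^(1+t)`, `Xb = E^(1/(1+t))`, `σ^2 = Xb/(512 R)`, `x0 = 8 R σ^2 =
Xb/64`, `K = ⌈cA R⌉`, `θ = (1+t)/K`, `c2 = cA e^(-2) / 2`, `BB = 512/c2`, and
`g m = ind (σ^2 ≤ φ_m^2) (φ_m^2/σ^2)^θ`.
* `sel_count` (reals only): if `(d m - φ m)^2 ≤ X/(8R)` for all `m` and `d m ^2 ≥ X/(2R)` then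
  `|φ m| ≥ |d m| - |d m - φ m| ≥ √(X/(2R)) - √(X/(8R)) = √(X/(8R))`.
* `sel_prod` (reals only): if at least `K` indices have `φ m^2 ≥ X/(8R)`, and `X ≥ x0 = 8Rσ^2`, then
  for each of them `g m ≥ (X/x0)^θ`, and `∏ (1 + l g m) ≥ ∏ over K of them (l g m) ≥
  l^K (X/x0)^(θ K) = l^K (X/x0)^(1+t)`.
* `sel_weight`: for `Y ≥ 0`, `0 ≤ θ ≤ 1`, `B ≥ 1`: `Y^θ ≤ B^θ (1 + Y/B)` (cases `Y ≤ B`, `Y > B`), so
  `Ex (g m) ≤ BB^θ (Pr (σ ≤ |φ m|) + Ex (φ m^2)/(σ^2 BB))`.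
* `selection`: suppose `∑ Pr (σ ≤ |φ m|) < c2 R`. `∑ Ex (φ m)^2 ≤ Ex X ≤ Xb` (Jensen
  `Ex_rpow_le`), so `∑ Ex (φ m)^2/σ^2 ≤ 512 R` and `∑ Ex (g m) ≤ BB^θ 2 c2 R ≤ BB^θ e^(-2) K`.
  With `l = e^2 BB^(-θ)`: `Ex ∏ (1 + l g m) ≤ exp (l ∑ Ex g) ≤ e^K` (`Ex_prod_exp`), so with `G` =
  the event (`X ≥ x0`, not bad, good approximation):
  `Ex (X^(1+t); G) ≤ x0^(1+t) l^(-K) e^K = x0^(1+t) BB^(1+t) e^(-K) ≤ BB^2 e^(-K) E ≤ E/4`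
  (`x0^(1+t) = E/64^(1+t) ≤ E`). Also `Ex (X^(1+t); X < x0) ≤ x0^(1+t) ≤ E/64`. Total:
  `E ≤ E/4 + E/64 + E/64 + E/4`, contradiction.
-/

set_option autoImplicit false

noncomputable section

namespace Pool.FPA

open Finset Pool.FPP

/-- lower bound for the density of large `φ` -/
def cB : ℝ := cA * Real.exp (-2) / 2

/-- truncation level -/
def BB : ℝ := 512 / cB

theorem sel_count {R : ℕ} (hR : 1 ≤ R) (d φ : Fin R → ℝ) {X : ℝ} (hX : 0 ≤ X)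
    (happ : ∀ m, (d m - φ m) ^ 2 ≤ X / (8 * R)) (m : Fin R) (hm : X / (2 * R) ≤ d m ^ 2) :
    X / (8 * R) ≤ φ m ^ 2 := by
  have hR0 : (0 : ℝ) < R := by exact_mod_cast hR
  obtain ⟨a, ha⟩ : ∃ a, a = Real.sqrt (X / (8 * R)) := ⟨_, rfl⟩
  have ha0 : 0 ≤ a := by rw [ha]; exact Real.sqrt_nonneg _
  have hdiv : 0 ≤ X / (8 * R) := by positivity
  have ha2 : a ^ 2 = X / (8 * R) := by rw [ha, Real.sq_sqrt hdiv]
  have h4 : X / (2 * R) = (2 * a) ^ 2 := by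
    rw [mul_pow, ha2]
    field_simp
    ring
  have h1 : (2 * a) ^ 2 ≤ d m ^ 2 := by rw [← h4]; exact hm
  have h2 : (d m - φ m) ^ 2 ≤ a ^ 2 := by rw [ha2]; exact happ m
  rw [← ha2]
  have h1' : 2 * a ≤ |d m| := by
    have := sq_le_sq.mp h1
    rwa [abs_of_nonneg (by positivity : (0 : ℝ) ≤ 2 * a)] at this
  have h2' : |d m - φ m| ≤ a := by
    have := sq_le_sq.mp h2
    rwa [abs_of_nonneg ha0] at this
  apply sq_le_sq.mpr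
  rw [abs_of_nonneg ha0]
  have h3 := abs_sub_abs_le_abs_sub (d m) (φ m)
  linarith

theorem sel_prod {R : ℕ} (hR : 1 ≤ R) (φ : Fin R → ℝ) {X σ θ t l : ℝ} (hσ : 0 < σ)
    (hX : 8 * R * σ ^ 2 ≤ X) {K : ℕ} (hθ : θ * K = 1 + t) (hθ0 : 0 ≤ θ) (hl : 0 ≤ l)
    (hK : K ≤ (univ.filter fun m => X / (8 * R) ≤ φ m ^ 2).card) :
    l ^ K * (X / (8 * R * σ ^ 2)) ^ (1 + t) ≤
      ∏ m, (1 + l * (ind (σ ^ 2 ≤ φ m ^ 2) * (φ m ^ 2 / σ ^ 2) ^ θ)) := by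
  classical
  have hR0 : (0 : ℝ) < R := by exact_mod_cast hR
  have hσ2 : 0 < σ ^ 2 := by positivity
  have hx0 : 0 < 8 * R * σ ^ 2 := by positivity
  obtain ⟨T, hTS, hTc⟩ := Finset.exists_subset_card_eq hK
  have hA1 : (0 : ℝ) ≤ X / (8 * R * σ ^ 2) := div_nonneg (le_trans hx0.le hX) hx0.le
  have hterm0 : ∀ m, 0 ≤ l * (ind (σ ^ 2 ≤ φ m ^ 2) * (φ m ^ 2 / σ ^ 2) ^ θ) := fun m =>
    mul_nonneg hl (mul_nonneg (ind_nonneg _) (Real.rpow_nonneg (by positivity) _))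
  have hT : ∀ m ∈ T, l * (X / (8 * R * σ ^ 2)) ^ θ ≤
      1 + l * (ind (σ ^ 2 ≤ φ m ^ 2) * (φ m ^ 2 / σ ^ 2) ^ θ) := by
    intro m hm
    have h1 : X / (8 * R) ≤ φ m ^ 2 := (mem_filter.mp (hTS hm)).2
    have h2 : σ ^ 2 ≤ X / (8 * R) := by
      rw [le_div_iff₀ (by positivity)]
      linarith
    rw [ind_of (le_trans h2 h1), one_mul]
    have h3 : (X / (8 * R * σ ^ 2)) ^ θ ≤ (φ m ^ 2 / σ ^ 2) ^ θ := by
      apply Real.rpow_le_rpow hA1 _ hθ0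
      rw [← div_div]
      exact div_le_div_of_nonneg_right h1 hσ2.le
    have h4 := mul_le_mul_of_nonneg_left h3 hl
    linarith
  have h5 : l ^ K * (X / (8 * R * σ ^ 2)) ^ (1 + t) =
      ∏ m ∈ T, l * (X / (8 * R * σ ^ 2)) ^ θ := by
    rw [prod_const, hTc, mul_pow, ← Real.rpow_natCast ((X / (8 * R * σ ^ 2)) ^ θ),
      ← Real.rpow_mul hA1, hθ]
  rw [h5]
  calc ∏ m ∈ T, l * (X / (8 * R * σ ^ 2)) ^ θ
      ≤ ∏ m ∈ T, (1 + l * (ind (σ ^ 2 ≤ φ m ^ 2) * (φ m ^ 2 / σ ^ 2) ^ θ)) :=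
        prod_le_prod (fun m _ => mul_nonneg hl (Real.rpow_nonneg hA1 _)) hT
    _ ≤ ∏ m, (1 + l * (ind (σ ^ 2 ≤ φ m ^ 2) * (φ m ^ 2 / σ ^ 2) ^ θ)) := by
        apply prod_le_prod_of_subset_of_one_le (subset_univ T)
        · intro m _
          have := hterm0 m
          linarith
        · intro m _ _
          have := hterm0 m
          linarith

theorem sel_weight {Y θ B : ℝ} (hY : 0 ≤ Y) (hθ : 0 ≤ θ) (hθ1 : θ ≤ 1) (hB : 1 ≤ B) :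
    Y ^ θ ≤ B ^ θ * (1 + Y / B) := by
  have hB0 : 0 < B := lt_of_lt_of_le one_pos hB
  have hBθ : 0 ≤ B ^ θ := Real.rpow_nonneg hB0.le _
  rcases le_total Y B with h | h
  · calc Y ^ θ ≤ B ^ θ := Real.rpow_le_rpow hY h hθ
      _ = B ^ θ * 1 := (mul_one _).symm
      _ ≤ B ^ θ * (1 + Y / B) := by
        apply mul_le_mul_of_nonneg_left _ hBθ
        have : 0 ≤ Y / B := by positivity
        linarith
  · have h1 : 1 ≤ Y / B := by rwa [le_div_iff₀ hB0, one_mul]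
    calc Y ^ θ = B ^ θ * (Y / B) ^ θ := by
          rw [← Real.mul_rpow hB0.le (by positivity)]
          congr 1
          field_simp
      _ ≤ B ^ θ * (Y / B) ^ (1 : ℝ) :=
          mul_le_mul_of_nonneg_left (Real.rpow_le_rpow_of_exponent_le h1 hθ1) hBθ
      _ ≤ B ^ θ * (1 + Y / B) := by
        rw [Real.rpow_one]
        apply mul_le_mul_of_nonneg_left _ hBθ
        linarith

end Pool.FPA
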