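import Pool.Agent.FPZ.PA6
import Pool.Agent.FPZ.PA12

/-!
Module PA12b (60-75 min): see the header of `PA12.lean`.
-/

set_option autoImplicit false

noncomputable section

namespace Pool.FPA

open Finset Pool.FPP
open Pool.Agent.FPZ (Pr)

private theorem cA_pos' : 0 < cA := Real.exp_pos _

private theorem cA_le_one' : cA ≤ 1 := by
  unfold cA
  rw [Real.exp_le_one_iff]
  norm_num

private theorem cB_pos' : 0 < cB := by
  unfold cB
  have := cA_pos'
  positivity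

private theorem cB_le_one' : cB ≤ 1 := by
  unfold cB
  have h1 := cA_le_one'
  have h2 := cA_pos'
  have h3 : Real.exp (-2) ≤ 1 := by rw [Real.exp_le_one_iff]; norm_num
  have h4 := Real.exp_pos (-2)
  nlinarith

private theorem BB_ge' : 512 ≤ BB := by
  unfold BB
  rw [le_div_iff₀ cB_pos']
  nlinarith [cB_le_one', cB_pos']

/-- the threshold for the number of blocks -/
theorem sel_R0 : ∃ R0 : ℕ, 1 ≤ R0 ∧ ∀ R : ℕ, R0 ≤ R → ∀ K : ℕ, cA * R ≤ K →
    2 ≤ K ∧ BB ^ 2 * Real.exp (-(K : ℝ)) ≤ 1 / 4 := by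
  have hcA := cA_pos'
  have hBB : (0 : ℝ) < BB := by linarith [BB_ge']
  obtain ⟨N, hN⟩ := exists_nat_ge ((2 + |Real.log (4 * BB ^ 2)|) / cA)
  refine ⟨N + 1, by omega, fun R hR K hK => ?_⟩
  have h1 : (2 + |Real.log (4 * BB ^ 2)|) ≤ cA * R := by
    rw [div_le_iff₀ hcA] at hN
    have h2 : (N : ℝ) ≤ R := by exact_mod_cast (by omega : N ≤ R)
    nlinarith
  have h3 : 2 + |Real.log (4 * BB ^ 2)| ≤ (K : ℝ) := h1.trans hK
  have h4 : 0 ≤ |Real.log (4 * BB ^ 2)| := abs_nonneg _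
  constructor
  · have : (2 : ℝ) ≤ K := by linarith
    exact_mod_cast this
  · have h5 : Real.log (4 * BB ^ 2) ≤ K := by
      have := le_abs_self (Real.log (4 * BB ^ 2))
      linarith
    have h6 : 4 * BB ^ 2 ≤ Real.exp K := by
      rw [← Real.log_le_iff_le_exp (by positivity)]
      exact h5
    rw [Real.exp_neg]
    have h7 : 0 < Real.exp (K : ℝ) := Real.exp_pos _
    rw [← div_eq_mul_inv, div_le_iff₀ h7]
    linarith

theorem selection : ∃ R0 : ℕ, 1 ≤ R0 ∧ ∀ R : ℕ, R0 ≤ R → ∀ t : ℝ, 0 < t → t ≤ 1 / 100 →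
    ∀ (ι α : Type) [Fintype ι] [DecidableEq ι] [Fintype α] [Nonempty α]
      (blk : Fin R → Finset ι), (Pairwise fun i j => Disjoint (blk i) (blk j)) →
    ∀ (X : (ι → α) → ℝ) (d φ : Fin R → (ι → α) → ℝ), (∀ ω, X ω = ∑ m, d m ω ^ 2) →
      (∀ m, Dep (blk m) (φ m)) →
      0 < Ex (fun ω => X ω ^ (1 + t)) →
      Ex (fun ω => X ω ^ (1 + t) *
        ind (((univ.filter fun m => X ω / (2 * R) ≤ d m ω ^ 2).card : ℝ) < cA * R)) ≤
        1 / 4 * Ex (fun ω => X ω ^ (1 + t)) →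
      Ex (fun ω => X ω ^ (1 + t) * ind (∃ m, X ω / (8 * R) < (d m ω - φ m ω) ^ 2)) ≤
        1 / 64 * Ex (fun ω => X ω ^ (1 + t)) →
      ∑ m, Ex (fun ω => φ m ω ^ 2) ≤ Ex X →
      ∀ σ : ℝ, 0 < σ → σ ^ 2 = (Ex fun ω => X ω ^ (1 + t)) ^ (1 / (1 + t)) / (512 * R) →
      cB * R ≤ ∑ m, Pr (fun ω => σ ≤ |φ m ω|) := by
  obtain ⟨R0, hR0, hsel⟩ := sel_R0
  refine ⟨R0, hR0, ?_⟩
  intro R hR t ht0 ht1 ι α _ _ _ _ blk hblk X d φ hX hDep hE hfew hbad hsum σ hσ hσ2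
  by_contra hcon
  push Not at hcon
  have hR1 : 1 ≤ R := hR0.trans hR
  have hRr : (0 : ℝ) < R := by exact_mod_cast hR1
  have hcA := cA_pos'
  have hcB := cB_pos'
  have hBB := BB_ge'
  have hBB0 : (0 : ℝ) < BB := by linarith
  obtain ⟨K, hKdef⟩ : ∃ K : ℕ, K = ⌈cA * R⌉₊ := ⟨_, rfl⟩
  have hK : cA * R ≤ K := by rw [hKdef]; exact Nat.le_ceil _
  obtain ⟨hK2, hKe⟩ := hsel R hR K hK
  have hKr : (2 : ℝ) ≤ K := by exact_mod_cast hK2
  have hK0 : (0 : ℝ) < K := by linarith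
  obtain ⟨E, hEdef⟩ : ∃ E, E = Ex (fun ω => X ω ^ (1 + t)) := ⟨_, rfl⟩
  rw [← hEdef] at hE hfew hbad hσ2
  have hX0 : ∀ ω, 0 ≤ X ω := fun ω => by
    rw [hX]; exact Finset.sum_nonneg fun m _ => sq_nonneg _
  have ht1' : (0 : ℝ) < 1 + t := by linarith
  obtain ⟨Xb, hXb⟩ : ∃ Xb, Xb = E ^ (1 / (1 + t)) := ⟨_, rfl⟩
  rw [← hXb] at hσ2
  have hXb0 : 0 < Xb := by rw [hXb]; exact Real.rpow_pos_of_pos hE _
  have hXbE : Xb ^ (1 + t) = E := by
    rw [hXb, ← Real.rpow_mul hE.le, one_div_mul_cancel ht1'.ne', Real.rpow_one]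
  obtain ⟨x0, hx0⟩ : ∃ x0, x0 = 8 * R * σ ^ 2 := ⟨_, rfl⟩
  have hx0' : x0 = Xb / 64 := by rw [hx0, hσ2]; field_simp; ring
  have hx0p : 0 < x0 := by rw [hx0']; positivity
  have hx0E : x0 ^ (1 + t) ≤ E / 64 := by
    rw [hx0', Real.div_rpow hXb0.le (by norm_num), hXbE]
    apply div_le_div_of_nonneg_left hE.le (by norm_num)
    calc (64 : ℝ) = 64 ^ (1 : ℝ) := (Real.rpow_one _).symm
      _ ≤ 64 ^ (1 + t) := Real.rpow_le_rpow_of_exponent_le (by norm_num) (by linarith)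
  obtain ⟨θ, hθ⟩ : ∃ θ, θ = (1 + t) / K := ⟨_, rfl⟩
  have hθK : θ * K = 1 + t := by rw [hθ, div_mul_cancel₀ _ hK0.ne']
  have hθ0 : 0 ≤ θ := by rw [hθ]; positivity
  have hθ1 : θ ≤ 1 := by rw [hθ, div_le_one hK0]; linarith
  have hBθ : 0 < BB ^ θ := Real.rpow_pos_of_pos hBB0 _
  obtain ⟨l, hl⟩ : ∃ l, l = Real.exp 2 / BB ^ θ := ⟨_, rfl⟩
  have hl0 : 0 < l := by rw [hl]; positivity
  obtain ⟨g, hg⟩ : ∃ g : Fin R → (ι → α) → ℝ,
    g = fun m ω => ind (σ ^ 2 ≤ φ m ω ^ 2) * (φ m ω ^ 2 / σ ^ 2) ^ θ := ⟨_, rfl⟩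
  have hσ20 : 0 < σ ^ 2 := by positivity
  have hg0 : ∀ m ω, 0 ≤ g m ω := fun m ω => by
    rw [hg]
    exact mul_nonneg (ind_nonneg _) (Real.rpow_nonneg (by positivity) _)
  have hgD : ∀ m, Dep (blk m) (g m) := by
    intro m ω ω' h
    have := hDep m ω ω' h
    rw [hg]
    simp only [this]
  -- means of `g`
  have hgm : ∀ m, Ex (g m) ≤ BB ^ θ * (Pr (fun ω => σ ≤ |φ m ω|) +
      Ex (fun ω => φ m ω ^ 2) / (σ ^ 2 * BB)) := by
    intro m
    have h1 : ∀ ω, g m ω ≤ BB ^ θ * (ind (σ ≤ |φ m ω|) + φ m ω ^ 2 * (1 / (σ ^ 2 * BB))) := by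
      intro ω
      rw [hg]
      have h2 : ind (σ ^ 2 ≤ φ m ω ^ 2) = ind (σ ≤ |φ m ω|) := by
        have h3 : (σ ^ 2 ≤ φ m ω ^ 2) ↔ (σ ≤ |φ m ω|) := by
          rw [← sq_abs (φ m ω)]
          exact pow_le_pow_iff_left₀ hσ.le (abs_nonneg _) (by norm_num)
        unfold ind
        simp only [h3]
      simp only [h2]
      have h4 := sel_weight (Y := φ m ω ^ 2 / σ ^ 2) (θ := θ) (B := BB) (by positivity) hθ0 hθ1
        (by linarith)
      have h5 : 0 ≤ ind (σ ≤ |φ m ω|) := ind_nonneg _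
      have h6 : ind (σ ≤ |φ m ω|) ≤ 1 := ind_le_one _
      have h7 : 0 ≤ φ m ω ^ 2 / σ ^ 2 / BB := by positivity
      calc ind (σ ≤ |φ m ω|) * (φ m ω ^ 2 / σ ^ 2) ^ θ
          ≤ ind (σ ≤ |φ m ω|) * (BB ^ θ * (1 + φ m ω ^ 2 / σ ^ 2 / BB)) :=
            mul_le_mul_of_nonneg_left h4 h5
        _ = BB ^ θ * (ind (σ ≤ |φ m ω|) + ind (σ ≤ |φ m ω|) * (φ m ω ^ 2 / σ ^ 2 / BB)) := by
            ring
        _ ≤ BB ^ θ * (ind (σ ≤ |φ m ω|) + 1 * (φ m ω ^ 2 / σ ^ 2 / BB)) := by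
            apply mul_le_mul_of_nonneg_left _ hBθ.le
            have := mul_le_mul_of_nonneg_right h6 h7
            linarith
        _ = BB ^ θ * (ind (σ ≤ |φ m ω|) + φ m ω ^ 2 * (1 / (σ ^ 2 * BB))) := by
            congr 2
            field_simp
    refine (Ex_mono h1).trans ?_
    rw [Ex_mul_left, Ex_add, Ex_mul_right, ← Pr_eq]
    apply le_of_eq
    ring
  have hXle : Ex X ≤ Xb := by
    have h1 := Ex_rpow_le (p := 1 + t) (by linarith) X hX0
    rw [← hEdef, ← hXbE] at h1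
    exact (Real.rpow_le_rpow_iff (Ex_nonneg hX0) hXb0.le ht1').1 h1
  have hsumg : ∑ m, Ex (g m) ≤ BB ^ θ * (Real.exp (-2) * K) := by
    calc ∑ m, Ex (g m) ≤ ∑ m, BB ^ θ * (Pr (fun ω => σ ≤ |φ m ω|) +
          Ex (fun ω => φ m ω ^ 2) / (σ ^ 2 * BB)) := Finset.sum_le_sum fun m _ => hgm m
      _ = BB ^ θ * (∑ m, Pr (fun ω => σ ≤ |φ m ω|) +
          (∑ m, Ex (fun ω => φ m ω ^ 2)) / (σ ^ 2 * BB)) := by
          rw [← Finset.mul_sum, Finset.sum_add_distrib, Finset.sum_div]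
      _ ≤ BB ^ θ * (cB * R + cB * R) := by
          apply mul_le_mul_of_nonneg_left _ hBθ.le
          have h1 : (∑ m, Ex (fun ω => φ m ω ^ 2)) / (σ ^ 2 * BB) ≤ cB * R := by
            rw [div_le_iff₀ (by positivity)]
            have h2 : cB * R * (σ ^ 2 * BB) = Xb := by
              rw [hσ2]
              unfold BB
              field_simp
            rw [h2]
            exact hsum.trans hXle
          linarith
      _ ≤ BB ^ θ * (Real.exp (-2) * K) := by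
          apply mul_le_mul_of_nonneg_left _ hBθ.le
          have h1 : cB * R + cB * R = Real.exp (-2) * (cA * R) := by unfold cB; ring
          rw [h1]
          exact mul_le_mul_of_nonneg_left hK (Real.exp_pos _).le
  have hprod : Ex (fun ω => ∏ m, (1 + l * g m ω)) ≤ Real.exp K := by
    refine (Ex_prod_exp hblk hgD hg0 hl0.le univ).trans ?_
    rw [Real.exp_le_exp]
    calc l * ∑ m, Ex (g m) ≤ l * (BB ^ θ * (Real.exp (-2) * K)) :=
          mul_le_mul_of_nonneg_left hsumg hl0.le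
      _ = (Real.exp 2 * Real.exp (-2)) * K := by
          rw [hl]; field_simp
      _ = K := by rw [← Real.exp_add]; norm_num
  -- the good event
  have hlK : (l ^ K)⁻¹ = Real.exp (-(2 * K : ℝ)) * BB ^ (1 + t) := by
    have h1 : (BB ^ θ) ^ K = BB ^ (1 + t) := by
      rw [← Real.rpow_natCast (BB ^ θ), ← Real.rpow_mul hBB0.le, hθK]
    have h2 : (Real.exp 2) ^ K = Real.exp (2 * K) := by
      rw [← Real.exp_nat_mul]
      congr 1
      ring
    rw [hl, div_pow, h1, h2, inv_div, Real.exp_neg]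
    field_simp
  obtain ⟨C, hC⟩ : ∃ C, C = x0 ^ (1 + t) * (l ^ K)⁻¹ := ⟨_, rfl⟩
  have hC0 : 0 ≤ C := by
    rw [hC]
    exact mul_nonneg (Real.rpow_nonneg hx0p.le _) (by positivity)
  have hpt : ∀ ω, X ω ^ (1 + t) ≤
      X ω ^ (1 + t) * ind (((univ.filter fun m => X ω / (2 * R) ≤ d m ω ^ 2).card : ℝ) < cA * R) +
      X ω ^ (1 + t) * ind (∃ m, X ω / (8 * R) < (d m ω - φ m ω) ^ 2) + x0 ^ (1 + t) +
      C * ∏ m, (1 + l * g m ω) := by
    intro ω
    have hX1 : 0 ≤ X ω ^ (1 + t) := Real.rpow_nonneg (hX0 ω) _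
    have hx1 : 0 ≤ x0 ^ (1 + t) := Real.rpow_nonneg hx0p.le _
    have hp0 : 0 ≤ ∏ m, (1 + l * g m ω) := Finset.prod_nonneg fun m _ => by
      have := mul_nonneg hl0.le (hg0 m ω)
      linarith
    have hCp : 0 ≤ C * ∏ m, (1 + l * g m ω) := mul_nonneg hC0 hp0
    have hi1 := mul_nonneg hX1
      (ind_nonneg (((univ.filter fun m => X ω / (2 * R) ≤ d m ω ^ 2).card : ℝ) < cA * R))
    have hi2 := mul_nonneg hX1 (ind_nonneg (∃ m, X ω / (8 * R) < (d m ω - φ m ω) ^ 2))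
    by_cases hf : ((univ.filter fun m => X ω / (2 * R) ≤ d m ω ^ 2).card : ℝ) < cA * R
    · rw [ind_of hf, mul_one]
      linarith
    by_cases hb : ∃ m, X ω / (8 * R) < (d m ω - φ m ω) ^ 2
    · rw [ind_of hb, mul_one]
      linarith
    by_cases hx : X ω < x0
    · have := Real.rpow_le_rpow (hX0 ω) hx.le ht1'.le
      linarith
    push Not at hf hb hx
    have hcard : K ≤ (univ.filter fun m => X ω / (8 * R) ≤ φ m ω ^ 2).card := by
      have h1 : K ≤ (univ.filter fun m => X ω / (2 * R) ≤ d m ω ^ 2).card := by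
        rw [hKdef]
        exact Nat.ceil_le.2 hf
      refine h1.trans (Finset.card_le_card ?_)
      intro m hm
      rw [Finset.mem_filter] at hm ⊢
      exact ⟨Finset.mem_univ _, sel_count hR1 (fun m => d m ω) (fun m => φ m ω) (hX0 ω)
        (fun m => hb m) m hm.2⟩
    have h2 := sel_prod hR1 (fun m => φ m ω) (X := X ω) (σ := σ) (θ := θ) (t := t) (l := l) hσ
      (by rw [← hx0]; exact hx) hθK hθ0 hl0.le hcard
    rw [← hx0] at h2
    have h3 : l ^ K * (X ω / x0) ^ (1 + t) ≤ ∏ m, (1 + l * g m ω) := by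
      rw [hg]; exact h2
    rw [Real.div_rpow (hX0 ω) hx0p.le] at h3
    have hlKp : 0 < l ^ K := by positivity
    have hx1p : 0 < x0 ^ (1 + t) := Real.rpow_pos_of_pos hx0p _
    have h4 : X ω ^ (1 + t) ≤ C * ∏ m, (1 + l * g m ω) := by
      rw [hC]
      calc X ω ^ (1 + t) = x0 ^ (1 + t) * (l ^ K)⁻¹ *
            (l ^ K * (X ω ^ (1 + t) / x0 ^ (1 + t))) := by field_simp
        _ ≤ x0 ^ (1 + t) * (l ^ K)⁻¹ * ∏ m, (1 + l * g m ω) :=
            mul_le_mul_of_nonneg_left h3 (by positivity)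
    linarith
  have hfin := Ex_mono hpt
  rw [Ex_add, Ex_add, Ex_add, Ex_const, Ex_mul_left, ← hEdef] at hfin
  have hCE : C * Ex (fun ω => ∏ m, (1 + l * g m ω)) ≤ E / 64 := by
    calc C * Ex (fun ω => ∏ m, (1 + l * g m ω)) ≤ C * Real.exp K :=
          mul_le_mul_of_nonneg_left hprod hC0
      _ = x0 ^ (1 + t) * (BB ^ (1 + t) * (Real.exp (-(2 * K : ℝ)) * Real.exp K)) := by
          rw [hC, hlK]; ring
      _ = x0 ^ (1 + t) * (BB ^ (1 + t) * Real.exp (-(K : ℝ))) := by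
          rw [← Real.exp_add]
          congr 3
          ring
      _ ≤ x0 ^ (1 + t) * 1 := by
          apply mul_le_mul_of_nonneg_left _ (Real.rpow_nonneg hx0p.le _)
          have h1 : BB ^ (1 + t) ≤ BB ^ (2 : ℝ) :=
            Real.rpow_le_rpow_of_exponent_le (by linarith) (by linarith)
          rw [Real.rpow_two] at h1
          have h2 := mul_le_mul_of_nonneg_right h1 (Real.exp_pos (-(K : ℝ))).le
          linarith
      _ ≤ E / 64 := by rw [mul_one]; exact hx0E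
  linarith

end Pool.FPA
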