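import Pool.Agent.FPZ.PA0

/-!
Module PA13 (40 min): a centred variable that is `≥ σ` in absolute value with probability `≥ q` and
has second moment `≤ B σ^2` is not concentrated on any interval of radius `σ/4`.
Suppose `Pr (|φ - a| ≤ σ/4) > 1 - c`, `c = min (q/2) (1/(256 B))`; the complement `N` has `Pr N < c`.
Case `|a| ≤ σ/2`: on the event `|φ| ≤ 3σ/4 < σ`, so `q ≤ Pr (σ ≤ |φ|) ≤ Pr N < q/2`, contradiction.
Case `a > σ/2` (the case `a < -σ/2` by `φ ↦ -φ`): on the event `φ ≥ σ/4`. `0 = Ex φ ≥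
σ/4 (1 - c) - Ex (|φ|; N) ≥ σ/8 - √(Ex φ^2 * Pr N) > σ/8 - σ √(B c) ≥ σ/8 - σ/16 > 0`
(`Ex_cauchy` with `g = ind N`, `c ≤ 1/2`), contradiction.
-/

set_option autoImplicit false

noncomputable section

namespace Pool.FPA

open Finset Pool.FPP
open Pool.Agent.FPZ (Pr)

theorem Pr_not {Ω : Type} [Fintype Ω] [Nonempty Ω] (P : Ω → Prop) :
    Pr (fun ω => ¬ P ω) = 1 - Pr P := by
  rw [Pr_eq, Pr_eq]
  have h1 : (fun ω => ind (¬ P ω)) = fun ω => 1 - ind (P ω) := by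
    funext ω
    by_cases h : P ω
    · rw [ind_of h, ind_of_not (not_not.mpr h)]
      norm_num
    · rw [ind_of_not h, ind_of h]
      norm_num
  rw [h1, Ex_sub, Ex_const]

private theorem levy_pos {Ω : Type} [Fintype Ω] [Nonempty Ω] (φ : Ω → ℝ) {σ q B : ℝ} (hσ : 0 < σ)
    (hq1 : q ≤ 1) (hB : 1 ≤ B) (h0 : Ex φ = 0)
    (h2 : Ex (fun ω => φ ω ^ 2) ≤ B * σ ^ 2) (a : ℝ) (ha : σ / 2 < a)
    (h : 1 - min (q / 2) (1 / (256 * B)) < Pr (fun ω => |φ ω - a| ≤ σ / 4)) : False := by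
  have hB0 : 0 < B := lt_of_lt_of_le one_pos hB
  have hN : Pr (fun ω => ¬ |φ ω - a| ≤ σ / 4) < min (q / 2) (1 / (256 * B)) := by
    rw [Pr_not]
    linarith
  have hN1 : Pr (fun ω => ¬ |φ ω - a| ≤ σ / 4) ≤ 1 / (256 * B) :=
    le_trans hN.le (min_le_right _ _)
  have hE : 1 / 2 ≤ Pr (fun ω => |φ ω - a| ≤ σ / 4) := by
    have h3 : min (q / 2) (1 / (256 * B)) ≤ q / 2 := min_le_left _ _
    linarith
  have h4 : Ex (fun ω => σ / 4 * ind (|φ ω - a| ≤ σ / 4) + φ ω * ind (¬ |φ ω - a| ≤ σ / 4)) ≤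
      Ex φ := by
    refine Ex_mono fun ω => ?_
    by_cases hω : |φ ω - a| ≤ σ / 4
    · rw [ind_of hω, ind_of_not (not_not.mpr hω)]
      have h5 := (abs_le.mp hω).1
      linarith
    · rw [ind_of_not hω, ind_of hω]
      linarith
  rw [Ex_add, Ex_mul_left, h0] at h4
  have h6 := Ex_cauchy φ (fun ω => ind (¬ |φ ω - a| ≤ σ / 4))
  have h7 : Ex (fun ω => ind (¬ |φ ω - a| ≤ σ / 4) ^ 2) = Pr (fun ω => ¬ |φ ω - a| ≤ σ / 4) := by
    rw [Pr_eq]
    congr 1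
    funext ω
    by_cases hω : ¬ |φ ω - a| ≤ σ / 4
    · rw [ind_of hω]
      norm_num
    · rw [ind_of_not hω]
      norm_num
  rw [h7] at h6
  have h8 : Ex (fun ω => φ ω ^ 2) * Pr (fun ω => ¬ |φ ω - a| ≤ σ / 4) ≤ (σ / 16) ^ 2 := by
    calc Ex (fun ω => φ ω ^ 2) * Pr (fun ω => ¬ |φ ω - a| ≤ σ / 4)
        ≤ (B * σ ^ 2) * (1 / (256 * B)) :=
          mul_le_mul h2 hN1 (Pr_nonneg _) (by positivity)
      _ = (σ / 16) ^ 2 := by
          field_simp
          norm_num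
  have h9 : |Ex (fun ω => φ ω * ind (¬ |φ ω - a| ≤ σ / 4))| ≤ σ / 16 :=
    abs_le_of_sq_le_sq (le_trans h6 h8) (by positivity)
  have h10 := (abs_le.mp h9).1
  have h11 : Ex (fun ω => ind (|φ ω - a| ≤ σ / 4)) = Pr (fun ω => |φ ω - a| ≤ σ / 4) := rfl
  rw [h11] at h4
  have h12 : σ / 4 * (1 / 2) ≤ σ / 4 * Pr (fun ω => |φ ω - a| ≤ σ / 4) :=
    mul_le_mul_of_nonneg_left hE (by positivity)
  linarith

theorem levy_low {Ω : Type} [Fintype Ω] [Nonempty Ω] (φ : Ω → ℝ) {σ q B : ℝ} (hσ : 0 < σ)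
    (hq : 0 < q) (hq1 : q ≤ 1) (hB : 1 ≤ B) (h0 : Ex φ = 0) (hP : q ≤ Pr fun ω => σ ≤ |φ ω|)
    (h2 : Ex (fun ω => φ ω ^ 2) ≤ B * σ ^ 2) (a : ℝ) :
    Pr (fun ω => |φ ω - a| ≤ σ / 4) ≤ 1 - min (q / 2) (1 / (256 * B)) := by
  by_contra hcon
  push Not at hcon
  rcases lt_or_ge (σ / 2) a with h1 | h1
  · exact levy_pos φ hσ hq1 hB h0 h2 a h1 hcon
  rcases lt_or_ge a (-(σ / 2)) with h3 | h3
  · refine levy_pos (fun ω => -φ ω) (q := q) (B := B) hσ hq1 hB ?_ ?_ (-a) (by linarith) ?_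
    · have h4 : Ex (fun ω => -φ ω) = Ex (fun ω => (-1) * φ ω) := by
        congr 1
        funext ω
        ring
      rw [h4, Ex_mul_left, h0]
      norm_num
    · have h4 : (fun ω => (-φ ω) ^ 2) = fun ω => φ ω ^ 2 := by
        funext ω
        ring
      rw [h4]
      exact h2
    · have h4 : (fun ω => |-φ ω - -a| ≤ σ / 4) = fun ω => |φ ω - a| ≤ σ / 4 := by
        funext ω
        have h5 : -φ ω - -a = -(φ ω - a) := by ring
        rw [h5, abs_neg]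
      rw [h4]
      exact hcon
  · have hN : Pr (fun ω => ¬ |φ ω - a| ≤ σ / 4) < min (q / 2) (1 / (256 * B)) := by
      rw [Pr_not]
      linarith
    have h5 : Pr (fun ω => σ ≤ |φ ω|) ≤ Pr (fun ω => ¬ |φ ω - a| ≤ σ / 4) := by
      refine Pr_mono fun ω hω hle => ?_
      have h6 : |a| ≤ σ / 2 := abs_le.mpr ⟨h3, h1⟩
      have h7 : |φ ω| ≤ |φ ω - a| + |a| := by
        have h8 := abs_add_le (φ ω - a) a
        rwa [sub_add_cancel] at h8
      linarith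
    have h9 : min (q / 2) (1 / (256 * B)) ≤ q / 2 := min_le_left _ _
    linarith

/-- index selection: many indices with large probability and small moment -/
theorem sel_index {R : ℕ} (P M : Fin R → ℝ) {c C : ℝ} (hc : 0 < c) (hC : 0 < C)
    (hP0 : ∀ m, 0 ≤ P m) (hP1 : ∀ m, P m ≤ 1) (hM : ∀ m, 0 ≤ M m) (hP : c * R ≤ ∑ m, P m)
    (hMs : ∑ m, M m ≤ C * R) :
    c / 4 * R ≤ ((univ.filter fun m => c / 2 ≤ P m ∧ M m ≤ 4 * C / c).card : ℝ) := by
  have h1 : ∀ m, P m ≤ (if c / 2 ≤ P m ∧ M m ≤ 4 * C / c then (1 : ℝ) else 0) + c / 2 +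
      c / (4 * C) * M m := by
    intro m
    have hnn : 0 ≤ c / (4 * C) * M m := mul_nonneg (by positivity) (hM m)
    split_ifs with h
    · have := hP1 m
      linarith
    · rcases lt_or_ge (P m) (c / 2) with h2 | h2
      · linarith
      · have h3 : 4 * C / c < M m := by
          by_contra h4
          exact h ⟨h2, not_lt.mp h4⟩
        have h4 : 1 ≤ c / (4 * C) * M m := by
          calc (1 : ℝ) = c / (4 * C) * (4 * C / c) := by field_simp
            _ ≤ c / (4 * C) * M m := mul_le_mul_of_nonneg_left h3.le (by positivity)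
        have := hP1 m
        linarith
  have h2 := Finset.sum_le_sum fun m (_ : m ∈ (univ : Finset (Fin R))) => h1 m
  rw [Finset.sum_add_distrib, Finset.sum_add_distrib, ← Finset.mul_sum, Finset.sum_boole,
    Finset.sum_const, Finset.card_univ, Fintype.card_fin, nsmul_eq_mul] at h2
  have h3 : c / (4 * C) * ∑ m, M m ≤ c / (4 * C) * (C * R) :=
    mul_le_mul_of_nonneg_left hMs (by positivity)
  have h4 : c / (4 * C) * (C * R) = c / 4 * R := by
    field_simp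
  rw [h4] at h3
  linarith

end Pool.FPA
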