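import Pool.Agent.FPZ.PA10b
import Pool.Agent.FPZ.PA12b
import Pool.Agent.FPZ.PA13

/-!
Module PA14 (60 min): near equality, for a function of the window only.
Constants: `cB`, `cA` from PA9, PA12, `CA = 2 * 512^2`; `c0 = min (cB/4) (1/(256 * 4 CA/cB))`,
`cc = cB/4`. `R0` from `selection`. With `η' = η * min η 1 ≤ η` let
`t0 = min (1/(500000 R^2)) (min η' 1 ^3/(52 CA R^3))`-like, so that the error below is
`≤ (η' σ)^p`; then the probability is `≤ (η'/η)^p ≤ (min η 1)^2 ≤ η` by `Pr_markov`.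
Proof: `X = XF blk F`, `E = Ex X^(1+t) > 0` (`burk_fw`, `0 ≤ (1-t)R^t aS < bS`), `σ` by
`σ^2 = E^(1/(1+t))/(512R)`, `φ m = phi W (blk m) F`, `selection` with `bad_quarter`, `app_small`,
`phi_sq_le`. `aS ≤ CA R σ^p`: `(1-t) R^t aS < e^(12t) E`, `E = (512 R σ^2)^(1+t)`, so
`aS ≤ 1.2 * 512^(1+t) R σ^p ≤ CA R σ^p`. `near_sum`: error `≤ R^2 52 t CA R σ^p ≤ (η σ)^p`
(`η ≤ 1`: `η^p ≥ η^3`). `sel_index` with `P m = Pr (σ ≤ |φ m|)`, `M m = Ex |φ m|^p / σ^p`
(`phi_le`), and `levy_low` with `q = cB/2`, `B = 4 CA/cB`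
(`Ex φ^2 ≤ (Ex |φ|^p)^(2/p) ≤ (B σ^p)^(2/p) ≤ B σ^2`, `Ex_sq_le_rpow`).
-/

set_option autoImplicit false

noncomputable section

namespace Pool.FPA

open Finset Pool.FPP
open Pool.Agent.FPZ (Pr)

/-- constant in `aS ≤ CA R σ^p` -/
def CA : ℝ := 2 * 512 ^ 2

/-- non-concentration constant -/
def c00 : ℝ := min (cB / 4) (1 / (256 * (4 * CA / cB)))

/-- proportion of non-degenerate blocks -/
def ccc : ℝ := cB / 4

private theorem cB_pos : 0 < cB := by
  unfold cB cA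
  positivity

private theorem cB_le : cB ≤ 1 := by
  unfold cB cA
  have h1 : Real.exp (-164) ≤ 1 := Real.exp_le_one_iff.mpr (by norm_num)
  have h2 : Real.exp (-2) ≤ 1 := Real.exp_le_one_iff.mpr (by norm_num)
  have h3 : 0 < Real.exp (-164) := Real.exp_pos _
  have h4 : 0 < Real.exp (-2) := Real.exp_pos _
  nlinarith

private theorem num_exp {t : ℝ} (ht : 0 < t) (ht1 : t ≤ 1 / 100) :
    Real.exp (12 * t) ≤ 3 / 2 * (1 - t) := by
  have h1 : Real.exp (12 * t) * (1 - 12 * t) ≤ 1 := by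
    have h2 : 1 - 12 * t ≤ Real.exp (-(12 * t)) := by
      have := Real.add_one_le_exp (-(12 * t))
      linarith
    calc Real.exp (12 * t) * (1 - 12 * t) ≤ Real.exp (12 * t) * Real.exp (-(12 * t)) :=
          mul_le_mul_of_nonneg_left h2 (Real.exp_pos _).le
      _ = 1 := by rw [← Real.exp_add]; simp
  nlinarith [Real.exp_pos (12 * t)]

private theorem aS_bound {R : ℕ} (hR : 1 ≤ R) {t a b E σ : ℝ} (ht : 0 < t) (ht1 : t ≤ 1 / 100)
    (hE : 0 < E) (hσ : 0 < σ) (hσ2 : σ ^ 2 = E ^ (1 / (1 + t)) / (512 * R))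
    (hH : (1 - t) * ((R : ℝ) ^ t * a) < b) (hb : b ≤ Real.exp (12 * t) * E) :
    a ≤ CA * R * σ ^ (2 + 2 * t) := by
  have hRp : (0 : ℝ) < R := by exact_mod_cast hR
  have h1 : E ^ (1 / (1 + t)) = 512 * R * σ ^ 2 := by
    rw [hσ2]
    field_simp
  have h2 : E = (512 * R * σ ^ 2) ^ (1 + t) := by
    rw [← h1, ← Real.rpow_mul hE.le]
    rw [show 1 / (1 + t) * (1 + t) = 1 by field_simp, Real.rpow_one]
  have h3 : (512 * R * σ ^ 2) ^ (1 + t) = 512 ^ (1 + t) * (R * R ^ t) * σ ^ (2 + 2 * t) := by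
    rw [Real.mul_rpow (by positivity) (by positivity), Real.mul_rpow (by positivity) (by positivity)]
    rw [Real.rpow_add hRp, Real.rpow_one]
    congr 1
    rw [← Real.rpow_natCast σ 2, ← Real.rpow_mul hσ.le]
    congr 1
    push_cast
    ring
  have h4 : (512 : ℝ) ^ (1 + t) ≤ 512 ^ 2 := by
    rw [← Real.rpow_natCast (512 : ℝ) 2]
    apply Real.rpow_le_rpow_of_exponent_le (by norm_num)
    push_cast
    linarith
  have hRt : (0 : ℝ) < (R : ℝ) ^ t := Real.rpow_pos_of_pos hRp t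
  have hσp : (0 : ℝ) < σ ^ (2 + 2 * t) := Real.rpow_pos_of_pos hσ _
  have h5 : (1 - t) * ((R : ℝ) ^ t * a) <
      3 / 2 * (1 - t) * (512 ^ 2 * (R * R ^ t) * σ ^ (2 + 2 * t)) := by
    refine lt_of_lt_of_le hH (le_trans hb ?_)
    have h6 : E ≤ 512 ^ 2 * (R * R ^ t) * σ ^ (2 + 2 * t) := by
      rw [h2, h3]
      gcongr
    calc Real.exp (12 * t) * E ≤ (3 / 2 * (1 - t)) * E :=
          mul_le_mul_of_nonneg_right (num_exp ht ht1) hE.le
      _ ≤ 3 / 2 * (1 - t) * (512 ^ 2 * (R * R ^ t) * σ ^ (2 + 2 * t)) := by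
          apply mul_le_mul_of_nonneg_left h6
          linarith
  have h7 : (R : ℝ) ^ t * a < (R : ℝ) ^ t * (3 / 2 * 512 ^ 2 * R * σ ^ (2 + 2 * t)) := by
    have h8 : 0 < 1 - t := by linarith
    by_contra hcon
    push Not at hcon
    have := mul_le_mul_of_nonneg_left hcon h8.le
    nlinarith
  have h9 : a < 3 / 2 * 512 ^ 2 * R * σ ^ (2 + 2 * t) := lt_of_mul_lt_mul_left h7 hRt.le
  unfold CA
  have : (0 : ℝ) < 512 ^ 2 * R * σ ^ (2 + 2 * t) := by positivity
  nlinarith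

theorem near_equality_dep : ∃ R0 : ℕ, 1 ≤ R0 ∧ ∀ R : ℕ, R0 ≤ R → ∀ η : ℝ, 0 < η →
    ∃ t0 : ℝ, 0 < t0 ∧ t0 ≤ 1 / 100 ∧ ∀ t : ℝ, 0 < t → t ≤ t0 →
    ∀ (ι α : Type) [Fintype ι] [DecidableEq ι] [Fintype α] [Nonempty α]
      (blk : Fin R → Finset ι), (Pairwise fun i j => Disjoint (blk i) (blk j)) →
    ∀ F : (ι → α) → ℝ, Dep (U blk univ) F →
      (1 - t) * ((R : ℝ) ^ t * aS blk F (2 + 2 * t)) < bS F (2 + 2 * t) →
      ∃ (σ : ℝ) (S : Finset (Fin R)), 0 < σ ∧ ccc * R ≤ (S.card : ℝ) ∧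
        aS blk F (2 + 2 * t) ≤ CA * R * σ ^ (2 + 2 * t) ∧
        Ex (fun ω => |F ω - Ex F - ∑ m, phi (U blk univ) (blk m) F ω| ^ (2 + 2 * t)) ≤
          (η * σ) ^ (2 + 2 * t) ∧
        Pr (fun ω => η * σ < |F ω - Ex F - ∑ m, phi (U blk univ) (blk m) F ω|) ≤ η ∧
        ∀ m ∈ S, ∀ a : ℝ, Pr (fun ω => |phi (U blk univ) (blk m) F ω - a| ≤ σ / 4) ≤ 1 - c00 := by
  obtain ⟨R0, hR0, hsel⟩ := selection
  refine ⟨R0, hR0, fun R hR η hη => ?_⟩
  have hR1 : 1 ≤ R := le_trans hR0 hR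
  have hRp : (0 : ℝ) < R := by exact_mod_cast hR1
  have hCA : (0 : ℝ) < CA := by unfold CA; norm_num
  set η1 : ℝ := min η 1 with hη1
  have hη1p : 0 < η1 := lt_min hη one_pos
  have hη11 : η1 ≤ 1 := min_le_right _ _
  have hη1η : η1 ≤ η := min_le_left _ _
  set η2 : ℝ := η1 * η1 with hη2
  have hη2p : 0 < η2 := mul_pos hη1p hη1p
  have hη21 : η2 ≤ 1 := by nlinarith
  refine ⟨min (1 / (500000 * (R : ℝ) ^ 2)) (min (1 / 100) (η2 ^ 3 / (52 * CA * R ^ 3))), ?_, ?_, ?_⟩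
  · exact lt_min (by positivity) (lt_min (by norm_num) (by positivity))
  · exact le_trans (min_le_right _ _) (min_le_left _ _)
  intro t ht htt ι α _ _ _ _ blk hd F hF hH
  have ht1 : t ≤ 1 / (500000 * (R : ℝ) ^ 2) := le_trans htt (min_le_left _ _)
  have ht2 : t ≤ 1 / 100 := le_trans htt (le_trans (min_le_right _ _) (min_le_left _ _))
  have ht3 : t ≤ η2 ^ 3 / (52 * CA * R ^ 3) :=
    le_trans htt (le_trans (min_le_right _ _) (min_le_right _ _))
  have ht5 : t ≤ 1 / 2 := by linarith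
  set p : ℝ := 2 + 2 * t with hp
  have hp0 : 0 < p := by linarith
  have hp2 : 2 ≤ p := by linarith
  have hp3 : p ≤ 3 := by linarith
  set E : ℝ := Ex (fun ω => XF blk F ω ^ (1 + t)) with hE
  have hburk := burk_fw blk hF ht ht5
  have haS0 : 0 ≤ aS blk F p := by
    unfold aS
    exact Finset.sum_nonneg fun m _ => Ex_nonneg fun ω => Real.rpow_nonneg (abs_nonneg _) _
  have hEpos : 0 < E := by
    have h1 : 0 ≤ (1 - t) * ((R : ℝ) ^ t * aS blk F p) := by
      have : 0 ≤ 1 - t := by linarith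
      positivity
    have h2 : 0 < Real.exp (12 * t) * E := lt_of_le_of_lt h1 (lt_of_lt_of_le hH hburk)
    exact pos_of_mul_pos_right h2 (Real.exp_pos _).le
  set σ : ℝ := Real.sqrt (E ^ (1 / (1 + t)) / (512 * R)) with hσd
  have hin : 0 < E ^ (1 / (1 + t)) / (512 * R) := by positivity
  have hσ : 0 < σ := Real.sqrt_pos.mpr hin
  have hσ2 : σ ^ 2 = E ^ (1 / (1 + t)) / (512 * R) := Real.sq_sqrt hin.le
  have haS : aS blk F p ≤ CA * R * σ ^ p := aS_bound hR1 ht ht2 hEpos hσ hσ2 hH hburk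
  have hselR := hsel R hR t ht ht2 ι α blk hd (XF blk F) (dF blk F)
    (fun m => phi (U blk univ) (blk m) F) (fun ω => rfl)
    (fun m => phi_dep (Finset.subset_biUnion_of_mem blk (Finset.mem_univ m)) hF) hEpos
    (bad_quarter hF ht ht2 hH) (app_small hd hF ht ht1 ht2 hR1 hH) (phi_sq_le hd F) σ hσ hσ2
  have hσp : 0 < σ ^ p := Real.rpow_pos_of_pos hσ p
  -- the error
  have herr : Ex (fun ω => |F ω - Ex F - ∑ m, phi (U blk univ) (blk m) F ω| ^ p) ≤
      (η1 * (η1 * σ)) ^ p := by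
    refine le_trans (near_sum hd hF ht ht2 hH) ?_
    have h1 : (R : ℝ) ^ 2 * (52 * t * aS blk F p) ≤ η2 ^ 3 * σ ^ p := by
      have h2 : 52 * CA * (R : ℝ) ^ 3 * t ≤ η2 ^ 3 := by
        rw [le_div_iff₀ (by positivity)] at ht3
        linarith
      calc (R : ℝ) ^ 2 * (52 * t * aS blk F p) ≤ (R : ℝ) ^ 2 * (52 * t * (CA * R * σ ^ p)) := by
            gcongr
        _ = (52 * CA * (R : ℝ) ^ 3 * t) * σ ^ p := by ring
        _ ≤ η2 ^ 3 * σ ^ p := mul_le_mul_of_nonneg_right h2 hσp.le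
    refine le_trans h1 ?_
    rw [← mul_assoc, Real.mul_rpow (by positivity) hσ.le]
    apply mul_le_mul_of_nonneg_right _ hσp.le
    rw [← Real.rpow_natCast η2 3]
    apply Real.rpow_le_rpow_of_exponent_ge hη2p hη21
    push_cast
    exact hp3
  -- the good set
  have hPR : cB * R ≤ ∑ m, Pr (fun ω => σ ≤ |phi (U blk univ) (blk m) F ω|) := hselR
  have hMs : ∑ m, Ex (fun ω => |phi (U blk univ) (blk m) F ω| ^ p) / σ ^ p ≤ CA * R := by
    rw [← Finset.sum_div, div_le_iff₀ hσp]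
    refine le_trans (Finset.sum_le_sum fun m _ => phi_le hd F m (by linarith)) ?_
    exact haS
  have hidx := sel_index (fun m => Pr (fun ω => σ ≤ |phi (U blk univ) (blk m) F ω|))
    (fun m => Ex (fun ω => |phi (U blk univ) (blk m) F ω| ^ p) / σ ^ p) cB_pos hCA
    (fun m => Pr_nonneg _) (fun m => Pr_le_one _)
    (fun m => div_nonneg (Ex_nonneg fun ω => Real.rpow_nonneg (abs_nonneg _) _) hσp.le) hPR hMs
  refine ⟨σ, _, hσ, hidx, haS, ?_, ?_, ?_⟩
  · refine le_trans herr ?_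
    apply Real.rpow_le_rpow (by positivity) _ hp0.le
    have : η1 * (η1 * σ) ≤ 1 * (η * σ) := by gcongr
    linarith
  · -- Markov
    have hηs : 0 < (η * σ) ^ p := Real.rpow_pos_of_pos (by positivity) _
    have h1 := Pr_markov (fun ω => η * σ < |F ω - Ex F - ∑ m, phi (U blk univ) (blk m) F ω|)
      (fun ω => |F ω - Ex F - ∑ m, phi (U blk univ) (blk m) F ω| ^ p)
      (fun ω => Real.rpow_nonneg (abs_nonneg _) _) ((η * σ) ^ p)
      (fun ω hω => Real.rpow_le_rpow (by positivity) (le_of_lt hω) hp0.le)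
    have h2 : (η1 * (η1 * σ)) ^ p ≤ η1 * (η * σ) ^ p := by
      rw [Real.mul_rpow hη1p.le (by positivity)]
      have h3 : η1 ^ p ≤ η1 := by
        calc η1 ^ p ≤ η1 ^ (1 : ℝ) :=
              Real.rpow_le_rpow_of_exponent_ge hη1p hη11 (by linarith)
          _ = η1 := Real.rpow_one _
      have h4 : (η1 * σ) ^ p ≤ (η * σ) ^ p := by
        apply Real.rpow_le_rpow (by positivity) _ hp0.le
        gcongr
      exact mul_le_mul h3 h4 (by positivity) hη1p.le
    have h5 : (η * σ) ^ p * Pr (fun ω => η * σ <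
        |F ω - Ex F - ∑ m, phi (U blk univ) (blk m) F ω|) ≤ (η * σ) ^ p * η1 := by
      rw [mul_comm _ η1]
      exact le_trans h1 (le_trans herr h2)
    exact le_trans (le_of_mul_le_mul_left h5 hηs) hη1η
  · intro m hm a
    rw [Finset.mem_filter] at hm
    obtain ⟨-, hm1, hm2⟩ := hm
    have hB1 : 1 ≤ 4 * CA / cB := by
      rw [le_div_iff₀ cB_pos, one_mul]
      have : (1 : ℝ) ≤ 4 * CA := by unfold CA; norm_num
      exact le_trans cB_le this
    have hL := levy_low (phi (U blk univ) (blk m) F) (σ := σ) (q := cB / 2) (B := 4 * CA / cB) hσ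
      (by have := cB_pos; linarith) (by have := cB_le; linarith) hB1 (phi_mean _ _ F) hm1 ?_ a
    · refine le_trans hL ?_
      unfold c00
      rw [show cB / 2 / 2 = cB / 4 by ring]
    · have h1 := Ex_sq_le_rpow hp2 (phi (U blk univ) (blk m) F)
      have h2 : Ex (fun ω => |phi (U blk univ) (blk m) F ω| ^ p) ≤ 4 * CA / cB * σ ^ p := by
        rw [div_le_iff₀ hσp] at hm2
        exact hm2
      have h3 : 4 * CA / cB * σ ^ p ≤ (4 * CA / cB * σ ^ 2) ^ (p / 2) := by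
        rw [Real.mul_rpow (by positivity) (by positivity)]
        have h4 : (σ ^ 2) ^ (p / 2) = σ ^ p := by
          rw [← Real.rpow_natCast σ 2, ← Real.rpow_mul hσ.le]
          congr 1
          push_cast
          ring
        rw [h4]
        apply mul_le_mul_of_nonneg_right _ hσp.le
        calc 4 * CA / cB = (4 * CA / cB) ^ (1 : ℝ) := (Real.rpow_one _).symm
          _ ≤ (4 * CA / cB) ^ (p / 2) := Real.rpow_le_rpow_of_exponent_le hB1 (by linarith)
      have h5 := le_trans h1 (le_trans h2 h3)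
      have h6 : 0 ≤ Ex (fun ω => phi (U blk univ) (blk m) F ω ^ 2) := Ex_nonneg fun ω => sq_nonneg _
      by_contra hcon
      push Not at hcon
      have h7 : (4 * CA / cB * σ ^ 2) ^ (p / 2) <
          (Ex fun ω => phi (U blk univ) (blk m) F ω ^ 2) ^ (p / 2) :=
        Real.rpow_lt_rpow (by positivity) hcon (by linarith)
      linarith

end Pool.FPA
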