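import Pool.Agent.FPZ.PA14

/-!
Module PA15 (rows PA15a = everything up to `bS_frz`, 30 min; PA15b = `near_equality`, `burk_window`,
`window_step`, 40 min): the statements for a fixed outside `ω` of the window `W`.
`frz W ω F` is the function of the content `η` of the window, `η ↦ F (mix W η ω)`.
* `av_frz`: `mix W (mix A ξ η) ω = mix A ξ (mix W η ω)` for `A ⊆ W`.
* `aS_frz`, `bS_frz`: `Ex (frz W ω G) = av W G ω` by definition, and `av_frz`.
* `Ex_aS`, `Ex_bS`: `Ex_av`.
* `near_equality`: `near_equality_dep` for `frz W ω F`.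
* `window_step`: fix `ω`, `a = aS blk (frz W ω F)`, `b = bS (frz W ω F)`. If `Gd ω` and `Cb ≤ a` then
  `b ≤ (1-t) R^t a`; always `b ≤ e^(12t) R^t a` (`burk_all`). So
  `b ≤ (1-t) R^t a + e^(12t) R^t a (1 - ind (Gd ω)) + e^(12t) R^t Cb` in all cases. Average over `ω`
  and use `Ex_aS` (with the indicator, which is `Off W`; `Ex_mul_av`), `Ex_bS`.
-/

set_option autoImplicit false

noncomputable section

namespace Pool.FPA

open Finset Pool.FPP

section

variable {ι α : Type*} [Fintype ι] [DecidableEq ι] [Fintype α] [Nonempty α]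

omit [Fintype ι] [Fintype α] [Nonempty α] in
/-- `F` as a function of the content of `W`, with the outside taken from `ω` -/
def frz (W : Finset ι) (ω : ι → α) (F : (ι → α) → ℝ) : (ι → α) → ℝ := fun η => F (mix W η ω)

theorem Dep_frz (W : Finset ι) (ω : ι → α) (F : (ι → α) → ℝ) : Dep W (frz W ω F) := by
  intro η η' h
  unfold frz
  congr 1
  funext i
  by_cases hi : i ∈ W
  · simp [mix, hi, h i hi]
  · simp [mix, hi]

theorem Ex_frz (W : Finset ι) (ω : ι → α) (F : (ι → α) → ℝ) : Ex (frz W ω F) = av W F ω := rfl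

theorem av_frz {A W : Finset ι} (h : A ⊆ W) (ω : ι → α) (F : (ι → α) → ℝ) :
    av A (frz W ω F) = frz W ω (av A F) := by
  funext η
  unfold av frz
  have h1 : ∀ ξ : ι → α, mix W (mix A ξ η) ω = mix A ξ (mix W η ω) := by
    intro ξ
    funext i
    by_cases hA : i ∈ A
    · have hW : i ∈ W := h hA
      simp [mix, hA, hW]
    · by_cases hW : i ∈ W <;> simp [mix, hA, hW]
  simp only [h1]

theorem aS_frz {R : ℕ} (blk : Fin R → Finset ι) (ω : ι → α) (F : (ι → α) → ℝ) (p : ℝ) :
    aS blk (frz (U blk univ) ω F) p =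
      ∑ m, av (U blk univ) (fun ω' => |F ω' - av (blk m) F ω'| ^ p) ω := by
  unfold aS
  refine Finset.sum_congr rfl fun m _ => ?_
  have hsub : blk m ⊆ U blk univ := Finset.subset_biUnion_of_mem blk (Finset.mem_univ m)
  rw [av_frz hsub]
  rfl

theorem bS_frz (W : Finset ι) (ω : ι → α) (F : (ι → α) → ℝ) (p : ℝ) :
    bS (frz W ω F) p = av W (fun ω' => |F ω' - av W F ω'| ^ p) ω := by
  unfold bS
  rw [Ex_frz]
  change Ex (fun η : ι → α => |F (mix W η ω) - av W F ω| ^ p) =
    Ex (fun η : ι → α => |F (mix W η ω) - av W F (mix W η ω)| ^ p)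
  congr 1
  funext η
  rw [av_mix]

/-- with a weight `G` that does not depend on the window -/
theorem Ex_aS {R : ℕ} (blk : Fin R → Finset ι) (F : (ι → α) → ℝ) (p : ℝ) {G : (ι → α) → ℝ}
    (hG : Off (U blk univ) G) :
    Ex (fun ω => G ω * aS blk (frz (U blk univ) ω F) p) =
      ∑ m, Ex (fun ω => G ω * |F ω - av (blk m) F ω| ^ p) := by
  have h1 : (fun ω => G ω * aS blk (frz (U blk univ) ω F) p) =
      fun ω => ∑ m, av (U blk univ) (fun ω' => G ω' * |F ω' - av (blk m) F ω'| ^ p) ω := by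
    funext ω
    rw [aS_frz, Finset.mul_sum]
    refine Finset.sum_congr rfl fun m _ => ?_
    exact (av_mul_of_indep (U blk univ) (fun ω' => |F ω' - av (blk m) F ω'| ^ p) G hG ω).symm
  rw [h1, Ex_sum]
  refine Finset.sum_congr rfl fun m _ => ?_
  exact Ex_av (U blk univ) _

theorem Ex_bS (W : Finset ι) (F : (ι → α) → ℝ) (p : ℝ) :
    Ex (fun ω => bS (frz W ω F) p) = Ex (fun ω => |F ω - av W F ω| ^ p) := by
  have h1 : (fun ω => bS (frz W ω F) p) = av W (fun ω' => |F ω' - av W F ω'| ^ p) := by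
    funext ω
    exact bS_frz W ω F p
  rw [h1, Ex_av]

end

end Pool.FPA
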