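import Pool.Agent.FPZ.PA15

/-!
Module PA15b (40 min): see the header of `PA15.lean`.
-/

set_option autoImplicit false

noncomputable section

namespace Pool.FPA

open Finset Pool.FPP
open Pool.Agent.FPZ (Pr)

/-- every window: `b ≤ e^(12t) R^t a` for the fixed outside `ω` -/
theorem burk_window {ι α : Type} [Fintype ι] [DecidableEq ι] [Fintype α] [Nonempty α] {R : ℕ}
    (blk : Fin R → Finset ι) (F : (ι → α) → ℝ) (ω : ι → α) {t : ℝ} (ht : 0 < t)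
    (ht1 : t ≤ 1 / 2) :
    bS (frz (U blk univ) ω F) (2 + 2 * t) ≤
      Real.exp (12 * t) * ((R : ℝ) ^ t * aS blk (frz (U blk univ) ω F) (2 + 2 * t)) :=
  burk_all blk (Dep_frz _ ω F) ht ht1

/-- near equality implies the structure, for the fixed outside `ω` -/
theorem near_equality : ∃ R0 : ℕ, 1 ≤ R0 ∧ ∀ R : ℕ, R0 ≤ R → ∀ η : ℝ, 0 < η →
    ∃ t0 : ℝ, 0 < t0 ∧ t0 ≤ 1 / 100 ∧ ∀ t : ℝ, 0 < t → t ≤ t0 →
    ∀ (ι α : Type) [Fintype ι] [DecidableEq ι] [Fintype α] [Nonempty α]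
      (blk : Fin R → Finset ι), (Pairwise fun i j => Disjoint (blk i) (blk j)) →
    ∀ (F : (ι → α) → ℝ) (ω : ι → α),
      (1 - t) * ((R : ℝ) ^ t * aS blk (frz (U blk univ) ω F) (2 + 2 * t)) <
        bS (frz (U blk univ) ω F) (2 + 2 * t) →
      ∃ (σ : ℝ) (S : Finset (Fin R)) (φ : Fin R → (ι → α) → ℝ), 0 < σ ∧
        ccc * R ≤ (S.card : ℝ) ∧ (∀ m, Dep (blk m) (φ m)) ∧ (∀ m, Ex (φ m) = 0) ∧
        aS blk (frz (U blk univ) ω F) (2 + 2 * t) ≤ CA * R * σ ^ (2 + 2 * t) ∧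
        Pr (fun ξ : ι → α => η * σ <
          |F (mix (U blk univ) ξ ω) - av (U blk univ) F ω - ∑ m, φ m ξ|) ≤ η ∧
        ∀ m ∈ S, ∀ a : ℝ, Pr (fun ξ : ι → α => |φ m ξ - a| ≤ σ / 4) ≤ 1 - c00 := by
  obtain ⟨R0, h1, h⟩ := near_equality_dep
  refine ⟨R0, h1, fun R hR η hη => ?_⟩
  obtain ⟨t0, ht0, ht01, h2⟩ := h R hR η hη
  refine ⟨t0, ht0, ht01, fun t ht htt ι α _ _ _ _ blk hd F ω hH => ?_⟩
  obtain ⟨σ, S, hσ, hS, ha, _, hPr, hcon⟩ :=
    h2 t ht htt ι α blk hd (frz (U blk univ) ω F) (Dep_frz _ ω F) hH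
  refine ⟨σ, S, fun m => phi (U blk univ) (blk m) (frz (U blk univ) ω F), hσ, hS, ?_, ?_, ha, ?_,
    hcon⟩
  · intro m
    exact phi_dep (Finset.subset_biUnion_of_mem blk (mem_univ m)) (Dep_frz _ ω F)
  · intro m
    exact phi_mean _ _ _
  · rw [Ex_frz] at hPr
    exact hPr

theorem aS_nonneg {ι α : Type*} [Fintype ι] [DecidableEq ι] [Fintype α] [Nonempty α] {R : ℕ}
    (blk : Fin R → Finset ι) (F : (ι → α) → ℝ) (p : ℝ) : 0 ≤ aS blk F p :=
  Finset.sum_nonneg fun _ _ => Ex_nonneg fun _ => Real.rpow_nonneg (abs_nonneg _) _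

/-- one step of the recursion for one window: `Gd` is the set of good outsides (with the property
that a large `a` forces the gain), `Cb` the threshold -/
theorem window_step {ι α : Type} [Fintype ι] [DecidableEq ι] [Fintype α] [Nonempty α] {R : ℕ}
    (blk : Fin R → Finset ι) (F : (ι → α) → ℝ) {t Cb : ℝ} (ht : 0 < t) (ht1 : t ≤ 1 / 2)
    (hCb : 0 ≤ Cb) (Gd : (ι → α) → Prop)
    (hGd : ∀ η ω, Gd (mix (U blk univ) η ω) ↔ Gd ω)
    (hgain : ∀ ω, Gd ω → Cb ≤ aS blk (frz (U blk univ) ω F) (2 + 2 * t) →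
      bS (frz (U blk univ) ω F) (2 + 2 * t) ≤
        (1 - t) * ((R : ℝ) ^ t * aS blk (frz (U blk univ) ω F) (2 + 2 * t))) :
    Ex (fun ω => |F ω - av (U blk univ) F ω| ^ (2 + 2 * t)) ≤
      (1 - t) * ((R : ℝ) ^ t * ∑ m, Ex (fun ω => |F ω - av (blk m) F ω| ^ (2 + 2 * t))) +
      Real.exp (12 * t) * ((R : ℝ) ^ t *
        ∑ m, Ex (fun ω => ind (¬ Gd ω) * |F ω - av (blk m) F ω| ^ (2 + 2 * t))) +
      Real.exp (12 * t) * ((R : ℝ) ^ t * Cb) := by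
  have hRt : (0 : ℝ) ≤ (R : ℝ) ^ t := Real.rpow_nonneg (Nat.cast_nonneg _) _
  have he : (0 : ℝ) < Real.exp (12 * t) := Real.exp_pos _
  have hpt : ∀ ω, bS (frz (U blk univ) ω F) (2 + 2 * t) ≤
      (1 - t) * ((R : ℝ) ^ t * aS blk (frz (U blk univ) ω F) (2 + 2 * t)) +
      Real.exp (12 * t) * ((R : ℝ) ^ t *
        (ind (¬ Gd ω) * aS blk (frz (U blk univ) ω F) (2 + 2 * t))) +
      Real.exp (12 * t) * ((R : ℝ) ^ t * Cb) := by
    intro ω
    have ha := aS_nonneg blk (frz (U blk univ) ω F) (2 + 2 * t)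
    have hb := burk_window blk F ω ht ht1
    have h1 : 0 ≤ (1 - t) * ((R : ℝ) ^ t * aS blk (frz (U blk univ) ω F) (2 + 2 * t)) :=
      mul_nonneg (by linarith) (mul_nonneg hRt ha)
    have h2 : 0 ≤ Real.exp (12 * t) * ((R : ℝ) ^ t *
        (ind (¬ Gd ω) * aS blk (frz (U blk univ) ω F) (2 + 2 * t))) :=
      mul_nonneg he.le (mul_nonneg hRt (mul_nonneg (ind_nonneg _) ha))
    have h3 : 0 ≤ Real.exp (12 * t) * ((R : ℝ) ^ t * Cb) :=
      mul_nonneg he.le (mul_nonneg hRt hCb)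
    by_cases hG : Gd ω
    · rcases le_or_gt Cb (aS blk (frz (U blk univ) ω F) (2 + 2 * t)) with h4 | h4
      · have h5 := hgain ω hG h4
        linarith
      · have h5 : Real.exp (12 * t) * ((R : ℝ) ^ t * aS blk (frz (U blk univ) ω F) (2 + 2 * t)) ≤
            Real.exp (12 * t) * ((R : ℝ) ^ t * Cb) :=
          mul_le_mul_of_nonneg_left (mul_le_mul_of_nonneg_left h4.le hRt) he.le
        linarith
    · rw [ind_of hG, one_mul] at h2 ⊢
      linarith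
  have h0 := Ex_mono hpt
  rw [Ex_bS] at h0
  refine h0.trans (le_of_eq ?_)
  have hOff1 : Off (U blk univ) (fun _ : ι → α => (1 : ℝ)) := fun _ _ => rfl
  have hOff2 : Off (U blk univ) (fun ω : ι → α => ind (¬ Gd ω)) := by
    intro η ω
    show ind (¬ Gd (mix (U blk univ) η ω)) = ind (¬ Gd ω)
    rw [propext (hGd η ω)]
  have e1 := Ex_aS blk F (2 + 2 * t) hOff1
  have e2 := Ex_aS blk F (2 + 2 * t) hOff2
  simp only [one_mul] at e1
  rw [Ex_add, Ex_add, Ex_mul_left, Ex_mul_left, Ex_mul_left, Ex_mul_left, Ex_const, e1, e2]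

end Pool.FPA
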