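import Mathlib

/-!
Module PA2 (two rows: PA2a = `taylor`, PA2b = the rest; each 30-40 min): pointwise inequalities.
* `taylor`: for `t = 0` an identity. Let `p = 2+2t`. The function `s ↦ |x + s y|^p` has derivative
  `p |x+sy|^(p-2) (x+sy) y` (`hasDerivAt_abs_rpow`), and `g(z) = |z|^(2t) z` satisfies
  `|g(z) - g(z')| ≤ (1+2t) max(|z|,|z'|)^(2t) |z - z'|` (its derivative is `(1+2t)|z|^(2t)`, or, by
  oddness and monotonicity, from `a^(1+2t) - b^(1+2t) ≤ (1+2t) a^(2t) (a-b)`, `a ≥ b ≥ 0`, and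
  `a^(1+2t) + b^(1+2t) ≤ max^(2t) (a+b)`). Hence the derivative of
  `h(s) = |x+sy|^p - |x|^p - p |x|^(p-2) x y s - (1+t)(1+2t)(|x|+|y|)^(2t) y^2 s^2`
  is `≤ 0` on `[0,1]` and `h(0) = 0`. (`antitoneOn_of_deriv_nonpos` or
  `image_le_of_deriv_right_le_deriv_boundary`.)
* `clarkson`: `A = |(x+y)/2|`, `B = |(x-y)/2|`; `A^p + B^p ≤ (A^2+B^2)^(p/2)`
  (`Real.add_rpow_le_rpow_add` / `NNReal`), `A^2+B^2 = (x^2+y^2)/2`, and convexity of
  `s^(p/2)` gives `((x^2+y^2)/2)^(p/2) ≤ (|x|^p+|y|^p)/2` (`Real.inner_le_nnorm_mul_nnorm` not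
  needed; `Real.rpow_arith_mean_le_arith_mean2_rpow`).
* `abs_sum_rpow_le`: `Real.rpow_sum_le_const_mul_sum_rpow`.
-/

set_option autoImplicit false

noncomputable section

namespace Pool.FPA

open Finset

private theorem g_mono_aux (t : ℝ) (ht : 0 ≤ t) {a b : ℝ} (hb : 0 ≤ b) (hab : b ≤ a) :
    a ^ (2 * t) * a - b ^ (2 * t) * b ≤ (1 + 2 * t) * a ^ (2 * t) * (a - b) := by
  rcases eq_or_lt_of_le (hb.trans hab) with ha | ha
  · have hb0 : b = 0 := le_antisymm (by rw [← ha] at hab; exact hab) hb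
    rw [← ha, hb0]
    simp
  · have hu0 : 0 ≤ b / a := div_nonneg hb ha.le
    have hB := one_add_mul_self_le_rpow_one_add (s := b / a - 1) (by linarith) (p := 1 + 2 * t)
      (by linarith)
    have h1 : 1 + (b / a - 1) = b / a := by ring
    rw [h1] at hB
    have hr : (b / a) ^ (1 + 2 * t) * (a ^ (2 * t) * a) = b ^ (2 * t) * b := by
      rcases eq_or_lt_of_le hb with hb0 | hb0
      · rw [← hb0]
        simp only [zero_div, mul_zero]
        rw [Real.zero_rpow (by linarith)]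
        ring
      · rw [Real.div_rpow hb ha.le]
        have e1 : b ^ (1 + 2 * t) = b ^ (2 * t) * b := by
          rw [add_comm, Real.rpow_add hb0, Real.rpow_one]
        have e2 : a ^ (1 + 2 * t) = a ^ (2 * t) * a := by
          rw [add_comm, Real.rpow_add ha, Real.rpow_one]
        rw [e1, e2]
        have : a ^ (2 * t) * a ≠ 0 := by positivity
        field_simp
    have hpos : 0 ≤ a ^ (2 * t) * a := by positivity
    have h2 := mul_le_mul_of_nonneg_right hB hpos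
    rw [hr] at h2
    have h3 : (1 + (1 + 2 * t) * (b / a - 1)) * (a ^ (2 * t) * a) =
        a ^ (2 * t) * a + (1 + 2 * t) * a ^ (2 * t) * (b - a) := by
      field_simp
    rw [h3] at h2
    linarith

private theorem g_lip (t : ℝ) (ht : 0 ≤ t) {M z z' : ℝ} (hz : |z| ≤ M) (hz' : |z'| ≤ M) :
    |(|z| ^ (2 * t) * z) - (|z'| ^ (2 * t) * z')| ≤ (1 + 2 * t) * M ^ (2 * t) * |z - z'| := by
  wlog hzz : z' ≤ z with H
  · have := H t ht hz' hz (le_of_not_ge hzz)
    rw [abs_sub_comm, abs_sub_comm z z']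
    exact this
  have hM : 0 ≤ M := (abs_nonneg z).trans hz
  have hMt : 0 ≤ M ^ (2 * t) := Real.rpow_nonneg hM _
  rcases le_total 0 z' with h0 | h0
  · have hz0 : 0 ≤ z := h0.trans hzz
    rw [abs_of_nonneg h0, abs_of_nonneg hz0, abs_of_nonneg (sub_nonneg.2 hzz)]
    rw [abs_of_nonneg hz0] at hz
    have hmono : z' ^ (2 * t) * z' ≤ z ^ (2 * t) * z :=
      mul_le_mul (Real.rpow_le_rpow h0 hzz (by linarith)) hzz h0 (Real.rpow_nonneg hz0 _)
    rw [abs_of_nonneg (sub_nonneg.2 hmono)]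
    refine (g_mono_aux t ht h0 hzz).trans ?_
    have : z ^ (2 * t) ≤ M ^ (2 * t) := Real.rpow_le_rpow hz0 hz (by linarith)
    have hd : 0 ≤ z - z' := sub_nonneg.2 hzz
    gcongr
  · rcases le_total 0 z with h1 | h1
    · rw [abs_of_nonneg h1, abs_of_nonpos h0, abs_of_nonneg (sub_nonneg.2 hzz)]
      rw [abs_of_nonneg h1] at hz
      rw [abs_of_nonpos h0] at hz'
      have hn : 0 ≤ -z' := by linarith
      have e1 : z ^ (2 * t) * z ≤ M ^ (2 * t) * z :=
        mul_le_mul_of_nonneg_right (Real.rpow_le_rpow h1 hz (by linarith)) h1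
      have e2 : (-z') ^ (2 * t) * (-z') ≤ M ^ (2 * t) * (-z') :=
        mul_le_mul_of_nonneg_right (Real.rpow_le_rpow hn hz' (by linarith)) hn
      have e3 : 0 ≤ z ^ (2 * t) * z := mul_nonneg (Real.rpow_nonneg h1 _) h1
      have e4 : 0 ≤ (-z') ^ (2 * t) * (-z') := mul_nonneg (Real.rpow_nonneg hn _) hn
      rw [abs_of_nonneg (by nlinarith)]
      have e5 : 0 ≤ 2 * t * (M ^ (2 * t) * (z - z')) :=
        mul_nonneg (by linarith) (mul_nonneg hMt (by linarith))
      nlinarith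
    · rw [abs_of_nonpos h0, abs_of_nonpos h1, abs_of_nonneg (sub_nonneg.2 hzz)]
      rw [abs_of_nonpos h0] at hz'
      have hn : 0 ≤ -z := by linarith
      have hn' : 0 ≤ -z' := by linarith
      have hle : -z ≤ -z' := by linarith
      have hmono : (-z) ^ (2 * t) * (-z) ≤ (-z') ^ (2 * t) * (-z') :=
        mul_le_mul (Real.rpow_le_rpow hn hle (by linarith)) hle hn (Real.rpow_nonneg hn' _)
      rw [abs_of_nonneg (by nlinarith)]
      have h2 := g_mono_aux t ht hn hle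
      have h3 : (-z') ^ (2 * t) ≤ M ^ (2 * t) := Real.rpow_le_rpow hn' hz' (by linarith)
      have hd : 0 ≤ -z' - -z := by linarith
      have h4 : (1 + 2 * t) * (-z') ^ (2 * t) * (-z' - -z) ≤ (1 + 2 * t) * M ^ (2 * t) * (-z' - -z) := by
        gcongr
      calc (-z) ^ (2 * t) * z - (-z') ^ (2 * t) * z' =
          (-z') ^ (2 * t) * (-z') - (-z) ^ (2 * t) * (-z) := by ring
        _ ≤ (1 + 2 * t) * M ^ (2 * t) * (-z' - -z) := h2.trans h4
        _ = _ := by ring

theorem taylor (t : ℝ) (ht : 0 ≤ t) (x y : ℝ) :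
    |x + y| ^ (2 + 2 * t) ≤ |x| ^ (2 + 2 * t) + (2 + 2 * t) * (|x| ^ (2 * t) * x) * y
      + (1 + t) * (1 + 2 * t) * (|x| + |y|) ^ (2 * t) * y ^ 2 := by
  set M := |x| + |y| with hM
  set h : ℝ → ℝ := fun s => |x + s * y| ^ (2 + 2 * t) - (2 + 2 * t) * (|x| ^ (2 * t) * x) * y * s
      - (1 + t) * (1 + 2 * t) * M ^ (2 * t) * y ^ 2 * s ^ 2 with hh
  have hder : ∀ s : ℝ, HasDerivAt h ((2 + 2 * t) * |x + s * y| ^ (2 + 2 * t - 2) * (x + s * y) * y
      - (2 + 2 * t) * (|x| ^ (2 * t) * x) * y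
      - (1 + t) * (1 + 2 * t) * M ^ (2 * t) * y ^ 2 * (2 * s)) s := by
    intro s
    have h1 : HasDerivAt (fun s : ℝ => x + s * y) y s := by
      simpa using ((hasDerivAt_id s).mul_const y).const_add x
    have h2 := (hasDerivAt_abs_rpow (x + s * y) (p := 2 + 2 * t) (by linarith)).comp s h1
    have h3 : HasDerivAt (fun s : ℝ => (2 + 2 * t) * (|x| ^ (2 * t) * x) * y * s)
        ((2 + 2 * t) * (|x| ^ (2 * t) * x) * y) s := by
      simpa using (hasDerivAt_id s).const_mul ((2 + 2 * t) * (|x| ^ (2 * t) * x) * y)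
    have h4 : HasDerivAt (fun s : ℝ => (1 + t) * (1 + 2 * t) * M ^ (2 * t) * y ^ 2 * s ^ 2)
        ((1 + t) * (1 + 2 * t) * M ^ (2 * t) * y ^ 2 * (2 * s)) s := by
      have := (hasDerivAt_pow 2 s).const_mul ((1 + t) * (1 + 2 * t) * M ^ (2 * t) * y ^ 2)
      simpa using this
    exact (h2.sub h3).sub h4
  have hanti : AntitoneOn h (Set.Icc 0 1) := by
    apply antitoneOn_of_deriv_nonpos (convex_Icc 0 1)
    · exact fun s _ => (hder s).continuousAt.continuousWithinAt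
    · exact fun s _ => (hder s).differentiableAt.differentiableWithinAt
    · intro s hs
      rw [interior_Icc] at hs
      rw [(hder s).deriv]
      have hp : (2 + 2 * t - 2 : ℝ) = 2 * t := by ring
      rw [hp]
      have hs0 : 0 ≤ s := hs.1.le
      have hz : |x + s * y| ≤ M := by
        calc |x + s * y| ≤ |x| + |s * y| := abs_add_le _ _
          _ = |x| + s * |y| := by rw [abs_mul, abs_of_nonneg hs0]
          _ ≤ |x| + 1 * |y| := by
            have := abs_nonneg y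
            nlinarith [hs.2]
          _ = M := by rw [hM, one_mul]
      have hz' : |x| ≤ M := by
        rw [hM]
        linarith [abs_nonneg y]
      have hl := g_lip t ht hz hz'
      have e1 : x + s * y - x = s * y := by ring
      rw [e1, abs_mul, abs_of_nonneg hs0] at hl
      have hprod : (|x + s * y| ^ (2 * t) * (x + s * y) - |x| ^ (2 * t) * x) * y ≤
          (1 + 2 * t) * M ^ (2 * t) * (s * |y|) * |y| := by
        calc _ ≤ |(|x + s * y| ^ (2 * t) * (x + s * y) - |x| ^ (2 * t) * x) * y| := le_abs_self _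
          _ = |(|x + s * y| ^ (2 * t) * (x + s * y) - |x| ^ (2 * t) * x)| * |y| := abs_mul _ _
          _ ≤ _ := mul_le_mul_of_nonneg_right hl (abs_nonneg y)
      have e2 : (1 + 2 * t) * M ^ (2 * t) * (s * |y|) * |y| = (1 + 2 * t) * M ^ (2 * t) * s * y ^ 2 := by
        rw [← sq_abs y]; ring
      rw [e2] at hprod
      have h5 : 0 ≤ 2 + 2 * t := by linarith
      have h6 := mul_le_mul_of_nonneg_left hprod h5
      nlinarith
  have h01 := hanti (Set.left_mem_Icc.2 zero_le_one) (Set.right_mem_Icc.2 zero_le_one) zero_le_one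
  simp only [hh] at h01
  simp only [one_mul, mul_one, one_pow, zero_mul, add_zero, mul_zero] at h01
  have : (0 : ℝ) ^ 2 = 0 := by norm_num
  rw [this] at h01
  simp only [mul_zero, sub_zero] at h01
  linarith

private theorem pa2b_sq_rpow (x p : ℝ) : (x ^ 2) ^ (p / 2) = |x| ^ p := by
  rw [← sq_abs, ← Real.rpow_natCast, ← Real.rpow_mul (abs_nonneg x)]
  congr 1
  push_cast
  ring

private theorem pa2b_mean {p : ℝ} (hp : 1 ≤ p) {a b : ℝ} (ha : 0 ≤ a) (hb : 0 ≤ b) :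
    (1 / 2 * a + 1 / 2 * b) ^ p ≤ 1 / 2 * a ^ p + 1 / 2 * b ^ p := by
  have hc := convexOn_rpow hp
  have h := hc.2 ha hb (show (0 : ℝ) ≤ 1 / 2 by norm_num) (show (0 : ℝ) ≤ 1 / 2 by norm_num)
    (show (1 / 2 : ℝ) + 1 / 2 = 1 by norm_num)
  simpa [smul_eq_mul] using h

theorem clarkson (p : ℝ) (hp : 2 ≤ p) (x y : ℝ) :
    |(x + y) / 2| ^ p + |(x - y) / 2| ^ p ≤ (|x| ^ p + |y| ^ p) / 2 := by
  rw [← pa2b_sq_rpow, ← pa2b_sq_rpow, ← pa2b_sq_rpow, ← pa2b_sq_rpow]
  have hp2 : 1 ≤ p / 2 := by linarith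
  refine (Real.add_rpow_le_rpow_add (sq_nonneg _) (sq_nonneg _) hp2).trans ?_
  have h1 : ((x + y) / 2) ^ 2 + ((x - y) / 2) ^ 2 = 1 / 2 * x ^ 2 + 1 / 2 * y ^ 2 := by ring
  rw [h1]
  have h2 := pa2b_mean hp2 (sq_nonneg x) (sq_nonneg y)
  linarith

theorem abs_sum_rpow_le {τ : Type*} (p : ℝ) (hp : 1 ≤ p) (s : Finset τ) (z : τ → ℝ) :
    |∑ i ∈ s, z i| ^ p ≤ (s.card : ℝ) ^ (p - 1) * ∑ i ∈ s, |z i| ^ p := by
  have h0 : 0 ≤ p := zero_le_one.trans hp
  exact (Real.rpow_le_rpow (abs_nonneg _) (Finset.abs_sum_le_sum_abs _ _) h0).trans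
    (Real.rpow_sum_le_const_mul_sum_rpow s z hp)

theorem abs_add_rpow_le (p : ℝ) (hp : 1 ≤ p) (x y : ℝ) :
    |x + y| ^ p ≤ 2 ^ (p - 1) * (|x| ^ p + |y| ^ p) := by
  have h0 : 0 ≤ p := zero_le_one.trans hp
  refine (Real.rpow_le_rpow (abs_nonneg _) (abs_add_le x y) h0).trans ?_
  have h1 := pa2b_mean hp (abs_nonneg x) (abs_nonneg y)
  have h2 : |x| + |y| = 2 * (1 / 2 * |x| + 1 / 2 * |y|) := by ring
  have h3 : (0 : ℝ) ≤ 1 / 2 * |x| + 1 / 2 * |y| := by positivity
  rw [h2, Real.mul_rpow (by norm_num) h3]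
  have h4 : (2 : ℝ) ^ p = 2 ^ (p - 1) * 2 := by
    rw [Real.rpow_sub_one (by norm_num)]
    ring
  rw [h4]
  have h5 : (0 : ℝ) < 2 ^ (p - 1) := by positivity
  calc (2 : ℝ) ^ (p - 1) * 2 * (1 / 2 * |x| + 1 / 2 * |y|) ^ p
      ≤ 2 ^ (p - 1) * 2 * (1 / 2 * |x| ^ p + 1 / 2 * |y| ^ p) :=
        mul_le_mul_of_nonneg_left h1 (by positivity)
    _ = 2 ^ (p - 1) * (|x| ^ p + |y| ^ p) := by ring

/-- Young: used in the proof of Doob's inequality -/
theorem young_doob (q : ℝ) (hq : 1 < q) {x y : ℝ} (hx : 0 ≤ x) (hxy : x ≤ y) :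
    (q - 1) / q * (y ^ q - x ^ q) ≤ y * (y ^ (q - 1) - x ^ (q - 1)) := by
  have hy : 0 ≤ y := hx.trans hxy
  have hq0 : 0 < q := by linarith
  have h1 := Real.geom_mean_le_arith_mean2_weighted (w₁ := 1 / q) (w₂ := (q - 1) / q)
    (p₁ := y ^ q) (p₂ := x ^ q) (by positivity) (div_nonneg (by linarith) hq0.le)
    (Real.rpow_nonneg hy q) (Real.rpow_nonneg hx q) (by field_simp; ring)
  rw [← Real.rpow_mul hy, ← Real.rpow_mul hx] at h1
  have h2 : q * (1 / q) = 1 := by field_simp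
  have h3 : q * ((q - 1) / q) = q - 1 := by field_simp
  rw [h2, h3, Real.rpow_one] at h1
  have h4 : y * y ^ (q - 1) = y ^ q := by
    rcases hy.eq_or_lt with h | h
    · rw [← h, Real.zero_rpow hq0.ne', zero_mul]
    · rw [Real.rpow_sub_one h.ne']
      field_simp
  have h5 : (q - 1) / q = 1 - 1 / q := by field_simp
  rw [mul_sub y, h4]
  rw [h5] at h1 ⊢
  linarith

/-- convexity: used in the dual Doob inequality -/
theorem rpow_sub_le (s : ℝ) (hs : 1 ≤ s) {x a : ℝ} (hx : 0 ≤ x) (ha : 0 ≤ a) :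
    (x + a) ^ s - x ^ s ≤ s * (a * (x + a) ^ (s - 1)) := by
  have hu : 0 ≤ x + a := add_nonneg hx ha
  rcases hu.eq_or_lt with h | h
  · have hx0 : x = 0 := by linarith
    have ha0 : a = 0 := by linarith
    subst hx0
    subst ha0
    simp
  · have h1 := one_add_mul_self_le_rpow_one_add (s := -(a / (x + a))) (p := s)
      (by
        rw [neg_le_neg_iff, div_le_one h]
        linarith) hs
    have h2 : 1 + -(a / (x + a)) = x / (x + a) := by
      field_simp
      ring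
    rw [h2, Real.div_rpow hx hu] at h1
    have h3 : 0 < (x + a) ^ s := Real.rpow_pos_of_pos h s
    rw [le_div_iff₀ h3] at h1
    have h4 : (x + a) ^ (s - 1) = (x + a) ^ s / (x + a) := Real.rpow_sub_one h.ne' s
    rw [h4]
    have h5 : (1 + s * -(a / (x + a))) * (x + a) ^ s =
        (x + a) ^ s - s * (a * ((x + a) ^ s / (x + a))) := by
      field_simp
      ring
    rw [h5] at h1
    linarith

end Pool.FPA
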