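import Pool.Agent.FPZ.PA6

/-!
Module PA3 (45 min): Doob's `L^q` inequality, `q > 1`, for the martingale `M_k = av (B k) F`.
Write `N_k = M_k - M_0`, `m_n = mx B F n` (maximum of `|N_k|`, `k ≤ n`).
Claim `(q-1)/q * E m_n^q ≤ E (m_n^(q-1) * |N_n|)` by induction on `n`.
`n = 0`: both sides vanish (`0^q = 0`, `0^(q-1) = 0`).
Step: `m_(n+1) = max (m_n) |N_(n+1)|`. Pointwise
`m_(n+1)^(q-1) |N_(n+1)| = m_n^(q-1) |N_(n+1)| + (m_(n+1)^(q-1) - m_n^(q-1)) m_(n+1)` (if
`m_(n+1) > m_n` then `m_(n+1) = |N_(n+1)|`, else the last bracket vanishes), and the last term is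
`≥ (q-1)/q (m_(n+1)^q - m_n^q)` by `young_doob`. Average: the first term has
`E (m_n^(q-1) |N_(n+1)|) ≥ E (m_n^(q-1) |N_n|)` by `submart` with `G = m_n^(q-1)`
(`Off (B n)` by `Off_mx`), `c = M_0` (`Off (B n)` by `Off_av`, `B n ⊆ B 0`).
Then `Ex_holder_mul` (with `f = |N_n|`, `g = m_n`, `s = q`) and `absorb` (with `Z = E m_n^q`,
`C = q/(q-1)`, `X = E |N_n|^q`).
-/

set_option autoImplicit false

noncomputable section

namespace Pool.FPA

open Finset Pool.FPP

section

variable {ι α : Type*} [Fintype ι] [DecidableEq ι] [Fintype α] [Nonempty α]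

theorem doob_aux {B : ℕ → Finset ι} (hB : Antitone B) (F : (ι → α) → ℝ) {q : ℝ} (hq : 1 < q)
    (n : ℕ) :
    (q - 1) / q * Ex (fun ω => mx B F n ω ^ q) ≤
      Ex (fun ω => |av (B n) F ω - av (B 0) F ω| * mx B F n ω ^ (q - 1)) := by
  have hq0 : 0 < q := by linarith
  have hqne : q ≠ 0 := hq0.ne'
  have hq1 : q - 1 ≠ 0 := by
    intro h
    linarith
  induction n with
  | zero =>
    have e1 : (fun ω : ι → α => mx B F 0 ω ^ q) = fun _ => (0 : ℝ) := by
      funext ω
      simp only [mx]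
      exact Real.zero_rpow hqne
    have e2 : (fun ω : ι → α => |av (B 0) F ω - av (B 0) F ω| * mx B F 0 ω ^ (q - 1)) =
        fun _ => (0 : ℝ) := by
      funext ω
      rw [sub_self, abs_zero, zero_mul]
    rw [e1, e2, Ex_const, mul_zero]
  | succ n ih =>
    have h1 : Ex (fun ω => mx B F n ω ^ (q - 1) * |av (B n) F ω - av (B 0) F ω|) ≤
        Ex (fun ω => mx B F n ω ^ (q - 1) * |av (B (n + 1)) F ω - av (B 0) F ω|) := by
      refine submart (hB (Nat.le_succ n)) (G := fun ω => mx B F n ω ^ (q - 1))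
        (c := av (B 0) F) ?_ ?_ ?_ F
      · intro η ω
        show mx B F n (mix (B n) η ω) ^ (q - 1) = mx B F n ω ^ (q - 1)
        rw [Off_mx hB F n η ω]
      · intro ω
        exact Real.rpow_nonneg (mx_nonneg B F n ω) _
      · exact Off_av (hB (Nat.zero_le n)) F
    have h2 : ∀ ω : ι → α, (q - 1) / q * mx B F (n + 1) ω ^ q ≤
        ((q - 1) / q * mx B F n ω ^ q +
          |av (B (n + 1)) F ω - av (B 0) F ω| * mx B F (n + 1) ω ^ (q - 1)) -
          mx B F n ω ^ (q - 1) * |av (B (n + 1)) F ω - av (B 0) F ω| := by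
      intro ω
      have hm : mx B F (n + 1) ω = max (mx B F n ω) |av (B (n + 1)) F ω - av (B 0) F ω| := rfl
      have hm0 := mx_nonneg B F n ω
      have hle : mx B F n ω ≤ mx B F (n + 1) ω := by
        rw [hm]
        exact le_max_left _ _
      have hy := young_doob q hq hm0 hle
      have hp : mx B F (n + 1) ω * (mx B F (n + 1) ω ^ (q - 1) - mx B F n ω ^ (q - 1)) =
          |av (B (n + 1)) F ω - av (B 0) F ω| * mx B F (n + 1) ω ^ (q - 1) -
          mx B F n ω ^ (q - 1) * |av (B (n + 1)) F ω - av (B 0) F ω| := by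
        rcases le_total (|av (B (n + 1)) F ω - av (B 0) F ω|) (mx B F n ω) with h | h
        · rw [hm, max_eq_left h]
          ring
        · rw [hm, max_eq_right h]
          ring
      rw [hp] at hy
      have e3 : (q - 1) / q * (mx B F (n + 1) ω ^ q - mx B F n ω ^ q) =
          (q - 1) / q * mx B F (n + 1) ω ^ q - (q - 1) / q * mx B F n ω ^ q := by ring
      rw [e3] at hy
      linarith
    have h3 := Ex_mono h2
    rw [Ex_sub, Ex_add, Ex_mul_left, Ex_mul_left] at h3
    have e4 : Ex (fun ω => mx B F n ω ^ (q - 1) * |av (B n) F ω - av (B 0) F ω|) =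
        Ex (fun ω => |av (B n) F ω - av (B 0) F ω| * mx B F n ω ^ (q - 1)) := by
      congr 1
      funext ω
      ring
    rw [e4] at h1
    linarith

theorem doob {B : ℕ → Finset ι} (hB : Antitone B) (F : (ι → α) → ℝ) {q : ℝ} (hq : 1 < q)
    (n : ℕ) :
    Ex (fun ω => mx B F n ω ^ q) ≤
      (q / (q - 1)) ^ q * Ex (fun ω => |av (B n) F ω - av (B 0) F ω| ^ q) := by
  have hq0 : 0 < q := by linarith
  have hq1 : 0 < q - 1 := by linarith
  have h1 := doob_aux hB F hq n
  have h2 := Ex_holder_mul hq (fun ω => |av (B n) F ω - av (B 0) F ω|) (fun ω => mx B F n ω)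
    (fun ω => abs_nonneg _) (fun ω => mx_nonneg B F n ω)
  refine absorb hq ?_ ?_ ?_ ?_
  · exact Ex_nonneg fun ω => Real.rpow_nonneg (mx_nonneg B F n ω) _
  · exact (div_pos hq0 hq1).le
  · exact Ex_nonneg fun ω => Real.rpow_nonneg (abs_nonneg _) _
  · have h3 := le_trans h1 h2
    have h4 : q / (q - 1) * ((q - 1) / q * Ex (fun ω => mx B F n ω ^ q)) ≤
        q / (q - 1) * ((Ex fun ω => |av (B n) F ω - av (B 0) F ω| ^ q) ^ (1 / q) *
          (Ex fun ω => mx B F n ω ^ q) ^ ((q - 1) / q)) :=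
      mul_le_mul_of_nonneg_left h3 (div_pos hq0 hq1).le
    have e : q / (q - 1) * ((q - 1) / q * Ex (fun ω => mx B F n ω ^ q)) =
        Ex (fun ω => mx B F n ω ^ q) := by
      field_simp
    rw [e] at h4
    exact h4

end

end Pool.FPA
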