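import Pool.Agent.FPZ.PA3

/-!
Module PA4 (60 min): Burkholder inequality with constant `1 + O(t)` near the exponent 2.
Let `p = 2+2t`, `0 < t ≤ 1/2`, `N_k = av (B k) F - av (B 0) F`, `d_k = Dg B F k`, `m = mx B F n`.
1. `taylor` with `x = N_k ω`, `y = d_k ω`, and `|N_k| + |d_k| ≤ 3 m` for `k < n`
   (`|d_k| = |N_(k+1) - N_k| ≤ 2 m`, `le_mx`):
   `|N_(k+1)|^p ≤ |N_k|^p + p (|N_k|^(2t) N_k) d_k + (1+t)(1+2t) 9^t m^(2t) d_k^2`.
2. Average: the linear term vanishes by `Ex_mul_Dg` (`G = |N_k|^(2t) N_k` is `Off (B k)`).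
   Sum over `k < n` (induction or `sum_range_sub`), with `N_0 = 0`, `0^p = 0`:
   `Z := E |N_n|^p ≤ K * E ((∑ d_k^2) * m^(2t))`, `K = (1+t)(1+2t) 9^t`.
3. Hölder with exponents `s = 1+t` and `(1+t)/t`: apply `Ex_holder_mul` with `s = 1+t`,
   `f = ∑ d_k^2`, `g = m^2` (`(m^2)^t = m^(2t)`, `(m^2)^(1+t) = m^p`):
   `Z ≤ K X^(1/s) (E m^p)^((s-1)/s)`, `X = E (∑ d_k^2)^(1+t)`.
4. `doob` with `q = p`: `E m^p ≤ (p/(p-1))^p Z ≤ 2^p Z ≤ 8 Z` (`p/(p-1) ≤ 2`, `p ≤ 3`).
5. `absorb` with `C = K 8^((s-1)/s)`: `Z ≤ C^s X`, `C^s = K^(1+t) 8^t`, and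
   `log (C^s) ≤ (1+t) (t + 2t + t log 9) + t log 8 ≤ 1.5 * 5.2 t + 2.1 t ≤ 12 t`.
   (`log 9 = 2 log 3 < 2.2`, `log 8 = 3 log 2 < 2.1`; `1+t ≤ e^t`, `1+2t ≤ e^(2t)`.)
-/

set_option autoImplicit false

noncomputable section

namespace Pool.FPA

open Finset Pool.FPP

section

variable {ι α : Type*} [Fintype ι] [DecidableEq ι] [Fintype α] [Nonempty α]

/-- steps 1 and 2 -/
theorem burk_aux {B : ℕ → Finset ι} (hB : Antitone B) (F : (ι → α) → ℝ) {t : ℝ} (ht : 0 < t)
    (n : ℕ) :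
    Ex (fun ω => |av (B n) F ω - av (B 0) F ω| ^ (2 + 2 * t)) ≤
      (1 + t) * (1 + 2 * t) * 9 ^ t *
        Ex (fun ω => (∑ k ∈ range n, Dg B F k ω ^ 2) * (mx B F n ω ^ 2) ^ t) := by
  have key : ∀ j ≤ n, Ex (fun ω => |av (B j) F ω - av (B 0) F ω| ^ (2 + 2 * t)) ≤
      (1 + t) * (1 + 2 * t) * 9 ^ t *
        Ex (fun ω => (∑ k ∈ range j, Dg B F k ω ^ 2) * (mx B F n ω ^ 2) ^ t) := by
    intro j
    induction j with
    | zero =>
      intro _
      have h0 : (fun ω => |av (B 0) F ω - av (B 0) F ω| ^ (2 + 2 * t)) = fun _ => (0 : ℝ) := by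
        funext ω
        rw [sub_self, abs_zero, Real.zero_rpow (by linarith)]
      have h1 : (fun ω => (∑ k ∈ range 0, Dg B F k ω ^ 2) * (mx B F n ω ^ 2) ^ t) =
          fun _ => (0 : ℝ) := by
        funext ω
        simp
      rw [h0, h1, Ex_const, mul_zero]
    | succ j ih =>
      intro hj
      have hj' : j ≤ n := Nat.le_of_succ_le hj
      have ih' := ih hj'
      set G : (ι → α) → ℝ := fun ω =>
        |av (B j) F ω - av (B 0) F ω| ^ (2 * t) * (av (B j) F ω - av (B 0) F ω) with hG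
      have hoff : Off (B j) G := by
        have h1 : Off (B j) (av (B j) F) := Off_av (Finset.Subset.refl _) F
        have h2 : Off (B j) (av (B 0) F) := Off_av (hB (Nat.zero_le j)) F
        intro η ω
        simp only [hG]
        rw [h1 η ω, h2 η ω]
      have hz : Ex (fun ω => G ω * Dg B F j ω) = 0 := Ex_mul_Dg (hB (Nat.le_succ j)) hoff F
      have hpt : ∀ ω, |av (B (j + 1)) F ω - av (B 0) F ω| ^ (2 + 2 * t) ≤
          (|av (B j) F ω - av (B 0) F ω| ^ (2 + 2 * t) + (2 + 2 * t) * (G ω * Dg B F j ω)) +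
          (1 + t) * (1 + 2 * t) * 9 ^ t * (Dg B F j ω ^ 2 * (mx B F n ω ^ 2) ^ t) := by
        intro ω
        have hN : av (B (j + 1)) F ω - av (B 0) F ω =
            (av (B j) F ω - av (B 0) F ω) + Dg B F j ω := by
          unfold Dg
          ring
        rw [hN]
        have hT := taylor t ht.le (av (B j) F ω - av (B 0) F ω) (Dg B F j ω)
        have hm0 := mx_nonneg B F n ω
        have h1 : |av (B j) F ω - av (B 0) F ω| ≤ mx B F n ω := le_mx B F hj' ω
        have h2 : |Dg B F j ω| ≤ 2 * mx B F n ω := by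
          have h3 : |av (B (j + 1)) F ω - av (B 0) F ω| ≤ mx B F n ω := le_mx B F hj ω
          have h4 : Dg B F j ω = (av (B (j + 1)) F ω - av (B 0) F ω) -
              (av (B j) F ω - av (B 0) F ω) := by
            unfold Dg
            ring
          rw [h4]
          exact (abs_sub _ _).trans (by linarith)
        have h5 : (|av (B j) F ω - av (B 0) F ω| + |Dg B F j ω|) ^ (2 * t) ≤
            9 ^ t * (mx B F n ω ^ 2) ^ t := by
          calc (|av (B j) F ω - av (B 0) F ω| + |Dg B F j ω|) ^ (2 * t) ≤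
              (3 * mx B F n ω) ^ (2 * t) :=
                Real.rpow_le_rpow (by positivity) (by linarith) (by linarith)
            _ = ((3 * mx B F n ω) ^ (2 : ℝ)) ^ t := Real.rpow_mul (by positivity) _ _
            _ = (9 * mx B F n ω ^ 2) ^ t := by
                congr 1
                rw [Real.rpow_two]
                ring
            _ = _ := Real.mul_rpow (by norm_num) (by positivity)
        have h6 : 0 ≤ (1 + t) * (1 + 2 * t) := by positivity
        have h7 : (1 + t) * (1 + 2 * t) * (|av (B j) F ω - av (B 0) F ω| + |Dg B F j ω|) ^ (2 * t) *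
            Dg B F j ω ^ 2 ≤ (1 + t) * (1 + 2 * t) * (9 ^ t * (mx B F n ω ^ 2) ^ t) *
            Dg B F j ω ^ 2 := by
          gcongr
        calc _ ≤ _ := hT
          _ ≤ |av (B j) F ω - av (B 0) F ω| ^ (2 + 2 * t) + (2 + 2 * t) *
              (|av (B j) F ω - av (B 0) F ω| ^ (2 * t) * (av (B j) F ω - av (B 0) F ω)) *
              Dg B F j ω + (1 + t) * (1 + 2 * t) * (9 ^ t * (mx B F n ω ^ 2) ^ t) *
              Dg B F j ω ^ 2 := by linarith
          _ = _ := by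
              simp only [hG]
              ring
      have hE := Ex_mono hpt
      rw [Ex_add, Ex_add, Ex_mul_left, Ex_mul_left, hz, mul_zero, add_zero] at hE
      have hsum : Ex (fun ω => (∑ k ∈ range (j + 1), Dg B F k ω ^ 2) * (mx B F n ω ^ 2) ^ t) =
          Ex (fun ω => (∑ k ∈ range j, Dg B F k ω ^ 2) * (mx B F n ω ^ 2) ^ t) +
          Ex (fun ω => Dg B F j ω ^ 2 * (mx B F n ω ^ 2) ^ t) := by
        rw [← Ex_add]
        congr 1
        funext ω
        rw [Finset.sum_range_succ]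
        ring
      rw [hsum, mul_add]
      linarith
  exact key n le_rfl

/-- numerical constant of step 5 -/
theorem burk_num {t : ℝ} (ht : 0 < t) (ht1 : t ≤ 1 / 2) :
    ((1 + t) * (1 + 2 * t) * 9 ^ t * 8 ^ (t / (1 + t))) ^ (1 + t) ≤ Real.exp (12 * t) := by
  have he : (2.7182818283 : ℝ) < Real.exp 1 := Real.exp_one_gt_d9
  have hexp : (9.2 : ℝ) ≤ Real.exp 2.25 := by
    have h1 : Real.exp 2.25 = Real.exp 1 * Real.exp 1 * Real.exp 0.25 := by
      rw [← Real.exp_add, ← Real.exp_add]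
      norm_num
    have h2 : (1.25 : ℝ) ≤ Real.exp 0.25 := by
      have := Real.add_one_le_exp (0.25 : ℝ)
      linarith
    rw [h1]
    nlinarith [mul_pos (lt_trans (by norm_num) he) (lt_trans (by norm_num) he)]
  have h9 : (9 : ℝ) ^ t ≤ Real.exp (2.25 * t) := by
    rw [Real.exp_mul]
    exact Real.rpow_le_rpow (by norm_num) (by linarith) ht.le
  have h8 : (8 : ℝ) ^ (t / (1 + t)) ≤ Real.exp (2.25 * (t / (1 + t))) := by
    rw [Real.exp_mul]
    exact Real.rpow_le_rpow (by norm_num) (by linarith) (by positivity)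
  have ha : 1 + t ≤ Real.exp t := by
    have := Real.add_one_le_exp t
    linarith
  have hb : 1 + 2 * t ≤ Real.exp (2 * t) := by
    have := Real.add_one_le_exp (2 * t)
    linarith
  have hbase : (1 + t) * (1 + 2 * t) * 9 ^ t * 8 ^ (t / (1 + t)) ≤
      Real.exp (t + 2 * t + 2.25 * t + 2.25 * (t / (1 + t))) := by
    rw [Real.exp_add, Real.exp_add, Real.exp_add]
    gcongr
  have h0 : (0 : ℝ) ≤ (1 + t) * (1 + 2 * t) * 9 ^ t * 8 ^ (t / (1 + t)) := by positivity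
  calc _ ≤ (Real.exp (t + 2 * t + 2.25 * t + 2.25 * (t / (1 + t)))) ^ (1 + t) :=
        Real.rpow_le_rpow h0 hbase (by linarith)
    _ = Real.exp ((t + 2 * t + 2.25 * t + 2.25 * (t / (1 + t))) * (1 + t)) := by
        rw [← Real.exp_mul]
    _ ≤ Real.exp (12 * t) := by
        apply Real.exp_le_exp.2
        have : (t + 2 * t + 2.25 * t + 2.25 * (t / (1 + t))) * (1 + t) =
            5.25 * t * (1 + t) + 2.25 * t := by
          field_simp
          ring
        rw [this]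
        nlinarith

theorem burkholder {B : ℕ → Finset ι} (hB : Antitone B) (F : (ι → α) → ℝ) {t : ℝ} (ht : 0 < t)
    (ht1 : t ≤ 1 / 2) (n : ℕ) :
    Ex (fun ω => |av (B n) F ω - av (B 0) F ω| ^ (2 + 2 * t)) ≤
      Real.exp (12 * t) * Ex (fun ω => (∑ k ∈ range n, Dg B F k ω ^ 2) ^ (1 + t)) := by
  set Z := Ex (fun ω => |av (B n) F ω - av (B 0) F ω| ^ (2 + 2 * t)) with hZ
  set X := Ex (fun ω => (∑ k ∈ range n, Dg B F k ω ^ 2) ^ (1 + t)) with hX
  set K := (1 + t) * (1 + 2 * t) * 9 ^ t with hK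
  have hK0 : 0 ≤ K := by positivity
  have hZ0 : 0 ≤ Z := Ex_nonneg fun ω => by positivity
  have hsq : ∀ ω, 0 ≤ ∑ k ∈ range n, Dg B F k ω ^ 2 := fun ω =>
    Finset.sum_nonneg fun k _ => sq_nonneg _
  have hX0 : 0 ≤ X := Ex_nonneg fun ω => Real.rpow_nonneg (hsq ω) _
  have h1 : Z ≤ K * Ex (fun ω => (∑ k ∈ range n, Dg B F k ω ^ 2) * (mx B F n ω ^ 2) ^ t) :=
    burk_aux hB F ht n
  have h2 := Ex_holder_mul (s := 1 + t) (by linarith) (fun ω => ∑ k ∈ range n, Dg B F k ω ^ 2)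
    (fun ω => mx B F n ω ^ 2) hsq (fun ω => sq_nonneg _)
  have e1 : (1 + t - 1 : ℝ) = t := by ring
  rw [e1] at h2
  have h3 := doob hB F (q := 2 + 2 * t) (by linarith) n
  have e2 : (fun ω => (mx B F n ω ^ 2) ^ (1 + t)) = fun ω => mx B F n ω ^ (2 + 2 * t) := by
    funext ω
    have hm0 := mx_nonneg B F n ω
    rw [show (2 + 2 * t : ℝ) = 2 * (1 + t) by ring, Real.rpow_mul hm0, Real.rpow_two]
  rw [e2] at h2
  have hc : ((2 + 2 * t) / (2 + 2 * t - 1)) ^ (2 + 2 * t) ≤ (8 : ℝ) := by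
    have hd : (0 : ℝ) < 2 + 2 * t - 1 := by linarith
    have h4 : (2 + 2 * t) / (2 + 2 * t - 1) ≤ 2 := by
      rw [div_le_iff₀ hd]
      linarith
    have h5 : 0 ≤ (2 + 2 * t) / (2 + 2 * t - 1) := by positivity
    calc _ ≤ (2 : ℝ) ^ (2 + 2 * t) := Real.rpow_le_rpow h5 h4 (by linarith)
      _ ≤ (2 : ℝ) ^ (3 : ℝ) := Real.rpow_le_rpow_of_exponent_le (by norm_num) (by linarith)
      _ = 8 := by
        have : (3 : ℝ) = ((3 : ℕ) : ℝ) := by norm_num
        rw [this, Real.rpow_natCast]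
        norm_num
  have h6 : Ex (fun ω => mx B F n ω ^ (2 + 2 * t)) ≤ 8 * Z :=
    h3.trans (mul_le_mul_of_nonneg_right hc hZ0)
  have hm : 0 ≤ Ex (fun ω => mx B F n ω ^ (2 + 2 * t)) :=
    Ex_nonneg fun ω => Real.rpow_nonneg (mx_nonneg B F n ω) _
  have he : 0 ≤ t / (1 + t) := by positivity
  have h7 : (Ex (fun ω => mx B F n ω ^ (2 + 2 * t))) ^ (t / (1 + t)) ≤
      8 ^ (t / (1 + t)) * Z ^ (t / (1 + t)) := by
    rw [← Real.mul_rpow (by norm_num) hZ0]
    exact Real.rpow_le_rpow hm h6 he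
  have h8 : Z ≤ (K * 8 ^ (t / (1 + t))) * (X ^ (1 / (1 + t)) * Z ^ ((1 + t - 1) / (1 + t))) := by
    rw [e1]
    calc Z ≤ K * Ex (fun ω => (∑ k ∈ range n, Dg B F k ω ^ 2) * (mx B F n ω ^ 2) ^ t) := h1
      _ ≤ K * (X ^ (1 / (1 + t)) * (Ex (fun ω => mx B F n ω ^ (2 + 2 * t))) ^ (t / (1 + t))) :=
          mul_le_mul_of_nonneg_left h2 hK0
      _ ≤ K * (X ^ (1 / (1 + t)) * (8 ^ (t / (1 + t)) * Z ^ (t / (1 + t)))) := by
          have : 0 ≤ X ^ (1 / (1 + t)) := Real.rpow_nonneg hX0 _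
          gcongr
      _ = _ := by ring
  have h9 := absorb (s := 1 + t) (by linarith) hZ0 (by positivity) hX0 h8
  exact h9.trans (mul_le_mul_of_nonneg_right (burk_num ht ht1) hX0)

end

end Pool.FPA
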