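import Pool.Agent.FPP.AV

/-!
Module R8Ddb (section 8): dual Doob inequality for averages on a finite product space.

`A i` decreases with `i` (coordinates still averaged at time `i`); `Y i = av (A i) (X i)`, `X i ≥ 0`. Then
`E (∑ Y i)^ρ ≤ ρ^ρ E (∑ X i)^ρ` for `ρ ≥ 1`.
PROOF. `S i = ∑_{j ≤ i} Y j`. For reals `0 ≤ s`, `0 ≤ y`: `(s+y)^ρ - s^ρ ≤ ρ y (s+y)^(ρ-1)`; so `S_n^ρ ≤ ρ ∑_i Y i (S i)^(ρ-1)`.
`S i` does not depend on the coordinates in `A i` (each `Y j`, `j ≤ i`, does not depend on `A j ⊇ A i`), so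
`Ex (Y i (S i)^(ρ-1)) = Ex (av (A i) (X i (S i)^(ρ-1))) = Ex (X i (S i)^(ρ-1)) ≤ Ex (X i S^(ρ-1))`, S the total sum
(use `av_mul_of_indep`, `Ex_av`). Hence `E S^ρ ≤ E[(ρ ∑ X i) S^(ρ-1)] ≤ (1/ρ) E (ρ ∑ X)^ρ + (1 - 1/ρ) E S^ρ` by the
tangent inequality `tangent_rpow` (Young), which is the claim.
-/

set_option autoImplicit false

noncomputable section

namespace Pool.Agent.FPZ

open Finset Pool.FPP

/-- the tangent line of the convex function `x ^ ρ` at `t` -/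
theorem tangent_rpow {ρ t u : ℝ} (hρ : 1 ≤ ρ) (ht : 0 ≤ t) (hu : 0 ≤ u) :
    t ^ ρ + ρ * (u - t) * t ^ (ρ - 1) ≤ u ^ ρ := by
  rcases ht.eq_or_lt with h0 | h0
  · rw [← h0]
    rcases hρ.eq_or_lt with h1 | h1
    · rw [← h1]
      simp
    · rw [Real.zero_rpow (by linarith), Real.zero_rpow (by linarith)]
      simpa using Real.rpow_nonneg hu ρ
  · have hs : -1 ≤ (u - t) / t := by
      rw [le_div_iff₀ h0]; linarith
    have h1 := one_add_mul_self_le_rpow_one_add hs hρ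
    have h2 : 1 + (u - t) / t = u / t := by field_simp; ring
    rw [h2, Real.div_rpow hu ht] at h1
    have h3 : 0 < t ^ ρ := Real.rpow_pos_of_pos h0 ρ
    rw [le_div_iff₀ h3] at h1
    rw [Real.rpow_sub_one h0.ne']
    have h4 : t ^ ρ + ρ * (u - t) * (t ^ ρ / t) = (1 + ρ * ((u - t) / t)) * t ^ ρ := by
      field_simp
    rw [h4]
    exact h1

theorem dual_doob {ι α : Type*} [Fintype ι] [DecidableEq ι] [Fintype α] [Nonempty α]
    (A : ℕ → Finset ι) (hA : ∀ i j, i ≤ j → A j ⊆ A i) (X : ℕ → (ι → α) → ℝ)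
    (hX : ∀ i ω, 0 ≤ X i ω) (n : ℕ) {ρ : ℝ} (hρ : 1 ≤ ρ) :
    Ex (fun ω => (∑ i ∈ range n, av (A i) (X i) ω) ^ ρ) ≤
      ρ ^ ρ * Ex (fun ω => (∑ i ∈ range n, X i ω) ^ ρ) := by
  have hρ0 : 0 < ρ := by linarith
  set T : ℕ → (ι → α) → ℝ := fun k ω => ∑ i ∈ range k, av (A i) (X i) ω with hT
  set S : (ι → α) → ℝ := fun ω => ∑ i ∈ range n, X i ω with hS
  have hY : ∀ i ω, 0 ≤ av (A i) (X i) ω := fun i ω => av_nonneg _ (hX i) ω
  have hT0 : ∀ k ω, 0 ≤ T k ω := fun k ω => Finset.sum_nonneg fun i _ => hY i ω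
  have hS0 : ∀ ω, 0 ≤ S ω := fun ω => Finset.sum_nonneg fun i _ => hX i ω
  have hTs : ∀ k ω, T (k + 1) ω = T k ω + av (A k) (X k) ω := fun k ω =>
    Finset.sum_range_succ _ _
  have hTm : ∀ k ω, k ≤ n → T k ω ≤ T n ω := by
    intro k ω hk
    exact Finset.sum_le_sum_of_subset_of_nonneg (Finset.range_mono hk) fun i _ _ => hY i ω
  -- pointwise bound
  have h1 : ∀ k ω, T k ω ^ ρ ≤ ∑ i ∈ range k, ρ * (av (A i) (X i) ω * T (i + 1) ω ^ (ρ - 1)) := by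
    intro k ω
    induction k with
    | zero => simp [hT, Real.zero_rpow hρ0.ne']
    | succ k ih =>
      rw [Finset.sum_range_succ]
      have h2 := tangent_rpow hρ (hT0 (k + 1) ω) (hT0 k ω)
      have h3 : T k ω - T (k + 1) ω = -av (A k) (X k) ω := by rw [hTs]; ring
      rw [h3] at h2
      have h4 : ρ * -av (A k) (X k) ω * T (k + 1) ω ^ (ρ - 1)
          = -(ρ * (av (A k) (X k) ω * T (k + 1) ω ^ (ρ - 1))) := by ring
      rw [h4] at h2
      linarith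
  -- independence
  have h2 : ∀ i, Ex (fun ω => av (A i) (X i) ω * T (i + 1) ω ^ (ρ - 1))
      = Ex (fun ω => X i ω * T (i + 1) ω ^ (ρ - 1)) := by
    intro i
    have hind : ∀ η ω, (T (i + 1) (mix (A i) η ω)) ^ (ρ - 1) = (T (i + 1) ω) ^ (ρ - 1) := by
      intro η ω
      congr 1
      refine Finset.sum_congr rfl fun j hj => ?_
      have hji : j ≤ i := Nat.lt_succ_iff.1 (Finset.mem_range.1 hj)
      refine av_congr_off _ _ _ _ fun x hx => ?_
      have hx' : x ∉ A i := fun h => hx (hA j i hji h)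
      simp [mix, hx']
    have h3 : Ex (av (A i) (fun ω => T (i + 1) ω ^ (ρ - 1) * X i ω))
        = Ex (fun ω => T (i + 1) ω ^ (ρ - 1) * X i ω) := Ex_av _ _
    have h4 : ∀ ω, av (A i) (fun ω => T (i + 1) ω ^ (ρ - 1) * X i ω) ω
        = T (i + 1) ω ^ (ρ - 1) * av (A i) (X i) ω := fun ω =>
      av_mul_of_indep (A i) (X i) (fun ω => T (i + 1) ω ^ (ρ - 1)) hind ω
    have h5 : Ex (av (A i) (fun ω => T (i + 1) ω ^ (ρ - 1) * X i ω))
        = Ex (fun ω => T (i + 1) ω ^ (ρ - 1) * av (A i) (X i) ω) := by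
      congr 1
      funext ω
      exact h4 ω
    rw [h5] at h3
    calc Ex (fun ω => av (A i) (X i) ω * T (i + 1) ω ^ (ρ - 1))
        = Ex (fun ω => T (i + 1) ω ^ (ρ - 1) * av (A i) (X i) ω) := by
          congr 1; funext ω; ring
      _ = Ex (fun ω => T (i + 1) ω ^ (ρ - 1) * X i ω) := h3
      _ = _ := by congr 1; funext ω; ring
  have h3 : Ex (fun ω => T n ω ^ ρ) ≤ Ex (fun ω => ρ * S ω * T n ω ^ (ρ - 1)) := by
    calc Ex (fun ω => T n ω ^ ρ)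
        ≤ Ex (fun ω => ∑ i ∈ range n, ρ * (av (A i) (X i) ω * T (i + 1) ω ^ (ρ - 1))) :=
          Ex_mono fun ω => h1 n ω
      _ = ∑ i ∈ range n, ρ * Ex (fun ω => av (A i) (X i) ω * T (i + 1) ω ^ (ρ - 1)) := by
          rw [Ex_sum]
          exact Finset.sum_congr rfl fun i _ => Ex_mul_left _ _
      _ = ∑ i ∈ range n, ρ * Ex (fun ω => X i ω * T (i + 1) ω ^ (ρ - 1)) := by
          exact Finset.sum_congr rfl fun i _ => by rw [h2 i]
      _ ≤ ∑ i ∈ range n, ρ * Ex (fun ω => X i ω * T n ω ^ (ρ - 1)) := by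
          refine Finset.sum_le_sum fun i hi => ?_
          refine mul_le_mul_of_nonneg_left (Ex_mono fun ω => ?_) hρ0.le
          refine mul_le_mul_of_nonneg_left ?_ (hX i ω)
          exact Real.rpow_le_rpow (hT0 _ _) (hTm _ _ (Finset.mem_range.1 hi)) (by linarith)
      _ = Ex (fun ω => ρ * S ω * T n ω ^ (ρ - 1)) := by
          have h6 : ∀ i, ρ * Ex (fun ω => X i ω * T n ω ^ (ρ - 1))
              = Ex (fun ω => ρ * (X i ω * T n ω ^ (ρ - 1))) := fun i => (Ex_mul_left _ _).symm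
          simp only [h6]
          rw [← Ex_sum]
          congr 1
          funext ω
          rw [hS, ← Finset.mul_sum, ← Finset.sum_mul]
          ring
  have h4 : ∀ ω, ρ * (ρ * S ω * T n ω ^ (ρ - 1)) ≤ (ρ ^ ρ * S ω ^ ρ) + (ρ - 1) * T n ω ^ ρ := by
    intro ω
    have h5 := tangent_rpow hρ (hT0 n ω) (mul_nonneg hρ0.le (hS0 ω))
    rw [Real.mul_rpow hρ0.le (hS0 ω)] at h5
    have h6 : T n ω * T n ω ^ (ρ - 1) = T n ω ^ ρ := by
      rcases (hT0 n ω).eq_or_lt with h7 | h7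
      · rw [← h7, Real.zero_rpow hρ0.ne', zero_mul]
      · rw [Real.rpow_sub_one h7.ne']
        field_simp
    have h7 : ρ * (ρ * S ω - T n ω) * T n ω ^ (ρ - 1)
        = ρ * (ρ * S ω * T n ω ^ (ρ - 1)) - ρ * T n ω ^ ρ := by
      rw [← h6]; ring
    rw [h7] at h5
    linarith
  have h5 : ρ * Ex (fun ω => ρ * S ω * T n ω ^ (ρ - 1))
      ≤ ρ ^ ρ * Ex (fun ω => S ω ^ ρ) + (ρ - 1) * Ex (fun ω => T n ω ^ ρ) := by
    rw [← Ex_mul_left, ← Ex_mul_left, ← Ex_mul_left, ← Ex_add]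
    exact Ex_mono h4
  have h6 : ρ * Ex (fun ω => T n ω ^ ρ) ≤ ρ * Ex (fun ω => ρ * S ω * T n ω ^ (ρ - 1)) :=
    mul_le_mul_of_nonneg_left h3 hρ0.le
  change Ex (fun ω => T n ω ^ ρ) ≤ ρ ^ ρ * Ex (fun ω => S ω ^ ρ)
  linarith

end Pool.Agent.FPZ
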