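import Pool.Agent.FPZ.PA1
import Pool.Agent.FPZ.PA2
import Pool.Agent.FPZ.R8Ddb

/-!
Module PA6 (40 min): Hölder, Jensen, Minkowski-type inequalities for `Ex` and `av`.
* `Ex_holder`: `Real.inner_le_Lp_mul_Lq` (or `Real.inner_le_Lp_mul_Lq_of_nonneg`) for the sums and
  `N = N^(1/r) * N^(1/r')` for the normalisation.
* `Ex_rpow_le`: Jensen, `Real.inner_le...` or `Real.pow_arith_mean_le_arith_mean_pow`; for example
  from `Ex_holder` with `g = 1`, or `Real.rpow_arith_mean_le_arith_mean_rpow` with weights `1/N`.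
* `av_abs_rpow_le`: `|av A f ω| ≤ av A |f| ω` (`abs_Ex_le`) and `Ex_rpow_le` for `η ↦ f (mix A η ω)`.
* `Ex_abs_av_rpow`: average the previous one, `Ex_av`.
* `absorb`: if `Z = 0` trivial; else divide by `Z^((s-1)/s)` and take the power `s`.
* `Ex_holder_mul`: `Ex (f * g^(s-1)) ≤ (Ex f^s)^(1/s) (Ex g^s)^((s-1)/s)`; from `Ex_holder`.
* `Ex_sq_le_rpow`: `(Ex f^2)^(p/2) ≤ Ex |f|^p` for `p ≥ 2`.
-/

set_option autoImplicit false

noncomputable section

namespace Pool.FPA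

open Finset Pool.FPP

section

variable {Ω : Type*} [Fintype Ω] [Nonempty Ω]

theorem Ex_holder {r r' : ℝ} (h : r.HolderConjugate r') (f g : Ω → ℝ) (hf : ∀ x, 0 ≤ f x)
    (hg : ∀ x, 0 ≤ g x) :
    Ex (fun x => f x * g x) ≤ (Ex fun x => f x ^ r) ^ (1 / r) * (Ex fun x => g x ^ r') ^ (1 / r') := by
  have hN : (0 : ℝ) < (Fintype.card Ω : ℝ) := by exact_mod_cast Fintype.card_pos
  have h1 := Real.inner_le_Lp_mul_Lq_of_nonneg (Finset.univ : Finset Ω) h
    (fun i _ => hf i) (fun i _ => hg i)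
  unfold Ex
  have hsf : 0 ≤ ∑ x, f x ^ r := Finset.sum_nonneg fun i _ => Real.rpow_nonneg (hf i) _
  have hsg : 0 ≤ ∑ x, g x ^ r' := Finset.sum_nonneg fun i _ => Real.rpow_nonneg (hg i) _
  rw [Real.div_rpow hsf hN.le, Real.div_rpow hsg hN.le, div_mul_div_comm, ← Real.rpow_add hN]
  have h2 : 1 / r + 1 / r' = 1 := by
    have := h.inv_add_inv_eq_one
    rw [one_div, one_div]
    exact this
  rw [h2, Real.rpow_one]
  exact div_le_div_of_nonneg_right h1 hN.le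

theorem Ex_rpow_le {p : ℝ} (hp : 1 ≤ p) (f : Ω → ℝ) (hf : ∀ x, 0 ≤ f x) :
    (Ex f) ^ p ≤ Ex (fun x => f x ^ p) := by
  set m := Ex f with hm
  have hm0 : 0 ≤ m := Ex_nonneg hf
  have h1 : ∀ x, m ^ p + p * (f x - m) * m ^ (p - 1) ≤ f x ^ p := fun x =>
    Pool.Agent.FPZ.tangent_rpow hp hm0 (hf x)
  have h2 := Ex_mono h1
  have h3 : Ex (fun x => m ^ p + p * (f x - m) * m ^ (p - 1)) = m ^ p := by
    rw [Ex_add, Ex_const, Ex_mul_right, Ex_mul_left, Ex_sub, Ex_const, ← hm]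
    ring
  rwa [h3] at h2

theorem Ex_holder_mul {s : ℝ} (hs : 1 < s) (f g : Ω → ℝ) (hf : ∀ x, 0 ≤ f x)
    (hg : ∀ x, 0 ≤ g x) :
    Ex (fun x => f x * g x ^ (s - 1)) ≤
      (Ex fun x => f x ^ s) ^ (1 / s) * (Ex fun x => g x ^ s) ^ ((s - 1) / s) := by
  have hs0 : 0 < s := by linarith
  have hs1 : 0 < s - 1 := by linarith
  have h1 := Ex_holder (Real.HolderConjugate.conjExponent hs) f (fun x => g x ^ (s - 1)) hf
    (fun x => Real.rpow_nonneg (hg x) _)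
  have h2 : ∀ x, (g x ^ (s - 1)) ^ (Real.conjExponent s) = g x ^ s := by
    intro x
    rw [← Real.rpow_mul (hg x), Real.conjExponent]
    congr 1
    field_simp
  simp only [h2] at h1
  have h3 : 1 / Real.conjExponent s = (s - 1) / s := by
    rw [Real.conjExponent, one_div_div]
  rw [h3] at h1
  exact h1

theorem absorb {s Z C X : ℝ} (hs : 1 < s) (hZ : 0 ≤ Z) (hC : 0 ≤ C) (hX : 0 ≤ X)
    (h : Z ≤ C * (X ^ (1 / s) * Z ^ ((s - 1) / s))) : Z ≤ C ^ s * X := by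
  have hs0 : 0 < s := by linarith
  rcases hZ.eq_or_lt with h0 | h0
  · rw [← h0]
    exact mul_nonneg (Real.rpow_nonneg hC _) hX
  · have hW : 0 < Z ^ ((s - 1) / s) := Real.rpow_pos_of_pos h0 _
    have hZe : Z = Z ^ (1 / s) * Z ^ ((s - 1) / s) := by
      rw [← Real.rpow_add h0]
      have : 1 / s + (s - 1) / s = 1 := by field_simp; ring
      rw [this, Real.rpow_one]
    have h1 : Z ^ (1 / s) * Z ^ ((s - 1) / s) ≤ C * X ^ (1 / s) * Z ^ ((s - 1) / s) := by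
      rw [← hZe, mul_assoc]
      exact h
    have h2 : Z ^ (1 / s) ≤ C * X ^ (1 / s) := le_of_mul_le_mul_right h1 hW
    have h3 := Real.rpow_le_rpow (Real.rpow_nonneg hZ _) h2 hs0.le
    rw [Real.mul_rpow hC (Real.rpow_nonneg hX _), ← Real.rpow_mul hZ, ← Real.rpow_mul hX] at h3
    have h4 : 1 / s * s = 1 := by field_simp
    rw [h4, Real.rpow_one, Real.rpow_one] at h3
    exact h3

theorem Ex_sq_le_rpow {p : ℝ} (hp : 2 ≤ p) (f : Ω → ℝ) :
    (Ex fun x => f x ^ 2) ^ (p / 2) ≤ Ex fun x => |f x| ^ p := by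
  have h1 := Ex_rpow_le (p := p / 2) (by linarith) (fun x => f x ^ 2) (fun x => sq_nonneg _)
  have h2 : ∀ x, (f x ^ 2) ^ (p / 2) = |f x| ^ p := by
    intro x
    rw [← sq_abs, ← Real.rpow_natCast, ← Real.rpow_mul (abs_nonneg _)]
    congr 1
    push_cast
    ring
  simp only [h2] at h1
  exact h1

theorem Ex_add_rpow_le {p : ℝ} (hp : 1 ≤ p) (f g : Ω → ℝ) :
    Ex (fun x => |f x + g x| ^ p) ≤
      2 ^ (p - 1) * (Ex (fun x => |f x| ^ p) + Ex (fun x => |g x| ^ p)) := by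
  rw [← Ex_add, ← Ex_mul_left]
  exact Ex_mono fun x => abs_add_rpow_le p hp (f x) (g x)

end

section

variable {ι α : Type*} [Fintype ι] [DecidableEq ι] [Fintype α] [Nonempty α]

theorem av_abs_rpow_le {p : ℝ} (hp : 1 ≤ p) (A : Finset ι) (f : (ι → α) → ℝ) (ω : ι → α) :
    |av A f ω| ^ p ≤ av A (fun ω => |f ω| ^ p) ω := by
  have h1 : |av A f ω| ≤ Ex (fun η : ι → α => |f (mix A η ω)|) := abs_Ex_le _
  have h2 := Real.rpow_le_rpow (abs_nonneg _) h1 (zero_le_one.trans hp)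
  exact h2.trans (Ex_rpow_le hp _ fun η => abs_nonneg _)

theorem Ex_abs_av_rpow {p : ℝ} (hp : 1 ≤ p) (A : Finset ι) (f : (ι → α) → ℝ) :
    Ex (fun ω => |av A f ω| ^ p) ≤ Ex (fun ω => |f ω| ^ p) := by
  refine (Ex_mono fun ω => av_abs_rpow_le hp A f ω).trans (le_of_eq ?_)
  exact Ex_av A (fun ω => |f ω| ^ p)

theorem Ex_sq_av_le (A : Finset ι) (f : (ι → α) → ℝ) :
    Ex (fun ω => av A f ω ^ 2) ≤ Ex (fun ω => f ω ^ 2) := by
  refine (Ex_mono fun ω => av_sq_le A f ω).trans (le_of_eq ?_)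
  exact Ex_av A (fun ω => f ω ^ 2)

end

end Pool.FPA
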