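import Pool.Agent.FPZ.PA6
import Pool.Agent.FPZ.R8Ddb

/-!
Module PA7 (40 min): dual Doob inequality. `B` decreasing, `z k ≥ 0`, `a_k = av (B k) (z k)`,
`A_k = ∑ j < k, a_j`. Then `A_n^s ≤ s ∑_{k<n} a_k A_(k+1)^(s-1)` (telescoping, `rpow_sub_le` with
`x = A_k`, `a = a_k`; `0^s = 0`). `A_(k+1)` is `Off (B k)` (each `a_j`, `j ≤ k`, is `Off (B j)`,
`B k ⊆ B j`), so by `Ex_mul_av` `E (A_(k+1)^(s-1) a_k) = E (A_(k+1)^(s-1) z_k) ≤ E (A_n^(s-1) z_k)`.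
Sum: `E A_n^s ≤ s E ((∑ z_k) A_n^(s-1))`; for `s > 1` use `Ex_holder_mul` and `absorb` with `C = s`.
For `s = 1` the statement is an equality (`Ex_av`, `Ex_sum`).
-/

set_option autoImplicit false

noncomputable section

namespace Pool.FPA

open Finset Pool.FPP

section

variable {ι α : Type*} [Fintype ι] [DecidableEq ι] [Fintype α] [Nonempty α]

theorem dual_doob {B : ℕ → Finset ι} (hB : Antitone B) (z : ℕ → (ι → α) → ℝ)
    (hz : ∀ k ω, 0 ≤ z k ω) {s : ℝ} (hs : 1 ≤ s) (n : ℕ) :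
    Ex (fun ω => (∑ k ∈ range n, av (B k) (z k) ω) ^ s) ≤
      s ^ s * Ex (fun ω => (∑ k ∈ range n, z k ω) ^ s) :=
  Pool.Agent.FPZ.dual_doob B (fun _ _ h => hB h) z hz n hs

end

end Pool.FPA
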