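import Pool.Agent.FPZ.PA4
import Pool.Agent.FPZ.PA7

/-!
Module PA8 (60 min): moment bound `E |F - av A F|^(2+2t) ≤ 3000 κ^(2+2t) E #(γ ∩ A)^(1+t)` when the
change of one coordinate `e ∈ A` increases `F` by at most `κ * 1_{e ∈ γ}`.
Let `u e = ind (e ∈ γ ω)`, `p = 2+2t`.
1. `F ω - F (mix {e} η ω) ≤ κ u e (mix {e} η ω)` (hypothesis at `mix {e} η ω` with the new content
   `ω`: `mix {e} ω (mix {e} η ω) = ω`) and `F (mix {e} η ω) - F ω ≤ κ u e ω`, so
   `|F - av {e} F| ≤ κ (u e + av {e} (u e))` and `|F - av {e} F| ≤ κ`.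
2. Enumerate `A` without repetition, `n = A.card`, `e_0 .. e_(n-1)`; `B k = A minus the first k`,
   decreasing, `B 0 = A`, `B n = ∅`. `d_k = Dg B F k = av (B (k+1)) (F - av {e_k} F)` as
   `B k = insert e_k (B (k+1))`. So `|d_k| ≤ κ` and
   `|d_k| ≤ κ (av (B (k+1)) u_k + av (B k) u_k)`, `u_k = u e_k`, hence
   `d_k^2 ≤ κ^2 (av (B (k+1)) u_k + av (B k) u_k)`.
3. `burkholder` (`M_n = F`, `M_0 = av A F`), `∑ u_k = #(γ ∩ A)`, `(x+y)^(1+t) ≤ 2^t (x^(1+t)+y^(1+t))`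
   (`abs_add_rpow_le`), and `dual_doob` twice with `s = 1+t` (families `B` and `k ↦ B (k+1)`):
   constant `e^(12t) 2^t * 2 (1+t)^(1+t) ≤ e^6 * 2^(3/2) * (3/2)^(3/2) ≤ 3000`.
-/

set_option autoImplicit false

noncomputable section

namespace Pool.FPA

open Finset Pool.FPP

section

variable {ι α : Type*} [Fintype ι] [DecidableEq ι] [Fintype α] [Nonempty α]

/-- step 1 -/
theorem abs_sub_av_single (F : (ι → α) → ℝ) {κ : ℝ} (hκ : 0 ≤ κ) (e : ι) (u : (ι → α) → ℝ)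
    (hu0 : ∀ ω, 0 ≤ u ω) (hu1 : ∀ ω, u ω ≤ 1) (h : ∀ η ω, F (mix {e} η ω) - F ω ≤ κ * u ω)
    (ω : ι → α) :
    |F ω - av {e} F ω| ≤ κ ∧ |F ω - av {e} F ω| ≤ κ * (u ω + av {e} u ω) := by
  have hmix : ∀ η : ι → α, mix {e} ω (mix {e} η ω) = ω := by
    intro η
    funext i
    by_cases hi : i = e <;> simp [mix, hi]
  have e1 : F ω - av {e} F ω = Ex (fun η : ι → α => F ω - F (mix {e} η ω)) := by
    rw [Ex_sub, Ex_const]
    rfl
  have h1 : F ω - av {e} F ω ≤ κ * av {e} u ω := by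
    rw [e1]
    calc Ex (fun η : ι → α => F ω - F (mix {e} η ω))
        ≤ Ex (fun η : ι → α => κ * u (mix {e} η ω)) := by
          refine Ex_mono fun η => ?_
          have := h ω (mix {e} η ω)
          rw [hmix η] at this
          exact this
      _ = κ * av {e} u ω := Ex_mul_left _ _
  have e2 : av {e} F ω - F ω = Ex (fun η : ι → α => F (mix {e} η ω) - F ω) := by
    rw [Ex_sub, Ex_const]
    rfl
  have h2 : av {e} F ω - F ω ≤ κ * u ω := by
    rw [e2]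
    calc Ex (fun η : ι → α => F (mix {e} η ω) - F ω)
        ≤ Ex (fun _ : ι → α => κ * u ω) := Ex_mono fun η => h η ω
      _ = κ * u ω := Ex_const _
  have a0 : 0 ≤ av {e} u ω := Ex_nonneg fun η => hu0 _
  have a1 : av {e} u ω ≤ 1 := by
    calc av {e} u ω ≤ Ex (fun _ : ι → α => (1 : ℝ)) := Ex_mono fun η => hu1 _
      _ = 1 := Ex_const _
  have b0 := hu0 ω
  have b1 := hu1 ω
  have c1 : κ * av {e} u ω ≤ κ := by nlinarith
  have c2 : κ * u ω ≤ κ := by nlinarith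
  have c3 : 0 ≤ κ * av {e} u ω := mul_nonneg hκ a0
  have c4 : 0 ≤ κ * u ω := mul_nonneg hκ b0
  refine ⟨abs_le.mpr ⟨by linarith, by linarith⟩, abs_le.mpr ⟨?_, ?_⟩⟩
  · rw [mul_add]; linarith
  · rw [mul_add]; linarith

omit [Fintype ι] in
/-- step 2: existence of the enumeration -/
theorem exists_enum (A : Finset ι) (hA : A.Nonempty) :
    ∃ (e : ℕ → ι) (B : ℕ → Finset ι), Antitone B ∧ B 0 = A ∧ B A.card = ∅ ∧
      (∀ k < A.card, e k ∈ A ∧ B k = insert (e k) (B (k + 1))) ∧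
      (∀ f : ι → ℝ, ∑ k ∈ range A.card, f (e k) = ∑ i ∈ A, f i) := by
  obtain ⟨a, ha⟩ := hA
  let e : ℕ → ι := fun k => if h : k < A.card then ((A.equivFin.symm ⟨k, h⟩ : A) : ι) else a
  have he : ∀ (k : ℕ) (h : k < A.card), e k = ((A.equivFin.symm ⟨k, h⟩ : A) : ι) := by
    intro k h
    simp only [e, dif_pos h]
  refine ⟨e, fun k => (Ico k A.card).image e, ?_, ?_, ?_, ?_, ?_⟩
  · intro k k' hk
    exact image_subset_image (Ico_subset_Ico hk le_rfl)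
  · ext i
    simp only [mem_image, mem_Ico]
    constructor
    · rintro ⟨k, ⟨_, hk⟩, rfl⟩
      rw [he k hk]
      exact (A.equivFin.symm ⟨k, hk⟩).2
    · intro hi
      refine ⟨(A.equivFin ⟨i, hi⟩ : ℕ), ⟨Nat.zero_le _, (A.equivFin ⟨i, hi⟩).2⟩, ?_⟩
      rw [he _ (A.equivFin ⟨i, hi⟩).2]
      simp
  · simp
  · intro k hk
    refine ⟨?_, ?_⟩
    · rw [he k hk]
      exact (A.equivFin.symm ⟨k, hk⟩).2
    · have : Ico k A.card = insert k (Ico (k + 1) A.card) := by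
        ext j
        simp only [mem_Ico, mem_insert]
        omega
      show (Ico k A.card).image e = insert (e k) ((Ico (k + 1) A.card).image e)
      rw [this, image_insert]
  · intro f
    rw [sum_range, ← sum_coe_sort A f]
    rw [← Equiv.sum_comp A.equivFin.symm (fun i : A => f i)]
    refine sum_congr rfl fun k _ => ?_
    rw [he _ k.2]

theorem pa8_num {t : ℝ} (ht : 0 < t) (ht1 : t ≤ 1 / 2) :
    Real.exp (12 * t) * ((2 : ℝ) ^ t * (2 * (1 + t) ^ (1 + t))) ≤ 3000 := by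
  have h1 : Real.exp (12 * t) ≤ 404 := by
    have e1 : Real.exp (12 * t) ≤ Real.exp 6 := Real.exp_le_exp.mpr (by linarith)
    have e2 : Real.exp 6 = Real.exp 1 ^ 6 := by
      rw [← Real.exp_nat_mul]; norm_num
    have e3 : Real.exp 1 ^ 6 ≤ 2.7182818286 ^ 6 :=
      pow_le_pow_left₀ (Real.exp_pos _).le Real.exp_one_lt_d9.le 6
    have e4 : (2.7182818286 : ℝ) ^ 6 ≤ 404 := by norm_num
    linarith
  have h2 : (2 : ℝ) ^ t ≤ 1.415 := by
    have e1 : (2 : ℝ) ^ t ≤ (2 : ℝ) ^ (1 / 2 : ℝ) :=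
      Real.rpow_le_rpow_of_exponent_le (by norm_num) ht1
    have e2 : (2 : ℝ) ^ (1 / 2 : ℝ) = Real.sqrt 2 := by
      rw [Real.sqrt_eq_rpow]
    have e3 : Real.sqrt 2 ≤ 1.415 := by
      rw [Real.sqrt_le_left (by norm_num)]
      norm_num
    linarith
  have h3 : (1 + t) ^ (1 + t) ≤ 9 / 4 := by
    have e1 : (1 + t) ^ (1 + t) ≤ (1 + t) ^ (2 : ℝ) :=
      Real.rpow_le_rpow_of_exponent_le (by linarith) (by linarith)
    have e2 : (1 + t) ^ (2 : ℝ) = (1 + t) ^ (2 : ℕ) := by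
      rw [← Real.rpow_natCast]; norm_num
    have e3 : (1 + t) ^ (2 : ℕ) ≤ 9 / 4 := by nlinarith
    rw [e2] at e1
    exact e1.trans e3
  have p2 : 0 < (2 : ℝ) ^ t := Real.rpow_pos_of_pos (by norm_num) _
  have p3 : 0 < (1 + t) ^ (1 + t) := Real.rpow_pos_of_pos (by linarith) _
  calc Real.exp (12 * t) * ((2 : ℝ) ^ t * (2 * (1 + t) ^ (1 + t)))
      ≤ 404 * (1.415 * (2 * (9 / 4))) := by gcongr
    _ ≤ 3000 := by norm_num

theorem moment {A : Finset ι} (F : (ι → α) → ℝ) {κ : ℝ} (hκ : 0 ≤ κ) (γ : (ι → α) → Finset ι)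
    (h : ∀ e ∈ A, ∀ η ω, F (mix {e} η ω) - F ω ≤ κ * ind (e ∈ γ ω)) {t : ℝ} (ht : 0 < t)
    (ht1 : t ≤ 1 / 2) :
    Ex (fun ω => |F ω - av A F ω| ^ (2 + 2 * t)) ≤
      3000 * κ ^ (2 + 2 * t) * Ex (fun ω => ((γ ω ∩ A).card : ℝ) ^ (1 + t)) := by
  have hκp : 0 ≤ κ ^ (2 + 2 * t) := Real.rpow_nonneg hκ _
  have hRn : 0 ≤ Ex (fun ω => ((γ ω ∩ A).card : ℝ) ^ (1 + t)) :=
    Ex_nonneg fun ω => Real.rpow_nonneg (Nat.cast_nonneg _) _
  rcases A.eq_empty_or_nonempty with hA | hA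
  · subst hA
    have e0 : Ex (fun ω : ι → α => |F ω - av ∅ F ω| ^ (2 + 2 * t)) = 0 := by
      rw [av_empty]
      have : (fun ω : ι → α => |F ω - F ω| ^ (2 + 2 * t)) = fun _ => (0 : ℝ) := by
        funext ω
        rw [sub_self, abs_zero, Real.zero_rpow (by linarith)]
      rw [this, Ex_const]
    rw [e0]
    exact mul_nonneg (mul_nonneg (by norm_num) hκp) hRn
  obtain ⟨e, B, hB, hB0, hBn, hins, hsum⟩ := exists_enum A hA
  set n := A.card with hn
  let u : ℕ → (ι → α) → ℝ := fun k ω => ind (e k ∈ γ ω)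
  have hu0 : ∀ k ω, 0 ≤ u k ω := fun k ω => ind_nonneg _
  have hu1 : ∀ k ω, u k ω ≤ 1 := fun k ω => ind_le_one _
  have hunion : ∀ k < n, B (k + 1) ∪ {e k} = B k := by
    intro k hk
    rw [(hins k hk).2]
    ext i
    simp only [mem_union, mem_singleton, mem_insert]
    tauto
  have hd : ∀ k < n, ∀ ω, Dg B F k ω =
      av (B (k + 1)) (fun ω => F ω - av {e k} F ω) ω := by
    intro k hk ω
    rw [av_sub]
    unfold Dg
    congr 1
    have := av_av (B (k + 1)) {e k} F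
    rw [hunion k hk] at this
    rw [← this]
  have hd1 : ∀ k < n, ∀ ω, |Dg B F k ω| ≤ κ := by
    intro k hk ω
    rw [hd k hk ω]
    calc |av (B (k + 1)) (fun ω => F ω - av {e k} F ω) ω|
        ≤ Ex (fun η : ι → α => |F (mix (B (k + 1)) η ω) - av {e k} F (mix (B (k + 1)) η ω)|) :=
          abs_Ex_le _
      _ ≤ Ex (fun _ : ι → α => κ) := by
          refine Ex_mono fun η => ?_
          exact (abs_sub_av_single F hκ (e k) (u k) (hu0 k) (hu1 k)
            (fun η ω => h (e k) (hins k hk).1 η ω) _).1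
      _ = κ := Ex_const _
  have hd2 : ∀ k < n, ∀ ω, |Dg B F k ω| ≤
      κ * (av (B (k + 1)) (u k) ω + av (B k) (u k) ω) := by
    intro k hk ω
    rw [hd k hk ω]
    have hav : av (B k) (u k) ω = av (B (k + 1)) (av {e k} (u k)) ω := by
      have := av_av (B (k + 1)) {e k} (u k)
      rw [hunion k hk] at this
      rw [← this]
    calc |av (B (k + 1)) (fun ω => F ω - av {e k} F ω) ω|
        ≤ Ex (fun η : ι → α => |F (mix (B (k + 1)) η ω) - av {e k} F (mix (B (k + 1)) η ω)|) :=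
          abs_Ex_le _
      _ ≤ Ex (fun η : ι → α => κ * (u k (mix (B (k + 1)) η ω) +
            av {e k} (u k) (mix (B (k + 1)) η ω))) := by
          refine Ex_mono fun η => ?_
          exact (abs_sub_av_single F hκ (e k) (u k) (hu0 k) (hu1 k)
            (fun η ω => h (e k) (hins k hk).1 η ω) _).2
      _ = κ * (av (B (k + 1)) (u k) ω + av (B k) (u k) ω) := by
          rw [Ex_mul_left, Ex_add, hav]
          rfl
  have hd3 : ∀ k < n, ∀ ω, Dg B F k ω ^ 2 ≤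
      κ ^ 2 * (av (B (k + 1)) (u k) ω + av (B k) (u k) ω) := by
    intro k hk ω
    have a1 := hd1 k hk ω
    have a2 := hd2 k hk ω
    have a3 := abs_nonneg (Dg B F k ω)
    calc Dg B F k ω ^ 2 = |Dg B F k ω| * |Dg B F k ω| := by rw [← sq, sq_abs]
      _ ≤ κ * (κ * (av (B (k + 1)) (u k) ω + av (B k) (u k) ω)) :=
          mul_le_mul a1 a2 a3 hκ
      _ = _ := by ring
  let a : (ι → α) → ℝ := fun ω => ∑ k ∈ range n, av (B (k + 1)) (u k) ω
  let b : (ι → α) → ℝ := fun ω => ∑ k ∈ range n, av (B k) (u k) ω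
  have ha0 : ∀ ω, 0 ≤ a ω := fun ω => sum_nonneg fun k _ => Ex_nonneg fun η => hu0 _ _
  have hb0 : ∀ ω, 0 ≤ b ω := fun ω => sum_nonneg fun k _ => Ex_nonneg fun η => hu0 _ _
  have hs1 : ∀ ω, ∑ k ∈ range n, Dg B F k ω ^ 2 ≤ κ ^ 2 * (a ω + b ω) := by
    intro ω
    calc ∑ k ∈ range n, Dg B F k ω ^ 2
        ≤ ∑ k ∈ range n, κ ^ 2 * (av (B (k + 1)) (u k) ω + av (B k) (u k) ω) :=
          sum_le_sum fun k hk => hd3 k (mem_range.mp hk) ω
      _ = κ ^ 2 * (a ω + b ω) := by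
          rw [← mul_sum, sum_add_distrib]
  have hs2 : ∀ ω, (∑ k ∈ range n, Dg B F k ω ^ 2) ^ (1 + t) ≤
      κ ^ (2 + 2 * t) * ((2 : ℝ) ^ t * (a ω ^ (1 + t) + b ω ^ (1 + t))) := by
    intro ω
    have c1 : (∑ k ∈ range n, Dg B F k ω ^ 2) ^ (1 + t) ≤ (κ ^ 2 * (a ω + b ω)) ^ (1 + t) :=
      Real.rpow_le_rpow (sum_nonneg fun k _ => sq_nonneg _) (hs1 ω) (by linarith)
    have c2 : (κ ^ 2 * (a ω + b ω)) ^ (1 + t) = κ ^ (2 + 2 * t) * (a ω + b ω) ^ (1 + t) := by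
      rw [Real.mul_rpow (sq_nonneg _) (add_nonneg (ha0 ω) (hb0 ω))]
      congr 1
      rw [← Real.rpow_natCast, ← Real.rpow_mul hκ]
      congr 1
      push_cast
      ring
    have c3 := abs_add_rpow_le (1 + t) (by linarith) (a ω) (b ω)
    rw [abs_of_nonneg (add_nonneg (ha0 ω) (hb0 ω)), abs_of_nonneg (ha0 ω),
      abs_of_nonneg (hb0 ω), show (1 + t - 1) = t by ring] at c3
    rw [c2] at c1
    exact c1.trans (mul_le_mul_of_nonneg_left c3 hκp)
  have hcard : ∀ ω, ∑ k ∈ range n, u k ω = ((γ ω ∩ A).card : ℝ) := by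
    intro ω
    have := hsum (fun i => ind (i ∈ γ ω))
    calc ∑ k ∈ range n, u k ω = ∑ i ∈ A, ind (i ∈ γ ω) := this
      _ = ((A.filter (fun i => i ∈ γ ω)).card : ℝ) := by
          rw [card_filter]
          push_cast
          refine sum_congr rfl fun i _ => ?_
          by_cases hi : i ∈ γ ω
          · rw [ind_of hi, if_pos hi]
          · rw [ind_of_not hi, if_neg hi]
      _ = ((γ ω ∩ A).card : ℝ) := by
          congr 2
          ext i
          simp only [mem_filter, mem_inter]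
          tauto
  have hXeq : (fun ω : ι → α => (∑ k ∈ range n, u k ω) ^ (1 + t)) =
      fun ω => ((γ ω ∩ A).card : ℝ) ^ (1 + t) := by
    funext ω
    rw [hcard ω]
  have hDb : Ex (fun ω => b ω ^ (1 + t)) ≤
      (1 + t) ^ (1 + t) * Ex (fun ω => ((γ ω ∩ A).card : ℝ) ^ (1 + t)) := by
    have := dual_doob hB u (fun k ω => hu0 k ω) (s := 1 + t) (by linarith) n
    rw [hXeq] at this
    exact this
  have hDa : Ex (fun ω => a ω ^ (1 + t)) ≤
      (1 + t) ^ (1 + t) * Ex (fun ω => ((γ ω ∩ A).card : ℝ) ^ (1 + t)) := by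
    have hB' : Antitone (fun k => B (k + 1)) := fun i j hij => hB (Nat.succ_le_succ hij)
    have := dual_doob hB' u (fun k ω => hu0 k ω) (s := 1 + t) (by linarith) n
    rw [hXeq] at this
    exact this
  have hbk := burkholder hB F ht ht1 n
  rw [hBn, hB0, av_empty] at hbk
  set X := Ex (fun ω => ((γ ω ∩ A).card : ℝ) ^ (1 + t)) with hX
  have h2t : 0 < (2 : ℝ) ^ t := Real.rpow_pos_of_pos (by norm_num) _
  have hE : Ex (fun ω => (∑ k ∈ range n, Dg B F k ω ^ 2) ^ (1 + t)) ≤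
      κ ^ (2 + 2 * t) * ((2 : ℝ) ^ t * (2 * (1 + t) ^ (1 + t))) * X := by
    calc Ex (fun ω => (∑ k ∈ range n, Dg B F k ω ^ 2) ^ (1 + t))
        ≤ Ex (fun ω => κ ^ (2 + 2 * t) * ((2 : ℝ) ^ t * (a ω ^ (1 + t) + b ω ^ (1 + t)))) :=
          Ex_mono hs2
      _ = κ ^ (2 + 2 * t) * ((2 : ℝ) ^ t * (Ex (fun ω => a ω ^ (1 + t)) +
            Ex (fun ω => b ω ^ (1 + t)))) := by
          rw [Ex_mul_left, Ex_mul_left, Ex_add]
      _ ≤ κ ^ (2 + 2 * t) * ((2 : ℝ) ^ t * ((1 + t) ^ (1 + t) * X + (1 + t) ^ (1 + t) * X)) := by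
          gcongr
      _ = κ ^ (2 + 2 * t) * ((2 : ℝ) ^ t * (2 * (1 + t) ^ (1 + t))) * X := by ring
  calc Ex (fun ω => |F ω - av A F ω| ^ (2 + 2 * t))
      ≤ Real.exp (12 * t) * Ex (fun ω => (∑ k ∈ range n, Dg B F k ω ^ 2) ^ (1 + t)) := hbk
    _ ≤ Real.exp (12 * t) * (κ ^ (2 + 2 * t) * ((2 : ℝ) ^ t * (2 * (1 + t) ^ (1 + t))) * X) := by
        gcongr
    _ = (Real.exp (12 * t) * ((2 : ℝ) ^ t * (2 * (1 + t) ^ (1 + t)))) *
          (κ ^ (2 + 2 * t) * X) := by ring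
    _ ≤ 3000 * (κ ^ (2 + 2 * t) * X) :=
        mul_le_mul_of_nonneg_right (pa8_num ht ht1) (mul_nonneg hκp hRn)
    _ = 3000 * κ ^ (2 + 2 * t) * X := by ring

end

end Pool.FPA
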