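import Pool.Agent.FPP.AV
import Pool.Agent.FPZ.Defs

/-!
# FPZ: rules for `Pr` and `PrC`

Everything about probabilities of events: monotonicity, union bound, complement, Markov, bijections,
averaging over a set of coordinates, independence for functions of disjoint sets of coordinates.
-/

set_option autoImplicit false

noncomputable section

namespace Pool.Agent.FPZ.Q67

open Finset Pool.FPP Pool.Agent.FPZ

section Pr

variable {Ω Ω' : Type} [Fintype Ω] [Fintype Ω']

open Classical in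
theorem Pr_def (s : Ω → Prop) : Pr s = Ex (fun ω => if s ω then (1 : ℝ) else 0) := rfl

theorem Pr_nonneg (s : Ω → Prop) : 0 ≤ Pr s := by
  classical
  refine Ex_nonneg fun x => ?_
  split_ifs <;> norm_num

theorem Pr_mono {s t : Ω → Prop} (h : ∀ ω, s ω → t ω) : Pr s ≤ Pr t := by
  classical
  refine Ex_mono fun x => ?_
  by_cases h1 : s x
  · simp [h1, h x h1]
  · by_cases h2 : t x <;> simp [h1, h2]

theorem Pr_congr {s t : Ω → Prop} (h : ∀ ω, s ω ↔ t ω) : Pr s = Pr t := by
  have : s = t := funext fun ω => propext (h ω)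
  rw [this]

theorem Pr_true [Nonempty Ω] : Pr (fun _ : Ω => True) = 1 := by
  unfold Pr
  simp only [if_true]
  exact Ex_const 1

theorem Pr_false : Pr (fun _ : Ω => False) = 0 := by
  unfold Pr
  simp [Ex]

theorem Pr_le_one [Nonempty Ω] (s : Ω → Prop) : Pr s ≤ 1 := by
  rw [← Pr_true (Ω := Ω)]
  exact Pr_mono fun _ _ => trivial

theorem Pr_or_le (s t : Ω → Prop) : Pr (fun ω => s ω ∨ t ω) ≤ Pr s + Pr t := by
  classical
  unfold Pr
  rw [← Ex_add]
  refine Ex_mono fun x => ?_
  by_cases hA : s x <;> by_cases hB : t x <;> simp [hA, hB]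

theorem Pr_or_of_disjoint {s t : Ω → Prop} (h : ∀ ω, ¬ (s ω ∧ t ω)) :
    Pr (fun ω => s ω ∨ t ω) = Pr s + Pr t := by
  classical
  unfold Pr
  rw [← Ex_add]
  congr 1
  funext x
  by_cases hA : s x <;> by_cases hB : t x
  · exact absurd ⟨hA, hB⟩ (h x)
  all_goals simp [hA, hB]

theorem Pr_not [Nonempty Ω] (s : Ω → Prop) : Pr (fun ω => ¬ s ω) = 1 - Pr s := by
  have h := Pr_or_of_disjoint (s := s) (t := fun ω => ¬ s ω) (fun ω h => h.2 h.1)
  have h1 : Pr (fun ω => s ω ∨ ¬ s ω) = 1 := by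
    rw [← Pr_true (Ω := Ω)]
    exact Pr_congr fun ω => ⟨fun _ => trivial, fun _ => Classical.em _⟩
  rw [h1] at h
  linarith

/-- change of variables -/
theorem Pr_equiv (e : Ω ≃ Ω') (s : Ω' → Prop) : Pr (fun x => s (e x)) = Pr s := by
  classical
  unfold Pr
  rw [← Ex_equiv e]

/-- `s` implies `t` or `u` -/
theorem Pr_le_add {s t u : Ω → Prop} (h : ∀ ω, s ω → t ω ∨ u ω) : Pr s ≤ Pr t + Pr u :=
  (Pr_mono h).trans (Pr_or_le t u)

/-- finite union bound -/
theorem Pr_exists_le {κ : Type*} (K : Finset κ) (s : κ → Ω → Prop) :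
    Pr (fun ω => ∃ k ∈ K, s k ω) ≤ ∑ k ∈ K, Pr (s k) := by
  classical
  induction K using Finset.induction_on with
  | empty => simp [Pr_false]
  | insert k K hk ih =>
    rw [Finset.sum_insert hk]
    refine (Pr_le_add (t := s k) (u := fun ω => ∃ j ∈ K, s j ω) ?_).trans (by linarith)
    rintro ω ⟨j, hj, hs⟩
    rcases Finset.mem_insert.1 hj with rfl | hj
    · exact Or.inl hs
    · exact Or.inr ⟨j, hj, hs⟩

/-- Markov inequality -/
theorem Pr_markov (f : Ω → ℝ) (hf : ∀ ω, 0 ≤ f ω) (x : ℝ) : x * Pr (fun ω => x ≤ f ω) ≤ Ex f := by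
  classical
  unfold Pr
  rw [← Ex_mul_left]
  refine Ex_mono fun ω => ?_
  by_cases h : x ≤ f ω
  · simp [h]
  · simp [h, hf ω]

/-- if an average is at most `ε` then some value is at most `ε` -/
theorem exists_le_of_Ex [Nonempty Ω] (f : Ω → ℝ) (ε : ℝ) (h : Ex f ≤ ε) : ∃ ω, f ω ≤ ε := by
  by_contra hcon
  push Not at hcon
  have hc : (0 : ℝ) < (Fintype.card Ω : ℝ) := by exact_mod_cast Fintype.card_pos
  have h1 : ∑ ω : Ω, ε < ∑ ω : Ω, f ω :=
    Finset.sum_lt_sum_of_nonempty Finset.univ_nonempty fun ω _ => hcon ω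
  rw [Finset.sum_const, Finset.card_univ, nsmul_eq_mul] at h1
  unfold Ex at h
  rw [div_le_iff₀ hc] at h
  linarith

theorem exists_ge_of_Ex [Nonempty Ω] (f : Ω → ℝ) (ε : ℝ) (h : ε ≤ Ex f) : ∃ ω, ε ≤ f ω := by
  have h1 : Ex (fun ω => - f ω) ≤ -ε := by
    have : Ex (fun ω => - f ω) = - Ex f := by
      unfold Ex
      rw [Finset.sum_neg_distrib]
      ring
    rw [this]
    linarith
  obtain ⟨ω, hω⟩ := exists_le_of_Ex _ _ h1
  exact ⟨ω, by linarith⟩

/-- the probabilities of two events defined by two random variables that are often equal -/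
theorem Pr_sub_le {β : Type*} (u v : Ω → β) (a : β → Prop) :
    |Pr (fun ω => a (u ω)) - Pr (fun ω => a (v ω))| ≤ Pr (fun ω => u ω ≠ v ω) := by
  have h1 : ∀ u v : Ω → β, Pr (fun ω => a (u ω)) ≤ Pr (fun ω => a (v ω)) + Pr (fun ω => u ω ≠ v ω) := by
    intro u v
    refine Pr_le_add fun ω hω => ?_
    by_cases h : u ω = v ω
    · left
      rw [← h]
      exact hω
    · exact Or.inr h
  have h2 := h1 u v
  have h3 := h1 v u
  have h4 : Pr (fun ω => v ω ≠ u ω) = Pr (fun ω => u ω ≠ v ω) := Pr_congr fun ω => ne_comm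
  rw [h4] at h3
  rw [abs_le]
  constructor <;> linarith

end Pr

section Indep

variable {ι α : Type} [Fintype ι] [DecidableEq ι] [Fintype α]

/-- the function `f` depends only on the coordinates in `S` -/
def Dep {ι α : Type} {β : Type*} (S : Finset ι) (f : (ι → α) → β) : Prop :=
  ∀ x y : ι → α, (∀ i ∈ S, x i = y i) → f x = f y

omit [Fintype ι] [Fintype α] [DecidableEq ι] in
theorem Dep.comp {β β' : Type*} {S : Finset ι} {f : (ι → α) → β} (h : Dep S f) (g : β → β') :
    Dep S (fun x => g (f x)) := fun x y hxy => congrArg g (h x y hxy)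

omit [Fintype ι] [Fintype α] [DecidableEq ι] in
theorem Dep.pair {β β' : Type*} {S : Finset ι} {f : (ι → α) → β} {g : (ι → α) → β'}
    (h : Dep S f) (h' : Dep S g) : Dep S (fun x => (f x, g x)) :=
  fun x y hxy => Prod.ext (h x y hxy) (h' x y hxy)

omit [Fintype ι] [Fintype α] [DecidableEq ι] in
theorem Dep.mono {β : Type*} {S T : Finset ι} {f : (ι → α) → β} (h : Dep S f) (hST : S ⊆ T) :
    Dep T f := fun x y hxy => h x y (fun i hi => hxy i (hST hi))

variable [Nonempty α]

/-- Fubini for conditional probabilities -/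
theorem Ex_PrC (B : Finset ι) (s : (ι → α) → Prop) : Ex (PrC B s) = Pr s := by
  classical
  exact Ex_av B (fun ω => if s ω then (1 : ℝ) else 0)

theorem PrC_nonneg (B : Finset ι) (s : (ι → α) → Prop) (o : ι → α) : 0 ≤ PrC B s o := Pr_nonneg _

theorem PrC_le_one (B : Finset ι) (s : (ι → α) → Prop) (o : ι → α) : PrC B s o ≤ 1 := Pr_le_one _

/-- two functions of disjoint sets of coordinates -/
theorem Ex_mul_of_dep {S T : Finset ι} (hST : Disjoint S T) {f g : (ι → α) → ℝ}
    (hf : Dep S f) (hg : Dep T g) : Ex (fun ω => g ω * f ω) = Ex g * Ex f := by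
  have h1 : av S (fun ω => g ω * f ω) = fun ω => g ω * av S f ω := by
    funext ω
    refine av_mul_of_indep S f g (fun η ω' => ?_) ω
    refine hg _ _ (fun i hi => ?_)
    have : i ∉ S := fun h => (Finset.disjoint_left.1 hST h hi)
    simp [mix, this]
  have h2 : av S f = fun _ => Ex f := by
    funext ω
    unfold av
    congr 1
    funext η
    refine hf _ _ (fun i hi => ?_)
    simp [mix, hi]
  rw [← Ex_av S, h1, h2]
  exact Ex_mul_right _ _

/-- two independent events -/
theorem Pr_two {S T : Finset ι} (hST : Disjoint S T)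
    {β β' : Type*} {f : (ι → α) → β} {g : (ι → α) → β'} (hf : Dep S f) (hg : Dep T g)
    (a : β → Prop) (b : β' → Prop) :
    Pr (fun ω => a (f ω) ∧ b (g ω)) = Pr (fun ω => a (f ω)) * Pr (fun ω => b (g ω)) := by
  classical
  have e1 : Pr (fun ω => a (f ω) ∧ b (g ω))
      = Ex (fun ω => (if a (f ω) then (1 : ℝ) else 0) * (if b (g ω) then (1 : ℝ) else 0)) := by
    unfold Pr
    congr 1
    funext ω
    by_cases h1 : a (f ω) <;> by_cases h2 : b (g ω) <;> simp [h1, h2]
  rw [e1, Ex_mul_of_dep hST.symm (f := fun ω => if b (g ω) then (1 : ℝ) else 0)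
    (g := fun ω => if a (f ω) then (1 : ℝ) else 0)
    (hg.comp fun y => if b y then (1 : ℝ) else 0) (hf.comp fun y => if a y then (1 : ℝ) else 0)]
  rfl

/-- three independent events -/
theorem Pr_three {S T U : Finset ι} (hST : Disjoint S T) (hSU : Disjoint S U) (hTU : Disjoint T U)
    {β : Type*} {f g h : (ι → α) → β} (hf : Dep S f) (hg : Dep T g) (hh : Dep U h)
    (a b c : β → Prop) :
    Pr (fun ω => a (f ω) ∧ b (g ω) ∧ c (h ω))
      = Pr (fun ω => a (f ω)) * Pr (fun ω => b (g ω)) * Pr (fun ω => c (h ω)) := by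
  have hgh : Dep (T ∪ U) (fun ω => (g ω, h ω)) :=
    (hg.mono Finset.subset_union_left).pair (hh.mono Finset.subset_union_right)
  have hS : Disjoint S (T ∪ U) := by
    rw [Finset.disjoint_union_right]
    exact ⟨hST, hSU⟩
  have h1 := Pr_two hS hf hgh a (fun q => b q.1 ∧ c q.2)
  have h2 := Pr_two hTU hg hh b c
  rw [h1, h2, mul_assoc]

end Indep

end Pool.Agent.FPZ.Q67
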