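import Pool.Agent.FPZ.Defs
import Pool.Agent.FPP.AV

/-!
# First passage percolation: calculus of `Pr` and `PrC`

Elementary rules for probabilities of events under uniform averages: monotonicity, union bound,
complement, Markov, total probability over a block, independence of events of disjoint blocks.
Namespace `Pool.Agent.FPZ.PL` (use `open Pool.Agent.FPZ.PL`).
-/

set_option autoImplicit false

noncomputable section

namespace Pool.Agent.FPZ.PL

open Finset Pool.FPP Pool.Agent.FPZ

section basic

variable {Ω Ω' : Type} [Fintype Ω] [Fintype Ω']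

theorem Pr_nonneg (s : Ω → Prop) : 0 ≤ Pr s := by
  classical
  unfold Pr
  refine Ex_nonneg fun x => ?_
  split_ifs <;> norm_num

theorem Pr_le_one (s : Ω → Prop) : Pr s ≤ 1 := by
  classical
  unfold Pr
  rcases isEmpty_or_nonempty Ω with h | h
  · simp [Ex]
  · refine (Ex_mono (g := fun _ => (1 : ℝ)) fun x => ?_).trans (Ex_const _).le
    split_ifs <;> norm_num

theorem Pr_mono {s t : Ω → Prop} (h : ∀ x, s x → t x) : Pr s ≤ Pr t := by
  classical
  unfold Pr
  refine Ex_mono fun x => ?_
  by_cases hs : s x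
  · simp [hs, h x hs]
  · simp only [hs, if_false]
    split_ifs <;> norm_num

theorem Pr_congr {s t : Ω → Prop} (h : ∀ x, s x ↔ t x) : Pr s = Pr t :=
  le_antisymm (Pr_mono fun x => (h x).1) (Pr_mono fun x => (h x).2)

theorem Pr_or (s t : Ω → Prop) : Pr (fun x => s x ∨ t x) ≤ Pr s + Pr t := by
  classical
  unfold Pr
  rw [← Ex_add]
  refine Ex_mono fun x => ?_
  by_cases hs : s x <;> by_cases ht : t x <;> simp [hs, ht]

theorem Pr_or_of_le {s t : Ω → Prop} {a b : ℝ} (hs : Pr s ≤ a) (ht : Pr t ≤ b) :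
    Pr (fun x => s x ∨ t x) ≤ a + b := (Pr_or s t).trans (add_le_add hs ht)

theorem Pr_not [Nonempty Ω] (s : Ω → Prop) : Pr (fun x => ¬ s x) = 1 - Pr s := by
  classical
  unfold Pr
  rw [← Ex_const (Ω := Ω) (1 : ℝ), ← Ex_sub, Ex_const]
  congr 1
  funext x
  by_cases hs : s x <;> simp [hs]

/-- splitting an event along another one -/
theorem Pr_split (s t : Ω → Prop) :
    Pr s = Pr (fun x => s x ∧ t x) + Pr (fun x => s x ∧ ¬ t x) := by
  classical
  unfold Pr
  rw [← Ex_add]
  congr 1
  funext x
  by_cases hs : s x <;> by_cases ht : t x <;> simp [hs, ht]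

theorem Pr_le_split (s t : Ω → Prop) :
    Pr s ≤ Pr (fun x => s x ∧ t x) + Pr (fun x => ¬ t x) := by
  rw [Pr_split s t]
  have := Pr_mono (s := fun x => s x ∧ ¬ t x) (t := fun x => ¬ t x) (fun x h => h.2)
  linarith

theorem Pr_exists_le {τ : Type*} (I : Finset τ) (s : τ → Ω → Prop) :
    Pr (fun x => ∃ i ∈ I, s i x) ≤ ∑ i ∈ I, Pr (s i) := by
  classical
  unfold Pr
  rw [← Ex_sum]
  refine Ex_mono fun x => ?_
  by_cases h : ∃ i ∈ I, s i x
  · simp only [h, if_true]
    obtain ⟨i, hi, hs⟩ := h
    have h0 : ∀ k ∈ I, (0 : ℝ) ≤ if s k x then (1 : ℝ) else 0 := by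
      intro k _
      split_ifs <;> norm_num
    have := Finset.single_le_sum h0 hi
    simpa [hs] using this
  · simp only [h, if_false]
    refine Finset.sum_nonneg fun k _ => ?_
    split_ifs <;> norm_num

theorem Pr_true [Nonempty Ω] : Pr (fun _ : Ω => True) = 1 := by
  unfold Pr
  simp only [if_true]
  exact Ex_const _

theorem Pr_false : Pr (fun _ : Ω => False) = 0 := by
  unfold Pr
  simp only [if_false]
  simp [Ex]

theorem exists_of_Pr_pos {s : Ω → Prop} (h : 0 < Pr s) : ∃ x, s x := by
  by_contra hc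
  push Not at hc
  have : Pr s = 0 := by
    rw [Pr_congr (t := fun _ => False) (fun x => by simp [hc x])]
    exact Pr_false
  linarith

/-- an event of probability less than one misses a point -/
theorem exists_not_of_Pr_lt [Nonempty Ω] {s : Ω → Prop} (h : Pr s < 1) : ∃ x, ¬ s x := by
  refine exists_of_Pr_pos ?_
  rw [Pr_not]
  linarith

theorem Pr_equiv (e : Ω ≃ Ω') (s : Ω' → Prop) : Pr (fun x => s (e x)) = Pr s := by
  classical
  unfold Pr
  exact Ex_equiv e (fun y => if s y then (1 : ℝ) else 0)

theorem Pr_card (s : Ω → Prop) [DecidablePred s] :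
    Pr s = ((univ.filter s).card : ℝ) / (Fintype.card Ω : ℝ) := by
  classical
  unfold Pr Ex
  congr 1
  rw [Finset.card_filter, Nat.cast_sum]
  refine Finset.sum_congr rfl fun x _ => ?_
  by_cases h : s x <;> simp [h]

/-- Markov -/
theorem Pr_markov {f : Ω → ℝ} {c : ℝ} (hc : 0 < c) (hf : ∀ x, 0 ≤ f x) :
    Pr (fun x => c ≤ f x) ≤ Ex f / c := by
  classical
  rw [le_div_iff₀ hc]
  unfold Pr
  rw [← Ex_mul_right]
  refine Ex_mono fun x => ?_
  by_cases h : c ≤ f x
  · simp [h]
  · simpa [h] using hf x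

/-- `Ex f ≤ c + (sup f) Pr (f > c)` in the form used most often -/
theorem Ex_le_of_Pr [Nonempty Ω] {f : Ω → ℝ} {c M : ℝ} {s : Ω → Prop}
    (h1 : ∀ x, s x → f x ≤ c + M) (h2 : ∀ x, ¬ s x → f x ≤ c) : Ex f ≤ c + M * Pr s := by
  classical
  have h : Ex f ≤ Ex (fun x => c + M * (if s x then (1 : ℝ) else 0)) := by
    refine Ex_mono fun x => ?_
    by_cases hs : s x
    · simpa [hs] using h1 x hs
    · simpa [hs] using h2 x hs
  rw [Ex_add, Ex_const, Ex_mul_left] at h
  exact h

/-- total probability on a product -/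
theorem Pr_prod (s : Ω × Ω' → Prop) : Pr s = Ex (fun x => Pr (fun y => s (x, y))) := by
  classical
  unfold Pr
  exact Ex_prod _

end basic

section cond

variable {ι α : Type} [Fintype ι] [DecidableEq ι] [Fintype α]

omit [Fintype ι] [Fintype α] in
theorem mix_mix_same (B : Finset ι) (η ξ o : ι → α) : mix B ξ (mix B η o) = mix B ξ o := by
  funext i
  by_cases h : i ∈ B <;> simp [mix, h]

omit [Fintype ι] [Fintype α] in
theorem mix_self (B : Finset ι) (o : ι → α) : mix B o o = o := by
  funext i
  by_cases h : i ∈ B <;> simp [mix, h]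

theorem PrC_eq_av (B : Finset ι) (s : (ι → α) → Prop) (o : ι → α) [DecidablePred s] :
    PrC B s o = av B (fun x => if s x then (1 : ℝ) else 0) o := by
  classical
  unfold PrC Pr av
  congr 1
  funext x
  congr 1

theorem PrC_nonneg (B : Finset ι) (s : (ι → α) → Prop) (o : ι → α) : 0 ≤ PrC B s o := Pr_nonneg _

theorem PrC_le_one (B : Finset ι) (s : (ι → α) → Prop) (o : ι → α) : PrC B s o ≤ 1 := Pr_le_one _

theorem PrC_mono (B : Finset ι) {s t : (ι → α) → Prop} (h : ∀ x, s x → t x) (o : ι → α) :
    PrC B s o ≤ PrC B t o := Pr_mono fun _ => h _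

theorem PrC_or (B : Finset ι) (s t : (ι → α) → Prop) (o : ι → α) :
    PrC B (fun x => s x ∨ t x) o ≤ PrC B s o + PrC B t o := Pr_or _ _

theorem PrC_mix (B : Finset ι) (s : (ι → α) → Prop) (η o : ι → α) :
    PrC B s (mix B η o) = PrC B s o := by
  unfold PrC
  simp only [mix_mix_same]

/-- total probability: averaging the conditional probabilities -/
theorem Ex_PrC [Nonempty α] (B : Finset ι) (s : (ι → α) → Prop) :
    Ex (fun o => PrC B s o) = Pr s := by
  classical
  have h : (fun o => PrC B s o) = av B (fun x => if s x then (1 : ℝ) else 0) := by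
    funext o
    exact PrC_eq_av B s o
  rw [h, Ex_av]
  rfl

/-- a bound on all conditional probabilities -/
theorem Pr_le_of_PrC [Nonempty α] (B : Finset ι) {s : (ι → α) → Prop} {c : ℝ}
    (h : ∀ o, PrC B s o ≤ c) : Pr s ≤ c := by
  rw [← Ex_PrC B s]
  calc Ex (fun o => PrC B s o) ≤ Ex (fun _ : ι → α => c) := Ex_mono h
    _ = c := Ex_const c

/-- if `s` depends only on the coordinates in `B` then its conditional probability is `Pr s` -/
theorem PrC_of_dep (B : Finset ι) {s : (ι → α) → Prop}
    (hs : ∀ x y, (∀ i ∈ B, x i = y i) → (s x ↔ s y)) (o : ι → α) : PrC B s o = Pr s := by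
  unfold PrC
  refine Pr_congr fun ξ => hs _ _ fun i hi => ?_
  simp [mix, hi]

/-- if `t` does not depend on the coordinates in `B` -/
theorem PrC_and_of_indep (B : Finset ι) (s : (ι → α) → Prop) {t : (ι → α) → Prop}
    (ht : ∀ x y, (∀ i ∉ B, x i = y i) → (t x ↔ t y)) (o : ι → α) :
    PrC B (fun x => s x ∧ t x) o = PrC B s o * Pr (fun _ : Unit => t o) := by
  classical
  have h1 : ∀ ξ : ι → α, t (mix B ξ o) ↔ t o := fun ξ => ht _ _ fun i hi => by simp [mix, hi]
  by_cases h : t o
  · have h2 : Pr (fun _ : Unit => t o) = 1 := by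
      rw [Pr_congr (t := fun _ => True) (fun _ => by simp [h])]
      exact Pr_true
    rw [h2, mul_one]
    unfold PrC
    refine Pr_congr fun ξ => ?_
    simp [h1, h]
  · have h2 : Pr (fun _ : Unit => t o) = 0 := by
      rw [Pr_congr (t := fun _ => False) (fun _ => by simp [h])]
      exact Pr_false
    rw [h2, mul_zero]
    unfold PrC
    rw [Pr_congr (t := fun _ => False) (fun ξ => by simp [h1, h])]
    exact Pr_false

/-- independence of an event of the coordinates in `B` and an event of the other ones -/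
theorem Pr_and_indep [Nonempty α] (B : Finset ι) {s t : (ι → α) → Prop}
    (hs : ∀ x y, (∀ i ∈ B, x i = y i) → (s x ↔ s y))
    (ht : ∀ x y, (∀ i ∉ B, x i = y i) → (t x ↔ t y)) :
    Pr (fun x => s x ∧ t x) = Pr s * Pr t := by
  classical
  rw [← Ex_PrC B (fun x => s x ∧ t x)]
  have h : ∀ o, PrC B (fun x => s x ∧ t x) o = Pr s * (if t o then (1 : ℝ) else 0) := by
    intro o
    rw [PrC_and_of_indep B s ht o, PrC_of_dep B hs o]
    congr 1
    by_cases h : t o
    · rw [Pr_congr (t := fun _ => True) (fun _ => by simp [h]), Pr_true]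
      simp [h]
    · rw [Pr_congr (t := fun _ => False) (fun _ => by simp [h]), Pr_false]
      simp [h]
  simp only [h]
  rw [Ex_mul_left]
  rfl

/-- independence of the events of pairwise disjoint blocks -/
theorem Pr_forall_indep [Nonempty α] {κ : Type*} [DecidableEq κ] (J : Finset κ)
    (blk : κ → Finset ι) (hd : ∀ j ∈ J, ∀ k ∈ J, j ≠ k → Disjoint (blk j) (blk k))
    (s : κ → (ι → α) → Prop)
    (hs : ∀ j ∈ J, ∀ x y, (∀ i ∈ blk j, x i = y i) → (s j x ↔ s j y)) :
    Pr (fun x => ∀ j ∈ J, s j x) = ∏ j ∈ J, Pr (s j) := by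
  classical
  induction J using Finset.induction_on with
  | empty =>
    rw [Finset.prod_empty, Pr_congr (t := fun _ => True) (fun x => by simp)]
    exact Pr_true
  | insert a J ha ih =>
    rw [Finset.prod_insert ha]
    have h1 : Pr (fun x => ∀ j ∈ insert a J, s j x) = Pr (fun x => s a x ∧ ∀ j ∈ J, s j x) := by
      refine Pr_congr fun x => ?_
      simp
    rw [h1, Pr_and_indep (blk a) (hs a (Finset.mem_insert_self a J)) ?_]
    · congr 1
      refine ih ?_ ?_
      · intro j hj k hk hjk
        exact hd j (Finset.mem_insert_of_mem hj) k (Finset.mem_insert_of_mem hk) hjk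
      · intro j hj
        exact hs j (Finset.mem_insert_of_mem hj)
    · intro x y hxy
      constructor
      · intro h j hj
        refine (hs j (Finset.mem_insert_of_mem hj) x y fun i hi => hxy i ?_).1 (h j hj)
        have hne : j ≠ a := fun h => ha (h ▸ hj)
        exact fun hia => (Finset.disjoint_left.1 (hd j (Finset.mem_insert_of_mem hj) a
          (Finset.mem_insert_self a J) hne) hi) hia
      · intro h j hj
        refine (hs j (Finset.mem_insert_of_mem hj) x y fun i hi => hxy i ?_).2 (h j hj)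
        have hne : j ≠ a := fun h => ha (h ▸ hj)
        exact fun hia => (Finset.disjoint_left.1 (hd j (Finset.mem_insert_of_mem hj) a
          (Finset.mem_insert_self a J) hne) hi) hia

end cond

end Pool.Agent.FPZ.PL
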