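import Pool.Agent.FPZ.Defs
import Pool.Agent.FPP.AV

/-!
# Section 4, part 2: probability of events, choice of the outside of a strip
-/

set_option autoImplicit false

noncomputable section

namespace Pool.Agent.FPZ

open Finset Pool.FPP

section

variable {Ω : Type} [Fintype Ω]

theorem q4_Pr_mono {s t : Ω → Prop} (h : ∀ ω, s ω → t ω) : Pr s ≤ Pr t := by
  unfold Pr
  refine Ex_mono fun ω => ?_
  by_cases h1 : s ω
  · simp [h1, h ω h1]
  · simp only [h1, if_false]
    split <;> norm_num

theorem q4_Pr_nonneg (s : Ω → Prop) : 0 ≤ Pr s := by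
  unfold Pr
  refine Ex_nonneg fun ω => ?_
  split <;> norm_num

theorem q4_Pr_le_one [Nonempty Ω] (s : Ω → Prop) : Pr s ≤ 1 := by
  classical
  have h := Ex_const (Ω := Ω) 1
  calc Pr s ≤ Ex (fun _ : Ω => (1 : ℝ)) := by
        unfold Pr
        refine Ex_mono fun ω => ?_
        split <;> norm_num
    _ = 1 := h

theorem q4_Pr_or (s t : Ω → Prop) : Pr (fun ω => s ω ∨ t ω) ≤ Pr s + Pr t := by
  unfold Pr
  rw [← Ex_add]
  refine Ex_mono fun ω => ?_
  by_cases h1 : s ω <;> by_cases h2 : t ω <;> simp [h1, h2]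

theorem q4_Pr_or4 (s t u w : Ω → Prop) :
    Pr (fun ω => s ω ∨ t ω ∨ u ω ∨ w ω) ≤ Pr s + Pr t + Pr u + Pr w := by
  have h1 := q4_Pr_or s (fun ω => t ω ∨ u ω ∨ w ω)
  have h2 := q4_Pr_or t (fun ω => u ω ∨ w ω)
  have h3 := q4_Pr_or u w
  linarith

theorem q4_Pr_equiv {Ω' : Type} [Fintype Ω'] (e : Ω ≃ Ω') (s : Ω' → Prop) :
    Pr (fun ω => s (e ω)) = Pr s := by
  classical
  unfold Pr
  exact Ex_equiv e (fun ω => if s ω then (1 : ℝ) else 0)

/-- an average at most `ε` gives a value at most `ε` -/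
theorem q4_exists_le [Nonempty Ω] {f : Ω → ℝ} {ε : ℝ} (h : Ex f ≤ ε) : ∃ ω, f ω ≤ ε := by
  by_contra hc
  have hc : ∀ ω, ε < f ω := fun ω => by
    by_contra h1
    exact hc ⟨ω, not_lt.1 h1⟩
  have hpos : (0 : ℝ) < (Fintype.card Ω : ℝ) := by exact_mod_cast Fintype.card_pos
  have h2 : ε * (Fintype.card Ω : ℝ) < ∑ ω, f ω := by
    have h3 : ∑ _ω : Ω, ε < ∑ ω, f ω :=
      Finset.sum_lt_sum_of_nonempty (Finset.univ_nonempty) fun ω _ => hc ω
    rw [Finset.sum_const, Finset.card_univ, nsmul_eq_mul] at h3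
    linarith
  unfold Ex at h
  rw [div_le_iff₀ hpos] at h
  linarith

end

section

variable {ι Al : Type} [Fintype ι] [DecidableEq ι] [Fintype Al]

/-- the mixture of two independent uniform configurations is uniform -/
theorem q4_Ex_mix [Nonempty Al] (G : Finset ι) (f : (ι → Al) → ℝ) :
    Ex (fun η' : ι → Al => Ex (fun η : ι → Al => f (mix G η η'))) = Ex f :=
  Ex_av G f

theorem q4_Pr_mix [Nonempty Al] (G : Finset ι) (s : (ι → Al) → Prop) :
    Ex (fun η' : ι → Al => Pr (fun η : ι → Al => s (mix G η η'))) = Pr s := by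
  classical
  have := Ex_av (α := Al) G (fun η => if s η then (1 : ℝ) else 0)
  unfold av at this
  unfold Pr
  convert this

/-- choice of the outside: if two configurations which share the coordinates in `G` (and are
otherwise independent) have different values of `X` with probability at most `ε`, then `X` is, up to
probability `ε`, a function of the coordinates in `G`, namely its value with a fixed outside. -/
theorem q4_choose [Nonempty Al] {τ : Type} (G : Finset ι) (X : (ι → Al) → τ) {ε : ℝ}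
    (h : Ex (fun η' : ι → Al => Pr (fun η : ι → Al => X η ≠ X (mix G η η'))) ≤ ε) :
    ∃ η0 : ι → Al, Pr (fun η : ι → Al => X η ≠ X (mix G η η0)) ≤ ε :=
  q4_exists_le h

end

end Pool.Agent.FPZ
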