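import Pool.Agent.FPZ.WDefs
import Pool.Agent.FPP.AV

/-!
# Section 4: measure preserving moves of the content of a strip

All elementary.  Each move is `ξ ↦ ξ ∘ π` with a permutation `π` of the coordinates: inside the set `S`
the shift `i ↦ ((i.1.1 + s, i.1.2 - 2 s), i.2)` or the reflection `i ↦ (c - hdI i, i.2)`, outside `S` the
identity.  Use `Ex_equiv` with `Equiv.arrowCongr`/`Equiv.piCongrLeft` or an explicit equivalence of the
function space.
-/

set_option autoImplicit false

noncomputable section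

namespace Pool.Agent.FPZ

open Finset Pool.FPP

/-! ## measure preserving moves of the content of a set of coordinates -/

section

variable {N : ℕ} [NeZero N] {Al : Type} [Fintype Al] [Nonempty Al]

/-- shifted index -/
private def q4sh (N : ℕ) (s : ℤ) (i : Ix N) : Ix N :=
  ((i.1.1 + ((su s).1 : ZMod N), i.1.2 + ((su s).2 : ZMod N)), i.2)

/-- reflected index -/
private def q4rf (N : ℕ) (c : V) (i : Ix N) : Ix N :=
  (((c.1 : ZMod N) - (hdI i).1, (c.2 : ZMod N) - (hdI i).2), i.2)

omit [NeZero N] in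
private theorem q4sh_col (s : ℤ) (i : Ix N) : colI (q4sh N s i) = colI i := by
  simp only [colI, q4sh, su]
  push_cast
  ring

omit [NeZero N] in
private theorem q4sh_snd (s : ℤ) (i : Ix N) : (q4sh N s i).2 = i.2 := rfl

omit [NeZero N] in
private theorem q4sh_neg (s : ℤ) (i : Ix N) : q4sh N s (q4sh N (-s) i) = i := by
  obtain ⟨⟨x, y⟩, e⟩ := i
  simp [q4sh, su]

omit [NeZero N] in
private theorem q4rf_rf (c : V) (i : Ix N) : q4rf N c (q4rf N c i) = i := by
  obtain ⟨⟨x, y⟩, e⟩ := i
  cases e <;> simp [q4rf, hdI] <;> ring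

omit [NeZero N] in
private theorem q4rf_col (c : V) (i : Ix N) :
    colI (q4rf N c i) = (col c : ZMod N) - colI i - (if i.2 then 1 else 2) := by
  obtain ⟨⟨x, y⟩, e⟩ := i
  cases e <;> simp [colI, q4rf, hdI, col] <;> ring

private theorem q4rf_mem (α β : ℤ) (c : V) (hc : col c = α + β) (i : Ix N)
    (hi : i ∈ clI N α β) : q4rf N c i ∈ clI N α β := by
  classical
  simp only [clI, Finset.mem_filter, Finset.mem_univ, true_and] at hi ⊢
  obtain ⟨k, h1, h2, h3⟩ := hi
  have hsnd : (q4rf N c i).2 = i.2 := rfl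
  refine ⟨α + β - k - (if i.2 then 1 else 2), ?_, ?_, ?_⟩
  · linarith
  · rw [hsnd]; linarith
  · rw [q4rf_col, hc, h3]
    push_cast
    split_ifs <;> simp

private theorem q4rf_mem_iff (α β : ℤ) (c : V) (hc : col c = α + β) (i : Ix N) :
    q4rf N c i ∈ clI N α β ↔ i ∈ clI N α β := by
  constructor
  · intro h
    have := q4rf_mem α β c hc _ h
    rwa [q4rf_rf] at this
  · exact q4rf_mem α β c hc i

omit [Nonempty Al] in
/-- `shiftC z` only moves coordinates; `S` is mapped onto itself -/
theorem q4_Pr_shift (S : Finset (Ix N)) (s : ℤ)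
    (hS : ∀ i j : Ix N, colI i = colI j → i.2 = j.2 → i ∈ S → j ∈ S) (t : (Ix N → Al) → Prop) :
    Pr (fun ξ : Ix N → Al => t (mix S (shiftC (su s) ξ) ξ)) = Pr t := by
  classical
  have hmem : ∀ (r : ℤ) (i : Ix N), q4sh N r i ∈ S ↔ i ∈ S := by
    intro r i
    constructor
    · exact hS _ _ (q4sh_col r i) (q4sh_snd r i)
    · exact hS _ _ (q4sh_col r i).symm (q4sh_snd r i).symm
  have key : ∀ (r : ℤ) (ξ : Ix N → Al),
      mix S (shiftC (su (-r)) (mix S (shiftC (su r) ξ) ξ)) (mix S (shiftC (su r) ξ) ξ) = ξ := by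
    intro r ξ
    funext i
    by_cases hi : i ∈ S
    · have h1 : q4sh N (-r) i ∈ S := (hmem (-r) i).mpr hi
      have h2 : mix S (shiftC (su (-r)) (mix S (shiftC (su r) ξ) ξ))
          (mix S (shiftC (su r) ξ) ξ) i = mix S (shiftC (su r) ξ) ξ (q4sh N (-r) i) := by
        simp only [mix, hi, if_true]
        rfl
      have h3 : mix S (shiftC (su r) ξ) ξ (q4sh N (-r) i) = ξ (q4sh N r (q4sh N (-r) i)) := by
        simp only [mix, h1, if_true]
        rfl
      rw [h2, h3, q4sh_neg]
    · simp [mix, hi]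
  let e : (Ix N → Al) ≃ (Ix N → Al) :=
    { toFun := fun ξ => mix S (shiftC (su s) ξ) ξ
      invFun := fun ξ => mix S (shiftC (su (-s)) ξ) ξ
      left_inv := fun ξ => key s ξ
      right_inv := fun ξ => by
        have := key (-s) ξ
        rw [neg_neg] at this
        exact this }
  exact Ex_equiv e (fun ξ => if t ξ then (1 : ℝ) else 0)

omit [Nonempty Al] in
/-- `reflC c` maps the closed strip `[α, β]` with `α + β = col c` onto itself -/
theorem q4_Pr_refl (α β : ℤ) (c : V) (hc : col c = α + β) (t : (Ix N → Al) → Prop) :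
    Pr (fun ξ : Ix N → Al => t (mix (clI N α β) (reflC c ξ) ξ)) = Pr t := by
  classical
  have key : ∀ ξ : Ix N → Al,
      mix (clI N α β) (reflC c (mix (clI N α β) (reflC c ξ) ξ))
        (mix (clI N α β) (reflC c ξ) ξ) = ξ := by
    intro ξ
    funext i
    by_cases hi : i ∈ clI N α β
    · have h1 : q4rf N c i ∈ clI N α β := q4rf_mem α β c hc i hi
      have h2 : mix (clI N α β) (reflC c (mix (clI N α β) (reflC c ξ) ξ))
          (mix (clI N α β) (reflC c ξ) ξ) i =
          mix (clI N α β) (reflC c ξ) ξ (q4rf N c i) := by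
        simp only [mix, hi, if_true]
        rfl
      have h3 : mix (clI N α β) (reflC c ξ) ξ (q4rf N c i) = ξ (q4rf N c (q4rf N c i)) := by
        simp only [mix, h1, if_true]
        rfl
      rw [h2, h3, q4rf_rf]
    · simp [mix, hi]
  let e : (Ix N → Al) ≃ (Ix N → Al) :=
    { toFun := fun ξ => mix (clI N α β) (reflC c ξ) ξ
      invFun := fun ξ => mix (clI N α β) (reflC c ξ) ξ
      left_inv := key
      right_inv := key }
  exact Ex_equiv e (fun ξ => if t ξ then (1 : ℝ) else 0)

/-- the closed strips and the blocks are unions of columns -/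
theorem q4_clI_col (α β : ℤ) : ∀ i j : Ix N, colI i = colI j → i.2 = j.2 →
    i ∈ clI N α β → j ∈ clI N α β := by
  classical
  intro i j h1 h2 hi
  simp only [clI, Finset.mem_filter, Finset.mem_univ, true_and] at hi ⊢
  rw [← h1, ← h2]
  exact hi

theorem q4_blkI_col (α β : ℤ) : ∀ i j : Ix N, colI i = colI j → i.2 = j.2 →
    i ∈ blkI N α β → j ∈ blkI N α β := by
  classical
  intro i j h1 h2 hi
  simp only [blkI, Finset.mem_filter, Finset.mem_univ, true_and] at hi ⊢
  rw [← h1]
  exact hi

omit [NeZero N] [Fintype Al] [Nonempty Al] in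
/-- the shift of the content of `S ⊆ B` commutes with the insertion in the window -/
theorem q4_mix_shift (B S : Finset (Ix N)) (hSB : S ⊆ B) (s : ℤ)
    (hB : ∀ i j : Ix N, colI i = colI j → i.2 = j.2 → i ∈ B → j ∈ B) (ξ o : Ix N → Al) :
    mix B (mix S (shiftC (su s) ξ) ξ) o = mix S (shiftC (su s) (mix B ξ o)) (mix B ξ o) := by
  classical
  funext i
  by_cases hi : i ∈ S
  · have hiB : i ∈ B := hSB hi
    have h1 : q4sh N s i ∈ B := hB _ _ (q4sh_col s i).symm (q4sh_snd s i).symm hiB
    have h2 : mix B (mix S (shiftC (su s) ξ) ξ) o i = ξ (q4sh N s i) := by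
      simp only [mix, hi, hiB, if_true]
      rfl
    have h3 : mix S (shiftC (su s) (mix B ξ o)) (mix B ξ o) i = mix B ξ o (q4sh N s i) := by
      simp only [mix, hi, if_true]
      rfl
    rw [h2, h3]
    simp [mix, h1]
  · by_cases hiB : i ∈ B <;> simp [mix, hi, hiB]

omit [Fintype Al] [Nonempty Al] in
/-- the reflection of the content of a closed strip commutes with the insertion in the window -/
theorem q4_mix_refl (B : Finset (Ix N)) (α β : ℤ) (c : V) (hc : col c = α + β)
    (hSB : clI N α β ⊆ B) (ξ o : Ix N → Al) :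
    mix B (mix (clI N α β) (reflC c ξ) ξ) o =
      mix (clI N α β) (reflC c (mix B ξ o)) (mix B ξ o) := by
  classical
  funext i
  by_cases hi : i ∈ clI N α β
  · have hiB : i ∈ B := hSB hi
    have h1 : q4rf N c i ∈ B := hSB (q4rf_mem α β c hc i hi)
    have h2 : mix B (mix (clI N α β) (reflC c ξ) ξ) o i = ξ (q4rf N c i) := by
      simp only [mix, hi, hiB, if_true]
      rfl
    have h3 : mix (clI N α β) (reflC c (mix B ξ o)) (mix B ξ o) i =
        mix B ξ o (q4rf N c i) := by
      simp only [mix, hi, if_true]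
      rfl
    rw [h2, h3]
    simp [mix, h1]
  · by_cases hiB : i ∈ B <;> simp [mix, hi, hiB]

end

end Pool.Agent.FPZ
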