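import Pool.Agent.FPZ.Q4Loc
import Pool.Agent.FPZ.Q4MovP

/-!
# Section 4: pulled back curves
-/

set_option autoImplicit false

noncomputable section

namespace Pool.Agent.FPZ

open Finset Pool.FPP

theorem q4_trc_shift (α β s : ℤ) (S : Finset E) :
    trc α β (S.image (shE (su s))) = (trc α β S).image (shE (su s)) := by
  ext e
  rw [mem_trc, mem_image, mem_image]
  constructor
  · rintro ⟨⟨e', he', rfl⟩, h⟩
    exact ⟨e', mem_trc.2 ⟨he', (q4_inStrip_shE α β s e').1 h⟩, rfl⟩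
  · rintro ⟨e', he', rfl⟩
    have := mem_trc.1 he'
    exact ⟨⟨e', this.1, rfl⟩, (q4_inStrip_shE α β s e').2 this.2⟩

theorem q4_trc_refl (α β : ℤ) (c : V) (S : Finset E) :
    trc α β (S.image (rfE c)) = (trc (col c - β) (col c - α) S).image (rfE c) := by
  ext e
  rw [mem_trc, mem_image, mem_image]
  constructor
  · rintro ⟨⟨e', he', rfl⟩, h⟩
    exact ⟨e', mem_trc.2 ⟨he', (q4_inStrip_rfE α β c e').1 h⟩, rfl⟩
  · rintro ⟨e', he', rfl⟩
    have := mem_trc.1 he'
    exact ⟨⟨e', this.1, rfl⟩, (q4_inStrip_rfE α β c e').2 this.2⟩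

theorem q4_NB_shift {Y α β : ℤ} {n : ℕ} {p : ℕ → V} (h : NB Y α β n p) (s : ℤ) :
    NB Y α β n (fun i => p i + su s) := by
  intro x h1 h2 i j hij hj hc
  apply h x h1 h2 i j hij hj
  simp only [q4_col_add, q4_col_su, add_zero] at hc
  exact hc

theorem q4_NB_refl {Y α β : ℤ} {n : ℕ} {p : ℕ → V} (h : NB Y α β n p) (c : V)
    (hc : col c = α + β) : NB Y α β n (fun i => c - p (n - i)) := by
  intro x h1 h2 i j hij hj hx
  simp only [q4_col_sub] at hx
  exact h (α + β - x - Y) (by omega) (by omega) (n - j) (n - i) (by omega) (by omega)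
    ⟨by omega, by omega⟩

section win

variable {N : ℕ} [NeZero N] {Al : Type} [Fintype Al] [Nonempty Al] (W : Win N Al)

/-- environment of the pulled back curve, rotation by `s` -/
def envR (s : ℤ) (ω : Ix N → Al) : E → ℝ := fun e => env W.wt ω (shE (-(su s)) e)

/-- environment of the pulled back curve, reflection -/
def envF (c : V) (ω : Ix N → Al) : E → ℝ := fun e => env W.wt ω (rfE c e)

theorem Win.q4_curR {ω : Ix N → Al} {s : ℤ} (hs : |s| ≤ 4 * W.Q) {α β : ℤ} (hα : W.x ≤ α)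
    (hβ : β ≤ W.x + 63 * W.L) (hn : W.nbE ω) :
    Cur (envR W s ω) (W.L / 4) α β (20 * W.Q) (Gn W.wt W.v ω) (fun i => Gp W.wt W.v ω i + su s) := by
  have hQ := W.q4_Q
  have c := (W.q4_cur hn).mono hα hβ (le_refl W.Q)
  refine ⟨q4_geo_shift c.geo (su s), q4_NB_shift c.nb s, ?_⟩
  intro i hi
  have hb := c.box i hi
  have a1 := abs_le.1 hb.1
  have a2 := abs_le.1 hb.2
  have a3 := abs_le.1 hs
  unfold inBox su
  rw [abs_le, abs_le]
  simp only [Prod.fst_add, Prod.snd_add]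
  omega

theorem Win.q4_agreeR {ω : Ix N → Al} {s : ℤ} {S : Finset (Ix N)} {α β : ℤ}
    (hS : clI N α β ⊆ S) {e : E} (he : inStrip α β e) :
    env W.wt ω e = envR W s (mix S (shiftC (su s) ω) ω) e := by
  have h1 : inStrip α β (shE (-(su s)) e) := by
    have : -(su s) = su (-s) := by
      unfold su
      ext <;> simp
    rw [this]
    exact (q4_inStrip_shE α β (-s) e).2 he
  have h2 : red N (shE (-(su s)) e) ∈ S := hS (q4_red_clI h1)
  unfold envR
  have h3 : env W.wt (mix S (shiftC (su s) ω) ω) (shE (-(su s)) e) =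
      env W.wt (shiftC (su s) ω) (shE (-(su s)) e) := by
    unfold env mix
    rw [if_pos h2]
  rw [h3, q4_env_shiftC, q4_shE_shE]
  have : su s + -(su s) = 0 := by abel
  rw [this]
  congr 1
  unfold shE
  simp

theorem Win.q4_curF {ω : Ix N → Al} {c : V} (hc1 : |c.1| ≤ 4 * W.Q) {α β : ℤ}
    (hc : col c = α + β) (hα : W.x ≤ α)
    (hβ : β ≤ W.x + 63 * W.L) (hαβ : α ≤ β) (hn : W.nbE ω) :
    Cur (envF W c ω) (W.L / 4) α β (20 * W.Q) (Gn W.wt W.v ω)
      (fun i => c - Gp W.wt W.v ω (Gn W.wt W.v ω - i)) := by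
  have hQ := W.q4_Q
  have hx := W.hx
  have hv := W.hv
  have hv' := W.q4_colv
  have cc := (W.q4_cur hn).mono hα hβ (le_refl W.Q)
  refine ⟨?_, q4_NB_refl cc.nb c hc, ?_⟩
  · have := q4_geo_refl cc.geo c
    simp only [Nat.sub_zero, Nat.sub_self]
    exact this
  intro i hi
  have hb := cc.box (Gn W.wt W.v ω - i) (by omega)
  have a1 := abs_le.1 hb.1
  have a2 := abs_le.1 hb.2
  have a3 := abs_le.1 hc1
  unfold inBox
  rw [abs_le, abs_le]
  simp only [Prod.fst_sub, Prod.snd_sub]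
  unfold col at hc hv hv'
  omega

theorem Win.q4_agreeF {ω : Ix N → Al} {c : V} {S : Finset (Ix N)} {α β : ℤ}
    (hc : col c = α + β) (hS : clI N α β ⊆ S) {e : E} (he : inStrip α β e) :
    env W.wt ω e = envF W c (mix S (reflC c ω) ω) e := by
  have h1 : inStrip α β (rfE c e) := by
    rw [q4_inStrip_rfE, hc]
    have e1 : α + β - β = α := by ring
    have e2 : α + β - α = β := by ring
    rw [e1, e2]
    exact he
  have h2 : red N (rfE c e) ∈ S := hS (q4_red_clI h1)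
  unfold envF
  have h3 : env W.wt (mix S (reflC c ω) ω) (rfE c e) =
      env W.wt (reflC c ω) (rfE c e) := by
    unfold env mix
    rw [if_pos h2]
  rw [h3, q4_env_reflC, q4_rfE_rfE]

theorem Win.q4_posR (s : ℤ) (ω : Ix N → Al) (e : E) : 0 < envR W s ω e := W.q4_pos ω _

theorem Win.q4_posF (c : V) (ω : Ix N → Al) (e : E) : 0 < envF W c ω e := W.q4_pos ω _

theorem Win.q4_trR (s k : ℤ) (ω : Ix N → Al) :
    trc (W.mlo k) (W.mhi k) (eset 0 (Gn W.wt W.v ω) (fun i => Gp W.wt W.v ω i + su s)) =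
      (W.tr k ω).image (shE (su s)) := by
  rw [q4_eset_shift, q4_trc_shift]
  rfl

theorem Win.q4_trF (κ k : ℤ) (c : V) (hc : col c = 2 * W.x + 7 * (κ + 1) * W.L) (ω : Ix N → Al) :
    trc (W.mlo k) (W.mhi k) (eset 0 (Gn W.wt W.v ω)
      (fun i => c - Gp W.wt W.v ω (Gn W.wt W.v ω - i))) =
      (W.tr (κ - k) ω).image (rfE c) := by
  have hg := W.q4_geo ω
  rw [q4_eset_refl hg c, q4_trc_refl, hc]
  have e1 : 2 * W.x + 7 * (κ + 1) * W.L - W.mhi k = W.mlo (κ - k) := by
    unfold Win.mhi Win.mlo; ring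
  have e2 : 2 * W.x + 7 * (κ + 1) * W.L - W.mlo k = W.mhi (κ - k) := by
    unfold Win.mhi Win.mlo; ring
  rw [e1, e2]
  rfl

end win

end Pool.Agent.FPZ
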