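import Pool.Agent.FPZ.Geo

/-!
# Section 4: the facts about geodesics that are used, and
the coincidence of two geodesics
-/

set_option autoImplicit false

noncomputable section

namespace Pool.Agent.FPZ

open Finset Pool.FPP

theorem q4_dst_le_seg {A : E → ℝ} (hA : ∀ e, 0 < A e) {i j : ℕ} {p : ℕ → V} (hij : i ≤ j)
    (hp : ∀ k, i ≤ k → k < j → adj (p k) (p (k + 1))) :
    dst A (p i) (p j) ≤ cost A i j p :=
  geo_dst_le_seg (fun e => (hA e).le) hij hp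

theorem q4_seg_eq {A : E → ℝ} (hA : ∀ e, 0 < A e) {n : ℕ} {p : ℕ → V} {x y : V}
    (h : IsGeo A n p x y) {i j : ℕ} (hij : i ≤ j) (hj : j ≤ n) :
    cost A i j p = dst A (p i) (p j) :=
  geo_seg_eq (fun e => (hA e).le) h hij hj

theorem q4_cost_sum {A : E → ℝ} (hA : ∀ e, 0 < A e) {n : ℕ} {p : ℕ → V} {x y : V}
    (h : IsGeo A n p x y) {i j : ℕ} (hj : j ≤ n) :
    cost A i j p = ∑ e ∈ eset i j p, A e :=
  geo_cost_sum hA h hj

/-- the chosen geodesic is a geodesic -/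
theorem q4_isGeo {A : E → ℝ} {a b : ℝ} (ha : 0 < a) (h : Bd a b A) (x y : V) :
    IsGeo A (gl A x y) (gp A x y) x y :=
  geo_isGeo ha h x y

/-- a geodesic that does not go back across strips of width `Y` and stays in a box -/
structure Cur (A : E → ℝ) (Y α β Q : ℤ) (n : ℕ) (p : ℕ → V) : Prop where
  geo : IsGeo A n p (p 0) (p n)
  nb : NB Y α β n p
  box : ∀ i ≤ n, inBox Q (p i)

theorem Cur.adj {A : E → ℝ} {Y α β Q : ℤ} {n : ℕ} {p : ℕ → V} (h : Cur A Y α β Q n p) :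
    ∀ k < n, adj (p k) (p (k + 1)) := h.geo.1.2.2

theorem NB.mono {Y α β α' β' : ℤ} {n : ℕ} {p : ℕ → V} (h : NB Y α β n p) (h1 : α ≤ α')
    (h2 : β' ≤ β) : NB Y α' β' n p :=
  fun x hx hx' i j hij hj => h x (by omega) (by omega) i j hij hj

theorem Cur.mono {A : E → ℝ} {Y α β Q α' β' Q' : ℤ} {n : ℕ} {p : ℕ → V} (h : Cur A Y α β Q n p)
    (h1 : α ≤ α') (h2 : β' ≤ β) (h3 : Q ≤ Q') : Cur A Y α' β' Q' n p :=
  ⟨h.geo, h.nb.mono h1 h2, fun i hi => ⟨(h.box i hi).1.trans h3, (h.box i hi).2.trans h3⟩⟩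

theorem Cur.box_edge {A : E → ℝ} {Y α β Q : ℤ} {n : ℕ} {p : ℕ → V} (h : Cur A Y α β Q n p)
    {i j : ℕ} (hj : j ≤ n) {e : E} (he : e ∈ eset i j p) : inBox Q e.1 := by
  obtain ⟨k, -, hk, rfl⟩ := mem_eset.1 he
  rcases edg_fst_mem (h.adj k (by omega)) with h1 | h1
  · rw [h1]; exact h.box k (by omega)
  · rw [h1]; exact h.box (k + 1) (by omega)

/-- **Coincidence.**  Two geodesics of environments which agree on the strip `[α, β]`, with common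
vertices `p1 i1 = p2 i2` and `p1 j1 = p2 j2`, have the same edges in every strip `[γ, δ]` between the
two common vertices. -/
theorem coincide {A1 A2 : E → ℝ} (h1 : ∀ e, 0 < A1 e) (h2 : ∀ e, 0 < A2 e)
    {Y α β Q : ℤ} (hY : 0 < Y) {n1 n2 : ℕ} {p1 p2 : ℕ → V}
    (c1 : Cur A1 Y α β Q n1 p1) (c2 : Cur A2 Y α β Q n2 p2)
    (hA : ∀ e, inStrip α β e → A1 e = A2 e) (hG : Gen Q A1)
    {i1 j1 i2 j2 : ℕ} (hi1 : i1 ≤ n1) (hj1 : j1 ≤ n1) (hi2 : i2 ≤ n2) (hj2 : j2 ≤ n2)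
    (hP : p1 i1 = p2 i2) (hQ : p1 j1 = p2 j2)
    (hα : α + Y ≤ col (p1 i1)) (hβ : col (p1 j1) + Y ≤ β) (hPQ : col (p1 i1) + Y ≤ col (p1 j1))
    {γ δ : ℤ} (hγ : col (p1 i1) + Y ≤ γ) (hδ : δ + Y ≤ col (p1 j1)) :
    trc γ δ (eset 0 n1 p1) = trc γ δ (eset 0 n2 p2) := by
  have hα2 := hα
  have hβ2 := hβ
  have hPQ2 := hPQ
  have hγ2 := hγ
  have hδ2 := hδ
  rw [hP] at hα2 hPQ2 hγ2
  rw [hQ] at hβ2 hPQ2 hδ2
  have o1 : i1 < j1 := middle_order hY c1.nb hi1 hα hβ hPQ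
  have o2 : i2 < j2 := middle_order hY c2.nb hi2 hα2 hβ2 hPQ2
  have s1 : ∀ e ∈ eset i1 j1 p1, inStrip α β e := by
    intro e he
    obtain ⟨k, hk1, hk2, rfl⟩ := mem_eset.1 he
    have a := middle_strip hY c1.nb hj1 hα hβ hPQ (t := k) hk1 (by omega)
    have b := middle_strip hY c1.nb hj1 hα hβ hPQ (t := k + 1) (by omega) (by omega)
    exact (inStrip_edg (c1.adj k (by omega)) α β).2 ⟨a.1, b.1, a.2, b.2⟩
  have s2 : ∀ e ∈ eset i2 j2 p2, inStrip α β e := by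
    intro e he
    obtain ⟨k, hk1, hk2, rfl⟩ := mem_eset.1 he
    have a := middle_strip hY c2.nb hj2 hα2 hβ2 hPQ2 (t := k) hk1 (by omega)
    have b := middle_strip hY c2.nb hj2 hα2 hβ2 hPQ2 (t := k + 1) (by omega) (by omega)
    exact (inStrip_edg (c2.adj k (by omega)) α β).2 ⟨a.1, b.1, a.2, b.2⟩
  have key : eset i1 j1 p1 = eset i2 j2 p2 := by
    refine middle_eq hP hQ (q4_seg_eq h1 c1.geo o1.le hj1) (q4_seg_eq h2 c2.geo o2.le hj2)
      ?_ ?_ (q4_cost_sum h1 c1.geo hj1) (q4_cost_sum h2 c2.geo hj2)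
      (fun e he => hA e (s1 e he)) (fun e he => hA e (s2 e he)) hG
      (fun e he => c1.box_edge hj1 he) (fun e he => c2.box_edge hj2 he)
    · exact q4_dst_le_seg h2 o1.le fun k _ hk => c1.adj k (by omega)
    · exact q4_dst_le_seg h1 o2.le fun k _ hk => c2.adj k (by omega)
  classical
  ext e
  unfold trc
  rw [mem_filter, mem_filter]
  constructor
  · rintro ⟨he, hs⟩
    have := inner_mem hY c1.nb c1.adj hi1 hj1 hα hβ hPQ hγ hδ he hs
    rw [key] at this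
    obtain ⟨k, hk1, hk2, rfl⟩ := mem_eset.1 this
    exact ⟨mem_eset.2 ⟨k, by omega, by omega, rfl⟩, hs⟩
  · rintro ⟨he, hs⟩
    have := inner_mem hY c2.nb c2.adj hi2 hj2 hα2 hβ2 hPQ2 hγ2 hδ2 he hs
    rw [← key] at this
    obtain ⟨k, hk1, hk2, rfl⟩ := mem_eset.1 this
    exact ⟨mem_eset.2 ⟨k, by omega, by omega, rfl⟩, hs⟩

end Pool.Agent.FPZ
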