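import Pool.Agent.FPZ.WDefs

/-!
# Interface of sections 4, 5, 6, 7

`Sig W ε`: the localisation maps `sig k` (section 4).
`bR s k`, `bF κ c k`: the pulled back trace of the second family for the rotation by `s` and for the
point reflection `z ↦ c - z` with `col c = 2 x + 7 (κ + 1) L`, which exchanges the groups `k` and
`κ - k` (`κ = 7` or `κ = 9`).
`PatR`, `PatF`: the excluded patterns.
Sections 6 and 7: `Sig`, `J1`, `PatR`, `PatF` are contradictory.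
-/

set_option autoImplicit false

noncomputable section

namespace Pool.Agent.FPZ

open Finset Pool.FPP

variable {N : ℕ} [NeZero N] {Al : Type} [Fintype Al] [Nonempty Al]

/-- localisation maps: `sig k` depends on the content of the group `k` only, is a possible trace, and
is the trace of the geodesic up to probability `ε` -/
structure Sig (W : Win N Al) (ε : ℝ) where
  /-- the map -/
  sig : ℤ → (Ix N → Al) → Finset E
  loc : ∀ k : ℤ, 0 ≤ k → k ≤ 8 → ∀ ξ ξ' : Ix N → Al, (∀ i ∈ W.G k, ξ i = ξ' i) → sig k ξ = sig k ξ'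
  rng : ∀ k : ℤ, 0 ≤ k → k ≤ 8 → ∀ ξ : Ix N → Al, ∃ ω : Ix N → Al, sig k ξ = W.tr k ω
  prb : ∀ k : ℤ, 0 ≤ k → k ≤ 8 → Pr (fun ξ : Ix N → Al => W.tr k (W.M ξ) ≠ sig k ξ) ≤ ε

/-- relation (first above second) of two disjoint traces at the middle line of the group `k` -/
def abv (W : Win N Al) (k : ℤ) (S₁ S₂ : Finset E) : Prop :=
  ¬ meetS S₁ S₂ ∧ rr (W.mln k) S₁ S₂ % 2 = 1

/-- relation: first below second -/
def blw (W : Win N Al) (k : ℤ) (S₁ S₂ : Finset E) : Prop :=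
  ¬ meetS S₁ S₂ ∧ rr (W.mln k) S₁ S₂ % 2 = 0

section moves

variable {W : Win N Al} {ε : ℝ} (S : Sig W ε)

/-- pulled back trace, rotation by `s` -/
def bR (s k : ℤ) (ξ : Ix N → Al) : Finset E :=
  (S.sig k (shiftC (su s) ξ)).image (shE (su s))

/-- pulled back trace, reflection `z ↦ c - z`, which maps the group `k` to the group `κ - k` -/
def bF (κ : ℤ) (c : V) (k : ℤ) (ξ : Ix N → Al) : Finset E :=
  (S.sig (κ - k) (reflC c ξ)).image (rfE c)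

/-- rotation by one unit: small probability of a change (section J1) -/
def J1 (ε' : ℝ) : Prop :=
  ∀ k : ℤ, 1 ≤ k → k ≤ 7 → Pr (fun ξ : Ix N → Al => S.sig k ξ ≠ bR S 1 k ξ) ≤ ε'

/-- excluded pattern for the rotation by `s` -/
def PatR (ε' : ℝ) : Prop :=
  ∀ s : ℤ, |s| ≤ 4 * W.Q →
    Pr (fun ξ : Ix N → Al => S.sig 3 ξ = bR S s 3 ξ ∧ S.sig 4 ξ ≠ bR S s 4 ξ ∧
      S.sig 5 ξ = bR S s 5 ξ) ≤ ε'

/-- the excluded patterns for a family `b` of pulled back traces at the groups `k₁ < k₂ < k₃` -/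
def Pats (b : ℤ → (Ix N → Al) → Finset E) (k₁ k₂ k₃ : ℤ) (ε' : ℝ) : Prop :=
  Pr (fun ξ : Ix N → Al => abv W k₁ (S.sig k₁ ξ) (b k₁ ξ) ∧ blw W k₂ (S.sig k₂ ξ) (b k₂ ξ) ∧
      abv W k₃ (S.sig k₃ ξ) (b k₃ ξ)) ≤ ε' ∧
  Pr (fun ξ : Ix N → Al => blw W k₁ (S.sig k₁ ξ) (b k₁ ξ) ∧ abv W k₂ (S.sig k₂ ξ) (b k₂ ξ) ∧
      blw W k₃ (S.sig k₃ ξ) (b k₃ ξ)) ≤ ε' ∧
  Pr (fun ξ : Ix N → Al => meetS (S.sig k₁ ξ) (b k₁ ξ) ∧ S.sig k₂ ξ ≠ b k₂ ξ ∧
      meetS (S.sig k₃ ξ) (b k₃ ξ)) ≤ ε'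

/-- excluded patterns for all reflections -/
def PatF (ε' : ℝ) : Prop :=
  ∀ κ : ℤ, (κ = 7 ∨ κ = 9) → ∀ c : V, col c = 2 * W.x + 7 * (κ + 1) * W.L → |c.1| ≤ 4 * W.Q →
    ∀ k₁ k₂ k₃ : ℤ, 0 ≤ k₁ → κ - 8 ≤ k₁ → k₁ < k₂ → k₂ < k₃ → k₃ ≤ κ → k₃ ≤ 8 →
      Pats S (fun k => bF S κ c k) k₁ k₂ k₃ ε'

end moves

end Pool.Agent.FPZ
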