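import Pool.Agent.FPZ.Q4Geo
import Pool.Agent.FPZ.Q4Mov
import Pool.Agent.FPZ.W2Defs

/-!
# Section 4: planar edges and torus edges, windows
-/

set_option autoImplicit false

noncomputable section

namespace Pool.Agent.FPZ

open Finset Pool.FPP

theorem q4_cast_inj {N : ℕ} {x y : ℤ} (h : |x - y| < (N : ℤ)) (hxy : (x : ZMod N) = (y : ZMod N)) :
    x = y := by
  rw [ZMod.intCast_eq_intCast_iff_dvd_sub] at hxy
  have := Int.eq_zero_of_abs_lt_dvd hxy (by rw [abs_sub_comm]; exact h)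
  omega

theorem q4_red_inj {N : ℕ} {Q : ℤ} (hN : 2 * Q < (N : ℤ)) {e e' : E} (h : inBox Q e.1)
    (h' : inBox Q e'.1) (hr : red N e = red N e') : e = e' := by
  unfold red at hr
  rw [Prod.mk.injEq, Prod.mk.injEq] at hr
  obtain ⟨⟨h1, h2⟩, h3⟩ := hr
  have a1 := abs_le.1 h.1
  have a2 := abs_le.1 h.2
  have a3 := abs_le.1 h'.1
  have a4 := abs_le.1 h'.2
  have b1 := q4_cast_inj (by rw [abs_lt]; omega) h1
  have b2 := q4_cast_inj (by rw [abs_lt]; omega) h2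
  exact Prod.ext (Prod.ext b1 b2) h3

theorem q4_colI_red {N : ℕ} (e : E) : colI (red N e) = ((col e.1 : ℤ) : ZMod N) := by
  unfold colI red col
  push_cast
  ring

theorem q4_col_hd (e : E) : col (hd e) = col e.1 + (if e.2 then 1 else 2) := by
  unfold col hd
  split <;> simp <;> ring

theorem q4_mem_clI {N : ℕ} [NeZero N] {α β : ℤ} {i : Ix N} : i ∈ clI N α β ↔
    ∃ k : ℤ, α ≤ k ∧ k + (if i.2 then 1 else 2) ≤ β ∧ colI i = (k : ZMod N) := by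
  classical
  unfold clI
  rw [mem_filter]
  exact ⟨fun h => h.2, fun h => ⟨mem_univ _, h⟩⟩

theorem q4_mem_blkI {N : ℕ} [NeZero N] {α β : ℤ} {i : Ix N} : i ∈ blkI N α β ↔
    ∃ k : ℤ, α ≤ k ∧ k < β ∧ colI i = (k : ZMod N) := by
  classical
  unfold blkI
  rw [mem_filter]
  exact ⟨fun h => h.2, fun h => ⟨mem_univ _, h⟩⟩

theorem q4_red_clI {N : ℕ} [NeZero N] {α β : ℤ} {e : E} (h : inStrip α β e) :
    red N e ∈ clI N α β := by
  rw [q4_mem_clI]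
  refine ⟨col e.1, h.1, ?_, q4_colI_red e⟩
  have := h.2
  rw [q4_col_hd] at this
  exact this

theorem q4_blkI_red {N : ℕ} [NeZero N] {α β Q : ℤ} {e : E} (he : inBox Q e.1)
    (hα : -(3 * Q) ≤ α) (hβ : β ≤ 3 * Q) (hN : 6 * Q < (N : ℤ)) (h : red N e ∈ blkI N α β) :
    α ≤ col e.1 ∧ col e.1 < β := by
  rw [q4_mem_blkI] at h
  obtain ⟨k, h1, h2, h3⟩ := h
  rw [q4_colI_red] at h3
  have a1 := abs_le.1 he.1
  have a2 := abs_le.1 he.2
  have : col e.1 = k := by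
    apply q4_cast_inj _ h3
    rw [abs_lt]
    unfold col
    omega
  omega

theorem q4_blkI_sub_clI {N : ℕ} [NeZero N] {α β α' β' : ℤ} (h1 : α' ≤ α) (h2 : β + 1 ≤ β') :
    blkI N α β ⊆ clI N α' β' := by
  intro i hi
  rw [q4_mem_blkI] at hi
  rw [q4_mem_clI]
  obtain ⟨k, h3, h4, h5⟩ := hi
  refine ⟨k, by omega, ?_, h5⟩
  split <;> omega

theorem q4_clI_sub_blkI {N : ℕ} [NeZero N] {α β α' β' : ℤ} (h1 : α' ≤ α) (h2 : β ≤ β') :
    clI N α β ⊆ blkI N α' β' := by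
  intro i hi
  rw [q4_mem_clI] at hi
  rw [q4_mem_blkI]
  obtain ⟨k, h3, h4, h5⟩ := hi
  refine ⟨k, by omega, ?_, h5⟩
  split at h4 <;> omega

theorem q4_clI_mono {N : ℕ} [NeZero N] {α β α' β' : ℤ} (h1 : α' ≤ α) (h2 : β ≤ β') :
    clI N α β ⊆ clI N α' β' := by
  intro i hi
  rw [q4_mem_clI] at hi ⊢
  obtain ⟨k, h3, h4, h5⟩ := hi
  exact ⟨k, by omega, by omega, h5⟩

/-- the vertex `z` lies on the path -/
def onP (n : ℕ) (p : ℕ → V) (z : V) : Prop := ∃ i ≤ n, p i = z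

theorem onP_of_inc {n : ℕ} {p : ℕ → V} (hadj : ∀ k < n, adj (p k) (p (k + 1))) {e : E} {z : V}
    (he : e ∈ eset 0 n p) (hz : inc e z) : onP n p z := by
  obtain ⟨k, -, hk, rfl⟩ := mem_eset.1 he
  have hj := joins_edg (hadj k hk)
  unfold inc at hz
  unfold joins at hj
  rcases hz with hz | hz <;> rcases hj with hj | hj
  · exact ⟨k, by omega, by rw [← hj.1, hz]⟩
  · exact ⟨k + 1, by omega, by rw [← hj.1, hz]⟩
  · exact ⟨k + 1, by omega, by rw [← hj.2, hz]⟩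
  · exact ⟨k, by omega, by rw [← hj.2, hz]⟩

/-- coincidence, stated with vertices -/
theorem q4_coin {A1 A2 : E → ℝ} (h1 : ∀ e, 0 < A1 e) (h2 : ∀ e, 0 < A2 e)
    {Y α β Q : ℤ} (hY : 0 < Y) {n1 n2 : ℕ} {p1 p2 : ℕ → V}
    (c1 : Cur A1 Y α β Q n1 p1) (c2 : Cur A2 Y α β Q n2 p2)
    (hA : ∀ e, inStrip α β e → A1 e = A2 e) (hG : Gen Q A1) {z z' : V}
    (z1 : onP n1 p1 z) (z2 : onP n2 p2 z) (z1' : onP n1 p1 z') (z2' : onP n2 p2 z')
    (hα : α + Y ≤ col z) (hβ : col z' + Y ≤ β) (hPQ : col z + Y ≤ col z')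
    {γ δ : ℤ} (hγ : col z + Y ≤ γ) (hδ : δ + Y ≤ col z') :
    trc γ δ (eset 0 n1 p1) = trc γ δ (eset 0 n2 p2) := by
  obtain ⟨i1, hi1, rfl⟩ := z1
  obtain ⟨i2, hi2, e2⟩ := z2
  obtain ⟨j1, hj1, rfl⟩ := z1'
  obtain ⟨j2, hj2, e2'⟩ := z2'
  exact coincide h1 h2 hY c1 c2 hA hG hi1 hj1 hi2 hj2 e2.symm e2'.symm hα hβ hPQ hγ hδ

theorem mem_trc {α β : ℤ} {S : Finset E} {e : E} : e ∈ trc α β S ↔ e ∈ S ∧ inStrip α β e := by
  classical
  unfold trc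
  rw [mem_filter]

/-! ## windows -/

section win

variable {N : ℕ} [NeZero N] {Al : Type} [Fintype Al] [Nonempty Al] (W : Win N Al)

theorem Win.q4_Q : 0 < W.Q := by
  have h1 := W.hx
  have h2 := W.hv
  have h3 := W.hL
  have h4 := (W.hbox W.o (Gn W.wt W.v W.o) le_rfl)
  have h5 : IsGeo (env W.wt W.o) (Gn W.wt W.v W.o) (Gp W.wt W.v W.o) 0 W.v :=
    q4_isGeo W.ha (fun _ => W.hwt _) 0 W.v
  rw [h5.1.2.1] at h4
  have a1 := abs_le.1 h4.1
  have a2 := abs_le.1 h4.2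
  unfold col at h2
  omega

theorem Win.q4_colv : col W.v ≤ 3 * W.Q := by
  have h4 := (W.hbox W.o (Gn W.wt W.v W.o) le_rfl)
  have h5 : IsGeo (env W.wt W.o) (Gn W.wt W.v W.o) (Gp W.wt W.v W.o) 0 W.v :=
    q4_isGeo W.ha (fun _ => W.hwt _) 0 W.v
  rw [h5.1.2.1] at h4
  have a1 := abs_le.1 h4.1
  have a2 := abs_le.1 h4.2
  unfold col
  omega

theorem Win.q4_geo (ω : Ix N → Al) :
    IsGeo (env W.wt ω) (Gn W.wt W.v ω) (Gp W.wt W.v ω) 0 W.v :=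
  q4_isGeo W.ha (fun _ => W.hwt _) 0 W.v

theorem Win.q4_pos (ω : Ix N → Al) (e : E) : 0 < env W.wt ω e :=
  lt_of_lt_of_le W.ha (W.hwt _).1

/-- the no backtracking event -/
def Win.nbE (ω : Ix N → Al) : Prop :=
  NB (W.L / 4) W.x (W.x + 63 * W.L) (Gn W.wt W.v ω) (Gp W.wt W.v ω)

theorem Win.q4_cur {ω : Ix N → Al} (h : W.nbE ω) :
    Cur (env W.wt ω) (W.L / 4) W.x (W.x + 63 * W.L) W.Q (Gn W.wt W.v ω) (Gp W.wt W.v ω) := by
  have hg := W.q4_geo ω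
  refine ⟨?_, h, W.hbox ω⟩
  rw [hg.1.1, hg.1.2.1]
  exact hg

theorem Win.q4_tr (k : ℤ) (ω : Ix N → Al) :
    W.tr k ω = trc (W.mlo k) (W.mhi k) (eset 0 (Gn W.wt W.v ω) (Gp W.wt W.v ω)) := rfl

theorem Win.q4_GE (ω : Ix N → Al) :
    GE W.wt W.v ω = eset 0 (Gn W.wt W.v ω) (Gp W.wt W.v ω) := rfl

/-- a torus edge of the part `s` of group `k` which belongs to the geodesic and to another edge set in
the box `20 Q` comes from a common planar edge in the columns of this part -/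
theorem Win.q4_common {k s : ℤ} (hk : 0 ≤ k) (hk' : k ≤ 8) (hs : s = 1 ∨ s = 5)
    {ω : Ix N → Al} {T : Finset E}
    (hT : ∀ e ∈ T, inBox (20 * W.Q) e.1)
    (h : ∃ i ∈ W.part k s, i ∈ GI W.wt W.v ω ∧ i ∈ T.image (red N)) :
    ∃ e ∈ GE W.wt W.v ω, e ∈ T ∧ W.x + (7 * k + s) * W.L ≤ col e.1 ∧
      col e.1 < W.x + (7 * k + s + 1) * W.L := by
  classical
  obtain ⟨i, hi, h1, h2⟩ := h
  unfold GI at h1
  rw [mem_image] at h1 h2
  obtain ⟨e, he, rfl⟩ := h1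
  obtain ⟨e', he', hr⟩ := h2
  have hQ := W.q4_Q
  have hN := W.hQ
  have hv := W.q4_colv
  have hg := W.q4_geo ω
  have hbox : inBox W.Q e.1 := by
    rw [W.q4_GE] at he
    obtain ⟨j, -, hj, rfl⟩ := mem_eset.1 he
    rcases edg_fst_mem (hg.1.2.2 j hj) with h1 | h1
    · rw [h1]; exact W.hbox ω j (by omega)
    · rw [h1]; exact W.hbox ω (j + 1) (by omega)
  have hbox' : inBox (20 * W.Q) e.1 :=
    ⟨hbox.1.trans (by omega), hbox.2.trans (by omega)⟩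
  have hee : e' = e := q4_red_inj (Q := 20 * W.Q) (by omega) (hT e' he') hbox' hr
  subst hee
  refine ⟨e', he, he', ?_⟩
  have hx := W.hx
  have hvv := W.hv
  have hL := W.hL
  unfold Win.part at hi
  have b1 : 0 ≤ (7 * k + s) * W.L := by
    apply mul_nonneg <;> rcases hs with rfl | rfl <;> omega
  have b2 : (7 * k + s + 1) * W.L ≤ 63 * W.L := by
    apply mul_le_mul_of_nonneg_right <;> rcases hs with rfl | rfl <;> omega
  exact q4_blkI_red hbox (by omega) (by omega) (by omega) hi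

end win

end Pool.Agent.FPZ
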