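import Pool.Agent.FPZ.Q4Cur

/-!
# Section 4: rotation by one unit, `MeetB` gives `J1`
-/

set_option autoImplicit false

noncomputable section

namespace Pool.Agent.FPZ

open Finset Pool.FPP

section win

variable {N : ℕ} [NeZero N] {Al : Type} [Fintype Al] [Nonempty Al] {W : Win N Al}

/-- deterministic part -/
theorem q4_j1_det {k : ℤ} (hk : 1 ≤ k) (hk' : k ≤ 7) {ω : Ix N → Al} {α β : ℤ}
    (hα : α ≤ W.lo k) (hβ : W.hi k ≤ β)
    (hn1 : W.nbE ω) (hn2 : W.nbE (mix (blkI N α β) (shiftC (su 1) ω) ω))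
    (hG : Gen (20 * W.Q) (env W.wt ω))
    (m1 : ∃ i ∈ W.part k 1, i ∈ GI W.wt W.v ω ∧
        i ∈ ((GE W.wt W.v (mix (blkI N α β) (shiftC (su 1) ω) ω)).image
          (shE (su 1))).image (red N))
    (m5 : ∃ i ∈ W.part k 5, i ∈ GI W.wt W.v ω ∧
        i ∈ ((GE W.wt W.v (mix (blkI N α β) (shiftC (su 1) ω) ω)).image
          (shE (su 1))).image (red N)) :
    W.tr k ω = (W.tr k (mix (blkI N α β) (shiftC (su 1) ω) ω)).image (shE (su 1)) := by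
  have hQ := W.q4_Q
  have hL := W.hL
  set ω2 := mix (blkI N α β) (shiftC (su 1) ω) ω with hω2
  have c1 := (W.q4_cur hn1).mono (W.q4_lo (k := k) (by omega)) (W.q4_hi (k := k) (by omega))
    (by omega : W.Q ≤ 20 * W.Q)
  have c2 := W.q4_curR (s := 1) (by rw [abs_one]; omega) (W.q4_lo (k := k) (by omega))
    (W.q4_hi (k := k) (by omega)) hn2
  have hT : ∀ e ∈ (GE W.wt W.v ω2).image (shE (su 1)), inBox (20 * W.Q) e.1 := by
    intro e he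
    rw [W.q4_GE, ← q4_eset_shift] at he
    exact c2.box_edge le_rfl he
  obtain ⟨e1, h11, h12, h13, h14⟩ := W.q4_common (by omega) (by omega) (Or.inl rfl) hT m1
  obtain ⟨e5, h51, h52, h53, h54⟩ := W.q4_common (by omega) (by omega) (Or.inr rfl) hT m5
  rw [W.q4_GE, ← q4_eset_shift] at h12 h52
  rw [← W.q4_trR 1 k ω2, W.q4_tr]
  have hL4 : 4 * (W.L / 4) ≤ W.L := by omega
  have hL0 : 0 < W.L / 4 := by omega
  refine q4_coin (W.q4_pos ω) (W.q4_posR 1 ω2) hL0 c1 c2 ?_ hG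
    (onP_of_inc c1.adj h11 (Or.inl rfl)) (onP_of_inc c2.adj h12 (Or.inl rfl))
    (onP_of_inc c1.adj h51 (Or.inl rfl)) (onP_of_inc c2.adj h52 (Or.inl rfl)) ?_ ?_ ?_ ?_ ?_
  · intro e he
    rw [hω2]
    exact W.q4_agreeR (q4_clI_sub_blkI hα hβ) he
  · unfold Win.lo; linarith
  · unfold Win.hi; linarith
  · linarith
  · unfold Win.mlo; linarith
  · unfold Win.mhi; linarith

theorem j1 {ε ε' : ℝ} (hB : W.MeetB ε) (S : Sig W ε') : J1 S (3 * (ε + ε' + W.e0)) := by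
  intro k hk hk'
  have hε' : 0 ≤ ε' := le_trans (q4_Pr_nonneg _) (S.prb 0 le_rfl (by norm_num))
  have he := W.q4_e0
  obtain ⟨α, β, h1, h2, h3, h4, hm⟩ := hB k hk hk'
  have hε : 0 ≤ ε := le_trans (q4_Pr_nonneg _) (hm 1 (Or.inl rfl))
  have hL := W.hL
  have hlo : W.x + W.L ≤ W.lo k := by
    unfold Win.lo
    nlinarith [mul_nonneg (by omega : (0 : ℤ) ≤ k - 1) (by omega : (0 : ℤ) ≤ W.L)]
  have hhi : W.hi k + W.L + 1 ≤ W.x + 63 * W.L := by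
    unfold Win.hi
    nlinarith [mul_nonneg (by omega : (0 : ℤ) ≤ 7 - k) (by omega : (0 : ℤ) ≤ W.L)]
  have hblkB : blkI N α β ⊆ W.B :=
    (q4_blkI_sub_clI (by omega) (by omega)).trans W.hB
  have hGblk : W.G k ⊆ blkI N α β := q4_clI_sub_blkI h2 h3
  have hMT : ∀ ξ : Ix N → Al, W.M (mix (blkI N α β) (shiftC (su 1) ξ) ξ) =
      mix (blkI N α β) (shiftC (su 1) (W.M ξ)) (W.M ξ) := fun ξ =>
    q4_mix_shift W.B (blkI N α β) hblkB 1 W.hBcol ξ W.o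
  have hcol := q4_blkI_col (N := N) α β
  have m1 := hm 1 (Or.inl rfl)
  have m5 := hm 5 (Or.inr rfl)
  have n1 : Pr (fun ξ : Ix N → Al => ¬ W.nbE (W.M ξ)) ≤ W.e0 := W.hnb
  have n2 : Pr (fun ξ : Ix N → Al =>
      ¬ W.nbE (W.M (mix (blkI N α β) (shiftC (su 1) ξ) ξ))) ≤ W.e0 := by
    rw [q4_Pr_shift (blkI N α β) 1 hcol (fun ξ => ¬ W.nbE (W.M ξ))]
    exact W.hnb
  have g1 : Pr (fun ξ : Ix N → Al => ¬ Gen (20 * W.Q) (env W.wt (W.M ξ))) ≤ W.e0 := W.hgen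
  have s1 := S.prb k (by omega) (by omega)
  have s2 : Pr (fun ξ : Ix N → Al => W.tr k (W.M (mix (blkI N α β) (shiftC (su 1) ξ) ξ)) ≠
      S.sig k (mix (blkI N α β) (shiftC (su 1) ξ) ξ)) ≤ ε' := by
    rw [q4_Pr_shift (blkI N α β) 1 hcol (fun ξ => W.tr k (W.M ξ) ≠ S.sig k ξ)]
    exact s1
  have hall := q4_Pr_mono (Ω := Ix N → Al)
    (s := fun ξ => S.sig k ξ ≠ bR S 1 k ξ)
    (t := fun ξ => (¬ ∃ i ∈ W.part k 1, i ∈ GI W.wt W.v (W.M ξ) ∧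
        i ∈ ((GE W.wt W.v (mix (blkI N α β) (shiftC (su 1) (W.M ξ)) (W.M ξ))).image
          (shE (su 1))).image (red N)) ∨
      (¬ ∃ i ∈ W.part k 5, i ∈ GI W.wt W.v (W.M ξ) ∧
        i ∈ ((GE W.wt W.v (mix (blkI N α β) (shiftC (su 1) (W.M ξ)) (W.M ξ))).image
          (shE (su 1))).image (red N)) ∨
      (W.tr k (W.M ξ) ≠ S.sig k ξ) ∨
      ((W.tr k (W.M (mix (blkI N α β) (shiftC (su 1) ξ) ξ)) ≠
        S.sig k (mix (blkI N α β) (shiftC (su 1) ξ) ξ)) ∨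
      (¬ W.nbE (W.M ξ)) ∨ (¬ W.nbE (W.M (mix (blkI N α β) (shiftC (su 1) ξ) ξ))) ∨
      ¬ Gen (20 * W.Q) (env W.wt (W.M ξ)))) ?_
  · have u1 := q4_Pr_or4 (Ω := Ix N → Al)
      (fun ξ => (¬ ∃ i ∈ W.part k 1, i ∈ GI W.wt W.v (W.M ξ) ∧
        i ∈ ((GE W.wt W.v (mix (blkI N α β) (shiftC (su 1) (W.M ξ)) (W.M ξ))).image
          (shE (su 1))).image (red N)))
      (fun ξ => (¬ ∃ i ∈ W.part k 5, i ∈ GI W.wt W.v (W.M ξ) ∧
        i ∈ ((GE W.wt W.v (mix (blkI N α β) (shiftC (su 1) (W.M ξ)) (W.M ξ))).image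
          (shE (su 1))).image (red N)))
      (fun ξ => (W.tr k (W.M ξ) ≠ S.sig k ξ))
      (fun ξ => ((W.tr k (W.M (mix (blkI N α β) (shiftC (su 1) ξ) ξ)) ≠
        S.sig k (mix (blkI N α β) (shiftC (su 1) ξ) ξ)) ∨
      (¬ W.nbE (W.M ξ)) ∨ (¬ W.nbE (W.M (mix (blkI N α β) (shiftC (su 1) ξ) ξ))) ∨
      ¬ Gen (20 * W.Q) (env W.wt (W.M ξ))))
    have u2 := q4_Pr_or4 (Ω := Ix N → Al)
      (fun ξ => (W.tr k (W.M (mix (blkI N α β) (shiftC (su 1) ξ) ξ)) ≠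
        S.sig k (mix (blkI N α β) (shiftC (su 1) ξ) ξ)))
      (fun ξ => (¬ W.nbE (W.M ξ)))
      (fun ξ => (¬ W.nbE (W.M (mix (blkI N α β) (shiftC (su 1) ξ) ξ))))
      (fun ξ => ¬ Gen (20 * W.Q) (env W.wt (W.M ξ)))
    linarith
  · intro ξ hne
    by_contra hc
    push Not at hc
    obtain ⟨a1, a5, t1, t2, b1, b2, g⟩ := hc
    apply hne
    have e1 : S.sig k (mix (blkI N α β) (shiftC (su 1) ξ) ξ) = S.sig k (shiftC (su 1) ξ) := by
      apply S.loc k (by omega) (by omega)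
      intro i hi
      unfold mix
      simp [hGblk hi]
    unfold bR
    rw [← e1, ← t1, ← t2, hMT]
    rw [hMT] at b2
    exact q4_j1_det hk hk' h2 h3 b1 b2 g a1 a5

end win

end Pool.Agent.FPZ
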