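import Pool.Agent.FPZ.Q4Ix
import Pool.Agent.FPZ.Q4Avg

/-!
# Section 4: localisation, `MeetA` gives the maps `sig k`
-/

set_option autoImplicit false

noncomputable section

namespace Pool.Agent.FPZ

open Finset Pool.FPP

theorem q4_Pr_prod {Ω Ω' : Type} [Fintype Ω] [Fintype Ω'] (s : Ω → Ω' → Prop) :
    Pr (fun ζ : Ω × Ω' => s ζ.1 ζ.2) = Ex (fun y : Ω' => Pr (fun x : Ω => s x y)) := by
  classical
  unfold Pr
  rw [Ex_prod, Ex_comm]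

theorem q4_Pr_fst {Ω Ω' : Type} [Fintype Ω] [Fintype Ω'] [Nonempty Ω'] (s : Ω → Prop) :
    Pr (fun ζ : Ω × Ω' => s ζ.1) = Pr s := by
  rw [q4_Pr_prod (fun x _ => s x), Ex_const]

section win

variable {N : ℕ} [NeZero N] {Al : Type} [Fintype Al] [Nonempty Al] (W : Win N Al)

theorem Win.q4_e0 : 0 ≤ W.e0 := le_trans (q4_Pr_nonneg _) W.hgen

theorem Win.q4_GB {k : ℤ} (hk : 0 ≤ k) (hk' : k ≤ 8) : W.G k ⊆ W.B := by
  refine (q4_clI_mono ?_ ?_).trans W.hB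
  · unfold Win.lo
    have := W.hL
    nlinarith [mul_nonneg hk (by omega : (0 : ℤ) ≤ W.L)]
  · unfold Win.hi
    have := W.hL
    nlinarith [mul_nonneg (by omega : (0 : ℤ) ≤ 8 - k) (by omega : (0 : ℤ) ≤ W.L)]

theorem Win.q4_lo {k : ℤ} (hk : 0 ≤ k) : W.x ≤ W.lo k := by
  unfold Win.lo
  have := W.hL
  nlinarith [mul_nonneg hk (by omega : (0 : ℤ) ≤ W.L)]

theorem Win.q4_hi {k : ℤ} (hk' : k ≤ 8) : W.hi k ≤ W.x + 63 * W.L := by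
  unfold Win.hi
  have := W.hL
  nlinarith [mul_nonneg (by omega : (0 : ℤ) ≤ 8 - k) (by omega : (0 : ℤ) ≤ W.L)]

theorem Win.q4_M_mix {G : Finset (Ix N)} (h : G ⊆ W.B) (η η' : Ix N → Al) :
    W.M (mix G η η') = mix G η (W.M η') := by
  funext i
  unfold Win.M mix
  by_cases h1 : i ∈ G
  · simp [h1, h h1]
  · simp [h1]

/-- deterministic part of the localisation: two configurations that agree on the group `k` -/
theorem Win.q4_tr_eq {k : ℤ} (hk : 0 ≤ k) (hk' : k ≤ 8) {ω1 ω2 : Ix N → Al}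
    (hag : ∀ i ∈ W.G k, ω1 i = ω2 i) (hn1 : W.nbE ω1) (hn2 : W.nbE ω2)
    (hG : Gen (20 * W.Q) (env W.wt ω1))
    (m1 : ∃ i ∈ W.part k 1, i ∈ GI W.wt W.v ω1 ∧ i ∈ GI W.wt W.v ω2)
    (m5 : ∃ i ∈ W.part k 5, i ∈ GI W.wt W.v ω1 ∧ i ∈ GI W.wt W.v ω2) :
    W.tr k ω1 = W.tr k ω2 := by
  have hQ := W.q4_Q
  have hL := W.hL
  have c1 := (W.q4_cur hn1).mono (W.q4_lo hk) (W.q4_hi hk') (by omega : W.Q ≤ 20 * W.Q)
  have c2 := (W.q4_cur hn2).mono (W.q4_lo hk) (W.q4_hi hk') (by omega : W.Q ≤ 20 * W.Q)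
  have hT : ∀ e ∈ GE W.wt W.v ω2, inBox (20 * W.Q) e.1 := fun e he => c2.box_edge le_rfl he
  obtain ⟨e1, h11, h12, h13, h14⟩ := W.q4_common hk hk' (Or.inl rfl) hT m1
  obtain ⟨e5, h51, h52, h53, h54⟩ := W.q4_common hk hk' (Or.inr rfl) hT m5
  rw [W.q4_tr, W.q4_tr]
  have hL4 : 4 * (W.L / 4) ≤ W.L := by omega
  have hL0 : 0 < W.L / 4 := by omega
  refine q4_coin (W.q4_pos ω1) (W.q4_pos ω2) hL0 c1 c2 ?_ hG
    (onP_of_inc c1.adj h11 (Or.inl rfl)) (onP_of_inc c2.adj h12 (Or.inl rfl))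
    (onP_of_inc c1.adj h51 (Or.inl rfl)) (onP_of_inc c2.adj h52 (Or.inl rfl)) ?_ ?_ ?_ ?_ ?_
  · intro e he
    unfold env
    rw [hag _ (q4_red_clI he)]
  · unfold Win.lo; linarith
  · unfold Win.hi; linarith
  · linarith
  · unfold Win.mlo; linarith
  · unfold Win.mhi; linarith

theorem Win.q4_loc_avg {ε : ℝ} (hM : W.MeetA ε) {k : ℤ} (hk : 0 ≤ k) (hk' : k ≤ 8) :
    Ex (fun η' : Ix N → Al => Pr (fun η : Ix N → Al =>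
      W.tr k (W.M η) ≠ W.tr k (W.M (mix (W.G k) η η')))) ≤ 2 * ε + 3 * W.e0 := by
  have hGB := W.q4_GB hk hk'
  rw [← q4_Pr_prod (fun η η' : Ix N → Al =>
    W.tr k (W.M η) ≠ W.tr k (W.M (mix (W.G k) η η')))]
  have h1 := hM k hk hk' 1 (Or.inl rfl)
  have h5 := hM k hk hk' 5 (Or.inr rfl)
  have hn1 : Pr (fun ζ : (Ix N → Al) × (Ix N → Al) => ¬ W.nbE (W.M ζ.1)) ≤ W.e0 := by
    rw [q4_Pr_fst (fun η : Ix N → Al => ¬ W.nbE (W.M η))]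
    exact W.hnb
  have hn2 : Pr (fun ζ : (Ix N → Al) × (Ix N → Al) =>
      ¬ W.nbE (W.M (mix (W.G k) ζ.1 ζ.2))) ≤ W.e0 := by
    rw [q4_Pr_prod (fun η η' : Ix N → Al => ¬ W.nbE (W.M (mix (W.G k) η η')))]
    rw [q4_Pr_mix (W.G k) (fun η : Ix N → Al => ¬ W.nbE (W.M η))]
    exact W.hnb
  have hg : Pr (fun ζ : (Ix N → Al) × (Ix N → Al) =>
      ¬ Gen (20 * W.Q) (env W.wt (W.M ζ.1))) ≤ W.e0 := by
    rw [q4_Pr_fst (fun η : Ix N → Al => ¬ Gen (20 * W.Q) (env W.wt (W.M η)))]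
    exact W.hgen
  have hall := q4_Pr_mono (Ω := (Ix N → Al) × (Ix N → Al))
    (s := fun ζ => W.tr k (W.M ζ.1) ≠ W.tr k (W.M (mix (W.G k) ζ.1 ζ.2)))
    (t := fun ζ => (¬ ∃ i ∈ W.part k 1, i ∈ GI W.wt W.v (W.M ζ.1) ∧
        i ∈ GI W.wt W.v (mix (W.G k) ζ.1 (W.M ζ.2))) ∨
      ((¬ ∃ i ∈ W.part k 5, i ∈ GI W.wt W.v (W.M ζ.1) ∧
        i ∈ GI W.wt W.v (mix (W.G k) ζ.1 (W.M ζ.2))) ∨
      (¬ W.nbE (W.M ζ.1)) ∨ (¬ W.nbE (W.M (mix (W.G k) ζ.1 ζ.2))) ∨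
      ¬ Gen (20 * W.Q) (env W.wt (W.M ζ.1)))) ?_
  · have u1 := q4_Pr_or (Ω := (Ix N → Al) × (Ix N → Al))
      (fun ζ => (¬ ∃ i ∈ W.part k 1, i ∈ GI W.wt W.v (W.M ζ.1) ∧
        i ∈ GI W.wt W.v (mix (W.G k) ζ.1 (W.M ζ.2))))
      (fun ζ => ((¬ ∃ i ∈ W.part k 5, i ∈ GI W.wt W.v (W.M ζ.1) ∧
        i ∈ GI W.wt W.v (mix (W.G k) ζ.1 (W.M ζ.2))) ∨
      (¬ W.nbE (W.M ζ.1)) ∨ (¬ W.nbE (W.M (mix (W.G k) ζ.1 ζ.2))) ∨
      ¬ Gen (20 * W.Q) (env W.wt (W.M ζ.1))))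
    have u2 := q4_Pr_or4 (Ω := (Ix N → Al) × (Ix N → Al))
      (fun ζ => (¬ ∃ i ∈ W.part k 5, i ∈ GI W.wt W.v (W.M ζ.1) ∧
        i ∈ GI W.wt W.v (mix (W.G k) ζ.1 (W.M ζ.2))))
      (fun ζ => (¬ W.nbE (W.M ζ.1))) (fun ζ => (¬ W.nbE (W.M (mix (W.G k) ζ.1 ζ.2))))
      (fun ζ => ¬ Gen (20 * W.Q) (env W.wt (W.M ζ.1)))
    linarith
  · rintro ⟨η, η'⟩ hne
    by_contra hc
    push Not at hc
    obtain ⟨a1, a5, b1, b2, g⟩ := hc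
    apply hne
    have hmm := W.q4_M_mix hGB η η'
    simp only at a1 a5 b1 b2 g ⊢
    rw [← hmm] at a1 a5
    refine W.q4_tr_eq hk hk' ?_ b1 b2 g a1 a5
    intro i hi
    rw [hmm]
    unfold Win.M mix
    simp [hi, hGB hi]

/-- **Localisation.** -/
theorem loc {ε : ℝ} (hM : W.MeetA ε) : Nonempty (Sig W (3 * (ε + W.e0))) := by
  have hε : 0 ≤ ε := le_trans (q4_Pr_nonneg _) (hM 0 le_rfl (by norm_num) 1 (Or.inl rfl))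
  have he := W.q4_e0
  have hch : ∀ k : ℤ, ∃ η0 : Ix N → Al, 0 ≤ k → k ≤ 8 →
      Pr (fun η : Ix N → Al => W.tr k (W.M η) ≠ W.tr k (W.M (mix (W.G k) η η0))) ≤
        3 * (ε + W.e0) := by
    intro k
    by_cases hk : 0 ≤ k ∧ k ≤ 8
    · obtain ⟨η0, h0⟩ := q4_choose (W.G k) (fun η => W.tr k (W.M η))
        (W.q4_loc_avg hM hk.1 hk.2)
      exact ⟨η0, fun _ _ => h0.trans (by linarith)⟩
    · exact ⟨W.o, fun h1 h2 => absurd ⟨h1, h2⟩ hk⟩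
  choose c hc using hch
  refine ⟨⟨fun k ξ => W.tr k (W.M (mix (W.G k) ξ (c k))), ?_, ?_, ?_⟩⟩
  · intro k _ _ ξ ξ' h
    have : mix (W.G k) ξ (c k) = mix (W.G k) ξ' (c k) := by
      funext i
      unfold mix
      by_cases hi : i ∈ W.G k
      · simp [hi, h i hi]
      · simp [hi]
    simp only [this]
  · intro k _ _ ξ
    exact ⟨_, rfl⟩
  · intro k h1 h2
    exact hc k h1 h2

end win

end Pool.Agent.FPZ
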