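import Pool.Agent.FPZ.Q4PR
import Pool.Agent.FPZ.P5Par

/-!
# Sections 4, 5: the excluded patterns for reflections
-/

set_option autoImplicit false

noncomputable section

namespace Pool.Agent.FPZ

open Finset Pool.FPP

section win

variable {N : ℕ} [NeZero N] {Al : Type} [Fintype Al] [Nonempty Al] {W : Win N Al}

/-- change of the relation between the groups `k₁` and `k₂`: common vertex -/
theorem q4_change {κ : ℤ} {c : V} (hc : col c = 2 * W.x + 7 * (κ + 1) * W.L)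
    {k₁ k₂ : ℤ} (h0 : 0 ≤ k₁) (h0' : κ - 8 ≤ k₁) (hk : k₁ ≤ k₂) (h8 : k₂ ≤ 8) (h8' : k₂ ≤ κ)
    (ω ω' : Ix N → Al)
    (hne : rr (W.mln k₁) (W.tr k₁ ω) ((W.tr (κ - k₁) ω').image (rfE c)) % 2 ≠
      rr (W.mln k₂) (W.tr k₂ ω) ((W.tr (κ - k₂) ω').image (rfE c)) % 2) :
    ∃ z : V, onP (Gn W.wt W.v ω) (Gp W.wt W.v ω) z ∧
      onP (Gn W.wt W.v ω') (fun i => c - Gp W.wt W.v ω' (Gn W.wt W.v ω' - i)) z ∧
      W.mln k₁ ≤ col z ∧ col z ≤ W.mln k₂ + 1 := by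
  have tr1 : ∀ k : ℤ, rr (W.mln k) (W.tr k ω) ((W.tr (κ - k) ω').image (rfE c)) =
      rr (W.mln k) (GE W.wt W.v ω) ((GE W.wt W.v ω').image (rfE c)) := by
    intro k
    rw [← W.rr_tr k (GE W.wt W.v ω), ← W.q4_trF κ k c hc ω', q4_eset_refl (W.q4_geo ω') c]
    rfl
  rw [tr1, tr1] at hne
  by_contra hno
  apply hne
  refine W.cv_rf hc h0 h0' hk h8 h8' ω ω' (W.q4_geo ω) (W.q4_geo ω') ?_
  intro i hi j hj hij h1 h2
  apply hno
  refine ⟨Gp W.wt W.v ω i, ⟨i, hi, rfl⟩, ⟨Gn W.wt W.v ω' - j, by omega, ?_⟩, by omega, by omega⟩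
  simp only
  rw [hij]
  congr 2
  omega

theorem patF {ε : ℝ} (S : Sig W ε) : PatF S (6 * (ε + W.e0)) := by
  intro κ hκ c hc hc1 k₁ k₂ k₃ h0 h0' h12 h23 h3κ h38
  have he := W.q4_e0
  have hQ := W.q4_Q
  have hL := W.hL
  obtain ⟨a, b, hab, ha0, hb8, hak, hkb⟩ : ∃ a b : ℤ, a + b = κ ∧ 0 ≤ a ∧ b ≤ 8 ∧ a ≤ k₁ ∧
      k₃ ≤ b := by
    rcases hκ with rfl | rfl
    · exact ⟨0, 7, by norm_num, by norm_num, by norm_num, h0, h3κ⟩
    · exact ⟨1, 8, by norm_num, by norm_num, by norm_num, by omega, h38⟩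
  have hcab : col c = W.lo a + W.hi b := by
    rw [hc]
    unfold Win.lo Win.hi
    rw [← hab]
    ring
  set T : (Ix N → Al) → (Ix N → Al) :=
    fun ξ => mix (clI N (W.lo a) (W.hi b)) (reflC c ξ) ξ with hTdef
  have hT : ∀ t : (Ix N → Al) → Prop, Pr (fun ξ => t (T ξ)) = Pr t := fun t =>
    q4_Pr_refl (W.lo a) (W.hi b) c hcab t
  have hlo := W.q4_lo ha0
  have hhi := W.q4_hi hb8
  have hSB : clI N (W.lo a) (W.hi b) ⊆ W.B := (q4_clI_mono hlo hhi).trans W.hB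
  have hMT : ∀ ξ : Ix N → Al, W.M (T ξ) =
      mix (clI N (W.lo a) (W.hi b)) (reflC c (W.M ξ)) (W.M ξ) := fun ξ =>
    q4_mix_refl W.B _ _ c hcab hSB ξ W.o
  have hsig : ∀ k : ℤ, a ≤ k → k ≤ b → ∀ ξ, S.sig (κ - k) (T ξ) = S.sig (κ - k) (reflC c ξ) := by
    intro k h3 h5 ξ
    apply S.loc (κ - k) (by omega) (by omega)
    intro i hi
    rw [hTdef]
    unfold mix
    simp [W.q4_G_lo_hi (k1 := a) (k3 := b) (by omega) (by omega) hi]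
  have hlohi : W.lo a ≤ W.hi b := by
    unfold Win.lo Win.hi
    nlinarith [mul_nonneg (by omega : (0 : ℤ) ≤ b - a) (by omega : (0 : ℤ) ≤ W.L)]
  have hα1 : W.lo a ≤ W.lo k₁ := by
    unfold Win.lo
    nlinarith [mul_nonneg (by omega : (0 : ℤ) ≤ k₁ - a) (by omega : (0 : ℤ) ≤ W.L)]
  have hβ3 : W.hi k₃ ≤ W.hi b := by
    unfold Win.hi
    nlinarith [mul_nonneg (by omega : (0 : ℤ) ≤ b - k₃) (by omega : (0 : ℤ) ≤ W.L)]
  -- common facts for a good configuration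
  have main : ∀ P : (Ix N → Al) → Prop,
      (∀ ξ, (∀ k : ℤ, (k = k₁ ∨ k = k₂ ∨ k = k₃) → S.sig k ξ = W.tr k (W.M ξ)) →
        (∀ k : ℤ, (k = k₁ ∨ k = k₂ ∨ k = k₃) →
          bF S κ c k ξ = (W.tr (κ - k) (W.M (T ξ))).image (rfE c)) →
        Cur (env W.wt (W.M ξ)) (W.L / 4) (W.lo a) (W.hi b) (20 * W.Q) (Gn W.wt W.v (W.M ξ))
          (Gp W.wt W.v (W.M ξ)) →
        Cur (envF W c (W.M (T ξ))) (W.L / 4) (W.lo a) (W.hi b) (20 * W.Q)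
          (Gn W.wt W.v (W.M (T ξ)))
          (fun i => c - Gp W.wt W.v (W.M (T ξ)) (Gn W.wt W.v (W.M (T ξ)) - i)) →
        (∀ e, inStrip (W.lo a) (W.hi b) e → env W.wt (W.M ξ) e = envF W c (W.M (T ξ)) e) →
        Gen (20 * W.Q) (env W.wt (W.M ξ)) → ¬ P ξ) →
      Pr P ≤ 6 * (ε + W.e0) := by
    intro P hP
    refine (q4_bad S T hT (k1 := k₁) (k2 := k₂) (k3 := k₃) (l1 := κ - k₁) (l2 := κ - k₂)
      (l3 := κ - k₃) ⟨by omega, by omega⟩ ⟨by omega, by omega⟩ ⟨by omega, by omega⟩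
      ⟨by omega, by omega⟩ ⟨by omega, by omega⟩ ⟨by omega, by omega⟩ P ?_).trans (by linarith)
    intro ξ t1 t2 t3 r1 r2 r3 n1 n2 g
    refine hP ξ ?_ ?_ ((W.q4_cur n1).mono hlo hhi (by omega)) (W.q4_curF hc1 hcab hlo hhi hlohi n2)
      ?_ g
    · rintro k (rfl | rfl | rfl)
      · exact t1.symm
      · exact t2.symm
      · exact t3.symm
    · rintro k (rfl | rfl | rfl)
      · unfold bF; rw [r1, hsig k (by omega) (by omega)]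
      · unfold bF; rw [r2, hsig k (by omega) (by omega)]
      · unfold bF; rw [r3, hsig k (by omega) (by omega)]
    · intro e he'
      rw [hMT]
      exact W.q4_agreeF hcab (subset_refl _) he'
  -- a change of the relation between k₁, k₂ and between k₂, k₃ is impossible
  have chg : ∀ ξ, (∀ k : ℤ, (k = k₁ ∨ k = k₂ ∨ k = k₃) → S.sig k ξ = W.tr k (W.M ξ)) →
        (∀ k : ℤ, (k = k₁ ∨ k = k₂ ∨ k = k₃) →
          bF S κ c k ξ = (W.tr (κ - k) (W.M (T ξ))).image (rfE c)) →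
        Cur (env W.wt (W.M ξ)) (W.L / 4) (W.lo a) (W.hi b) (20 * W.Q) (Gn W.wt W.v (W.M ξ))
          (Gp W.wt W.v (W.M ξ)) →
        Cur (envF W c (W.M (T ξ))) (W.L / 4) (W.lo a) (W.hi b) (20 * W.Q)
          (Gn W.wt W.v (W.M (T ξ)))
          (fun i => c - Gp W.wt W.v (W.M (T ξ)) (Gn W.wt W.v (W.M (T ξ)) - i)) →
        (∀ e, inStrip (W.lo a) (W.hi b) e → env W.wt (W.M ξ) e = envF W c (W.M (T ξ)) e) →
        Gen (20 * W.Q) (env W.wt (W.M ξ)) →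
        rr (W.mln k₁) (S.sig k₁ ξ) (bF S κ c k₁ ξ) % 2 ≠
          rr (W.mln k₂) (S.sig k₂ ξ) (bF S κ c k₂ ξ) % 2 →
        rr (W.mln k₂) (S.sig k₂ ξ) (bF S κ c k₂ ξ) % 2 ≠
          rr (W.mln k₃) (S.sig k₃ ξ) (bF S κ c k₃ ξ) % 2 →
        meetS (S.sig k₂ ξ) (bF S κ c k₂ ξ) := by
    intro ξ hs hb c1 c2 hA g d12 d23
    rw [hs k₁ (Or.inl rfl), hb k₁ (Or.inl rfl), hs k₂ (Or.inr (Or.inl rfl)),
      hb k₂ (Or.inr (Or.inl rfl))] at d12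
    rw [hs k₃ (Or.inr (Or.inr rfl)), hb k₃ (Or.inr (Or.inr rfl)), hs k₂ (Or.inr (Or.inl rfl)),
      hb k₂ (Or.inr (Or.inl rfl))] at d23
    obtain ⟨z, z1, z2, z3, z4⟩ := q4_change hc h0 h0' h12.le (by omega) (by omega) _ _ d12
    obtain ⟨y, y1, y2, y3, y4⟩ := q4_change hc (by omega) (by omega) h23.le h38 h3κ _ _ d23
    rw [hs k₂ (Or.inr (Or.inl rfl)), hb k₂ (Or.inr (Or.inl rfl)), ← W.q4_trF κ k₂ c hc]
    exact W.q4_meet_between (W.q4_posF c _) (W.q4_n0 _) c1 c2 hA g h12 h23 h0 h38 hα1 hβ3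
      z1 z2 z3 z4 y1 y2 y3 y4
  refine ⟨main _ ?_, main _ ?_, main _ ?_⟩
  · rintro ξ hs hb c1 c2 hA g ⟨p1, p2, p3⟩
    apply p2.1
    apply chg ξ hs hb c1 c2 hA g
    · rw [p1.2, p2.2]; norm_num
    · rw [p2.2, p3.2]; norm_num
  · rintro ξ hs hb c1 c2 hA g ⟨p1, p2, p3⟩
    apply p2.1
    apply chg ξ hs hb c1 c2 hA g
    · rw [p1.2, p2.2]; norm_num
    · rw [p2.2, p3.2]; norm_num
  · rintro ξ hs hb c1 c2 hA g ⟨p1, p2, p3⟩
    apply p2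
    simp only at p1 p3 ⊢
    rw [hs k₁ (Or.inl rfl), hb k₁ (Or.inl rfl), ← W.q4_trF κ k₁ c hc] at p1
    rw [hs k₃ (Or.inr (Or.inr rfl)), hb k₃ (Or.inr (Or.inr rfl)), ← W.q4_trF κ k₃ c hc] at p3
    rw [hs k₂ (Or.inr (Or.inl rfl)), hb k₂ (Or.inr (Or.inl rfl)), ← W.q4_trF κ k₂ c hc]
    exact W.q4_three (W.q4_posF c _) c1 c2 hA g h12 h23 hα1 hβ3 p1 p3

end win

end Pool.Agent.FPZ
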