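import Pool.Agent.FPZ.Q4Pat

/-!
# Section 4: union bound for a moved configuration, and the excluded pattern for rotations
-/

set_option autoImplicit false

noncomputable section

namespace Pool.Agent.FPZ

open Finset Pool.FPP

section win

variable {N : ℕ} [NeZero N] {Al : Type} [Fintype Al] [Nonempty Al] {W : Win N Al}

/-- union bound: six localisation errors, two backtracking errors, one genericity error -/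
theorem q4_bad {ε : ℝ} (S : Sig W ε) (T : (Ix N → Al) → (Ix N → Al))
    (hT : ∀ t : (Ix N → Al) → Prop, Pr (fun ξ => t (T ξ)) = Pr t)
    {k1 k2 k3 l1 l2 l3 : ℤ} (a1 : 0 ≤ k1 ∧ k1 ≤ 8) (a2 : 0 ≤ k2 ∧ k2 ≤ 8) (a3 : 0 ≤ k3 ∧ k3 ≤ 8)
    (b1 : 0 ≤ l1 ∧ l1 ≤ 8) (b2 : 0 ≤ l2 ∧ l2 ≤ 8) (b3 : 0 ≤ l3 ∧ l3 ≤ 8)
    (P : (Ix N → Al) → Prop)
    (h : ∀ ξ, W.tr k1 (W.M ξ) = S.sig k1 ξ → W.tr k2 (W.M ξ) = S.sig k2 ξ →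
      W.tr k3 (W.M ξ) = S.sig k3 ξ → W.tr l1 (W.M (T ξ)) = S.sig l1 (T ξ) →
      W.tr l2 (W.M (T ξ)) = S.sig l2 (T ξ) → W.tr l3 (W.M (T ξ)) = S.sig l3 (T ξ) →
      W.nbE (W.M ξ) → W.nbE (W.M (T ξ)) → Gen (20 * W.Q) (env W.wt (W.M ξ)) → ¬ P ξ) :
    Pr P ≤ 6 * ε + 3 * W.e0 := by
  have p1 := S.prb k1 a1.1 a1.2
  have p2 := S.prb k2 a2.1 a2.2
  have p3 := S.prb k3 a3.1 a3.2
  have q1 : Pr (fun ξ => W.tr l1 (W.M (T ξ)) ≠ S.sig l1 (T ξ)) ≤ ε := by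
    rw [hT (fun ξ => W.tr l1 (W.M ξ) ≠ S.sig l1 ξ)]
    exact S.prb l1 b1.1 b1.2
  have q2 : Pr (fun ξ => W.tr l2 (W.M (T ξ)) ≠ S.sig l2 (T ξ)) ≤ ε := by
    rw [hT (fun ξ => W.tr l2 (W.M ξ) ≠ S.sig l2 ξ)]
    exact S.prb l2 b2.1 b2.2
  have q3 : Pr (fun ξ => W.tr l3 (W.M (T ξ)) ≠ S.sig l3 (T ξ)) ≤ ε := by
    rw [hT (fun ξ => W.tr l3 (W.M ξ) ≠ S.sig l3 ξ)]
    exact S.prb l3 b3.1 b3.2
  have n1 : Pr (fun ξ : Ix N → Al => ¬ W.nbE (W.M ξ)) ≤ W.e0 := W.hnb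
  have n2 : Pr (fun ξ : Ix N → Al => ¬ W.nbE (W.M (T ξ))) ≤ W.e0 := by
    rw [hT (fun ξ => ¬ W.nbE (W.M ξ))]
    exact W.hnb
  have g1 : Pr (fun ξ : Ix N → Al => ¬ Gen (20 * W.Q) (env W.wt (W.M ξ))) ≤ W.e0 := W.hgen
  have hall := q4_Pr_mono (Ω := Ix N → Al) (s := P)
    (t := fun ξ => W.tr k1 (W.M ξ) ≠ S.sig k1 ξ ∨ W.tr k2 (W.M ξ) ≠ S.sig k2 ξ ∨
      W.tr k3 (W.M ξ) ≠ S.sig k3 ξ ∨
      (W.tr l1 (W.M (T ξ)) ≠ S.sig l1 (T ξ) ∨ W.tr l2 (W.M (T ξ)) ≠ S.sig l2 (T ξ) ∨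
      W.tr l3 (W.M (T ξ)) ≠ S.sig l3 (T ξ) ∨
      ((¬ W.nbE (W.M ξ)) ∨ (¬ W.nbE (W.M (T ξ))) ∨
        ¬ Gen (20 * W.Q) (env W.wt (W.M ξ))))) ?_
  · have u1 := q4_Pr_or4 (Ω := Ix N → Al)
      (fun ξ => W.tr k1 (W.M ξ) ≠ S.sig k1 ξ) (fun ξ => W.tr k2 (W.M ξ) ≠ S.sig k2 ξ)
      (fun ξ => W.tr k3 (W.M ξ) ≠ S.sig k3 ξ)
      (fun ξ => (W.tr l1 (W.M (T ξ)) ≠ S.sig l1 (T ξ) ∨ W.tr l2 (W.M (T ξ)) ≠ S.sig l2 (T ξ) ∨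
      W.tr l3 (W.M (T ξ)) ≠ S.sig l3 (T ξ) ∨
      ((¬ W.nbE (W.M ξ)) ∨ (¬ W.nbE (W.M (T ξ))) ∨
        ¬ Gen (20 * W.Q) (env W.wt (W.M ξ)))))
    have u2 := q4_Pr_or4 (Ω := Ix N → Al)
      (fun ξ => W.tr l1 (W.M (T ξ)) ≠ S.sig l1 (T ξ)) (fun ξ => W.tr l2 (W.M (T ξ)) ≠ S.sig l2 (T ξ))
      (fun ξ => W.tr l3 (W.M (T ξ)) ≠ S.sig l3 (T ξ))
      (fun ξ => ((¬ W.nbE (W.M ξ)) ∨ (¬ W.nbE (W.M (T ξ))) ∨
        ¬ Gen (20 * W.Q) (env W.wt (W.M ξ))))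
    have u3 := q4_Pr_or (Ω := Ix N → Al) (fun ξ => ¬ W.nbE (W.M ξ))
      (fun ξ => (¬ W.nbE (W.M (T ξ))) ∨ ¬ Gen (20 * W.Q) (env W.wt (W.M ξ)))
    have u4 := q4_Pr_or (Ω := Ix N → Al) (fun ξ => ¬ W.nbE (W.M (T ξ)))
      (fun ξ => ¬ Gen (20 * W.Q) (env W.wt (W.M ξ)))
    linarith
  · intro ξ hP
    by_contra hc
    push Not at hc
    obtain ⟨c1, c2, c3, d1, d2, d3, e1, e2, g⟩ := hc
    exact h ξ c1 c2 c3 d1 d2 d3 e1 e2 g hP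

theorem Win.q4_G_lo_hi {k k1 k3 : ℤ} (W : Win N Al) (h1 : k1 ≤ k) (h3 : k ≤ k3) :
    W.G k ⊆ clI N (W.lo k1) (W.hi k3) := by
  have hL := W.hL
  refine q4_clI_mono ?_ ?_
  · unfold Win.lo
    nlinarith [mul_nonneg (by omega : (0 : ℤ) ≤ k - k1) (by omega : (0 : ℤ) ≤ W.L)]
  · unfold Win.hi
    nlinarith [mul_nonneg (by omega : (0 : ℤ) ≤ k3 - k) (by omega : (0 : ℤ) ≤ W.L)]

theorem patR {ε : ℝ} (S : Sig W ε) : PatR S (6 * (ε + W.e0)) := by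
  intro s hs
  have he := W.q4_e0
  set T : (Ix N → Al) → (Ix N → Al) :=
    fun ξ => mix (clI N (W.lo 3) (W.hi 5)) (shiftC (su s) ξ) ξ with hTdef
  have hT : ∀ t : (Ix N → Al) → Prop, Pr (fun ξ => t (T ξ)) = Pr t := fun t =>
    q4_Pr_shift (clI N (W.lo 3) (W.hi 5)) s (q4_clI_col _ _) t
  have hSB : clI N (W.lo 3) (W.hi 5) ⊆ W.B :=
    (q4_clI_mono (W.q4_lo (by norm_num)) (W.q4_hi (by norm_num))).trans W.hB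
  have hMT : ∀ ξ : Ix N → Al, W.M (T ξ) =
      mix (clI N (W.lo 3) (W.hi 5)) (shiftC (su s) (W.M ξ)) (W.M ξ) := fun ξ =>
    q4_mix_shift W.B _ hSB s W.hBcol ξ W.o
  have hsig : ∀ k : ℤ, 3 ≤ k → k ≤ 5 → ∀ ξ, S.sig k (T ξ) = S.sig k (shiftC (su s) ξ) := by
    intro k h3 h5 ξ
    apply S.loc k (by omega) (by omega)
    intro i hi
    rw [hTdef]
    unfold mix
    simp [W.q4_G_lo_hi h3 h5 hi]
  refine (q4_bad S T hT (k1 := 3) (k2 := 4) (k3 := 5) (l1 := 3) (l2 := 4) (l3 := 5)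
    (by norm_num) (by norm_num) (by norm_num) (by norm_num) (by norm_num) (by norm_num) _ ?_).trans
    (by linarith)
  rintro ξ t3 t4 t5 r3 r4 r5 n1 n2 g ⟨p3, p4, p5⟩
  apply p4
  have b3 : bR S s 3 ξ = (W.tr 3 (W.M (T ξ))).image (shE (su s)) := by
    unfold bR; rw [r3, hsig 3 (by norm_num) (by norm_num)]
  have b4 : bR S s 4 ξ = (W.tr 4 (W.M (T ξ))).image (shE (su s)) := by
    unfold bR; rw [r4, hsig 4 (by norm_num) (by norm_num)]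
  have b5 : bR S s 5 ξ = (W.tr 5 (W.M (T ξ))).image (shE (su s)) := by
    unfold bR; rw [r5, hsig 5 (by norm_num) (by norm_num)]
  have hQ := W.q4_Q
  have c1 := (W.q4_cur n1).mono (W.q4_lo (k := 3) (by norm_num)) (W.q4_hi (k := 5) (by norm_num))
    (by omega : W.Q ≤ 20 * W.Q)
  have c2 := W.q4_curR (s := s) hs (W.q4_lo (k := 3) (by norm_num))
    (W.q4_hi (k := 5) (by norm_num)) n2
  have key : ∀ k : ℤ, trc (W.mlo k) (W.mhi k) (eset 0 (Gn W.wt W.v (W.M (T ξ)))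
      (fun i => Gp W.wt W.v (W.M (T ξ)) i + su s)) =
      (W.tr k (W.M (T ξ))).image (shE (su s)) := fun k => W.q4_trR s k _
  have meet : ∀ A B : Finset E, A = B → A.Nonempty → meetS A B := by
    rintro A B rfl ⟨e, he⟩
    exact ⟨e, he, e, he, e.1, Or.inl rfl, Or.inl rfl⟩
  have h := W.q4_three (W.q4_posR s (W.M (T ξ))) c1 c2 ?_ g (k1 := 3) (k2 := 4) (k3 := 5)
    (by norm_num) (by norm_num) le_rfl le_rfl ?_ ?_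
  · rw [key] at h
    rw [← t4, b4]
    exact h
  · intro e he
    rw [hMT]
    exact W.q4_agreeR (subset_refl _) he
  · rw [key, ← b3]
    refine meet _ _ (by rw [t3]; exact p3) (W.q4_tr_ne (by norm_num) (by norm_num) _)
  · rw [key, ← b5]
    refine meet _ _ (by rw [t5]; exact p5) (W.q4_tr_ne (by norm_num) (by norm_num) _)

end win

end Pool.Agent.FPZ
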