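import Pool.Agent.FPZ.Q4Cur

/-!
# Section 4: two curves which meet at two groups coincide at the groups in between
-/

set_option autoImplicit false

noncomputable section

namespace Pool.Agent.FPZ

open Finset Pool.FPP

theorem q4_adj_col {x y : V} (h : adj x y) : col y ≤ col x + 2 ∧ col x ≤ col y + 2 := by
  have h1 := joins_edg h
  have h2 := q4_col_hd (edg x y)
  unfold joins at h1
  rcases h1 with ⟨h3, h4⟩ | ⟨h3, h4⟩
  · rw [h3, h4] at h2
    split at h2 <;> omega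
  · rw [h3, h4] at h2
    split at h2 <;> omega

/-- a path from the left of the column `A` to the right of it has an edge in the strip
`[A, A + 3]` -/
theorem q4_edge_in {n : ℕ} {p : ℕ → V} (hadj : ∀ k < n, adj (p k) (p (k + 1))) {A : ℤ}
    (h0 : col (p 0) ≤ A + 1) (hn : A + 2 ≤ col (p n)) :
    ∃ e ∈ eset 0 n p, inStrip A (A + 3) e := by
  have key : ∃ t, t < n ∧ col (p t) ≤ A + 1 ∧ A + 2 ≤ col (p (t + 1)) := by
    by_contra hc
    have h : ∀ t ≤ n, col (p t) ≤ A + 1 := by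
      intro t
      induction t with
      | zero => intro _; exact h0
      | succ t ih =>
        intro ht
        by_contra h2
        exact hc ⟨t, by omega, ih (by omega), by omega⟩
    have := h n le_rfl
    omega
  obtain ⟨t, ht, h1, h2⟩ := key
  have h3 := q4_adj_col (hadj t ht)
  refine ⟨_, mem_eset.2 ⟨t, by omega, ht, rfl⟩, ?_⟩
  rw [inStrip_edg (hadj t ht)]
  omega

theorem q4_inc_col {α β : ℤ} {e : E} {z : V} (h : inStrip α β e) (hz : inc e z) :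
    α ≤ col z ∧ col z ≤ β := by
  have h2 := q4_col_hd e
  unfold inStrip at h
  have h3 : col e.1 ≤ col (hd e) := by
    split at h2 <;> omega
  rcases hz with hz | hz
  · rw [← hz]; omega
  · rw [← hz]; omega

/-- a vertex of a path with column in `[α + 2, β - 2]` is an end point of an edge of the path in the
strip `[α, β]` -/
theorem q4_inc_of_onP {n : ℕ} {p : ℕ → V} (hadj : ∀ k < n, adj (p k) (p (k + 1))) (hn : 0 < n)
    {z : V} (hz : onP n p z) {α β : ℤ} (h1 : α + 2 ≤ col z) (h2 : col z + 2 ≤ β) :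
    ∃ e ∈ trc α β (eset 0 n p), inc e z := by
  obtain ⟨i, hi, rfl⟩ := hz
  rcases Nat.lt_or_ge i n with h | h
  · have h3 := q4_adj_col (hadj i h)
    refine ⟨edg (p i) (p (i + 1)), mem_trc.2 ⟨mem_eset.2 ⟨i, by omega, h, rfl⟩, ?_⟩, ?_⟩
    · rw [inStrip_edg (hadj i h)]; omega
    · rcases joins_edg (hadj i h) with hj | hj
      · exact Or.inl hj.1
      · exact Or.inr hj.2
  · have hin : i = n := le_antisymm hi h
    subst hin
    obtain ⟨m, rfl⟩ : ∃ m, i = m + 1 := ⟨i - 1, by omega⟩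
    have h3 := q4_adj_col (hadj m (by omega))
    refine ⟨edg (p m) (p (m + 1)), mem_trc.2 ⟨mem_eset.2 ⟨m, by omega, by omega, rfl⟩, ?_⟩, ?_⟩
    · rw [inStrip_edg (hadj m (by omega))]; omega
    · rcases joins_edg (hadj m (by omega)) with hj | hj
      · exact Or.inr hj.2
      · exact Or.inl hj.1

section win

variable {N : ℕ} [NeZero N] {Al : Type} [Fintype Al] [Nonempty Al] (W : Win N Al)

theorem Win.q4_n0 (ω : Ix N → Al) : 0 < Gn W.wt W.v ω := by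
  have hL := W.hL
  have hg := W.q4_geo ω
  have hx := W.hx
  have hv := W.hv
  rcases Nat.eq_zero_or_pos (Gn W.wt W.v ω) with h | h
  · exfalso
    have h1 := hg.1.1
    have h2 := hg.1.2.1
    rw [h] at h2
    rw [h1] at h2
    rw [← h2] at hv
    unfold col at hv
    simp at hv
    omega
  · exact h

/-- the traces are not empty -/
theorem Win.q4_tr_ne {k : ℤ} (hk : 0 ≤ k) (hk' : k ≤ 8) (ω : Ix N → Al) : (W.tr k ω).Nonempty := by
  have hg := W.q4_geo ω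
  have hL := W.hL
  have hx := W.hx
  have hv := W.hv
  have h1 : W.x + 3 * W.L ≤ W.mlo k := by
    unfold Win.mlo
    nlinarith [mul_nonneg hk (by omega : (0 : ℤ) ≤ W.L)]
  have h2 : W.mlo k + W.L ≤ W.x + 60 * W.L := by
    unfold Win.mlo
    nlinarith [mul_nonneg (by omega : (0 : ℤ) ≤ 8 - k) (by omega : (0 : ℤ) ≤ W.L)]
  have h3 : W.mhi k = W.mlo k + W.L := by unfold Win.mhi Win.mlo; ring
  obtain ⟨e, he, hs⟩ := q4_edge_in (A := W.mlo k) hg.1.2.2
    (by rw [hg.1.1]; unfold col; simp; omega) (by rw [hg.1.2.1]; omega)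
  refine ⟨e, ?_⟩
  rw [W.q4_tr, mem_trc]
  refine ⟨he, hs.1, ?_⟩
  have := hs.2
  omega

/-- two curves in a strip that contains the groups `k₁ < k₂ < k₃`, which meet in the parts MID of
`k₁` and `k₃`, coincide in the part MID of `k₂` -/
theorem Win.q4_three {ω : Ix N → Al} {A2 : E → ℝ} (hA2 : ∀ e, 0 < A2 e) {n2 : ℕ} {p2 : ℕ → V}
    {α β : ℤ} (c1 : Cur (env W.wt ω) (W.L / 4) α β (20 * W.Q) (Gn W.wt W.v ω) (Gp W.wt W.v ω))
    (c2 : Cur A2 (W.L / 4) α β (20 * W.Q) n2 p2)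
    (hA : ∀ e, inStrip α β e → env W.wt ω e = A2 e)
    (hG : Gen (20 * W.Q) (env W.wt ω)) {k1 k2 k3 : ℤ} (h12 : k1 < k2) (h23 : k2 < k3)
    (hα : α ≤ W.lo k1) (hβ : W.hi k3 ≤ β)
    (m1 : meetS (W.tr k1 ω) (trc (W.mlo k1) (W.mhi k1) (eset 0 n2 p2)))
    (m3 : meetS (W.tr k3 ω) (trc (W.mlo k3) (W.mhi k3) (eset 0 n2 p2))) :
    W.tr k2 ω = trc (W.mlo k2) (W.mhi k2) (eset 0 n2 p2) := by
  have hL := W.hL
  obtain ⟨e1, he1, e1', he1', z, hz, hz'⟩ := m1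
  obtain ⟨e3, he3, e3', he3', y, hy, hy'⟩ := m3
  rw [W.q4_tr, mem_trc] at he1 he3
  rw [mem_trc] at he1' he3'
  have hL4 : 4 * (W.L / 4) ≤ W.L := by omega
  have hL0 : 0 < W.L / 4 := by omega
  have cz := q4_inc_col he1.2 hz
  have cy := q4_inc_col he3.2 hy
  have d12 : W.mhi k1 + 6 * W.L ≤ W.mlo k2 := by
    unfold Win.mhi Win.mlo
    nlinarith [mul_nonneg (by omega : (0 : ℤ) ≤ k2 - k1 - 1) (by omega : (0 : ℤ) ≤ W.L)]
  have d23 : W.mhi k2 + 6 * W.L ≤ W.mlo k3 := by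
    unfold Win.mhi Win.mlo
    nlinarith [mul_nonneg (by omega : (0 : ℤ) ≤ k3 - k2 - 1) (by omega : (0 : ℤ) ≤ W.L)]
  have dd : W.mhi k2 = W.mlo k2 + W.L := by unfold Win.mhi Win.mlo; ring
  have dl : W.mlo k1 = W.lo k1 + 3 * W.L := by unfold Win.mlo Win.lo; ring
  have dh : W.mhi k3 + 3 * W.L = W.hi k3 := by unfold Win.mhi Win.hi; ring
  rw [W.q4_tr]
  exact q4_coin (W.q4_pos ω) hA2 hL0 c1 c2 hA hG
    (onP_of_inc c1.adj he1.1 hz) (onP_of_inc c2.adj he1'.1 hz')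
    (onP_of_inc c1.adj he3.1 hy) (onP_of_inc c2.adj he3'.1 hy')
    (by linarith) (by linarith) (by linarith) (by linarith) (by linarith)

/-- two curves with common vertices between the middle lines of `k₁, k₂` and of `k₂, k₃` meet in the
part MID of `k₂` -/
theorem Win.q4_meet_between {ω : Ix N → Al} {A2 : E → ℝ} (hA2 : ∀ e, 0 < A2 e) {n2 : ℕ}
    (n20 : 0 < n2) {p2 : ℕ → V} {α β : ℤ}
    (c1 : Cur (env W.wt ω) (W.L / 4) α β (20 * W.Q) (Gn W.wt W.v ω) (Gp W.wt W.v ω))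
    (c2 : Cur A2 (W.L / 4) α β (20 * W.Q) n2 p2)
    (hA : ∀ e, inStrip α β e → env W.wt ω e = A2 e)
    (hG : Gen (20 * W.Q) (env W.wt ω)) {k1 k2 k3 : ℤ} (h12 : k1 < k2) (h23 : k2 < k3)
    (hk1 : 0 ≤ k1) (hk3 : k3 ≤ 8)
    (hα : α ≤ W.lo k1) (hβ : W.hi k3 ≤ β) {z y : V}
    (z1 : onP (Gn W.wt W.v ω) (Gp W.wt W.v ω) z) (z2 : onP n2 p2 z)
    (hz : W.mln k1 ≤ col z) (hz' : col z ≤ W.mln k2 + 1)
    (y1 : onP (Gn W.wt W.v ω) (Gp W.wt W.v ω) y) (y2 : onP n2 p2 y)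
    (hy : W.mln k2 ≤ col y) (hy' : col y ≤ W.mln k3 + 1) :
    meetS (W.tr k2 ω) (trc (W.mlo k2) (W.mhi k2) (eset 0 n2 p2)) := by
  have hL := W.hL
  have hg := W.q4_geo ω
  have hx := W.hx
  have hv := W.hv
  have hodd := W.hodd
  have d12 : W.mhi k1 + 6 * W.L ≤ W.mlo k2 := by
    unfold Win.mhi Win.mlo
    nlinarith [mul_nonneg (by omega : (0 : ℤ) ≤ k2 - k1 - 1) (by omega : (0 : ℤ) ≤ W.L)]
  have d23 : W.mhi k2 + 6 * W.L ≤ W.mlo k3 := by
    unfold Win.mhi Win.mlo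
    nlinarith [mul_nonneg (by omega : (0 : ℤ) ≤ k3 - k2 - 1) (by omega : (0 : ℤ) ≤ W.L)]
  have dd : W.mhi k2 = W.mlo k2 + W.L := by unfold Win.mhi Win.mlo; ring
  have dl : W.mlo k1 = W.lo k1 + 3 * W.L := by unfold Win.mlo Win.lo; ring
  have dh : W.mhi k3 + 3 * W.L = W.hi k3 := by unfold Win.mhi Win.hi; ring
  have dd3 : W.mhi k3 = W.mlo k3 + W.L := by unfold Win.mhi Win.mlo; ring
  have lo1 : W.x ≤ W.lo k1 := W.q4_lo hk1
  have hi3 : W.hi k3 ≤ W.x + 63 * W.L := W.q4_hi hk3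
  have n0 := W.q4_n0 ω
  unfold Win.mln at hz hz' hy hy'
  -- a common vertex inside MID gives a meeting
  have inside : ∀ w : V, onP (Gn W.wt W.v ω) (Gp W.wt W.v ω) w → onP n2 p2 w →
      W.mlo k2 + 2 ≤ col w → col w + 2 ≤ W.mhi k2 →
      meetS (W.tr k2 ω) (trc (W.mlo k2) (W.mhi k2) (eset 0 n2 p2)) := by
    intro w w1 w2 hw hw'
    obtain ⟨e, he, hi⟩ := q4_inc_of_onP c1.adj n0 w1 hw hw'
    obtain ⟨e', he', hi'⟩ := q4_inc_of_onP c2.adj n20 w2 hw hw'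
    exact ⟨e, he, e', he', w, hi, hi'⟩
  by_cases hzc : W.mlo k2 + 2 ≤ col z
  · exact inside z z1 z2 hzc (by omega)
  by_cases hyc : col y + 2 ≤ W.mhi k2
  · exact inside y y1 y2 (by omega) hyc
  have hL4 : 4 * (W.L / 4) ≤ W.L := by omega
  have hL0 : 0 < W.L / 4 := by omega
  have hco := q4_coin (W.q4_pos ω) hA2 hL0 c1 c2 hA hG z1 z2 y1 y2 (by omega) (by omega)
    (by omega) (γ := col z + W.L / 4) (δ := col y - W.L / 4) le_rfl (by omega)
  obtain ⟨e, he, hs⟩ := q4_edge_in (A := W.mlo k2 + 1 + W.L / 4) c1.adj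
    (by rw [hg.1.1]; unfold col; simp; omega) (by rw [hg.1.2.1]; omega)
  have he1 : e ∈ trc (col z + W.L / 4) (col y - W.L / 4) (eset 0 (Gn W.wt W.v ω) (Gp W.wt W.v ω)) := by
    rw [mem_trc]
    refine ⟨he, ?_, ?_⟩
    · have := hs.1; omega
    · have := hs.2; omega
  have he2 := he1
  rw [hco] at he2
  rw [mem_trc] at he1 he2
  refine ⟨e, ?_, e, ?_, e.1, Or.inl rfl, Or.inl rfl⟩
  · rw [W.q4_tr, mem_trc]
    refine ⟨he1.1, ?_, ?_⟩
    · have := hs.1; omega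
    · have := hs.2; omega
  · rw [mem_trc]
    refine ⟨he2.1, ?_, ?_⟩
    · have := hs.1; omega
    · have := hs.2; omega

end win

end Pool.Agent.FPZ
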