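import Pool.Agent.FPZ.R8Reg
import Pool.Agent.FPP.AV

/-!
Module R8Win (section 8): consequences of the slack function for windows. `B` is any set of coordinates (the block), averages are
conditional on the outside. All proofs are Markov's inequality for `av B` and counting.

`sB S k α β ω` = slack in the enlarged window. `bad_windows`: `Pr(x < av B X) ≤ Ex X / x` (`Ex_av`), and every column `j` is in at most
two of the enlarged windows since `16 k^10 ≤ W`; then `mean`.
`nb_prob`: if `¬ NB Y α β` then there are `x`, `α ≤ x`, `x + Y ≤ β`, `i ≤ j ≤ n` with `x + Y ≤ col (p i)`, `col (p j) ≤ x`, so by `back`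
`Y ≤ C (k^10 + sB)`, so `Y/(2C) ≤ sB` when `2 C k^10 ≤ Y`.
`sum_crs`: `crs L (edge)` holds for `L = col e.1` and (horizontal edge) `L = col e.1 + 1` only; `e.1` is one of the two vertices of the step.
-/

set_option autoImplicit false

noncomputable section

namespace Pool.Agent.FPZ

open Finset Pool.FPP

variable {N : ℕ} [NeZero N] {Al : Type} [Fintype Al] [Nonempty Al]

/-- slack in the enlarged window -/
def sB (S : (Ix N → Al) → ℤ → ℝ) (k : ℕ) (α β : ℤ) (ω : Ix N → Al) : ℝ :=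
  ∑ j ∈ Ico (α - 8 * (k : ℤ) ^ 10) (β + 8 * (k : ℤ) ^ 10), S ω j

private theorem win_count (α : ℤ) (W k : ℕ) (hk : 1 ≤ k) (hW : 16 * k ^ 10 ≤ W) (M : ℕ) (j : ℤ) :
    ((range M).filter (fun m : ℕ => j ∈ Ico (α + m * W - 8 * (k : ℤ) ^ 10)
      (α + (m + 1) * W + 8 * (k : ℤ) ^ 10))).card ≤ 2 := by
  set F := (range M).filter (fun m : ℕ => j ∈ Ico (α + m * W - 8 * (k : ℤ) ^ 10)
      (α + (m + 1) * W + 8 * (k : ℤ) ^ 10)) with hF
  have hWz : 16 * (k : ℤ) ^ 10 ≤ W := by exact_mod_cast hW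
  have hkz : (1 : ℤ) ≤ (k : ℤ) ^ 10 := by
    have : 1 ≤ k ^ 10 := Nat.one_le_pow _ _ hk
    exact_mod_cast this
  rcases F.eq_empty_or_nonempty with h | h
  · rw [h]; simp
  · set m0 := F.min' h with hm0
    have hm0F : m0 ∈ F := F.min'_mem h
    have hsub : F ⊆ {m0, m0 + 1} := by
      intro m hm
      have hle : m0 ≤ m := F.min'_le m hm
      simp only [hF, Finset.mem_filter, Finset.mem_Ico] at hm hm0F
      obtain ⟨_, h1, _⟩ := hm
      obtain ⟨_, _, h2⟩ := hm0F
      have h3 : ((m : ℤ) - m0 - 1) * W < 1 * W := by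
        have : ((m : ℤ) - m0 - 1) * W < 16 * (k : ℤ) ^ 10 := by linarith
        linarith
      have hWpos : (0 : ℤ) < W := by linarith
      have h4 : (m : ℤ) - m0 - 1 < 1 := lt_of_mul_lt_mul_right h3 hWpos.le
      simp only [Finset.mem_insert, Finset.mem_singleton]
      omega
    exact (Finset.card_le_card hsub).trans Finset.card_le_two

theorem bad_windows {wt : Al → ℝ} {v : V} {k : ℕ} {C : ℝ} {S : (Ix N → Al) → ℤ → ℝ}
    (hS : Reg wt v k C S) (hk : 1 ≤ k) (α : ℤ) (W : ℕ) (hW : 16 * k ^ 10 ≤ W) (M : ℕ)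
    (B : ℕ → Finset (Ix N)) {x : ℝ} (hx : 0 < x) :
    ∑ m ∈ range M, Pr (fun ω => x < av (B m) (sB S k (α + m * W) (α + (m + 1) * W)) ω) ≤
      2 * C * nrm v / (k * x) := by
  classical
  set X : ℕ → (Ix N → Al) → ℝ := fun m => sB S k (α + m * W) (α + (m + 1) * W) with hX
  have hX0 : ∀ m ω, 0 ≤ X m ω := fun m ω => Finset.sum_nonneg fun j _ => hS.nonneg ω j
  have h1 : ∀ m, Pr (fun ω => x < av (B m) (X m) ω) ≤ Ex (X m) / x := by
    intro m
    unfold Pr
    rw [← Ex_av (B m) (X m), div_eq_mul_inv, ← Ex_mul_right]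
    apply Ex_mono
    intro ω
    have h0 : 0 ≤ av (B m) (X m) ω := av_nonneg _ (hX0 m) ω
    split_ifs with h
    · rw [← div_eq_mul_inv, le_div_iff₀ hx]
      linarith
    · positivity
  set T : Finset ℤ := Ico (α - 8 * (k : ℤ) ^ 10) (α + M * W + 8 * (k : ℤ) ^ 10) with hT
  have h2 : ∀ ω, ∑ m ∈ range M, X m ω ≤ 2 * ∑ j ∈ T, S ω j := by
    intro ω
    have e1 : ∀ m ∈ range M, X m ω = ∑ j ∈ T, if j ∈ Ico (α + m * W - 8 * (k : ℤ) ^ 10)
        (α + (m + 1) * W + 8 * (k : ℤ) ^ 10) then S ω j else 0 := by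
      intro m hm
      rw [← Finset.sum_filter]
      refine Finset.sum_congr ?_ fun _ _ => rfl
      ext j
      have hmM : ((m : ℤ) + 1) * W ≤ M * W := by
        have : (m : ℤ) + 1 ≤ M := by exact_mod_cast Finset.mem_range.mp hm
        exact mul_le_mul_of_nonneg_right this (by positivity)
      have hm0 : (0 : ℤ) ≤ (m : ℤ) * W := by positivity
      simp only [hT, Finset.mem_filter, Finset.mem_Ico]
      constructor
      · rintro ⟨a1, a2⟩
        exact ⟨⟨by linarith, by linarith⟩, a1, a2⟩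
      · rintro ⟨_, a⟩
        exact a
    rw [Finset.sum_congr rfl e1, Finset.sum_comm, Finset.mul_sum]
    apply Finset.sum_le_sum
    intro j _
    rw [← Finset.sum_filter, Finset.sum_const, nsmul_eq_mul]
    have := win_count α W k hk hW M j
    have hc : (((range M).filter (fun m : ℕ => j ∈ Ico (α + m * W - 8 * (k : ℤ) ^ 10)
      (α + (m + 1) * W + 8 * (k : ℤ) ^ 10))).card : ℝ) ≤ 2 := by exact_mod_cast this
    exact mul_le_mul_of_nonneg_right hc (hS.nonneg ω j)
  have h3 : ∑ m ∈ range M, Ex (X m) ≤ 2 * (C * nrm v / k) := by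
    calc ∑ m ∈ range M, Ex (X m) = Ex (fun ω => ∑ m ∈ range M, X m ω) := (Ex_sum _ _).symm
      _ ≤ Ex (fun ω => 2 * ∑ j ∈ T, S ω j) := Ex_mono h2
      _ = 2 * Ex (fun ω => ∑ j ∈ T, S ω j) := Ex_mul_left _ _
      _ ≤ 2 * (C * nrm v / k) := by
          have := hS.mean T
          linarith
  calc ∑ m ∈ range M, Pr (fun ω => x < av (B m) (X m) ω)
      ≤ ∑ m ∈ range M, Ex (X m) / x := Finset.sum_le_sum fun m _ => h1 m
    _ = (∑ m ∈ range M, Ex (X m)) / x := by rw [Finset.sum_div]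
    _ ≤ 2 * (C * nrm v / k) / x := by gcongr
    _ = 2 * C * nrm v / (k * x) := by
        rw [← mul_div_assoc, div_div, mul_assoc]

theorem nb_prob {wt : Al → ℝ} {v : V} {k : ℕ} {C : ℝ} {S : (Ix N → Al) → ℤ → ℝ}
    (hS : Reg wt v k C S) (hC : 1 ≤ C) {α β Y : ℤ} (hαβ : α ≤ β) (hY : 2 * C * (k : ℝ) ^ 10 ≤ Y)
    (hY0 : 0 < Y) (B : Finset (Ix N)) {x : ℝ} (o : Ix N → Al) (ho : av B (sB S k α β) o ≤ x) :
    PrC B (fun ω => ¬ NB Y α β (Gn wt v ω) (Gp wt v ω)) o ≤ 2 * C * x / Y := by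
  classical
  have hYr : (0 : ℝ) < Y := by exact_mod_cast hY0
  have hCpos : 0 < C := by linarith
  have key : ∀ ω, ¬ NB Y α β (Gn wt v ω) (Gp wt v ω) → (Y : ℝ) / (2 * C) ≤ sB S k α β ω := by
    intro ω hω
    unfold NB at hω
    push Not at hω
    obtain ⟨x0, h1, h2, i, j, hij, hj, h3, h4⟩ := hω
    have hb := hS.back ω x0 (x0 + Y) (by linarith) i j hij hj h3 h4
    have hmono : ∑ j ∈ Ico (x0 - 8 * (k : ℤ) ^ 10) (x0 + Y + 8 * (k : ℤ) ^ 10), S ω j ≤
        sB S k α β ω := by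
      unfold sB
      apply Finset.sum_le_sum_of_subset_of_nonneg
      · apply Finset.Ico_subset_Ico <;> linarith
      · intro j _ _
        exact hS.nonneg ω j
    rw [div_le_iff₀ (by positivity)]
    push_cast at hb
    have h5 : (Y : ℝ) ≤ C * ((k : ℝ) ^ 10 + sB S k α β ω) := by
      calc (Y : ℝ) = (x0 : ℝ) + Y - x0 := by ring
        _ ≤ _ := hb
        _ ≤ _ := by gcongr
    nlinarith
  have h0 : ∀ ω, 0 ≤ sB S k α β ω := fun ω => Finset.sum_nonneg fun j _ => hS.nonneg ω j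
  have h1 : PrC B (fun ω => ¬ NB Y α β (Gn wt v ω) (Gp wt v ω)) o ≤
      (2 * C / Y) * av B (sB S k α β) o := by
    unfold PrC Pr av
    rw [← Ex_mul_left]
    apply Ex_mono
    intro ξ
    have hk0 := h0 (mix B ξ o)
    split_ifs with h
    · have := key _ h
      rw [div_mul_eq_mul_div, le_div_iff₀ hYr, one_mul]
      rw [div_le_iff₀ (by positivity)] at this
      linarith
    · positivity
  calc PrC B (fun ω => ¬ NB Y α β (Gn wt v ω) (Gp wt v ω)) o
      ≤ (2 * C / Y) * av B (sB S k α β) o := h1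
    _ ≤ (2 * C / Y) * x := by gcongr
    _ = 2 * C * x / Y := by ring

theorem vis_av {wt : Al → ℝ} {v : V} {k : ℕ} {C : ℝ} {S : (Ix N → Al) → ℤ → ℝ}
    (hS : Reg wt v k C S) (hC : 1 ≤ C) {α β α' β' : ℤ} (h1 : α ≤ α') (h2 : α' ≤ β') (h3 : β' ≤ β)
    (B : Finset (Ix N)) {x : ℝ} (o : Ix N → Al) (ho : av B (sB S k α β) o ≤ x) :
    av B (fun ω => (vis α' β' (Gn wt v ω) (Gp wt v ω) : ℝ)) o ≤
      C * ((β' : ℝ) - α' + (k : ℝ) ^ 10 + x) := by
  have hCpos : 0 < C := by linarith
  have key : ∀ ω, (vis α' β' (Gn wt v ω) (Gp wt v ω) : ℝ) ≤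
      C * ((β' : ℝ) - α' + (k : ℝ) ^ 10) + C * sB S k α β ω := by
    intro ω
    have hv := hS.visit ω α' β' h2
    have hmono : ∑ j ∈ Ico (α' - 8 * (k : ℤ) ^ 10) (β' + 8 * (k : ℤ) ^ 10), S ω j ≤
        sB S k α β ω := by
      unfold sB
      apply Finset.sum_le_sum_of_subset_of_nonneg
      · apply Finset.Ico_subset_Ico <;> linarith
      · intro j _ _
        exact hS.nonneg ω j
    calc (vis α' β' (Gn wt v ω) (Gp wt v ω) : ℝ) ≤ _ := hv
      _ ≤ C * ((β' : ℝ) - α' + (k : ℝ) ^ 10 + sB S k α β ω) := by gcongr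
      _ = _ := by ring
  calc av B (fun ω => (vis α' β' (Gn wt v ω) (Gp wt v ω) : ℝ)) o
      ≤ av B (fun ω => C * ((β' : ℝ) - α' + (k : ℝ) ^ 10) + C * sB S k α β ω) o :=
        av_mono B key o
    _ = C * ((β' : ℝ) - α' + (k : ℝ) ^ 10) + C * av B (sB S k α β) o := by
        rw [av_add, av_const, av_mul_left]
    _ ≤ C * ((β' : ℝ) - α' + (k : ℝ) ^ 10) + C * x := by gcongr
    _ = C * ((β' : ℝ) - α' + (k : ℝ) ^ 10 + x) := by ring

open Classical in
/-- number of crossings of the line `col = L + 1/2` -/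
def r8ncr (L : ℤ) (n : ℕ) (p : ℕ → V) : ℕ := ((range n).filter (fun i => crs L (edg (p i) (p (i + 1))))).card

private theorem win_edg {x y : V} (h : adj x y) : (edg x y).1 = x ∨ (edg x y).1 = y := by
  obtain ⟨e, he⟩ := h
  obtain ⟨x1, x2⟩ := x
  obtain ⟨y1, y2⟩ := y
  obtain ⟨⟨e1, e2⟩, e3⟩ := e
  cases e3 <;> simp [joins, hd] at he <;> simp [edg] <;> omega

private theorem win_hd (e : E) : col (hd e) ≤ col e.1 + 2 := by
  obtain ⟨⟨e1, e2⟩, e3⟩ := e
  cases e3 <;> simp [col, hd] <;> linarith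

theorem sum_crs {n : ℕ} {p : ℕ → V} (hp : ∀ i < n, adj (p i) (p (i + 1))) (α β : ℤ) :
    ∑ L ∈ Ico α β, r8ncr L n p ≤ 4 * vis (α - 1) β n p := by
  classical
  have e1 : ∑ L ∈ Ico α β, r8ncr L n p =
      ∑ i ∈ range n, ((Ico α β).filter (fun L => crs L (edg (p i) (p (i + 1))))).card := by
    unfold r8ncr
    simp only [Finset.card_filter]
    rw [Finset.sum_comm]
  have h1 : ∀ i ∈ range n, ((Ico α β).filter (fun L => crs L (edg (p i) (p (i + 1))))).card ≤
      2 * ((if α - 1 ≤ col (p i) ∧ col (p i) < β then 1 else 0) +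
        (if α - 1 ≤ col (p (i + 1)) ∧ col (p (i + 1)) < β then 1 else 0)) := by
    intro i hi
    set e := edg (p i) (p (i + 1)) with he
    have hadj := hp i (Finset.mem_range.mp hi)
    have hcard : ((Ico α β).filter (fun L => crs L e)).card ≤ 2 := by
      have hsub : (Ico α β).filter (fun L => crs L e) ⊆ Ico (col e.1) (col e.1 + 2) := by
        intro L hL
        have := (Finset.mem_filter.mp hL).2
        unfold crs at this
        have h2 := win_hd e
        rw [Finset.mem_Ico]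
        constructor <;> linarith [this.1, this.2]
      calc _ ≤ (Ico (col e.1) (col e.1 + 2)).card := Finset.card_le_card hsub
        _ = 2 := by simp
    rcases ((Ico α β).filter (fun L => crs L e)).eq_empty_or_nonempty with h | ⟨L, hL⟩
    · rw [h]; simp
    · obtain ⟨hL1, hL2⟩ := Finset.mem_filter.mp hL
      rw [Finset.mem_Ico] at hL1
      unfold crs at hL2
      have h2 := win_hd e
      have h3 : α - 1 ≤ col e.1 ∧ col e.1 < β := by constructor <;> linarith [hL1.1, hL1.2, hL2.1, hL2.2]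
      rcases win_edg hadj with h4 | h4
      · rw [← he] at h4
        rw [h4] at h3
        rw [if_pos h3]
        split_ifs <;> omega
      · rw [← he] at h4
        rw [h4] at h3
        rw [if_pos h3]
        split_ifs <;> omega
  rw [e1]
  refine (Finset.sum_le_sum h1).trans ?_
  rw [← Finset.mul_sum, Finset.sum_add_distrib, ← Finset.card_filter, ← Finset.card_filter]
  have h2 : ((range n).filter (fun i => α - 1 ≤ col (p i) ∧ col (p i) < β)).card ≤
      vis (α - 1) β n p := by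
    unfold vis
    apply Finset.card_le_card
    apply Finset.filter_subset_filter
    intro i hi
    rw [Finset.mem_range] at hi ⊢
    omega
  have h3 : ((range n).filter (fun i => α - 1 ≤ col (p (i + 1)) ∧ col (p (i + 1)) < β)).card ≤
      vis (α - 1) β n p := by
    unfold vis
    apply Finset.card_le_card_of_injOn (fun i => i + 1)
    · intro i hi
      simp only [Finset.coe_filter, Finset.mem_range, Set.mem_ofPred_eq] at hi ⊢
      exact ⟨by omega, hi.2⟩
    · intro i _ j _ h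
      exact Nat.succ_injective h
  omega

end Pool.Agent.FPZ
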