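import Pool.Agent.FPZ.R1Blk
import Pool.Agent.FPZ.R8Win
import Pool.Agent.FPZ.PrL

/-!
Module R1Bad (section 1): the sum over the windows of the probabilities that the window is not good.
-/

set_option autoImplicit false

noncomputable section

namespace Pool.Agent.FPZ

open Finset Pool.FPP
open Pool.Agent.FPZ.PL (Pr_mono Pr_markov PrC_nonneg Ex_PrC Pr_or_of_le)

variable {N : ℕ} [NeZero N] {Al : Type} [Fintype Al] [Nonempty Al]

/-- Markov inequality for conditional probabilities -/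
theorem r1_PrC_markov {ι α : Type} [Fintype ι] [DecidableEq ι] [Fintype α] [Nonempty α]
    (B : Finset ι) (s : (ι → α) → Prop) {ε : ℝ} (hε : 0 < ε) :
    Pr (fun o => ε < PrC B s o) ≤ Pr s / ε := by
  classical
  have h1 : Pr (fun o => ε < PrC B s o) ≤ Pr (fun o => ε ≤ PrC B s o) :=
    Pr_mono fun o h => le_of_lt h
  have h2 := Pr_markov (f := fun o => PrC B s o) hε (fun o => PrC_nonneg _ _ _)
  rw [Ex_PrC B s] at h2
  exact h1.trans h2

/-- a window with small slack and small probability of non generic environments is good -/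
theorem r1_good {wt : Al → ℝ} {v : V} {k : ℕ} {C : ℝ} {S : (Ix N → Al) → ℤ → ℝ}
    (hS : Reg wt v k C S) (hC : 1 ≤ C) {a b : ℝ} (ha : 0 < a) (hwt : ∀ l, a ≤ wt l ∧ wt l ≤ b)
    {Q : ℤ} (hQ : 100 * Q < (N : ℤ))
    (hbox : ∀ ω : Ix N → Al, ∀ i ≤ Gn wt v ω, inBox Q (Gp wt v ω i))
    {x₀ : ℤ} {L R : ℕ} (hx : 0 < x₀) (hv : x₀ + R * L < col v) (hL : 40 ≤ L) (hodd : Odd L)
    {ε₀ : ℝ} (hε : 0 < ε₀) (hk : 16 * C * (k : ℝ) ^ 10 ≤ L) (hR : 1 ≤ R) {o : Ix N → Al}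
    (h1 : av (blkI N x₀ (x₀ + R * L)) (sB S k x₀ (x₀ + R * L)) o ≤ ε₀ / (16 * C) * L)
    (h2 : PrC (blkI N x₀ (x₀ + R * L)) (fun ω => ¬ Gen (20 * Q) (env wt ω)) o ≤ ε₀) :
    GoodWin wt a b v Q x₀ L R ε₀ (C * (R + 1 + ε₀ / (16 * C))) o := by
  have hL0 : (0 : ℝ) < L := by
    have : 0 < L := by omega
    exact_mod_cast this
  have hRr : (1 : ℝ) ≤ R := by exact_mod_cast hR
  have hC0 : 0 < C := by linarith
  have hL4 : (L : ℝ) / 8 ≤ ((L : ℤ) / 4 : ℤ) := by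
    have h3 : (L : ℤ) ≤ 8 * ((L : ℤ) / 4) := by omega
    have h4 : ((L : ℤ) : ℝ) ≤ ((8 * ((L : ℤ) / 4) : ℤ) : ℝ) := by exact_mod_cast h3
    push_cast at h4
    rw [div_le_iff₀ (by norm_num)]
    linarith
  have hL4' : (0 : ℝ) < ((L : ℤ) / 4 : ℤ) := lt_of_lt_of_le (by positivity) hL4
  have hle : x₀ ≤ x₀ + (R : ℤ) * L := by
    have : (0 : ℤ) ≤ (R : ℤ) * L := by positivity
    omega
  refine ⟨ha, hwt, hQ, hbox, hx, hv, by exact_mod_cast hL, by exact_mod_cast hodd, h2, ?_, ?_, ?_⟩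
  · have h5 := nb_prob hS hC hle (Y := (L : ℤ) / 4) ?_ (by omega) (blkI N x₀ (x₀ + R * L)) o h1
    · refine h5.trans ?_
      rw [div_le_iff₀ hL4']
      calc 2 * C * (ε₀ / (16 * C) * L) = ε₀ * (L / 8) := by field_simp; norm_num
        _ ≤ ε₀ * (((L : ℤ) / 4 : ℤ) : ℝ) := mul_le_mul_of_nonneg_left hL4 hε.le
    · calc 2 * C * (k : ℝ) ^ 10 ≤ (L : ℝ) / 8 := by linarith
        _ ≤ _ := hL4
  · have : 0 ≤ ε₀ / (16 * C) := by positivity
    nlinarith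
  · have h6 := vis_av hS hC (le_refl x₀) hle (le_refl (x₀ + (R : ℤ) * L))
      (blkI N x₀ (x₀ + R * L)) o h1
    refine h6.trans ?_
    have h7 : (k : ℝ) ^ 10 ≤ L := by
      have : (k : ℝ) ^ 10 ≤ 16 * C * (k : ℝ) ^ 10 := by
        have : (0 : ℝ) ≤ (k : ℝ) ^ 10 := by positivity
        nlinarith
      linarith
    push_cast
    calc C * (((x₀ : ℝ) + R * L) - x₀ + (k : ℝ) ^ 10 + ε₀ / (16 * C) * L)
        = C * (R * L + (k : ℝ) ^ 10 + ε₀ / (16 * C) * L) := by ring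
      _ ≤ C * (R * L + L + ε₀ / (16 * C) * L) := by
          apply mul_le_mul_of_nonneg_left _ hC0.le
          linarith
      _ = _ := by ring

/-- sum over the windows of the probabilities that they are not good -/
theorem r1_bad {wt : Al → ℝ} {v : V} {k : ℕ} {C : ℝ} {S : (Ix N → Al) → ℤ → ℝ}
    (hS : Reg wt v k C S) (hC : 1 ≤ C) (hk1 : 1 ≤ k) {a b : ℝ} (ha : 0 < a)
    (hwt : ∀ l, a ≤ wt l ∧ wt l ≤ b)
    {Q : ℤ} (hQ : 100 * Q < (N : ℤ))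
    (hbox : ∀ ω : Ix N → Al, ∀ i ≤ Gn wt v ω, inBox Q (Gp wt v ω i))
    {c₀ : ℤ} {L R M : ℕ} (hx : 0 < c₀) (hv : c₀ + M * (L * R) < col v) (hL : 40 ≤ L)
    (hodd : Odd L) {ε₀ : ℝ} (hε : 0 < ε₀) (hk : 16 * C * (k : ℝ) ^ 10 ≤ L) (hR : 1 ≤ R)
    {δ : ℝ} (hδ : Pr (fun ω : Ix N → Al => ¬ Gen (20 * Q) (env wt ω)) ≤ δ) :
    ∑ m ∈ range M, Pr (fun o : Ix N → Al =>
      ¬ GoodWin wt a b v Q (c₀ + (m : ℤ) * (L * R)) L R ε₀ (C * (R + 1 + ε₀ / (16 * C))) o) ≤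
      2 * C * nrm v / (k * (ε₀ / (16 * C) * L)) + M * (δ / ε₀) := by
  have hC0 : 0 < C := by linarith
  have hL0 : (0 : ℝ) < L := by
    have : 0 < L := by omega
    exact_mod_cast this
  have hx0 : 0 < ε₀ / (16 * C) * L := by positivity
  set B : ℕ → Finset (Ix N) := fun m => blkI N (c₀ + (m : ℤ) * (L * R))
    (c₀ + (m : ℤ) * (L * R) + R * L) with hB
  have hW : 16 * k ^ 10 ≤ L * R := by
    have h1 : ((16 * k ^ 10 : ℕ) : ℝ) ≤ ((L * R : ℕ) : ℝ) := by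
      push_cast
      have h2 : (16 : ℝ) * (k : ℝ) ^ 10 ≤ 16 * C * (k : ℝ) ^ 10 := by
        have : (0 : ℝ) ≤ (k : ℝ) ^ 10 := by positivity
        nlinarith
      have h3 : (1 : ℝ) ≤ R := by exact_mod_cast hR
      nlinarith
    exact_mod_cast h1
  have hbw := bad_windows hS hk1 c₀ (L * R) hW M B hx0
  have hstep : ∀ m ∈ range M, Pr (fun o : Ix N → Al =>
      ¬ GoodWin wt a b v Q (c₀ + (m : ℤ) * (L * R)) L R ε₀ (C * (R + 1 + ε₀ / (16 * C))) o) ≤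
      Pr (fun ω => ε₀ / (16 * C) * L <
        av (B m) (sB S k (c₀ + m * ((L * R : ℕ) : ℤ)) (c₀ + (m + 1) * ((L * R : ℕ) : ℤ))) ω) +
      δ / ε₀ := by
    intro m hm
    have hm' : m < M := mem_range.mp hm
    have hmk := r1_PrC_markov (B m) (fun ω => ¬ Gen (20 * Q) (env wt ω)) hε
    have hmk' : Pr (fun o => ε₀ < PrC (B m) (fun ω => ¬ Gen (20 * Q) (env wt ω)) o) ≤ δ / ε₀ :=
      hmk.trans (div_le_div_of_nonneg_right hδ hε.le)
    refine (Pr_mono (t := fun o => (ε₀ / (16 * C) * L <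
        av (B m) (sB S k (c₀ + m * ((L * R : ℕ) : ℤ)) (c₀ + (m + 1) * ((L * R : ℕ) : ℤ))) o) ∨
        ε₀ < PrC (B m) (fun ω => ¬ Gen (20 * Q) (env wt ω)) o) ?_).trans
      (Pr_or_of_le le_rfl hmk')
    intro o ho
    by_contra hcon
    push Not at hcon
    apply ho
    have e1 : c₀ + (m : ℤ) * ((L * R : ℕ) : ℤ) = c₀ + (m : ℤ) * (L * R) := by push_cast; ring
    have e2 : c₀ + ((m : ℤ) + 1) * ((L * R : ℕ) : ℤ) = c₀ + (m : ℤ) * (L * R) + R * L := by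
      push_cast; ring
    rw [e1, e2] at hcon
    refine r1_good hS hC ha hwt hQ hbox ?_ ?_ hL hodd hε hk hR hcon.1 hcon.2
    · have : (0 : ℤ) ≤ (m : ℤ) * (L * R) := by positivity
      omega
    · have h1 : ((m : ℤ) + 1) * (L * R) ≤ (M : ℤ) * (L * R) := by
        apply mul_le_mul_of_nonneg_right _ (by positivity)
        exact_mod_cast hm'
      have h2 : c₀ + (m : ℤ) * (L * R) + R * L = c₀ + ((m : ℤ) + 1) * (L * R) := by ring
      rw [h2]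
      omega
  refine (Finset.sum_le_sum hstep).trans ?_
  rw [Finset.sum_add_distrib, Finset.sum_const, card_range, nsmul_eq_mul]
  gcongr

end Pool.Agent.FPZ
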