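import Pool.Agent.FPZ.W2Defs

/-!
# Window claim (W): statement

`GoodWin`: the hypotheses on a window (fine width `L`, `R` fine blocks, left column `x₀`, outside `o`).
-/

set_option autoImplicit false

noncomputable section

namespace Pool.Agent.FPZ

open Finset Pool.FPP

variable {N : ℕ} [NeZero N] {Al : Type} [Fintype Al] [Nonempty Al]

/-- sum over the `R` fine blocks of the conditional `p`-th moments of `F - E_m F`, given the outside `o`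
of the window -/
def aW (wt : Al → ℝ) (v : V) (x₀ L : ℤ) (R : ℕ) (p : ℝ) (o : Ix N → Al) : ℝ :=
  ∑ m ∈ range R, av (blkI N x₀ (x₀ + R * L))
    (fun ω => |Fv wt v ω - av (blkI N (x₀ + m * L) (x₀ + (m + 1) * L)) (Fv wt v) ω| ^ p) o

/-- conditional `p`-th moment of `F - E_B F`, given the outside `o` of the window -/
def bW (wt : Al → ℝ) (v : V) (x₀ L : ℤ) (R : ℕ) (p : ℝ) (o : Ix N → Al) : ℝ :=
  av (blkI N x₀ (x₀ + R * L))
    (fun ω => |Fv wt v ω - av (blkI N x₀ (x₀ + R * L)) (Fv wt v) ω| ^ p) o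

/-- hypotheses on a window -/
structure GoodWin (wt : Al → ℝ) (a b : ℝ) (v : V) (Q x₀ L : ℤ) (R : ℕ) (ε₀ κ : ℝ)
    (o : Ix N → Al) : Prop where
  ha : 0 < a
  hwt : ∀ l, a ≤ wt l ∧ wt l ≤ b
  hQ : 100 * Q < (N : ℤ)
  hbox : ∀ ω : Ix N → Al, ∀ i ≤ Gn wt v ω, inBox Q (Gp wt v ω i)
  hx : 0 < x₀
  hv : x₀ + R * L < col v
  hL : 40 ≤ L
  hodd : Odd L
  hgen : PrC (blkI N x₀ (x₀ + R * L)) (fun ω => ¬ Gen (20 * Q) (env wt ω)) o ≤ ε₀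
  hnb : PrC (blkI N x₀ (x₀ + R * L))
    (fun ω => ¬ NB (L / 4) x₀ (x₀ + R * L) (Gn wt v ω) (Gp wt v ω)) o ≤ ε₀
  hk : 1 ≤ κ
  hvis : av (blkI N x₀ (x₀ + R * L))
    (fun ω => (vis x₀ (x₀ + R * L) (Gn wt v ω) (Gp wt v ω) : ℝ)) o ≤ κ * L

/-- statement of the window claim: in a good window with enough energy the potential drops -/
def WindowClaim : Prop :=
  ∃ (R : ℕ) (t₀ C₀ ε₀ : ℝ), 2 ≤ R ∧ Odd R ∧ 0 < t₀ ∧ 0 < C₀ ∧ 0 < ε₀ ∧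
    ∀ t : ℝ, 0 < t → t ≤ t₀ →
    ∀ (N : ℕ) [NeZero N] (Al : Type) [Fintype Al] [Nonempty Al] (wt : Al → ℝ) (a b : ℝ) (v : V)
      (Q x₀ L : ℤ) (κ : ℝ) (o : Ix N → Al), GoodWin wt a b v Q x₀ L R ε₀ κ o →
      C₀ * (b * κ) ^ (2 + 2 * t) ≤ aW wt v x₀ L R (2 + 2 * t) o →
      bW wt v x₀ L R (2 + 2 * t) o ≤ (1 - t) * (R : ℝ) ^ t * aW wt v x₀ L R (2 + 2 * t) o

end Pool.Agent.FPZ
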