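import Pool.Agent.FPZ.R1Stp
import Pool.Agent.FPZ.WClaim

/-!
Module R1Blk (section 1): blocks `blkI` of the torus: unions, coverings, and `aW`, `bW` in terms of `enC`.
-/

set_option autoImplicit false

noncomputable section

namespace Pool.Agent.FPZ

open Finset Pool.FPP

variable {N : ℕ} [NeZero N]

theorem r1_mem_blkI {α β : ℤ} {i : Ix N} :
    i ∈ blkI N α β ↔ ∃ k : ℤ, α ≤ k ∧ k < β ∧ colI i = (k : ZMod N) := by
  classical
  unfold blkI
  rw [mem_filter]
  exact ⟨fun h => h.2, fun h => ⟨mem_univ _, h⟩⟩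

/-- two adjacent blocks -/
theorem r1_blkI_union {α β γ : ℤ} (h1 : α ≤ β) (h2 : β ≤ γ) :
    blkI N α β ∪ blkI N β γ = blkI N α γ := by
  ext i
  rw [mem_union, r1_mem_blkI, r1_mem_blkI, r1_mem_blkI]
  constructor
  · rintro (⟨k, hk1, hk2, hk3⟩ | ⟨k, hk1, hk2, hk3⟩)
    · exact ⟨k, hk1, by omega, hk3⟩
    · exact ⟨k, by omega, hk2, hk3⟩
  · rintro ⟨k, hk1, hk2, hk3⟩
    rcases lt_or_ge k β with h | h
    · exact Or.inl ⟨k, hk1, h, hk3⟩
    · exact Or.inr ⟨k, h, hk2, hk3⟩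

/-- a block of `N` columns is everything -/
theorem r1_blkI_univ {α β : ℤ} (h : α + N ≤ β) : blkI N α β = univ := by
  ext i
  rw [r1_mem_blkI]
  refine ⟨fun _ => mem_univ _, fun _ => ?_⟩
  have hN : (0 : ℤ) < N := by
    have := Nat.pos_of_ne_zero (NeZero.ne N)
    exact_mod_cast this
  refine ⟨α + ((colI i).val - α) % N, ?_, ?_, ?_⟩
  · have := Int.emod_nonneg ((colI i).val - α) hN.ne'
    omega
  · have := Int.emod_lt_of_pos ((colI i).val - α : ℤ) hN
    omega
  · have h1 : (((colI i).val : ℤ) - α) % N = ((colI i).val : ℤ) - α -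
        N * ((((colI i).val : ℤ) - α) / N) := Int.emod_def _ _
    rw [h1]
    push_cast
    rw [ZMod.natCast_self]
    simp

/-- block number `m` of width `L`, starting at the column `c₀` -/
def bk (N : ℕ) [NeZero N] (c₀ : ℤ) (L m : ℕ) : Finset (Ix N) :=
  blkI N (c₀ + m * L) (c₀ + (m + 1) * L)

/-- the first `R` blocks -/
theorem r1_bk_range (c₀ : ℤ) (L R : ℕ) :
    (range R).biUnion (fun m => bk N c₀ L m) = blkI N c₀ (c₀ + R * L) := by
  induction R with
  | zero =>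
    ext i
    rw [r1_mem_blkI]
    simp only [range_zero, biUnion_empty, notMem_empty, false_iff]
    rintro ⟨k, h1, h2, -⟩
    simp at h2
    omega
  | succ R ih =>
    rw [range_add_one, biUnion_insert, ih, union_comm]
    unfold bk
    have e : c₀ + ((R + 1 : ℕ) : ℤ) * L = c₀ + ((R : ℤ) + 1) * L := by push_cast; ring
    rw [e]
    apply r1_blkI_union
    · have : (0 : ℤ) ≤ (R : ℤ) * L := by positivity
      omega
    · have : (0 : ℤ) ≤ (L : ℤ) := by positivity
      nlinarith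

/-- the `R` blocks of the window -/
theorem r1_bk_window (c₀ : ℤ) (L R m : ℕ) :
    U (fun i : Fin R => bk N c₀ L (m * R + i)) univ = bk N c₀ (L * R) m := by
  have h := r1_bk_range (N := N) (c₀ + (m : ℤ) * (L * R)) L R
  have e1 : bk N c₀ (L * R) m = blkI N (c₀ + (m : ℤ) * (L * R)) (c₀ + (m : ℤ) * (L * R) + R * L) := by
    unfold bk
    congr 1 <;> push_cast <;> ring
  rw [e1, ← h]
  unfold U
  ext i
  simp only [mem_biUnion, mem_univ, true_and, mem_range]
  constructor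
  · rintro ⟨j, hj⟩
    refine ⟨j, j.2, ?_⟩
    convert hj using 1
    unfold bk
    congr 1 <;> push_cast <;> ring
  · rintro ⟨j, hj1, hj2⟩
    refine ⟨⟨j, hj1⟩, ?_⟩
    convert hj2 using 1
    unfold bk
    congr 1 <;> push_cast <;> ring

variable {Al : Type} [Fintype Al]

theorem r1_aW (wt : Al → ℝ) (v : V) (c₀ : ℤ) (L R m : ℕ) (p : ℝ) (o : Ix N → Al) :
    aW wt v (c₀ + (m : ℤ) * (L * R)) L R p o =
      ∑ i : Fin R, enC p (Fv wt v) (bk N c₀ (L * R) m) (bk N c₀ L (m * R + i)) o := by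
  have e1 : bk N c₀ (L * R) m = blkI N (c₀ + (m : ℤ) * (L * R)) (c₀ + (m : ℤ) * (L * R) + R * L) := by
    unfold bk
    congr 1 <;> push_cast <;> ring
  have e2 : ∀ i : ℕ, bk N c₀ L (m * R + i) =
      blkI N (c₀ + (m : ℤ) * (L * R) + i * L) (c₀ + (m : ℤ) * (L * R) + (i + 1) * L) := by
    intro i
    unfold bk
    congr 1 <;> push_cast <;> ring
  unfold aW
  rw [Finset.sum_range]
  refine Finset.sum_congr rfl fun i _ => ?_
  unfold enC
  rw [e1, e2]

theorem r1_bW (wt : Al → ℝ) (v : V) (c₀ : ℤ) (L R m : ℕ) (p : ℝ) (o : Ix N → Al) :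
    bW wt v (c₀ + (m : ℤ) * (L * R)) L R p o =
      enC p (Fv wt v) (bk N c₀ (L * R) m) (bk N c₀ (L * R) m) o := by
  have e1 : bk N c₀ (L * R) m = blkI N (c₀ + (m : ℤ) * (L * R)) (c₀ + (m : ℤ) * (L * R) + R * L) := by
    unfold bk
    congr 1 <;> push_cast <;> ring
  unfold bW enC
  rw [e1]

end Pool.Agent.FPZ
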