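import Pool.Agent.FPZ.R1Blk
import Pool.Agent.FPZ.PA15b

/-!
Module R1End (section 1): Burkholder for the windows (input `hK` of `r1_step`) and for the whole torus (end
of the recursion: the window blocks are completed by four blocks).
-/

set_option autoImplicit false

noncomputable section

namespace Pool.Agent.FPZ

open Finset Pool.FPP

variable {N : ℕ} [NeZero N] {Al : Type} [Fintype Al] [Nonempty Al]

/-- Burkholder for a window -/
theorem r1_K (F : (Ix N → Al) → ℝ) (c₀ : ℤ) (L R m : ℕ) {t : ℝ} (ht : 0 < t) (ht1 : t ≤ 1 / 2)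
    (o : Ix N → Al) :
    enC (2 + 2 * t) F (bk N c₀ (L * R) m) (bk N c₀ (L * R) m) o ≤
      Real.exp (12 * t) * (R : ℝ) ^ t *
        ∑ i : Fin R, enC (2 + 2 * t) F (bk N c₀ (L * R) m) (bk N c₀ L (m * R + i)) o := by
  have h := Pool.FPA.burk_window (fun i : Fin R => bk N c₀ L (m * R + i)) F o ht ht1
  rw [Pool.FPA.bS_frz, Pool.FPA.aS_frz, r1_bk_window] at h
  unfold enC
  rw [mul_assoc]
  exact h

/-- the last step: from the blocks to the variance -/
theorem r1_end (F : (Ix N → Al) → ℝ) {t : ℝ} (ht : 0 < t) (ht1 : t ≤ 1 / 2) (c₀ : ℤ) (L M : ℕ)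
    {x0 x1 x2 x3 : ℤ} (h0 : x0 ≤ x1) (h1 : x1 ≤ c₀) (h2 : c₀ + M * L ≤ x2) (h3 : x2 ≤ x3)
    (h4 : x0 + N ≤ x3) :
    (Ex (fun ω => (F ω - Ex F) ^ 2)) ^ (1 + t) ≤
      Real.exp (12 * t) * (((M + 4 : ℕ) : ℝ) ^ t * (Pot (2 + 2 * t) F (bk N c₀ L) M +
        (Ex (fun ω => |F ω - av (blkI N x0 x1) F ω| ^ (2 + 2 * t)) +
          Ex (fun ω => |F ω - av (blkI N x1 c₀) F ω| ^ (2 + 2 * t)) +
          Ex (fun ω => |F ω - av (blkI N (c₀ + M * L) x2) F ω| ^ (2 + 2 * t)) +
          Ex (fun ω => |F ω - av (blkI N x2 x3) F ω| ^ (2 + 2 * t))))) := by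
  set bf : ℕ → Finset (Ix N) := fun i => if i < M then bk N c₀ L i else
    if i = M then blkI N x0 x1 else if i = M + 1 then blkI N x1 c₀ else
    if i = M + 2 then blkI N (c₀ + M * L) x2 else blkI N x2 x3 with hbf
  have hc : c₀ ≤ c₀ + (M : ℤ) * L := by
    have : (0 : ℤ) ≤ (M : ℤ) * L := by positivity
    omega
  have hU : U (fun i : Fin (M + 4) => bf i) univ = univ := by
    have hcov : blkI N x0 x3 = univ := r1_blkI_univ h4
    rw [← hcov, ← r1_blkI_union h0 (show x1 ≤ x3 by omega),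
      ← r1_blkI_union h1 (show c₀ ≤ x3 by omega), ← r1_blkI_union hc (show c₀ + M * L ≤ x3 by omega),
      ← r1_blkI_union h2 h3, ← r1_bk_range c₀ L M]
    ext i
    unfold U
    simp only [mem_biUnion, mem_univ, true_and, mem_union, mem_range]
    constructor
    · rintro ⟨j, hj⟩
      have hj4 := j.2
      rw [hbf] at hj
      simp only at hj
      split_ifs at hj with g1 g2 g3 g4
      · exact Or.inr (Or.inr (Or.inl ⟨j, g1, hj⟩))
      · exact Or.inl hj
      · exact Or.inr (Or.inl hj)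
      · exact Or.inr (Or.inr (Or.inr (Or.inl hj)))
      · exact Or.inr (Or.inr (Or.inr (Or.inr hj)))
    · rintro (h | h | ⟨j, hj, h⟩ | h | h)
      · refine ⟨⟨M, by omega⟩, ?_⟩
        simpa [hbf] using h
      · refine ⟨⟨M + 1, by omega⟩, ?_⟩
        simpa [hbf] using h
      · refine ⟨⟨j, by omega⟩, ?_⟩
        simpa [hbf, hj] using h
      · refine ⟨⟨M + 2, by omega⟩, ?_⟩
        simpa [hbf] using h
      · refine ⟨⟨M + 3, by omega⟩, ?_⟩
        simpa [hbf] using h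
  have hdep : Pool.FPA.Dep (U (fun i : Fin (M + 4) => bf i) univ) F := by
    intro ω ω' hω
    rw [hU] at hω
    have : ω = ω' := funext fun i => hω i (mem_univ i)
    rw [this]
  have hb := Pool.FPA.burk_all (fun i : Fin (M + 4) => bf i) hdep ht ht1
  unfold Pool.FPA.bS Pool.FPA.aS at hb
  have hj : (Ex (fun ω => (F ω - Ex F) ^ 2)) ^ (1 + t) ≤
      Ex (fun ω => |F ω - Ex F| ^ (2 + 2 * t)) := by
    refine (r1_Ex_rpow_le (g := fun ω => (F ω - Ex F) ^ 2) (fun ω => sq_nonneg _)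
      (by linarith)).trans_eq ?_
    congr 1
    funext ω
    rw [← sq_abs (F ω - Ex F), ← Real.rpow_natCast, ← Real.rpow_mul (abs_nonneg _)]
    congr 1
    push_cast
    ring
  refine hj.trans (hb.trans_eq ?_)
  congr 2
  have hs : ∑ m : Fin (M + 4), Ex (fun ω => |F ω - av (bf m) F ω| ^ (2 + 2 * t)) =
      ∑ m ∈ range (M + 4), Ex (fun ω => |F ω - av (bf m) F ω| ^ (2 + 2 * t)) :=
    (Finset.sum_range (fun m => Ex (fun ω => |F ω - av (bf m) F ω| ^ (2 + 2 * t)))).symm
  rw [hs, Finset.sum_range_succ, Finset.sum_range_succ, Finset.sum_range_succ,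
    Finset.sum_range_succ]
  have e0 : ∑ m ∈ range M, Ex (fun ω => |F ω - av (bf m) F ω| ^ (2 + 2 * t)) =
      Pot (2 + 2 * t) F (bk N c₀ L) M := by
    unfold Pot
    apply Finset.sum_congr rfl
    intro m hm
    have : bf m = bk N c₀ L m := by
      rw [hbf]; simp only; rw [if_pos (mem_range.mp hm)]
    rw [this]
  have e1 : bf M = blkI N x0 x1 := by simp [hbf]
  have e2 : bf (M + 1) = blkI N x1 c₀ := by simp [hbf]
  have e3 : bf (M + 2) = blkI N (c₀ + M * L) x2 := by simp [hbf]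
  have e4 : bf (M + 3) = blkI N x2 x3 := by simp [hbf]
  rw [e0, e1, e2, e3, e4]
  ring

end Pool.Agent.FPZ
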