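import Pool.Agent.FPZ.Defs
import Pool.Agent.FPP.AV

/-!
Module R1Hol (section 1): Hölder and Jensen inequalities for the averages `Ex`, `av`, in the form used by the
potential recursion.
-/

set_option autoImplicit false

noncomputable section

namespace Pool.Agent.FPZ

open Finset Pool.FPP

section

variable {Ω : Type} [Fintype Ω] [Nonempty Ω]

theorem r1_card_pos : (0 : ℝ) < (Fintype.card Ω : ℝ) := by
  exact_mod_cast Fintype.card_pos

/-- Jensen for powers `s ≥ 1` -/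
theorem r1_Ex_rpow_le {g : Ω → ℝ} (hg : ∀ x, 0 ≤ g x) {s : ℝ} (hs : 1 ≤ s) :
    (Ex g) ^ s ≤ Ex (fun x => g x ^ s) := by
  have hc := r1_card_pos (Ω := Ω)
  have h := Real.rpow_sum_le_const_mul_sum_rpow (s := (univ : Finset Ω)) (f := g) hs
  have h0 : ∀ x, |g x| = g x := fun x => abs_of_nonneg (hg x)
  simp only [h0, Finset.card_univ] at h
  unfold Ex
  rw [Real.div_rpow (Finset.sum_nonneg fun i _ => hg i) hc.le, div_le_div_iff₀ (by positivity) hc]
  calc (∑ x, g x) ^ s * (Fintype.card Ω : ℝ)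
      ≤ ((Fintype.card Ω : ℝ) ^ (s - 1) * ∑ x, g x ^ s) * (Fintype.card Ω : ℝ) := by gcongr
    _ = (∑ x, g x ^ s) * ((Fintype.card Ω : ℝ) ^ (s - 1) * (Fintype.card Ω : ℝ)) := by ring
    _ = (∑ x, g x ^ s) * (Fintype.card Ω : ℝ) ^ s := by
        rw [← Real.rpow_add_one hc.ne']; congr 2; ring

/-- Hölder for an average against an indicator -/
theorem r1_Ex_ind_le {f : Ω → ℝ} (hf : ∀ x, 0 ≤ f x) (P : Ω → Prop) [DecidablePred P] {s : ℝ}
    (hs : 1 < s) :
    Ex (fun x => if P x then f x else 0) ≤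
      (Ex (fun x => f x ^ s)) ^ (1 / s) * (Pr P) ^ (1 - 1 / s) := by
  classical
  have hc := r1_card_pos (Ω := Ω)
  have hs0 : 0 < s := by linarith
  set s' : ℝ := s / (s - 1) with hs'
  have hpq : s.HolderConjugate s' := Real.HolderConjugate.conjExponent hs
  have h := Real.inner_le_Lp_mul_Lq_of_nonneg (univ : Finset Ω) hpq (f := f)
    (g := fun x => if P x then (1 : ℝ) else 0) (fun i _ => hf i)
    (fun i _ => by split_ifs <;> norm_num)
  have e1 : ∀ x, f x * (if P x then (1 : ℝ) else 0) = if P x then f x else 0 := by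
    intro x; split_ifs <;> simp
  have e2 : ∀ x, (if P x then (1 : ℝ) else 0) ^ s' = if P x then (1 : ℝ) else 0 := by
    intro x
    split_ifs
    · simp
    · rw [Real.zero_rpow hpq.symm.ne_zero]
  simp only [e1, e2] at h
  have hs'1 : 1 / s' = 1 - 1 / s := by
    have := hpq.inv_add_inv_eq_one
    rw [one_div, one_div]; linarith
  rw [hs'1] at h
  have hPr : Pr P = (∑ x, if P x then (1 : ℝ) else 0) / (Fintype.card Ω : ℝ) := by
    unfold Pr Ex
    congr 1
    apply Finset.sum_congr rfl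
    intro x _
    by_cases hx : P x <;> simp [hx]
  rw [hPr]
  unfold Ex
  have hA : 0 ≤ ∑ x, f x ^ s := Finset.sum_nonneg fun i _ => Real.rpow_nonneg (hf i) _
  have hB : 0 ≤ ∑ x, (if P x then (1 : ℝ) else 0) :=
    Finset.sum_nonneg fun i _ => by split_ifs <;> norm_num
  rw [Real.div_rpow hA hc.le, Real.div_rpow hB hc.le, div_mul_div_comm, ← Real.rpow_add hc]
  have : 1 / s + (1 - 1 / s) = 1 := by ring
  rw [this, Real.rpow_one]
  gcongr

end

section

/-- Hölder for sums of products of powers -/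
theorem r1_sum_holder {κ : Type} (S : Finset κ) {u v : κ → ℝ} (hu : ∀ i ∈ S, 0 ≤ u i)
    (hv : ∀ i ∈ S, 0 ≤ v i) {s : ℝ} (hs : 1 < s) :
    ∑ i ∈ S, (u i) ^ (1 / s) * (v i) ^ (1 - 1 / s) ≤
      (∑ i ∈ S, u i) ^ (1 / s) * (∑ i ∈ S, v i) ^ (1 - 1 / s) := by
  have hs0 : 0 < s := by linarith
  set s' : ℝ := s / (s - 1) with hs'
  have hpq : s.HolderConjugate s' := Real.HolderConjugate.conjExponent hs
  have hs'0 : 0 < s' := hpq.symm.pos
  have hs'1 : 1 - 1 / s = 1 / s' := by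
    have := hpq.inv_add_inv_eq_one
    rw [one_div, one_div]; linarith
  have h := Real.inner_le_Lp_mul_Lq_of_nonneg S hpq (f := fun i => (u i) ^ (1 / s))
    (g := fun i => (v i) ^ (1 - 1 / s)) (fun i hi => Real.rpow_nonneg (hu i hi) _)
    (fun i hi => Real.rpow_nonneg (hv i hi) _)
  refine h.trans_eq ?_
  congr 1
  · congr 1
    apply Finset.sum_congr rfl
    intro i hi
    rw [← Real.rpow_mul (hu i hi), one_div, inv_mul_cancel₀ hs0.ne', Real.rpow_one]
  · rw [hs'1]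
    congr 1
    apply Finset.sum_congr rfl
    intro i hi
    rw [← Real.rpow_mul (hv i hi), one_div, inv_mul_cancel₀ hs'0.ne', Real.rpow_one]

/-- `(∑ x_i)^s ≤ (#S)^(s-1) ∑ x_i^s` for nonnegative terms -/
theorem r1_sum_rpow_le {κ : Type} (S : Finset κ) {x : κ → ℝ} (hx : ∀ i ∈ S, 0 ≤ x i) {s : ℝ}
    (hs : 1 ≤ s) :
    (∑ i ∈ S, x i) ^ s ≤ (S.card : ℝ) ^ (s - 1) * ∑ i ∈ S, x i ^ s := by
  have h := Real.rpow_sum_le_const_mul_sum_rpow (s := S) (f := x) hs
  have e1 : ∑ i ∈ S, |x i| = ∑ i ∈ S, x i :=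
    Finset.sum_congr rfl fun i hi => abs_of_nonneg (hx i hi)
  have e2 : ∑ i ∈ S, |x i| ^ s = ∑ i ∈ S, x i ^ s :=
    Finset.sum_congr rfl fun i hi => by rw [abs_of_nonneg (hx i hi)]
  rwa [e1, e2] at h

/-- `∑ x_i ≤ (#S)^(1-1/s) (∑ x_i^s)^(1/s)` for nonnegative terms -/
theorem r1_sum_le_rpow {κ : Type} (S : Finset κ) {x : κ → ℝ} (hx : ∀ i ∈ S, 0 ≤ x i) {s : ℝ}
    (hs : 1 < s) :
    ∑ i ∈ S, x i ≤ (∑ i ∈ S, x i ^ s) ^ (1 / s) * (S.card : ℝ) ^ (1 - 1 / s) := by
  have hs0 : 0 < s := by linarith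
  have h := r1_sum_holder S (u := fun i => x i ^ s) (v := fun _ => (1 : ℝ))
    (fun i hi => Real.rpow_nonneg (hx i hi) _) (fun _ _ => zero_le_one) hs
  simp only [Real.one_rpow, mul_one, Finset.sum_const, nsmul_eq_mul] at h
  have e : ∑ i ∈ S, (x i ^ s) ^ (1 / s) = ∑ i ∈ S, x i := by
    apply Finset.sum_congr rfl
    intro i hi
    rw [← Real.rpow_mul (hx i hi), mul_one_div_cancel hs0.ne', Real.rpow_one]
  rwa [e] at h

end

section

variable {ι α : Type} [Fintype ι] [DecidableEq ι] [Fintype α] [Nonempty α]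

/-- Jensen for conditional averages -/
theorem r1_av_rpow_le (A : Finset ι) {g : (ι → α) → ℝ} (hg : ∀ x, 0 ≤ g x) {s : ℝ} (hs : 1 ≤ s)
    (o : ι → α) : (av A g o) ^ s ≤ av A (fun x => g x ^ s) o :=
  r1_Ex_rpow_le (fun _ => hg _) hs

/-- the power of a power of an absolute value -/
theorem r1_abs_rpow (x p s : ℝ) : (|x| ^ p) ^ s = |x| ^ (p * s) :=
  (Real.rpow_mul (abs_nonneg x) p s).symm

end

end Pool.Agent.FPZ
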