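import Pool.Agent.FPZ.R1Blk

/-!
Module R1Out (section 1): the four blocks outside the windows carry the energy `O(n^(1-ε₂))`.
-/

set_option autoImplicit false

noncomputable section

namespace Pool.Agent.FPZ

open Finset Pool.FPP

variable {N : ℕ} [NeZero N] {Al : Type} [Fintype Al] [Nonempty Al]

/-- the exponent bookkeeping for one block -/
theorem r1_outX {n k : ℕ} {t ε₂ : ℝ} (ht200 : t ≤ 1 / 200) (hε₂ : ε₂ = 1 / 100)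
    (hn1r : (1 : ℝ) ≤ n) (hk0 : (0 : ℝ) < k) (hk50 : (n : ℝ) ^ (1 / 50 : ℝ) ≤ k) :
    (n : ℝ) ^ (2 * (1 + t) - 1) / k ≤ (n : ℝ) ^ (1 - ε₂) := by
  have hn0r : (0 : ℝ) < n := by linarith
  rw [div_le_iff₀ hk0]
  calc (n : ℝ) ^ (2 * (1 + t) - 1) ≤ (n : ℝ) ^ ((1 - ε₂) + 1 / 50) := by
        apply Real.rpow_le_rpow_of_exponent_le hn1r
        rw [hε₂]; linarith
    _ = (n : ℝ) ^ (1 - ε₂) * (n : ℝ) ^ (1 / 50 : ℝ) := Real.rpow_add hn0r _ _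
    _ ≤ _ := mul_le_mul_of_nonneg_left hk50 (Real.rpow_nonneg hn0r.le _)

/-- the width of a block near the end points -/
theorem r1_outY {n LJ : ℕ} {t ε₂ : ℝ} (ht0 : 0 < t) (ht200 : t ≤ 1 / 200) (hε₂ : ε₂ = 1 / 100)
    (hn1r : (1 : ℝ) ≤ n) (hLJ : LJ ^ 2 ≤ n) {w : ℝ} (hw0 : 0 ≤ w) (hw : w ≤ 11 * (LJ : ℝ)) :
    w ^ (1 + t) ≤ 121 * (n : ℝ) ^ (1 - ε₂) := by
  have hn0r : (0 : ℝ) < n := by linarith
  have hLJr : (LJ : ℝ) ≤ (n : ℝ) ^ (1 / 2 : ℝ) := by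
    have h1 : (LJ : ℝ) ^ 2 ≤ n := by exact_mod_cast hLJ
    rw [← Real.sqrt_eq_rpow]
    exact Real.le_sqrt_of_sq_le h1
  calc w ^ (1 + t) ≤ (11 * (n : ℝ) ^ (1 / 2 : ℝ)) ^ (1 + t) := by
        apply Real.rpow_le_rpow hw0 _ (by linarith)
        exact hw.trans (mul_le_mul_of_nonneg_left hLJr (by norm_num))
    _ = 11 ^ (1 + t) * (n : ℝ) ^ (1 / 2 * (1 + t)) := by
        rw [Real.mul_rpow (by norm_num) (Real.rpow_nonneg hn0r.le _), ← Real.rpow_mul hn0r.le]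
    _ ≤ 121 * (n : ℝ) ^ (1 - ε₂) := by
        apply mul_le_mul
        · calc (11 : ℝ) ^ (1 + t) ≤ 11 ^ (2 : ℝ) :=
                Real.rpow_le_rpow_of_exponent_le (by norm_num) (by linarith)
            _ = 121 := by norm_num
        · apply Real.rpow_le_rpow_of_exponent_le hn1r
          rw [hε₂]; linarith
        · exact Real.rpow_nonneg hn0r.le _
        · norm_num

/-- the four outer blocks -/
theorem r1_outer (F : (Ix N → Al) → ℝ) {Co t ε₂ : ℝ} {n k LJ M Nh : ℕ} {cv e : ℤ} (hCo : 1 ≤ Co)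
    (ht0 : 0 < t) (ht200 : t ≤ 1 / 200) (hε₂ : ε₂ = 1 / 100) (hn1r : (1 : ℝ) ≤ n)
    (hk0 : (0 : ℝ) < k) (hk50 : (n : ℝ) ^ (1 / 50 : ℝ) ≤ k) (hk10 : k ^ 10 ≤ LJ)
    (hLJsq : LJ ^ 2 ≤ n) (hLJn : LJ ≤ n) (hLJ0 : 0 < LJ) (hNn : 100 * (n : ℤ) < N)
    (hcol1 : (n : ℤ) ≤ cv) (hcol2 : cv ≤ 2 * n) (hM3 : (M : ℤ) * (LJ : ℤ) + 2 ≤ cv)
    (hM4 : cv ≤ (M : ℤ) * (LJ : ℤ) + (LJ : ℤ) + 1) (hNh : Nh = N / 2)
    (he : e = 8 * (k : ℤ) ^ 10)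
    (hon : ∀ ρ : ℝ, 1 ≤ ρ → ρ ≤ 3 / 2 → ∀ α β : ℤ, α ≤ β → -(3 * (N : ℝ)) / 4 ≤ α →
      (β : ℝ) ≤ 3 * N / 4 →
      Ex (fun ω : Ix N → Al => |F ω - av (blkI N α β) F ω| ^ (2 * ρ)) ≤
        Co * (((β : ℝ) - α + (k : ℝ) ^ 10) ^ ρ + (n : ℝ) ^ (2 * ρ - 1) / k) ∧
      ((β + e ≤ 0 ∨ cv + e ≤ α) →
        Ex (fun ω : Ix N → Al => |F ω - av (blkI N α β) F ω| ^ (2 * ρ)) ≤
          Co * ((n : ℝ) ^ (2 * ρ - 1) / k))) :
    Ex (fun ω => |F ω - av (blkI N (-(Nh : ℤ)) (-e)) F ω| ^ (2 + 2 * t)) +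
      Ex (fun ω => |F ω - av (blkI N (-e) 1) F ω| ^ (2 + 2 * t)) +
      Ex (fun ω => |F ω - av (blkI N (1 + M * (LJ : ℤ)) (cv + e)) F ω| ^ (2 + 2 * t)) +
      Ex (fun ω => |F ω - av (blkI N (cv + e) (-(Nh : ℤ) + N)) F ω| ^ (2 + 2 * t)) ≤
      246 * Co * (n : ℝ) ^ (1 - ε₂) := by
  have hX := r1_outX ht200 hε₂ hn1r hk0 hk50
  have hY : ∀ w : ℝ, 0 ≤ w → w ≤ 11 * (LJ : ℝ) → w ^ (1 + t) ≤ 121 * (n : ℝ) ^ (1 - ε₂) :=
    fun w h1 h2 => r1_outY ht0 ht200 hε₂ hn1r hLJsq h1 h2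
  have hn0r : (0 : ℝ) < n := by linarith
  have hk10z : (k : ℤ) ^ 10 ≤ (LJ : ℤ) := by exact_mod_cast hk10
  have hk10p : (0 : ℤ) ≤ (k : ℤ) ^ 10 := by positivity
  have he0 : 0 ≤ e := by omega
  have heL : e ≤ 8 * (LJ : ℤ) := by omega
  have hLJz : (LJ : ℤ) ≤ n := by exact_mod_cast hLJn
  have hen : e ≤ 8 * (n : ℤ) := by omega
  have hML0 : (0 : ℤ) ≤ (M : ℤ) * (LJ : ℤ) := by positivity
  have hk10r : (k : ℝ) ^ 10 ≤ (LJ : ℝ) := by exact_mod_cast hk10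
  have her : (e : ℝ) = 8 * (k : ℝ) ^ 10 := by rw [he]; push_cast; ring
  have he0r : (0 : ℝ) ≤ (e : ℝ) := by exact_mod_cast he0
  have hk10rp : (0 : ℝ) ≤ (k : ℝ) ^ 10 := by positivity
  have hLJ1 : (1 : ℝ) ≤ (LJ : ℝ) := by exact_mod_cast hLJ0
  have hρ1 : (1 : ℝ) ≤ 1 + t := by linarith
  have hρ2 : 1 + t ≤ (3 : ℝ) / 2 := by linarith
  have e2t : (2 : ℝ) + 2 * t = 2 * (1 + t) := by ring
  have hN2a : (N : ℝ) / 2 - 1 / 2 ≤ (Nh : ℝ) := by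
    have h1 : N ≤ 2 * Nh + 1 := by omega
    have h2 : (N : ℝ) ≤ 2 * (Nh : ℝ) + 1 := by exact_mod_cast h1
    linarith
  have hN2b : (Nh : ℝ) ≤ (N : ℝ) / 2 := by
    have h1 : 2 * Nh ≤ N := by omega
    have h2 : 2 * (Nh : ℝ) ≤ (N : ℝ) := by exact_mod_cast h1
    linarith
  have hNnr : (100 : ℝ) * n < N := by exact_mod_cast hNn
  have hXnn : 0 ≤ (n : ℝ) ^ (1 - ε₂) := Real.rpow_nonneg hn0r.le _
  have hCo0 : 0 ≤ Co := by linarith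
  have hNp : (0 : ℝ) ≤ N := Nat.cast_nonneg _
  rw [e2t]
  have g1 : Ex (fun ω => |F ω - av (blkI N (-(Nh : ℤ)) (-e)) F ω| ^ (2 * (1 + t))) ≤
      Co * (n : ℝ) ^ (1 - ε₂) := by
    refine ((hon (1 + t) hρ1 hρ2 (-(Nh : ℤ)) (-e) (by omega) ?_ ?_).2 (Or.inl (by omega))).trans
      (mul_le_mul_of_nonneg_left hX hCo0)
    · push_cast; linarith
    · push_cast; linarith
  have g4 : Ex (fun ω => |F ω - av (blkI N (cv + e) (-(Nh : ℤ) + N)) F ω| ^ (2 * (1 + t))) ≤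
      Co * (n : ℝ) ^ (1 - ε₂) := by
    refine ((hon (1 + t) hρ1 hρ2 (cv + e) (-(Nh : ℤ) + N) (by omega) ?_ ?_).2
      (Or.inr le_rfl)).trans (mul_le_mul_of_nonneg_left hX hCo0)
    · have h1 : (0 : ℝ) ≤ ((cv + e : ℤ) : ℝ) := by
        have : 0 ≤ cv + e := by omega
        exact_mod_cast this
      linarith
    · push_cast; linarith
  have g2 : Ex (fun ω => |F ω - av (blkI N (-e) 1) F ω| ^ (2 * (1 + t))) ≤
      Co * (122 * (n : ℝ) ^ (1 - ε₂)) := by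
    refine (hon (1 + t) hρ1 hρ2 (-e) 1 (by omega) ?_ ?_).1.trans
      (mul_le_mul_of_nonneg_left ?_ hCo0)
    · have h8 : (e : ℝ) ≤ 8 * (n : ℝ) := by exact_mod_cast hen
      push_cast
      linarith
    · push_cast; linarith
    · have hy := hY (((1 : ℤ) : ℝ) - ((-e : ℤ) : ℝ) + (k : ℝ) ^ 10) (by push_cast; linarith)
        (by push_cast; linarith)
      exact (add_le_add hy hX).trans (by linarith)
  have g3 : Ex (fun ω => |F ω - av (blkI N (1 + M * (LJ : ℤ)) (cv + e)) F ω| ^ (2 * (1 + t))) ≤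
      Co * (122 * (n : ℝ) ^ (1 - ε₂)) := by
    refine (hon (1 + t) hρ1 hρ2 (1 + M * (LJ : ℤ)) (cv + e) (by omega) ?_ ?_).1.trans
      (mul_le_mul_of_nonneg_left ?_ hCo0)
    · have h1 : (0 : ℝ) ≤ ((1 + (M : ℤ) * (LJ : ℤ) : ℤ) : ℝ) := by
        have : 0 ≤ 1 + (M : ℤ) * (LJ : ℤ) := by omega
        exact_mod_cast this
      linarith
    · have h8 : ((cv + e : ℤ) : ℝ) ≤ ((10 * (n : ℤ) : ℤ) : ℝ) := by
        have : cv + e ≤ 10 * (n : ℤ) := by omega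
        exact_mod_cast this
      push_cast at h8 ⊢
      linarith
    · have h5 : ((cv + e : ℤ) : ℝ) - ((1 + (M : ℤ) * (LJ : ℤ) : ℤ) : ℝ) ≤ (LJ : ℝ) + e := by
        have h5' : (cv + e) - (1 + (M : ℤ) * (LJ : ℤ)) ≤ (LJ : ℤ) + e := by omega
        exact_mod_cast h5'
      have h5p : (0 : ℝ) ≤ ((cv + e : ℤ) : ℝ) - ((1 + (M : ℤ) * (LJ : ℤ) : ℤ) : ℝ) := by
        have h5' : 0 ≤ (cv + e) - (1 + (M : ℤ) * (LJ : ℤ)) := by omega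
        exact_mod_cast h5'
      have hy := hY (((cv + e : ℤ) : ℝ) - ((1 + (M : ℤ) * (LJ : ℤ) : ℤ) : ℝ) + (k : ℝ) ^ 10)
        (by linarith) (by linarith)
      exact (add_le_add hy hX).trans (by linarith)
  linarith

/-- the exponent bookkeeping for the probability of bad windows -/
theorem r1_prob {Cr ε₀ η ε₂ C₁ X L R : ℝ} {n k : ℕ} (hε₂ : ε₂ = 1 / 100)
    (hn1r : (1 : ℝ) ≤ n) (hk0 : (0 : ℝ) < k) (hk50 : (n : ℝ) ^ (1 / 50 : ℝ) ≤ k) (hη : 0 < η)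
    (hε₀ : 0 < ε₀) (hCr : 0 < Cr) (hL : 0 < L) (hR : 1 ≤ R) (hX0 : 0 ≤ X)
    (hX : X * (L * R) ≤ 2 * n) (hC₁ : 2 * Cr / η + 2 / ε₀ ≤ C₁) :
    2 * Cr * n / (k * (η * L)) + X * (1 / (n : ℝ) / ε₀) ≤ C₁ * (n / L) * (n : ℝ) ^ (-ε₂) := by
  have hn0r : (0 : ℝ) < n := by linarith
  have h1 : 2 * Cr * n / (k * (η * L)) ≤ 2 * Cr / η * (n / L) * (n : ℝ) ^ (-ε₂) := by
    have h2 : 2 * Cr * (n : ℝ) / (k * (η * L)) = 2 * Cr / η * (n / L) * (1 / k) := by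
      field_simp
    rw [h2]
    apply mul_le_mul_of_nonneg_left _ (by positivity)
    rw [Real.rpow_neg hn0r.le, ← one_div]
    apply one_div_le_one_div_of_le (Real.rpow_pos_of_pos hn0r _)
    refine le_trans ?_ hk50
    apply Real.rpow_le_rpow_of_exponent_le hn1r
    rw [hε₂]; norm_num
  have h3 : X * (1 / (n : ℝ) / ε₀) ≤ 2 / ε₀ * (n / L) * (n : ℝ) ^ (-ε₂) := by
    have h4 : X ≤ 2 * n / L := by
      rw [le_div_iff₀ hL]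
      have h6 : 0 ≤ X * L := mul_nonneg hX0 hL.le
      nlinarith
    have h7 : (n : ℝ) ^ (-1 : ℝ) ≤ (n : ℝ) ^ (-ε₂) := by
      apply Real.rpow_le_rpow_of_exponent_le hn1r
      rw [hε₂]; norm_num
    rw [Real.rpow_neg_one] at h7
    calc X * (1 / (n : ℝ) / ε₀) ≤ 2 * n / L * (1 / (n : ℝ) / ε₀) :=
          mul_le_mul_of_nonneg_right h4 (by positivity)
      _ = 2 / ε₀ * (n / L) * (n : ℝ)⁻¹ := by field_simp
      _ ≤ _ := mul_le_mul_of_nonneg_left h7 (by positivity)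
  calc _ ≤ 2 * Cr / η * (n / L) * (n : ℝ) ^ (-ε₂) + 2 / ε₀ * (n / L) * (n : ℝ) ^ (-ε₂) :=
        add_le_add h1 h3
    _ = (2 * Cr / η + 2 / ε₀) * ((n / L) * (n : ℝ) ^ (-ε₂)) := by ring
    _ ≤ C₁ * ((n / L) * (n : ℝ) ^ (-ε₂)) := mul_le_mul_of_nonneg_right hC₁ (by positivity)
    _ = _ := by ring

end Pool.Agent.FPZ
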