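import Mathlib

/-!
Module R1Scl (section 1): choice of the scales `k ≈ n^(1/40)`, `L₀ = 2 k^11 + 1`, `L₀ R^J ≤ √n`.
-/

set_option autoImplicit false

noncomputable section

namespace Pool.Agent.FPZ

open Finset

theorem r1_scales (R : ℕ) (hR : 2 ≤ R) (K0 : ℝ) : ∃ n₀ : ℕ, ∀ n : ℕ, n₀ ≤ n → ∃ k J : ℕ,
    K0 ≤ k ∧ (k : ℝ) ^ 40 ≤ n ∧ (n : ℝ) ≤ Real.exp k ∧ (n : ℝ) ^ (1 / 50 : ℝ) ≤ k ∧
    (n : ℝ) ^ (1 / 4 : ℝ) ≤ ((2 * k ^ 11 + 1 : ℕ) : ℝ) ∧ (n : ℝ) ^ (1 / 8 : ℝ) ≤ (R : ℝ) ^ J ∧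
    ((2 * k ^ 11 + 1) * R ^ J) ^ 2 ≤ n := by
  have hev : ∀ᶠ x : ℝ in Filter.atTop, 40 * Real.log x + 1 ≤ x := by
    have h1 : (fun x : ℝ => 40 * Real.log x) =o[Filter.atTop] (id : ℝ → ℝ) :=
      Real.isLittleO_log_id_atTop.const_mul_left 40
    have h2 := h1.bound (c := 1 / 2) (by norm_num)
    filter_upwards [h2, Filter.eventually_ge_atTop (2 : ℝ)] with x hx hx2
    simp only [Real.norm_eq_abs, id] at hx
    have h3 : |x| = x := abs_of_nonneg (by linarith)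
    rw [h3] at hx
    have h4 := le_abs_self (40 * Real.log x)
    linarith
  obtain ⟨X1, hX1⟩ := Filter.eventually_atTop.mp hev
  have hRr : (2 : ℝ) ≤ R := by exact_mod_cast hR
  set X0 : ℝ := max (max X1 1024) (max (|K0| + 2) (6 * R)) with hX0
  have hX01 : X1 ≤ X0 := (le_max_left _ _).trans (le_max_left _ _)
  have hX02 : 1024 ≤ X0 := (le_max_right _ _).trans (le_max_left _ _)
  have hX03 : |K0| + 2 ≤ X0 := (le_max_left _ _).trans (le_max_right _ _)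
  have hX04 : 6 * (R : ℝ) ≤ X0 := (le_max_right _ _).trans (le_max_right _ _)
  have hX0pos : 0 < X0 := by linarith
  refine ⟨⌈X0 ^ 40⌉₊, fun n hn => ?_⟩
  have hn' : X0 ^ 40 ≤ n := (Nat.le_ceil _).trans (by exact_mod_cast hn)
  have hn0 : (0 : ℝ) < n := lt_of_lt_of_le (by positivity) hn'
  set x : ℝ := (n : ℝ) ^ (1 / 40 : ℝ) with hx
  have hx0 : 0 < x := Real.rpow_pos_of_pos hn0 _
  have hx40 : x ^ 40 = n := by
    rw [hx, ← Real.rpow_natCast, ← Real.rpow_mul hn0.le]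
    norm_num
  have hXx : X0 ≤ x := by
    by_contra hc
    push Not at hc
    have h1 : x ^ 40 < X0 ^ 40 := pow_lt_pow_left₀ hc hx0.le (by norm_num)
    linarith
  have hx1024 : 1024 ≤ x := hX02.trans hXx
  have hpow : ∀ i : ℕ, (n : ℝ) ^ ((i : ℝ) / 40) = x ^ i := by
    intro i
    rw [hx, ← Real.rpow_natCast, ← Real.rpow_mul hn0.le]
    congr 1
    ring
  set k : ℕ := ⌊x⌋₊ with hk
  have hk1 : (k : ℝ) ≤ x := Nat.floor_le hx0.le
  have hk2 : x < k + 1 := Nat.lt_floor_add_one x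
  have hk3 : x / 2 ≤ k := by linarith
  have hk0 : (0 : ℝ) < k := by linarith
  set m : ℕ := Nat.sqrt n with hm
  have hm1 : m ^ 2 ≤ n := Nat.sqrt_le' n
  have hm2 : (n : ℝ) < ((m : ℝ) + 1) ^ 2 := by
    have := Nat.lt_succ_sqrt' n
    exact_mod_cast this
  have hm3 : x ^ 20 ≤ (m : ℝ) + 1 := by
    by_contra hc
    push Not at hc
    have h1 : ((m : ℝ) + 1) ^ 2 < (x ^ 20) ^ 2 := pow_lt_pow_left₀ hc (by positivity) (by norm_num)
    rw [← pow_mul] at h1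
    norm_num at h1
    linarith
  have hx20 : (1024 : ℝ) ≤ x ^ 20 := by
    calc (1024 : ℝ) ≤ x := hx1024
      _ = x ^ 1 := (pow_one x).symm
      _ ≤ x ^ 20 := pow_le_pow_right₀ (by linarith) (by norm_num)
  have hm4 : x ^ 20 / 2 ≤ m := by linarith
  set L₀ : ℕ := 2 * k ^ 11 + 1 with hL₀
  have hL1 : (L₀ : ℝ) ≤ 3 * x ^ 11 := by
    rw [hL₀]
    push_cast
    have h1 : (k : ℝ) ^ 11 ≤ x ^ 11 := pow_le_pow_left₀ hk0.le hk1 11
    have h2 : (1 : ℝ) ≤ x ^ 11 := one_le_pow₀ (by linarith)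
    linarith
  have hL0 : (0 : ℝ) < L₀ := by
    rw [hL₀]; push_cast; positivity
  have hLm : L₀ ≤ m := by
    have h1 : 3 * x ^ 11 ≤ x ^ 20 / 2 := by
      have h2 : x ^ 20 = x ^ 11 * x ^ 9 := by ring
      have h3 : (6 : ℝ) ≤ x ^ 9 := by
        calc (6 : ℝ) ≤ x := by linarith
          _ = x ^ 1 := (pow_one x).symm
          _ ≤ x ^ 9 := pow_le_pow_right₀ (by linarith) (by norm_num)
      have h4 : 0 < x ^ 11 := by positivity
      rw [h2]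
      nlinarith
    have h5 : (L₀ : ℝ) ≤ m := by linarith
    exact_mod_cast h5
  have hL0' : 0 < L₀ := by rw [hL₀]; omega
  set J : ℕ := Nat.log R (m / L₀) with hJ
  have hdiv : m / L₀ ≠ 0 := (Nat.div_pos hLm hL0').ne'
  have hJ1 : R ^ J ≤ m / L₀ := Nat.pow_log_le_self R hdiv
  have hJ2 : m / L₀ < R ^ (J + 1) := Nat.lt_pow_succ_log_self (by omega) _
  have hJ3 : L₀ * R ^ J ≤ m := by
    calc L₀ * R ^ J ≤ L₀ * (m / L₀) := Nat.mul_le_mul_left _ hJ1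
      _ ≤ m := Nat.mul_div_le m L₀
  have hJ4 : m ≤ L₀ * R ^ (J + 1) := by
    have h1 : m < L₀ * (m / L₀ + 1) := Nat.lt_mul_div_succ m hL0'
    have h2 : L₀ * (m / L₀ + 1) ≤ L₀ * R ^ (J + 1) := Nat.mul_le_mul_left _ hJ2
    omega
  refine ⟨k, J, ?_, ?_, ?_, ?_, ?_, ?_, ?_⟩
  · have := le_abs_self K0
    linarith
  · calc (k : ℝ) ^ 40 ≤ x ^ 40 := pow_le_pow_left₀ hk0.le hk1 40
      _ = n := hx40
  · have h1 := hX1 x (hX01.trans hXx)
    have h2 : Real.log n = 40 * Real.log x := by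
      rw [← hx40, Real.log_pow]; norm_num
    rw [← Real.exp_log hn0, h2]
    apply Real.exp_le_exp.mpr
    linarith
  · have h1 : (n : ℝ) ^ (1 / 50 : ℝ) = x ^ (4 / 5 : ℝ) := by
      rw [hx, ← Real.rpow_mul hn0.le]
      norm_num
    rw [h1]
    refine le_trans ?_ hk3
    rw [le_div_iff₀ (by norm_num)]
    have h2 : (2 : ℝ) ≤ x ^ (1 / 5 : ℝ) := by
      have h3 : (2 : ℝ) = (32 : ℝ) ^ (1 / 5 : ℝ) := by
        rw [show (32 : ℝ) = 2 ^ (5 : ℝ) by norm_num, ← Real.rpow_mul (by norm_num)]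
        norm_num
      rw [h3]
      exact Real.rpow_le_rpow (by norm_num) (by linarith) (by norm_num)
    calc x ^ (4 / 5 : ℝ) * 2 ≤ x ^ (4 / 5 : ℝ) * x ^ (1 / 5 : ℝ) :=
          mul_le_mul_of_nonneg_left h2 (Real.rpow_nonneg hx0.le _)
      _ = x := by rw [← Real.rpow_add hx0]; norm_num
  · have h1 : (n : ℝ) ^ (1 / 4 : ℝ) = x ^ 10 := by
      rw [← hpow 10]; norm_num
    rw [h1]
    push_cast
    have h2 : (x / 2) ^ 11 ≤ (k : ℝ) ^ 11 := pow_le_pow_left₀ (by positivity) hk3 11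
    have h3 : x ^ 10 ≤ 2 * (x / 2) ^ 11 := by
      have h4 : 2 * (x / 2) ^ 11 = x ^ 10 * (x / 1024) := by ring
      rw [h4]
      have h5 : 1 ≤ x / 1024 := by linarith
      have h6 : 0 < x ^ 10 := by positivity
      nlinarith
    linarith
  · have h1 : (n : ℝ) ^ (1 / 8 : ℝ) = x ^ 5 := by
      rw [← hpow 5]; norm_num
    rw [h1]
    have h2 : (m : ℝ) ≤ L₀ * (R : ℝ) ^ (J + 1) := by exact_mod_cast hJ4
    have h3 : x ^ 20 / 2 ≤ 3 * x ^ 11 * (R * (R : ℝ) ^ J) := by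
      calc x ^ 20 / 2 ≤ m := hm4
        _ ≤ L₀ * (R : ℝ) ^ (J + 1) := h2
        _ ≤ 3 * x ^ 11 * (R : ℝ) ^ (J + 1) := mul_le_mul_of_nonneg_right hL1 (by positivity)
        _ = _ := by rw [pow_succ]; ring
    have h4 : x ^ 9 ≤ 6 * R * (R : ℝ) ^ J := by
      have h5 : x ^ 11 * x ^ 9 ≤ x ^ 11 * (6 * R * (R : ℝ) ^ J) := by
        calc x ^ 11 * x ^ 9 = 2 * (x ^ 20 / 2) := by ring
          _ ≤ 2 * (3 * x ^ 11 * (R * (R : ℝ) ^ J)) := by linarith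
          _ = _ := by ring
      exact le_of_mul_le_mul_left h5 (by positivity)
    have h6 : 6 * (R : ℝ) ≤ x ^ 4 := by
      calc 6 * (R : ℝ) ≤ x := hX04.trans hXx
        _ = x ^ 1 := (pow_one x).symm
        _ ≤ x ^ 4 := pow_le_pow_right₀ (by linarith) (by norm_num)
    have h7 : 6 * (R : ℝ) * x ^ 5 ≤ 6 * R * (R : ℝ) ^ J := by
      calc 6 * (R : ℝ) * x ^ 5 ≤ x ^ 4 * x ^ 5 := mul_le_mul_of_nonneg_right h6 (by positivity)
        _ = x ^ 9 := by ring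
        _ ≤ _ := h4
    exact le_of_mul_le_mul_left h7 (by positivity)
  · exact (Nat.pow_le_pow_left hJ3 2).trans hm1

end Pool.Agent.FPZ
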