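import Mathlib

/-!
Module R1Seq (section 1): the numbers of the potential recursion.
-/

set_option autoImplicit false

noncomputable section

namespace Pool.Agent.FPZ

open Finset

/-- the linear recursion -/
theorem r1_seq {J : ℕ} {Q : ℕ → ℝ} {t e : ℝ} (ht : 0 < t) (ht1 : t ≤ 1) (he : 0 ≤ e)
    (h : ∀ j < J, Q (j + 1) ≤ (1 - t) * Q j + e) : Q J ≤ (1 - t) ^ J * Q 0 + e / t := by
  have key : ∀ j ≤ J, Q j ≤ (1 - t) ^ j * Q 0 + e / t := by
    intro j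
    induction j with
    | zero =>
      intro _
      have : 0 ≤ e / t := by positivity
      simpa using this
    | succ j ih =>
      intro hj
      have h1 := h j (by omega)
      have h2 := ih (by omega)
      have h3 : (1 - t) * Q j ≤ (1 - t) * ((1 - t) ^ j * Q 0 + e / t) :=
        mul_le_mul_of_nonneg_left h2 (by linarith)
      have h4 : (1 - t) * ((1 - t) ^ j * Q 0 + e / t) + e = (1 - t) ^ (j + 1) * Q 0 + e / t := by
        field_simp
        ring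
      linarith
  exact key J le_rfl

/-- geometric decay over the scales -/
theorem r1_geom {R J : ℕ} {t n ε : ℝ} (hR : 2 ≤ R) (ht : 0 < t) (ht1 : t ≤ 1) (hn : 1 ≤ n)
    (hJ : n ^ ε ≤ (R : ℝ) ^ J) : (1 - t) ^ J ≤ n ^ (-(t * ε / Real.log R)) := by
  have hR1 : (1 : ℝ) < R := by exact_mod_cast hR
  have hlR : 0 < Real.log R := Real.log_pos hR1
  have hn0 : 0 < n := by linarith
  have h1 : ε * Real.log n ≤ J * Real.log R := by
    have := Real.log_le_log (Real.rpow_pos_of_pos hn0 _) hJ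
    rwa [Real.log_rpow hn0, Real.log_pow] at this
  have h2 : (1 - t) ^ J ≤ Real.exp (-t) ^ J := by
    apply pow_le_pow_left₀ (by linarith)
    have := Real.add_one_le_exp (-t)
    linarith
  refine h2.trans ?_
  rw [← Real.exp_nat_mul, Real.rpow_def_of_pos hn0]
  apply Real.exp_le_exp.mpr
  have h3 : t * (ε * Real.log n) / Real.log R ≤ J * t := by
    rw [div_le_iff₀ hlR]
    calc t * (ε * Real.log n) ≤ t * (J * Real.log R) := mul_le_mul_of_nonneg_left h1 ht.le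
      _ = J * t * Real.log R := by ring
  have h4 : Real.log n * -(t * ε / Real.log R) = -(t * (ε * Real.log n) / Real.log R) := by ring
  rw [h4]
  linarith

/-- exponents of the Hölder step -/
theorem r1_holder_exp {A x y t c : ℝ} (hA : 0 < A) (hx : 0 < x) (hy : 0 < y) (hc : 0 < 1 + c) :
    (A * x ^ c) ^ ((1 + t) / (1 + c)) * (A / x * y) ^ ((c - t) / (1 + c)) =
      A * x ^ t * y ^ ((c - t) / (1 + c)) := by
  have e1 : (c - t) / (1 + c) = 1 - (1 + t) / (1 + c) := by field_simp; ring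
  set θ : ℝ := (1 + t) / (1 + c) with hθ
  have e2 : c * θ - (1 - θ) = t := by
    have : (1 + c) * θ = 1 + t := by rw [hθ]; field_simp
    linarith
  rw [e1, Real.mul_rpow hA.le (Real.rpow_nonneg hx.le _), ← Real.rpow_mul hx.le,
    Real.mul_rpow (div_nonneg hA.le hx.le) hy.le, Real.div_rpow hA.le hx.le]
  have h1 : A ^ θ * A ^ (1 - θ) = A := by
    rw [← Real.rpow_add hA]; simp
  have h2 : x ^ (c * θ) / x ^ (1 - θ) = x ^ t := by
    rw [← Real.rpow_sub hx, e2]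
  calc A ^ θ * x ^ (c * θ) * (A ^ (1 - θ) / x ^ (1 - θ) * y ^ (1 - θ))
      = (A ^ θ * A ^ (1 - θ)) * (x ^ (c * θ) / x ^ (1 - θ)) * y ^ (1 - θ) := by ring
    _ = _ := by rw [h1, h2]

/-- the real recursion of section 1 with its conclusion: from
`P (j+1) ≤ (1-t) R^t P j + K (R S_j^θ β_j^{1-θ} + M_{j+1} Cbig)` to `V ≤ C n^{1-κ}`; at the end the
window blocks are completed by a few blocks of total energy `T` to `M'` blocks of the whole torus -/
theorem r1_numbers (R : ℕ) (hR : 2 ≤ R) {t c' ε₂ ε₃ ε₄ C₁ Cbig K : ℝ} (ht : 0 < t) (ht1 : t ≤ 1)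
    (htc : t < c') (h₂ : 0 < ε₂) (h₃ : 0 < ε₃) (h₄ : 0 < ε₄) (hC : 1 ≤ C₁) (hB : 0 ≤ Cbig)
    (hK : 1 ≤ K) :
    ∃ κ : ℝ, 0 < κ ∧ ∃ C : ℝ, 0 ≤ C ∧
      ∀ (n : ℝ) (L₀ J M M' : ℕ) (P : ℕ → ℝ) (V T : ℝ), 1 ≤ n → n ^ ε₃ ≤ (L₀ : ℝ) →
        n ^ ε₄ ≤ (R : ℝ) ^ J → (M : ℝ) * (L₀ * R ^ J) ≤ C₁ * n →
        (M' : ℝ) * (L₀ * R ^ J) ≤ C₁ * n → 0 ≤ V → 0 ≤ T → T ≤ C₁ * n ^ (1 - ε₂) →
        (∀ j, 0 ≤ P j) →
        P 0 ≤ (C₁ * n * (L₀ : ℝ) ^ c') ^ ((1 + t) / (1 + c')) *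
          (C₁ * n / L₀) ^ ((c' - t) / (1 + c')) →
        (∀ j < J, P (j + 1) ≤ (1 - t) * (R : ℝ) ^ t * P j +
          K * (R * ((C₁ * n * ((L₀ : ℝ) * R ^ j) ^ c') ^ ((1 + t) / (1 + c')) *
            (C₁ * (n / ((L₀ : ℝ) * R ^ j)) * n ^ (-ε₂)) ^ ((c' - t) / (1 + c'))) +
            ((M * R ^ (J - (j + 1)) : ℕ) : ℝ) * Cbig)) →
        V ^ (1 + t) ≤ K * (M' : ℝ) ^ t * (P J + T) → V ≤ C * n ^ (1 - κ) := by
  set η : ℝ := (c' - t) / (1 + c') with hη
  have h1c : 0 < 1 + c' := by linarith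
  have hη0 : 0 < η := div_pos (by linarith) h1c
  have hη1 : η ≤ 1 := by rw [hη, div_le_one h1c]; linarith
  have hR1 : (1 : ℝ) < R := by exact_mod_cast hR
  have hlR : 0 < Real.log R := Real.log_pos hR1
  set κ₀ : ℝ := min (ε₂ * η) ε₃ with hκ₀
  have hκ₀0 : 0 < κ₀ := lt_min (mul_pos h₂ hη0) h₃
  set κ₁ : ℝ := min κ₀ (t * ε₄ / Real.log R) with hκ₁
  have hκ₁0 : 0 < κ₁ := lt_min hκ₀0 (by positivity)
  set D : ℝ := K * C₁ * (R + Cbig) with hD
  have hD0 : 0 < D := by positivity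
  set C₂ : ℝ := C₁ + D / t + C₁ with hC₂
  have hC₂0 : 0 < C₂ := by positivity
  refine ⟨κ₁ / (1 + t), by positivity, (K * C₁ ^ t * C₂) ^ (1 / (1 + t)), by positivity, ?_⟩
  intro n L₀ J M M' P V T hn hL hJ hM hM' hV hT0 hT hP0 hP hrec hend
  have hn0 : 0 < n := by linarith
  have hL0 : (0 : ℝ) < L₀ := lt_of_lt_of_le (Real.rpow_pos_of_pos hn0 _) hL
  have hL1 : (1 : ℝ) ≤ L₀ := by
    have : L₀ ≠ 0 := by
      rintro rfl
      simp at hL0
    exact_mod_cast Nat.one_le_iff_ne_zero.mpr this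
  set x : ℕ → ℝ := fun j => (L₀ : ℝ) * R ^ j with hx
  have hx0 : ∀ j, 0 < x j := fun j => by positivity
  have hx1 : ∀ j, 1 ≤ x j := fun j => by
    calc (1 : ℝ) = 1 * 1 := by ring
      _ ≤ (L₀ : ℝ) * R ^ j := mul_le_mul hL1 (one_le_pow₀ hR1.le) (by norm_num) (by linarith)
  have hxs : ∀ j, x (j + 1) = R * x j := fun j => by rw [hx]; simp only [pow_succ]; ring
  have hA0 : 0 < C₁ * n := by positivity
  set Q : ℕ → ℝ := fun j => P j / x j ^ t with hQ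
  have hQ0 : ∀ j, 0 ≤ Q j := fun j => div_nonneg (hP0 j) (Real.rpow_nonneg (hx0 j).le _)
  -- start
  have hstart : Q 0 ≤ C₁ * n := by
    rw [hQ]
    simp only
    rw [div_le_iff₀ (Real.rpow_pos_of_pos (hx0 0) _)]
    have h := r1_holder_exp (A := C₁ * n) (x := (L₀ : ℝ)) (y := 1) (t := t) (c := c')
      hA0 hL0 one_pos h1c
    rw [mul_one, Real.one_rpow, mul_one] at h
    have hx00 : x 0 = (L₀ : ℝ) := by simp [hx]
    rw [hx00, ← h]
    exact hP
  -- step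
  have hstep : ∀ j < J, Q (j + 1) ≤ (1 - t) * Q j + D * n ^ (1 - κ₀) := by
    intro j hj
    have h1 := hrec j hj
    have hxj : 0 < x j ^ t := Real.rpow_pos_of_pos (hx0 j) _
    have hRt : 1 ≤ (R : ℝ) ^ t := Real.one_le_rpow hR1.le ht.le
    have hx' : x (j + 1) ^ t = (R : ℝ) ^ t * x j ^ t := by
      rw [hxs, Real.mul_rpow (by linarith) (hx0 j).le]
    have hxj1 : 1 ≤ x j ^ t := Real.one_le_rpow (hx1 j) ht.le
    -- Hölder term
    have e1 : (C₁ * n * ((L₀ : ℝ) * R ^ j) ^ c') ^ ((1 + t) / (1 + c')) *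
        (C₁ * (n / ((L₀ : ℝ) * R ^ j)) * n ^ (-ε₂)) ^ η =
        C₁ * n * x j ^ t * n ^ (-ε₂ * η) := by
      have h := r1_holder_exp (A := C₁ * n) (x := x j) (y := n ^ (-ε₂)) (t := t) (c := c')
        hA0 (hx0 j) (Real.rpow_pos_of_pos hn0 _) h1c
      rw [← Real.rpow_mul hn0.le] at h
      rw [← h]
      congr 2
      rw [hx]
      ring
    have e2 : n ^ (-ε₂ * η) ≤ n ^ (-κ₀) := by
      apply Real.rpow_le_rpow_of_exponent_le hn
      have := min_le_left (ε₂ * η) ε₃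
      rw [hκ₀]; linarith
    have e3 : n * n ^ (-κ₀) = n ^ (1 - κ₀) := by
      rw [sub_eq_add_neg, Real.rpow_add hn0, Real.rpow_one]
    -- number of windows
    have e4 : ((M * R ^ (J - (j + 1)) : ℕ) : ℝ) ≤ C₁ * n * n ^ (-ε₃) := by
      have h5 : ((M * R ^ (J - (j + 1)) : ℕ) : ℝ) * (L₀ * R ^ (j + 1)) ≤ C₁ * n := by
        have h6 : J - (j + 1) + (j + 1) = J := by omega
        calc ((M * R ^ (J - (j + 1)) : ℕ) : ℝ) * (L₀ * R ^ (j + 1))
            = (M : ℝ) * (L₀ * (R ^ (J - (j + 1)) * R ^ (j + 1))) := by push_cast; ring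
          _ = (M : ℝ) * (L₀ * R ^ J) := by rw [← pow_add, h6]
          _ ≤ _ := hM
      have h7 : n ^ ε₃ ≤ (L₀ : ℝ) * R ^ (j + 1) := by
        calc n ^ ε₃ ≤ L₀ := hL
          _ = L₀ * 1 := (mul_one _).symm
          _ ≤ _ := mul_le_mul_of_nonneg_left (one_le_pow₀ hR1.le) hL0.le
      rw [Real.rpow_neg hn0.le, ← div_eq_mul_inv, le_div_iff₀ (Real.rpow_pos_of_pos hn0 _)]
      exact (mul_le_mul_of_nonneg_left h7 (Nat.cast_nonneg _)).trans h5
    have e5 : n ^ (-ε₃) ≤ n ^ (-κ₀) := by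
      apply Real.rpow_le_rpow_of_exponent_le hn
      have := min_le_right (ε₂ * η) ε₃
      rw [hκ₀]; linarith
    have hnk : 0 ≤ n ^ (1 - κ₀) := Real.rpow_nonneg hn0.le _
    have h8 : P (j + 1) ≤ (1 - t) * (R : ℝ) ^ t * P j + D * n ^ (1 - κ₀) * x j ^ t := by
      refine h1.trans ?_
      rw [e1]
      have h9 : C₁ * n * x j ^ t * n ^ (-ε₂ * η) ≤ C₁ * n ^ (1 - κ₀) * x j ^ t := by
        calc C₁ * n * x j ^ t * n ^ (-ε₂ * η) ≤ C₁ * n * x j ^ t * n ^ (-κ₀) :=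
              mul_le_mul_of_nonneg_left e2 (by positivity)
          _ = C₁ * (n * n ^ (-κ₀)) * x j ^ t := by ring
          _ = _ := by rw [e3]
      have h10 : ((M * R ^ (J - (j + 1)) : ℕ) : ℝ) ≤ C₁ * n ^ (1 - κ₀) * x j ^ t := by
        calc ((M * R ^ (J - (j + 1)) : ℕ) : ℝ) ≤ C₁ * n * n ^ (-ε₃) := e4
          _ ≤ C₁ * n * n ^ (-κ₀) := mul_le_mul_of_nonneg_left e5 (by positivity)
          _ = C₁ * n ^ (1 - κ₀) := by rw [← e3]; ring
          _ = C₁ * n ^ (1 - κ₀) * 1 := (mul_one _).symm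
          _ ≤ _ := mul_le_mul_of_nonneg_left hxj1 (by positivity)
      have h11 : K * (R * (C₁ * n * x j ^ t * n ^ (-ε₂ * η)) +
          ((M * R ^ (J - (j + 1)) : ℕ) : ℝ) * Cbig) ≤
          K * (R * (C₁ * n ^ (1 - κ₀) * x j ^ t) + C₁ * n ^ (1 - κ₀) * x j ^ t * Cbig) := by
        gcongr
      have h12 : K * (R * (C₁ * n ^ (1 - κ₀) * x j ^ t) + C₁ * n ^ (1 - κ₀) * x j ^ t * Cbig) =
          D * n ^ (1 - κ₀) * x j ^ t := by rw [hD]; ring
      linarith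
    rw [hQ]
    simp only
    rw [hx', div_le_iff₀ (mul_pos (by linarith) hxj)]
    calc P (j + 1) ≤ (1 - t) * (R : ℝ) ^ t * P j + D * n ^ (1 - κ₀) * x j ^ t := h8
      _ ≤ (1 - t) * (R : ℝ) ^ t * P j + D * n ^ (1 - κ₀) * x j ^ t * (R : ℝ) ^ t := by
          have : 0 ≤ D * n ^ (1 - κ₀) * x j ^ t := by positivity
          nlinarith
      _ = _ := by field_simp
  have hfin := r1_seq (Q := Q) (J := J) ht ht1 (e := D * n ^ (1 - κ₀)) (by positivity) hstep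
  have hQJ : Q J + T ≤ C₂ * n ^ (1 - κ₁) := by
    have g1 := r1_geom (R := R) (J := J) (t := t) (n := n) (ε := ε₄) hR ht ht1 hn hJ
    have g2 : (1 - t) ^ J * Q 0 ≤ n ^ (-(t * ε₄ / Real.log R)) * (C₁ * n) :=
      mul_le_mul g1 hstart (hQ0 0) (Real.rpow_nonneg hn0.le _)
    have g3 : n ^ (-(t * ε₄ / Real.log R)) * (C₁ * n) ≤ C₁ * n ^ (1 - κ₁) := by
      have g4 : n ^ (-(t * ε₄ / Real.log R)) ≤ n ^ (-κ₁) := by
        apply Real.rpow_le_rpow_of_exponent_le hn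
        have := min_le_right κ₀ (t * ε₄ / Real.log R)
        rw [hκ₁]; linarith
      calc n ^ (-(t * ε₄ / Real.log R)) * (C₁ * n) ≤ n ^ (-κ₁) * (C₁ * n) :=
            mul_le_mul_of_nonneg_right g4 hA0.le
        _ = C₁ * (n * n ^ (-κ₁)) := by ring
        _ = _ := by rw [sub_eq_add_neg, Real.rpow_add hn0, Real.rpow_one]
    have g5 : D * n ^ (1 - κ₀) / t ≤ D / t * n ^ (1 - κ₁) := by
      have g6 : n ^ (1 - κ₀) ≤ n ^ (1 - κ₁) := by
        apply Real.rpow_le_rpow_of_exponent_le hn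
        have := min_le_left κ₀ (t * ε₄ / Real.log R)
        rw [hκ₁]; linarith
      calc D * n ^ (1 - κ₀) / t = D / t * n ^ (1 - κ₀) := by ring
        _ ≤ _ := mul_le_mul_of_nonneg_left g6 (by positivity)
    have g8 : T ≤ C₁ * n ^ (1 - κ₁) := by
      refine hT.trans (mul_le_mul_of_nonneg_left ?_ (by linarith))
      apply Real.rpow_le_rpow_of_exponent_le hn
      have h1 := min_le_left κ₀ (t * ε₄ / Real.log R)
      have h2 := min_le_left (ε₂ * η) ε₃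
      have h3 : ε₂ * η ≤ ε₂ * 1 := mul_le_mul_of_nonneg_left hη1 h₂.le
      rw [hκ₁]; linarith
    have g7 : C₂ * n ^ (1 - κ₁) =
        C₁ * n ^ (1 - κ₁) + D / t * n ^ (1 - κ₁) + C₁ * n ^ (1 - κ₁) := by
      rw [hC₂]; ring
    linarith
  -- end
  have hxJ : 0 < x J ^ t := Real.rpow_pos_of_pos (hx0 J) _
  have hMt : (M' : ℝ) ^ t * (P J + T) ≤ (C₁ * n) ^ t * (C₂ * n ^ (1 - κ₁)) := by
    have h1 : (M' : ℝ) ^ t * x J ^ t ≤ (C₁ * n) ^ t := by
      rw [← Real.mul_rpow (Nat.cast_nonneg _) (hx0 J).le]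
      exact Real.rpow_le_rpow (mul_nonneg (Nat.cast_nonneg _) (hx0 J).le) hM' ht.le
    have h2 : P J = x J ^ t * Q J := by rw [hQ]; field_simp
    have h3 : T ≤ x J ^ t * T := by
      have := Real.one_le_rpow (hx1 J) ht.le
      nlinarith
    calc (M' : ℝ) ^ t * (P J + T) ≤ (M' : ℝ) ^ t * (x J ^ t * Q J + x J ^ t * T) := by
          apply mul_le_mul_of_nonneg_left _ (Real.rpow_nonneg (Nat.cast_nonneg _) _)
          linarith
      _ = ((M' : ℝ) ^ t * x J ^ t) * (Q J + T) := by ring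
      _ ≤ (C₁ * n) ^ t * (C₂ * n ^ (1 - κ₁)) :=
          mul_le_mul h1 hQJ (add_nonneg (hQ0 J) hT0) (Real.rpow_nonneg hA0.le _)
  have hV1 : V ^ (1 + t) ≤ K * C₁ ^ t * C₂ * n ^ (1 + t - κ₁) := by
    calc V ^ (1 + t) ≤ K * (M' : ℝ) ^ t * (P J + T) := hend
      _ = K * ((M' : ℝ) ^ t * (P J + T)) := by ring
      _ ≤ K * ((C₁ * n) ^ t * (C₂ * n ^ (1 - κ₁))) :=
          mul_le_mul_of_nonneg_left hMt (by linarith)
      _ = K * C₁ ^ t * C₂ * (n ^ t * n ^ (1 - κ₁)) := by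
          rw [Real.mul_rpow (by linarith) hn0.le]; ring
      _ = _ := by
          rw [← Real.rpow_add hn0]
          congr 2
          ring
  have h1t : 0 < 1 + t := by linarith
  calc V = (V ^ (1 + t)) ^ (1 / (1 + t)) := by
        rw [← Real.rpow_mul hV, mul_one_div_cancel h1t.ne', Real.rpow_one]
    _ ≤ (K * C₁ ^ t * C₂ * n ^ (1 + t - κ₁)) ^ (1 / (1 + t)) :=
        Real.rpow_le_rpow (Real.rpow_nonneg hV _) hV1 (by positivity)
    _ = (K * C₁ ^ t * C₂) ^ (1 / (1 + t)) * n ^ (1 - κ₁ / (1 + t)) := by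
        rw [Real.mul_rpow (by positivity) (Real.rpow_nonneg hn0.le _), ← Real.rpow_mul hn0.le]
        congr 2
        field_simp

end Pool.Agent.FPZ
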