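import Pool.Agent.FPP.ES

/-!
Module R8Exp (section 8): exponential lower tail from Efron-Stein (Aida-Stroock / Ledoux iteration; no entropy needed).

Hypothesis: resampling coordinate `i` increases `Z` by at most `D i ω` (`ω` = configuration BEFORE resampling) and
`∑ i, D i ω ^ 2 ≤ v`.  Conclusion: `P(Z ≤ E Z - x) ≤ 3 exp(-x/√v)`.

PROOF. `M(μ) := Ex (fun ω => exp (-μ Z ω))`, `μ > 0`, `G = exp(-μ Z/2)`, so `Ex G² = M(μ)`, `Ex G = M(μ/2)`.
(1) Efron-Stein gives `M(μ) - M(μ/2)² ≤ (μ² v/4) M(μ)`.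
(2) `μ_j = 2^{-j}/√v`: `M(μ_j)(1 - 4^{-j-1}) ≤ M(μ_{j+1})²`, and `1/(1-y) ≤ exp(4y/3)` for `0 ≤ y ≤ 1/4`; so
`M(μ_0) ≤ exp((1/3) ∑_{j<k} 2^{-j}) M(μ_k)^{2^k} ≤ exp(2/3) M(μ_k)^{2^k}` (induction on k).
(3) `|Z| ≤ B`: for `μ B ≤ 1`, `M(μ) ≤ 1 - μ EZ + μ² B² ≤ exp(-μ EZ + μ² B²)`, so
`M(μ_k)^{2^k} ≤ exp(-μ_0 EZ + μ_0² B² 2^{-k})`; let `k → ∞`: `M(μ_0) ≤ exp(2/3 - μ_0 EZ)`.
(4) Markov: `P(Z ≤ EZ - x) ≤ exp(μ_0(EZ - x)) M(μ_0) ≤ exp(2/3) exp(-x/√v)`, `exp(2/3) ≤ 3`.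
-/

set_option autoImplicit false

noncomputable section

namespace Pool.Agent.FPZ

open Finset Pool.FPP

section

variable {ι α : Type*} [Fintype ι] [DecidableEq ι] [Fintype α] [Nonempty α]

/-- the moment generating function -/
def mgf8 (Z : (ι → α) → ℝ) (μ : ℝ) : ℝ := Ex (fun ω => Real.exp (-(μ * Z ω)))

private theorem Ex_pos8 {f : (ι → α) → ℝ} (h : ∀ x, 0 < f x) : 0 < Ex f := by
  unfold Ex
  apply div_pos
  · exact Finset.sum_pos (fun x _ => h x) Finset.univ_nonempty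
  · exact_mod_cast Fintype.card_pos

theorem mgf8_pos (Z : (ι → α) → ℝ) (μ : ℝ) : 0 < mgf8 Z μ :=
  Ex_pos8 fun x => Real.exp_pos _

private theorem av_neg8 (A : Finset ι) (f : (ι → α) → ℝ) (ω : ι → α) :
    av A (fun ω => -f ω) ω = -av A f ω := by
  have := av_mul_left A (-1) f ω
  simpa using this

private theorem res_single (i : ι) (w : ι → α × α) :
    res {i} w = Function.update (fstc w) i (sndc w i) := by
  funext j
  unfold res mix
  by_cases h : j = i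
  · subst h; simp
  · simp [h]

/-- step (1) -/
theorem mgf8_step (Z : (ι → α) → ℝ) (D : ι → (ι → α) → ℝ)
    (hD : ∀ i ω x, Z (Function.update ω i x) ≤ Z ω + D i ω) (hD0 : ∀ i ω, 0 ≤ D i ω)
    {v : ℝ} (hsum : ∀ ω, ∑ i, D i ω ^ 2 ≤ v) {μ : ℝ} (hμ : 0 ≤ μ) :
    mgf8 Z μ - mgf8 Z (μ / 2) ^ 2 ≤ μ ^ 2 * v / 4 * mgf8 Z μ := by
  set G : (ι → α) → ℝ := fun ω => Real.exp (-(μ / 2 * Z ω)) with hG
  have hG2 : ∀ ω, G ω ^ 2 = Real.exp (-(μ * Z ω)) := by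
    intro ω
    rw [hG]
    simp only
    rw [← Real.exp_nat_mul]
    congr 1
    push_cast
    ring
  have hM : mgf8 Z μ = Ex (fun ω => G ω ^ 2) := by
    unfold mgf8
    congr 1
    funext ω
    rw [hG2]
  have hM2 : mgf8 Z (μ / 2) = Ex G := rfl
  have hvar : Ex (fun ω => (G ω - Ex G) ^ 2) = Ex (fun ω => G ω ^ 2) - Ex G ^ 2 := by
    have : (fun ω => (G ω - Ex G) ^ 2) = fun ω => G ω ^ 2 + ((Ex G) ^ 2 - 2 * Ex G * G ω) := by
      funext ω; ring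
    rw [this, Ex_add, Ex_sub, Ex_const, Ex_mul_left]
    ring
  have hU : U (fun i : ι => ({i} : Finset ι)) univ = univ := by
    ext i
    simp [U]
  have hes := efron_stein_Ex (fun i : ι => ({i} : Finset ι))
    (fun i j hij => by simpa using hij) univ hU G
  have hterm : ∀ i : ι, Ex (fun ω => (G ω - av {i} G ω) ^ 2) ≤
      Ex (fun w : ι → α × α => μ ^ 2 / 4 * (G (fstc w) ^ 2 * D i (fstc w) ^ 2)) := by
    intro i
    have h1 := Ex_inc_sq ({i} : Finset ι) (fun ω => -G ω)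
    have h2 : (fun ω => (-G ω - av {i} (fun ω => -G ω) ω) ^ 2) =
        fun ω => (G ω - av {i} G ω) ^ 2 := by
      funext ω
      rw [av_neg8]
      ring
    rw [h2] at h1
    rw [← h1]
    refine Ex_mono fun w => ?_
    have hr : Z (res {i} w) ≤ Z (fstc w) + D i (fstc w) := by
      rw [res_single]
      exact hD i _ _
    have hg : G (fstc w) * (1 - μ / 2 * D i (fstc w)) ≤ G (res {i} w) := by
      have e1 : G (fstc w) * Real.exp (-(μ / 2 * D i (fstc w))) ≤ G (res {i} w) := by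
        rw [hG]
        simp only
        rw [← Real.exp_add]
        apply Real.exp_le_exp.2
        nlinarith
      refine le_trans ?_ e1
      apply mul_le_mul_of_nonneg_left _ (Real.exp_pos _).le
      have := Real.add_one_le_exp (-(μ / 2 * D i (fstc w)))
      linarith
    have hpos : 0 ≤ G (fstc w) * (μ / 2 * D i (fstc w)) :=
      mul_nonneg (Real.exp_pos _).le (mul_nonneg (by linarith) (hD0 _ _))
    have hinc : inc {i} (fun ω => -G ω) w ≤ G (fstc w) * (μ / 2 * D i (fstc w)) := by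
      unfold inc
      apply max_le hpos
      linarith
    have hinc0 : 0 ≤ inc {i} (fun ω => -G ω) w := le_max_left _ _
    calc inc {i} (fun ω => -G ω) w ^ 2 ≤ (G (fstc w) * (μ / 2 * D i (fstc w))) ^ 2 :=
          pow_le_pow_left₀ hinc0 hinc 2
      _ = μ ^ 2 / 4 * (G (fstc w) ^ 2 * D i (fstc w) ^ 2) := by ring
  have hall : ∑ i : ι, Ex (fun ω => (G ω - av {i} G ω) ^ 2) ≤ μ ^ 2 * v / 4 * mgf8 Z μ := by
    calc ∑ i : ι, Ex (fun ω => (G ω - av {i} G ω) ^ 2)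
        ≤ ∑ i : ι, Ex (fun w : ι → α × α => μ ^ 2 / 4 * (G (fstc w) ^ 2 * D i (fstc w) ^ 2)) :=
          Finset.sum_le_sum fun i _ => hterm i
      _ = Ex (fun w : ι → α × α => ∑ i : ι, μ ^ 2 / 4 * (G (fstc w) ^ 2 * D i (fstc w) ^ 2)) := by
          rw [Ex_sum]
      _ ≤ Ex (fun w : ι → α × α => μ ^ 2 * v / 4 * G (fstc w) ^ 2) := by
          refine Ex_mono fun w => ?_
          rw [← Finset.mul_sum, ← Finset.mul_sum]
          have h := hsum (fstc w)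
          have h3 : 0 ≤ μ ^ 2 / 4 * G (fstc w) ^ 2 := by positivity
          have := mul_le_mul_of_nonneg_left h h3
          linarith
      _ = μ ^ 2 * v / 4 * mgf8 Z μ := by
          rw [Ex_mul_left, Ex_fstc (fun ω => G ω ^ 2), hM]
  rw [hvar] at hes
  rw [hM2]
  linarith

omit [Fintype ι] [DecidableEq ι] [Fintype α] [Nonempty α] in
private theorem inv8 {y : ℝ} (h0 : 0 ≤ y) (h1 : y ≤ 1 / 4) : 1 ≤ (1 - y) * Real.exp (4 * y / 3) := by
  have h := Real.add_one_le_exp (4 * y / 3)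
  have h2 : (1 - y) * (4 * y / 3 + 1) ≤ (1 - y) * Real.exp (4 * y / 3) :=
    mul_le_mul_of_nonneg_left h (by linarith)
  nlinarith

/-- step (2) -/
theorem mgf8_iter (Z : (ι → α) → ℝ) (D : ι → (ι → α) → ℝ)
    (hD : ∀ i ω x, Z (Function.update ω i x) ≤ Z ω + D i ω) (hD0 : ∀ i ω, 0 ≤ D i ω)
    {v : ℝ} (hsum : ∀ ω, ∑ i, D i ω ^ 2 ≤ v) {μ : ℝ} (hμ : 0 ≤ μ) (hμv : μ ^ 2 * v = 1) (k : ℕ) :
    mgf8 Z μ ≤ Real.exp (2 / 3 * (1 - 1 / 2 ^ k)) * mgf8 Z (μ / 2 ^ k) ^ (2 ^ k) := by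
  induction k with
  | zero => simp
  | succ k ih =>
    refine ih.trans ?_
    have hy0 : (0 : ℝ) < 1 / 4 ^ (k + 1) := by positivity
    have hy1 : (1 : ℝ) / 4 ^ (k + 1) ≤ 1 / 4 := by
      rw [pow_succ]
      have : (1 : ℝ) ≤ 4 ^ k := one_le_pow₀ (by norm_num)
      apply one_div_le_one_div_of_le (by norm_num)
      linarith
    have hs := mgf8_step Z D hD hD0 hsum (μ := μ / 2 ^ k) (by positivity)
    have e1 : (μ / 2 ^ k) ^ 2 * v / 4 = 1 / 4 ^ (k + 1) := by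
      have h4 : ((2 : ℝ) ^ k) ^ 2 = 4 ^ k := by
        rw [← pow_mul, mul_comm, pow_mul]; norm_num
      have h5 : (4 : ℝ) ^ (k + 1) = 4 ^ k * 4 := pow_succ _ _
      rw [div_pow, h4, h5]
      have : (4 : ℝ) ^ k ≠ 0 := by positivity
      field_simp
      linarith
    have e2 : μ / 2 ^ k / 2 = μ / 2 ^ (k + 1) := by
      rw [pow_succ]; field_simp
    rw [e1, e2] at hs
    set M0 := mgf8 Z (μ / 2 ^ k) with hM0
    set M1 := mgf8 Z (μ / 2 ^ (k + 1)) with hM1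
    have hM0p : 0 < M0 := mgf8_pos _ _
    have hb : M0 ≤ Real.exp (4 * (1 / 4 ^ (k + 1)) / 3) * M1 ^ 2 := by
      have h1 := inv8 hy0.le hy1
      have hE := Real.exp_pos (4 * ((1 : ℝ) / 4 ^ (k + 1)) / 3)
      calc M0 ≤ ((1 - 1 / 4 ^ (k + 1)) * Real.exp (4 * (1 / 4 ^ (k + 1)) / 3)) * M0 := by
            nlinarith
        _ = Real.exp (4 * (1 / 4 ^ (k + 1)) / 3) * ((1 - 1 / 4 ^ (k + 1)) * M0) := by ring
        _ ≤ Real.exp (4 * (1 / 4 ^ (k + 1)) / 3) * M1 ^ 2 := by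
            apply mul_le_mul_of_nonneg_left _ hE.le
            linarith
    have hb2 : M0 ^ (2 ^ k) ≤ (Real.exp (4 * (1 / 4 ^ (k + 1)) / 3) * M1 ^ 2) ^ (2 ^ k) :=
      pow_le_pow_left₀ hM0p.le hb _
    rw [mul_pow, ← pow_mul, ← Real.exp_nat_mul] at hb2
    calc Real.exp (2 / 3 * (1 - 1 / 2 ^ k)) * M0 ^ (2 ^ k)
        ≤ Real.exp (2 / 3 * (1 - 1 / 2 ^ k)) *
          (Real.exp (((2 ^ k : ℕ) : ℝ) * (4 * (1 / 4 ^ (k + 1)) / 3)) * M1 ^ (2 * 2 ^ k)) :=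
          mul_le_mul_of_nonneg_left hb2 (Real.exp_pos _).le
      _ = Real.exp (2 / 3 * (1 - 1 / 2 ^ (k + 1))) * M1 ^ (2 ^ (k + 1)) := by
          rw [← mul_assoc, ← Real.exp_add]
          congr 1
          · congr 1
            push_cast
            have h4 : (4 : ℝ) ^ (k + 1) = 4 * (2 ^ k * 2 ^ k) := by
              rw [pow_succ, ← mul_pow]; norm_num; ring
            rw [h4, pow_succ]
            have : (2 : ℝ) ^ k ≠ 0 := by positivity
            field_simp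
            ring
          · rw [pow_succ, mul_comm]

/-- step (3) -/
theorem mgf8_le (Z : (ι → α) → ℝ) (D : ι → (ι → α) → ℝ)
    (hD : ∀ i ω x, Z (Function.update ω i x) ≤ Z ω + D i ω) (hD0 : ∀ i ω, 0 ≤ D i ω)
    {v : ℝ} (hsum : ∀ ω, ∑ i, D i ω ^ 2 ≤ v) {μ : ℝ} (hμ : 0 ≤ μ) (hμv : μ ^ 2 * v = 1) :
    mgf8 Z μ ≤ Real.exp (2 / 3 - μ * Ex Z) := by
  obtain ⟨B, hB0, hB⟩ : ∃ B : ℝ, 0 ≤ B ∧ ∀ ω, |Z ω| ≤ B :=
    ⟨∑ ω, |Z ω|, Finset.sum_nonneg fun _ _ => abs_nonneg _,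
      fun ω => Finset.single_le_sum (f := fun ω => |Z ω|) (fun _ _ => abs_nonneg _) (mem_univ ω)⟩
  rw [← Real.log_le_iff_le_exp (mgf8_pos _ _)]
  refine le_of_forall_pos_le_add fun ε hε => ?_
  obtain ⟨k, hk⟩ : ∃ k : ℕ, max (μ * B) (μ ^ 2 * B ^ 2 / ε) < 2 ^ k :=
    pow_unbounded_of_one_lt _ (by norm_num)
  have h2k : (0 : ℝ) < 2 ^ k := by positivity
  have hk1 : μ / 2 ^ k * B ≤ 1 := by
    have := (le_max_left _ _).trans hk.le
    rw [div_mul_eq_mul_div, div_le_one h2k]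
    exact this
  have hk2 : μ ^ 2 * B ^ 2 / 2 ^ k ≤ ε := by
    have h1 := (le_max_right (μ * B) _).trans hk.le
    rw [div_le_iff₀ hε] at h1
    rw [div_le_iff₀ h2k]
    linarith
  rw [Real.log_le_iff_le_exp (mgf8_pos _ _)]
  refine (mgf8_iter Z D hD hD0 hsum hμ hμv k).trans ?_
  have hm : mgf8 Z (μ / 2 ^ k) ≤ Real.exp (-(μ / 2 ^ k * Ex Z) + (μ / 2 ^ k) ^ 2 * B ^ 2) := by
    have h1 : mgf8 Z (μ / 2 ^ k) ≤
        Ex (fun ω => 1 + (-(μ / 2 ^ k)) * Z ω + (μ / 2 ^ k) ^ 2 * B ^ 2) := by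
      refine Ex_mono fun ω => ?_
      have hx : |-(μ / 2 ^ k * Z ω)| ≤ 1 := by
        rw [abs_neg, abs_mul, abs_of_nonneg (by positivity : (0 : ℝ) ≤ μ / 2 ^ k)]
        exact (mul_le_mul_of_nonneg_left (hB ω) (by positivity)).trans hk1
      have h2 := Real.abs_exp_sub_one_sub_id_le hx
      have h3 := (le_abs_self _).trans h2
      have h4 : (-(μ / 2 ^ k * Z ω)) ^ 2 ≤ (μ / 2 ^ k) ^ 2 * B ^ 2 := by
        rw [neg_sq, mul_pow]
        apply mul_le_mul_of_nonneg_left _ (sq_nonneg _)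
        exact sq_le_sq' (by have := neg_le_of_abs_le (hB ω); linarith)
          ((le_abs_self _).trans (hB ω))
      linarith
    have h5 : Ex (fun ω => 1 + (-(μ / 2 ^ k)) * Z ω + (μ / 2 ^ k) ^ 2 * B ^ 2) =
        (-(μ / 2 ^ k * Ex Z) + (μ / 2 ^ k) ^ 2 * B ^ 2) + 1 := by
      rw [Ex_add, Ex_add, Ex_const, Ex_const, Ex_mul_left]
      ring
    rw [h5] at h1
    exact h1.trans (Real.add_one_le_exp _)
  have hm2 : mgf8 Z (μ / 2 ^ k) ^ (2 ^ k) ≤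
      Real.exp (-(μ * Ex Z) + μ ^ 2 * B ^ 2 / 2 ^ k) := by
    refine (pow_le_pow_left₀ (mgf8_pos _ _).le hm _).trans (le_of_eq ?_)
    rw [← Real.exp_nat_mul]
    congr 1
    push_cast
    field_simp
  calc Real.exp (2 / 3 * (1 - 1 / 2 ^ k)) * mgf8 Z (μ / 2 ^ k) ^ (2 ^ k)
      ≤ Real.exp (2 / 3) * Real.exp (-(μ * Ex Z) + μ ^ 2 * B ^ 2 / 2 ^ k) := by
        apply mul_le_mul _ hm2 (pow_nonneg (mgf8_pos _ _).le _) (Real.exp_pos _).le
        apply Real.exp_le_exp.2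
        have : (0 : ℝ) < 1 / 2 ^ k := by positivity
        linarith
    _ ≤ Real.exp (2 / 3 - μ * Ex Z + ε) := by
        rw [← Real.exp_add]
        apply Real.exp_le_exp.2
        linarith

end

theorem exp_lower_tail {ι α : Type*} [Fintype ι] [DecidableEq ι] [Fintype α] [Nonempty α]
    (Z : (ι → α) → ℝ) (D : ι → (ι → α) → ℝ)
    (hD : ∀ i ω x, Z (Function.update ω i x) ≤ Z ω + D i ω) (hD0 : ∀ i ω, 0 ≤ D i ω)
    {v : ℝ} (hv : 0 < v) (hsum : ∀ ω, ∑ i, D i ω ^ 2 ≤ v) (x : ℝ) :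
    Ex (fun ω => if Z ω ≤ Ex Z - x then (1 : ℝ) else 0) ≤ 3 * Real.exp (-(x / Real.sqrt v)) := by
  set μ : ℝ := 1 / Real.sqrt v with hμ
  have hsv : 0 < Real.sqrt v := Real.sqrt_pos.2 hv
  have hμ0 : 0 ≤ μ := by positivity
  have hμv : μ ^ 2 * v = 1 := by
    rw [hμ, div_pow, Real.sq_sqrt hv.le, one_pow]
    field_simp
  have h := mgf8_le Z D hD hD0 hsum hμ0 hμv
  have h1 : Ex (fun ω => if Z ω ≤ Ex Z - x then (1 : ℝ) else 0) ≤
      Ex (fun ω => Real.exp (μ * (Ex Z - x)) * Real.exp (-(μ * Z ω))) := by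
    refine Ex_mono fun ω => ?_
    rw [← Real.exp_add]
    by_cases hz : Z ω ≤ Ex Z - x
    · rw [if_pos hz]
      apply Real.one_le_exp
      nlinarith
    · rw [if_neg hz]
      exact (Real.exp_pos _).le
  rw [Ex_mul_left] at h1
  refine h1.trans ?_
  calc Real.exp (μ * (Ex Z - x)) * Ex (fun ω => Real.exp (-(μ * Z ω)))
      ≤ Real.exp (μ * (Ex Z - x)) * Real.exp (2 / 3 - μ * Ex Z) :=
        mul_le_mul_of_nonneg_left h (Real.exp_pos _).le
    _ = Real.exp (2 / 3) * Real.exp (-(x / Real.sqrt v)) := by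
        rw [← Real.exp_add, ← Real.exp_add]
        congr 1
        rw [hμ]
        ring
    _ ≤ 3 * Real.exp (-(x / Real.sqrt v)) := by
        apply mul_le_mul_of_nonneg_right _ (Real.exp_pos _).le
        have h2 : Real.exp (2 / 3) ≤ Real.exp 1 := Real.exp_le_exp.2 (by norm_num)
        have h3 := Real.exp_one_lt_d9
        linarith

end Pool.Agent.FPZ
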