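import Pool.Agent.FPZ.R8Sym
import Pool.Agent.FPZ.R8Exp
import Pool.Agent.FPZ.Geo

/-!
Module R8Low (section 8): lower tail of the passage time at scale `l`. Uses GEO (helper28: geodesics exist, their edges are
distinct, `a * length ≤ dst ≤ b * nrm`).

PROOF. `dst_update_le`: the chosen geodesic `p` (length `n`) of `ω` is a path for `update ω i t`; its cost changes only on the
edges with `red N e = i`, by at most `b - a` each. Two different edges of the path with the same reduction differ by a nonzero
vector of `(N ℤ)²`, but all vertices of the path are at distance `≤ n < N` of each other; the edges of a geodesic are distinct, so there is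
at most one time `k < n` with `red N (edg (p k) (p (k+1))) = i`, and none if `i ∉ (ges ..).image (red N)`.
`lower_tail`: `exp_lower_tail` with `D i ω = (b-a) 1{i ∈ (ges (env wt ω) x y).image (red N)}`,
`∑ D i ω ^ 2 ≤ (b-a)² n ≤ (b-a)² (b/a) l =: v`; `gl ≤ (b/a) nrm (y-x) ≤ (b/a) l < N`. `√v = (b-a) √((b/a) l)`.
-/

set_option autoImplicit false

noncomputable section

namespace Pool.Agent.FPZ

open Finset Pool.FPP

variable {N : ℕ} [NeZero N] {Al : Type} [Fintype Al] [Nonempty Al]

private theorem low_fst {x y : V} (h : adj x y) : (edg x y).1 = x ∨ (edg x y).1 = y := by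
  rw [sym_adj_iff] at h
  obtain ⟨x1, x2⟩ := x
  obtain ⟨y1, y2⟩ := y
  unfold edg
  simp only [Prod.mk.injEq] at h ⊢
  omega

omit [NeZero N] in
private theorem low_red {e e' : E} (h : red N e = red N e') (hn : nrm (e'.1 - e.1) < N) :
    e = e' := by
  obtain ⟨⟨x1, x2⟩, s⟩ := e
  obtain ⟨⟨y1, y2⟩, s'⟩ := e'
  unfold red at h
  simp only [Prod.mk.injEq] at h
  obtain ⟨⟨h1, h2⟩, h3⟩ := h
  unfold nrm at hn
  simp only [Prod.fst_sub, Prod.snd_sub] at hn
  have d1 : (N : ℤ) ∣ y1 - x1 := by
    rw [← ZMod.intCast_zmod_eq_zero_iff_dvd]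
    push_cast
    rw [h1, sub_self]
  have d2 : (N : ℤ) ∣ y2 - x2 := by
    rw [← ZMod.intCast_zmod_eq_zero_iff_dvd]
    push_cast
    rw [h2, sub_self]
  have e1 := Int.eq_zero_of_abs_lt_dvd d1 (by rw [abs_lt]; omega)
  have e2 := Int.eq_zero_of_abs_lt_dvd d2 (by rw [abs_lt]; omega)
  rw [h3, show x1 = y1 by omega, show x2 = y2 by omega]

/-- at most one time of the chosen geodesic uses the torus edge `i` -/
private theorem low_one {a b : ℝ} (ha : 0 < a) {A : E → ℝ} (hA : Bd a b A) {n : ℕ} {p : ℕ → V}
    {x y : V} (hG : IsGeo A n p x y) (hN : n < N) {k k' : ℕ} (hk : k < k') (hk' : k' < n)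
    (h : red N (edg (p k) (p (k + 1))) = red N (edg (p k') (p (k' + 1)))) : False := by
  have hadj := hG.1.2.2
  have h1 := low_fst (hadj k (by omega))
  have h2 := low_fst (hadj k' hk')
  have key : ∀ i j : ℕ, i ≤ j → j ≤ n → nrm (p j - p i) ≤ n := fun i j hij hj =>
    (path_nrm hG.1 hij hj).trans (by omega)
  have hnrm : nrm ((edg (p k') (p (k' + 1))).1 - (edg (p k) (p (k + 1))).1) < N := by
    rcases h1 with h1 | h1 <;> rcases h2 with h2 | h2 <;> rw [h1, h2]
    · exact lt_of_le_of_lt (key _ _ (by omega) (by omega)) hN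
    · exact lt_of_le_of_lt (key _ _ (by omega) (by omega)) hN
    · exact lt_of_le_of_lt (key _ _ (by omega) (by omega)) hN
    · exact lt_of_le_of_lt (key _ _ (by omega) (by omega)) hN
  have h3 := low_red h hnrm
  have h4 := geo_edge_inj (fun e => ha.trans_le (hA e).1) hG (by omega : k < n) hk' h3
  omega

omit [Fintype Al] [Nonempty Al] in
open Classical in
theorem dst_update_le {a b : ℝ} (ha : 0 < a) {wt : Al → ℝ} (hw : ∀ x, a ≤ wt x ∧ wt x ≤ b)
    (ω : Ix N → Al) (i : Ix N) (t : Al) (x y : V) (hN : gl (env wt ω) x y < N) :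
    dst (env wt (Function.update ω i t)) x y ≤ dst (env wt ω) x y +
      (if i ∈ (ges (env wt ω) x y).image (red N) then b - a else 0) := by
  set A := env wt ω with hAdef
  set A' := env wt (Function.update ω i t) with hA'def
  have hA : Bd a b A := geo_env hw ω
  have hA' : Bd a b A' := geo_env hw _
  set n := gl A x y with hn
  set p := gp A x y with hp
  have hG : IsGeo A n p x y := geo_isGeo ha hA x y
  have hab : 0 ≤ b - a := by
    have h1 := hw t
    linarith [h1.1, h1.2]
  have h1 : dst A' x y ≤ cost A' 0 n p :=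
    dst_le_cost (fun e => ha.le.trans (hA' e).1) hG.1
  refine h1.trans ?_
  rw [← hG.2]
  unfold cost
  have h2 : ∀ k ∈ Ico 0 n, A' (edg (p k) (p (k + 1))) ≤ A (edg (p k) (p (k + 1))) +
      (if red N (edg (p k) (p (k + 1))) = i then b - a else 0) := by
    intro k _
    by_cases h : red N (edg (p k) (p (k + 1))) = i
    · rw [if_pos h]
      have h3 := (hA (edg (p k) (p (k + 1)))).1
      have h4 := (hA' (edg (p k) (p (k + 1)))).2
      linarith
    · rw [if_neg h, add_zero]
      apply le_of_eq
      rw [hAdef, hA'def]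
      unfold env
      rw [Function.update_of_ne h]
  refine (Finset.sum_le_sum h2).trans ?_
  rw [Finset.sum_add_distrib]
  refine add_le_add le_rfl ?_
  rw [← Finset.sum_filter, Finset.sum_const, nsmul_eq_mul]
  set W := (Ico 0 n).filter (fun k => red N (edg (p k) (p (k + 1))) = i) with hW
  have h5 : W.card ≤ 1 := by
    rw [Finset.card_le_one]
    intro k hk k' hk'
    rw [hW, mem_filter, mem_Ico] at hk hk'
    rcases lt_trichotomy k k' with h | h | h
    · exact absurd (hk.2.trans hk'.2.symm) (fun hh => low_one ha hA hG hN h hk'.1.2 hh)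
    · exact h
    · exact absurd (hk'.2.trans hk.2.symm) (fun hh => low_one ha hA hG hN h hk.1.2 hh)
  split_ifs with hi
  · have h6 : (W.card : ℝ) ≤ 1 := by exact_mod_cast h5
    calc (W.card : ℝ) * (b - a) ≤ 1 * (b - a) := mul_le_mul_of_nonneg_right h6 hab
      _ = b - a := one_mul _
  · have h6 : W = ∅ := by
      rw [hW, Finset.filter_eq_empty_iff]
      intro k hk he
      apply hi
      rw [mem_image]
      refine ⟨edg (p k) (p (k + 1)), ?_, he⟩
      unfold ges eset
      rw [mem_image]
      exact ⟨k, hk, rfl⟩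
    rw [h6, card_empty, Nat.cast_zero, zero_mul]

theorem lower_tail {a b : ℝ} (ha : 0 < a) (hab : a < b) {wt : Al → ℝ}
    (hw : ∀ x, a ≤ wt x ∧ wt x ≤ b) {l : ℕ} (hl : 1 ≤ l) (hN : b / a * l < N) (x y : V)
    (hxy : nrm (y - x) ≤ l) (t : ℝ) :
    Pr (fun ω : Ix N → Al => dst (env wt ω) x y ≤ gE N wt (y - x) - t) ≤
      3 * Real.exp (-(t / ((b - a) * Real.sqrt (b / a * l)))) := by
  classical
  have hb : 0 < b := ha.trans hab
  have hba : 0 < b - a := by linarith
  have hK : 0 < b / a := div_pos hb ha
  have hl1 : (1 : ℝ) ≤ l := by exact_mod_cast hl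
  have hl0 : (0 : ℝ) < l := by linarith
  set v : ℝ := (b - a) ^ 2 * (b / a * l) with hv
  have hv0 : 0 < v := by positivity
  have hgl : ∀ ω : Ix N → Al, (gl (env wt ω) x y : ℝ) ≤ b / a * l := by
    intro ω
    refine (geo_gl_le ha (geo_env hw ω) x y).trans (mul_le_mul_of_nonneg_left ?_ hK.le)
    exact_mod_cast hxy
  have hglN : ∀ ω : Ix N → Al, gl (env wt ω) x y < N := by
    intro ω
    have := (hgl ω).trans_lt hN
    exact_mod_cast this
  have key := exp_lower_tail (fun ω : Ix N → Al => dst (env wt ω) x y)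
    (fun i ω => if i ∈ (ges (env wt ω) x y).image (red N) then b - a else 0)
    (fun i ω t => dst_update_le ha hw ω i t x y (hglN ω))
    (fun i ω => by split_ifs <;> linarith) hv0
    (fun ω => by
      have h1 : ∑ i : Ix N, (if i ∈ (ges (env wt ω) x y).image (red N) then b - a else 0) ^ 2 =
          (((ges (env wt ω) x y).image (red N)).card : ℝ) * (b - a) ^ 2 := by
        have h0 : ∀ i : Ix N, (if i ∈ (ges (env wt ω) x y).image (red N) then b - a else 0) ^ 2 =
            if i ∈ (ges (env wt ω) x y).image (red N) then (b - a) ^ 2 else 0 := by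
          intro i
          split_ifs
          · rfl
          · norm_num
        rw [Finset.sum_congr rfl fun i _ => h0 i, Finset.sum_ite_mem, Finset.univ_inter,
          Finset.sum_const, nsmul_eq_mul]
      rw [h1, hv, mul_comm ((b - a) ^ 2)]
      refine mul_le_mul_of_nonneg_right ?_ (by positivity)
      refine le_trans ?_ (hgl ω)
      have h2 : ((ges (env wt ω) x y).image (red N)).card ≤ gl (env wt ω) x y := by
        refine Finset.card_image_le.trans ?_
        unfold ges eset
        refine Finset.card_image_le.trans ?_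
        rw [Nat.card_Ico]
        omega
      exact_mod_cast h2) t
  have hsq : Real.sqrt v = (b - a) * Real.sqrt (b / a * l) := by
    rw [hv, Real.sqrt_mul (by positivity), Real.sqrt_sq hba.le]
  rw [hsq, Ex_dst] at key
  unfold Pr
  refine le_trans (le_of_eq ?_) key
  congr 1

end Pool.Agent.FPZ
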