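import Pool.Agent.FPZ.R8Ddb
import Pool.Agent.FPZ.R8Low
import Pool.Agent.FPZ.PA4

/-!
Module R8Lq (section 8): `E|F - E_B F|^{2ρ} ≤ C E (#(geodesic ∩ B))^ρ`, `1 ≤ ρ ≤ 3/2`. Uses the Burkholder upper bound of helper56
(PA files: for a finite product, `E|F - E_B F|^{2ρ} ≤ C E (∑ d_i²)^ρ`, `d_i` the differences over an enumeration of `B`)
and `dual_doob`.

PROOF. Enumerate `B = {e_0, …, e_{r-1}}`, `A i = {e_i, …, e_{r-1}}`, `d_i = av (A (i+1)) F - av (A i) F = av (A (i+1)) (F - av {e_i} F)`, so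
`d_i² ≤ av (A (i+1)) (F - av {e_i} F)²`, and `(F - av {e_i} F)² ≤ Ex_x (F ω - F (update ω e_i x))² ≤ 2 κ² (X_i ω + av {e_i} X_i ω)`,
`X_i = 1{e_i ∈ γ ω}` (hypothesis `hF`). So `∑ d_i² ≤ 2κ² (∑ av (A (i+1)) X_i + ∑ av (A i) X_i)`; `(x+y)^ρ ≤ 2^{ρ-1}(x^ρ + y^ρ)` and
`dual_doob` twice: `Ex (∑ d_i²)^ρ ≤ (4 κ²)^ρ ρ^ρ Ex (∑ X_i)^ρ`, `∑ X_i = card (γ ω ∩ B)`.
`GI_bound`: `hF` for `F = Fv wt v`, `γ = GI wt v`, `κ = b - a`: `dst_update_le` in both directions.
-/

set_option autoImplicit false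

noncomputable section

namespace Pool.Agent.FPZ

open Finset Pool.FPP

/-! ### enumeration of a block -/

private def lqA {ι : Type} [DecidableEq ι] (l : List ι) (i : ℕ) : Finset ι := (l.drop i).toFinset

private def lqX {ι α : Type} [DecidableEq ι] (l : List ι) (γ : (ι → α) → Finset ι) (i : ℕ)
    (ω : ι → α) : ℝ :=
  (l[i]?).elim 0 (fun e => if e ∈ γ ω then 1 else 0)

private theorem lqA_anti {ι : Type} [DecidableEq ι] (l : List ι) : Antitone (lqA l) := by
  intro i j hij x hx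
  unfold lqA at hx ⊢
  rw [List.mem_toFinset] at hx ⊢
  exact (List.drop_sublist_drop_left l hij).subset hx

private theorem lqA_succ {ι : Type} [DecidableEq ι] (l : List ι) (i : ℕ) (e : ι)
    (he : l[i]? = some e) : lqA l i = lqA l (i + 1) ∪ {e} := by
  obtain ⟨h1, h2⟩ := List.getElem?_eq_some_iff.mp he
  unfold lqA
  rw [List.drop_eq_getElem_cons h1, h2, List.toFinset_cons, insert_eq, union_comm]

private theorem lqX_nonneg {ι α : Type} [DecidableEq ι] (l : List ι) (γ : (ι → α) → Finset ι)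
    (i : ℕ) (ω : ι → α) : 0 ≤ lqX l γ i ω := by
  unfold lqX
  rcases l[i]? with _ | e
  · simp
  · simp only [Option.elim_some]
    split_ifs <;> norm_num

private theorem lqX_sum {ι α : Type} [DecidableEq ι] (l : List ι) (hl : l.Nodup)
    (γ : (ι → α) → Finset ι) (ω : ι → α) :
    ∑ i ∈ range l.length, lqX l γ i ω = (((γ ω ∩ l.toFinset).card : ℕ) : ℝ) := by
  induction l with
  | nil => simp
  | cons e l ih =>
    rw [List.nodup_cons] at hl
    rw [List.length_cons, Finset.sum_range_succ']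
    have h1 : ∀ i, lqX (e :: l) γ (i + 1) ω = lqX l γ i ω := by
      intro i
      unfold lqX
      rw [List.getElem?_cons_succ]
    simp only [h1]
    rw [ih hl.2, List.toFinset_cons]
    have h2 : lqX (e :: l) γ 0 ω = if e ∈ γ ω then 1 else 0 := by
      unfold lqX
      simp
    rw [h2]
    have h3 : e ∉ l.toFinset := by
      rw [List.mem_toFinset]
      exact hl.1
    by_cases h : e ∈ γ ω
    · rw [if_pos h, Finset.inter_insert_of_mem h, Finset.card_insert_of_notMem]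
      · push_cast
        ring
      · intro h4
        exact h3 (Finset.mem_inter.mp h4).2
    · rw [if_neg h, Finset.inter_insert_of_notMem h, add_zero]

/-- one coordinate -/
private theorem lq_one {ι α : Type} [Fintype ι] [DecidableEq ι] [Fintype α] [Nonempty α]
    (F : (ι → α) → ℝ) (γ : (ι → α) → Finset ι) (κ : ℝ) (e : ι)
    (hF : ∀ ω x, |F (Function.update ω e x) - F ω| ≤
      κ * ((if e ∈ γ ω then 1 else 0) + (if e ∈ γ (Function.update ω e x) then 1 else 0)))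
    (ω : ι → α) :
    (F ω - av {e} F ω) ^ 2 ≤ 2 * κ ^ 2 * ((if e ∈ γ ω then 1 else 0) +
      av {e} (fun ω => if e ∈ γ ω then 1 else 0) ω) := by
  have hmix : ∀ η : ι → α, mix {e} η ω = Function.update ω e (η e) := by
    intro η
    funext i
    by_cases h : i = e
    · subst h
      simp [mix]
    · simp [mix, h]
  have h1 : F ω - av {e} F ω = Ex (fun η : ι → α => F ω - F (mix {e} η ω)) := by
    rw [Ex_sub, Ex_const]
    rfl
  rw [h1]
  refine le_trans (Ex_sq_le _) ?_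
  have h2 : 2 * κ ^ 2 * ((if e ∈ γ ω then 1 else 0) +
      av {e} (fun ω => if e ∈ γ ω then 1 else 0) ω) =
      Ex (fun η : ι → α => 2 * κ ^ 2 * ((if e ∈ γ ω then 1 else 0) +
        (if e ∈ γ (mix {e} η ω) then 1 else 0))) := by
    rw [Ex_mul_left, Ex_add, Ex_const]
    rfl
  rw [h2]
  refine Ex_mono fun η => ?_
  rw [hmix η]
  have h3 := hF ω (η e)
  have h4 : (F ω - F (Function.update ω e (η e))) ^ 2 =
      |F (Function.update ω e (η e)) - F ω| ^ 2 := by
    rw [sq_abs]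
    ring
  rw [h4]
  refine le_trans (pow_le_pow_left₀ (abs_nonneg _) h3 2) ?_
  have hk : 0 ≤ κ ^ 2 := sq_nonneg κ
  split_ifs <;> nlinarith

/-- martingale differences of the enumeration -/
private theorem lq_diff {ι α : Type} [Fintype ι] [DecidableEq ι] [Fintype α] [Nonempty α]
    (F : (ι → α) → ℝ) (γ : (ι → α) → Finset ι) (κ : ℝ)
    (hF : ∀ ω i x, |F (Function.update ω i x) - F ω| ≤
      κ * ((if i ∈ γ ω then 1 else 0) + (if i ∈ γ (Function.update ω i x) then 1 else 0)))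
    (l : List ι) (i : ℕ) (hi : i < l.length) (ω : ι → α) :
    Pool.FPA.Dg (lqA l) F i ω ^ 2 ≤
      2 * κ ^ 2 * (av (lqA l (i + 1)) (lqX l γ i) ω + av (lqA l i) (lqX l γ i) ω) := by
  obtain ⟨e, he⟩ : ∃ e, l[i]? = some e := ⟨l[i], List.getElem?_eq_getElem hi⟩
  have hA := lqA_succ l i e he
  have hX : lqX l γ i = fun ω => if e ∈ γ ω then 1 else 0 := by
    funext ω
    unfold lqX
    rw [he]
    rfl
  have h1 : Pool.FPA.Dg (lqA l) F i ω = av (lqA l (i + 1)) (fun ω => F ω - av {e} F ω) ω := by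
    rw [av_sub]
    unfold Pool.FPA.Dg
    rw [hA, ← av_av]
  rw [h1]
  refine le_trans (av_sq_le _ _ _) ?_
  refine le_trans (av_mono _ (fun ω => lq_one F γ κ e (fun ω x => hF ω e x) ω) ω) ?_
  rw [av_mul_left, av_add]
  have h2 : av (lqA l (i + 1)) (fun ω => av {e} (fun ω => if e ∈ γ ω then (1 : ℝ) else 0) ω) ω =
      av (lqA l i) (fun ω => if e ∈ γ ω then (1 : ℝ) else 0) ω := by
    rw [hA, ← av_av]
  rw [h2, hX]

/-- the sum of the squares in the power `ρ` -/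
private theorem lq_sum {ι α : Type} [Fintype ι] [DecidableEq ι] [Fintype α] [Nonempty α]
    (F : (ι → α) → ℝ) (γ : (ι → α) → Finset ι) (κ : ℝ) (hκ : 0 ≤ κ)
    (hF : ∀ ω i x, |F (Function.update ω i x) - F ω| ≤
      κ * ((if i ∈ γ ω then 1 else 0) + (if i ∈ γ (Function.update ω i x) then 1 else 0)))
    (l : List ι) (hl : l.Nodup) {ρ : ℝ} (hρ : 1 ≤ ρ) (hρ2 : ρ ≤ 3 / 2) :
    Ex (fun ω => (∑ i ∈ range l.length, Pool.FPA.Dg (lqA l) F i ω ^ 2) ^ ρ) ≤
      36 * κ ^ (2 * ρ) * Ex (fun ω => (((γ ω ∩ l.toFinset).card : ℕ) : ℝ) ^ ρ) := by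
  have hρ0 : 0 < ρ := by linarith
  have hk : 0 ≤ κ ^ 2 := sq_nonneg κ
  set n := l.length with hn
  set P : (ι → α) → ℝ := fun ω => ∑ i ∈ range n, av (lqA l (i + 1)) (lqX l γ i) ω with hP
  set Q : (ι → α) → ℝ := fun ω => ∑ i ∈ range n, av (lqA l i) (lqX l γ i) ω with hQ
  have hP0 : ∀ ω, 0 ≤ P ω := fun ω =>
    Finset.sum_nonneg fun i _ => av_nonneg _ (lqX_nonneg l γ i) ω
  have hQ0 : ∀ ω, 0 ≤ Q ω := fun ω =>
    Finset.sum_nonneg fun i _ => av_nonneg _ (lqX_nonneg l γ i) ω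
  have hS : ∀ ω, (∑ i ∈ range n, lqX l γ i ω) = (((γ ω ∩ l.toFinset).card : ℕ) : ℝ) :=
    fun ω => lqX_sum l hl γ ω
  have hPd : Ex (fun ω => P ω ^ ρ) ≤
      ρ ^ ρ * Ex (fun ω => (((γ ω ∩ l.toFinset).card : ℕ) : ℝ) ^ ρ) := by
    have h := dual_doob (fun i => lqA l (i + 1))
      (fun i j hij => lqA_anti l (Nat.succ_le_succ hij)) (lqX l γ) (lqX_nonneg l γ) n hρ
    simp only [hS] at h
    exact h
  have hQd : Ex (fun ω => Q ω ^ ρ) ≤
      ρ ^ ρ * Ex (fun ω => (((γ ω ∩ l.toFinset).card : ℕ) : ℝ) ^ ρ) := by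
    have h := dual_doob (fun i => lqA l i)
      (fun i j hij => lqA_anti l hij) (lqX l γ) (lqX_nonneg l γ) n hρ
    simp only [hS] at h
    exact h
  have hpt : ∀ ω, (∑ i ∈ range n, Pool.FPA.Dg (lqA l) F i ω ^ 2) ^ ρ ≤
      (2 * κ ^ 2) ^ ρ * (2 ^ (ρ - 1) * (P ω ^ ρ + Q ω ^ ρ)) := by
    intro ω
    have h1 : ∑ i ∈ range n, Pool.FPA.Dg (lqA l) F i ω ^ 2 ≤ 2 * κ ^ 2 * (P ω + Q ω) := by
      have h2 : ∑ i ∈ range n, Pool.FPA.Dg (lqA l) F i ω ^ 2 ≤
          ∑ i ∈ range n, 2 * κ ^ 2 * (av (lqA l (i + 1)) (lqX l γ i) ω +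
            av (lqA l i) (lqX l γ i) ω) :=
        Finset.sum_le_sum fun i hi =>
          lq_diff F γ κ hF l i (Finset.mem_range.mp hi) ω
      rw [← Finset.mul_sum, Finset.sum_add_distrib] at h2
      exact h2
    have h3 : (0 : ℝ) ≤ ∑ i ∈ range n, Pool.FPA.Dg (lqA l) F i ω ^ 2 :=
      Finset.sum_nonneg fun i _ => sq_nonneg _
    refine le_trans (Real.rpow_le_rpow h3 h1 hρ0.le) ?_
    rw [Real.mul_rpow (by positivity) (add_nonneg (hP0 ω) (hQ0 ω))]
    refine mul_le_mul_of_nonneg_left ?_ (Real.rpow_nonneg (by positivity) _)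
    have h4 := Pool.FPA.abs_add_rpow_le ρ hρ (P ω) (Q ω)
    rw [abs_of_nonneg (add_nonneg (hP0 ω) (hQ0 ω)), abs_of_nonneg (hP0 ω),
      abs_of_nonneg (hQ0 ω)] at h4
    exact h4
  set T := Ex (fun ω => (((γ ω ∩ l.toFinset).card : ℕ) : ℝ) ^ ρ) with hT
  have hT0 : 0 ≤ T := Ex_nonneg fun ω => Real.rpow_nonneg (Nat.cast_nonneg _) _
  have h5 := Ex_mono hpt
  rw [Ex_mul_left, Ex_mul_left, Ex_add] at h5
  refine le_trans h5 ?_
  have h6 : (2 * κ ^ 2) ^ ρ = 2 ^ ρ * κ ^ (2 * ρ) := by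
    rw [Real.mul_rpow (by norm_num) hk, ← Real.rpow_natCast κ 2, ← Real.rpow_mul hκ]
    norm_num
  have hκ2 : 0 ≤ κ ^ (2 * ρ) := Real.rpow_nonneg hκ _
  have h7 : (2 : ℝ) ^ ρ * 2 ^ (ρ - 1) * 2 = 4 ^ ρ := by
    have e4 : (4 : ℝ) = 2 * 2 := by norm_num
    rw [e4, Real.mul_rpow (by norm_num) (by norm_num), mul_assoc]
    congr 1
    have e5 : (2 : ℝ) ^ (ρ - 1) * 2 = 2 ^ (ρ - 1) * 2 ^ (1 : ℝ) := by
      rw [Real.rpow_one]
    rw [e5, ← Real.rpow_add (by norm_num)]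
    congr 1
    ring
  have h8 : (4 : ℝ) ^ ρ ≤ 16 := by
    have : (4 : ℝ) ^ ρ ≤ 4 ^ (2 : ℝ) :=
      Real.rpow_le_rpow_of_exponent_le (by norm_num) (by linarith)
    refine le_trans this ?_
    norm_num
  have h9 : ρ ^ ρ ≤ 9 / 4 := by
    have h10 : ρ ^ ρ ≤ ρ ^ (2 : ℝ) :=
      Real.rpow_le_rpow_of_exponent_le hρ (by linarith)
    refine le_trans h10 ?_
    have h11 : ρ ^ (2 : ℝ) = ρ ^ 2 := Real.rpow_natCast ρ 2
    rw [h11]
    nlinarith
  have h12 : (4 : ℝ) ^ ρ * ρ ^ ρ ≤ 36 := by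
    have h13 : (4 : ℝ) ^ ρ * ρ ^ ρ ≤ 16 * (9 / 4) :=
      mul_le_mul h8 h9 (Real.rpow_nonneg hρ0.le _) (by norm_num)
    linarith
  have h14 : Ex (fun ω => P ω ^ ρ) + Ex (fun ω => Q ω ^ ρ) ≤ 2 * (ρ ^ ρ * T) := by linarith
  calc (2 * κ ^ 2) ^ ρ * (2 ^ (ρ - 1) * (Ex (fun ω => P ω ^ ρ) + Ex (fun ω => Q ω ^ ρ)))
      ≤ (2 * κ ^ 2) ^ ρ * (2 ^ (ρ - 1) * (2 * (ρ ^ ρ * T))) := by
        refine mul_le_mul_of_nonneg_left ?_ (Real.rpow_nonneg (by positivity) _)
        exact mul_le_mul_of_nonneg_left h14 (Real.rpow_nonneg (by norm_num) _)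
    _ = ((2 : ℝ) ^ ρ * 2 ^ (ρ - 1) * 2) * ρ ^ ρ * (κ ^ (2 * ρ) * T) := by
        rw [h6]
        ring
    _ = (4 : ℝ) ^ ρ * ρ ^ ρ * (κ ^ (2 * ρ) * T) := by rw [h7]
    _ ≤ 36 * (κ ^ (2 * ρ) * T) :=
        mul_le_mul_of_nonneg_right h12 (mul_nonneg hκ2 hT0)
    _ = 36 * κ ^ (2 * ρ) * T := by ring

/-- orthogonality of the differences -/
private theorem lq_two {ι α : Type} [Fintype ι] [DecidableEq ι] [Fintype α] [Nonempty α]
    (F : (ι → α) → ℝ) (A : ℕ → Finset ι) (hA : Antitone A) (n : ℕ) :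
    Ex (fun ω => (av (A n) F ω - av (A 0) F ω) ^ 2) =
      Ex (fun ω => ∑ i ∈ range n, Pool.FPA.Dg A F i ω ^ 2) := by
  have key : ∀ i j, i ≤ j → Ex (fun ω => (av (A j) F ω - av (A i) F ω) ^ 2) =
      Ex (fun ω => (av (A j) F ω) ^ 2) - Ex (fun ω => (av (A i) F ω) ^ 2) := by
    intro i j hij
    have h1 : av (A i) (av (A j) F) = av (A i) F := by
      rw [av_av, Finset.union_eq_left.mpr (hA hij)]
    have h2 := fun ω => av_var (A i) (av (A j) F) ω
    rw [h1] at h2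
    have h3 : Ex (av (A i) (fun ω => (av (A j) F ω - av (A i) F ω) ^ 2)) =
        Ex (fun ω => av (A i) (fun ω => (av (A j) F ω) ^ 2) ω - (av (A i) F ω) ^ 2) := by
      congr 1
      funext ω
      exact h2 ω
    rw [Ex_av, Ex_sub] at h3
    have h4 : Ex (fun ω => av (A i) (fun ω => (av (A j) F ω) ^ 2) ω) =
        Ex (fun ω => (av (A j) F ω) ^ 2) := Ex_av _ _
    rw [h4] at h3
    exact h3
  rw [key 0 n (Nat.zero_le n), Ex_sum]
  have h5 : ∀ i, Ex (fun ω => Pool.FPA.Dg A F i ω ^ 2) =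
      Ex (fun ω => (av (A (i + 1)) F ω) ^ 2) - Ex (fun ω => (av (A i) F ω) ^ 2) :=
    fun i => key i (i + 1) (Nat.le_succ i)
  simp only [h5]
  rw [Finset.sum_range_sub (fun i => Ex (fun ω => (av (A i) F ω) ^ 2))]

theorem lq_block : ∃ C : ℝ, 0 < C ∧ ∀ (ι α : Type) [Fintype ι] [DecidableEq ι] [Fintype α] [Nonempty α]
    (F : (ι → α) → ℝ) (γ : (ι → α) → Finset ι) (κ : ℝ), 0 ≤ κ →
    (∀ ω i x, |F (Function.update ω i x) - F ω| ≤
      κ * ((if i ∈ γ ω then 1 else 0) + (if i ∈ γ (Function.update ω i x) then 1 else 0))) →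
    ∀ (B : Finset ι) (ρ : ℝ), 1 ≤ ρ → ρ ≤ 3 / 2 →
    Ex (fun ω => |F ω - av B F ω| ^ (2 * ρ)) ≤
      C * κ ^ (2 * ρ) * Ex (fun ω => (((γ ω ∩ B).card : ℕ) : ℝ) ^ ρ) := by
  refine ⟨Real.exp 6 * 36, by positivity, ?_⟩
  intro ι α _ _ _ _ F γ κ hκ hF B ρ hρ hρ2
  have hl : B.toList.Nodup := B.nodup_toList
  have hlt : B.toList.toFinset = B := Finset.toList_toFinset B
  have hsum := lq_sum F γ κ hκ hF B.toList hl hρ hρ2
  rw [hlt] at hsum
  have h0 : lqA B.toList 0 = B := by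
    unfold lqA
    rw [List.drop_zero, hlt]
  have hn : lqA B.toList B.toList.length = ∅ := by
    unfold lqA
    rw [List.drop_length, List.toFinset_nil]
  have hmain : Ex (fun ω => |F ω - av B F ω| ^ (2 * ρ)) ≤
      Real.exp 6 * Ex (fun ω => (∑ i ∈ range B.toList.length,
        Pool.FPA.Dg (lqA B.toList) F i ω ^ 2) ^ ρ) := by
    rcases hρ.eq_or_lt with h1 | h1
    · subst h1
      have h2 := lq_two F (lqA B.toList) (lqA_anti B.toList) B.toList.length
      rw [hn, h0, av_empty] at h2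
      have e1 : (fun ω => |F ω - av B F ω| ^ (2 * (1 : ℝ))) =
          fun ω => (F ω - av B F ω) ^ 2 := by
        funext ω
        rw [mul_one]
        have : |F ω - av B F ω| ^ (2 : ℝ) = |F ω - av B F ω| ^ 2 := Real.rpow_natCast _ 2
        rw [this, sq_abs]
      have e2 : (fun ω => (∑ i ∈ range B.toList.length,
          Pool.FPA.Dg (lqA B.toList) F i ω ^ 2) ^ (1 : ℝ)) =
          fun ω => ∑ i ∈ range B.toList.length, Pool.FPA.Dg (lqA B.toList) F i ω ^ 2 := by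
        funext ω
        rw [Real.rpow_one]
      rw [e1, e2, h2]
      have h3 : 0 ≤ Ex (fun ω => ∑ i ∈ range B.toList.length,
          Pool.FPA.Dg (lqA B.toList) F i ω ^ 2) :=
        Ex_nonneg fun ω => Finset.sum_nonneg fun i _ => sq_nonneg _
      have h4 : (1 : ℝ) ≤ Real.exp 6 := Real.one_le_exp (by norm_num)
      nlinarith
    · have ht : 0 < ρ - 1 := by linarith
      have ht1 : ρ - 1 ≤ 1 / 2 := by linarith
      have h2 := Pool.FPA.burkholder (lqA_anti B.toList) F ht ht1 B.toList.length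
      rw [hn, h0, av_empty] at h2
      have e1 : 2 + 2 * (ρ - 1) = 2 * ρ := by ring
      have e2 : 1 + (ρ - 1) = ρ := by ring
      rw [e1, e2] at h2
      refine le_trans h2 ?_
      refine mul_le_mul_of_nonneg_right ?_ ?_
      · exact Real.exp_le_exp.mpr (by linarith)
      · exact Ex_nonneg fun ω => Real.rpow_nonneg (Finset.sum_nonneg fun i _ => sq_nonneg _) _
  refine le_trans hmain ?_
  calc Real.exp 6 * Ex (fun ω => (∑ i ∈ range B.toList.length,
        Pool.FPA.Dg (lqA B.toList) F i ω ^ 2) ^ ρ)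
      ≤ Real.exp 6 * (36 * κ ^ (2 * ρ) * Ex (fun ω => (((γ ω ∩ B).card : ℕ) : ℝ) ^ ρ)) :=
        mul_le_mul_of_nonneg_left hsum (Real.exp_nonneg _)
    _ = Real.exp 6 * 36 * κ ^ (2 * ρ) * Ex (fun ω => (((γ ω ∩ B).card : ℕ) : ℝ) ^ ρ) := by ring

/-! ### the length of a geodesic -/

private theorem lq_adj_right (u : V) : adj u (u.1 + 1, u.2) :=
  ⟨(u, false), Or.inl ⟨rfl, rfl⟩⟩

private theorem lq_adj_up (u : V) : adj u (u.1, u.2 + 1) :=
  ⟨(u, true), Or.inl ⟨rfl, rfl⟩⟩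

private theorem lq_adj_symm {x y : V} (h : adj x y) : adj y x := by
  obtain ⟨e, he⟩ := h
  exact ⟨e, he.symm⟩

private theorem lq_prev (n : ℕ) (v : V) (hv : nrm v = n + 1) :
    ∃ u : V, nrm u = n ∧ adj u v := by
  obtain ⟨x, y⟩ := v
  unfold nrm at hv
  simp only at hv
  rcases lt_trichotomy x 0 with hx | hx | hx
  · refine ⟨(x + 1, y), ?_, ?_⟩
    · unfold nrm
      simp only
      omega
    · exact lq_adj_symm (lq_adj_right (x, y))
  · rcases lt_trichotomy y 0 with hy | hy | hy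
    · refine ⟨(x, y + 1), ?_, ?_⟩
      · unfold nrm
        simp only
        omega
      · exact lq_adj_symm (lq_adj_up (x, y))
    · subst hx hy
      simp at hv
    · refine ⟨(x, y - 1), ?_, ?_⟩
      · unfold nrm
        simp only
        omega
      · have h := lq_adj_up (x, y - 1)
        simpa using h
  · refine ⟨(x - 1, y), ?_, ?_⟩
    · unfold nrm
      simp only
      omega
    · have h := lq_adj_right (x - 1, y)
      simpa using h

private theorem lq_path (n : ℕ) : ∀ v : V, nrm v = n → ∃ p : ℕ → V, IsPath n p 0 v := by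
  induction n with
  | zero =>
    intro v hv
    have h0 : v = 0 := by
      obtain ⟨x, y⟩ := v
      unfold nrm at hv
      simp only at hv
      have hx : x = 0 := by omega
      have hy : y = 0 := by omega
      rw [hx, hy]
      rfl
    refine ⟨fun _ => 0, rfl, h0.symm, ?_⟩
    intro k hk
    exact absurd hk (Nat.not_lt_zero k)
  | succ n ih =>
    intro v hv
    obtain ⟨u, hu, huv⟩ := lq_prev n v hv
    obtain ⟨p, hp0, hpn, hp⟩ := ih u hu
    refine ⟨fun k => if k ≤ n then p k else v, ?_, ?_, ?_⟩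
    · simp [hp0]
    · simp
    · intro k hk
      rcases Nat.lt_succ_iff_lt_or_eq.mp hk with h | h
      · have h1 : k ≤ n := h.le
        have h2 : k + 1 ≤ n := h
        simp only [if_pos h1, if_pos h2]
        exact hp k h
      · subst h
        have h2 : ¬ (k + 1 ≤ k) := by omega
        simp only [le_refl, if_true, if_neg h2]
        rw [hpn]
        exact huv

private theorem lq_gl_le {a b : ℝ} (ha : 0 < a) {A : E → ℝ} (hA : Bd a b A) (v : V) :
    (gl A 0 v : ℝ) ≤ b / a * nrm v := by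
  have hb : 0 < b := lt_of_lt_of_le ha (le_trans (hA ((0, 0), false)).1 (hA ((0, 0), false)).2)
  by_cases h : ∃ q : ℕ × (ℕ → V), IsGeo A q.1 q.2 0 v
  · have hspec := Classical.choose_spec h
    have hgl : gl A 0 v = (Classical.choose h).1 := by
      unfold gl
      rw [dif_pos h]
    rw [hgl]
    set q := Classical.choose h with hq
    have h1 : a * (q.1 : ℝ) ≤ cost A 0 q.1 q.2 := by
      unfold cost
      have h2 : ∑ k ∈ Ico 0 q.1, a ≤ ∑ k ∈ Ico 0 q.1, A (edg (q.2 k) (q.2 (k + 1))) :=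
        Finset.sum_le_sum fun k _ => (hA _).1
      rw [Finset.sum_const, Nat.card_Ico, nsmul_eq_mul, Nat.sub_zero] at h2
      linarith
    obtain ⟨p, hp⟩ := lq_path (nrm v) v rfl
    have h3 : dst A 0 v ≤ cost A 0 (nrm v) p := by
      unfold dst
      refine csInf_le ⟨0, ?_⟩ ⟨nrm v, p, hp, rfl⟩
      rintro t ⟨n, p', _, rfl⟩
      unfold cost
      exact Finset.sum_nonneg fun k _ => le_trans ha.le (hA _).1
    have h4 : cost A 0 (nrm v) p ≤ b * nrm v := by
      unfold cost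
      have h5 : ∑ k ∈ Ico 0 (nrm v), A (edg (p k) (p (k + 1))) ≤ ∑ k ∈ Ico 0 (nrm v), b :=
        Finset.sum_le_sum fun k _ => (hA _).2
      rw [Finset.sum_const, Nat.card_Ico, nsmul_eq_mul, Nat.sub_zero] at h5
      linarith
    have h6 : a * (q.1 : ℝ) ≤ b * nrm v := by
      have h7 : cost A 0 q.1 q.2 = dst A 0 v := hspec.2
      linarith
    rw [div_mul_eq_mul_div, le_div_iff₀ ha]
    linarith
  · have hgl : gl A 0 v = 0 := by
      unfold gl
      rw [dif_neg h]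
    rw [hgl, Nat.cast_zero]
    positivity

theorem GI_bound {N : ℕ} [NeZero N] {Al : Type} [Fintype Al] [Nonempty Al] {a b : ℝ} (ha : 0 < a)
    (hab : a < b) {wt : Al → ℝ} (hw : ∀ x, a ≤ wt x ∧ wt x ≤ b) (v : V) (hN : b / a * nrm v < N)
    (ω : Ix N → Al) (i : Ix N) (x : Al) :
    |Fv wt v (Function.update ω i x) - Fv wt v ω| ≤
      (b - a) * ((if i ∈ GI wt v ω then 1 else 0) +
        (if i ∈ GI wt v (Function.update ω i x) then 1 else 0)) := by
  have hbd : ∀ ω : Ix N → Al, Bd a b (env wt ω) := fun ω e => hw _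
  have hlt : ∀ ω : Ix N → Al, gl (env wt ω) 0 v < N := by
    intro ω
    have h := lt_of_le_of_lt (lq_gl_le ha (hbd ω) v) hN
    exact_mod_cast h
  have key : ∀ (ω : Ix N → Al) (t : Al), Fv wt v (Function.update ω i t) ≤ Fv wt v ω +
      (b - a) * (if i ∈ GI wt v ω then 1 else 0) := by
    intro ω t
    have h := dst_update_le ha hw ω i t 0 v (hlt ω)
    unfold Fv
    by_cases hi : i ∈ GI wt v ω
    · have hi' : i ∈ (ges (env wt ω) 0 v).image (red N) := by
        unfold GI GE at hi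
        convert hi
      rw [if_pos hi'] at h
      rw [if_pos hi, mul_one]
      exact h
    · have hi' : ¬ i ∈ (ges (env wt ω) 0 v).image (red N) := by
        intro h'
        apply hi
        unfold GI GE
        convert h'
      rw [if_neg hi'] at h
      rw [if_neg hi, mul_zero]
      exact h
  have h1 := key ω x
  have h2 := key (Function.update ω i x) (ω i)
  rw [Function.update_idem, Function.update_eq_self] at h2
  have hp : 0 ≤ b - a := by linarith
  have h3 : 0 ≤ (b - a) * (if i ∈ GI wt v ω then 1 else 0) := by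
    split_ifs
    · linarith
    · simp
  have h4 : 0 ≤ (b - a) * (if i ∈ GI wt v (Function.update ω i x) then 1 else 0) := by
    split_ifs
    · linarith
    · simp
  rw [mul_add, abs_le]
  constructor
  · linarith
  · linarith

end Pool.Agent.FPZ
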