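import Pool.Agent.FPZ.R8Reg
import Pool.Agent.FPZ.R8Lq

/-!
Module R8Mom (section 8): the block moments, start of the recursion (exponent `2ρ = 2 + 2t`) and Hölder input for the bad windows
(exponent `2ρ = 2 + 2c'`).

PROOF. `card_GI_inter_le`: `i ∈ GI ∩ blkI N α β` is `red N e` with `e` an edge of the geodesic and `col e.1 ≡ k mod N`, `α ≤ k < β`;
`|col e.1| ≤ 2 (b/a) nrm v < N/4`, `|k| ≤ N/2` so `col e.1 = k` (difference `< N`, divisible by `N`). `e.1` is one of the two vertices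
of a step of the path: at most `2 vis α β` such edges.
`block_moments`: by `lq_block`, `GI_bound` it is enough to bound `∑_m Ex (vis α_m α_{m+1})^ρ`. By `visit`/`visit_out`, with `s_m` the slack of the
enlarged block: `vis ≤ C (L + k^10 + s_m) ≤ C (2L + s_m)` for the at most `C nrm v / L` blocks with `α_m < col v + 8 k^10` and
`α_{m+1} > -8 k^10`, `vis ≤ C s_m` for the others. `(x+y)^ρ ≤ 2 (x^ρ + y^ρ)`. `s_m^ρ ≤ s_m (C (nrm v)²)^{ρ-1}`, and
`∑_m Ex s_m ≤ 18 C nrm v / k` (every column is in at most 18 enlarged blocks as `L ≥ k^10`), `(nrm v)^{2(ρ-1)} ≤ k`.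
-/

set_option autoImplicit false

noncomputable section

namespace Pool.Agent.FPZ

open Finset Pool.FPP

theorem mom_cnt_le {G : Finset ℕ} {L : ℕ} {X Y : ℤ} (hXY : 0 ≤ Y - X + L)
    (h : ∀ m ∈ G, X ≤ (m : ℤ) * L ∧ (m : ℤ) * L ≤ Y) : (G.card : ℤ) * L ≤ Y - X + L := by
  rcases G.eq_empty_or_nonempty with rfl | hG
  · simpa using hXY
  · have hsub : G ⊆ Icc (G.min' hG) (G.max' hG) := by
      intro m hm
      rw [mem_Icc]
      exact ⟨G.min'_le m hm, G.le_max' m hm⟩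
    have h1 := card_le_card hsub
    rw [Nat.card_Icc] at h1
    have h2 := h _ (G.min'_mem hG)
    have h3 := h _ (G.max'_mem hG)
    have h4 : G.min' hG ≤ G.max' hG := G.min'_le _ (G.max'_mem hG)
    have h5 : (G.card : ℤ) ≤ (G.max' hG : ℤ) - (G.min' hG : ℤ) + 1 := by omega
    nlinarith [mul_le_mul_of_nonneg_right h5 (Int.natCast_nonneg L)]

theorem mom_rpow_add_le4 {x y ρ : ℝ} (hx : 0 ≤ x) (hy : 0 ≤ y) (h1 : 1 ≤ ρ) (h2 : ρ ≤ 3 / 2) :
    (x + y) ^ ρ ≤ 4 * (x ^ ρ + y ^ ρ) := by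
  have h3 : (2 : ℝ) ^ ρ ≤ 4 := by
    calc (2 : ℝ) ^ ρ ≤ (2 : ℝ) ^ (2 : ℝ) := Real.rpow_le_rpow_of_exponent_le (by norm_num) (by linarith)
      _ = 4 := by norm_num
  have hx' := Real.rpow_nonneg hx ρ
  have hy' := Real.rpow_nonneg hy ρ
  rcases le_total x y with h | h
  · calc (x + y) ^ ρ ≤ (2 * y) ^ ρ := Real.rpow_le_rpow (by linarith) (by linarith) (by linarith)
      _ = 2 ^ ρ * y ^ ρ := Real.mul_rpow (by norm_num) hy
      _ ≤ 4 * y ^ ρ := mul_le_mul_of_nonneg_right h3 hy'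
      _ ≤ _ := by linarith
  · calc (x + y) ^ ρ ≤ (2 * x) ^ ρ := Real.rpow_le_rpow (by linarith) (by linarith) (by linarith)
      _ = 2 ^ ρ * x ^ ρ := Real.mul_rpow (by norm_num) hx
      _ ≤ 4 * x ^ ρ := mul_le_mul_of_nonneg_right h3 hx'
      _ ≤ _ := by linarith

theorem mom_rpow_le_mul {s C n k ρ : ℝ} (hs : 0 ≤ s) (hC : 1 ≤ C) (hn : 0 ≤ n)
    (hsn : s ≤ C * n ^ 2) (h1 : 1 ≤ ρ) (h2 : ρ ≤ 3 / 2) (hk : n ^ (2 * (ρ - 1)) ≤ k) :
    s ^ ρ ≤ s * (C * k) := by
  rcases hs.eq_or_lt with h0 | h0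
  · rw [← h0, Real.zero_rpow (by linarith)]
    simp
  have h3 : s ^ ρ = s * s ^ (ρ - 1) := by
    rw [Real.rpow_sub_one h0.ne']
    field_simp
  rw [h3]
  refine mul_le_mul_of_nonneg_left ?_ hs
  calc s ^ (ρ - 1) ≤ (C * n ^ 2) ^ (ρ - 1) := Real.rpow_le_rpow hs hsn (by linarith)
    _ = C ^ (ρ - 1) * (n ^ 2) ^ (ρ - 1) := Real.mul_rpow (by linarith) (by positivity)
    _ = C ^ (ρ - 1) * n ^ (2 * (ρ - 1)) := by
        rw [Real.rpow_mul hn]
        norm_num
    _ ≤ C * k := by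
        refine mul_le_mul ?_ hk (Real.rpow_nonneg hn _) (by linarith)
        calc C ^ (ρ - 1) ≤ C ^ (1 : ℝ) := Real.rpow_le_rpow_of_exponent_le hC (by linarith)
          _ = C := Real.rpow_one C

theorem mom_det_sum {C ρ : ℝ} (hC : 1 ≤ C) (h1 : 1 ≤ ρ) (h2 : ρ ≤ 3 / 2) {k K L n M : ℕ}
    {c α : ℤ} (hL1 : 1 ≤ L) (hKL : K ≤ L) (hLn : L ≤ n) (hc0 : 0 ≤ c) (hcn : c ≤ 2 * n)
    (hk : (n : ℝ) ^ (2 * (ρ - 1)) ≤ k) (S : ℤ → ℝ) (hS : ∀ j, 0 ≤ S j)
    (hT : ∀ T : Finset ℤ, ∑ j ∈ T, S j ≤ C * (n : ℝ) ^ 2) (f : ℕ → ℝ) (hf0 : ∀ m, 0 ≤ f m)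
    (hf1 : ∀ m < M, f m ≤ C * ((L : ℝ) + K +
      ∑ j ∈ Ico (α + m * L - 8 * K) (α + (m + 1) * L + 8 * K), S j))
    (hf2 : ∀ m < M, (α + (m + 1) * L + 8 * K ≤ 0 ∨ c + 8 * K ≤ α + m * L) →
      f m ≤ C * ∑ j ∈ Ico (α + m * L - 8 * K) (α + (m + 1) * L + 8 * K), S j) :
    ∑ m ∈ range M, f m ^ ρ ≤ 4 * C ^ 2 * (80 * n * (L : ℝ) ^ (ρ - 1) +
      18 * C * k * ∑ j ∈ Ico (α - 8 * K) (α + M * L + 8 * K), S j) := by
  classical
  set s : ℕ → ℝ := fun m => ∑ j ∈ Ico (α + m * L - 8 * K) (α + (m + 1) * L + 8 * K), S j with hs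
  have hs0 : ∀ m, 0 ≤ s m := fun m => sum_nonneg fun j _ => hS j
  have hL0 : (0 : ℝ) < L := by exact_mod_cast hL1
  have hLr : (0 : ℝ) ≤ (L : ℝ) ^ (ρ - 1) := Real.rpow_nonneg hL0.le _
  have hCρ : C ^ ρ ≤ C ^ 2 := by
    calc C ^ ρ ≤ C ^ (2 : ℝ) := Real.rpow_le_rpow_of_exponent_le hC (by linarith)
      _ = C ^ 2 := by norm_num
  set G := (range M).filter (fun m : ℕ =>
    ¬ (α + (m + 1) * L + 8 * K ≤ 0 ∨ c + 8 * K ≤ α + m * L)) with hG
  -- termwise
  have hterm : ∀ m ∈ range M, f m ^ ρ ≤ 4 * C ^ 2 * ((if m ∈ G then 4 * (L : ℝ) * (L : ℝ) ^ (ρ - 1)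
      else 0) + C * k * s m) := by
    intro m hm
    rw [mem_range] at hm
    have hsk := mom_rpow_le_mul (hs0 m) hC (Nat.cast_nonneg n) (hT _) h1 h2 hk
    by_cases hmG : m ∈ G
    · rw [if_pos hmG]
      have h3 : f m ≤ C * (2 * L + s m) := by
        refine (hf1 m hm).trans (mul_le_mul_of_nonneg_left ?_ (by linarith))
        have : (K : ℝ) ≤ L := by exact_mod_cast hKL
        change (L : ℝ) + K + s m ≤ 2 * L + s m
        linarith
      have h4 : (2 * (L : ℝ)) ^ ρ ≤ 4 * (L : ℝ) * (L : ℝ) ^ (ρ - 1) := by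
        rw [Real.mul_rpow (by norm_num) hL0.le]
        have h5 : (2 : ℝ) ^ ρ ≤ 4 := by
          calc (2 : ℝ) ^ ρ ≤ (2 : ℝ) ^ (2 : ℝ) :=
                Real.rpow_le_rpow_of_exponent_le (by norm_num) (by linarith)
            _ = 4 := by norm_num
        have h6 : (L : ℝ) ^ ρ = L * (L : ℝ) ^ (ρ - 1) := by
          rw [Real.rpow_sub_one hL0.ne']
          field_simp
        rw [h6, mul_assoc]
        exact mul_le_mul_of_nonneg_right h5 (mul_nonneg hL0.le hLr)
      calc f m ^ ρ ≤ (C * (2 * L + s m)) ^ ρ := Real.rpow_le_rpow (hf0 m) h3 (by linarith)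
        _ = C ^ ρ * (2 * L + s m) ^ ρ := Real.mul_rpow (by linarith) (by have := hs0 m; positivity)
        _ ≤ C ^ 2 * (4 * ((2 * (L : ℝ)) ^ ρ + s m ^ ρ)) := by
            refine mul_le_mul hCρ (mom_rpow_add_le4 (by positivity) (hs0 m) h1 h2)
              (Real.rpow_nonneg (by have := hs0 m; positivity) _) (by positivity)
        _ ≤ C ^ 2 * (4 * (4 * (L : ℝ) * (L : ℝ) ^ (ρ - 1) + s m * (C * k))) := by
            refine mul_le_mul_of_nonneg_left ?_ (by positivity)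
            linarith
        _ = _ := by ring
    · rw [if_neg hmG, zero_add]
      have h3 : f m ≤ C * s m := by
        refine hf2 m hm ?_
        by_contra hcon
        exact hmG (by rw [hG, mem_filter, mem_range]; exact ⟨hm, hcon⟩)
      calc f m ^ ρ ≤ (C * s m) ^ ρ := Real.rpow_le_rpow (hf0 m) h3 (by linarith)
        _ = C ^ ρ * s m ^ ρ := Real.mul_rpow (by linarith) (hs0 m)
        _ ≤ C ^ 2 * (s m * (C * k)) := mul_le_mul hCρ hsk (Real.rpow_nonneg (hs0 m) _) (by positivity)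
        _ ≤ _ := by
            have h5 : 0 ≤ C ^ 2 * (s m * (C * k)) := by
              have := hs0 m
              have : 0 ≤ C := by linarith
              positivity
            nlinarith [h5]
  refine (sum_le_sum hterm).trans ?_
  rw [← mul_sum]
  refine mul_le_mul_of_nonneg_left ?_ (by positivity)
  rw [sum_add_distrib]
  refine add_le_add ?_ ?_
  · -- blocks which the path may visit
    rw [← sum_filter, sum_const, nsmul_eq_mul]
    have h3 : ((range M).filter (fun m => m ∈ G)).card ≤ G.card :=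
      card_le_card fun m hm => (mem_filter.1 hm).2
    have h4 : (G.card : ℤ) * L ≤ (c + 8 * K - α) - (-8 * K - L - α) + L := by
      refine mom_cnt_le (by omega) fun m hm => ?_
      rw [hG, mem_filter, not_or] at hm
      obtain ⟨-, h5, h6⟩ := hm
      push Not at h5 h6
      constructor
      · nlinarith
      · linarith
    have h5 : (G.card : ℝ) * L ≤ 20 * n := by
      have h6 : (G.card : ℤ) * L ≤ 20 * n := by
        refine h4.trans ?_
        have : (K : ℤ) ≤ L := by exact_mod_cast hKL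
        have : (L : ℤ) ≤ n := by exact_mod_cast hLn
        linarith
      exact_mod_cast h6
    have h6 : (((range M).filter (fun m => m ∈ G)).card : ℝ) ≤ G.card := by exact_mod_cast h3
    calc (((range M).filter (fun m => m ∈ G)).card : ℝ) * (4 * (L : ℝ) * (L : ℝ) ^ (ρ - 1))
        ≤ (G.card : ℝ) * (4 * (L : ℝ) * (L : ℝ) ^ (ρ - 1)) :=
          mul_le_mul_of_nonneg_right h6 (by positivity)
      _ = 4 * ((G.card : ℝ) * L) * (L : ℝ) ^ (ρ - 1) := by ring
      _ ≤ 4 * (20 * n) * (L : ℝ) ^ (ρ - 1) := by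
          refine mul_le_mul_of_nonneg_right ?_ hLr
          linarith
      _ = _ := by ring
  · -- the slacks
    rw [← mul_sum]
    have h3 : ∑ m ∈ range M, s m ≤ 18 * ∑ j ∈ Ico (α - 8 * K) (α + M * L + 8 * K), S j := by
      have h4 : ∀ m ∈ range M, s m = ∑ j ∈ Ico (α - 8 * K) (α + M * L + 8 * K),
          if α + m * L - 8 * K ≤ j ∧ j < α + (m + 1) * L + 8 * K then S j else 0 := by
        intro m hm
        rw [mem_range] at hm
        rw [← sum_filter]
        refine sum_congr ?_ fun _ _ => rfl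
        ext j
        rw [mem_filter, mem_Ico, mem_Ico]
        refine ⟨fun hj => ⟨⟨?_, ?_⟩, hj⟩, fun hj => hj.2⟩
        · have : (0 : ℤ) ≤ m * L := by positivity
          linarith [hj.1]
        · have h5 : ((m : ℤ) + 1) ≤ M := by exact_mod_cast hm
          have h6 : ((m : ℤ) + 1) * L ≤ M * L := mul_le_mul_of_nonneg_right h5 (by positivity)
          linarith [hj.2]
      rw [sum_congr rfl h4, sum_comm, mul_sum]
      refine sum_le_sum fun j _ => ?_
      rw [← sum_filter, sum_const, nsmul_eq_mul]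
      refine mul_le_mul_of_nonneg_right ?_ (hS j)
      have h5 : ((((range M).filter (fun m : ℕ => α + m * L - 8 * K ≤ j ∧
          j < α + (m + 1) * L + 8 * K)).card : ℕ) : ℤ) * L ≤
          (j - α + 8 * K) - (j - α - L - 8 * K) + L := by
        refine mom_cnt_le (by omega) fun m hm => ?_
        rw [mem_filter] at hm
        obtain ⟨-, h6, h7⟩ := hm
        constructor
        · nlinarith
        · linarith
      have h6 : ((((range M).filter (fun m : ℕ => α + m * L - 8 * K ≤ j ∧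
          j < α + (m + 1) * L + 8 * K)).card : ℕ) : ℤ) * L ≤ 18 * L := by
        refine h5.trans ?_
        have : (K : ℤ) ≤ L := by exact_mod_cast hKL
        linarith
      have h7 : (0 : ℤ) < L := by exact_mod_cast hL1
      have h8 := le_of_mul_le_mul_right h6 h7
      exact_mod_cast h8
    calc C * k * ∑ m ∈ range M, s m
        ≤ C * k * (18 * ∑ j ∈ Ico (α - 8 * K) (α + M * L + 8 * K), S j) := by
          refine mul_le_mul_of_nonneg_left h3 ?_
          have : 0 ≤ C := by linarith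
          positivity
      _ = _ := by ring

private theorem adj_col {x y : V} (h : adj x y) : |col y - col x| ≤ 2 := by
  obtain ⟨e, he | he⟩ := h
  · obtain ⟨h1, h2⟩ := he
    rw [← h1, ← h2]
    unfold hd col
    by_cases h3 : e.2 = true
    · rw [if_pos h3]
      simp only
      rw [abs_le]
      constructor <;> linarith
    · rw [if_neg h3]
      simp only
      rw [abs_le]
      constructor <;> linarith
  · obtain ⟨h1, h2⟩ := he
    rw [← h1, ← h2]
    unfold hd col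
    by_cases h3 : e.2 = true
    · rw [if_pos h3]
      simp only
      rw [abs_le]
      constructor <;> linarith
    · rw [if_neg h3]
      simp only
      rw [abs_le]
      constructor <;> linarith

private theorem edg_fst {x y : V} (h : adj x y) : (edg x y).1 = x ∨ (edg x y).1 = y := by
  obtain ⟨e, he | he⟩ := h
  · obtain ⟨h1, h2⟩ := he
    left
    rw [← h1, ← h2]
    unfold hd edg
    by_cases h3 : e.2 = true
    · rw [if_pos h3]
      ext <;> simp
    · rw [if_neg h3]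
      ext <;> simp
  · obtain ⟨h1, h2⟩ := he
    right
    rw [← h1, ← h2]
    unfold hd edg
    by_cases h3 : e.2 = true
    · rw [if_pos h3]
      ext <;> simp
    · rw [if_neg h3]
      ext <;> simp

private theorem path_col {n : ℕ} {p : ℕ → V} {v : V} (h : IsPath n p 0 v) (k : ℕ) (hk : k ≤ n) :
    |col (p k)| ≤ 2 * k := by
  induction k with
  | zero =>
    rw [h.1]
    simp [col]
  | succ k ih =>
    have h1 := ih (by omega)
    have h2 := adj_col (h.2.2 k (by omega))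
    rw [abs_le] at h1 h2 ⊢
    push_cast
    constructor <;> linarith

private theorem step_adj1 (x y s : ℤ) (hs : s = 1 ∨ s = -1) : adj (x, y) (x + s, y) := by
  rcases hs with rfl | rfl
  · exact ⟨((x, y), false), Or.inl ⟨rfl, by simp [hd]⟩⟩
  · exact ⟨((x + -1, y), false), Or.inr ⟨rfl, by simp [hd]⟩⟩

private theorem step_adj2 (x y s : ℤ) (hs : s = 1 ∨ s = -1) : adj (x, y) (x, y + s) := by
  rcases hs with rfl | rfl
  · exact ⟨((x, y), true), Or.inl ⟨rfl, by simp [hd]⟩⟩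
  · exact ⟨((x, y + -1), true), Or.inr ⟨rfl, by simp [hd]⟩⟩

private theorem exists_sgn (x : ℤ) : ∃ s : ℤ, (s = 1 ∨ s = -1) ∧ x = s * x.natAbs := by
  rcases le_total 0 x with h | h
  · exact ⟨1, Or.inl rfl, by omega⟩
  · exact ⟨-1, Or.inr rfl, by omega⟩

private theorem exists_path (v : V) : ∃ p : ℕ → V, IsPath (nrm v) p 0 v := by
  obtain ⟨s1, hs1, h1⟩ := exists_sgn v.1
  obtain ⟨s2, hs2, h2⟩ := exists_sgn v.2
  refine ⟨fun k => (s1 * (min k v.1.natAbs : ℕ), s2 * (k - v.1.natAbs : ℕ)), ?_, ?_, ?_⟩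
  · simp
  · unfold nrm
    ext
    · simp only
      rw [min_eq_right (by omega)]
      exact h1.symm
    · simp only
      rw [show v.1.natAbs + v.2.natAbs - v.1.natAbs = v.2.natAbs by omega]
      exact h2.symm
  · intro k hk
    by_cases h3 : k < v.1.natAbs
    · have h4 : min k v.1.natAbs = k := by omega
      have h5 : min (k + 1) v.1.natAbs = k + 1 := by omega
      have h6 : k - v.1.natAbs = 0 := by omega
      have h7 : k + 1 - v.1.natAbs = 0 := by omega
      simp only [h4, h5, h6, h7]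
      have h8 := step_adj1 (s1 * (k : ℕ)) (s2 * (0 : ℕ)) s1 hs1
      have h9 : s1 * ((k + 1 : ℕ) : ℤ) = s1 * (k : ℕ) + s1 := by push_cast; ring
      rw [h9]
      exact h8
    · have h4 : min k v.1.natAbs = v.1.natAbs := by omega
      have h5 : min (k + 1) v.1.natAbs = v.1.natAbs := by omega
      have h7 : k + 1 - v.1.natAbs = (k - v.1.natAbs) + 1 := by omega
      simp only [h4, h5, h7]
      have h8 := step_adj2 (s1 * (v.1.natAbs : ℕ)) (s2 * (k - v.1.natAbs : ℕ)) s2 hs2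
      have h9 : s2 * ((k - v.1.natAbs + 1 : ℕ) : ℤ) = s2 * (k - v.1.natAbs : ℕ) + s2 := by
        push_cast; ring
      rw [h9]
      exact h8

theorem mom_geo_len {a b : ℝ} (ha : 0 < a) {A : E → ℝ} (hA : Bd a b A) {n : ℕ} {p : ℕ → V}
    {v : V} (h : IsGeo A n p 0 v) : a * n ≤ b * nrm v := by
  obtain ⟨q, hq⟩ := exists_path v
  have h1 : a * n ≤ cost A 0 n p := by
    unfold cost
    calc a * n = ∑ k ∈ Ico 0 n, a := by rw [sum_const, nsmul_eq_mul, Nat.card_Ico]; simp; ring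
      _ ≤ _ := sum_le_sum fun k _ => (hA _).1
  have h2 : cost A 0 (nrm v) q ≤ b * nrm v := by
    unfold cost
    calc ∑ k ∈ Ico 0 (nrm v), A (edg (q k) (q (k + 1))) ≤ ∑ k ∈ Ico 0 (nrm v), b :=
          sum_le_sum fun k _ => (hA _).2
      _ = _ := by rw [sum_const, nsmul_eq_mul, Nat.card_Ico]; simp; ring
  have h3 : dst A 0 v ≤ cost A 0 (nrm v) q := by
    refine csInf_le ⟨0, ?_⟩ ⟨nrm v, q, hq, rfl⟩
    rintro t ⟨m, r, -, rfl⟩
    exact sum_nonneg fun k _ => ha.le.trans (hA _).1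
  rw [h.2] at h1
  linarith

/-- `card_GI_inter_le` with weaker hypotheses on the block -/
theorem card_GI_inter_le' {N : ℕ} [NeZero N] {Al : Type} [Fintype Al] [Nonempty Al] {a b : ℝ}
    (ha : 0 < a) {wt : Al → ℝ} (hw : ∀ x, a ≤ wt x ∧ wt x ≤ b) (v : V)
    (hN : 8 * (b / a) * nrm v < N) {α β : ℤ} (h1 : -(3 * (N : ℝ)) / 4 ≤ α)
    (h2 : (β : ℝ) ≤ 3 * N / 4) (ω : Ix N → Al) :
    (GI wt v ω ∩ blkI N α β).card ≤ 2 * vis α β (Gn wt v ω) (Gp wt v ω) := by
  classical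
  by_cases hex : ∃ q : ℕ × (ℕ → V), IsGeo (env wt ω) q.1 q.2 0 v
  · have hg : IsGeo (env wt ω) (Gn wt v ω) (Gp wt v ω) 0 v := by
      unfold Gn Gp gl gp
      rw [dif_pos hex, dif_pos hex]
      exact Classical.choose_spec hex
    have hE : GE wt v ω = eset 0 (Gn wt v ω) (Gp wt v ω) := rfl
    generalize Gn wt v ω = n at hg hE ⊢
    generalize Gp wt v ω = p at hg hE ⊢
    have hlen := mom_geo_len ha (A := env wt ω) (b := b) (fun e => hw _) hg
    have hnN : 8 * (n : ℝ) < N := by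
      have h3 : (n : ℝ) ≤ b / a * nrm v := by
        rw [div_mul_eq_mul_div, le_div_iff₀ ha]
        linarith
      linarith
    set T := (range (n + 1)).filter (fun i => α ≤ col (p i) ∧ col (p i) < β) with hT
    have hsub : GI wt v ω ∩ blkI N α β ⊆ T.image (fun t => red N (edg (p t) (p (t + 1)))) ∪
        T.image (fun t => red N (edg (p (t - 1)) (p t))) := by
      intro i hi
      rw [mem_inter] at hi
      obtain ⟨hi1, hi2⟩ := hi
      unfold GI at hi1
      rw [hE, mem_image] at hi1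
      obtain ⟨e, he, rfl⟩ := hi1
      unfold eset at he
      rw [mem_image] at he
      obtain ⟨t, ht, rfl⟩ := he
      rw [mem_Ico] at ht
      unfold blkI at hi2
      rw [mem_filter] at hi2
      obtain ⟨-, k, hk1, hk2, hk3⟩ := hi2
      have hadj := hg.1.2.2 t ht.2
      have hcol : |col (edg (p t) (p (t + 1))).1| ≤ 2 * n := by
        rcases edg_fst hadj with h3 | h3
        · rw [h3]
          refine (path_col hg.1 t (by omega)).trans ?_
          have : (t : ℤ) ≤ n := by exact_mod_cast ht.2.le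
          linarith
        · rw [h3]
          refine (path_col hg.1 (t + 1) (by omega)).trans ?_
          have : ((t + 1 : ℕ) : ℤ) ≤ n := by exact_mod_cast ht.2
          linarith
      have hkc : col (edg (p t) (p (t + 1))).1 = k := by
        have h3 : ((col (edg (p t) (p (t + 1))).1 : ℤ) : ZMod N) = (k : ZMod N) := by
          rw [← hk3]
          unfold colI red col
          push_cast
          rfl
        rw [ZMod.intCast_eq_intCast_iff_dvd_sub] at h3
        have h4 : |k - col (edg (p t) (p (t + 1))).1| < N := by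
          have h5 : (|k - col (edg (p t) (p (t + 1))).1| : ℝ) < N := by
            have h6 : (|col (edg (p t) (p (t + 1))).1| : ℝ) ≤ 2 * n := by exact_mod_cast hcol
            have h7 : (α : ℝ) ≤ k := by exact_mod_cast hk1
            have h8 : (k : ℝ) ≤ β := by exact_mod_cast hk2.le
            have h9 : (0 : ℝ) < N := by
              have : 0 < N := Nat.pos_of_ne_zero (NeZero.ne N)
              exact_mod_cast this
            rw [abs_le] at h6
            rw [abs_lt]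
            constructor
            · linarith
            · linarith
          exact_mod_cast h5
        have h5 := Int.eq_zero_of_abs_lt_dvd h3 h4
        omega
      rw [mem_union, mem_image, mem_image]
      rcases edg_fst hadj with h3 | h3
      · left
        refine ⟨t, ?_, rfl⟩
        rw [hT, mem_filter, mem_range]
        rw [h3] at hkc
        exact ⟨by omega, by omega, by omega⟩
      · right
        refine ⟨t + 1, ?_, rfl⟩
        rw [hT, mem_filter, mem_range]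
        rw [h3] at hkc
        exact ⟨by omega, by omega, by omega⟩
    have h3 := card_le_card hsub
    have h4 := card_union_le (T.image (fun t => red N (edg (p t) (p (t + 1)))))
      (T.image (fun t => red N (edg (p (t - 1)) (p t))))
    have h5 : (T.image (fun t => red N (edg (p t) (p (t + 1))))).card ≤ T.card := card_image_le
    have h6 : (T.image (fun t => red N (edg (p (t - 1)) (p t)))).card ≤ T.card := card_image_le
    have h7 : vis α β n p = T.card := rfl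
    rw [h7]
    omega
  · have h3 : Gn wt v ω = 0 := by
      unfold Gn gl
      rw [dif_neg hex]
    have h4 : GI wt v ω = ∅ := by
      have hE : GE wt v ω = eset 0 (Gn wt v ω) (Gp wt v ω) := rfl
      unfold GI
      rw [hE, h3]
      simp [eset]
    rw [h4]
    simp

theorem card_GI_inter_le {N : ℕ} [NeZero N] {Al : Type} [Fintype Al] [Nonempty Al] {a b : ℝ}
    (ha : 0 < a) (hab : a < b) {wt : Al → ℝ} (hw : ∀ x, a ≤ wt x ∧ wt x ≤ b) (v : V)
    (hN : 8 * (b / a) * nrm v < N) {α β : ℤ} (h1 : -(N : ℝ) / 2 ≤ α) (h2 : (β : ℝ) ≤ N / 2)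
    (ω : Ix N → Al) :
    (GI wt v ω ∩ blkI N α β).card ≤ 2 * vis α β (Gn wt v ω) (Gp wt v ω) := by
  have h3 : (0 : ℝ) ≤ N := Nat.cast_nonneg N
  have _ := hab
  exact card_GI_inter_le' ha hw v hN (by linarith) (by linarith) ω

theorem block_moments {a b : ℝ} (ha : 0 < a) (hab : a < b) : ∃ (C : ℝ) (k0 : ℕ), 1 ≤ C ∧ 1 ≤ k0 ∧
    ∀ k : ℕ, k0 ≤ k → ∀ (N : ℕ) [NeZero N] (Al : Type) [Fintype Al] [Nonempty Al] (wt : Al → ℝ),
    (∀ x, a ≤ wt x ∧ wt x ≤ b) → ∀ v : V, 0 ≤ v.2 → v.2 ≤ v.1 → (k : ℝ) ^ 40 ≤ nrm v →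
    (nrm v : ℝ) ≤ Real.exp k → 8 * (b / a) * nrm v < N →
    ∀ ρ : ℝ, 1 ≤ ρ → ρ ≤ 3 / 2 → (nrm v : ℝ) ^ (2 * (ρ - 1)) ≤ k →
    ∀ L : ℕ, k ^ 10 ≤ L → L ≤ nrm v → ∀ (α : ℤ) (M : ℕ), -(N : ℝ) / 2 ≤ α →
    (α : ℝ) + M * L ≤ N / 2 →
    ∑ m ∈ range M, Ex (fun ω : Ix N → Al =>
      |Fv wt v ω - av (blkI N (α + m * L) (α + (m + 1) * L)) (Fv wt v) ω| ^ (2 * ρ)) ≤
      C * nrm v * (L : ℝ) ^ (ρ - 1) := by
  obtain ⟨C1, k1, hC1, hk1, hreg⟩ := reg ha hab
  obtain ⟨C2, hC2, hlq⟩ := lq_block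
  set Q : ℝ := (max 1 (b - a)) ^ 3 with hQ
  have hQ0 : 0 ≤ Q := by positivity
  have hba : 0 ≤ b / a := div_nonneg (by linarith) ha.le
  have hC10 : 0 ≤ C1 := by linarith
  refine ⟨16 * C2 * Q * C1 ^ 2 * (98 * C1 ^ 2) + 1, k1, ?_, hk1, ?_⟩
  · have : 0 ≤ 16 * C2 * Q * C1 ^ 2 * (98 * C1 ^ 2) := by positivity
    linarith
  intro k hk N _ Al _ _ wt hw v hv2 hv1 hkn hne hN8 ρ hρ1 hρ2 hρk L hkL hLn α M hα hαM
  have hk1' : 1 ≤ k := hk1.trans hk
  have hn1 : (1 : ℝ) ≤ nrm v := by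
    refine le_trans ?_ hkn
    have : (1 : ℝ) ≤ k := by exact_mod_cast hk1'
    exact one_le_pow₀ this
  have hn0 : (0 : ℝ) ≤ nrm v := by linarith
  have hK0 : 0 ≤ 16 * C2 * Q * C1 ^ 2 * (98 * C1 ^ 2) := by positivity
  have hN1 : b / a * nrm v < N := by
    have : 0 ≤ b / a * nrm v := by positivity
    nlinarith
  obtain ⟨S, hS⟩ := hreg k hk N Al wt hw v hv2 hv1 hkn hne hN8
  have hL1 : 1 ≤ L := by
    have : 1 ≤ k ^ 10 := Nat.one_le_pow _ _ hk1'
    omega
  have hLr1 : (1 : ℝ) ≤ (L : ℝ) ^ (ρ - 1) :=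
    Real.one_le_rpow (by exact_mod_cast hL1) (by linarith)
  have hκ : (b - a) ^ (2 * ρ) ≤ Q := by
    calc (b - a) ^ (2 * ρ) ≤ (max 1 (b - a)) ^ (2 * ρ) :=
          Real.rpow_le_rpow (by linarith) (le_max_right _ _) (by linarith)
      _ ≤ (max 1 (b - a)) ^ (3 : ℝ) :=
          Real.rpow_le_rpow_of_exponent_le (le_max_left _ _) (by linarith)
      _ = Q := by rw [hQ]; norm_num
  have hκ0 : 0 ≤ (b - a) ^ (2 * ρ) := Real.rpow_nonneg (by linarith) _
  have h2ρ : (2 : ℝ) ^ ρ ≤ 4 := by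
    calc (2 : ℝ) ^ ρ ≤ (2 : ℝ) ^ (2 : ℝ) :=
          Real.rpow_le_rpow_of_exponent_le (by norm_num) (by linarith)
      _ = 4 := by norm_num
  -- one block
  have hblk : ∀ m ∈ range M, Ex (fun ω : Ix N → Al =>
      |Fv wt v ω - av (blkI N (α + m * L) (α + (m + 1) * L)) (Fv wt v) ω| ^ (2 * ρ)) ≤
      4 * C2 * Q * Ex (fun ω : Ix N → Al =>
        (vis (α + m * L) (α + (m + 1) * L) (Gn wt v ω) (Gp wt v ω) : ℝ) ^ ρ) := by
    intro m hm
    rw [mem_range] at hm
    have h3 := hlq (Ix N) Al (Fv wt v) (GI wt v) (b - a) (by linarith)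
      (fun ω i x => GI_bound ha hab hw v hN1 ω i x) (blkI N (α + m * L) (α + (m + 1) * L)) ρ hρ1 hρ2
    refine h3.trans ?_
    have hmM : ((m : ℝ) + 1) * L ≤ M * L := by
      refine mul_le_mul_of_nonneg_right ?_ (Nat.cast_nonneg L)
      exact_mod_cast hm
    have h4 : ∀ ω : Ix N → Al, (((GI wt v ω ∩ blkI N (α + m * L) (α + (m + 1) * L)).card : ℕ) : ℝ) ^ ρ ≤
        4 * (vis (α + m * L) (α + (m + 1) * L) (Gn wt v ω) (Gp wt v ω) : ℝ) ^ ρ := by
      intro ω
      have h5 := card_GI_inter_le ha hab hw v hN8 (α := α + m * L) (β := α + (m + 1) * L)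
        (by push_cast; have : (0 : ℝ) ≤ m * L := by positivity
            linarith) (by push_cast; linarith) ω
      have h6 : (((GI wt v ω ∩ blkI N (α + m * L) (α + (m + 1) * L)).card : ℕ) : ℝ) ≤
          2 * (vis (α + m * L) (α + (m + 1) * L) (Gn wt v ω) (Gp wt v ω) : ℝ) := by
        exact_mod_cast h5
      calc (((GI wt v ω ∩ blkI N (α + m * L) (α + (m + 1) * L)).card : ℕ) : ℝ) ^ ρ
          ≤ (2 * (vis (α + m * L) (α + (m + 1) * L) (Gn wt v ω) (Gp wt v ω) : ℝ)) ^ ρ :=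
            Real.rpow_le_rpow (Nat.cast_nonneg _) h6 (by linarith)
        _ = 2 ^ ρ * (vis (α + m * L) (α + (m + 1) * L) (Gn wt v ω) (Gp wt v ω) : ℝ) ^ ρ :=
            Real.mul_rpow (by norm_num) (Nat.cast_nonneg _)
        _ ≤ _ := mul_le_mul_of_nonneg_right h2ρ (Real.rpow_nonneg (Nat.cast_nonneg _) _)
    have h5 := Ex_mono h4
    rw [Ex_mul_left] at h5
    have h6 : 0 ≤ Ex (fun ω : Ix N → Al =>
        (vis (α + m * L) (α + (m + 1) * L) (Gn wt v ω) (Gp wt v ω) : ℝ) ^ ρ) :=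
      Ex_nonneg fun ω => Real.rpow_nonneg (Nat.cast_nonneg _) _
    have h7 : 0 ≤ Ex (fun ω : Ix N → Al =>
        (((GI wt v ω ∩ blkI N (α + m * L) (α + (m + 1) * L)).card : ℕ) : ℝ) ^ ρ) :=
      Ex_nonneg fun ω => Real.rpow_nonneg (Nat.cast_nonneg _) _
    calc C2 * (b - a) ^ (2 * ρ) * Ex (fun ω : Ix N → Al =>
          (((GI wt v ω ∩ blkI N (α + m * L) (α + (m + 1) * L)).card : ℕ) : ℝ) ^ ρ)
        ≤ C2 * Q * Ex (fun ω : Ix N → Al =>
          (((GI wt v ω ∩ blkI N (α + m * L) (α + (m + 1) * L)).card : ℕ) : ℝ) ^ ρ) :=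
          mul_le_mul_of_nonneg_right (mul_le_mul_of_nonneg_left hκ hC2.le) h7
      _ ≤ C2 * Q * (4 * Ex (fun ω : Ix N → Al =>
        (vis (α + m * L) (α + (m + 1) * L) (Gn wt v ω) (Gp wt v ω) : ℝ) ^ ρ)) :=
          mul_le_mul_of_nonneg_left h5 (by positivity)
      _ = _ := by ring
  -- all blocks
  have hcol : col v = 2 * v.1 + v.2 := rfl
  have hnv : (nrm v : ℤ) = v.1 + v.2 := by
    unfold nrm
    push_cast
    rw [abs_of_nonneg (by omega), abs_of_nonneg hv2]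
  have hdet : ∀ ω : Ix N → Al, ∑ m ∈ range M,
      (vis (α + m * L) (α + (m + 1) * L) (Gn wt v ω) (Gp wt v ω) : ℝ) ^ ρ ≤
      4 * C1 ^ 2 * (80 * nrm v * (L : ℝ) ^ (ρ - 1)) + 72 * C1 ^ 3 * k *
        ∑ j ∈ Ico (α - 8 * (k ^ 10 : ℕ)) (α + M * L + 8 * (k ^ 10 : ℕ)), S ω j := by
    intro ω
    have h3 := mom_det_sum (C := C1) (ρ := ρ) hC1 hρ1 hρ2 (k := k) (K := k ^ 10) (L := L) (n := nrm v)
      (M := M) (c := col v) (α := α) hL1 hkL hLn (by omega) (by omega) hρk (S ω) (hS.nonneg ω)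
      (hS.tot ω) (fun m => (vis (α + m * L) (α + (m + 1) * L) (Gn wt v ω) (Gp wt v ω) : ℝ))
      (fun m => Nat.cast_nonneg _)
      (fun m _ => by
        have h4 := hS.visit ω (α + m * L) (α + (m + 1) * L) (by nlinarith)
        refine h4.trans (le_of_eq ?_)
        push_cast
        ring)
      (fun m _ hm => by
        have h4 := hS.visit_out ω (α + m * L) (α + (m + 1) * L) (by nlinarith)
          (by push_cast at hm; exact hm)
        refine h4.trans (le_of_eq ?_)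
        push_cast
        ring)
    refine h3.trans (le_of_eq ?_)
    ring
  calc ∑ m ∈ range M, Ex (fun ω : Ix N → Al =>
      |Fv wt v ω - av (blkI N (α + m * L) (α + (m + 1) * L)) (Fv wt v) ω| ^ (2 * ρ))
      ≤ ∑ m ∈ range M, 4 * C2 * Q * Ex (fun ω : Ix N → Al =>
        (vis (α + m * L) (α + (m + 1) * L) (Gn wt v ω) (Gp wt v ω) : ℝ) ^ ρ) := sum_le_sum hblk
    _ = 4 * C2 * Q * Ex (fun ω : Ix N → Al => ∑ m ∈ range M,
        (vis (α + m * L) (α + (m + 1) * L) (Gn wt v ω) (Gp wt v ω) : ℝ) ^ ρ) := by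
        rw [← mul_sum, Ex_sum]
    _ ≤ 4 * C2 * Q * Ex (fun ω : Ix N → Al =>
        4 * C1 ^ 2 * (80 * nrm v * (L : ℝ) ^ (ρ - 1)) + 72 * C1 ^ 3 * k *
        ∑ j ∈ Ico (α - 8 * (k ^ 10 : ℕ)) (α + M * L + 8 * (k ^ 10 : ℕ)), S ω j) :=
        mul_le_mul_of_nonneg_left (Ex_mono hdet) (by positivity)
    _ = 4 * C2 * Q * (4 * C1 ^ 2 * (80 * nrm v * (L : ℝ) ^ (ρ - 1)) + 72 * C1 ^ 3 * k *
        Ex (fun ω : Ix N → Al =>
          ∑ j ∈ Ico (α - 8 * (k ^ 10 : ℕ)) (α + M * L + 8 * (k ^ 10 : ℕ)), S ω j)) := by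
        rw [Ex_add, Ex_const, Ex_mul_left]
    _ ≤ 4 * C2 * Q * (4 * C1 ^ 2 * (80 * nrm v * (L : ℝ) ^ (ρ - 1)) + 72 * C1 ^ 3 * k *
        (C1 * nrm v / k)) := by
        refine mul_le_mul_of_nonneg_left ?_ (by positivity)
        have h3 := hS.mean (Ico (α - 8 * (k ^ 10 : ℕ)) (α + M * L + 8 * (k ^ 10 : ℕ)))
        have h4 : 0 ≤ 72 * C1 ^ 3 * (k : ℝ) := by positivity
        linarith [mul_le_mul_of_nonneg_left h3 h4]
    _ = 4 * C2 * Q * (4 * C1 ^ 2 * (80 * nrm v * (L : ℝ) ^ (ρ - 1)) + 72 * C1 ^ 4 * nrm v) := by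
        have h3 : (k : ℝ) ≠ 0 := by
          have : 0 < k := hk1'
          positivity
        field_simp
    _ ≤ 16 * C2 * Q * C1 ^ 2 * (98 * C1 ^ 2) * nrm v * (L : ℝ) ^ (ρ - 1) := by
        have h3 : (1 : ℝ) ≤ C1 ^ 2 := one_le_pow₀ hC1
        have h4 : 80 * (nrm v : ℝ) * (L : ℝ) ^ (ρ - 1) ≤
            80 * C1 ^ 2 * (nrm v * (L : ℝ) ^ (ρ - 1)) := by
          have h5 : 0 ≤ (nrm v : ℝ) * (L : ℝ) ^ (ρ - 1) := by positivity
          nlinarith
        have h5 : 18 * C1 ^ 2 * (nrm v : ℝ) ≤ 18 * C1 ^ 2 * (nrm v * (L : ℝ) ^ (ρ - 1)) := by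
          refine mul_le_mul_of_nonneg_left ?_ (by positivity)
          nlinarith
        calc 4 * C2 * Q * (4 * C1 ^ 2 * (80 * nrm v * (L : ℝ) ^ (ρ - 1)) + 72 * C1 ^ 4 * nrm v)
            = 16 * C2 * Q * C1 ^ 2 * (80 * nrm v * (L : ℝ) ^ (ρ - 1) + 18 * C1 ^ 2 * nrm v) := by
              ring
          _ ≤ 16 * C2 * Q * C1 ^ 2 * (80 * C1 ^ 2 * (nrm v * (L : ℝ) ^ (ρ - 1)) +
              18 * C1 ^ 2 * (nrm v * (L : ℝ) ^ (ρ - 1))) :=
              mul_le_mul_of_nonneg_left (add_le_add h4 h5) (by positivity)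
          _ = _ := by ring
    _ ≤ (16 * C2 * Q * C1 ^ 2 * (98 * C1 ^ 2) + 1) * nrm v *
        (L : ℝ) ^ (ρ - 1) := by
        refine mul_le_mul_of_nonneg_right ?_ (by linarith)
        refine mul_le_mul_of_nonneg_right ?_ hn0
        linarith

end Pool.Agent.FPZ
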