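import Pool.Agent.FPZ.R8Reg
import Pool.Agent.FPZ.R8Lq
import Pool.Agent.FPZ.Geo

/-!
Module R8One (section 8): one block of arbitrary width. `one_block` (blocks inside `[-3N/4, 3N/4]`).
-/

set_option autoImplicit false

noncomputable section

namespace Pool.Agent.FPZ

open Finset Pool.FPP

private theorem one_col_le (z : V) : |col z| ≤ 2 * (nrm z : ℤ) := by
  unfold col nrm
  rw [abs_le]
  omega

private theorem one_card (α β : ℤ) (n : ℕ) (p : ℕ → V) :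
    ((range n).filter (fun k => (α ≤ col (p k) ∧ col (p k) < β) ∨
      (α ≤ col (p (k + 1)) ∧ col (p (k + 1)) < β))).card ≤ 2 * vis α β n p := by
  classical
  unfold vis
  set W := (range (n + 1)).filter (fun i => α ≤ col (p i) ∧ col (p i) < β) with hW
  rw [Finset.filter_or]
  refine (Finset.card_union_le _ _).trans ?_
  have h1 : ((range n).filter (fun k => α ≤ col (p k) ∧ col (p k) < β)).card ≤ W.card := by
    apply Finset.card_le_card
    intro k hk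
    rw [mem_filter, mem_range] at hk
    rw [hW, mem_filter, mem_range]
    exact ⟨by omega, hk.2⟩
  have h2 : ((range n).filter (fun k => α ≤ col (p (k + 1)) ∧ col (p (k + 1)) < β)).card ≤
      W.card := by
    apply Finset.card_le_card_of_injOn (fun k => k + 1)
    · intro k hk
      rw [Finset.mem_coe, mem_filter, mem_range] at hk
      rw [Finset.mem_coe, hW, mem_filter, mem_range]
      refine ⟨?_, hk.2⟩
      show k + 1 < n + 1
      omega
    · intro k _ k' _ h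
      exact Nat.succ_injective h
  omega

private theorem one_card_GI {N : ℕ} [NeZero N] {Al : Type} [Fintype Al] [Nonempty Al] {a b : ℝ}
    (ha : 0 < a) {wt : Al → ℝ} (hw : ∀ x, a ≤ wt x ∧ wt x ≤ b) (v : V)
    (hN : 8 * (b / a) * nrm v < N) {α β : ℤ} (h1 : -(3 * (N : ℝ)) / 4 ≤ α)
    (h2 : (β : ℝ) ≤ 3 * N / 4) (ω : Ix N → Al) :
    (GI wt v ω ∩ blkI N α β).card ≤ 2 * vis α β (Gn wt v ω) (Gp wt v ω) := by
  classical
  set n := Gn wt v ω with hn
  set p := Gp wt v ω with hp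
  have hG : IsGeo (env wt ω) n p 0 v := geo_G ha hw v ω
  have hlen := geo_length ha (geo_env hw ω) hG
  rw [sub_zero] at hlen
  refine le_trans ?_ (one_card α β n p)
  have hsub : GI wt v ω ∩ blkI N α β ⊆ ((range n).filter (fun k => (α ≤ col (p k) ∧ col (p k) < β) ∨
      (α ≤ col (p (k + 1)) ∧ col (p (k + 1)) < β))).image
      (fun k => red N (edg (p k) (p (k + 1)))) := by
    intro i hi
    rw [mem_inter] at hi
    obtain ⟨hi1, hi2⟩ := hi
    unfold GI GE ges at hi1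
    rw [mem_image] at hi1
    obtain ⟨e, he, rfl⟩ := hi1
    rw [mem_eset] at he
    obtain ⟨k, -, hk, rfl⟩ := he
    have hk' : k < n := hk
    change red N (edg (p k) (p (k + 1))) ∈ blkI N α β at hi2
    unfold blkI at hi2
    rw [mem_filter] at hi2
    obtain ⟨-, c, hc1, hc2, hc3⟩ := hi2
    set e := edg (p k) (p (k + 1)) with he
    have hfst := edg_fst_mem (hG.1.2.2 k hk')
    rw [← he] at hfst
    -- the first end point is a vertex of the path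
    have hnr : nrm e.1 ≤ n := by
      rcases hfst with h | h
      · rw [h]
        have := path_nrm hG.1 (Nat.zero_le k) hk'.le
        rw [hG.1.1, sub_zero] at this
        omega
      · rw [h]
        have := path_nrm hG.1 (Nat.zero_le (k + 1)) hk'
        rw [hG.1.1, sub_zero] at this
        omega
    have hcol := one_col_le e.1
    have hcolr : |((col e.1 : ℤ) : ℝ)| ≤ 2 * (n : ℝ) := by
      have h3 : |col e.1| ≤ 2 * (n : ℤ) := hcol.trans (by exact_mod_cast Nat.mul_le_mul_left 2 hnr)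
      have h4 : ((|col e.1| : ℤ) : ℝ) ≤ ((2 * (n : ℤ) : ℤ) : ℝ) := by exact_mod_cast h3
      push_cast at h4
      exact h4
    have hcolN : |((col e.1 : ℤ) : ℝ)| < N / 4 := by
      have h5 : 8 * (b / a) * nrm v = 8 * (b / a * nrm v) := by ring
      rw [h5] at hN
      linarith
    have hcong : ((col e.1 : ℤ) : ZMod N) = (c : ZMod N) := by
      rw [← hc3]
      unfold colI red col
      push_cast
      ring
    have hdvd : (N : ℤ) ∣ col e.1 - c := by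
      rw [← ZMod.intCast_zmod_eq_zero_iff_dvd]
      push_cast
      rw [hcong]
      ring
    have hlt : |col e.1 - c| < (N : ℤ) := by
      have h6 : |(((col e.1 - c : ℤ)) : ℝ)| < N := by
        push_cast
        have h7 : (α : ℝ) ≤ c := by exact_mod_cast hc1
        have h8 : (c : ℝ) < β := by exact_mod_cast hc2
        rw [abs_lt] at hcolN ⊢
        constructor <;> linarith [hcolN.1, hcolN.2]
      exact_mod_cast h6
    have heq : col e.1 = c := by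
      have h9 := Int.eq_zero_of_abs_lt_dvd hdvd hlt
      omega
    rw [mem_image]
    refine ⟨k, ?_, rfl⟩
    rw [mem_filter, mem_range]
    refine ⟨hk', ?_⟩
    rcases hfst with h | h
    · left
      rw [← h, heq]
      exact ⟨hc1, hc2⟩
    · right
      rw [← h, heq]
      exact ⟨hc1, hc2⟩
  exact (Finset.card_le_card hsub).trans Finset.card_image_le

private theorem one_add4 {x y ρ : ℝ} (hx : 0 ≤ x) (hy : 0 ≤ y) (h1 : 1 ≤ ρ) (h2 : ρ ≤ 3 / 2) :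
    (x + y) ^ ρ ≤ 4 * (x ^ ρ + y ^ ρ) := by
  have h3 : (2 : ℝ) ^ ρ ≤ 4 := by
    calc (2 : ℝ) ^ ρ ≤ (2 : ℝ) ^ (2 : ℝ) := Real.rpow_le_rpow_of_exponent_le (by norm_num) (by linarith)
      _ = 4 := by norm_num
  have hx' := Real.rpow_nonneg hx ρ
  have hy' := Real.rpow_nonneg hy ρ
  rcases le_total x y with h | h
  · calc (x + y) ^ ρ ≤ (2 * y) ^ ρ := Real.rpow_le_rpow (by linarith) (by linarith) (by linarith)
      _ = 2 ^ ρ * y ^ ρ := Real.mul_rpow (by norm_num) hy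
      _ ≤ 4 * y ^ ρ := mul_le_mul_of_nonneg_right h3 hy'
      _ ≤ _ := by linarith
  · calc (x + y) ^ ρ ≤ (2 * x) ^ ρ := Real.rpow_le_rpow (by linarith) (by linarith) (by linarith)
      _ = 2 ^ ρ * x ^ ρ := Real.mul_rpow (by norm_num) hx
      _ ≤ 4 * x ^ ρ := mul_le_mul_of_nonneg_right h3 hx'
      _ ≤ _ := by linarith

private theorem one_pow {s T ρ : ℝ} (hs : 0 ≤ s) (hT : s ≤ T) (hρ : 1 ≤ ρ) :
    s ^ ρ ≤ s * T ^ (ρ - 1) := by
  rcases hs.eq_or_lt with h | h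
  · rw [← h, Real.zero_rpow (by linarith), zero_mul]
  · have h1 : s ^ ρ = s * s ^ (ρ - 1) := by
      rw [Real.rpow_sub_one h.ne']
      field_simp
    rw [h1]
    exact mul_le_mul_of_nonneg_left (Real.rpow_le_rpow hs hT (by linarith)) hs

theorem one_block {a b : ℝ} (ha : 0 < a) (hab : a < b) : ∃ (C : ℝ) (k0 : ℕ), 1 ≤ C ∧ 1 ≤ k0 ∧
    ∀ k : ℕ, k0 ≤ k → ∀ (N : ℕ) [NeZero N] (Al : Type) [Fintype Al] [Nonempty Al] (wt : Al → ℝ),
    (∀ x, a ≤ wt x ∧ wt x ≤ b) → ∀ v : V, 0 ≤ v.2 → v.2 ≤ v.1 → (k : ℝ) ^ 40 ≤ nrm v →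
    (nrm v : ℝ) ≤ Real.exp k → 8 * (b / a) * nrm v < N →
    ∀ ρ : ℝ, 1 ≤ ρ → ρ ≤ 3 / 2 →
    ∀ α β : ℤ, α ≤ β → -(3 * (N : ℝ)) / 4 ≤ α → (β : ℝ) ≤ 3 * N / 4 →
    Ex (fun ω : Ix N → Al => |Fv wt v ω - av (blkI N α β) (Fv wt v) ω| ^ (2 * ρ)) ≤
      C * (((β : ℝ) - α + (k : ℝ) ^ 10) ^ ρ + (nrm v : ℝ) ^ (2 * ρ - 1) / k) ∧
    ((β + 8 * (k : ℤ) ^ 10 ≤ 0 ∨ col v + 8 * (k : ℤ) ^ 10 ≤ α) →
      Ex (fun ω : Ix N → Al => |Fv wt v ω - av (blkI N α β) (Fv wt v) ω| ^ (2 * ρ)) ≤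
        C * ((nrm v : ℝ) ^ (2 * ρ - 1) / k)) := by
  obtain ⟨C1, k0, hC1, hk0, hreg⟩ := reg ha hab
  obtain ⟨C2, hC2, hlq⟩ := lq_block
  set κ : ℝ := b - a with hκ
  have hκ0 : 0 ≤ κ := by linarith
  set K3 : ℝ := (max 1 κ) ^ 3 with hK3
  have hm1 : 1 ≤ max 1 κ := le_max_left _ _
  have hK31 : 1 ≤ K3 := one_le_pow₀ hm1
  set D : ℝ := (C2 + 1) * K3 with hD
  have hD1 : 1 ≤ D := by nlinarith
  set C : ℝ := D * (4 * (2 * C1) ^ 2 * C1 ^ 2) with hC
  have hC1p : 1 ≤ C1 ^ 2 := one_le_pow₀ hC1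
  have hCC : 1 ≤ C := by
    have : 1 ≤ 4 * (2 * C1) ^ 2 * C1 ^ 2 := by nlinarith
    nlinarith
  refine ⟨C, k0, hCC, hk0, ?_⟩
  intro k hk N _ Al _ _ wt hw v hv2 hv1 hkv hvk hN ρ hρ1 hρ2 α β hαβ hα hβ
  obtain ⟨S, hS⟩ := hreg k hk N Al wt hw v hv2 hv1 hkv hvk hN
  have hk1 : 1 ≤ k := hk0.trans hk
  have hk1' : (1 : ℝ) ≤ k := by exact_mod_cast hk1
  have hkpos : (0 : ℝ) < k := by linarith
  set n : ℝ := (nrm v : ℝ) with hn
  have hn1 : 1 ≤ n := (one_le_pow₀ hk1').trans hkv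
  have hn0 : 0 < n := by linarith
  have hN' : b / a * nrm v < N := by
    have hba : 0 ≤ b / a := div_nonneg (by linarith) ha.le
    have h1 : 0 ≤ b / a * n := by positivity
    have h2 : 8 * (b / a) * n = 8 * (b / a * n) := by ring
    rw [h2] at hN
    linarith
  set I : Finset ℤ := Ico (α - 8 * (k : ℤ) ^ 10) (β + 8 * (k : ℤ) ^ 10) with hI
  set s : (Ix N → Al) → ℝ := fun ω => ∑ j ∈ I, S ω j with hs
  have hs0 : ∀ ω, 0 ≤ s ω := fun ω => Finset.sum_nonneg fun j _ => hS.nonneg ω j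
  have hst : ∀ ω, s ω ≤ C1 * n ^ 2 := fun ω => hS.tot ω I
  have hsm : Ex s ≤ C1 * n / k := hS.mean I
  -- reduction to the visits
  have hmain := hlq (Ix N) Al (Fv wt v) (GI wt v) κ hκ0
    (fun ω i x => GI_bound ha hab hw v hN' ω i x) (blkI N α β) ρ hρ1 hρ2
  have hκρ : κ ^ (2 * ρ) ≤ K3 := by
    calc κ ^ (2 * ρ) ≤ (max 1 κ) ^ (2 * ρ) :=
          Real.rpow_le_rpow hκ0 (le_max_right _ _) (by linarith)
      _ ≤ (max 1 κ) ^ (3 : ℝ) := Real.rpow_le_rpow_of_exponent_le hm1 (by linarith)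
      _ = K3 := by rw [hK3]; norm_num
  have hE0 : 0 ≤ Ex (fun ω : Ix N → Al => (((GI wt v ω ∩ blkI N α β).card : ℕ) : ℝ) ^ ρ) :=
    Ex_nonneg fun ω => Real.rpow_nonneg (Nat.cast_nonneg _) _
  have hred : Ex (fun ω : Ix N → Al => |Fv wt v ω - av (blkI N α β) (Fv wt v) ω| ^ (2 * ρ)) ≤
      D * Ex (fun ω : Ix N → Al => (((GI wt v ω ∩ blkI N α β).card : ℕ) : ℝ) ^ ρ) := by
    refine hmain.trans (mul_le_mul_of_nonneg_right ?_ hE0)
    calc C2 * κ ^ (2 * ρ) ≤ C2 * K3 := mul_le_mul_of_nonneg_left hκρ hC2.le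
      _ ≤ D := by rw [hD]; nlinarith
  have h2ρ : (2 * C1) ^ ρ ≤ (2 * C1) ^ 2 := by
    calc (2 * C1) ^ ρ ≤ (2 * C1) ^ (2 : ℝ) :=
          Real.rpow_le_rpow_of_exponent_le (by linarith) (by linarith)
      _ = (2 * C1) ^ 2 := by norm_num
  have h1ρ : C1 ^ (ρ - 1) ≤ C1 := by
    calc C1 ^ (ρ - 1) ≤ C1 ^ (1 : ℝ) := Real.rpow_le_rpow_of_exponent_le hC1 (by linarith)
      _ = C1 := Real.rpow_one _
  -- moments of the slack
  have hspow : ∀ ω, (s ω) ^ ρ ≤ s ω * (C1 * n ^ (2 * ρ - 2)) := by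
    intro ω
    refine (one_pow (hs0 ω) (hst ω) hρ1).trans (mul_le_mul_of_nonneg_left ?_ (hs0 ω))
    rw [Real.mul_rpow (by linarith) (by positivity)]
    refine mul_le_mul h1ρ ?_ (by positivity) (by linarith)
    rw [← Real.rpow_natCast, ← Real.rpow_mul hn0.le]
    apply le_of_eq
    congr 1
    push_cast
    ring
  have hEs : Ex (fun ω => (s ω) ^ ρ) ≤ C1 ^ 2 * (n ^ (2 * ρ - 1) / k) := by
    calc Ex (fun ω => (s ω) ^ ρ) ≤ Ex (fun ω => s ω * (C1 * n ^ (2 * ρ - 2))) := Ex_mono hspow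
      _ = Ex s * (C1 * n ^ (2 * ρ - 2)) := Ex_mul_right _ _
      _ ≤ (C1 * n / k) * (C1 * n ^ (2 * ρ - 2)) :=
          mul_le_mul_of_nonneg_right hsm (by positivity)
      _ = C1 ^ 2 * (n ^ (2 * ρ - 1) / k) := by
          have : n ^ (2 * ρ - 1) = n ^ (2 * ρ - 2) * n := by
            rw [← Real.rpow_add_one hn0.ne']
            congr 1
            ring
          rw [this]
          ring
  have hcard : ∀ ω : Ix N → Al, (((GI wt v ω ∩ blkI N α β).card : ℕ) : ℝ) ≤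
      2 * (vis α β (Gn wt v ω) (Gp wt v ω) : ℝ) := by
    intro ω
    have := one_card_GI ha hw v hN hα hβ ω
    exact_mod_cast this
  have hwid : 0 ≤ (β : ℝ) - α + (k : ℝ) ^ 10 := by
    have : (α : ℝ) ≤ β := by exact_mod_cast hαβ
    have : (0 : ℝ) ≤ (k : ℝ) ^ 10 := by positivity
    linarith
  have hC' : ∀ X : ℝ, C * X = D * (4 * (2 * C1) ^ 2 * C1 ^ 2 * X) := fun X => by
    rw [hC]
    ring
  constructor
  · refine hred.trans ?_
    rw [hC']
    refine mul_le_mul_of_nonneg_left ?_ (le_trans zero_le_one hD1)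
    have hpt : ∀ ω : Ix N → Al, (((GI wt v ω ∩ blkI N α β).card : ℕ) : ℝ) ^ ρ ≤
        (2 * C1) ^ 2 * (4 * (((β : ℝ) - α + (k : ℝ) ^ 10) ^ ρ + (s ω) ^ ρ)) := by
      intro ω
      have h1 := hS.visit ω α β hαβ
      have h2 : (((GI wt v ω ∩ blkI N α β).card : ℕ) : ℝ) ≤
          (2 * C1) * ((β : ℝ) - α + (k : ℝ) ^ 10 + s ω) := by
        have := hcard ω
        have h3 : (vis α β (Gn wt v ω) (Gp wt v ω) : ℝ) ≤
          C1 * ((β : ℝ) - α + (k : ℝ) ^ 10 + s ω) := h1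
        linarith
      calc (((GI wt v ω ∩ blkI N α β).card : ℕ) : ℝ) ^ ρ
          ≤ ((2 * C1) * ((β : ℝ) - α + (k : ℝ) ^ 10 + s ω)) ^ ρ :=
            Real.rpow_le_rpow (Nat.cast_nonneg _) h2 (by linarith)
        _ = (2 * C1) ^ ρ * ((β : ℝ) - α + (k : ℝ) ^ 10 + s ω) ^ ρ :=
            Real.mul_rpow (by linarith) (add_nonneg hwid (hs0 ω))
        _ ≤ (2 * C1) ^ 2 * (4 * (((β : ℝ) - α + (k : ℝ) ^ 10) ^ ρ + (s ω) ^ ρ)) :=
            mul_le_mul h2ρ (one_add4 hwid (hs0 ω) hρ1 hρ2)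
              (Real.rpow_nonneg (add_nonneg hwid (hs0 ω)) _) (by positivity)
    refine (Ex_mono hpt).trans ?_
    rw [Ex_mul_left, Ex_mul_left, Ex_add, Ex_const]
    have hX : 0 ≤ ((β : ℝ) - α + (k : ℝ) ^ 10) ^ ρ := Real.rpow_nonneg hwid _
    have hY : 0 ≤ n ^ (2 * ρ - 1) / k := by positivity
    have h5 : ((β : ℝ) - α + (k : ℝ) ^ 10) ^ ρ + Ex (fun ω => (s ω) ^ ρ) ≤
        C1 ^ 2 * (((β : ℝ) - α + (k : ℝ) ^ 10) ^ ρ + n ^ (2 * ρ - 1) / k) := by
      nlinarith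
    calc (2 * C1) ^ 2 * (4 * (((β : ℝ) - α + (k : ℝ) ^ 10) ^ ρ + Ex (fun ω => (s ω) ^ ρ)))
        ≤ (2 * C1) ^ 2 * (4 * (C1 ^ 2 * (((β : ℝ) - α + (k : ℝ) ^ 10) ^ ρ +
            n ^ (2 * ρ - 1) / k))) := by
          refine mul_le_mul_of_nonneg_left ?_ (by positivity)
          linarith
      _ = _ := by ring
  · intro hout
    refine hred.trans ?_
    rw [hC']
    refine mul_le_mul_of_nonneg_left ?_ (le_trans zero_le_one hD1)
    have hpt : ∀ ω : Ix N → Al, (((GI wt v ω ∩ blkI N α β).card : ℕ) : ℝ) ^ ρ ≤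
        (2 * C1) ^ 2 * (s ω) ^ ρ := by
      intro ω
      have h1 := hS.visit_out ω α β hαβ hout
      have h2 : (((GI wt v ω ∩ blkI N α β).card : ℕ) : ℝ) ≤ (2 * C1) * s ω := by
        have := hcard ω
        have h3 : (vis α β (Gn wt v ω) (Gp wt v ω) : ℝ) ≤ C1 * s ω := h1
        linarith
      calc (((GI wt v ω ∩ blkI N α β).card : ℕ) : ℝ) ^ ρ
          ≤ ((2 * C1) * s ω) ^ ρ := Real.rpow_le_rpow (Nat.cast_nonneg _) h2 (by linarith)
        _ = (2 * C1) ^ ρ * (s ω) ^ ρ := Real.mul_rpow (by linarith) (hs0 ω)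
        _ ≤ (2 * C1) ^ 2 * (s ω) ^ ρ :=
            mul_le_mul_of_nonneg_right h2ρ (Real.rpow_nonneg (hs0 ω) _)
    refine (Ex_mono hpt).trans ?_
    rw [Ex_mul_left]
    have hY : 0 ≤ n ^ (2 * ρ - 1) / k := by positivity
    calc (2 * C1) ^ 2 * Ex (fun ω => (s ω) ^ ρ)
        ≤ (2 * C1) ^ 2 * (C1 ^ 2 * (n ^ (2 * ρ - 1) / k)) :=
          mul_le_mul_of_nonneg_left hEs (by positivity)
      _ ≤ 4 * (2 * C1) ^ 2 * C1 ^ 2 * (n ^ (2 * ρ - 1) / k) := by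
          have : 0 ≤ (2 * C1) ^ 2 * (C1 ^ 2 * (n ^ (2 * ρ - 1) / k)) := by positivity
          nlinarith

end Pool.Agent.FPZ
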