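import Pool.Agent.FPZ.R1Bad
import Pool.Agent.FPZ.R1Seq
import Pool.Agent.FPZ.R1Scl
import Pool.Agent.FPZ.R1End
import Pool.Agent.FPZ.R1Out
import Pool.Agent.FPZ.R8Mom
import Pool.Agent.FPZ.R8One
import Pool.Agent.FPZ.Geo
import Pool.Agent.FPZ.Model

/-!
Module R1Main (section 1): `WindowClaim → ModelBound`.

`k ≈ n^(1/40)`, `L₀ = 2 k^11 + 1`, `L_j = L₀ R^j`, `L_J ≤ √n`, the windows of the scale `j + 1` are the columns
`[1 + m L_{j+1}, 1 + (m+1) L_{j+1})`, `m < M R^(J-j-1)`, all inside `(0, col v)`.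
-/

set_option autoImplicit false

noncomputable section

namespace Pool.Agent.FPZ

open Finset Pool.FPP

section Large

variable {N : ℕ} [NeZero N] {Al : Type} [Fintype Al] [Nonempty Al]

/-- the start of the recursion from the moments with the exponent `2 + 2 c'` -/
theorem r1_start (F : (Ix N → Al) → ℝ) {t c' : ℝ} (ht : 0 < t) (htc : t < c') (blk : ℕ → Finset (Ix N))
    (M : ℕ) {S X : ℝ} (hS : Pot (2 + 2 * c') F blk M ≤ S) (hX : (M : ℝ) ≤ X) :
    Pot (2 + 2 * t) F blk M ≤ S ^ ((1 + t) / (1 + c')) * X ^ ((c' - t) / (1 + c')) := by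
  have h1t : 0 < 1 + t := by linarith
  have h1c : 0 < 1 + c' := by linarith
  set s : ℝ := (1 + c') / (1 + t) with hs
  have hs1 : 1 < s := by rw [hs, lt_div_iff₀ h1t]; linarith
  have hs0 : 0 < s := by linarith
  have hps : (2 + 2 * t) * s = 2 + 2 * c' := by rw [hs]; field_simp
  have hinv : 1 / s = (1 + t) / (1 + c') := by rw [hs, one_div_div]
  have hinv' : 1 - 1 / s = (c' - t) / (1 + c') := by rw [hinv]; field_simp; ring
  have h := r1_sum_le_rpow (range M) (x := fun m => Ex (fun ω => |F ω - av (blk m) F ω| ^ (2 + 2 * t)))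
    (fun m _ => Ex_nonneg fun _ => Real.rpow_nonneg (abs_nonneg _) _) hs1
  rw [card_range, hinv', hinv] at h
  refine h.trans ?_
  have h0 : ∀ m, 0 ≤ Ex (fun ω => |F ω - av (blk m) F ω| ^ (2 + 2 * t)) :=
    fun m => Ex_nonneg fun _ => Real.rpow_nonneg (abs_nonneg _) _
  have hle : ∑ m ∈ range M, (Ex (fun ω => |F ω - av (blk m) F ω| ^ (2 + 2 * t))) ^ s ≤ S := by
    refine le_trans (Finset.sum_le_sum fun m _ => ?_) hS
    refine (r1_Ex_rpow_le (fun _ => Real.rpow_nonneg (abs_nonneg _) _) hs1.le).trans_eq ?_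
    congr 1
    funext ω
    rw [r1_abs_rpow, hps]
  have he1 : 0 ≤ (1 + t) / (1 + c') := by positivity
  have he2 : 0 ≤ (c' - t) / (1 + c') := div_nonneg (by linarith) h1c.le
  apply mul_le_mul
  · exact Real.rpow_le_rpow (Finset.sum_nonneg fun m _ => Real.rpow_nonneg (h0 m) _) hle he1
  · exact Real.rpow_le_rpow (Nat.cast_nonneg _) hX he2
  · exact Real.rpow_nonneg (Nat.cast_nonneg _) _
  · apply Real.rpow_nonneg
    exact le_trans (Finset.sum_nonneg fun m _ => Real.rpow_nonneg (h0 m) _) hle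

end Large

/-- the bound for large `v` -/
theorem r1_large {R : ℕ} {t₀ C₀ ε₀ : ℝ} (hR : 2 ≤ R) (hRo : Odd R) (ht₀ : 0 < t₀) (hC₀ : 0 < C₀)
    (hε₀ : 0 < ε₀)
    (hW : ∀ t : ℝ, 0 < t → t ≤ t₀ →
    ∀ (N : ℕ) [NeZero N] (Al : Type) [Fintype Al] [Nonempty Al] (wt : Al → ℝ) (a b : ℝ) (v : V)
      (Q x₀ L : ℤ) (κ : ℝ) (o : Ix N → Al), GoodWin wt a b v Q x₀ L R ε₀ κ o →
      C₀ * (b * κ) ^ (2 + 2 * t) ≤ aW wt v x₀ L R (2 + 2 * t) o →
      bW wt v x₀ L R (2 + 2 * t) o ≤ (1 - t) * (R : ℝ) ^ t * aW wt v x₀ L R (2 + 2 * t) o)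
    {a b : ℝ} (ha : 0 < a) (hab : a < b) :
    ∃ ε : ℝ, 0 < ε ∧ ∃ C : ℝ, 0 ≤ C ∧ ∃ n₀ : ℕ, ∀ v : V, 0 ≤ v.2 → v.2 ≤ v.1 → 0 < v.1 →
      n₀ ≤ nrm v →
      ∀ (N : ℕ) [NeZero N], 100 * boxQ a b v < (N : ℤ) →
      ∀ (Al : Type) [Fintype Al] [Nonempty Al] (wt : Al → ℝ), (∀ l, a ≤ wt l ∧ wt l ≤ b) →
        Pr (fun ω : Ix N → Al => ¬ Gen (20 * boxQ a b v) (env wt ω)) ≤ 1 / (nrm v : ℝ) →
        Ex (fun ω : Ix N → Al => (Fv wt v ω - Ex (Fv (N := N) wt v)) ^ 2) ≤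
          C * (nrm v : ℝ) ^ (1 - ε) := by
  obtain ⟨Cr, kr, hCr, hkr, hreg⟩ := reg ha hab
  obtain ⟨Cm, km, hCm, hkm, hmom⟩ := block_moments ha hab
  obtain ⟨Co, ko, hCo, hko, hone⟩ := one_block ha hab
  set t : ℝ := min t₀ (1 / 200) with ht
  have ht0 : 0 < t := lt_min ht₀ (by norm_num)
  have htt₀ : t ≤ t₀ := min_le_left _ _
  have ht200 : t ≤ 1 / 200 := min_le_right _ _
  obtain ⟨c', hc'⟩ : ∃ x : ℝ, x = 1 / 100 := ⟨_, rfl⟩
  obtain ⟨ε₂, hε₂⟩ : ∃ x : ℝ, x = 1 / 100 := ⟨_, rfl⟩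
  set η : ℝ := ε₀ / (16 * Cr) with hη
  have hCr0 : 0 < Cr := by linarith
  have hη0 : 0 < η := by positivity
  set κ : ℝ := Cr * (R + 1 + η) with hκ
  have hb0 : 0 < b := by linarith
  have hκ0 : 0 < κ := by positivity
  set Cbig : ℝ := C₀ * (b * κ) ^ (2 + 2 * t) with hCbig
  have hCbig0 : 0 ≤ Cbig := by positivity
  have hRr : (2 : ℝ) ≤ R := by exact_mod_cast hR
  have hR1 : (1 : ℝ) ≤ R := by linarith
  set K : ℝ := Real.exp (12 * t) * (R : ℝ) ^ t with hK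
  have hRt1 : 1 ≤ (R : ℝ) ^ t := Real.one_le_rpow hR1 ht0.le
  have hexp1 : 1 ≤ Real.exp (12 * t) := Real.one_le_exp (by positivity)
  have hK1 : 1 ≤ K := by
    rw [hK]
    calc (1 : ℝ) = 1 * 1 := by ring
      _ ≤ _ := mul_le_mul hexp1 hRt1 (by norm_num) (by linarith)
  set C₁ : ℝ := 7 + Cm + (2 * Cr / η + 2 / ε₀) + 600 * Co with hC₁
  have hC₁p : 0 ≤ 2 * Cr / η + 2 / ε₀ := by positivity
  have hC₁7 : 7 ≤ C₁ := by rw [hC₁]; linarith
  have hC₁m : Cm ≤ C₁ := by rw [hC₁]; linarith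
  have hC₁b : 2 * Cr / η + 2 / ε₀ ≤ C₁ := by rw [hC₁]; linarith
  have hC₁o : 600 * Co ≤ C₁ := by rw [hC₁]; linarith
  obtain ⟨ε, hε, C, hC, hnum⟩ := r1_numbers R hR (t := t) (c' := c') (ε₂ := ε₂) (ε₃ := 1 / 4)
    (ε₄ := 1 / 8) (C₁ := C₁) (Cbig := Cbig) (K := K) ht0 (by linarith) (by rw [hc']; linarith)
    (by rw [hε₂]; norm_num) (by norm_num) (by norm_num) (by linarith) hCbig0 hK1
  obtain ⟨n₀, hscl⟩ := r1_scales R hR (kr + km + ko + 16 * Cr + 100)
  refine ⟨ε, hε, C, hC, max n₀ 1, ?_⟩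
  intro v hv2 hv12 hv1 hn N _ hN Al _ _ wt hwt hgen
  set n : ℕ := nrm v with hnn
  have hn₀ : n₀ ≤ n := (le_max_left _ _).trans hn
  have hn1 : 1 ≤ n := (le_max_right _ _).trans hn
  have hn1r : (1 : ℝ) ≤ n := by exact_mod_cast hn1
  have hn0r : (0 : ℝ) < n := by linarith
  obtain ⟨k, J, hk, hk40, hkexp, hk50, hL4, hJ8, hsq⟩ := hscl n hn₀
  have hkr0 : (0 : ℝ) ≤ kr := Nat.cast_nonneg _
  have hkm0 : (0 : ℝ) ≤ km := Nat.cast_nonneg _
  have hko0 : (0 : ℝ) ≤ ko := Nat.cast_nonneg _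
  have hkkr : kr ≤ k := by
    have : (kr : ℝ) ≤ k := by linarith
    exact_mod_cast this
  have hkkm : km ≤ k := by
    have : (km : ℝ) ≤ k := by linarith
    exact_mod_cast this
  have hkko : ko ≤ k := by
    have : (ko : ℝ) ≤ k := by linarith
    exact_mod_cast this
  have hk100 : (100 : ℝ) ≤ k := by linarith
  have hk100' : 100 ≤ k := by exact_mod_cast hk100
  have hkCr : 16 * Cr ≤ k := by linarith
  have hk0 : (0 : ℝ) < k := by linarith
  set L₀ : ℕ := 2 * k ^ 11 + 1 with hL₀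
  have hL₀odd : Odd L₀ := ⟨k ^ 11, rfl⟩
  have hk11 : k ^ 11 ≤ L₀ := by rw [hL₀]; omega
  have hk10 : k ^ 10 ≤ L₀ := (Nat.pow_le_pow_right (by omega) (by norm_num)).trans hk11
  have hL₀pos : 0 < L₀ := by rw [hL₀]; omega
  set LL : ℕ → ℕ := fun j => L₀ * R ^ j with hLL
  have hLLs : ∀ j, LL (j + 1) = LL j * R := fun j => by rw [hLL]; simp only [pow_succ]; ring
  have hLLodd : ∀ j, Odd (LL j) := fun j => hL₀odd.mul hRo.pow
  have hRpos : 0 < R := by omega
  have hLL0 : ∀ j, L₀ ≤ LL j := fun j => Nat.le_mul_of_pos_right _ (pow_pos hRpos j)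
  have hLLpos : ∀ j, 0 < LL j := fun j => lt_of_lt_of_le hL₀pos (hLL0 j)
  have hLLJ : ∀ j ≤ J, LL j ≤ LL J := fun j hj =>
    Nat.mul_le_mul_left _ (Nat.pow_le_pow_right hRpos hj)
  have hLLJn : LL J ^ 2 ≤ n := hsq
  have hLJn : LL J ≤ n := by
    have h1 : LL J ≤ LL J ^ 2 := by
      rw [sq]; exact Nat.le_mul_of_pos_left _ (hLLpos J)
    exact h1.trans hLLJn
  have hLLr : ∀ j, ((LL j : ℕ) : ℝ) = (L₀ : ℝ) * (R : ℝ) ^ j := fun j => by
    rw [hLL]; push_cast; ring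
  have hLLpr : ∀ j, (0 : ℝ) < ((LL j : ℕ) : ℝ) := fun j => by exact_mod_cast hLLpos j
  -- geometry of `v`
  have hnv : (n : ℤ) = v.1 + v.2 := by
    rw [hnn]; unfold nrm
    push_cast
    rw [abs_of_nonneg hv2, abs_of_pos hv1]
  have hcol : col v = 2 * v.1 + v.2 := rfl
  have hcol1 : (n : ℤ) ≤ col v := by rw [hcol]; omega
  have hcol2 : col v ≤ 2 * n := by rw [hcol]; omega
  -- size of the torus
  have hba1 : 1 ≤ b / a := by rw [le_div_iff₀ ha]; linarith
  have hQn : (b / a) * n ≤ boxQ a b v := by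
    unfold boxQ
    refine le_trans (le_of_eq ?_) (Int.le_ceil _)
    rw [abs_of_nonneg hv2, abs_of_pos hv1, ← hnv]
    push_cast
    ring
  have hQn1 : (n : ℝ) ≤ boxQ a b v := by
    calc (n : ℝ) = 1 * n := (one_mul _).symm
      _ ≤ (b / a) * n := mul_le_mul_of_nonneg_right hba1 hn0r.le
      _ ≤ _ := hQn
  have hQn1' : (n : ℤ) ≤ boxQ a b v := by exact_mod_cast hQn1
  have hNn : 100 * (n : ℤ) < N := by omega
  have hNr : (100 : ℝ) * (boxQ a b v : ℝ) < N := by exact_mod_cast hN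
  have hN8 : 8 * (b / a) * nrm v < (N : ℝ) := by
    have : 8 * (b / a) * (n : ℝ) ≤ 100 * (boxQ a b v : ℝ) := by
      have h1 : 8 * (b / a) * (n : ℝ) = 8 * ((b / a) * n) := by ring
      linarith
    rw [← hnn]
    linarith
  obtain ⟨S, hS⟩ := hreg k hkkr N Al wt hwt v hv2 hv12 hk40 hkexp hN8
  have hmo := hmom k hkkm N Al wt hwt v hv2 hv12 hk40 hkexp hN8
  have hon := hone k hkko N Al wt hwt v hv2 hv12 hk40 hkexp hN8
  have hbox : ∀ ω : Ix N → Al, ∀ i ≤ Gn wt v ω, inBox (boxQ a b v) (Gp wt v ω i) :=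
    fun ω i hi => geo_hbox ha hwt v ω hi
  set F : (Ix N → Al) → ℝ := Fv wt v with hF
  -- number of blocks of the last scale
  set cv : ℕ := (col v).toNat with hcv
  have hcvz : (cv : ℤ) = col v := Int.toNat_of_nonneg (by omega)
  set M : ℕ := (cv - 2) / LL J with hM
  have hM1 : M * LL J ≤ cv - 2 := Nat.div_mul_le_self _ _
  have hM2 : cv - 2 < (M + 1) * LL J := by
    have := Nat.lt_mul_div_succ (cv - 2) (hLLpos J)
    rw [mul_comm] at this
    exact this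
  have hk40n : k ^ 40 ≤ n := by exact_mod_cast hk40
  have hkn : k ≤ n := by
    calc k = k ^ 1 := (pow_one k).symm
      _ ≤ k ^ 40 := Nat.pow_le_pow_right (by omega) (by norm_num)
      _ ≤ n := hk40n
  have hcv2 : 2 ≤ cv := by omega
  have hM3 : (M : ℤ) * (LL J : ℤ) + 2 ≤ col v := by
    have h1 : M * LL J + 2 ≤ cv := by omega
    have h2 : ((M * LL J + 2 : ℕ) : ℤ) ≤ (cv : ℤ) := by exact_mod_cast h1
    push_cast at h2
    omega
  have hM4 : col v ≤ (M : ℤ) * (LL J : ℤ) + (LL J : ℤ) + 1 := by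
    have h1 : cv ≤ (M + 1) * LL J + 1 := by omega
    have h2 : (cv : ℤ) ≤ (((M + 1) * LL J + 1 : ℕ) : ℤ) := by exact_mod_cast h1
    push_cast at h2
    have h3 : ((M : ℤ) + 1) * (LL J : ℤ) = (M : ℤ) * (LL J : ℤ) + (LL J : ℤ) := by ring
    omega
  have hML : (M : ℝ) * ((LL J : ℕ) : ℝ) ≤ 2 * n := by
    have h1 : (M : ℤ) * (LL J : ℤ) ≤ 2 * n := by omega
    exact_mod_cast h1
  have hMsc : ∀ j ≤ J, M * R ^ (J - j) * LL j = M * LL J := by
    intro j hj
    rw [hLL]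
    simp only
    calc M * R ^ (J - j) * (L₀ * R ^ j) = M * (L₀ * (R ^ (J - j) * R ^ j)) := by ring
      _ = M * (L₀ * R ^ J) := by rw [← pow_add, Nat.sub_add_cancel hj]
  -- the potential
  set P : ℕ → ℝ := fun j => Pot (2 + 2 * t) F (bk N 1 (LL j)) (M * R ^ (J - j)) with hP
  have hmomj : ∀ j ≤ J, Pot (2 + 2 * c') F (bk N 1 (LL j)) (M * R ^ (J - j)) ≤
      C₁ * n * ((LL j : ℕ) : ℝ) ^ c' := by
    intro j hj
    have h1 := hmo (1 + c') (by rw [hc']; norm_num) (by rw [hc']; norm_num) ?_ (LL j)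
      (hk10.trans (hLL0 j)) ((hLLJ j hj).trans hLJn) 1 (M * R ^ (J - j)) ?_ ?_
    · unfold Pot bk
      have e1 : (2 : ℝ) + 2 * c' = 2 * (1 + c') := by ring
      have e2 : 1 + c' - 1 = c' := by ring
      rw [e2] at h1
      rw [e1]
      refine h1.trans ?_
      gcongr
    · have e3 : (2 : ℝ) * (1 + c' - 1) = 1 / 50 := by rw [hc']; norm_num
      rw [e3]
      exact hk50
    · have : (0 : ℝ) ≤ N := Nat.cast_nonneg _
      push_cast
      linarith
    · have h2 : ((M * R ^ (J - j) : ℕ) : ℝ) * ((LL j : ℕ) : ℝ) ≤ 2 * n := by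
        have h3 : ((M * R ^ (J - j) * LL j : ℕ) : ℝ) = ((M * LL J : ℕ) : ℝ) := by
          rw [hMsc j hj]
        push_cast at h3 ⊢
        rw [h3]
        exact hML
      have h4 : (100 : ℝ) * n < N := by exact_mod_cast hNn
      push_cast at h2 ⊢
      linarith
  have hcase : Ex (fun ω => (F ω - Ex F) ^ 2) ≤ C * (n : ℝ) ^ (1 - ε) := by
    -- the four outer blocks
    obtain ⟨Nh, hNh⟩ : ∃ x : ℕ, x = N / 2 := ⟨_, rfl⟩
    set e : ℤ := 8 * (k : ℤ) ^ 10 with he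
    set T : ℝ := Ex (fun ω => |F ω - av (blkI N (-(Nh : ℤ)) (-e)) F ω| ^ (2 + 2 * t)) +
          Ex (fun ω => |F ω - av (blkI N (-e) 1) F ω| ^ (2 + 2 * t)) +
          Ex (fun ω => |F ω - av (blkI N (1 + M * (LL J : ℕ)) (col v + e)) F ω| ^ (2 + 2 * t)) +
          Ex (fun ω => |F ω - av (blkI N (col v + e) (-(Nh : ℤ) + N)) F ω| ^ (2 + 2 * t))
      with hT
    have hT0 : 0 ≤ T := by
      have h0 : ∀ B : Finset (Ix N), 0 ≤ Ex (fun ω => |F ω - av B F ω| ^ (2 + 2 * t)) :=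
        fun B => Ex_nonneg fun _ => Real.rpow_nonneg (abs_nonneg _) _
      rw [hT]
      have h1 := h0 (blkI N (-(Nh : ℤ)) (-e))
      have h2 := h0 (blkI N (-e) 1)
      have h3 := h0 (blkI N (1 + M * (LL J : ℕ)) (col v + e))
      have h4 := h0 (blkI N (col v + e) (-(Nh : ℤ) + N))
      linarith
    have hk10z : (k : ℤ) ^ 10 ≤ (LL J : ℕ) := by exact_mod_cast hk10.trans (hLL0 J)
    have hk10p : (0 : ℤ) ≤ (k : ℤ) ^ 10 := by positivity
    have he0 : 0 ≤ e := by omega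
    have hLJz : ((LL J : ℕ) : ℤ) ≤ n := by exact_mod_cast hLJn
    have hML0 : (0 : ℤ) ≤ (M : ℤ) * ((LL J : ℕ) : ℤ) := by positivity
    have hTle : T ≤ C₁ * (n : ℝ) ^ (1 - ε₂) := by
      have h1 := r1_outer F (Co := Co) (t := t) (ε₂ := ε₂) (n := n) (k := k) (LJ := LL J) (M := M)
        (Nh := Nh) (cv := col v) (e := e) hCo ht0 ht200 hε₂ hn1r hk0 hk50 (hk10.trans (hLL0 J))
        hLLJn hLJn (hLLpos J) hNn hcol1 hcol2 hM3 hM4 hNh he hon
      exact h1.trans (mul_le_mul_of_nonneg_right (by linarith) (Real.rpow_nonneg hn0r.le _))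
    -- conclusion
    refine hnum n L₀ J M (M + 4) P _ T hn1r hL4 hJ8 ?_ ?_ (Ex_nonneg fun _ => sq_nonneg _) hT0
      hTle (fun j => Pot_nonneg _ _ _ _) ?_ ?_ ?_
    · rw [← hLLr J]
      exact hML.trans (mul_le_mul_of_nonneg_right (by linarith) hn0r.le)
    · rw [← hLLr J]
      have h1 : ((LL J : ℕ) : ℝ) ≤ n := by exact_mod_cast hLJn
      have h2 : ((M + 4 : ℕ) : ℝ) * ((LL J : ℕ) : ℝ) =
          (M : ℝ) * ((LL J : ℕ) : ℝ) + 4 * ((LL J : ℕ) : ℝ) := by push_cast; ring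
      have h3 : 6 * (n : ℝ) ≤ C₁ * n := mul_le_mul_of_nonneg_right (by linarith) hn0r.le
      linarith
    · -- start
      have h1 := r1_start F (t := t) (c' := c') ht0 (by rw [hc']; linarith) (bk N 1 (LL 0))
        (M * R ^ (J - 0)) (S := C₁ * n * ((LL 0 : ℕ) : ℝ) ^ c') (X := C₁ * n / L₀)
        (hmomj 0 (Nat.zero_le _)) ?_
      · have e0 : ((LL 0 : ℕ) : ℝ) = (L₀ : ℝ) := by rw [hLLr]; simp
        rw [e0] at h1
        exact h1
      · have hL₀r : (0 : ℝ) < L₀ := by exact_mod_cast hL₀pos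
        rw [le_div_iff₀ hL₀r]
        have h2 : M * R ^ (J - 0) * LL 0 = M * LL J := hMsc 0 (Nat.zero_le _)
        have h3 : ((M * R ^ (J - 0) : ℕ) : ℝ) * L₀ = (M : ℝ) * ((LL J : ℕ) : ℝ) := by
          have h4 : ((M * R ^ (J - 0) * LL 0 : ℕ) : ℝ) = ((M * LL J : ℕ) : ℝ) := by rw [h2]
          have e0 : ((LL 0 : ℕ) : ℝ) = (L₀ : ℝ) := by rw [hLLr]; simp
          push_cast at h4 ⊢
          rw [e0] at h4
          exact h4
        rw [h3]
        exact hML.trans (mul_le_mul_of_nonneg_right (by linarith) hn0r.le)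
    · -- step
      intro j hj
      have hj1 : j + 1 ≤ J := hj
      have hMR : M * R ^ (J - (j + 1)) * R = M * R ^ (J - j) := by
        have : J - j = J - (j + 1) + 1 := by omega
        rw [this, pow_succ]; ring
      have hMj : M * R ^ (J - (j + 1)) * (LL j * R) = M * LL J := by
        rw [← hLLs]; exact hMsc (j + 1) hj1
      have hst := r1_step F (t := t) (c' := c') ht0 (by rw [hc']; linarith) (R := R) (by omega)
        (M * R ^ (J - (j + 1))) (bk N 1 (LL j)) (bk N 1 (LL j * R))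
        (fun m o => ¬ GoodWin wt a b v (boxQ a b v) (1 + (m : ℤ) * ((LL j : ℕ) * R)) (LL j : ℕ) R
          ε₀ κ o) (K := K) (Cbig := Cbig) (S := C₁ * n * ((LL j : ℕ) : ℝ) ^ c')
        (β := C₁ * (n / ((LL j : ℕ) : ℝ)) * (n : ℝ) ^ (-ε₂)) (ρ := (1 - t) * (R : ℝ) ^ t)
        (by linarith) hCbig0 (mul_nonneg (by linarith) (by linarith)) ?_ ?_ ?_ ?_
      · rw [hMR] at hst
        have e1 : bk N 1 (LL (j + 1)) = bk N 1 (LL j * R) := by rw [hLLs]
        have e3 : P (j + 1) = Pot (2 + 2 * t) F (bk N 1 (LL j * R)) (M * R ^ (J - (j + 1))) := by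
          rw [hP]; simp only; rw [e1]
        rw [e3]
        refine hst.trans_eq ?_
        rw [← hLLr j]
      · intro m _ o
        exact r1_K F 1 (LL j) R m ht0 (by linarith) o
      · intro m _ o hgood hbig
        rw [not_not] at hgood
        rw [← r1_aW] at hbig
        rw [← r1_aW, ← r1_bW]
        exact hW t ht0 htt₀ N Al wt a b v _ _ _ κ o hgood hbig
      · rw [hMR]
        exact hmomj j hj.le
      · have hbad := r1_bad hS hCr (by omega) ha hwt hN hbox (c₀ := 1) (L := LL j) (R := R)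
          (M := M * R ^ (J - (j + 1))) one_pos ?_ ?_ (hLLodd j) hε₀ ?_ (by omega) hgen
        · refine hbad.trans (r1_prob hε₂ hn1r hk0 hk50 hη0 hε₀ hCr0 (hLLpr j) hR1
            (Nat.cast_nonneg _) ?_ hC₁b)
          have h5 : ((M * R ^ (J - (j + 1)) : ℕ) : ℝ) * (((LL j : ℕ) : ℝ) * R) =
              (M : ℝ) * ((LL J : ℕ) : ℝ) := by exact_mod_cast hMj
          rw [h5]
          exact hML
        · have h8 : (((M * R ^ (J - (j + 1)) * (LL j * R) : ℕ)) : ℤ) = ((M * LL J : ℕ) : ℤ) := by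
            rw [hMj]
          push_cast at h8 ⊢
          rw [h8]
          omega
        · have h9 : 100 ^ 11 ≤ k ^ 11 := Nat.pow_le_pow_left hk100' 11
          have h10 : (40 : ℕ) ≤ 100 ^ 11 := by norm_num
          exact h10.trans (h9.trans (hk11.trans (hLL0 j)))
        · have h11 : (k : ℝ) ^ 11 ≤ ((LL j : ℕ) : ℝ) := by exact_mod_cast hk11.trans (hLL0 j)
          calc 16 * Cr * (k : ℝ) ^ 10 ≤ k * (k : ℝ) ^ 10 :=
                mul_le_mul_of_nonneg_right hkCr (by positivity)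
            _ = (k : ℝ) ^ 11 := by ring
            _ ≤ _ := h11
    · -- end
      have h1 := r1_end F (t := t) ht0 (by linarith) 1 (LL J) M (x0 := -(Nh : ℤ))
        (x1 := -e) (x2 := col v + e) (x3 := -(Nh : ℤ) + N) (by omega) (by omega)
        (by omega) (by omega) le_rfl
      have h2 : P J = Pot (2 + 2 * t) F (bk N 1 (LL J)) M := by
        rw [hP]; simp
      rw [h2]
      refine h1.trans ?_
      rw [← hT, ← mul_assoc, hK]
      apply mul_le_mul_of_nonneg_right _ (add_nonneg (Pot_nonneg _ _ _ _) hT0)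
      apply mul_le_mul_of_nonneg_right _ (Real.rpow_nonneg (Nat.cast_nonneg _) _)
      calc Real.exp (12 * t) = Real.exp (12 * t) * 1 := (mul_one _).symm
        _ ≤ _ := mul_le_mul_of_nonneg_left hRt1 (Real.exp_pos _).le
  exact hcase

/-- the model bound -/
theorem model_bound (hWC : WindowClaim) : ModelBound := by
  obtain ⟨R, t₀, C₀, ε₀, hR, hRo, ht₀, hC₀, hε₀, hW⟩ := hWC
  intro a b ha hab
  rcases hab.eq_or_lt with rfl | hab
  · -- constant passage time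
    refine ⟨1 / 2, by norm_num, by norm_num, 0, le_rfl, ?_⟩
    intro v hv2 hv12 hv1 N _ hN _ Al _ _ wt hwt hgen
    have hF : ∀ ω : Ix N → Al, Fv wt v ω = a * nrm v := fun ω =>
      le_antisymm (geo_Fv_le ha hwt v ω) (geo_le_Fv ha hwt v ω)
    have hE : Ex (Fv (N := N) wt v) = a * nrm v := by
      have : Fv (N := N) wt v = fun _ => a * nrm v := funext hF
      rw [this, Ex_const]
    have : (fun ω : Ix N → Al => (Fv wt v ω - Ex (Fv (N := N) wt v)) ^ 2) = fun _ => 0 := by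
      funext ω
      rw [hE, hF]
      ring
    rw [this, Ex_const]
    simp
  · obtain ⟨ε, hε, C, hC, n₀, hlarge⟩ := r1_large hR hRo ht₀ hC₀ hε₀ hW ha hab
    have hb0 : 0 < b := by linarith
    refine ⟨min ε (1 / 2), lt_min hε (by norm_num), lt_of_le_of_lt (min_le_right _ _) (by norm_num),
      C + (b * (n₀ + 1)) ^ 2, by positivity, ?_⟩
    intro v hv2 hv12 hv1 N _ hN _ Al _ _ wt hwt hgen
    have hnv : ((v.1 + v.2 : ℤ) : ℝ) = (nrm v : ℝ) := by
      have h1 : ((nrm v : ℕ) : ℤ) = v.1 + v.2 := by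
        unfold nrm
        push_cast
        rw [abs_of_nonneg hv2, abs_of_pos hv1]
      rw [← h1]
      simp
    rw [hnv] at hgen ⊢
    set n : ℕ := nrm v with hn
    have hn1 : 1 ≤ n := by
      rw [hn]; unfold nrm
      omega
    have hn1r : (1 : ℝ) ≤ n := by exact_mod_cast hn1
    have hmono : (n : ℝ) ^ (1 - ε) ≤ (n : ℝ) ^ (1 - min ε (1 / 2)) := by
      apply Real.rpow_le_rpow_of_exponent_le hn1r
      have := min_le_left ε (1 / 2)
      linarith
    have hone' : 1 ≤ (n : ℝ) ^ (1 - min ε (1 / 2)) := by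
      apply Real.one_le_rpow hn1r
      have := min_le_right ε (1 / 2)
      linarith
    rcases le_or_gt n₀ n with hge | hlt
    · have h1 := hlarge v hv2 hv12 hv1 hge N hN Al wt hwt hgen
      calc _ ≤ C * (n : ℝ) ^ (1 - ε) := h1
        _ ≤ C * (n : ℝ) ^ (1 - min ε (1 / 2)) := mul_le_mul_of_nonneg_left hmono hC
        _ ≤ _ := by
            apply mul_le_mul_of_nonneg_right _ (by linarith)
            have : 0 ≤ (b * ((n₀ : ℝ) + 1)) ^ 2 := sq_nonneg _
            linarith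
    · -- small `v`
      have hup : ∀ ω : Ix N → Al, Fv wt v ω ≤ b * n := fun ω => geo_Fv_le ha hwt v ω
      have hlo : ∀ ω : Ix N → Al, 0 ≤ Fv wt v ω := fun ω => geo_Fv_nonneg ha hwt v ω
      have hEu : Ex (Fv (N := N) wt v) ≤ b * n := by
        have := Ex_mono hup
        rwa [Ex_const] at this
      have hEl : 0 ≤ Ex (Fv (N := N) wt v) := Ex_nonneg hlo
      have hnn₀ : (n : ℝ) ≤ n₀ + 1 := by
        have : (n : ℝ) < n₀ := by exact_mod_cast hlt
        linarith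
      have hbn : b * (n : ℝ) ≤ b * (n₀ + 1) := mul_le_mul_of_nonneg_left hnn₀ hb0.le
      have h1 : Ex (fun ω : Ix N → Al => (Fv wt v ω - Ex (Fv (N := N) wt v)) ^ 2) ≤
          (b * (n₀ + 1)) ^ 2 := by
        have h2 : ∀ ω : Ix N → Al, (Fv wt v ω - Ex (Fv (N := N) wt v)) ^ 2 ≤
            (b * ((n₀ : ℝ) + 1)) ^ 2 := by
          intro ω
          have h3 := hup ω
          have h4 := hlo ω
          apply sq_le_sq'
          · linarith
          · linarith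
        have := Ex_mono h2
        rwa [Ex_const] at this
      calc _ ≤ (b * ((n₀ : ℝ) + 1)) ^ 2 * 1 := by rw [mul_one]; exact h1
        _ ≤ (b * ((n₀ : ℝ) + 1)) ^ 2 * (n : ℝ) ^ (1 - min ε (1 / 2)) :=
            mul_le_mul_of_nonneg_left hone' (sq_nonneg _)
        _ ≤ _ := by
            apply mul_le_mul_of_nonneg_right _ (by linarith)
            linarith

end Pool.Agent.FPZ
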