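import Pool.Agent.FPZ.R1Hol

/-!
Module R1Stp (section 1): one step of the potential recursion.

`Pot p F blk M = ∑_{m < M} E |F - E_{blk m} F|^p`.  If every window `W m` (`m < M`, union of `R` blocks) satisfies
`b ≤ K a` for all outsides and `b ≤ ρ a` for the outsides which are not bad and have `a ≥ Cbig`, then
`Pot W ≤ ρ Pot blk + K (R S^{1/s} β^{1-1/s} + M Cbig)`, `s = (1+c')/(1+t)`.
-/

set_option autoImplicit false

noncomputable section

namespace Pool.Agent.FPZ

open Finset Pool.FPP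

variable {ι α : Type} [Fintype ι] [DecidableEq ι] [Fintype α]

/-- total energy with exponent `p` of the blocks `blk m`, `m < M` -/
def Pot (p : ℝ) (F : (ι → α) → ℝ) (blk : ℕ → Finset ι) (M : ℕ) : ℝ :=
  ∑ m ∈ range M, Ex (fun ω => |F ω - av (blk m) F ω| ^ p)

/-- energy of the block `B` given the outside of the window `W` -/
def enC (p : ℝ) (F : (ι → α) → ℝ) (W B : Finset ι) (o : ι → α) : ℝ :=
  av W (fun ω => |F ω - av B F ω| ^ p) o

theorem enC_nonneg (p : ℝ) (F : (ι → α) → ℝ) (W B : Finset ι) (o : ι → α) :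
    0 ≤ enC p F W B o := Ex_nonneg fun _ => Real.rpow_nonneg (abs_nonneg _) _

theorem Pot_nonneg (p : ℝ) (F : (ι → α) → ℝ) (blk : ℕ → Finset ι) (M : ℕ) :
    0 ≤ Pot p F blk M :=
  Finset.sum_nonneg fun _ _ => Ex_nonneg fun _ => Real.rpow_nonneg (abs_nonneg _) _

theorem r1_sum_blocks (g : ℕ → ℝ) (R M : ℕ) :
    ∑ m ∈ range M, ∑ i : Fin R, g (m * R + i) = ∑ k ∈ range (M * R), g k := by
  induction M with
  | zero => simp
  | succ M ih =>
    rw [Finset.sum_range_succ, ih, Nat.succ_mul, Finset.sum_range_add]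
    congr 1
    exact (Finset.sum_range (fun i => g (M * R + i))).symm

variable [Nonempty α]

theorem r1_Ex_enC (p : ℝ) (F : (ι → α) → ℝ) (W B : Finset ι) :
    Ex (enC p F W B) = Ex (fun ω => |F ω - av B F ω| ^ p) := Ex_av _ _

/-- one step of the recursion -/
theorem r1_step (F : (ι → α) → ℝ) {t c' : ℝ} (ht : 0 < t) (htc : t < c') {R : ℕ} (hR : 1 ≤ R)
    (M : ℕ) (blk W : ℕ → Finset ι) (Bad : ℕ → (ι → α) → Prop) {K Cbig S β ρ : ℝ}
    (hK0 : 0 ≤ K) (hCb : 0 ≤ Cbig) (hρ0 : 0 ≤ ρ)
    (hK : ∀ m < M, ∀ o, enC (2 + 2 * t) F (W m) (W m) o ≤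
      K * ∑ i : Fin R, enC (2 + 2 * t) F (W m) (blk (m * R + i)) o)
    (hgood : ∀ m < M, ∀ o, ¬ Bad m o →
      Cbig ≤ ∑ i : Fin R, enC (2 + 2 * t) F (W m) (blk (m * R + i)) o →
      enC (2 + 2 * t) F (W m) (W m) o ≤
        ρ * ∑ i : Fin R, enC (2 + 2 * t) F (W m) (blk (m * R + i)) o)
    (hS : Pot (2 + 2 * c') F blk (M * R) ≤ S)
    (hβ : ∑ m ∈ range M, Pr (Bad m) ≤ β) :
    Pot (2 + 2 * t) F W M ≤ ρ * Pot (2 + 2 * t) F blk (M * R) +
      K * (R * (S ^ ((1 + t) / (1 + c')) * β ^ ((c' - t) / (1 + c'))) + M * Cbig) := by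
  classical
  set p : ℝ := 2 + 2 * t with hp
  set a : ℕ → (ι → α) → ℝ := fun m o => ∑ i : Fin R, enC p F (W m) (blk (m * R + i)) o with ha
  have ha0 : ∀ m o, 0 ≤ a m o := fun m o => Finset.sum_nonneg fun i _ => enC_nonneg _ _ _ _ _
  set s : ℝ := (1 + c') / (1 + t) with hs
  have h1t : 0 < 1 + t := by linarith
  have h1c : 0 < 1 + c' := by linarith
  have hs1 : 1 < s := by rw [hs, lt_div_iff₀ h1t]; linarith
  have hs0 : 0 < s := by linarith
  have hps : p * s = 2 + 2 * c' := by rw [hp, hs]; field_simp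
  have hinv : 1 / s = (1 + t) / (1 + c') := by rw [hs, one_div_div]
  have hinv' : 1 - 1 / s = (c' - t) / (1 + c') := by rw [hinv]; field_simp; ring
  -- pointwise inequality
  have hpt : ∀ m < M, ∀ o, enC p F (W m) (W m) o ≤
      ρ * a m o + K * ((if Bad m o then a m o else 0) + Cbig) := by
    intro m hm o
    by_cases hb : Bad m o
    · rw [if_pos hb]
      have h1 := hK m hm o
      have h2 : 0 ≤ ρ * a m o := mul_nonneg hρ0 (ha0 m o)
      have h3 : 0 ≤ K * Cbig := mul_nonneg hK0 hCb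
      calc enC p F (W m) (W m) o ≤ K * a m o := h1
        _ ≤ _ := by rw [mul_add]; linarith
    · rw [if_neg hb, zero_add]
      by_cases hc : Cbig ≤ a m o
      · have h1 := hgood m hm o hb hc
        have h3 : 0 ≤ K * Cbig := mul_nonneg hK0 hCb
        calc enC p F (W m) (W m) o ≤ ρ * a m o := h1
          _ ≤ _ := by linarith
      · have h1 := hK m hm o
        have h2 : 0 ≤ ρ * a m o := mul_nonneg hρ0 (ha0 m o)
        have h3 : K * a m o ≤ K * Cbig := mul_le_mul_of_nonneg_left (not_le.mp hc).le hK0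
        calc enC p F (W m) (W m) o ≤ K * a m o := h1
          _ ≤ _ := by linarith
  -- averages
  have hExa : ∀ m, Ex (a m) = ∑ i : Fin R, Ex (fun ω => |F ω - av (blk (m * R + i)) F ω| ^ p) := by
    intro m
    rw [ha]
    have := Ex_sum (univ : Finset (Fin R)) (fun i => enC p F (W m) (blk (m * R + i)))
    simp only at this ⊢
    rw [this]
    exact Finset.sum_congr rfl fun i _ => r1_Ex_enC _ _ _ _
  have hsum1 : ∑ m ∈ range M, Ex (a m) = Pot p F blk (M * R) := by
    unfold Pot
    rw [← r1_sum_blocks]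
    exact Finset.sum_congr rfl fun m _ => hExa m
  have hone : Pot p F W M ≤ ρ * Pot p F blk (M * R) +
      K * (∑ m ∈ range M, Ex (fun o => if Bad m o then a m o else 0) + M * Cbig) := by
    calc Pot p F W M = ∑ m ∈ range M, Ex (enC p F (W m) (W m)) := by
          unfold Pot
          exact Finset.sum_congr rfl fun m _ => (r1_Ex_enC _ _ _ _).symm
      _ ≤ ∑ m ∈ range M, (ρ * Ex (a m) +
            K * (Ex (fun o => if Bad m o then a m o else 0) + Cbig)) := by
          apply Finset.sum_le_sum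
          intro m hm
          have h1 := Ex_mono (fun o => hpt m (Finset.mem_range.mp hm) o)
          refine h1.trans_eq ?_
          rw [Ex_add, Ex_mul_left, Ex_mul_left, Ex_add, Ex_const]
      _ = _ := by
          rw [Finset.sum_add_distrib, ← Finset.mul_sum, ← Finset.mul_sum, hsum1,
            Finset.sum_add_distrib, Finset.sum_const, Finset.card_range, nsmul_eq_mul]
  refine hone.trans ?_
  -- Hölder
  have hExs : ∀ m, Ex (fun o => a m o ^ s) ≤ (R : ℝ) ^ (s - 1) *
      ∑ i : Fin R, Ex (fun ω => |F ω - av (blk (m * R + i)) F ω| ^ (2 + 2 * c')) := by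
    intro m
    have h1 : ∀ o, a m o ^ s ≤ (R : ℝ) ^ (s - 1) *
        ∑ i : Fin R, enC (2 + 2 * c') F (W m) (blk (m * R + i)) o := by
      intro o
      have h2 := r1_sum_rpow_le (univ : Finset (Fin R))
        (x := fun i => enC p F (W m) (blk (m * R + i)) o)
        (fun i _ => enC_nonneg _ _ _ _ _) hs1.le
      rw [Finset.card_univ, Fintype.card_fin] at h2
      refine h2.trans ?_
      apply mul_le_mul_of_nonneg_left _ (Real.rpow_nonneg (Nat.cast_nonneg _) _)
      apply Finset.sum_le_sum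
      intro i _
      have h3 := r1_av_rpow_le (W m) (g := fun ω => |F ω - av (blk (m * R + i)) F ω| ^ p)
        (fun _ => Real.rpow_nonneg (abs_nonneg _) _) hs1.le o
      refine h3.trans_eq ?_
      unfold enC
      congr 1
      funext ω
      rw [r1_abs_rpow, hps]
    refine (Ex_mono h1).trans_eq ?_
    rw [Ex_mul_left, Ex_sum (univ : Finset (Fin R))
      (fun i => enC (2 + 2 * c') F (W m) (blk (m * R + i)))]
    congr 1
    exact Finset.sum_congr rfl fun i _ => r1_Ex_enC _ _ _ _
  have hPr0 : ∀ m, 0 ≤ Pr (Bad m) := fun m => Ex_nonneg fun _ => by split_ifs <;> norm_num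
  have hEx0 : ∀ m, 0 ≤ Ex (fun o => a m o ^ s) :=
    fun m => Ex_nonneg fun o => Real.rpow_nonneg (ha0 m o) _
  have htwo : ∑ m ∈ range M, Ex (fun o => if Bad m o then a m o else 0) ≤
      R * (S ^ ((1 + t) / (1 + c')) * β ^ ((c' - t) / (1 + c'))) := by
    calc ∑ m ∈ range M, Ex (fun o => if Bad m o then a m o else 0)
        ≤ ∑ m ∈ range M, (Ex (fun o => a m o ^ s)) ^ (1 / s) * (Pr (Bad m)) ^ (1 - 1 / s) :=
          Finset.sum_le_sum fun m _ => r1_Ex_ind_le (ha0 m) (Bad m) hs1
      _ ≤ (∑ m ∈ range M, Ex (fun o => a m o ^ s)) ^ (1 / s) *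
            (∑ m ∈ range M, Pr (Bad m)) ^ (1 - 1 / s) :=
          r1_sum_holder _ (fun m _ => hEx0 m) (fun m _ => hPr0 m) hs1
      _ ≤ ((R : ℝ) ^ (s - 1) * S) ^ (1 / s) * β ^ (1 - 1 / s) := by
          have hA : ∑ m ∈ range M, Ex (fun o => a m o ^ s) ≤ (R : ℝ) ^ (s - 1) * S := by
            calc ∑ m ∈ range M, Ex (fun o => a m o ^ s)
                ≤ ∑ m ∈ range M, (R : ℝ) ^ (s - 1) * ∑ i : Fin R,
                    Ex (fun ω => |F ω - av (blk (m * R + i)) F ω| ^ (2 + 2 * c')) :=
                  Finset.sum_le_sum fun m _ => hExs m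
              _ = (R : ℝ) ^ (s - 1) * Pot (2 + 2 * c') F blk (M * R) := by
                  rw [← Finset.mul_sum]
                  unfold Pot
                  rw [← r1_sum_blocks]
              _ ≤ _ := mul_le_mul_of_nonneg_left hS (Real.rpow_nonneg (Nat.cast_nonneg _) _)
          have hi0 : 0 ≤ 1 / s := by positivity
          have hi1 : 0 ≤ 1 - 1 / s := by
            rw [hinv']
            apply div_nonneg <;> linarith
          apply mul_le_mul
          · exact Real.rpow_le_rpow (Finset.sum_nonneg fun m _ => hEx0 m) hA hi0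
          · exact Real.rpow_le_rpow (Finset.sum_nonneg fun m _ => hPr0 m) hβ hi1
          · exact Real.rpow_nonneg (Finset.sum_nonneg fun m _ => hPr0 m) _
          · apply Real.rpow_nonneg
            exact le_trans (Finset.sum_nonneg fun m _ => hEx0 m) hA
      _ ≤ _ := by
          have hS0 : 0 ≤ S := le_trans (Pot_nonneg _ _ _ _) hS
          have hβ0 : 0 ≤ β := le_trans (Finset.sum_nonneg fun m _ => hPr0 m) hβ
          have hR1 : (1 : ℝ) ≤ R := by exact_mod_cast hR
          rw [Real.mul_rpow (Real.rpow_nonneg (Nat.cast_nonneg _) _) hS0,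
            ← Real.rpow_mul (Nat.cast_nonneg _), hinv', hinv, mul_assoc]
          apply mul_le_mul_of_nonneg_right _
            (mul_nonneg (Real.rpow_nonneg hS0 _) (Real.rpow_nonneg hβ0 _))
          calc (R : ℝ) ^ ((s - 1) * ((1 + t) / (1 + c'))) ≤ (R : ℝ) ^ (1 : ℝ) := by
                apply Real.rpow_le_rpow_of_exponent_le hR1
                rw [← hinv, sub_mul, mul_one_div_cancel hs0.ne', one_mul]
                have : 0 < 1 / s := by positivity
                linarith
            _ = R := Real.rpow_one _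
  gcongr

end Pool.Agent.FPZ
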