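import Mathlib

/-!
Module R8Clp (section 8): the clamp lemma, a deterministic statement about a finite sequence of integers
`x 0, …, x M` (positions of the ends of the pieces of the geodesic) with `|x (i+1) - x i| ≤ D` and weights (slacks) `s i ≥ 0`:
`(x (i+1) - x i)^- ≤ C s i` for all `i < M` and `c D ≤ s i + C (x (i+1) - x i)^+` for the full pieces `i ∈ full`.

PROOF. For `α ≤ β` let `φ(y) = max (α-D) (min (β+D) y)` (monotone, 1-Lipschitz). Telescoping:
`∑_{i<M} (φ(x(i+1)) - φ(x i)) = φ(x M) - φ(x 0)`. If `x i ∈ [α,β]` then `x (i+1) ∈ [α-D,β+D]` and the increment of `φ` is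
`x(i+1) - x i`. In all cases the increment is `≥ -(x(i+1)-x i)^- ≥ -C s i`, and it is `0` unless `x i ∈ [α-2D, β+2D]`.
So `∑_{i: x i ∈ [α,β]} (x(i+1)-x i) ≤ φ(x M) - φ(x 0) + C ∑_{i : x i ∈ [α-2D,β+2D]} s i`, and adding negative parts
`∑_{i: x i∈[α,β]} (x(i+1)-x i)^+ ≤ φ(x M) - φ(x 0) + 2C ∑_{i: x i ∈ [α-2D,β+2D]} s i`. Sum the second hypothesis over the full pieces
with `x i ∈ [α,β]`: `c D #{…} ≤ (1 + 2CC') ∑ s i + C' (φ(x M) - φ(x 0))`.
Backtrack: same with `φ(y) = max α (min β y)` on the piece sequence from `p` to `q`, `x p ≥ β`, `x q ≤ α`: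
`-(β-α) = φ(x q) - φ(x p) ≥ -C ∑_{p ≤ i<q, x i ∈ [α-D,β+D]} s i`.
-/

set_option autoImplicit false
noncomputable section
namespace Pool.Agent.FPZ
open Finset

def clp (α β y : ℤ) : ℝ := ((max α (min β y) : ℤ) : ℝ)

/-- increments of the clamp -/
private theorem clp_inc_ge {C : ℝ} {α β x y : ℤ} {s : ℝ}
    (hneg : (max 0 ((x : ℝ) - y)) ≤ C * s) : -(C * s) ≤ clp α β y - clp α β x := by
  unfold clp
  have h : (max α (min β x) : ℤ) - max α (min β y) ≤ max 0 (x - y) := by omega
  have h' : (((max α (min β x) : ℤ) : ℝ)) - ((max α (min β y) : ℤ) : ℝ) ≤ max 0 ((x : ℝ) - y) := by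
    exact_mod_cast h
  linarith

theorem clamp_count {M : ℕ} {x : ℕ → ℤ} {s : ℕ → ℝ} {D : ℤ} {c C C' : ℝ} (hC : 0 ≤ C) (hC' : 0 ≤ C')
    (hD : ∀ i < M, |x (i + 1) - x i| ≤ D) (hs : ∀ i < M, 0 ≤ s i)
    (hneg : ∀ i < M, (max 0 (x i - x (i + 1)) : ℝ) ≤ C * s i) (full : Finset ℕ)
    (hfull : ∀ i ∈ full, i < M ∧ c * D ≤ s i + C' * max 0 ((x (i + 1) : ℝ) - x i))
    {α β : ℤ} (hαβ : α ≤ β) :
    c * D * ((full.filter (fun i => α ≤ x i ∧ x i ≤ β)).card : ℝ) ≤
      (1 + 2 * C * C') * ∑ i ∈ (range M).filter (fun i => α - 2 * D ≤ x i ∧ x i ≤ β + 2 * D), s i +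
      C' * (clp (α - D) (β + D) (x M) - clp (α - D) (β + D) (x 0)) := by
  classical
  set I := (range M).filter (fun i => α - 2 * D ≤ x i ∧ x i ≤ β + 2 * D) with hI
  set Jf := full.filter (fun i => α ≤ x i ∧ x i ≤ β) with hJf
  set J := (range M).filter (fun i => α ≤ x i ∧ x i ≤ β) with hJ
  by_cases hM : M = 0
  · subst hM
    have : Jf = ∅ := by
      rw [hJf, filter_eq_empty_iff]
      intro i hi
      exact absurd (hfull i hi).1 (by omega)
    rw [this]
    simp [hI]
  have hD0 : 0 ≤ D := by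
    have := hD 0 (by omega)
    exact (abs_nonneg _).trans this
  have hJI : J ⊆ I := by
    intro i hi
    rw [hJ, mem_filter] at hi
    rw [hI, mem_filter]
    exact ⟨hi.1, by omega, by omega⟩
  set φ : ℤ → ℝ := clp (α - D) (β + D) with hφ
  have htel : ∑ i ∈ range M, (φ (x (i + 1)) - φ (x i)) = φ (x M) - φ (x 0) :=
    Finset.sum_range_sub (fun i => φ (x i)) M
  -- termwise lower bound
  have hterm : ∀ i ∈ range M, (if i ∈ J then max 0 ((x (i + 1) : ℝ) - x i) else 0) -
      (if i ∈ I then 2 * C * s i else 0) ≤ φ (x (i + 1)) - φ (x i) := by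
    intro i hi
    rw [mem_range] at hi
    have hDi := hD i hi
    rw [abs_le] at hDi
    have hsi := hs i hi
    have hni := hneg i hi
    have hCs : 0 ≤ C * s i := mul_nonneg hC hsi
    by_cases hiJ : i ∈ J
    · have hiI := hJI hiJ
      rw [if_pos hiJ, if_pos hiI]
      rw [hJ, mem_filter] at hiJ
      have h1 : φ (x (i + 1)) = x (i + 1) := by
        rw [hφ]; unfold clp
        have : (max (α - D) (min (β + D) (x (i + 1))) : ℤ) = x (i + 1) := by omega
        rw [this]
      have h2 : φ (x i) = x i := by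
        rw [hφ]; unfold clp
        have : (max (α - D) (min (β + D) (x i)) : ℤ) = x i := by omega
        rw [this]
      rw [h1, h2]
      rcases le_total ((x i : ℝ)) (x (i + 1)) with h | h
      · rw [max_eq_right (by linarith)]
        linarith
      · rw [max_eq_left (by linarith)]
        rw [max_eq_right (by linarith)] at hni
        linarith
    · rw [if_neg hiJ]
      by_cases hiI : i ∈ I
      · rw [if_pos hiI]
        have := clp_inc_ge (α := α - D) (β := β + D) hni
        simp only [hφ]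
        linarith
      · rw [if_neg hiI]
        have : φ (x (i + 1)) = φ (x i) := by
          rw [hφ]; unfold clp
          have hnot : ¬ (α - 2 * D ≤ x i ∧ x i ≤ β + 2 * D) := by
            intro hc
            exact hiI (by rw [hI, mem_filter, mem_range]; exact ⟨hi, hc⟩)
          have : (max (α - D) (min (β + D) (x (i + 1))) : ℤ) = max (α - D) (min (β + D) (x i)) := by
            omega
          rw [this]
        rw [this]
        simp
  have hsum := Finset.sum_le_sum hterm
  rw [htel, Finset.sum_sub_distrib] at hsum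
  have e1 : ∑ i ∈ range M, (if i ∈ J then max 0 ((x (i + 1) : ℝ) - x i) else 0) =
      ∑ i ∈ J, max 0 ((x (i + 1) : ℝ) - x i) := by
    rw [← Finset.sum_filter]
    congr 1
    ext i
    simp [hJ]
  have e2 : ∑ i ∈ range M, (if i ∈ I then 2 * C * s i else 0) = 2 * C * ∑ i ∈ I, s i := by
    rw [← Finset.sum_filter, Finset.mul_sum]
    apply Finset.sum_congr
    · ext i
      simp [hI]
    · intros; rfl
  rw [e1, e2] at hsum
  have hJfJ : Jf ⊆ J := by
    intro i hi
    rw [hJf, mem_filter] at hi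
    rw [hJ, mem_filter, mem_range]
    exact ⟨(hfull i hi.1).1, hi.2⟩
  have h3 : c * D * (Jf.card : ℝ) ≤ ∑ i ∈ Jf, (s i + C' * max 0 ((x (i + 1) : ℝ) - x i)) := by
    have : c * D * (Jf.card : ℝ) = ∑ i ∈ Jf, (c * D) := by
      rw [Finset.sum_const, nsmul_eq_mul]; ring
    rw [this]
    apply Finset.sum_le_sum
    intro i hi
    rw [hJf, mem_filter] at hi
    exact (hfull i hi.1).2
  have h4 : ∑ i ∈ Jf, (s i + C' * max 0 ((x (i + 1) : ℝ) - x i)) ≤
      ∑ i ∈ I, s i + C' * ∑ i ∈ J, max 0 ((x (i + 1) : ℝ) - x i) := by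
    rw [Finset.sum_add_distrib, ← Finset.mul_sum]
    apply add_le_add
    · apply Finset.sum_le_sum_of_subset_of_nonneg (hJfJ.trans hJI)
      intro i hi _
      rw [hI, mem_filter, mem_range] at hi
      exact hs i hi.1
    · apply mul_le_mul_of_nonneg_left _ hC'
      apply Finset.sum_le_sum_of_subset_of_nonneg hJfJ
      intro i _ _
      exact le_max_left _ _
  have h5 : C' * ∑ i ∈ J, max 0 ((x (i + 1) : ℝ) - x i) ≤
      C' * (φ (x M) - φ (x 0) + 2 * C * ∑ i ∈ I, s i) := by
    apply mul_le_mul_of_nonneg_left _ hC'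
    linarith
  nlinarith [h3, h4, h5]

theorem clamp_backtrack {M : ℕ} {x : ℕ → ℤ} {s : ℕ → ℝ} {D : ℤ} {C : ℝ} (hC : 0 ≤ C)
    (hD : ∀ i < M, |x (i + 1) - x i| ≤ D) (hs : ∀ i < M, 0 ≤ s i)
    (hneg : ∀ i < M, (max 0 (x i - x (i + 1)) : ℝ) ≤ C * s i)
    {α β : ℤ} (hαβ : α ≤ β) {p q : ℕ} (hpq : p ≤ q) (hq : q ≤ M) (hp1 : β ≤ x p) (hq1 : x q ≤ α) :
    (β : ℝ) - α ≤ C * ∑ i ∈ (range M).filter (fun i => α - D ≤ x i ∧ x i ≤ β + D), s i := by
  classical
  set I := (range M).filter (fun i => α - D ≤ x i ∧ x i ≤ β + D) with hI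
  set φ : ℤ → ℝ := clp α β with hφ
  have htel : ∑ i ∈ Ico p q, (φ (x (i + 1)) - φ (x i)) = φ (x q) - φ (x p) :=
    Finset.sum_Ico_sub (fun i => φ (x i)) hpq
  have hterm : ∀ i ∈ Ico p q, -(if i ∈ I then C * s i else 0) ≤ φ (x (i + 1)) - φ (x i) := by
    intro i hi
    rw [mem_Ico] at hi
    have hiM : i < M := by omega
    have hDi := hD i hiM
    rw [abs_le] at hDi
    by_cases hiI : i ∈ I
    · rw [if_pos hiI]
      exact clp_inc_ge (hneg i hiM)
    · rw [if_neg hiI]
      have : φ (x (i + 1)) = φ (x i) := by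
        rw [hφ]; unfold clp
        have hnot : ¬ (α - D ≤ x i ∧ x i ≤ β + D) := by
          intro hc
          exact hiI (by rw [hI, mem_filter, mem_range]; exact ⟨hiM, hc⟩)
        have : (max α (min β (x (i + 1))) : ℤ) = max α (min β (x i)) := by
          omega
        rw [this]
      rw [this]
      simp
  have hsum := Finset.sum_le_sum hterm
  rw [htel, Finset.sum_neg_distrib] at hsum
  have e1 : φ (x q) = α := by
    rw [hφ]; unfold clp
    have : (max α (min β (x q)) : ℤ) = α := by omega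
    rw [this]
  have e2 : φ (x p) = β := by
    rw [hφ]; unfold clp
    have : (max α (min β (x p)) : ℤ) = β := by omega
    rw [this]
  rw [e1, e2] at hsum
  have e3 : ∑ i ∈ Ico p q, (if i ∈ I then C * s i else 0) ≤ C * ∑ i ∈ I, s i := by
    rw [← Finset.sum_filter, Finset.mul_sum]
    apply Finset.sum_le_sum_of_subset_of_nonneg
    · intro i hi
      rw [mem_filter] at hi
      exact hi.2
    · intro i hi _
      rw [hI, mem_filter, mem_range] at hi
      exact mul_nonneg hC (hs i hi.1)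
  linarith

end Pool.Agent.FPZ
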