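import Pool.Agent.FPZ.R8Mom

/-!
Module R8Out (section 8): the blocks outside the passage (all blocks left of column `-8k^10` or right of `col v + 8k^10`) carry a
negligible energy. Same proof as `block_moments` (use its private lemmas: make them non private): `vis ≤ C s_m` for these blocks, so
`∑_m Ex vis^ρ ≤ C^ρ ∑_m Ex s_m^ρ ≤ C^ρ (C (nrm v)²)^{ρ-1} · 18 C nrm v / k`.
-/

set_option autoImplicit false

noncomputable section

namespace Pool.Agent.FPZ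

open Finset Pool.FPP

private theorem out_count (α : ℤ) (L K : ℕ) (hL : 1 ≤ L) (hK : K ≤ L) (M : ℕ) (j : ℤ) :
    ((range M).filter (fun m : ℕ => j ∈ Ico (α + m * L - 8 * (K : ℤ))
      (α + (m + 1) * L + 8 * (K : ℤ)))).card ≤ 18 := by
  classical
  set F := (range M).filter (fun m : ℕ => j ∈ Ico (α + m * L - 8 * (K : ℤ))
      (α + (m + 1) * L + 8 * (K : ℤ))) with hF
  rcases F.eq_empty_or_nonempty with h | h
  · rw [h]
    simp
  · have h0 := F.min'_mem h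
    set m0 := F.min' h with hm0
    have hsub : F ⊆ Icc m0 (m0 + 17) := by
      intro m hm
      have h1 := F.min'_le m hm
      rw [Finset.mem_Icc]
      refine ⟨h1, ?_⟩
      have h2 := (Finset.mem_filter.1 hm).2
      have h3 := (Finset.mem_filter.1 h0).2
      rw [Finset.mem_Ico] at h2 h3
      by_contra hc
      push Not at hc
      have h4 : ((m0 : ℤ) + 18) ≤ m := by omega
      have hL' : (1 : ℤ) ≤ L := by exact_mod_cast hL
      have hK' : (K : ℤ) ≤ L := by exact_mod_cast hK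
      have h5 : ((m0 : ℤ) + 18) * L ≤ m * L := mul_le_mul_of_nonneg_right h4 (by omega)
      have h6 : ((m0 : ℤ) + 18) * L = m0 * L + 18 * L := by ring
      have h7 : ((m0 : ℤ) + 1) * L = m0 * L + L := by ring
      have h8 := h2.1
      have h9 := h3.2
      rw [h7] at h9
      rw [h6] at h5
      linarith
    refine (Finset.card_le_card hsub).trans ?_
    rw [Nat.card_Icc]
    omega

private theorem out_sum (α : ℤ) (L K : ℕ) (hL : 1 ≤ L) (hK : K ≤ L) (M : ℕ) (S : ℤ → ℝ)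
    (hS : ∀ j, 0 ≤ S j) :
    ∑ m ∈ range M, ∑ j ∈ Ico (α + (m : ℤ) * L - 8 * (K : ℤ)) (α + ((m : ℤ) + 1) * L + 8 * (K : ℤ)), S j ≤
      18 * ∑ j ∈ (range M).biUnion (fun m : ℕ => Ico (α + (m : ℤ) * L - 8 * (K : ℤ))
        (α + ((m : ℤ) + 1) * L + 8 * (K : ℤ))), S j := by
  classical
  set I : ℕ → Finset ℤ := fun m : ℕ => Ico (α + (m : ℤ) * L - 8 * (K : ℤ))
        (α + ((m : ℤ) + 1) * L + 8 * (K : ℤ)) with hI
  set T := (range M).biUnion I with hT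
  have h1 : ∀ m ∈ range M, ∑ j ∈ I m, S j = ∑ j ∈ T, if j ∈ I m then S j else 0 := by
    intro m hm
    rw [← Finset.sum_filter]
    refine Finset.sum_congr ?_ (fun _ _ => rfl)
    ext j
    rw [Finset.mem_filter]
    constructor
    · intro h
      exact ⟨Finset.mem_biUnion.2 ⟨m, hm, h⟩, h⟩
    · intro h
      exact h.2
  show ∑ m ∈ range M, ∑ j ∈ I m, S j ≤ 18 * ∑ j ∈ T, S j
  rw [Finset.sum_congr rfl h1, Finset.sum_comm, Finset.mul_sum]
  refine Finset.sum_le_sum (fun j _ => ?_)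
  rw [← Finset.sum_filter, Finset.sum_const, nsmul_eq_mul]
  refine mul_le_mul_of_nonneg_right ?_ (hS j)
  have h2 := out_count α L K hL hK M j
  exact_mod_cast h2

private theorem out_pow {s T ρ : ℝ} (hs : 0 ≤ s) (hT : s ≤ T) (hρ : 1 ≤ ρ) :
    s ^ ρ ≤ s * T ^ (ρ - 1) := by
  rcases hs.eq_or_lt with h | h
  · rw [← h, Real.zero_rpow (by linarith), zero_mul]
  · have h1 : s ^ ρ = s * s ^ (ρ - 1) := by
      rw [Real.rpow_sub_one h.ne']
      field_simp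
    rw [h1]
    exact mul_le_mul_of_nonneg_left (Real.rpow_le_rpow hs hT (by linarith)) hs

theorem block_moments_out {a b : ℝ} (ha : 0 < a) (hab : a < b) : ∃ (C : ℝ) (k0 : ℕ), 1 ≤ C ∧ 1 ≤ k0 ∧
    ∀ k : ℕ, k0 ≤ k → ∀ (N : ℕ) [NeZero N] (Al : Type) [Fintype Al] [Nonempty Al] (wt : Al → ℝ),
    (∀ x, a ≤ wt x ∧ wt x ≤ b) → ∀ v : V, 0 ≤ v.2 → v.2 ≤ v.1 → (k : ℝ) ^ 40 ≤ nrm v →
    (nrm v : ℝ) ≤ Real.exp k → 8 * (b / a) * nrm v < N →
    ∀ ρ : ℝ, 1 ≤ ρ → ρ ≤ 3 / 2 →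
    ∀ L : ℕ, k ^ 10 ≤ L → L ≤ nrm v → ∀ (α : ℤ) (M : ℕ), -(N : ℝ) / 2 ≤ α →
    (α : ℝ) + M * L ≤ N / 2 → (α + M * L + 8 * (k : ℤ) ^ 10 ≤ 0 ∨ col v + 8 * (k : ℤ) ^ 10 ≤ α) →
    ∑ m ∈ range M, Ex (fun ω : Ix N → Al =>
      |Fv wt v ω - av (blkI N (α + m * L) (α + (m + 1) * L)) (Fv wt v) ω| ^ (2 * ρ)) ≤
      C * (nrm v : ℝ) ^ (2 * ρ - 1) / k := by
  obtain ⟨C1, k0, hC1, hk0, hreg⟩ := reg ha hab
  obtain ⟨C2, hC2, hlq⟩ := lq_block
  set κ : ℝ := b - a with hκ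
  have hκ0 : 0 ≤ κ := by linarith
  set K3 : ℝ := (max 1 κ) ^ 3 with hK3
  have hK3' : 0 ≤ K3 := by positivity
  set C : ℝ := max 1 (C2 * K3 * (2 * C1) ^ 2 * C1 * (18 * C1)) with hC
  refine ⟨C, k0, le_max_left _ _, hk0, ?_⟩
  intro k hk N _ Al _ _ wt hw v hv2 hv1 hkv hvk hN ρ hρ1 hρ2 L hkL hLv α M hα1 hα2 hout
  obtain ⟨S, hS⟩ := hreg k hk N Al wt hw v hv2 hv1 hkv hvk hN
  have hk1 : 1 ≤ k := hk0.trans hk
  have hk1' : (1 : ℝ) ≤ k := by exact_mod_cast hk1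
  have hkpos : (0 : ℝ) < k := by linarith
  have hL1 : 1 ≤ L := (Nat.one_le_pow _ _ hk1).trans hkL
  set n : ℝ := (nrm v : ℝ) with hn
  have hn1 : 1 ≤ n := (one_le_pow₀ hk1').trans hkv
  have hn0 : 0 < n := by linarith
  have hba : 1 ≤ b / a := by
    rw [le_div_iff₀ ha]
    linarith
  have hN' : b / a * nrm v < N := by
    have h1 : 0 ≤ b / a * n := by positivity
    have h2 : 8 * (b / a) * n = 8 * (b / a * n) := by ring
    rw [h2] at hN
    linarith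
  have hC1' : 0 < C1 := by linarith
  -- one block
  have hblock : ∀ m ∈ range M, Ex (fun ω : Ix N → Al =>
      |Fv wt v ω - av (blkI N (α + m * L) (α + (m + 1) * L)) (Fv wt v) ω| ^ (2 * ρ)) ≤
      C2 * K3 * (2 * C1) ^ 2 * (C1 * n ^ 2) ^ (ρ - 1) * Ex (fun ω : Ix N → Al =>
        ∑ j ∈ Ico (α + (m : ℤ) * L - 8 * ((k ^ 10 : ℕ) : ℤ))
          (α + ((m : ℤ) + 1) * L + 8 * ((k ^ 10 : ℕ) : ℤ)), S ω j) := by
    intro m hm
    have hmM : m < M := Finset.mem_range.1 hm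
    have hL0 : (0 : ℝ) ≤ L := Nat.cast_nonneg _
    have hb1 : -(N : ℝ) / 2 ≤ ((α + m * L : ℤ) : ℝ) := by
      push_cast
      have : (0 : ℝ) ≤ (m : ℝ) * L := by positivity
      linarith
    have hb2 : ((α + (m + 1) * L : ℤ) : ℝ) ≤ N / 2 := by
      push_cast
      have h1 : (m : ℝ) + 1 ≤ M := by exact_mod_cast hmM
      have h2 := mul_le_mul_of_nonneg_right h1 hL0
      linarith
    have h1 := hlq (Ix N) Al (Fv wt v) (GI wt v) κ hκ0
      (fun ω i x => GI_bound ha hab hw v hN' ω i x)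
      (blkI N (α + m * L) (α + (m + 1) * L)) ρ hρ1 hρ2
    have hκρ : κ ^ (2 * ρ) ≤ K3 := by
      have h2 : κ ^ (2 * ρ) ≤ (max 1 κ) ^ (2 * ρ) :=
        Real.rpow_le_rpow hκ0 (le_max_right _ _) (by linarith)
      have h3 : (max 1 κ) ^ (2 * ρ) ≤ (max 1 κ) ^ (3 : ℝ) :=
        Real.rpow_le_rpow_of_exponent_le (le_max_left _ _) (by linarith)
      refine (h2.trans h3).trans (le_of_eq ?_)
      rw [hK3, ← Real.rpow_natCast]
      norm_num
    have h4 : Ex (fun ω : Ix N → Al =>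
        (((GI wt v ω ∩ blkI N (α + m * L) (α + (m + 1) * L)).card : ℕ) : ℝ) ^ ρ) ≤
        Ex (fun ω : Ix N → Al => (2 * C1) ^ 2 * (C1 * n ^ 2) ^ (ρ - 1) *
        ∑ j ∈ Ico (α + (m : ℤ) * L - 8 * ((k ^ 10 : ℕ) : ℤ))
          (α + ((m : ℤ) + 1) * L + 8 * ((k ^ 10 : ℕ) : ℤ)), S ω j) := by
      refine Ex_mono (fun ω => ?_)
      set s := ∑ j ∈ Ico (α + (m : ℤ) * L - 8 * ((k ^ 10 : ℕ) : ℤ))
          (α + ((m : ℤ) + 1) * L + 8 * ((k ^ 10 : ℕ) : ℤ)), S ω j with hs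
      have hs0 : 0 ≤ s := Finset.sum_nonneg (fun j _ => hS.nonneg ω j)
      have hsT : s ≤ C1 * n ^ 2 := hS.tot ω _
      have h5 := card_GI_inter_le ha hab hw v hN hb1 hb2 ω
      have hle : α + (m : ℤ) * L ≤ α + ((m : ℤ) + 1) * L := by
        have : (0 : ℤ) ≤ L := Int.natCast_nonneg _
        nlinarith
      have hML : α + ((m : ℤ) + 1) * L ≤ α + M * L := by
        have h6 : ((m : ℤ) + 1) ≤ M := by exact_mod_cast hmM
        have : (0 : ℤ) ≤ L := Int.natCast_nonneg _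
        nlinarith
      have hα' : α ≤ α + (m : ℤ) * L := by
        have : (0 : ℤ) ≤ (m : ℤ) * L := by positivity
        linarith
      have h7 := hS.visit_out ω (α + (m : ℤ) * L) (α + ((m : ℤ) + 1) * L) hle
        (by
          rcases hout with h | h
          · left; linarith
          · right; linarith)
      have h8 : (((GI wt v ω ∩ blkI N (α + m * L) (α + (m + 1) * L)).card : ℕ) : ℝ) ≤
          2 * C1 * s := by
        have h9 : (((GI wt v ω ∩ blkI N (α + m * L) (α + (m + 1) * L)).card : ℕ) : ℝ) ≤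
          2 * (vis (α + m * L) (α + (m + 1) * L) (Gn wt v ω) (Gp wt v ω) : ℝ) := by
          exact_mod_cast h5
        have h10 : (vis (α + m * L) (α + (m + 1) * L) (Gn wt v ω) (Gp wt v ω) : ℝ) ≤ C1 * s := by
          rw [hs]
          push_cast at h7 ⊢
          exact h7
        linarith
      have h11 : (0 : ℝ) ≤ 2 * C1 := by linarith
      calc (((GI wt v ω ∩ blkI N (α + m * L) (α + (m + 1) * L)).card : ℕ) : ℝ) ^ ρ
          ≤ (2 * C1 * s) ^ ρ := Real.rpow_le_rpow (Nat.cast_nonneg _) h8 (by linarith)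
        _ = (2 * C1) ^ ρ * s ^ ρ := Real.mul_rpow h11 hs0
        _ ≤ (2 * C1) ^ 2 * (s * (C1 * n ^ 2) ^ (ρ - 1)) := by
            refine mul_le_mul ?_ (out_pow hs0 hsT hρ1) (Real.rpow_nonneg hs0 _) (by positivity)
            have h12 : (2 * C1) ^ ρ ≤ (2 * C1) ^ (2 : ℝ) :=
              Real.rpow_le_rpow_of_exponent_le (by linarith) (by linarith)
            refine h12.trans (le_of_eq ?_)
            rw [← Real.rpow_natCast]
            norm_num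
        _ = (2 * C1) ^ 2 * (C1 * n ^ 2) ^ (ρ - 1) * s := by ring
    rw [Ex_mul_left] at h4
    refine h1.trans ?_
    have hE0 : 0 ≤ Ex (fun ω : Ix N → Al =>
        ∑ j ∈ Ico (α + (m : ℤ) * L - 8 * ((k ^ 10 : ℕ) : ℤ))
          (α + ((m : ℤ) + 1) * L + 8 * ((k ^ 10 : ℕ) : ℤ)), S ω j) :=
      Ex_nonneg (fun ω => Finset.sum_nonneg (fun j _ => hS.nonneg ω j))
    calc C2 * κ ^ (2 * ρ) * Ex (fun ω : Ix N → Al =>
          (((GI wt v ω ∩ blkI N (α + m * L) (α + (m + 1) * L)).card : ℕ) : ℝ) ^ ρ)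
        ≤ C2 * K3 * ((2 * C1) ^ 2 * (C1 * n ^ 2) ^ (ρ - 1) * Ex (fun ω : Ix N → Al =>
        ∑ j ∈ Ico (α + (m : ℤ) * L - 8 * ((k ^ 10 : ℕ) : ℤ))
          (α + ((m : ℤ) + 1) * L + 8 * ((k ^ 10 : ℕ) : ℤ)), S ω j)) := by
          refine mul_le_mul (mul_le_mul_of_nonneg_left hκρ hC2.le) h4 ?_ (by positivity)
          exact Ex_nonneg (fun ω => Real.rpow_nonneg (Nat.cast_nonneg _) _)
      _ = C2 * K3 * (2 * C1) ^ 2 * (C1 * n ^ 2) ^ (ρ - 1) * Ex (fun ω : Ix N → Al =>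
        ∑ j ∈ Ico (α + (m : ℤ) * L - 8 * ((k ^ 10 : ℕ) : ℤ))
          (α + ((m : ℤ) + 1) * L + 8 * ((k ^ 10 : ℕ) : ℤ)), S ω j) := by ring
  refine (Finset.sum_le_sum hblock).trans ?_
  rw [← Finset.mul_sum, ← Ex_sum]
  have hsum : Ex (fun ω : Ix N → Al => ∑ m ∈ range M,
      ∑ j ∈ Ico (α + (m : ℤ) * L - 8 * ((k ^ 10 : ℕ) : ℤ))
          (α + ((m : ℤ) + 1) * L + 8 * ((k ^ 10 : ℕ) : ℤ)), S ω j) ≤ 18 * (C1 * n / k) := by
    refine (Ex_mono (fun ω => out_sum α L (k ^ 10) hL1 hkL M (S ω) (hS.nonneg ω))).trans ?_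
    rw [Ex_mul_left]
    exact mul_le_mul_of_nonneg_left (hS.mean _) (by norm_num)
  have hA0 : 0 ≤ C2 * K3 * (2 * C1) ^ 2 * (C1 * n ^ 2) ^ (ρ - 1) := by positivity
  refine (mul_le_mul_of_nonneg_left hsum hA0).trans ?_
  have h13 : (C1 * n ^ 2) ^ (ρ - 1) ≤ C1 * n ^ (2 * (ρ - 1)) := by
    rw [Real.mul_rpow hC1'.le (by positivity)]
    have h14 : C1 ^ (ρ - 1) ≤ C1 := by
      have h15 : C1 ^ (ρ - 1) ≤ C1 ^ (1 : ℝ) :=
        Real.rpow_le_rpow_of_exponent_le hC1 (by linarith)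
      rwa [Real.rpow_one] at h15
    have h16 : (n ^ 2) ^ (ρ - 1) = n ^ (2 * (ρ - 1)) := by
      rw [← Real.rpow_natCast, ← Real.rpow_mul hn0.le]
      norm_num
    rw [h16]
    exact mul_le_mul_of_nonneg_right h14 (Real.rpow_nonneg hn0.le _)
  have h17 : n ^ (2 * (ρ - 1)) * n = n ^ (2 * ρ - 1) := by
    have h18 : 2 * ρ - 1 = 2 * (ρ - 1) + 1 := by ring
    rw [h18, Real.rpow_add hn0, Real.rpow_one]
  calc C2 * K3 * (2 * C1) ^ 2 * (C1 * n ^ 2) ^ (ρ - 1) * (18 * (C1 * n / k))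
      ≤ C2 * K3 * (2 * C1) ^ 2 * (C1 * n ^ (2 * (ρ - 1))) * (18 * (C1 * n / k)) := by
        refine mul_le_mul_of_nonneg_right (mul_le_mul_of_nonneg_left h13 (by positivity))
          (by positivity)
    _ = (C2 * K3 * (2 * C1) ^ 2 * C1 * (18 * C1)) * (n ^ (2 * (ρ - 1)) * n) / k := by ring
    _ = (C2 * K3 * (2 * C1) ^ 2 * C1 * (18 * C1)) * n ^ (2 * ρ - 1) / k := by rw [h17]
    _ ≤ C * n ^ (2 * ρ - 1) / k := by
        refine div_le_div_of_nonneg_right ?_ hkpos.le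
        exact mul_le_mul_of_nonneg_right (le_max_right _ _) (Real.rpow_nonneg hn0.le _)

end Pool.Agent.FPZ
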