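import Pool.Agent.FPZ.Defs
import Pool.Agent.FPZ.R8Fun
import Pool.Agent.FPZ.R8Clp

/-!
Module R8Pie (section 8), deterministic: pieces of a geodesic and their slacks. Uses GEO (helper28: the cost of a part of a geodesic is
the distance of its end points; `|p i - p j|_1 ≤ |i - j|`; `a * length ≤ cost`).

The geodesic `p` (length `n`) from `0` to `v` is cut in pieces of `l` edges: `z_i = p (min (i l) n)`, `i ≤ n/l + 1`; the piece `i`
(`i ≤ n/l`) goes from `z_i` to `z_{i+1}`; it is full if `(i+1) l ≤ n`. Slack `s_i = cost(piece) - h·(z_{i+1}-z_i) + t`.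
Hypotheses: `hgood` (no lower deviation bigger than `t` at scale `l`), `hsl` (the conclusion of `slack_ge`), `a/2 ≤ h1 ≤ b`.

PROOF. `w = z_{i+1} - z_i`, `nrm w ≤ l`. (i) `cost(piece) = dst A z_i z_{i+1} ≥ g w - t`, so
`s_i ≥ g w - h·w ≥ (h1/3) nrm w - (7/6) h1 (col w)^+ `; in particular if `col w ≤ 0`, `s_i ≥ (a/6) nrm w ≥ (a/12)|col w| ≥ 0`; if
`col w > 0`: `s_i ≥ g w - h·w ≥ 0` by `hg`. So `(col z_i - col z_{i+1})^+ ≤ (12/a) s_i`. (ii) full pieces: `cost ≥ a l` so
`s_i ≥ a l - b nrm w`; if `nrm w ≥ (a/2b) l` use (i), otherwise this: `s_i ≥ (a²/(12 b)) l - (7/6) b (col w)^+`.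
(iii) `∑ s_i` telescopes. (iv) `vis`: a time `m ≤ n` with `α ≤ col (p m) < β` lies in the piece `i = m / l`, whose start satisfies
`α - 2l ≤ col z_i ≤ β + 2l`; so `vis α β n p ≤ l #{i ≤ n/l : …}` and at most one piece is not full, the last one
`i = n/l`, whose start is within `2l` of `col v`. Apply `clamp_count` with `D = 2l`, `x_i = col z_i`, `M = n/l + 1` on `[α-2l, β+2l]`;
the clamp difference is `≤ β - α + 8l`, and it is `0` if `β + 8l ≤ 0` or `col v + 8l ≤ α` (as `x_0 = 0`, `x_M = col v ≥ 0`), and then the last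
piece does not count either. (v) backtrack: times `i ≤ j` lie in pieces `q_i ≤ q_j`; if `q_i = q_j` then `β - α ≤ 2l`;
otherwise `x_{q_i+1} ≥ β - 2l`, `x_{q_j} ≤ α + 2l`, apply `clamp_backtrack` on `[α+2l, β-2l]` (trivial if empty).
-/

set_option autoImplicit false

noncomputable section

namespace Pool.Agent.FPZ

open Finset Pool.FPP

/-- end points of the pieces -/
def pz (l n : ℕ) (p : ℕ → V) (i : ℕ) : V := p (min (i * l) n)

/-- slack of the piece `i` -/
def psl (A : E → ℝ) (l n : ℕ) (p : ℕ → V) (h1 h2 t : ℝ) (i : ℕ) : ℝ :=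
  cost A (min (i * l) n) (min ((i + 1) * l) n) p -
    (h1 * (((pz l n p (i + 1)).1 : ℝ) - (pz l n p i).1) +
      h2 * (((pz l n p (i + 1)).2 : ℝ) - (pz l n p i).2)) + t

/-- slack of the pieces that start in the column `j` -/
def psum (A : E → ℝ) (l n : ℕ) (p : ℕ → V) (h1 h2 t : ℝ) (j : ℤ) : ℝ :=
  ∑ i ∈ (range (n / l + 1)).filter (fun i => col (pz l n p i) = j), psl A l n p h1 h2 t i

private theorem pie_adj {x y : V} (h : adj x y) : nrm (y - x) ≤ 1 := by
  obtain ⟨e, he⟩ := h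
  unfold nrm
  rcases he with ⟨h1, h2⟩ | ⟨h1, h2⟩
  · subst h1
    subst h2
    unfold hd
    split_ifs
    · have e1 : (((e.1.1, e.1.2 + 1) : V) - e.1).1 = 0 := by simp
      have e2 : (((e.1.1, e.1.2 + 1) : V) - e.1).2 = 1 := by simp
      rw [e1, e2]
      decide
    · have e1 : (((e.1.1 + 1, e.1.2) : V) - e.1).1 = 1 := by simp
      have e2 : (((e.1.1 + 1, e.1.2) : V) - e.1).2 = 0 := by simp
      rw [e1, e2]
      decide
  · subst h1
    subst h2
    unfold hd
    split_ifs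
    · have e1 : (e.1 - ((e.1.1, e.1.2 + 1) : V)).1 = 0 := by simp
      have e2 : (e.1 - ((e.1.1, e.1.2 + 1) : V)).2 = -1 := by simp
      rw [e1, e2]
      decide
    · have e1 : (e.1 - ((e.1.1 + 1, e.1.2) : V)).1 = -1 := by simp
      have e2 : (e.1 - ((e.1.1 + 1, e.1.2) : V)).2 = 0 := by simp
      rw [e1, e2]
      decide

private theorem pie_tri (x y z : V) : nrm (z - x) ≤ nrm (z - y) + nrm (y - x) := by
  unfold nrm
  simp only [Prod.fst_sub, Prod.snd_sub]
  omega

private theorem pie_lip {n : ℕ} {p : ℕ → V} (hp : ∀ k < n, adj (p k) (p (k + 1))) {i j : ℕ}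
    (hij : i ≤ j) (hj : j ≤ n) : nrm (p j - p i) ≤ j - i := by
  induction j, hij using Nat.le_induction with
  | base =>
    have : nrm (p i - p i) = 0 := by
      unfold nrm
      simp
    omega
  | succ j hij ih =>
    have h1 := ih (by omega)
    have h2 := pie_adj (hp j (by omega))
    have h3 := pie_tri (p i) (p j) (p (j + 1))
    omega

private theorem pie_nrm (u : V) : ((nrm u : ℕ) : ℝ) = |(u.1 : ℝ)| + |(u.2 : ℝ)| := by
  unfold nrm
  push_cast
  rw [Nat.cast_natAbs, Nat.cast_natAbs]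
  push_cast
  rfl

private theorem pie_col (x y : V) : |col y - col x| ≤ 2 * (nrm (y - x) : ℤ) := by
  unfold col nrm
  simp only [Prod.fst_sub, Prod.snd_sub]
  rw [abs_le]
  constructor
  · push_cast
    have h1 := neg_abs_le (y.1 - x.1)
    have h2 := neg_abs_le (y.2 - x.2)
    have h3 := abs_nonneg (y.2 - x.2)
    linarith
  · push_cast
    have h1 := le_abs_self (y.1 - x.1)
    have h2 := le_abs_self (y.2 - x.2)
    have h3 := abs_nonneg (y.2 - x.2)
    linarith

private theorem pie_colp {n : ℕ} {p : ℕ → V} (hp : ∀ k < n, adj (p k) (p (k + 1))) {i j : ℕ}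
    (hij : i ≤ j) (hj : j ≤ n) : |col (p j) - col (p i)| ≤ 2 * ((j : ℤ) - i) := by
  have h1 := pie_lip hp hij hj
  have h2 := pie_col (p i) (p j)
  omega

private theorem pie_cost_ge {A : E → ℝ} {a b : ℝ} (hA : Bd a b A) {i j : ℕ} (hij : i ≤ j)
    (p : ℕ → V) : a * ((j : ℝ) - i) ≤ cost A i j p := by
  unfold cost
  have h1 : ∑ k ∈ Ico i j, a ≤ ∑ k ∈ Ico i j, A (edg (p k) (p (k + 1))) :=
    Finset.sum_le_sum (fun k _ => (hA _).1)
  rw [Finset.sum_const, Nat.card_Ico, nsmul_eq_mul, Nat.cast_sub hij] at h1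
  linarith

private theorem pie_dst_le {A : E → ℝ} {a b : ℝ} (ha : 0 < a) (hA : Bd a b A) {n : ℕ} {p : ℕ → V}
    (hp : ∀ k < n, adj (p k) (p (k + 1))) {i j : ℕ} (hij : i ≤ j) (hj : j ≤ n) :
    dst A (p i) (p j) ≤ cost A i j p := by
  unfold dst
  apply csInf_le
  · refine ⟨0, ?_⟩
    rintro t ⟨m, q, _, rfl⟩
    unfold cost
    exact Finset.sum_nonneg (fun k _ => ha.le.trans (hA _).1)
  · refine ⟨j - i, fun k => p (i + k), ⟨?_, ?_, ?_⟩, ?_⟩
    · rfl
    · change p (i + (j - i)) = p j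
      rw [Nat.add_sub_cancel' hij]
    · intro k hk
      exact hp (i + k) (by omega)
    · unfold cost
      rw [Finset.sum_Ico_eq_sum_range, Finset.sum_Ico_eq_sum_range]
      simp only [Nat.sub_zero, Nat.zero_add]
      rfl

private theorem pie_w {l n : ℕ} {p : ℕ → V} (hp : ∀ k < n, adj (p k) (p (k + 1))) (i : ℕ) :
    nrm (pz l n p (i + 1) - pz l n p i) ≤ l := by
  unfold pz
  have h1 : (i + 1) * l = i * l + l := by ring
  have h2 := pie_lip hp (i := min (i * l) n) (j := min ((i + 1) * l) n) (by omega) (by omega)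
  omega

private theorem pie_psl_ge {A : E → ℝ} {a b : ℝ} (ha : 0 < a) (hA : Bd a b A) {l n : ℕ}
    {p : ℕ → V} (hp : ∀ k < n, adj (p k) (p (k + 1))) {g : V → ℝ} {h1 h2 t : ℝ} {Q : ℤ}
    (hQ : ∀ i ≤ n, inBox Q (p i))
    (hgood : ∀ x y : V, inBox Q x → inBox Q y → nrm (y - x) ≤ l → g (y - x) - t ≤ dst A x y)
    (i : ℕ) :
    g (pz l n p (i + 1) - pz l n p i) - (h1 * ((pz l n p (i + 1) - pz l n p i).1 : ℝ) +
      h2 * ((pz l n p (i + 1) - pz l n p i).2 : ℝ)) ≤ psl A l n p h1 h2 t i := by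
  have e1 : (i + 1) * l = i * l + l := by ring
  have h3 := hgood (pz l n p i) (pz l n p (i + 1)) (hQ _ (by omega)) (hQ _ (by omega))
    (pie_w hp i)
  have h4 : dst A (pz l n p i) (pz l n p (i + 1)) ≤
      cost A (min (i * l) n) (min ((i + 1) * l) n) p :=
    pie_dst_le ha hA hp (by omega) (by omega)
  unfold psl
  simp only [Prod.fst_sub, Prod.snd_sub]
  push_cast
  linarith

theorem psl_nonneg {A : E → ℝ} {a b : ℝ} (ha : 0 < a) (hA : Bd a b A) {l n : ℕ} (hl : 1 ≤ l)
    {p : ℕ → V} {v : V} (hp : IsGeo A n p 0 v) {g : V → ℝ} {h1 h2 t : ℝ} {Q : ℤ}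
    (hQ : ∀ i ≤ n, inBox Q (p i))
    (hgood : ∀ x y : V, inBox Q x → inBox Q y → nrm (y - x) ≤ l → g (y - x) - t ≤ dst A x y)
    (hg : ∀ u : V, nrm u ≤ l → h1 * u.1 + h2 * u.2 ≤ g u) (i : ℕ) :
    0 ≤ psl A l n p h1 h2 t i := by
  have h3 := pie_psl_ge ha hA hp.1.2.2 hQ hgood (h1 := h1) (h2 := h2) i
  have h4 := hg _ (pie_w hp.1.2.2 (l := l) i)
  linarith

private theorem pie_M {l n : ℕ} (hl : 1 ≤ l) : n ≤ (n / l + 1) * l := by
  have h1 := Nat.div_add_mod n l
  have h2 := Nat.mod_lt n hl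
  have h3 : (n / l + 1) * l = l * (n / l) + l := by ring
  omega

private theorem pie_sum_cost (A : E → ℝ) (l n : ℕ) (p : ℕ → V) (m : ℕ) :
    ∑ i ∈ range m, cost A (min (i * l) n) (min ((i + 1) * l) n) p =
      cost A 0 (min (m * l) n) p := by
  induction m with
  | zero => simp [cost]
  | succ m ih =>
    rw [Finset.sum_range_succ, ih]
    unfold cost
    have e1 : (m + 1) * l = m * l + l := by ring
    exact Finset.sum_Ico_consecutive _ (by omega) (by omega)

theorem psum_total {A : E → ℝ} {a b : ℝ} (ha : 0 < a) (hA : Bd a b A) {l n : ℕ} (hl : 1 ≤ l)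
    {p : ℕ → V} {v : V} (hp : IsGeo A n p 0 v) (h1 h2 t : ℝ) {R : ℤ} (hR : ∀ i ≤ n, |col (p i)| ≤ R) :
    ∑ j ∈ Icc (-R) R, psum A l n p h1 h2 t j =
      dst A 0 v - (h1 * v.1 + h2 * v.2) + ((n / l : ℕ) + 1 : ℝ) * t := by
  unfold psum
  rw [Finset.sum_fiberwise_of_maps_to (s := range (n / l + 1)) (t := Icc (-R) R)
    (g := fun i => col (pz l n p i))]
  · unfold psl
    rw [Finset.sum_add_distrib, Finset.sum_sub_distrib, pie_sum_cost, Finset.sum_add_distrib,
      ← Finset.mul_sum, ← Finset.mul_sum,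
      Finset.sum_range_sub (fun i => ((pz l n p i).1 : ℝ)),
      Finset.sum_range_sub (fun i => ((pz l n p i).2 : ℝ)), Finset.sum_const, card_range,
      nsmul_eq_mul]
    have e1 : min ((n / l + 1) * l) n = n := min_eq_right (pie_M hl)
    have e2 : pz l n p (n / l + 1) = v := by
      unfold pz
      rw [e1]
      exact hp.1.2.1
    have e3 : pz l n p 0 = 0 := by
      unfold pz
      rw [Nat.zero_mul, Nat.zero_min]
      exact hp.1.1
    rw [e1, e2, e3, hp.2]
    push_cast
    simp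
  · intro i _
    rw [mem_Icc]
    exact abs_le.1 (hR _ (min_le_right _ _))

theorem pieces_bounds {a b : ℝ} (ha : 0 < a) (hab : a < b) : ∃ C : ℝ, 0 < C ∧
    ∀ (A : E → ℝ), Bd a b A → ∀ (l n : ℕ), 1 ≤ l → ∀ (p : ℕ → V) (v : V), IsGeo A n p 0 v →
    0 ≤ col v → ∀ (g : V → ℝ) (h1 h2 t : ℝ) (Q : ℤ), 0 ≤ t → a / 2 ≤ h1 → h1 ≤ b → 0 ≤ h2 → h2 ≤ h1 →
    (∀ i ≤ n, inBox Q (p i)) →
    (∀ x y : V, inBox Q x → inBox Q y → nrm (y - x) ≤ l → g (y - x) - t ≤ dst A x y) →
    (∀ u : V, nrm u ≤ l → h1 * u.1 + h2 * u.2 ≤ g u) →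
    (∀ u : V, nrm u ≤ l → h1 / 3 * nrm u - 7 / 6 * h1 * max 0 (2 * (u.1 : ℝ) + u.2) ≤
      g u - (h1 * u.1 + h2 * u.2)) →
    (∀ α β : ℤ, α ≤ β → (vis α β n p : ℝ) ≤ C * ((β : ℝ) - α + l +
      ∑ j ∈ Ico (α - 8 * l) (β + 8 * l), psum A l n p h1 h2 t j)) ∧
    (∀ α β : ℤ, α ≤ β → (β + 8 * l ≤ 0 ∨ col v + 8 * l ≤ α) → (vis α β n p : ℝ) ≤
      C * ∑ j ∈ Ico (α - 8 * l) (β + 8 * l), psum A l n p h1 h2 t j) ∧
    (∀ α β : ℤ, α ≤ β → ∀ i j : ℕ, i ≤ j → j ≤ n → β ≤ col (p i) → col (p j) ≤ α →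
      (β : ℝ) - α ≤ C * (l + ∑ j ∈ Ico (α - 8 * l) (β + 8 * l), psum A l n p h1 h2 t j)) := by
  have hb : 0 < b := ha.trans hab
  set K1 : ℝ := 12 * b / a ^ 2 * (1 + 28 * b / a) with hK1
  set K2 : ℝ := 12 * b / a ^ 2 * (7 * b / 6) with hK2
  have hK1p : 0 < K1 := by positivity
  have hK2p : 0 < K2 := by positivity
  refine ⟨K1 + 8 * K2 + 4 + 12 / a, by positivity, ?_⟩
  intro A hA l n hl p v hp hv g h1 h2 t Q ht hh1 hh1b hh2 hh21 hQ hgood hg hsl
  have hadj := hp.1.2.2
  have hlR : (1 : ℝ) ≤ l := by exact_mod_cast hl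
  set M : ℕ := n / l + 1 with hM
  set s : ℕ → ℝ := psl A l n p h1 h2 t with hs
  set x : ℕ → ℤ := fun i => col (pz l n p i) with hx
  have hs0 : ∀ i, 0 ≤ s i := fun i => psl_nonneg ha hA hl hp hQ hgood hg i
  -- facts on one piece
  have hw : ∀ i, nrm (pz l n p (i + 1) - pz l n p i) ≤ l := fun i => pie_w hadj i
  have hsge : ∀ i, h1 / 3 * (nrm (pz l n p (i + 1) - pz l n p i) : ℝ) -
      7 / 6 * h1 * max 0 ((x (i + 1) : ℝ) - x i) ≤ s i := by
    intro i
    have h3 := pie_psl_ge ha hA hadj hQ hgood (h1 := h1) (h2 := h2) i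
    have h4 := hsl _ (hw i)
    have h5 : (2 * ((pz l n p (i + 1) - pz l n p i).1 : ℝ) +
        ((pz l n p (i + 1) - pz l n p i).2 : ℝ)) = (x (i + 1) : ℝ) - x i := by
      simp only [hx, col, Prod.fst_sub, Prod.snd_sub]
      push_cast
      ring
    rw [h5] at h4
    exact h4.trans h3
  have hD : ∀ i < M, |x (i + 1) - x i| ≤ 2 * (l : ℤ) := by
    intro i _
    have h3 := pie_col (pz l n p i) (pz l n p (i + 1))
    have h4 := hw i
    have h5 : (nrm (pz l n p (i + 1) - pz l n p i) : ℤ) ≤ l := by exact_mod_cast h4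
    exact h3.trans (by linarith)
  have hneg : ∀ i < M, (max 0 (x i - x (i + 1)) : ℝ) ≤ 12 / a * s i := by
    intro i _
    have h3 := hsge i
    have h4 := hs0 i
    have h5 : (0 : ℝ) ≤ 12 / a * s i := by positivity
    rcases le_total ((x i : ℝ)) (x (i + 1)) with h | h
    · rw [max_eq_left (by linarith)]
      exact h5
    · rw [max_eq_right (by linarith)]
      rw [max_eq_left (by linarith)] at h3
      have h6 := pie_col (pz l n p i) (pz l n p (i + 1))
      have h7 : (|((x (i + 1) - x i : ℤ) : ℝ)|) ≤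
          2 * (nrm (pz l n p (i + 1) - pz l n p i) : ℝ) := by
        rw [← Int.cast_abs]
        have h8 : |x (i + 1) - x i| ≤ 2 * (nrm (pz l n p (i + 1) - pz l n p i) : ℤ) := h6
        exact_mod_cast h8
      have h9 := neg_abs_le ((x (i + 1) - x i : ℤ) : ℝ)
      push_cast at h9 h7
      have hN : (0 : ℝ) ≤ (nrm (pz l n p (i + 1) - pz l n p i) : ℝ) := Nat.cast_nonneg _
      have h10 : a / 6 * (nrm (pz l n p (i + 1) - pz l n p i) : ℝ) ≤ s i := by
        have : a / 6 * (nrm (pz l n p (i + 1) - pz l n p i) : ℝ) ≤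
            h1 / 3 * (nrm (pz l n p (i + 1) - pz l n p i) : ℝ) :=
          mul_le_mul_of_nonneg_right (by linarith) hN
        linarith
      have h11 : 12 / a * (a / 6 * (nrm (pz l n p (i + 1) - pz l n p i) : ℝ)) =
          2 * (nrm (pz l n p (i + 1) - pz l n p i) : ℝ) := by
        field_simp
        ring
      have h12 : 12 / a * (a / 6 * (nrm (pz l n p (i + 1) - pz l n p i) : ℝ)) ≤ 12 / a * s i :=
        mul_le_mul_of_nonneg_left h10 (by positivity)
      linarith
  -- full pieces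
  set full : Finset ℕ := range (n / l) with hfulldef
  have hfull : ∀ i ∈ full, i < M ∧ a ^ 2 / (24 * b) * ((2 * (l : ℤ) : ℤ) : ℝ) ≤
      s i + 7 * b / 6 * max 0 ((x (i + 1) : ℝ) - x i) := by
    intro i hi
    rw [hfulldef, mem_range] at hi
    refine ⟨by omega, ?_⟩
    have hil : (i + 1) * l ≤ n := by
      have h3 : (i + 1) * l ≤ (n / l) * l := Nat.mul_le_mul_right _ hi
      have h4 := Nat.div_mul_le_self n l
      omega
    have e1 : (i + 1) * l = i * l + l := by ring
    have hmx : (0 : ℝ) ≤ max 0 ((x (i + 1) : ℝ) - x i) := le_max_left _ _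
    have hN : (0 : ℝ) ≤ (nrm (pz l n p (i + 1) - pz l n p i) : ℝ) := Nat.cast_nonneg _
    have hlb : a * l - b * (nrm (pz l n p (i + 1) - pz l n p i) : ℝ) ≤ s i := by
      have h3 : a * l ≤ cost A (min (i * l) n) (min ((i + 1) * l) n) p := by
        have h4 := pie_cost_ge hA (i := min (i * l) n) (j := min ((i + 1) * l) n) (by omega) p
        rw [min_eq_left (show i * l ≤ n by omega), min_eq_left hil] at h4 ⊢
        push_cast at h4
        linarith
      have h5 : h1 * (((pz l n p (i + 1)).1 : ℝ) - (pz l n p i).1) +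
          h2 * (((pz l n p (i + 1)).2 : ℝ) - (pz l n p i).2) ≤
          b * (nrm (pz l n p (i + 1) - pz l n p i) : ℝ) := by
        rw [pie_nrm]
        simp only [Prod.fst_sub, Prod.snd_sub]
        push_cast
        have h6 := le_abs_self (((pz l n p (i + 1)).1 : ℝ) - (pz l n p i).1)
        have h7 := le_abs_self (((pz l n p (i + 1)).2 : ℝ) - (pz l n p i).2)
        have h8 := abs_nonneg (((pz l n p (i + 1)).1 : ℝ) - (pz l n p i).1)
        have h9 := abs_nonneg (((pz l n p (i + 1)).2 : ℝ) - (pz l n p i).2)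
        have h10 : h1 * (((pz l n p (i + 1)).1 : ℝ) - (pz l n p i).1) ≤
            b * |(((pz l n p (i + 1)).1 : ℝ) - (pz l n p i).1)| :=
          (mul_le_mul_of_nonneg_left h6 (by linarith)).trans
            (mul_le_mul_of_nonneg_right hh1b h8)
        have h11 : h2 * (((pz l n p (i + 1)).2 : ℝ) - (pz l n p i).2) ≤
            b * |(((pz l n p (i + 1)).2 : ℝ) - (pz l n p i).2)| :=
          (mul_le_mul_of_nonneg_left h7 hh2).trans
            (mul_le_mul_of_nonneg_right (hh21.trans hh1b) h9)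
        linarith
      have h6 : s i = cost A (min (i * l) n) (min ((i + 1) * l) n) p -
          (h1 * (((pz l n p (i + 1)).1 : ℝ) - (pz l n p i).1) +
            h2 * (((pz l n p (i + 1)).2 : ℝ) - (pz l n p i).2)) + t := rfl
      rw [h6]
      linarith
    have e2 : a ^ 2 / (24 * b) * ((2 * (l : ℤ) : ℤ) : ℝ) = a ^ 2 / (12 * b) * l := by
      push_cast
      field_simp
      ring
    rw [e2]
    rcases le_total (nrm (pz l n p (i + 1) - pz l n p i) : ℝ) (a / (2 * b) * l) with h | h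
    · have h3 : b * (nrm (pz l n p (i + 1) - pz l n p i) : ℝ) ≤ a * l / 2 := by
        have h4 := mul_le_mul_of_nonneg_left h hb.le
        have h5 : b * (a / (2 * b) * l) = a * l / 2 := by
          field_simp
        linarith
      have h4 : a ^ 2 / (12 * b) * l ≤ a * l / 2 := by
        have h5 : a ^ 2 / (12 * b) ≤ a / 2 := by
          rw [div_le_div_iff₀ (by positivity) (by norm_num)]
          nlinarith
        have h6 := mul_le_mul_of_nonneg_right h5 (by linarith : (0 : ℝ) ≤ l)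
        linarith
      have h5 : 0 ≤ 7 * b / 6 * max 0 ((x (i + 1) : ℝ) - x i) := by positivity
      linarith
    · have h3 := hsge i
      have h4 : a ^ 2 / (12 * b) * l ≤ h1 / 3 * (nrm (pz l n p (i + 1) - pz l n p i) : ℝ) := by
        have h5 : a / 6 * (a / (2 * b) * l) ≤
            h1 / 3 * (nrm (pz l n p (i + 1) - pz l n p i) : ℝ) :=
          mul_le_mul (by linarith) h (by positivity) (by linarith)
        have h6 : a / 6 * (a / (2 * b) * l) = a ^ 2 / (12 * b) * l := by
          field_simp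
          ring
        linarith
      have h5 : 7 / 6 * h1 * max 0 ((x (i + 1) : ℝ) - x i) ≤
          7 * b / 6 * max 0 ((x (i + 1) : ℝ) - x i) :=
        mul_le_mul_of_nonneg_right (by linarith) hmx
      linarith
  -- the slack of the pieces that start in a set of columns
  have hpsum : ∀ α β : ℤ, ∑ j ∈ Ico α β, psum A l n p h1 h2 t j =
      ∑ i ∈ (range M).filter (fun i => α ≤ x i ∧ x i < β), s i := by
    intro α β
    unfold psum
    rw [← Finset.sum_fiberwise_of_maps_to (s := (range M).filter (fun i => α ≤ x i ∧ x i < β))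
      (t := Ico α β) (g := x)]
    · apply Finset.sum_congr rfl
      intro j hj
      rw [mem_Ico] at hj
      apply Finset.sum_congr
      · ext i
        simp only [mem_filter, hx]
        constructor
        · rintro ⟨h3, h4⟩
          exact ⟨⟨h3, by omega, by omega⟩, h4⟩
        · rintro ⟨⟨h3, _⟩, h4⟩
          exact ⟨h3, h4⟩
      · intros
        rfl
    · intro i hi
      rw [mem_filter] at hi
      rw [mem_Ico]
      exact hi.2
  have hsub : ∀ α β α' β' : ℤ, α ≤ α' → β' < β →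
      ∑ i ∈ (range M).filter (fun i => α' ≤ x i ∧ x i ≤ β'), s i ≤
      ∑ j ∈ Ico α β, psum A l n p h1 h2 t j := by
    intro α β α' β' h3 h4
    rw [hpsum]
    apply Finset.sum_le_sum_of_subset_of_nonneg
    · intro i hi
      rw [mem_filter] at hi ⊢
      exact ⟨hi.1, by omega, by omega⟩
    · intro i _ _
      exact hs0 i
  have hS0 : ∀ α β : ℤ, 0 ≤ ∑ j ∈ Ico α β, psum A l n p h1 h2 t j := by
    intro α β
    rw [hpsum]
    exact Finset.sum_nonneg (fun i _ => hs0 i)
  have hpzcol : ∀ m ≤ n, |col (p m) - x (m / l)| ≤ 2 * (l : ℤ) := by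
    intro m hm
    have h3 := Nat.div_add_mod m l
    have h4 := Nat.mod_lt m hl
    have h5 : m / l * l = l * (m / l) := by ring
    have h6 : min (m / l * l) n = m / l * l := min_eq_left (by omega)
    have h7 := pie_colp hadj (i := m / l * l) (j := m) (by omega) hm
    have h8 : x (m / l) = col (p (m / l * l)) := by
      simp only [hx, pz]
      rw [h6]
    rw [h8]
    refine h7.trans ?_
    have h9 : (m : ℤ) - ((m / l * l : ℕ) : ℤ) ≤ l := by
      omega
    linarith
  -- the number of visits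
  have hvis : ∀ α β : ℤ, (vis α β n p : ℝ) ≤
      l * ((full.filter (fun i => α - 2 * l ≤ x i ∧ x i ≤ β + 2 * l)).card : ℝ) +
      (if α - 2 * l ≤ x (n / l) ∧ x (n / l) ≤ β + 2 * l then (l : ℝ) else 0) := by
    intro α β
    have h3 : vis α β n p ≤
        l * ((range M).filter (fun i => α - 2 * l ≤ x i ∧ x i ≤ β + 2 * l)).card := by
      unfold vis
      refine Finset.card_le_mul_card_image_of_maps_to (f := fun m => m / l)
        (t := (range M).filter (fun i => α - 2 * l ≤ x i ∧ x i ≤ β + 2 * l)) ?_ l ?_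
      · intro m hm
        rw [mem_filter, mem_range] at hm
        rw [mem_filter, mem_range]
        have h4 := hpzcol m (by omega)
        rw [abs_le] at h4
        refine ⟨?_, by omega, by omega⟩
        have h5 : m / l ≤ n / l := Nat.div_le_div_right (by omega)
        omega
      · intro q _
        have h4 : (Finset.filter (fun m => m / l = q)
            (Finset.filter (fun i => α ≤ col (p i) ∧ col (p i) < β) (range (n + 1)))) ⊆
            Finset.Ico (q * l) (q * l + l) := by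
          intro m hm
          rw [mem_filter] at hm
          rw [mem_Ico]
          have h5 := Nat.div_add_mod m l
          have h6 := Nat.mod_lt m hl
          rw [hm.2] at h5
          have h7 : l * q = q * l := by ring
          omega
        have h5 := Finset.card_le_card h4
        rw [Nat.card_Ico] at h5
        omega
    have h4 : ((range M).filter (fun i => α - 2 * l ≤ x i ∧ x i ≤ β + 2 * l)).card =
        (full.filter (fun i => α - 2 * l ≤ x i ∧ x i ≤ β + 2 * l)).card +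
        (if α - 2 * l ≤ x (n / l) ∧ x (n / l) ≤ β + 2 * l then 1 else 0) := by
      rw [hM, Finset.range_add_one, Finset.filter_insert]
      split_ifs with h5
      · rw [Finset.card_insert_of_notMem]
        simp
      · rfl
    rw [h4] at h3
    have h5 : (vis α β n p : ℝ) ≤ ((l * ((full.filter (fun i => α - 2 * l ≤ x i ∧
        x i ≤ β + 2 * l)).card + (if α - 2 * l ≤ x (n / l) ∧ x (n / l) ≤ β + 2 * l then 1
        else 0)) : ℕ) : ℝ) := by exact_mod_cast h3
    refine h5.trans (le_of_eq ?_)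
    push_cast
    split_ifs <;> ring
  have hclamp : ∀ α β : ℤ, α ≤ β →
      l * ((full.filter (fun i => α - 2 * l ≤ x i ∧ x i ≤ β + 2 * l)).card : ℝ) ≤
      K1 * ∑ j ∈ Ico (α - 8 * l) (β + 8 * l), psum A l n p h1 h2 t j +
      K2 * (clp (α - 2 * l - 2 * (l : ℤ)) (β + 2 * l + 2 * (l : ℤ)) (x M) -
        clp (α - 2 * l - 2 * (l : ℤ)) (β + 2 * l + 2 * (l : ℤ)) (x 0)) := by
    intro α β hαβ
    have h3 := clamp_count (c := a ^ 2 / (24 * b)) (C := 12 / a) (C' := 7 * b / 6)
      (by positivity) (by positivity) hD (fun i _ => hs0 i) hneg full hfull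
      (α := α - 2 * l) (β := β + 2 * l) (by omega)
    have h4 := hsub (α - 8 * l) (β + 8 * l) (α - 2 * l - 2 * (2 * (l : ℤ)))
      (β + 2 * l + 2 * (2 * (l : ℤ))) (by omega) (by omega)
    have h5 : 1 + 2 * (12 / a) * (7 * b / 6) = 1 + 28 * b / a := by
      field_simp
      ring
    rw [h5] at h3
    have h6 : (1 + 28 * b / a) * ∑ i ∈ (range M).filter (fun i =>
        α - 2 * l - 2 * (2 * (l : ℤ)) ≤ x i ∧ x i ≤ β + 2 * l + 2 * (2 * (l : ℤ))), s i ≤
        (1 + 28 * b / a) * ∑ j ∈ Ico (α - 8 * l) (β + 8 * l), psum A l n p h1 h2 t j :=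
      mul_le_mul_of_nonneg_left h4 (by positivity)
    have h7 := h3.trans (add_le_add_left h6 _)
    have h8 := mul_le_mul_of_nonneg_left h7 (by positivity : (0 : ℝ) ≤ 12 * b / a ^ 2)
    have h9 : 12 * b / a ^ 2 * (a ^ 2 / (24 * b) * ((2 * (l : ℤ) : ℤ) : ℝ) *
        ((full.filter (fun i => α - 2 * l ≤ x i ∧ x i ≤ β + 2 * l)).card : ℝ)) =
        l * ((full.filter (fun i => α - 2 * l ≤ x i ∧ x i ≤ β + 2 * l)).card : ℝ) := by
      push_cast
      field_simp
      ring
    rw [h9] at h8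
    refine h8.trans (le_of_eq ?_)
    rw [hK1, hK2]
    ring
  have hx0 : x 0 = 0 := by
    simp only [hx, pz]
    rw [Nat.zero_mul, Nat.zero_min, hp.1.1]
    rfl
  have hxM : x M = col v := by
    simp only [hx, pz]
    rw [hM, min_eq_right (pie_M hl), hp.1.2.1]
  refine ⟨?_, ?_, ?_⟩
  · intro α β hαβ
    have h3 := hvis α β
    have h4 := hclamp α β hαβ
    have h5 := hS0 (α - 8 * l) (β + 8 * l)
    have h6 : clp (α - 2 * l - 2 * (l : ℤ)) (β + 2 * l + 2 * (l : ℤ)) (x M) -
        clp (α - 2 * l - 2 * (l : ℤ)) (β + 2 * l + 2 * (l : ℤ)) (x 0) ≤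
        (β : ℝ) - α + 8 * l := by
      unfold clp
      have h7 : (max (α - 2 * l - 2 * (l : ℤ)) (min (β + 2 * l + 2 * (l : ℤ)) (x M))) -
          (max (α - 2 * l - 2 * (l : ℤ)) (min (β + 2 * l + 2 * (l : ℤ)) (x 0))) ≤
          β - α + 8 * l := by omega
      exact_mod_cast h7
    have h7 : (if α - 2 * l ≤ x (n / l) ∧ x (n / l) ≤ β + 2 * l then (l : ℝ) else 0) ≤ l := by
      split_ifs <;> linarith
    have h8 := mul_le_mul_of_nonneg_left h6 hK2p.le
    have hβα : (0 : ℝ) ≤ (β : ℝ) - α := by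
      have : (α : ℝ) ≤ β := by exact_mod_cast hαβ
      linarith
    have h12a : 0 < 12 / a := by positivity
    set S := ∑ j ∈ Ico (α - 8 * l) (β + 8 * l), psum A l n p h1 h2 t j with hSdef
    have e1 : (K1 + 8 * K2 + 4 + 12 / a) * ((β : ℝ) - α + l + S) =
        K1 * S + K2 * ((β : ℝ) - α + 8 * l) + l + (K1 * ((β : ℝ) - α + l) +
        7 * (K2 * ((β : ℝ) - α)) + 8 * (K2 * S) +
        (4 + 12 / a) * ((β : ℝ) - α + S) + (3 + 12 / a) * l) := by ring
    rw [e1]
    have h9 : 0 ≤ K1 * ((β : ℝ) - α + l) + 7 * (K2 * ((β : ℝ) - α)) + 8 * (K2 * S) +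
        (4 + 12 / a) * ((β : ℝ) - α + S) + (3 + 12 / a) * l := by positivity
    linarith
  · intro α β hαβ hout
    have h3 := hvis α β
    have h4 := hclamp α β hαβ
    have h5 := hS0 (α - 8 * l) (β + 8 * l)
    have h6 : clp (α - 2 * l - 2 * (l : ℤ)) (β + 2 * l + 2 * (l : ℤ)) (x M) -
        clp (α - 2 * l - 2 * (l : ℤ)) (β + 2 * l + 2 * (l : ℤ)) (x 0) = 0 := by
      unfold clp
      have h7 : (max (α - 2 * l - 2 * (l : ℤ)) (min (β + 2 * l + 2 * (l : ℤ)) (x M))) =
          (max (α - 2 * l - 2 * (l : ℤ)) (min (β + 2 * l + 2 * (l : ℤ)) (x 0))) := by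
        rw [hx0, hxM]
        rcases hout with h8 | h8 <;> omega
      rw [h7, sub_self]
    have h7 : ¬ (α - 2 * l ≤ x (n / l) ∧ x (n / l) ≤ β + 2 * l) := by
      have h8 := hpzcol n le_rfl
      rw [hp.1.2.1, abs_le] at h8
      rcases hout with h9 | h9 <;> omega
    rw [if_neg h7] at h3
    rw [h6] at h4
    have h12a : 0 < 12 / a := by positivity
    set S := ∑ j ∈ Ico (α - 8 * l) (β + 8 * l), psum A l n p h1 h2 t j with hSdef
    have h9 : 0 ≤ (8 * K2 + 4 + 12 / a) * S := by positivity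
    have e1 : (K1 + 8 * K2 + 4 + 12 / a) * S = K1 * S + (8 * K2 + 4 + 12 / a) * S := by ring
    rw [e1]
    linarith
  · intro α β hαβ i j hij hj hi1 hj1
    have h3 := hpzcol i (by omega)
    have h4 := hpzcol j hj
    rw [abs_le] at h3 h4
    have h5 := hS0 (α - 8 * l) (β + 8 * l)
    have h12a : 0 < 12 / a := by positivity
    set S := ∑ j ∈ Ico (α - 8 * l) (β + 8 * l), psum A l n p h1 h2 t j with hSdef
    have e1 : (K1 + 8 * K2 + 4 + 12 / a) * (l + S) = 4 * l + 12 / a * S +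
        ((K1 + 8 * K2 + 12 / a) * l + (K1 + 8 * K2 + 4) * S) := by ring
    have h6 : 0 ≤ (K1 + 8 * K2 + 12 / a) * l + (K1 + 8 * K2 + 4) * S := by positivity
    have h7 : 0 ≤ 12 / a * S := by positivity
    rcases le_total (α + 2 * (l : ℤ)) (β - 2 * l) with h8 | h8
    · have hjn : j / l ≤ n / l := Nat.div_le_div_right hj
      have h9 := clamp_backtrack (C := 12 / a) (by positivity) hD (fun i _ => hs0 i) hneg h8
        (p := i / l) (q := j / l) (Nat.div_le_div_right hij) (by omega) (by omega) (by omega)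
      have h10 := hsub (α - 8 * l) (β + 8 * l) (α + 2 * l - 2 * (l : ℤ))
        (β - 2 * l + 2 * (l : ℤ)) (by omega) (by omega)
      have h11 := h9.trans (mul_le_mul_of_nonneg_left h10 (by positivity))
      rw [e1]
      push_cast at h11
      linarith
    · have h9 : (β : ℝ) - 2 * l ≤ α + 2 * l := by exact_mod_cast h8
      rw [e1]
      linarith

end Pool.Agent.FPZ
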