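import Pool.Agent.FPZ.R8Low
import Pool.Agent.FPZ.R8Pie
import Pool.Agent.FPZ.PrB
import Pool.Agent.FPZ.Geo

/-!
Module R8Reg (section 8): the regularity theorem. For each configuration there is a slack function `S ω j ≥ 0` of the column `j`,
of mean total `≤ C n / k`, that controls the visits and the backtracks of the chosen geodesic from `0` to `v`, `n = nrm v`,
at scale `l = k^10`, `t = k^9`.
-/

set_option autoImplicit false

noncomputable section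

namespace Pool.Agent.FPZ

open Finset Pool.FPP

/-- the slack function and its properties -/
structure Reg {N : ℕ} [NeZero N] {Al : Type} [Fintype Al] (wt : Al → ℝ) (v : V) (k : ℕ) (C : ℝ)
    (S : (Ix N → Al) → ℤ → ℝ) : Prop where
  nonneg : ∀ ω j, 0 ≤ S ω j
  supp : ∀ ω (j : ℤ), C * nrm v < |(j : ℝ)| → S ω j = 0
  tot : ∀ ω (T : Finset ℤ), ∑ j ∈ T, S ω j ≤ C * (nrm v : ℝ) ^ 2
  mean : ∀ T : Finset ℤ, Ex (fun ω => ∑ j ∈ T, S ω j) ≤ C * nrm v / k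
  visit : ∀ ω (α β : ℤ), α ≤ β → (vis α β (Gn wt v ω) (Gp wt v ω) : ℝ) ≤
    C * ((β : ℝ) - α + (k : ℝ) ^ 10 + ∑ j ∈ Ico (α - 8 * (k : ℤ) ^ 10) (β + 8 * (k : ℤ) ^ 10), S ω j)
  visit_out : ∀ ω (α β : ℤ), α ≤ β → (β + 8 * (k : ℤ) ^ 10 ≤ 0 ∨ col v + 8 * (k : ℤ) ^ 10 ≤ α) →
    (vis α β (Gn wt v ω) (Gp wt v ω) : ℝ) ≤
    C * ∑ j ∈ Ico (α - 8 * (k : ℤ) ^ 10) (β + 8 * (k : ℤ) ^ 10), S ω j
  back : ∀ ω (α β : ℤ), α ≤ β → ∀ i j : ℕ, i ≤ j → j ≤ Gn wt v ω →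
    β ≤ col (Gp wt v ω i) → col (Gp wt v ω j) ≤ α → (β : ℝ) - α ≤
    C * ((k : ℝ) ^ 10 + ∑ j ∈ Ico (α - 8 * (k : ℤ) ^ 10) (β + 8 * (k : ℤ) ^ 10), S ω j)

/-! ### geometry of paths -/

private theorem rr_step {x y : V} (h : adj x y) : nrm y ≤ nrm x + 1 := by
  obtain ⟨⟨⟨a, b⟩, d⟩, hj⟩ := h
  obtain ⟨x1, x2⟩ := x
  obtain ⟨y1, y2⟩ := y
  cases d <;> simp only [joins, hd, Prod.mk.injEq, if_true, if_false, Bool.false_eq_true] at hj <;>
    unfold nrm <;> simp only <;> omega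

private theorem rr_nrm {n : ℕ} {p : ℕ → V} {v : V} (h : IsPath n p 0 v) :
    ∀ i ≤ n, nrm (p i) ≤ i := by
  intro i
  induction i with
  | zero => intro _; rw [h.1]; simp [nrm]
  | succ i ih =>
    intro hi
    have h1 := ih (by omega)
    have h2 := rr_step (h.2.2 i (by omega))
    omega

private theorem rr_box {z : V} {Q : ℕ} (h : nrm z ≤ Q) : inBox (Q : ℤ) z := by
  obtain ⟨z1, z2⟩ := z
  unfold nrm at h
  simp only at h
  constructor <;> simp only [abs_le] <;> omega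

private theorem rr_col (z : V) : |col z| ≤ 2 * (nrm z : ℤ) := by
  obtain ⟨z1, z2⟩ := z
  unfold nrm col
  simp only
  rw [abs_le]
  omega

/-! ### facts on geodesics -/

private theorem rr_geo {a b : ℝ} (ha : 0 < a) {A : E → ℝ} (hA : Bd a b A) (x y : V) :
    IsGeo A (gl A x y) (gp A x y) x y := geo_isGeo ha hA x y

private theorem rr_dst_le {a b : ℝ} (ha : 0 < a) {A : E → ℝ} (hA : Bd a b A) (x y : V) :
    dst A x y ≤ b * nrm (y - x) := by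
  obtain ⟨p, hp⟩ := sym_path_exists (nrm (y - x)) x y rfl
  refine (dst_le_cost (fun e => ha.le.trans (hA e).1) hp).trans ?_
  unfold cost
  have : ∑ k ∈ Ico 0 (nrm (y - x)), A (edg (p k) (p (k + 1))) ≤ ∑ _k ∈ Ico 0 (nrm (y - x)), b :=
    Finset.sum_le_sum fun k _ => (hA _).2
  simpa [mul_comm] using this

private theorem rr_dst_nonneg {a b : ℝ} (ha : 0 < a) {A : E → ℝ} (hA : Bd a b A) (x y : V) :
    0 ≤ dst A x y := by
  refine Real.sInf_nonneg ?_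
  rintro t ⟨n, p, -, rfl⟩
  exact Finset.sum_nonneg fun k _ => ha.le.trans (hA _).1

private theorem rr_len {a b : ℝ} (ha : 0 < a) {A : E → ℝ} (hA : Bd a b A) (v : V) :
    (gl A 0 v : ℝ) ≤ b / a * nrm v := by
  have h1 := (rr_geo ha hA 0 v).2
  have h2 := rr_dst_le ha hA 0 v
  have h3 : a * (gl A 0 v : ℝ) ≤ cost A 0 (gl A 0 v) (gp A 0 v) := by
    unfold cost
    have : ∑ _k ∈ Ico 0 (gl A 0 v), a ≤
        ∑ k ∈ Ico 0 (gl A 0 v), A (edg (gp A 0 v k) (gp A 0 v (k + 1))) :=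
      Finset.sum_le_sum fun k _ => (hA _).1
    simpa [mul_comm] using this
  rw [h1] at h3
  have h4 : nrm (v - 0) = nrm v := by rw [sub_zero]
  rw [h4] at h2
  have h5 : a * (gl A 0 v : ℝ) ≤ b * nrm v := h3.trans h2
  rw [div_mul_eq_mul_div, le_div_iff₀ ha]
  linarith

/-! ### numbers -/

private theorem rr_num (c C3 : ℝ) (hc : 0 < c) (hC3 : 0 < C3) : ∃ k0 : ℕ, ∀ k : ℕ, k0 ≤ k →
    C3 * (k : ℝ) ^ 20 * Real.exp (4 * k) * Real.exp (-(c * (k : ℝ) ^ 4)) ≤ 1 := by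
  set F : ℝ := (Nat.factorial 20 : ℝ) with hF
  have hF0 : 0 < F := by rw [hF]; exact_mod_cast Nat.factorial_pos 20
  obtain ⟨k1, hk1⟩ := exists_nat_ge (6 / c)
  obtain ⟨k2, hk2⟩ := exists_nat_ge (Real.log (C3 * F))
  refine ⟨max 1 (max k1 k2), fun k hk => ?_⟩
  have h1 : 1 ≤ k := le_trans (le_max_left _ _) hk
  have h2 : k1 ≤ k := le_trans ((le_max_left _ _).trans (le_max_right _ _)) hk
  have h3 : k2 ≤ k := le_trans ((le_max_right _ _).trans (le_max_right _ _)) hk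
  have hkR : (1 : ℝ) ≤ k := by exact_mod_cast h1
  have hk6 : 6 / c ≤ k := hk1.trans (by exact_mod_cast h2)
  have hkl : Real.log (C3 * F) ≤ k := hk2.trans (by exact_mod_cast h3)
  have h20 : (k : ℝ) ^ 20 ≤ F * Real.exp k := by
    have := Real.pow_div_factorial_le_exp (k : ℝ) (by linarith) 20
    rw [div_le_iff₀ hF0] at this
    linarith
  have hck : 6 * (k : ℝ) ≤ c * (k : ℝ) ^ 4 := by
    have h6 : 6 ≤ c * k := by
      rw [div_le_iff₀ hc] at hk6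
      linarith
    have hk2' : (1 : ℝ) ≤ (k : ℝ) ^ 2 := one_le_pow₀ hkR
    have h7 : c * (k : ℝ) ^ 4 = (c * k) * ((k : ℝ) ^ 2 * k) := by ring
    rw [h7]
    have h8 : (k : ℝ) ≤ (k : ℝ) ^ 2 * k := by nlinarith
    nlinarith
  have hexp : C3 * F ≤ Real.exp k := by
    have := Real.exp_le_exp.2 hkl
    rwa [Real.exp_log (by positivity)] at this
  calc C3 * (k : ℝ) ^ 20 * Real.exp (4 * k) * Real.exp (-(c * (k : ℝ) ^ 4))
      ≤ C3 * (F * Real.exp k) * Real.exp (4 * k) * Real.exp (-(6 * (k : ℝ))) := by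
        gcongr
    _ = (C3 * F) * Real.exp (-(k : ℝ)) := by
        have : Real.exp k * Real.exp (4 * k) * Real.exp (-(6 * (k : ℝ))) = Real.exp (-(k : ℝ)) := by
          rw [← Real.exp_add, ← Real.exp_add]
          congr 1
          ring
        rw [← this]
        ring
    _ ≤ Real.exp k * Real.exp (-(k : ℝ)) := by gcongr
    _ = 1 := by rw [← Real.exp_add]; simp

/-! ### the bad event -/

private theorem rr_bad {N : ℕ} [NeZero N] {Al : Type} [Fintype Al] [Nonempty Al] {a b : ℝ}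
    (ha : 0 < a) (hab : a < b) {wt : Al → ℝ}
    (hw : ∀ x, a ≤ wt x ∧ wt x ≤ b) {l Q : ℕ} (hl : 1 ≤ l) (hN : b / a * l < N) (t : ℝ) :
    Pr (fun ω : Ix N → Al => ¬ ∀ x y : V, inBox (Q : ℤ) x → inBox (Q : ℤ) y → nrm (y - x) ≤ l →
      gE N wt (y - x) - t ≤ dst (env wt ω) x y) ≤
      (2 * Q + 1) ^ 2 * (2 * l + 1) ^ 2 *
        (3 * Real.exp (-(t / ((b - a) * Real.sqrt (b / a * l))))) := by
  classical
  set K : Finset (V × V) := (Icc (-(Q : ℤ)) Q ×ˢ Icc (-(Q : ℤ)) Q) ×ˢ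
    ((Icc (-(l : ℤ)) l ×ˢ Icc (-(l : ℤ)) l).filter (fun u : V => nrm u ≤ l)) with hK
  have hcard : (K.card : ℝ) ≤ (2 * Q + 1) ^ 2 * (2 * l + 1) ^ 2 := by
    have h1 : K.card ≤ ((2 * Q + 1) * (2 * Q + 1)) * ((2 * l + 1) * (2 * l + 1)) := by
      rw [hK, Finset.card_product]
      refine Nat.mul_le_mul ?_ ?_
      · rw [Finset.card_product, Int.card_Icc]
        apply le_of_eq
        congr 1 <;> omega
      · refine (Finset.card_filter_le _ _).trans ?_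
        rw [Finset.card_product, Int.card_Icc]
        apply le_of_eq
        congr 1 <;> omega
    calc (K.card : ℝ) ≤ ((((2 * Q + 1) * (2 * Q + 1)) * ((2 * l + 1) * (2 * l + 1)) : ℕ) : ℝ) := by
          exact_mod_cast h1
      _ = _ := by push_cast; ring
  have h1 : Pr (fun ω : Ix N → Al => ¬ ∀ x y : V, inBox (Q : ℤ) x → inBox (Q : ℤ) y →
      nrm (y - x) ≤ l → gE N wt (y - x) - t ≤ dst (env wt ω) x y) ≤
      Pr (fun ω : Ix N → Al => ∃ q ∈ K, dst (env wt ω) q.1 (q.1 + q.2) ≤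
        gE N wt (q.1 + q.2 - q.1) - t) := by
    refine Q67.Pr_mono fun ω h => ?_
    push Not at h
    obtain ⟨x, y, hx, hy, hxy, hlt⟩ := h
    refine ⟨(x, y - x), ?_, ?_⟩
    · rw [hK, Finset.mem_product, Finset.mem_product, Finset.mem_filter, Finset.mem_product]
      refine ⟨⟨?_, ?_⟩, ⟨?_, ?_⟩, hxy⟩
      · rw [Finset.mem_Icc]; exact abs_le.1 hx.1
      · rw [Finset.mem_Icc]; exact abs_le.1 hx.2
      · rw [Finset.mem_Icc]
        have : (y - x).1.natAbs ≤ l := le_trans (by unfold nrm; omega) hxy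
        simp only
        omega
      · rw [Finset.mem_Icc]
        have : (y - x).2.natAbs ≤ l := le_trans (by unfold nrm; omega) hxy
        simp only
        omega
    · have h3 : x + (y - x) = y := by abel
      simp only [h3]
      exact hlt.le
  refine h1.trans ((Q67.Pr_exists_le K _).trans ?_)
  have h2 : ∀ q ∈ K, Pr (fun ω : Ix N → Al => dst (env wt ω) q.1 (q.1 + q.2) ≤
      gE N wt (q.1 + q.2 - q.1) - t) ≤
      3 * Real.exp (-(t / ((b - a) * Real.sqrt (b / a * l)))) := by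
    intro q hq
    refine lower_tail ha hab hw hl hN q.1 (q.1 + q.2) ?_ t
    rw [hK, Finset.mem_product, Finset.mem_filter] at hq
    rw [add_sub_cancel_left]
    exact hq.2.2
  refine (Finset.sum_le_card_nsmul _ _ _ h2).trans ?_
  rw [nsmul_eq_mul]
  exact mul_le_mul_of_nonneg_right hcard (by positivity)

/-! ### the slack function on good configurations -/

section Good

variable {A : E → ℝ} {a b : ℝ} {l n Q : ℕ} {p : ℕ → V} {v : V} {g : V → ℝ} {h1 h2 t : ℝ}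

private theorem rr_inBox (hp : IsGeo A n p 0 v) (hn : n ≤ Q) : ∀ i ≤ n, inBox (Q : ℤ) (p i) :=
  fun i hi => rr_box ((rr_nrm hp.1 i hi).trans (hi.trans hn))

private theorem rr_colQ (hp : IsGeo A n p 0 v) (hn : n ≤ Q) (i : ℕ) (hi : i ≤ n) :
    |col (p i)| ≤ 2 * (Q : ℤ) := by
  have h1 := rr_col (p i)
  have h2 := (rr_nrm hp.1 i hi).trans (hi.trans hn)
  have h3 : (nrm (p i) : ℤ) ≤ Q := by exact_mod_cast h2
  omega

private theorem rr_psum_nonneg (ha : 0 < a) (hA : Bd a b A) (hl : 1 ≤ l)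
    (hp : IsGeo A n p 0 v) (hn : n ≤ Q)
    (hgood : ∀ x y : V, inBox (Q : ℤ) x → inBox (Q : ℤ) y → nrm (y - x) ≤ l →
      g (y - x) - t ≤ dst A x y)
    (hg : ∀ u : V, nrm u ≤ l → h1 * u.1 + h2 * u.2 ≤ g u) (j : ℤ) :
    0 ≤ psum A l n p h1 h2 t j :=
  Finset.sum_nonneg fun i _ => psl_nonneg ha hA hl hp (rr_inBox hp hn) hgood hg i

private theorem rr_psum_zero (hp : IsGeo A n p 0 v) (hn : n ≤ Q) (j : ℤ) (hj : 2 * (Q : ℤ) < |j|) :
    psum A l n p h1 h2 t j = 0 := by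
  unfold psum
  rw [Finset.filter_false_of_mem, Finset.sum_empty]
  intro i _ h
  have h3 := rr_colQ hp hn (min (i * l) n) (min_le_right _ _)
  unfold pz at h
  rw [h] at h3
  omega

private theorem rr_psum_le (ha : 0 < a) (hA : Bd a b A) (hl : 1 ≤ l)
    (hp : IsGeo A n p 0 v) (hn : n ≤ Q)
    (hgood : ∀ x y : V, inBox (Q : ℤ) x → inBox (Q : ℤ) y → nrm (y - x) ≤ l →
      g (y - x) - t ≤ dst A x y)
    (hg : ∀ u : V, nrm u ≤ l → h1 * u.1 + h2 * u.2 ≤ g u) (T : Finset ℤ) :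
    ∑ j ∈ T, psum A l n p h1 h2 t j ≤
      dst A 0 v - (h1 * v.1 + h2 * v.2) + ((n / l : ℕ) + 1 : ℝ) * t := by
  classical
  have h3 := psum_total ha hA hl hp h1 h2 t (R := 2 * (Q : ℤ))
    (fun i hi => rr_colQ hp hn i hi)
  rw [← h3]
  have hnn := rr_psum_nonneg ha hA hl hp hn hgood hg
  calc ∑ j ∈ T, psum A l n p h1 h2 t j
      = ∑ j ∈ T.filter (fun j => |j| ≤ 2 * (Q : ℤ)), psum A l n p h1 h2 t j := by
        rw [Finset.sum_filter]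
        refine Finset.sum_congr rfl fun j _ => ?_
        by_cases hj : |j| ≤ 2 * (Q : ℤ)
        · rw [if_pos hj]
        · rw [if_neg hj]
          exact rr_psum_zero hp hn j (not_le.1 hj)
    _ ≤ ∑ j ∈ Icc (-(2 * (Q : ℤ))) (2 * (Q : ℤ)), psum A l n p h1 h2 t j := by
        refine Finset.sum_le_sum_of_subset_of_nonneg ?_ fun j _ _ => hnn j
        intro j hj
        rw [Finset.mem_filter] at hj
        rw [Finset.mem_Icc]
        exact abs_le.1 hj.2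

end Good

/-- the good event -/
def regG {N : ℕ} [NeZero N] {Al : Type} [Fintype Al] (wt : Al → ℝ) (l Q : ℕ) (t : ℝ)
    (ω : Ix N → Al) : Prop :=
  ∀ x y : V, inBox (Q : ℤ) x → inBox (Q : ℤ) y → nrm (y - x) ≤ l →
    gE N wt (y - x) - t ≤ dst (env wt ω) x y

open Classical in
/-- the slack function -/
def regS {N : ℕ} [NeZero N] {Al : Type} [Fintype Al] (wt : Al → ℝ) (v : V) (l Q : ℕ)
    (h1 h2 t : ℝ) (ω : Ix N → Al) (j : ℤ) : ℝ :=
  if regG wt l Q t ω then psum (env wt ω) l (Gn wt v ω) (Gp wt v ω) h1 h2 t j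
  else if |j| ≤ 2 * (Q : ℤ) then 4 * (Q : ℝ) + 1 else 0

private theorem rr_bad_sum (Q : ℕ) (T : Finset ℤ) :
    ∑ j ∈ T, (if |j| ≤ 2 * (Q : ℤ) then 4 * (Q : ℝ) + 1 else 0) ≤
      (4 * (Q : ℝ) + 1) * (4 * (Q : ℝ) + 1) := by
  classical
  rw [← Finset.sum_filter, Finset.sum_const, nsmul_eq_mul]
  have h1 : (T.filter (fun j : ℤ => |j| ≤ 2 * (Q : ℤ))).card ≤ 4 * Q + 1 := by
    calc (T.filter (fun j : ℤ => |j| ≤ 2 * (Q : ℤ))).card
        ≤ (Icc (-(2 * (Q : ℤ))) (2 * (Q : ℤ))).card := by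
          refine Finset.card_le_card fun j hj => ?_
          rw [Finset.mem_filter] at hj
          rw [Finset.mem_Icc]
          exact abs_le.1 hj.2
      _ = 4 * Q + 1 := by rw [Int.card_Icc]; omega
  have h2 : ((T.filter (fun j : ℤ => |j| ≤ 2 * (Q : ℤ))).card : ℝ) ≤ 4 * (Q : ℝ) + 1 := by
    exact_mod_cast h1
  exact mul_le_mul_of_nonneg_right h2 (by positivity)

private theorem rr_vis_le (α β : ℤ) (n : ℕ) (p : ℕ → V) : vis α β n p ≤ n + 1 := by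
  unfold vis
  refine (Finset.card_filter_le _ _).trans ?_
  rw [Finset.card_range]

private theorem rr_vis_bad {Q n : ℕ} {p : ℕ → V} (hn : n ≤ Q) (hc : ∀ i ≤ n, |col (p i)| ≤ 2 * (Q : ℤ))
    (α β w : ℤ) (hw : 0 ≤ w) :
    (vis α β n p : ℝ) ≤ ∑ j ∈ Ico (α - w) (β + w), (if |j| ≤ 2 * (Q : ℤ) then 4 * (Q : ℝ) + 1 else 0) := by
  classical
  have hnn : ∀ j ∈ Ico (α - w) (β + w), (0 : ℝ) ≤ (if |j| ≤ 2 * (Q : ℤ) then 4 * (Q : ℝ) + 1 else 0) := by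
    intro j _
    split_ifs
    · positivity
    · exact le_refl _
  by_cases h : vis α β n p = 0
  · rw [h, Nat.cast_zero]
    exact Finset.sum_nonneg hnn
  · unfold vis at h
    obtain ⟨m, hm⟩ := Finset.card_pos.1 (Nat.pos_of_ne_zero h)
    rw [Finset.mem_filter, Finset.mem_range] at hm
    have hj : col (p m) ∈ Ico (α - w) (β + w) := by
      rw [Finset.mem_Ico]
      omega
    refine le_trans ?_ (Finset.single_le_sum hnn hj)
    rw [if_pos (hc m (by omega))]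
    have h3 := rr_vis_le α β n p
    have h4 : ((vis α β n p : ℕ) : ℝ) ≤ (n : ℝ) + 1 := by exact_mod_cast h3
    have h5 : (n : ℝ) ≤ Q := by exact_mod_cast hn
    have h6 : (0 : ℝ) ≤ n := Nat.cast_nonneg _
    linarith

section Fields

variable {N : ℕ} [NeZero N] {Al : Type} [Fintype Al] {wt : Al → ℝ} {v : V} {l Q : ℕ}
  {h1 h2 t C1 C : ℝ}

private theorem regS_good {ω : Ix N → Al} (hG : regG wt l Q t ω) : regS wt v l Q h1 h2 t ω =
    psum (env wt ω) l (Gn wt v ω) (Gp wt v ω) h1 h2 t := by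
  funext j
  unfold regS
  rw [if_pos hG]

private theorem regS_bad {ω : Ix N → Al} (hG : ¬ regG wt l Q t ω) : regS wt v l Q h1 h2 t ω =
    fun j => if |j| ≤ 2 * (Q : ℤ) then 4 * (Q : ℝ) + 1 else 0 := by
  funext j
  unfold regS
  rw [if_neg hG]

private theorem rr_visit {ω : Ix N → Al} (hnn : ∀ j, 0 ≤ regS wt v l Q h1 h2 t ω j)
    (hCC1 : C1 ≤ C) (hC : 1 ≤ C) (hlenQ : Gn wt v ω ≤ Q)
    (hcolQ : ∀ i ≤ Gn wt v ω, |col (Gp wt v ω i)| ≤ 2 * (Q : ℤ))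
    (hpb : regG wt l Q t ω → ∀ α β : ℤ, α ≤ β → (vis α β (Gn wt v ω) (Gp wt v ω) : ℝ) ≤
      C1 * ((β : ℝ) - α + l + ∑ j ∈ Ico (α - 8 * l) (β + 8 * l),
        psum (env wt ω) l (Gn wt v ω) (Gp wt v ω) h1 h2 t j))
    (α β : ℤ) (hαβ : α ≤ β) : (vis α β (Gn wt v ω) (Gp wt v ω) : ℝ) ≤
      C * ((β : ℝ) - α + l + ∑ j ∈ Ico (α - 8 * (l : ℤ)) (β + 8 * (l : ℤ)),
        regS wt v l Q h1 h2 t ω j) := by
  have hαβR : (α : ℝ) ≤ β := by exact_mod_cast hαβ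
  have e0 : 0 ≤ ∑ j ∈ Ico (α - 8 * (l : ℤ)) (β + 8 * (l : ℤ)), regS wt v l Q h1 h2 t ω j :=
    Finset.sum_nonneg fun j _ => hnn j
  have hl0 : (0 : ℝ) ≤ l := Nat.cast_nonneg _
  have e2 : 0 ≤ (β : ℝ) - α + l + ∑ j ∈ Ico (α - 8 * (l : ℤ)) (β + 8 * (l : ℤ)),
    regS wt v l Q h1 h2 t ω j := by linarith
  by_cases hG : regG wt l Q t ω
  · have e1 := hpb hG α β hαβ
    rw [regS_good hG] at e2 ⊢
    exact e1.trans (mul_le_mul_of_nonneg_right hCC1 e2)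
  · have e1 := rr_vis_bad hlenQ hcolQ α β (8 * (l : ℤ)) (by positivity)
    rw [regS_bad hG] at e0 e2 ⊢
    have e3 := mul_le_mul_of_nonneg_right hC e2
    rw [one_mul] at e3
    refine le_trans ?_ e3
    simp only at e0 e1 ⊢
    linarith

private theorem rr_visit_out {ω : Ix N → Al} (hnn : ∀ j, 0 ≤ regS wt v l Q h1 h2 t ω j)
    (hCC1 : C1 ≤ C) (hC : 1 ≤ C) (hlenQ : Gn wt v ω ≤ Q)
    (hcolQ : ∀ i ≤ Gn wt v ω, |col (Gp wt v ω i)| ≤ 2 * (Q : ℤ))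
    (hpb : regG wt l Q t ω → ∀ α β : ℤ, α ≤ β → (β + 8 * (l : ℤ) ≤ 0 ∨ col v + 8 * (l : ℤ) ≤ α) →
      (vis α β (Gn wt v ω) (Gp wt v ω) : ℝ) ≤
      C1 * ∑ j ∈ Ico (α - 8 * l) (β + 8 * l),
        psum (env wt ω) l (Gn wt v ω) (Gp wt v ω) h1 h2 t j)
    (α β : ℤ) (hαβ : α ≤ β) (hout : β + 8 * (l : ℤ) ≤ 0 ∨ col v + 8 * (l : ℤ) ≤ α) :
    (vis α β (Gn wt v ω) (Gp wt v ω) : ℝ) ≤
      C * ∑ j ∈ Ico (α - 8 * (l : ℤ)) (β + 8 * (l : ℤ)), regS wt v l Q h1 h2 t ω j := by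
  have e0 : 0 ≤ ∑ j ∈ Ico (α - 8 * (l : ℤ)) (β + 8 * (l : ℤ)), regS wt v l Q h1 h2 t ω j :=
    Finset.sum_nonneg fun j _ => hnn j
  by_cases hG : regG wt l Q t ω
  · have e1 := hpb hG α β hαβ hout
    rw [regS_good hG] at e0 ⊢
    exact e1.trans (mul_le_mul_of_nonneg_right hCC1 e0)
  · have e1 := rr_vis_bad hlenQ hcolQ α β (8 * (l : ℤ)) (by positivity)
    rw [regS_bad hG] at e0 ⊢
    have e3 := mul_le_mul_of_nonneg_right hC e0
    rw [one_mul] at e3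
    exact e1.trans e3

private theorem rr_back {ω : Ix N → Al} (hl : 1 ≤ l) (hnn : ∀ j, 0 ≤ regS wt v l Q h1 h2 t ω j)
    (hCC1 : C1 ≤ C) (hC : 1 ≤ C)
    (hcolQ : ∀ i ≤ Gn wt v ω, |col (Gp wt v ω i)| ≤ 2 * (Q : ℤ))
    (hpb : regG wt l Q t ω → ∀ α β : ℤ, α ≤ β → ∀ i j : ℕ, i ≤ j → j ≤ Gn wt v ω →
      β ≤ col (Gp wt v ω i) → col (Gp wt v ω j) ≤ α →
      (β : ℝ) - α ≤ C1 * (l + ∑ j ∈ Ico (α - 8 * l) (β + 8 * l),
        psum (env wt ω) l (Gn wt v ω) (Gp wt v ω) h1 h2 t j))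
    (α β : ℤ) (hαβ : α ≤ β) (i j : ℕ) (hij : i ≤ j) (hj : j ≤ Gn wt v ω)
    (hi : β ≤ col (Gp wt v ω i)) (hjα : col (Gp wt v ω j) ≤ α) :
    (β : ℝ) - α ≤ C * ((l : ℝ) + ∑ j ∈ Ico (α - 8 * (l : ℤ)) (β + 8 * (l : ℤ)),
      regS wt v l Q h1 h2 t ω j) := by
  have e0 : 0 ≤ ∑ j ∈ Ico (α - 8 * (l : ℤ)) (β + 8 * (l : ℤ)), regS wt v l Q h1 h2 t ω j :=
    Finset.sum_nonneg fun j _ => hnn j
  have hl0 : (0 : ℝ) ≤ l := Nat.cast_nonneg _
  have e2 : 0 ≤ (l : ℝ) + ∑ j ∈ Ico (α - 8 * (l : ℤ)) (β + 8 * (l : ℤ)),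
    regS wt v l Q h1 h2 t ω j := by linarith
  by_cases hG : regG wt l Q t ω
  · have e1 := hpb hG α β hαβ i j hij hj hi hjα
    rw [regS_good hG] at e2 ⊢
    exact e1.trans (mul_le_mul_of_nonneg_right hCC1 e2)
  · have c1 := abs_le.1 (hcolQ i (hij.trans hj))
    have c2 := abs_le.1 (hcolQ j hj)
    have hαQ : |α| ≤ 2 * (Q : ℤ) := by
      rw [abs_le]
      omega
    have hαm : α ∈ Ico (α - 8 * (l : ℤ)) (β + 8 * (l : ℤ)) := by
      rw [Finset.mem_Ico]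
      omega
    have e3 : (4 * (Q : ℝ) + 1) ≤ ∑ j ∈ Ico (α - 8 * (l : ℤ)) (β + 8 * (l : ℤ)),
        regS wt v l Q h1 h2 t ω j := by
      refine le_trans ?_ (Finset.single_le_sum (fun j _ => hnn j) hαm)
      rw [regS_bad hG]
      simp only
      rw [if_pos hαQ]
    have e4 : (β : ℝ) - α ≤ 4 * (Q : ℝ) := by
      have : β - α ≤ 4 * (Q : ℤ) := by omega
      exact_mod_cast this
    have e5 := mul_le_mul_of_nonneg_right hC e2
    rw [one_mul] at e5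
    linarith

private theorem rr_nonneg {a b : ℝ} (ha : 0 < a) (hl : 1 ≤ l) {ω : Ix N → Al}
    (hA : Bd a b (env wt ω)) (hgeo : IsGeo (env wt ω) (Gn wt v ω) (Gp wt v ω) 0 v)
    (hlenQ : Gn wt v ω ≤ Q) (hg : ∀ u : V, nrm u ≤ l → h1 * u.1 + h2 * u.2 ≤ gE N wt u) (j : ℤ) :
    0 ≤ regS wt v l Q h1 h2 t ω j := by
  by_cases hG : regG wt l Q t ω
  · rw [regS_good hG]
    exact rr_psum_nonneg ha hA hl hgeo hlenQ hG hg j
  · rw [regS_bad hG]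
    simp only
    split_ifs
    · positivity
    · exact le_refl _

private theorem rr_supp {ω : Ix N → Al} (hgeo : IsGeo (env wt ω) (Gn wt v ω) (Gp wt v ω) 0 v)
    (hlenQ : Gn wt v ω ≤ Q) (j : ℤ) (hjQ : 2 * (Q : ℤ) < |j|) :
    regS wt v l Q h1 h2 t ω j = 0 := by
  by_cases hG : regG wt l Q t ω
  · rw [regS_good hG]
    exact rr_psum_zero hgeo hlenQ j hjQ
  · rw [regS_bad hG]
    simp only
    rw [if_neg (not_le.2 hjQ)]

/-- total slack of a good configuration -/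
private theorem rr_tot_good {a b : ℝ} (ha : 0 < a) (hl : 1 ≤ l) {ω : Ix N → Al}
    (hA : Bd a b (env wt ω)) (hgeo : IsGeo (env wt ω) (Gn wt v ω) (Gp wt v ω) 0 v)
    (hlenQ : Gn wt v ω ≤ Q) (hg : ∀ u : V, nrm u ≤ l → h1 * u.1 + h2 * u.2 ≤ gE N wt u)
    (ht0 : 0 ≤ t) (hG : regG wt l Q t ω) {x : ℝ} (hx : (Gn wt v ω : ℝ) ≤ x) (T : Finset ℤ) :
    ∑ j ∈ T, regS wt v l Q h1 h2 t ω j ≤
      dst (env wt ω) 0 v - (h1 * v.1 + h2 * v.2) + (x / l * t + t) := by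
  rw [regS_good hG]
  have e1 := rr_psum_le ha hA hl hgeo hlenQ hG hg T
  have e2 : ((Gn wt v ω / l : ℕ) : ℝ) ≤ (Gn wt v ω : ℝ) / l := Nat.cast_div_le
  have e3 : (Gn wt v ω : ℝ) / l ≤ x / l := by gcongr
  have e4 : ((Gn wt v ω / l : ℕ) : ℝ) * t ≤ x / l * t :=
    mul_le_mul_of_nonneg_right (e2.trans e3) ht0
  have e5 : (((Gn wt v ω / l : ℕ) : ℝ) + 1) * t = ((Gn wt v ω / l : ℕ) : ℝ) * t + t := by ring
  linarith

private theorem rr_mean [Nonempty Al] {a b : ℝ} (ha : 0 < a) (hl : 1 ≤ l)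
    (hA : ∀ ω : Ix N → Al, Bd a b (env wt ω))
    (hgeo : ∀ ω : Ix N → Al, IsGeo (env wt ω) (Gn wt v ω) (Gp wt v ω) 0 v)
    (hlenQ : ∀ ω : Ix N → Al, Gn wt v ω ≤ Q)
    (hg : ∀ u : V, nrm u ≤ l → h1 * u.1 + h2 * u.2 ≤ gE N wt u)
    (ht0 : 0 ≤ t) {x y : ℝ} (hx0 : 0 ≤ x) (hx : ∀ ω : Ix N → Al, (Gn wt v ω : ℝ) ≤ x)
    (hy : h1 * v.1 + h2 * v.2 ≤ y) (T : Finset ℤ) :
    Ex (fun ω : Ix N → Al => ∑ j ∈ T, regS wt v l Q h1 h2 t ω j) ≤
      gE N wt v - (h1 * v.1 + h2 * v.2) + (x / l * t + t) +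
        Pr (fun ω : Ix N → Al => ¬ regG wt l Q t ω) * ((4 * (Q : ℝ) + 1) * (4 * (Q : ℝ) + 1) + y) := by
  classical
  have hl0 : (0 : ℝ) < l := by exact_mod_cast hl
  have hxt : 0 ≤ x / l * t := by positivity
  have hkey : ∀ ω : Ix N → Al, ∑ j ∈ T, regS wt v l Q h1 h2 t ω j ≤
      (dst (env wt ω) 0 v + (x / l * t + t - (h1 * v.1 + h2 * v.2))) +
        (if regG wt l Q t ω then (0 : ℝ) else 1) * ((4 * (Q : ℝ) + 1) * (4 * (Q : ℝ) + 1) + y) := by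
    intro ω
    by_cases hG : regG wt l Q t ω
    · have e1 := rr_tot_good ha hl (hA ω) (hgeo ω) (hlenQ ω) hg ht0 hG (hx ω) T
      rw [if_pos hG]
      linarith
    · rw [if_neg hG, regS_bad hG]
      have e3 := rr_bad_sum Q T
      have e4 := rr_dst_nonneg ha (hA ω) 0 v
      simp only
      linarith
  have hPr : Ex (fun ω : Ix N → Al => if regG wt l Q t ω then (0 : ℝ) else 1) =
      Pr (fun ω : Ix N → Al => ¬ regG wt l Q t ω) := by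
    unfold Pr
    congr 1
    funext ω
    by_cases h : regG wt l Q t ω <;> simp [h]
  refine (Ex_mono hkey).trans (le_of_eq ?_)
  rw [Ex_add, Ex_add, Ex_const, Ex_mul_right, hPr]
  unfold gE
  ring

end Fields

/-- the probability estimate -/
private theorem rr_prob {N : ℕ} [NeZero N] {Al : Type} [Fintype Al] [Nonempty Al] {a b : ℝ}
    (ha : 0 < a) (hab : a < b) {wt : Al → ℝ} (hw : ∀ x, a ≤ wt x ∧ wt x ≤ b) {β n : ℝ}
    (hβ : β = b / a) (hβ0 : 0 < β) (hn1 : 1 ≤ n) {k l Q : ℕ} (hk : 1 ≤ k) (hlk : (k : ℝ) ^ 10 = l)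
    (hQ2 : (Q : ℝ) ≤ (β + 1) * n) (hne : n ≤ Real.exp k) (hln : (l : ℝ) ≤ n) (hN : β * n < N)
    (hnum : 27 * (2 * β + 3) ^ 2 * ((4 * β + 5) ^ 2 + b) * (k : ℝ) ^ 20 * Real.exp (4 * k) *
      Real.exp (-(1 / ((b - a) * Real.sqrt β) * (k : ℝ) ^ 4)) ≤ 1) :
    Pr (fun ω : Ix N → Al => ¬ regG wt l Q ((k : ℝ) ^ 9) ω) *
      ((4 * (Q : ℝ) + 1) * (4 * (Q : ℝ) + 1) + b * n) ≤ 1 := by
  have hb : 0 < b := ha.trans hab
  have hba : 0 < b - a := by linarith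
  have hkR : (1 : ℝ) ≤ k := by exact_mod_cast hk
  have hk0 : (0 : ℝ) < k := by linarith
  have hsβ : 0 < Real.sqrt β := Real.sqrt_pos.2 hβ0
  have hl1 : (1 : ℝ) ≤ l := by rw [← hlk]; exact one_le_pow₀ hkR
  have hl : 1 ≤ l := by exact_mod_cast hl1
  have hβN : b / a * (l : ℝ) < N := by
    rw [← hβ]
    exact lt_of_le_of_lt (mul_le_mul_of_nonneg_left hln hβ0.le) hN
  have e1 := rr_bad (N := N) (Al := Al) ha hab hw (l := l) (Q := Q) hl hβN ((k : ℝ) ^ 9)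
  have hsq' : Real.sqrt (b / a * l) = Real.sqrt β * (k : ℝ) ^ 5 := by
    rw [← hβ, ← hlk, Real.sqrt_mul hβ0.le]
    congr 1
    rw [show (k : ℝ) ^ 10 = ((k : ℝ) ^ 5) ^ 2 by ring]
    exact Real.sqrt_sq (by positivity)
  have hexp : (k : ℝ) ^ 9 / ((b - a) * Real.sqrt (b / a * l)) =
      1 / ((b - a) * Real.sqrt β) * (k : ℝ) ^ 4 := by
    rw [hsq']
    field_simp
  rw [hexp] at e1
  have h4Q : 4 * (Q : ℝ) + 1 ≤ (4 * β + 5) * n := by linarith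
  have h4Q0 : 0 ≤ 4 * (Q : ℝ) + 1 := by positivity
  have e2 : (2 * (Q : ℝ) + 1) ^ 2 ≤ ((2 * β + 3) * n) ^ 2 := by
    have : 2 * (Q : ℝ) + 1 ≤ (2 * β + 3) * n := by linarith
    gcongr
  have e3 : (2 * (l : ℝ) + 1) ^ 2 ≤ (3 * (k : ℝ) ^ 10) ^ 2 := by
    have : 2 * (l : ℝ) + 1 ≤ 3 * (k : ℝ) ^ 10 := by rw [hlk]; linarith
    gcongr
  have hnn : n ≤ n ^ 2 := by nlinarith
  have e4 : (4 * (Q : ℝ) + 1) * (4 * (Q : ℝ) + 1) + b * n ≤ ((4 * β + 5) ^ 2 + b) * n ^ 2 := by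
    have f1 : (4 * (Q : ℝ) + 1) * (4 * (Q : ℝ) + 1) ≤ ((4 * β + 5) * n) * ((4 * β + 5) * n) := by
      gcongr
    have f2 : b * n ≤ b * n ^ 2 := mul_le_mul_of_nonneg_left hnn hb.le
    calc (4 * (Q : ℝ) + 1) * (4 * (Q : ℝ) + 1) + b * n
        ≤ ((4 * β + 5) * n) * ((4 * β + 5) * n) + b * n ^ 2 := add_le_add f1 f2
      _ = _ := by ring
  have e5 : n ^ 4 ≤ Real.exp (4 * k) := by
    have : Real.exp (4 * (k : ℝ)) = Real.exp k ^ 4 := by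
      rw [← Real.exp_nat_mul]
      norm_num
    rw [this]
    gcongr
  obtain ⟨X, hX⟩ : ∃ X : ℝ, X = Real.exp (-(1 / ((b - a) * Real.sqrt β) * (k : ℝ) ^ 4)) :=
    ⟨_, rfl⟩
  have hX0 : 0 < X := by rw [hX]; exact Real.exp_pos _
  rw [← hX] at e1 hnum
  have hD0 : 0 ≤ (4 * (Q : ℝ) + 1) * (4 * (Q : ℝ) + 1) + b * n := by positivity
  calc Pr (fun ω : Ix N → Al => ¬ regG wt l Q ((k : ℝ) ^ 9) ω) *
        ((4 * (Q : ℝ) + 1) * (4 * (Q : ℝ) + 1) + b * n)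
      ≤ ((2 * (Q : ℝ) + 1) ^ 2 * (2 * (l : ℝ) + 1) ^ 2 * (3 * X)) *
        ((4 * (Q : ℝ) + 1) * (4 * (Q : ℝ) + 1) + b * n) :=
        mul_le_mul_of_nonneg_right e1 hD0
    _ ≤ (((2 * β + 3) * n) ^ 2 * (3 * (k : ℝ) ^ 10) ^ 2 * (3 * X)) *
        (((4 * β + 5) ^ 2 + b) * n ^ 2) := by gcongr
    _ = 27 * (2 * β + 3) ^ 2 * ((4 * β + 5) ^ 2 + b) * (k : ℝ) ^ 20 * n ^ 4 * X := by ring
    _ ≤ 27 * (2 * β + 3) ^ 2 * ((4 * β + 5) ^ 2 + b) * (k : ℝ) ^ 20 * Real.exp (4 * k) * X := by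
        gcongr
    _ ≤ 1 := hnum

/-- `h1` is not too small -/
private theorem rr_h1 {a b β n k g0 h1 hv : ℝ} (ha : 0 < a) (hβ : b = β * a) (hk : 0 < k)
    (h18 : 18 * β ≤ k) (hp : k ^ 30 * k ≤ n) (hg : a * n ≤ g0) (hval : g0 - 9 * b * k ^ 30 ≤ hv)
    (hhv : hv ≤ h1 * n) (hn : 0 < n) : a / 2 ≤ h1 := by
  have e1 : a * n - 9 * b * k ^ 30 ≤ h1 * n := by linarith
  have e2 : 9 * b * k ^ 30 ≤ a / 2 * n := by
    rw [hβ]
    have h30 : 0 < k ^ 30 := by positivity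
    calc 9 * (β * a) * k ^ 30 = a / 2 * (k ^ 30 * (18 * β)) := by ring
      _ ≤ a / 2 * (k ^ 30 * k) := by gcongr
      _ ≤ a / 2 * n := by gcongr
  have e3 : a / 2 * n ≤ h1 * n := by linarith
  exact le_of_mul_le_mul_right e3 hn

theorem reg {a b : ℝ} (ha : 0 < a) (hab : a < b) : ∃ (C : ℝ) (k0 : ℕ), 1 ≤ C ∧ 1 ≤ k0 ∧
    ∀ k : ℕ, k0 ≤ k → ∀ (N : ℕ) [NeZero N] (Al : Type) [Fintype Al] [Nonempty Al] (wt : Al → ℝ),
    (∀ x, a ≤ wt x ∧ wt x ≤ b) → ∀ v : V, 0 ≤ v.2 → v.2 ≤ v.1 → (k : ℝ) ^ 40 ≤ nrm v →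
    (nrm v : ℝ) ≤ Real.exp k → 8 * (b / a) * nrm v < N →
    ∃ S : (Ix N → Al) → ℤ → ℝ, Reg wt v k C S := by
  classical
  obtain ⟨C1, hC1, hpie⟩ := pieces_bounds ha hab
  have hb : 0 < b := ha.trans hab
  obtain ⟨β, hβ⟩ : ∃ β : ℝ, β = b / a := ⟨_, rfl⟩
  have hβ1 : 1 < β := by rw [hβ, one_lt_div ha]; exact hab
  have hβ0 : 0 < β := by linarith
  have hβa : b = β * a := by rw [hβ]; field_simp
  obtain ⟨C, hC⟩ : ∃ C : ℝ, C = 1 + C1 + (4 * β + 5) ^ 2 + 9 * b + 3 * β + 2 := ⟨_, rfl⟩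
  have hsq : 0 < (4 * β + 5) ^ 2 := by positivity
  have hba : 0 < b - a := by linarith
  have hsβ : 0 < Real.sqrt β := Real.sqrt_pos.2 hβ0
  obtain ⟨k1, hk1⟩ := rr_num (1 / ((b - a) * Real.sqrt β)) (27 * (2 * β + 3) ^ 2 * ((4 * β + 5) ^ 2 + b))
    (by positivity) (by positivity)
  obtain ⟨k2, hk2⟩ := exists_nat_ge (18 * β)
  refine ⟨C, max 1 (max k1 k2), ?_, le_max_left _ _, ?_⟩
  · rw [hC]; linarith
  intro k hk N _ Al _ _ wt hw v hv2 hv1 hkn hne hCN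
  have hk1' : 1 ≤ k := le_trans (le_max_left _ _) hk
  have hkk1 : k1 ≤ k := le_trans ((le_max_left _ _).trans (le_max_right _ _)) hk
  have hkk2 : k2 ≤ k := le_trans ((le_max_right _ _).trans (le_max_right _ _)) hk
  have hkR : (1 : ℝ) ≤ k := by exact_mod_cast hk1'
  have hk0 : (0 : ℝ) < k := by linarith
  have h18 : 18 * β ≤ k := hk2.trans (by exact_mod_cast hkk2)
  obtain ⟨n, hn⟩ : ∃ n : ℝ, n = (nrm v : ℝ) := ⟨_, rfl⟩
  rw [← hn] at hkn hne hCN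
  obtain ⟨l, hlk⟩ : ∃ l : ℕ, l = k ^ 10 := ⟨_, rfl⟩
  have hlR : (k : ℝ) ^ 10 = (l : ℝ) := by rw [hlk]; push_cast; rfl
  have hlZ : (k : ℤ) ^ 10 = (l : ℤ) := by rw [hlk]; push_cast; rfl
  have hl : 1 ≤ l := by rw [hlk]; exact Nat.one_le_pow _ _ hk1'
  have hlR1 : (1 : ℝ) ≤ l := by exact_mod_cast hl
  have hn1 : 1 ≤ n := (one_le_pow₀ hkR).trans hkn
  have hn0 : 0 < n := by linarith
  obtain ⟨Q, hQd⟩ : ∃ Q : ℕ, Q = ⌈β * n⌉₊ := ⟨_, rfl⟩
  have hQ1 : β * n ≤ Q := by rw [hQd]; exact Nat.le_ceil _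
  have hQ2 : (Q : ℝ) ≤ (β + 1) * n := by
    have : (Q : ℝ) < β * n + 1 := by rw [hQd]; exact Nat.ceil_lt_add_one (by positivity)
    linarith
  obtain ⟨t, ht⟩ : ∃ t : ℝ, t = (k : ℝ) ^ 9 := ⟨_, rfl⟩
  have ht0 : 0 ≤ t := by rw [ht]; positivity
  -- powers
  have hp1 : (k : ℝ) ^ 30 * k ≤ n := by
    calc (k : ℝ) ^ 30 * k = (k : ℝ) ^ 31 := by ring
      _ ≤ (k : ℝ) ^ 40 := pow_le_pow_right₀ hkR (by norm_num)
      _ ≤ n := hkn
  have hp2 : t * k ≤ n := by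
    calc t * k = (k : ℝ) ^ 10 := by rw [ht]; ring
      _ ≤ (k : ℝ) ^ 40 := pow_le_pow_right₀ hkR (by norm_num)
      _ ≤ n := hkn
  have hp3 : (l : ℝ) ≤ n := by
    rw [← hlR]
    exact (pow_le_pow_right₀ hkR (by norm_num)).trans hkn
  have hp4 : t = l / k := by
    rw [ht, ← hlR]
    field_simp
  have hp5 : (l : ℝ) ^ 3 = (k : ℝ) ^ 30 := by rw [← hlR]; ring
  -- environments
  have hbd : ∀ ω : Ix N → Al, Bd a b (env wt ω) := fun ω e => hw _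
  have hgeo : ∀ ω : Ix N → Al, IsGeo (env wt ω) (Gn wt v ω) (Gp wt v ω) 0 v :=
    fun ω => rr_geo ha (hbd ω) 0 v
  have hlen : ∀ ω : Ix N → Al, (Gn wt v ω : ℝ) ≤ β * n := by
    intro ω
    rw [hβ, hn]
    exact rr_len ha (hbd ω) v
  have hlenQ : ∀ ω : Ix N → Al, Gn wt v ω ≤ Q := by
    intro ω
    exact_mod_cast (hlen ω).trans hQ1
  have hd1 : ∀ ω : Ix N → Al, dst (env wt ω) 0 v ≤ b * n := by
    intro ω
    have := rr_dst_le ha (hbd ω) 0 v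
    rwa [sub_zero, ← hn] at this
  -- the functional
  obtain ⟨h1, h2, h20, h21, h1b, hdom, hval⟩ := exists_functional (g := gE N wt) hb.le
    (fun u u' => gE_add ha hw u u') (fun u => gE_nonneg ha hw u) (fun u => gE_le ha hw u)
    (fun u => gE_neg1 wt u) (fun u => gE_neg2 wt u) (fun u => gE_swap wt u) hl v hv2 hv1
  have hslack := slack_ge (g := gE N wt) h20 h21
    (fun u => gE_neg1 wt u) (fun u => gE_neg2 wt u) (fun u => gE_swap wt u) hdom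
  have hv2R : (0 : ℝ) ≤ v.2 := by exact_mod_cast hv2
  have hv1R : (0 : ℝ) ≤ v.1 := by exact_mod_cast hv2.trans hv1
  have hnv : n = (v.1 : ℝ) + v.2 := by
    have : (nrm v : ℤ) = v.1 + v.2 := by
      unfold nrm
      omega
    rw [hn]
    exact_mod_cast this
  have h10 : 0 ≤ h1 := h20.trans h21
  have hhv0 : 0 ≤ h1 * (v.1 : ℝ) + h2 * v.2 := by positivity
  have hhv1 : h1 * (v.1 : ℝ) + h2 * v.2 ≤ h1 * n := by
    rw [hnv, mul_add]
    have := mul_le_mul_of_nonneg_right h21 hv2R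
    linarith
  have hhvb : h1 * (v.1 : ℝ) + h2 * v.2 ≤ b * n :=
    hhv1.trans (mul_le_mul_of_nonneg_right h1b hn0.le)
  have hgv : a * n ≤ gE N wt v := by rw [hn]; exact gE_ge ha hw v
  rw [hp5] at hval
  have h1a : a / 2 ≤ h1 := rr_h1 ha hβa hk0 h18 hp1 hgv hval hhv1 hn0
  -- constants
  have hCC1 : C1 ≤ C := by rw [hC]; linarith
  have hC1' : 1 ≤ C := by rw [hC]; linarith
  have hC0 : 0 < C := by linarith
  have hCt : b + β + 1 ≤ C := by rw [hC]; linarith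
  have hCs : (4 * β + 5) ^ 2 ≤ C := by rw [hC]; linarith
  have hCm : 9 * b + β + 2 ≤ C := by rw [hC]; linarith
  have hCβ : 2 * (β + 1) ≤ C := by rw [hC]; linarith
  have hQC : 2 * (Q : ℝ) ≤ C * n := by
    have := mul_le_mul_of_nonneg_right hCβ hn0.le
    linarith
  have h4Q : 4 * (Q : ℝ) + 1 ≤ (4 * β + 5) * n := by linarith
  have h4Q0 : 0 ≤ 4 * (Q : ℝ) + 1 := by positivity
  have h4Qs : (4 * (Q : ℝ) + 1) * (4 * (Q : ℝ) + 1) ≤ C * n ^ 2 := by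
    calc (4 * (Q : ℝ) + 1) * (4 * (Q : ℝ) + 1) ≤ ((4 * β + 5) * n) * ((4 * β + 5) * n) := by
          gcongr
      _ = (4 * β + 5) ^ 2 * n ^ 2 := by ring
      _ ≤ C * n ^ 2 := by gcongr
  have hβN : β * n < N := by
    rw [← hβ] at hCN
    have h5 : 0 < β * n := by positivity
    have h6 : 8 * β * n = 8 * (β * n) := by ring
    rw [h6] at hCN
    linarith
  have hxt : β * n / l * t = β * (n / k) := by
    rw [hp4]
    field_simp
  have hkn' : n / k ≤ n := div_le_self hn0.le hkR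
  have htn : t ≤ n / k := by rw [le_div_iff₀ hk0]; exact hp2
  have hcolQ : ∀ ω : Ix N → Al, ∀ i ≤ Gn wt v ω, |col (Gp wt v ω i)| ≤ 2 * (Q : ℤ) :=
    fun ω i hi => rr_colQ (hgeo ω) (hlenQ ω) i hi
  have hcv : 0 ≤ col v := by
    unfold col
    omega
  have hpb := fun (ω : Ix N → Al) (hG : regG wt l Q t ω) => hpie (env wt ω) (hbd ω) l (Gn wt v ω) hl
    (Gp wt v ω) v (hgeo ω) hcv (gE N wt) h1 h2 t (Q : ℤ) ht0 h1a h1b h20 h21
    (rr_inBox (hgeo ω) (hlenQ ω)) hG hdom hslack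
  have hnn : ∀ (ω : Ix N → Al) (j : ℤ), 0 ≤ regS wt v l Q h1 h2 t ω j :=
    fun ω j => rr_nonneg ha hl (hbd ω) (hgeo ω) (hlenQ ω) hdom j
  refine ⟨regS wt v l Q h1 h2 t, ?_⟩
  constructor
  · exact hnn
  · intro ω j hj
    rw [← hn] at hj
    refine rr_supp (hgeo ω) (hlenQ ω) j ?_
    have e1 : 2 * (Q : ℝ) < |(j : ℝ)| := lt_of_le_of_lt hQC hj
    exact_mod_cast e1
  · intro ω T
    rw [← hn]
    by_cases hG : regG wt l Q t ω
    · have e1 := rr_tot_good ha hl (hbd ω) (hgeo ω) (hlenQ ω) hdom ht0 hG (hlen ω) T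
      rw [hxt] at e1
      have e2 := hd1 ω
      have e3 : (b + β + 1) * n ≤ C * n := mul_le_mul_of_nonneg_right hCt hn0.le
      have e4 : C * n ≤ C * n ^ 2 := by
        refine mul_le_mul_of_nonneg_left ?_ hC0.le
        exact le_self_pow₀ hn1 (by norm_num)
      have e5 : β * (n / k) ≤ β * n := mul_le_mul_of_nonneg_left hkn' hβ0.le
      linarith
    · rw [regS_bad hG]
      exact (rr_bad_sum Q T).trans h4Qs
  · intro T
    rw [← hn]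
    have e1 := rr_mean (wt := wt) (v := v) (l := l) (Q := Q) (t := t) ha hl hbd hgeo hlenQ hdom ht0
      (x := β * n) (y := b * n) (by positivity) hlen hhvb T
    have e2 := rr_prob (N := N) (Al := Al) ha hab hw hβ hβ0 hn1 hk1' hlR hQ2 hne hp3 hβN
      (hk1 k hkk1)
    rw [← ht] at e2
    rw [hxt] at e1
    have f1 : (1 : ℝ) ≤ n / k := by
      rw [le_div_iff₀ hk0, one_mul]
      exact (le_self_pow₀ hkR (by norm_num)).trans hkn
    have f3 : (k : ℝ) ^ 30 ≤ n / k := by rw [le_div_iff₀ hk0]; exact hp1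
    have f4 : 9 * b * (k : ℝ) ^ 30 ≤ 9 * b * (n / k) :=
      mul_le_mul_of_nonneg_left f3 (by positivity)
    have f6 : C * n / k = C * (n / k) := by ring
    rw [f6]
    have f7 : (9 * b + β + 2) * (n / k) ≤ C * (n / k) :=
      mul_le_mul_of_nonneg_right hCm (by linarith)
    linarith
  · intro ω α β' hαβ
    rw [hlR, hlZ]
    exact rr_visit (hnn ω) hCC1 hC1' (hlenQ ω) (hcolQ ω) (fun hG => (hpb ω hG).1) α β' hαβ
  · intro ω α β' hαβ hout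
    rw [hlZ] at hout ⊢
    exact rr_visit_out (hnn ω) hCC1 hC1' (hlenQ ω) (hcolQ ω) (fun hG => (hpb ω hG).2.1) α β' hαβ hout
  · intro ω α β' hαβ i j hij hj hi hjα
    rw [hlR, hlZ]
    exact rr_back hl (hnn ω) hCC1 hC1' (hcolQ ω) (fun hG => (hpb ω hG).2.2) α β' hαβ i j hij hj hi hjα

end Pool.Agent.FPZ
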