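import Pool.Agent.FPZ.W1Defs
import Pool.Agent.FPZ.R8Sym
import Pool.Agent.FPZ.Q4Geo

/-!
# FPZ/SHC: the cost of the rotation of a strip

`shc_core`: a path `p` of the environment `A` from `0` to `v` gives a path of the environment `A'`, which
uses the edges whose first end point has its column in `[α, β)` shifted by `s`, and the other edges
unchanged; the transitions happen at vertices with column in `[α, α+2)` or `[β, β+2)` and cost at most
`3 b` each.  `shc_up`, `shc_dn`: the rotated configuration `rotC α β w`.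
-/

set_option autoImplicit false

noncomputable section

namespace Pool.Agent.FPZ

open Finset Pool.FPP

theorem shc_edg (x y c : V) : edg (x + c) (y + c) = shE c (edg x y) := by
  unfold edg shE
  ext
  · simp only [Prod.fst_add]
    omega
  · simp only [Prod.snd_add]
    omega
  · simp

theorem shc_adj {x y : V} (h : adj x y) (c : V) : adj (x + c) (y + c) := by
  rw [sym_adj_iff] at h ⊢
  simp only [Prod.fst_add, Prod.snd_add]
  omega

theorem shc_step {A : E → ℝ} (hA : ∀ e, 0 ≤ A e) {x y : V} (h : adj x y) :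
    dst A x y ≤ A (edg x y) := by
  refine (csInf_le (sym_bdd hA x y)
    ⟨1, fun k => if k = 0 then x else y, ⟨by simp, by simp, ?_⟩, rfl⟩).trans ?_
  · intro k hk
    have h0 : k = 0 := by omega
    subst h0
    simpa using h
  · simp [cost]

theorem shc_col {x y : V} (h : adj x y) :
    col (edg x y).1 ≤ col x ∧ col x ≤ col (edg x y).1 + 2 ∧
      col (edg x y).1 ≤ col y ∧ col y ≤ col (edg x y).1 + 2 := by
  rw [sym_adj_iff] at h
  simp only [edg, col]
  omega

theorem shc_nrm_neg (u : V) : nrm (-u) = nrm u := by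
  simp [nrm]

theorem shc_core {A A' : E → ℝ} {a b : ℝ} (ha : 0 < a) (hA' : ∀ e, a ≤ A' e ∧ A' e ≤ b)
    {n : ℕ} {p : ℕ → V} {v : V} (hp : IsPath n p 0 v) {s : V} (hs : nrm s = 3) {α β : ℤ}
    (h1 : 0 < α) (h2 : α ≤ β) (h3 : β < col v)
    (hin : ∀ k < n, α ≤ col (edg (p k) (p (k + 1))).1 → col (edg (p k) (p (k + 1))).1 < β →
      A' (shE s (edg (p k) (p (k + 1)))) = A (edg (p k) (p (k + 1))))
    (hout : ∀ k < n, ¬ (α ≤ col (edg (p k) (p (k + 1))).1 ∧ col (edg (p k) (p (k + 1))).1 < β) →
      A' (edg (p k) (p (k + 1))) = A (edg (p k) (p (k + 1)))) :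
    dst A' 0 v ≤ cost A 0 n p +
      3 * b * ((vis α (α + 2) n p : ℝ) + vis β (β + 2) n p) := by
  classical
  have hA0 : ∀ e, 0 ≤ A' e := fun e => ha.le.trans (hA' e).1
  have hb : 0 ≤ b := by
    have := hA' ((0, 0), false)
    linarith [this.1, this.2]
  obtain ⟨hp0, hpn, hpa⟩ := hp
  obtain ⟨ty, hty⟩ : ∃ ty : ℕ → Prop, ∀ k, ty k ↔ (k < n ∧ α ≤ col (edg (p k) (p (k + 1))).1 ∧
      col (edg (p k) (p (k + 1))).1 < β) := ⟨_, fun _ => Iff.rfl⟩
  obtain ⟨f, hf0, hfs⟩ : ∃ f : ℕ → V, f 0 = 0 ∧ ∀ k, f (k + 1) = if ty k then s else 0 :=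
    ⟨fun k => Nat.rec 0 (fun k _ => if ty k then s else 0) k, rfl, fun _ => rfl⟩
  have hf01 : ∀ k, f k = 0 ∨ f k = s := by
    intro k
    cases k with
    | zero => exact Or.inl hf0
    | succ k =>
      rw [hfs]
      split_ifs
      · exact Or.inr rfl
      · exact Or.inl rfl
  have hjump : ∀ (x : V) (i : ℕ), dst A' (x + f i) (x + f (i + 1)) ≤
      3 * b * (if f i ≠ f (i + 1) then 1 else 0 : ℕ) := by
    intro x i
    refine (sym_dst_le ha hA' _ _).trans ?_
    have e1 : x + f (i + 1) - (x + f i) = f (i + 1) - f i := by abel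
    rw [e1]
    by_cases hff : f i ≠ f (i + 1)
    · rw [if_pos hff]
      have h4 : nrm (f (i + 1) - f i) = 3 := by
        rcases hf01 i with h5 | h5 <;> rcases hf01 (i + 1) with h6 | h6
        · exact absurd (h5.trans h6.symm) hff
        · rw [h5, h6, sub_zero, hs]
        · rw [h5, h6, zero_sub, shc_nrm_neg, hs]
        · exact absurd (h5.trans h6.symm) hff
      rw [h4]
      push_cast
      linarith
    · rw [if_neg hff]
      push Not at hff
      rw [hff, sub_self]
      simp [nrm]
  have hinv : ∀ k, k ≤ n → dst A' 0 (p k + f k) ≤ cost A 0 k p +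
      3 * b * (((range k).filter (fun i => f i ≠ f (i + 1))).card : ℝ) := by
    intro k
    induction k with
    | zero =>
      intro _
      rw [hp0, hf0]
      refine (sym_dst_le ha hA' _ _).trans ?_
      simp [nrm, cost]
    | succ k ih =>
      intro hk
      have h4 := ih (by omega)
      have h5 := hjump (p k) k
      have h6 : dst A' (p k + f (k + 1)) (p (k + 1) + f (k + 1)) ≤
          A (edg (p k) (p (k + 1))) := by
        refine (shc_step hA0 (shc_adj (hpa k hk) _)).trans (le_of_eq ?_)
        rw [shc_edg, hfs]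
        by_cases ht : ty k
        · rw [if_pos ht]
          have h7 := (hty k).1 ht
          exact hin k hk h7.2.1 h7.2.2
        · rw [if_neg ht]
          have h8 : shE 0 (edg (p k) (p (k + 1))) = edg (p k) (p (k + 1)) := by
            unfold shE
            rw [add_zero]
          rw [h8]
          exact hout k hk (fun h9 => ht ((hty k).2 ⟨hk, h9⟩))
      have h7 := sym_dst_triangle hA0 0 (p k + f k) (p (k + 1) + f (k + 1))
      have h8 := sym_dst_triangle hA0 (p k + f k) (p k + f (k + 1)) (p (k + 1) + f (k + 1))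
      have h9 : cost A 0 (k + 1) p = cost A 0 k p + A (edg (p k) (p (k + 1))) := by
        unfold cost
        rw [Finset.sum_Ico_succ_top (Nat.zero_le k)]
      have h10 : (((range (k + 1)).filter (fun i => f i ≠ f (i + 1))).card : ℝ) =
          (((range k).filter (fun i => f i ≠ f (i + 1))).card : ℝ) +
            ((if f k ≠ f (k + 1) then 1 else 0 : ℕ) : ℝ) := by
        rw [Finset.range_add_one, Finset.filter_insert]
        split_ifs with h11
        · rw [Finset.card_insert_of_notMem (by simp)]
          push_cast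
          ring
        · simp
      rw [h9, h10]
      nlinarith [h4, h5, h6, h7, h8]
  have hend := hinv n le_rfl
  have hj := hjump (p n) n
  have hfn : f (n + 1) = 0 := by
    rw [hfs, if_neg]
    intro h
    have := ((hty n).1 h).1
    omega
  have htri := sym_dst_triangle hA0 0 (p n + f n) (p n + f (n + 1))
  have h10 : (((range (n + 1)).filter (fun i => f i ≠ f (i + 1))).card : ℝ) =
      (((range n).filter (fun i => f i ≠ f (i + 1))).card : ℝ) +
        ((if f n ≠ f (n + 1) then 1 else 0 : ℕ) : ℝ) := by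
    rw [Finset.range_add_one, Finset.filter_insert]
    split_ifs with h11
    · rw [Finset.card_insert_of_notMem (by simp)]
      push_cast
      ring
    · simp
  have hsub : (range (n + 1)).filter (fun i => f i ≠ f (i + 1)) ⊆
      ((range (n + 1)).filter (fun i => α ≤ col (p i) ∧ col (p i) < α + 2)) ∪
        ((range (n + 1)).filter (fun i => β ≤ col (p i) ∧ col (p i) < β + 2)) := by
    intro i hi
    obtain ⟨hi1, hi2⟩ := mem_filter.1 hi
    have hin1 : i ≤ n := by
      have := mem_range.1 hi1
      omega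
    rw [mem_union, mem_filter, mem_filter]
    have key : (α ≤ col (p i) ∧ col (p i) < α + 2) ∨ (β ≤ col (p i) ∧ col (p i) < β + 2) := by
      -- column bounds for the two edges at `p i`
      have hcn : i < n → col (edg (p i) (p (i + 1))).1 ≤ col (p i) ∧
          col (p i) ≤ col (edg (p i) (p (i + 1))).1 + 2 := by
        intro h
        have := shc_col (hpa i h)
        exact ⟨this.1, this.2.1⟩
      cases i with
      | zero =>
        exfalso
        rw [hf0, hfs] at hi2
        by_cases ht : ty 0
        · have h4 := (hty 0).1 ht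
          have h5 := hcn h4.1
          rw [hp0] at h5
          have h6 : col (0 : V) = 0 := rfl
          rw [h6] at h5
          have h7 := h4.2.1
          rw [hp0] at h7
          omega
        · rw [if_neg ht] at hi2
          exact hi2 rfl
      | succ j =>
        have hj1 : j < n := by omega
        have h5 := shc_col (hpa j hj1)
        rw [hfs, hfs] at hi2
        by_cases ht : ty j
        · have h4 := (hty j).1 ht
          by_cases ht' : ty (j + 1)
          · rw [if_pos ht, if_pos ht'] at hi2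
            exact absurd rfl hi2
          · rw [hty] at ht'
            by_cases hlt : j + 1 < n
            · have h6 := hcn hlt
              have h7 : ¬ (α ≤ col (edg (p (j + 1)) (p (j + 1 + 1))).1 ∧
                  col (edg (p (j + 1)) (p (j + 1 + 1))).1 < β) := fun h => ht' ⟨hlt, h⟩
              omega
            · have h8 : j + 1 = n := by omega
              rw [h8, hpn]
              rw [h8, hpn] at h5
              have h9 := h4.2.2
              rw [h8, hpn] at h9
              omega
        · by_cases ht' : ty (j + 1)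
          · have h4 := (hty (j + 1)).1 ht'
            have h6 := hcn h4.1
            have h7 : ¬ (α ≤ col (edg (p j) (p (j + 1))).1 ∧
                  col (edg (p j) (p (j + 1))).1 < β) := fun h => ht ((hty j).2 ⟨hj1, h⟩)
            omega
          · rw [if_neg ht, if_neg ht'] at hi2
            exact absurd rfl hi2
    rcases key with h | h
    · exact Or.inl ⟨hi1, h⟩
    · exact Or.inr ⟨hi1, h⟩
  have hcard : (((range (n + 1)).filter (fun i => f i ≠ f (i + 1))).card : ℝ) ≤
      (vis α (α + 2) n p : ℝ) + vis β (β + 2) n p := by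
    have h4 := (Finset.card_le_card hsub).trans (Finset.card_union_le _ _)
    unfold vis
    exact_mod_cast h4
  have h5 : 3 * b * (((range (n + 1)).filter (fun i => f i ≠ f (i + 1))).card : ℝ) ≤
      3 * b * ((vis α (α + 2) n p : ℝ) + vis β (β + 2) n p) :=
    mul_le_mul_of_nonneg_left hcard (by linarith)
  rw [hfn, hpn, add_zero] at htri
  rw [hfn, hpn, add_zero] at hj
  rw [hpn] at hend
  rw [hfn] at h10
  rw [h10] at h5
  nlinarith [h5, hend, hj, htri]

theorem shc_colI {N : ℕ} (e : E) : colI (red N e) = ((col e.1 : ℤ) : ZMod N) := by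
  unfold colI red col
  push_cast
  rfl

theorem shc_mem {N : ℕ} [NeZero N] {α β : ℤ} {e : E} (h1 : α ≤ col e.1) (h2 : col e.1 < β) :
    red N e ∈ blkI N α β := by
  simp only [blkI, mem_filter, mem_univ, true_and]
  exact ⟨col e.1, h1, h2, shc_colI e⟩

theorem shc_box_col {Q : ℤ} {z : V} (h : inBox Q z) : -(3 * Q) ≤ col z ∧ col z ≤ 3 * Q := by
  obtain ⟨h1, h2⟩ := h
  rw [abs_le] at h1 h2
  unfold col
  omega

theorem shc_notMem {N : ℕ} [NeZero N] {Q α β : ℤ} {v : V} (hQ : 100 * Q < (N : ℤ))
    (h1 : 0 < α) (h3 : β < col v) (hv : inBox Q v) {e : E} (he : inBox Q e.1)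
    (h : ¬ (α ≤ col e.1 ∧ col e.1 < β)) : red N e ∉ blkI N α β := by
  simp only [blkI, mem_filter, mem_univ, true_and]
  rintro ⟨k, h4, h5, h6⟩
  rw [shc_colI, ZMod.intCast_eq_intCast_iff_dvd_sub] at h6
  have h7 := shc_box_col hv
  have h8 := shc_box_col he
  have h9 : k - col e.1 = 0 := by
    refine Int.eq_zero_of_abs_lt_dvd h6 ?_
    rw [abs_lt]
    constructor <;> omega
  apply h
  omega

section

variable {N : ℕ} [NeZero N] {Al : Type} [Fintype Al] [Nonempty Al]

omit [Fintype Al] [Nonempty Al] in
theorem shc_rot_in {α β : ℤ} {w : Ix N → Al} {i : Ix N} (h : i ∈ blkI N α β) :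
    rotC α β w i = shiftC (su 1) w i := by
  unfold rotC mix
  rw [if_pos h]

omit [Fintype Al] [Nonempty Al] in
theorem shc_rot_out {α β : ℤ} {w : Ix N → Al} {i : Ix N} (h : i ∉ blkI N α β) :
    rotC α β w i = w i := by
  unfold rotC mix
  rw [if_neg h]

omit [Fintype Al] in
/-- the cost of the rotation, in terms of the geodesic of `w` -/
theorem shc_up {wt : Al → ℝ} {a b : ℝ} (ha : 0 < a) (hwt : ∀ l, a ≤ wt l ∧ wt l ≤ b) {v : V}
    {Q : ℤ} (hQ : 100 * Q < (N : ℤ))
    (hbox : ∀ ω : Ix N → Al, ∀ i ≤ Gn wt v ω, inBox Q (Gp wt v ω i)) {α β : ℤ} (h1 : 0 < α)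
    (h2 : α ≤ β) (h3 : β < col v) (w : Ix N → Al) :
    Fv wt v (rotC α β w) ≤ Fv wt v w +
      3 * b * ((vis α (α + 2) (Gn wt v w) (Gp wt v w) : ℝ) +
        vis β (β + 2) (Gn wt v w) (Gp wt v w)) + 6 * b := by
  have hBd : Bd a b (env wt w) := fun e => hwt _
  have hgeo : IsGeo (env wt w) (Gn wt v w) (Gp wt v w) 0 v := q4_isGeo ha hBd 0 v
  have hb : 0 ≤ b := by
    have := hwt (Classical.arbitrary Al)
    linarith [this.1, this.2]
  have hv : inBox Q v := by
    have h4 := hbox w (Gn wt v w) le_rfl
    rwa [hgeo.1.2.1] at h4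
  have h5 := shc_core (A := env wt w) (A' := env wt (rotC α β w)) ha (fun e => hwt _) hgeo.1
    (s := -su 1) (by simp [nrm, su]) h1 h2 h3 ?_ ?_
  · rw [hgeo.2] at h5
    unfold Fv
    linarith
  · intro k hk h6 h7
    unfold env
    congr 1
    have hmem : red N (shE (-su 1) (edg (Gp wt v w k) (Gp wt v w (k + 1)))) ∈ blkI N α β := by
      have h8 : col (shE (-su 1) (edg (Gp wt v w k) (Gp wt v w (k + 1)))).1 =
          col (edg (Gp wt v w k) (Gp wt v w (k + 1))).1 := by
        simp only [shE, col, su, Prod.fst_add, Prod.snd_add, Prod.fst_neg, Prod.snd_neg]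
        ring
      exact shc_mem (by rw [h8]; exact h6) (by rw [h8]; exact h7)
    rw [shc_rot_in hmem]
    unfold shiftC red shE su
    congr 1
    ext <;> simp
  · intro k hk h6
    unfold env
    congr 1
    have hadj := hgeo.1.2.2 k hk
    have hin : inBox Q (edg (Gp wt v w k) (Gp wt v w (k + 1))).1 := by
      rcases edg_fst_mem hadj with h8 | h8
      · rw [h8]
        exact hbox w k hk.le
      · rw [h8]
        exact hbox w (k + 1) hk
    exact shc_rot_out (shc_notMem hQ h1 h3 hv hin h6)

omit [Fintype Al] in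
/-- the cost of the rotation, in terms of the geodesic of the rotated configuration -/
theorem shc_dn {wt : Al → ℝ} {a b : ℝ} (ha : 0 < a) (hwt : ∀ l, a ≤ wt l ∧ wt l ≤ b) {v : V}
    {Q : ℤ} (hQ : 100 * Q < (N : ℤ))
    (hbox : ∀ ω : Ix N → Al, ∀ i ≤ Gn wt v ω, inBox Q (Gp wt v ω i)) {α β : ℤ} (h1 : 0 < α)
    (h2 : α ≤ β) (h3 : β < col v) (w : Ix N → Al) :
    Fv wt v w ≤ Fv wt v (rotC α β w) +
      3 * b * ((vis α (α + 2) (Gn wt v (rotC α β w)) (Gp wt v (rotC α β w)) : ℝ) +
        vis β (β + 2) (Gn wt v (rotC α β w)) (Gp wt v (rotC α β w))) + 6 * b := by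
  have hwin : ∀ i ∈ blkI N α β, rotC α β w i = shiftC (su 1) w i := fun i hi => shc_rot_in hi
  have hwout : ∀ i, i ∉ blkI N α β → rotC α β w i = w i := fun i hi => shc_rot_out hi
  obtain ⟨w', hw'⟩ : ∃ w', w' = rotC α β w := ⟨_, rfl⟩
  rw [← hw'] at hwin hwout ⊢
  have hBd : Bd a b (env wt w') := fun e => hwt _
  have hgeo : IsGeo (env wt w') (Gn wt v w') (Gp wt v w') 0 v := q4_isGeo ha hBd 0 v
  have hb : 0 ≤ b := by
    have := hwt (Classical.arbitrary Al)
    linarith [this.1, this.2]
  have hv : inBox Q v := by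
    have h4 := hbox w' (Gn wt v w') le_rfl
    rwa [hgeo.1.2.1] at h4
  have h5 := shc_core (A := env wt w') (A' := env wt w) ha (fun e => hwt _) hgeo.1
    (s := su 1) (by simp [nrm, su]) h1 h2 h3 ?_ ?_
  · rw [hgeo.2] at h5
    unfold Fv
    linarith
  · intro k hk h6 h7
    unfold env
    congr 1
    have hmem : red N (edg (Gp wt v w' k) (Gp wt v w' (k + 1))) ∈ blkI N α β := shc_mem h6 h7
    rw [hwin _ hmem]
    unfold shiftC red shE su
    congr 1
    ext <;> simp
  · intro k hk h6
    unfold env
    congr 1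
    have hadj := hgeo.1.2.2 k hk
    have hin : inBox Q (edg (Gp wt v w' k) (Gp wt v w' (k + 1))).1 := by
      rcases edg_fst_mem hadj with h8 | h8
      · rw [h8]
        exact hbox w' k hk.le
      · rw [h8]
        exact hbox w' (k + 1) hk
    exact (hwout _ (shc_notMem hQ h1 h3 hv hin h6)).symm

end

end Pool.Agent.FPZ
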