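import Pool.Agent.FPZ.W2Defs

/-!
# Strips, blocks and the reduction of edges to the torus

All statements of this file are elementary facts about residues modulo `N`.

* `red_mem_blkI`, `red_mem_clI` (and box forms): a reduced edge lies in a block (closed strip) iff its
  columns satisfy the inequalities, as long as the relevant columns stay in a range of length `N`;
* monotonicity, disjointness, unions of blocks;
* injectivity of the reduction on a box, surjectivity;
* the parts and the groups of a window.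
-/

set_option autoImplicit false

noncomputable section

namespace Pool.Agent.FPZ

open Finset Pool.FPP

/-! ## columns -/

theorem col_hd (e : E) : col (hd e) = col e.1 + (if e.2 then 1 else 2) := by
  obtain ⟨⟨x, y⟩, t⟩ := e
  cases t
  · simp [hd, col]
    ring
  · simp [hd, col]
    ring

theorem col_hd_lt (e : E) : col e.1 < col (hd e) := by
  rw [col_hd]
  split_ifs <;> omega

theorem col_hd_le (e : E) : col (hd e) ≤ col e.1 + 2 := by
  rw [col_hd]
  split_ifs <;> omega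

theorem abs_col_le {K : ℤ} {z : V} (h : inBox K z) : |col z| ≤ 3 * K := by
  obtain ⟨h1, h2⟩ := h
  rw [abs_le] at h1 h2 ⊢
  unfold col
  constructor <;> omega

theorem col_le_box {K : ℤ} {z : V} (h : inBox K z) : col z ≤ 3 * K :=
  (abs_le.1 (abs_col_le h)).2

theorem neg_le_col_box {K : ℤ} {z : V} (h : inBox K z) : -(3 * K) ≤ col z :=
  (abs_le.1 (abs_col_le h)).1

theorem inBox_nonneg {K : ℤ} {z : V} (h : inBox K z) : 0 ≤ K := (abs_nonneg _).trans h.1

theorem inBox_mono_str {K K' : ℤ} {z : V} (hK : K ≤ K') (h : inBox K z) : inBox K' z :=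
  ⟨h.1.trans hK, h.2.trans hK⟩

/-- the first coordinate of a vertex and its column determine the second coordinate -/
theorem snd_eq_col (z : V) : z.2 = col z - 2 * z.1 := by
  unfold col
  ring

section

variable {N : ℕ}

theorem colI_red (e : E) : colI (red N e) = ((col e.1 : ℤ) : ZMod N) := by
  simp [colI, red, col]

theorem red_snd (e : E) : (red N e).2 = e.2 := rfl

/-- equality modulo `N` of two integers at distance less than `N` -/
theorem zmod_int_inj {k l : ℤ} (h : (k : ZMod N) = (l : ZMod N)) (h1 : k < l + N) (h2 : l < k + N) :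
    k = l := by
  rw [ZMod.intCast_eq_intCast_iff_dvd_sub] at h
  obtain ⟨c, hc⟩ := h
  have hc0 : c = 0 := by
    by_contra hne
    rcases lt_or_gt_of_ne hne with h3 | h3
    · have : (N : ℤ) * c ≤ (N : ℤ) * (-1) :=
        mul_le_mul_of_nonneg_left (by omega) (by positivity)
      linarith
    · have : (N : ℤ) * 1 ≤ (N : ℤ) * c :=
        mul_le_mul_of_nonneg_left (by omega) (by positivity)
      linarith
  subst hc0
  linarith

/-- the reduction modulo `N` is injective on a box of side less than `N` -/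
theorem red_inj {K : ℤ} (hK : 2 * K < N) {e e' : E} (he : inBox K e.1) (he' : inBox K e'.1)
    (h : red N e = red N e') : e = e' := by
  obtain ⟨⟨x, y⟩, t⟩ := e
  obtain ⟨⟨x', y'⟩, t'⟩ := e'
  simp only [red, Prod.mk.injEq] at h
  obtain ⟨⟨h1, h2⟩, h3⟩ := h
  obtain ⟨a1, a2⟩ := he
  obtain ⟨b1, b2⟩ := he'
  simp only at a1 a2 b1 b2
  rw [abs_le] at a1 a2 b1 b2
  have e1 : x = x' := zmod_int_inj h1 (by omega) (by omega)
  have e2 : y = y' := zmod_int_inj h2 (by omega) (by omega)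
  rw [e1, e2, h3]

theorem red_injOn {K : ℤ} (hK : 2 * K < N) : Set.InjOn (red N) {e : E | inBox K e.1} :=
  fun _ he _ he' h => red_inj hK he he' h

theorem card_image_red {K : ℤ} (hK : 2 * K < N) {S : Finset E} (hS : ∀ e ∈ S, inBox K e.1) :
    (S.image (red N)).card = S.card :=
  Finset.card_image_of_injOn fun e he e' he' h => red_inj hK (hS e he) (hS e' he') h

theorem red_mem_image {K : ℤ} (hK : 2 * K < N) {S : Finset E} (hS : ∀ e ∈ S, inBox K e.1) {e : E}
    (he : inBox K e.1) : red N e ∈ S.image (red N) ↔ e ∈ S := by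
  constructor
  · intro h
    obtain ⟨e', he', hr⟩ := Finset.mem_image.1 h
    rw [← red_inj hK (hS e' he') he hr]
    exact he'
  · intro h
    exact Finset.mem_image_of_mem _ h

theorem red_surj [NeZero N] (i : Ix N) : ∃ e : E, red N e = i := by
  refine ⟨((((i.1.1.val : ℕ) : ℤ), ((i.1.2.val : ℕ) : ℤ)), i.2), ?_⟩
  refine Prod.ext (Prod.ext ?_ ?_) rfl
  · simp [red]
  · simp [red]

/-- the torus edges of the column `k` are the reductions of the edges of the column `k` -/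
theorem red_surj_col [NeZero N] (i : Ix N) {k : ℤ} (hk : colI i = (k : ZMod N)) :
    ∃ e : E, red N e = i ∧ col e.1 = k := by
  refine ⟨((((i.1.1.val : ℕ) : ℤ), k - 2 * ((i.1.1.val : ℕ) : ℤ)), i.2), ?_, ?_⟩
  · refine Prod.ext (Prod.ext ?_ ?_) rfl
    · simp [red]
    · simp only [red]
      push_cast
      rw [← hk]
      simp [colI]
  · simp only [col]
    ring

/-! ## environments -/

theorem env_Bd {Al : Type} {wt : Al → ℝ} {a b : ℝ} (h : ∀ l, a ≤ wt l ∧ wt l ≤ b)
    (ω : Ix N → Al) : Bd a b (env wt ω) := fun _ => h _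

theorem env_mix_mem {Al : Type} (wt : Al → ℝ) {B : Finset (Ix N)} (ξ o : Ix N → Al) {e : E}
    (h : red N e ∈ B) : env wt (mix B ξ o) e = env wt ξ e := by
  simp [env, mix, h]

theorem env_mix_not_mem {Al : Type} (wt : Al → ℝ) {B : Finset (Ix N)} (ξ o : Ix N → Al) {e : E}
    (h : red N e ∉ B) : env wt (mix B ξ o) e = env wt o e := by
  simp [env, mix, h]

theorem env_red_congr {Al : Type} (wt : Al → ℝ) (ω : Ix N → Al) {e e' : E}
    (h : red N e = red N e') : env wt ω e = env wt ω e' := by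
  simp [env, h]

end

section

variable {N : ℕ} [NeZero N]

theorem mem_blkI {α β : ℤ} {i : Ix N} :
    i ∈ blkI N α β ↔ ∃ k : ℤ, α ≤ k ∧ k < β ∧ colI i = (k : ZMod N) := by
  simp [blkI]

theorem mem_clI {α β : ℤ} {i : Ix N} :
    i ∈ clI N α β ↔
      ∃ k : ℤ, α ≤ k ∧ k + (if i.2 then 1 else 2) ≤ β ∧ colI i = (k : ZMod N) := by
  simp [clI]

/-! ## membership of reduced edges -/

theorem red_mem_blkI {α β : ℤ} {e : E} (h1 : col e.1 < α + N) (h2 : β ≤ col e.1 + N) :
    red N e ∈ blkI N α β ↔ α ≤ col e.1 ∧ col e.1 < β := by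
  rw [mem_blkI]
  constructor
  · rintro ⟨k, hk1, hk2, hk⟩
    rw [colI_red] at hk
    have := zmod_int_inj hk (by omega) (by omega)
    subst this
    exact ⟨hk1, hk2⟩
  · rintro ⟨hk1, hk2⟩
    exact ⟨col e.1, hk1, hk2, colI_red e⟩

theorem red_mem_clI {α β : ℤ} {e : E} (h1 : col e.1 < α + N) (h2 : β ≤ col e.1 + N) :
    red N e ∈ clI N α β ↔ inStrip α β e := by
  rw [mem_clI]
  unfold inStrip
  rw [col_hd]
  constructor
  · rintro ⟨k, hk1, hk2, hk⟩
    rw [colI_red] at hk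
    rw [red_snd] at hk2
    have h3 : k < β := by
      split_ifs at hk2 <;> omega
    have := zmod_int_inj hk (by omega) (by omega)
    subst this
    exact ⟨hk1, hk2⟩
  · rintro ⟨hk1, hk2⟩
    exact ⟨col e.1, hk1, hk2, colI_red e⟩

/-- sufficient condition without any size restriction -/
theorem red_mem_blkI_of {α β : ℤ} {e : E} (h1 : α ≤ col e.1) (h2 : col e.1 < β) :
    red N e ∈ blkI N α β := mem_blkI.2 ⟨col e.1, h1, h2, colI_red e⟩

theorem red_mem_clI_of {α β : ℤ} {e : E} (h : inStrip α β e) : red N e ∈ clI N α β := by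
  obtain ⟨h1, h2⟩ := h
  rw [col_hd] at h2
  exact mem_clI.2 ⟨col e.1, h1, h2, colI_red e⟩

theorem red_mem_blkI_box {K α β : ℤ} {e : E} (he : inBox K e.1) (h1 : 3 * K < α + N)
    (h2 : β + 3 * K ≤ N) : red N e ∈ blkI N α β ↔ α ≤ col e.1 ∧ col e.1 < β := by
  have h3 := col_le_box he
  have h4 := neg_le_col_box he
  exact red_mem_blkI (by omega) (by omega)

theorem red_mem_clI_box {K α β : ℤ} {e : E} (he : inBox K e.1) (h1 : 3 * K < α + N)
    (h2 : β + 3 * K ≤ N) : red N e ∈ clI N α β ↔ inStrip α β e := by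
  have h3 := col_le_box he
  have h4 := neg_le_col_box he
  exact red_mem_clI (by omega) (by omega)

/-- form for `100 Q < N`, edges in the box `20 Q` and columns in `[-30 Q, 30 Q]` -/
theorem red_mem_blkI_Q {Q α β : ℤ} {e : E} (hQ : 100 * Q < N) (he : inBox (20 * Q) e.1)
    (h1 : -(30 * Q) ≤ α) (h2 : β ≤ 30 * Q) :
    red N e ∈ blkI N α β ↔ α ≤ col e.1 ∧ col e.1 < β := by
  have h0 := inBox_nonneg he
  exact red_mem_blkI_box he (by omega) (by omega)

theorem red_mem_clI_Q {Q α β : ℤ} {e : E} (hQ : 100 * Q < N) (he : inBox (20 * Q) e.1)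
    (h1 : -(30 * Q) ≤ α) (h2 : β ≤ 30 * Q) : red N e ∈ clI N α β ↔ inStrip α β e := by
  have h0 := inBox_nonneg he
  exact red_mem_clI_box he (by omega) (by omega)

/-! ## inclusions -/

theorem blkI_mono {α β α' β' : ℤ} (h1 : α' ≤ α) (h2 : β ≤ β') : blkI N α β ⊆ blkI N α' β' := by
  intro i hi
  obtain ⟨k, hk1, hk2, hk⟩ := mem_blkI.1 hi
  exact mem_blkI.2 ⟨k, h1.trans hk1, hk2.trans_le h2, hk⟩

theorem clI_mono {α β α' β' : ℤ} (h1 : α' ≤ α) (h2 : β ≤ β') : clI N α β ⊆ clI N α' β' := by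
  intro i hi
  obtain ⟨k, hk1, hk2, hk⟩ := mem_clI.1 hi
  exact mem_clI.2 ⟨k, h1.trans hk1, hk2.trans h2, hk⟩

theorem clI_subset_blkI {α β α' β' : ℤ} (h1 : α' ≤ α) (h2 : β ≤ β') :
    clI N α β ⊆ blkI N α' β' := by
  intro i hi
  obtain ⟨k, hk1, hk2, hk⟩ := mem_clI.1 hi
  refine mem_blkI.2 ⟨k, h1.trans hk1, ?_, hk⟩
  split_ifs at hk2 <;> omega

theorem blkI_subset_clI {α β α' β' : ℤ} (h1 : α' ≤ α) (h2 : β + 1 ≤ β') :
    blkI N α β ⊆ clI N α' β' := by
  intro i hi
  obtain ⟨k, hk1, hk2, hk⟩ := mem_blkI.1 hi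
  refine mem_clI.2 ⟨k, h1.trans hk1, ?_, hk⟩
  split_ifs <;> omega

/-! ## disjointness -/

theorem blkI_disjoint {α β γ δ : ℤ} (h1 : β ≤ γ) (h2 : δ ≤ α + N) :
    Disjoint (blkI N α β) (blkI N γ δ) := by
  rw [Finset.disjoint_left]
  intro i hi hi'
  obtain ⟨k, hk1, hk2, hk⟩ := mem_blkI.1 hi
  obtain ⟨l, hl1, hl2, hl⟩ := mem_blkI.1 hi'
  rw [hk] at hl
  have := zmod_int_inj hl (by omega) (by omega)
  omega

theorem clI_disjoint {α β γ δ : ℤ} (h1 : β ≤ γ) (h2 : δ ≤ α + N) :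
    Disjoint (clI N α β) (clI N γ δ) :=
  Finset.disjoint_of_subset_left (clI_subset_blkI le_rfl le_rfl)
    (Finset.disjoint_of_subset_right (clI_subset_blkI le_rfl le_rfl) (blkI_disjoint h1 h2))

theorem blkI_clI_disjoint {α β γ δ : ℤ} (h1 : β ≤ γ) (h2 : δ ≤ α + N) :
    Disjoint (blkI N α β) (clI N γ δ) :=
  Finset.disjoint_of_subset_right (clI_subset_blkI le_rfl le_rfl) (blkI_disjoint h1 h2)

theorem clI_blkI_disjoint {α β γ δ : ℤ} (h1 : β ≤ γ) (h2 : δ ≤ α + N) :
    Disjoint (clI N α β) (blkI N γ δ) :=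
  Finset.disjoint_of_subset_left (clI_subset_blkI le_rfl le_rfl) (blkI_disjoint h1 h2)

/-! ## unions -/

theorem blkI_eq_empty {α β : ℤ} (h : β ≤ α) : blkI N α β = ∅ := by
  rw [Finset.eq_empty_iff_forall_notMem]
  intro i hi
  obtain ⟨k, hk1, hk2, -⟩ := mem_blkI.1 hi
  omega

theorem blkI_union {α β γ : ℤ} (h1 : α ≤ β) (h2 : β ≤ γ) :
    blkI N α β ∪ blkI N β γ = blkI N α γ := by
  apply Finset.Subset.antisymm
  · exact Finset.union_subset (blkI_mono le_rfl h2) (blkI_mono h1 le_rfl)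
  · intro i hi
    obtain ⟨k, hk1, hk2, hk⟩ := mem_blkI.1 hi
    rw [Finset.mem_union]
    rcases lt_or_ge k β with h | h
    · exact Or.inl (mem_blkI.2 ⟨k, hk1, h, hk⟩)
    · exact Or.inr (mem_blkI.2 ⟨k, h, hk2, hk⟩)

/-- a window is the union of its `R` fine blocks -/
theorem blkI_biUnion (x L : ℤ) (hL : 0 ≤ L) (R : ℕ) :
    (range R).biUnion (fun m : ℕ => blkI N (x + m * L) (x + (m + 1) * L)) =
      blkI N x (x + R * L) := by
  induction R with
  | zero =>
    rw [blkI_eq_empty (by simp)]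
    simp
  | succ R ih =>
    rw [Finset.range_add_one, Finset.biUnion_insert, ih, Finset.union_comm]
    have h1 : x ≤ x + (R : ℤ) * L := by
      have : 0 ≤ (R : ℤ) * L := mul_nonneg (by positivity) hL
      omega
    have h2 : x + (R : ℤ) * L ≤ x + ((R : ℤ) + 1) * L := by
      have : ((R : ℤ) + 1) * L = (R : ℤ) * L + L := by ring
      omega
    rw [blkI_union h1 h2]
    push_cast
    rfl

/-- different fine blocks are disjoint -/
theorem blkI_fine_disjoint (x L : ℤ) (hL : 0 ≤ L) (R : ℕ) (hR : (R : ℤ) * L ≤ N) {m m' : ℕ}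
    (hm : m < R) (hm' : m' < R) (h : m ≠ m') :
    Disjoint (blkI N (x + m * L) (x + (m + 1) * L)) (blkI N (x + m' * L) (x + (m' + 1) * L)) := by
  have key : ∀ p q : ℕ, p < q → q < R →
      Disjoint (blkI N (x + p * L) (x + (p + 1) * L)) (blkI N (x + q * L) (x + (q + 1) * L)) := by
    intro p q hpq hq
    have e1 : ((p : ℤ) + 1) * L ≤ (q : ℤ) * L :=
      mul_le_mul_of_nonneg_right (by exact_mod_cast hpq) hL
    have e2 : ((q : ℤ) + 1) * L ≤ (R : ℤ) * L :=
      mul_le_mul_of_nonneg_right (by exact_mod_cast hq) hL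
    have e3 : 0 ≤ (p : ℤ) * L := mul_nonneg (by positivity) hL
    exact blkI_disjoint (by omega) (by omega)
  rcases lt_or_gt_of_ne h with h' | h'
  · exact key m m' h' hm'
  · exact (key m' m h' hm).symm

theorem blkI_univ {α β : ℤ} (h : α + N ≤ β) : blkI N α β = univ := by
  rw [Finset.eq_univ_iff_forall]
  intro i
  have hN : (0 : ℤ) < N := by
    have := NeZero.pos N
    exact_mod_cast this
  obtain ⟨l, hl⟩ : ∃ l : ℤ, colI i = (l : ZMod N) := ⟨((colI i).val : ℕ), by simp⟩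
  refine mem_blkI.2 ⟨α + (l - α) % N, ?_, ?_, ?_⟩
  · have := Int.emod_nonneg (l - α) hN.ne'
    omega
  · have := Int.emod_lt_of_pos (l - α) hN
    omega
  · rw [hl, ZMod.intCast_eq_intCast_iff_dvd_sub]
    have h1 := Int.emod_add_mul_ediv (l - α) N
    refine ⟨-((l - α) / N), ?_⟩
    have : (N : ℤ) * -((l - α) / N) = -((N : ℤ) * ((l - α) / N)) := by ring
    rw [this]
    omega

/-! ## windows -/

namespace Win

variable {Al : Type} [Fintype Al] [Nonempty Al] (W : Win N Al)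

theorem Q_nonneg : 0 ≤ W.Q := by
  obtain ⟨l⟩ := (inferInstance : Nonempty Al)
  exact inBox_nonneg (W.hbox (fun _ => l) 0 (Nat.zero_le _))

theorem L_pos : 0 < W.L := lt_of_lt_of_le (by norm_num) W.hL

theorem wt_pos (l : Al) : 0 < W.wt l := W.ha.trans_le (W.hwt l).1

theorem env_pos (ω : Ix N → Al) (e : E) : 0 < env W.wt ω e := W.wt_pos _

theorem env_bd (ω : Ix N → Al) : Bd W.a W.b (env W.wt ω) := env_Bd W.hwt ω

theorem G_subset_B {k : ℤ} (h0 : 0 ≤ k) (h8 : k ≤ 8) : W.G k ⊆ W.B := by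
  have hL := W.L_pos
  refine (clI_mono ?_ ?_).trans W.hB
  · unfold Win.lo
    nlinarith
  · unfold Win.hi
    nlinarith

theorem part_subset_G {k s : ℤ} (h0 : 0 ≤ s) (h5 : s ≤ 5) : W.part k s ⊆ W.G k := by
  have hL := W.L_pos
  have e1 : W.x + (7 * k + s) * W.L = W.x + 7 * k * W.L + s * W.L := by ring
  have e2 : W.x + (7 * k + s + 1) * W.L = W.x + 7 * k * W.L + (s + 1) * W.L := by ring
  have e3 : W.x + 7 * (k + 1) * W.L = W.x + 7 * k * W.L + 7 * W.L := by ring
  have e4 : 0 ≤ s * W.L := mul_nonneg h0 hL.le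
  have e5 : (s + 1) * W.L ≤ 6 * W.L := mul_le_mul_of_nonneg_right (by omega) hL.le
  refine blkI_subset_clI ?_ ?_
  · unfold Win.lo
    omega
  · unfold Win.hi
    omega

theorem part_subset_B {k s : ℤ} (h0 : 0 ≤ k) (h8 : k ≤ 8) (hs0 : 0 ≤ s) (hs5 : s ≤ 5) :
    W.part k s ⊆ W.B := (W.part_subset_G hs0 hs5).trans (W.G_subset_B h0 h8)

/-- different groups are disjoint -/
theorem G_disjoint (hN : 63 * W.L ≤ (N : ℤ)) {k k' : ℤ} (h0 : 0 ≤ k) (h8 : k ≤ 8) (h0' : 0 ≤ k')
    (h8' : k' ≤ 8) (h : k ≠ k') : Disjoint (W.G k) (W.G k') := by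
  have hL := W.L_pos
  have key : ∀ p q : ℤ, 0 ≤ p → p < q → q ≤ 8 → Disjoint (W.G p) (W.G q) := by
    intro p q hp hpq hq
    have e1 : 7 * (p + 1) * W.L ≤ 7 * q * W.L := mul_le_mul_of_nonneg_right (by omega) hL.le
    have e2 : 7 * (q + 1) * W.L ≤ 63 * W.L := mul_le_mul_of_nonneg_right (by omega) hL.le
    have e3 : 0 ≤ 7 * p * W.L := mul_nonneg (by omega) hL.le
    refine clI_disjoint ?_ ?_
    · unfold Win.lo Win.hi
      omega
    · unfold Win.lo Win.hi
      omega
  rcases lt_or_gt_of_ne h with h' | h'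
  · exact key k k' h0 h' h8'
  · exact (key k' k h0' h' h8).symm

/-- different parts are disjoint -/
theorem part_disjoint (hN : 63 * W.L ≤ (N : ℤ)) {k s k' s' : ℤ} (h0 : 0 ≤ 7 * k + s)
    (h62 : 7 * k + s ≤ 62) (h0' : 0 ≤ 7 * k' + s') (h62' : 7 * k' + s' ≤ 62)
    (h : 7 * k + s ≠ 7 * k' + s') : Disjoint (W.part k s) (W.part k' s') := by
  have hL := W.L_pos
  have key : ∀ p q : ℤ, 0 ≤ p → p < q → q ≤ 62 →
      Disjoint (blkI N (W.x + p * W.L) (W.x + (p + 1) * W.L))
        (blkI N (W.x + q * W.L) (W.x + (q + 1) * W.L)) := by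
    intro p q hp hpq hq
    have e1 : (p + 1) * W.L ≤ q * W.L := mul_le_mul_of_nonneg_right (by omega) hL.le
    have e2 : (q + 1) * W.L ≤ 63 * W.L := mul_le_mul_of_nonneg_right (by omega) hL.le
    have e3 : 0 ≤ p * W.L := mul_nonneg (by omega) hL.le
    exact blkI_disjoint (by omega) (by omega)
  unfold Win.part
  rcases lt_or_gt_of_ne h with h' | h'
  · exact key _ _ h0 h' h62'
  · exact (key _ _ h0' h' h62).symm

/-- the strips of `MeetB` lie in the window -/
theorem strip_subset_B {k α β : ℤ} (h1 : 1 ≤ k) (h7 : k ≤ 7) (hα : W.lo k - W.L ≤ α)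
    (hβ : β ≤ W.hi k + W.L) : blkI N α β ⊆ W.B := by
  have hL := W.hL
  have hL0 : 0 ≤ W.L := W.L_pos.le
  have e1 : 7 * 1 * W.L ≤ 7 * k * W.L := mul_le_mul_of_nonneg_right (by omega) hL0
  have e2 : 7 * (k + 1) * W.L ≤ 56 * W.L := mul_le_mul_of_nonneg_right (by omega) hL0
  unfold Win.lo at hα
  unfold Win.hi at hβ
  exact (blkI_subset_clI (by omega) (by omega)).trans W.hB

theorem G_subset_strip {k α β : ℤ} (hα : α ≤ W.lo k) (hβ : W.hi k ≤ β) :
    W.G k ⊆ blkI N α β := clI_subset_blkI hα hβ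

end Win

end

end Pool.Agent.FPZ
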