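import Pool.Agent.FPZ.R8Sym

/-!
Module T4: the variance of the passage time is invariant under the dihedral symmetries.
-/

set_option autoImplicit false

noncomputable section

namespace Pool.Agent.FPZ

open Finset Pool.FPP

variable {N : ℕ} [NeZero N] {Al : Type} [Fintype Al] [Nonempty Al]

/-- the variance -/
def varF (N : ℕ) [NeZero N] {Al : Type} [Fintype Al] (wt : Al → ℝ) (v : V) : ℝ :=
  Ex (fun ω : Ix N → Al => (Fv wt v ω - Ex (Fv (N := N) wt v)) ^ 2)

omit [Nonempty Al] in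
theorem varF_of_law (wt : Al → ℝ) (u v : V)
    (h : ∀ g : ℝ → ℝ, Ex (fun ω : Ix N → Al => g (Fv wt u ω)) =
      Ex (fun ω : Ix N → Al => g (Fv wt v ω))) : varF N wt u = varF N wt v := by
  unfold varF
  have h1 : Ex (Fv (N := N) wt u) = Ex (Fv (N := N) wt v) := h id
  rw [h1]
  exact h (fun x => (x - Ex (Fv (N := N) wt v)) ^ 2)

theorem varF_neg1 (wt : Al → ℝ) (u : V) : varF N wt (-u.1, u.2) = varF N wt u :=
  varF_of_law wt _ _ fun g => law_neg1 g wt u

theorem varF_neg2 (wt : Al → ℝ) (u : V) : varF N wt (u.1, -u.2) = varF N wt u :=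
  varF_of_law wt _ _ fun g => law_neg2 g wt u

theorem varF_swap (wt : Al → ℝ) (u : V) : varF N wt (u.2, u.1) = varF N wt u :=
  varF_of_law wt _ _ fun g => law_swap g wt u

theorem varF_abs (wt : Al → ℝ) (u : V) :
    varF N wt u = varF N wt (((u.1.natAbs : ℕ) : ℤ), ((u.2.natAbs : ℕ) : ℤ)) := by
  have h1 : varF N wt u = varF N wt (((u.1.natAbs : ℕ) : ℤ), u.2) := by
    rcases Int.natAbs_eq u.1 with h | h
    · rw [← h]
    · have := varF_neg1 (N := N) wt (((u.1.natAbs : ℕ) : ℤ), u.2)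
      simp only at this
      rw [← h] at this
      exact this
  rw [h1]
  rcases Int.natAbs_eq u.2 with h | h
  · rw [← h]
  · have := varF_neg2 (N := N) wt (((u.1.natAbs : ℕ) : ℤ), ((u.2.natAbs : ℕ) : ℤ))
    simp only at this
    rw [← h] at this
    exact this

theorem trf_dihedral (N : ℕ) [NeZero N] {Al : Type} [Fintype Al] [Nonempty Al] (wt : Al → ℝ)
    (v : V) :
    Ex (fun ω : Ix N → Al => (Fv wt v ω - Ex (Fv (N := N) wt v)) ^ 2) =
    Ex (fun ω : Ix N → Al =>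
      (Fv wt (((max v.1.natAbs v.2.natAbs : ℕ) : ℤ), ((min v.1.natAbs v.2.natAbs : ℕ) : ℤ)) ω -
        Ex (Fv (N := N) wt (((max v.1.natAbs v.2.natAbs : ℕ) : ℤ),
          ((min v.1.natAbs v.2.natAbs : ℕ) : ℤ)))) ^ 2) := by
  change varF N wt v = varF N wt (((max v.1.natAbs v.2.natAbs : ℕ) : ℤ),
    ((min v.1.natAbs v.2.natAbs : ℕ) : ℤ))
  rw [varF_abs]
  rcases le_total v.1.natAbs v.2.natAbs with h | h
  · rw [max_eq_right h, min_eq_left h]
    exact (varF_swap (N := N) wt (((v.1.natAbs : ℕ) : ℤ), ((v.2.natAbs : ℕ) : ℤ))).symm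
  · rw [max_eq_left h, min_eq_right h]

end Pool.Agent.FPZ
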