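import Pool.Agent.FPZ.TRF3
import Pool.Agent.FPZ.T4
import Pool.Agent.FPZ.Model

/-!
Module T5: the model bound implies the theorem for the square lattice.
-/

set_option autoImplicit false

noncomputable section

namespace Pool.Agent.FPZ

open Finset Pool.FPP Pool.Agent.FPZ.PL

theorem trf_norm (x y : ℤ) :
    ((x.natAbs + y.natAbs : ℕ) : ℝ) ≤ 2 * Real.sqrt ((x : ℝ) ^ 2 + (y : ℝ) ^ 2) := by
  have hx : ((x.natAbs : ℕ) : ℝ) = |(x : ℝ)| := by
    rw [Nat.cast_natAbs, Int.cast_abs]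
  have hy : ((y.natAbs : ℕ) : ℝ) = |(y : ℝ)| := by
    rw [Nat.cast_natAbs, Int.cast_abs]
  have hsx : |(x : ℝ)| ≤ Real.sqrt ((x : ℝ) ^ 2 + (y : ℝ) ^ 2) := by
    refine Real.abs_le_sqrt ?_
    nlinarith [sq_nonneg (y : ℝ)]
  have hsy : |(y : ℝ)| ≤ Real.sqrt ((x : ℝ) ^ 2 + (y : ℝ) ^ 2) := by
    refine Real.abs_le_sqrt ?_
    nlinarith [sq_nonneg (x : ℝ)]
  rw [Nat.cast_add, hx, hy]
  linarith

/-- bound for the perturbed model on a large torus -/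
theorem trf_apply {a b : ℝ} (ha : 0 < a) (hab : a < b) {ε C : ℝ} (hC : 0 ≤ C)
    (hM : ∀ v : V, 0 ≤ v.2 → v.2 ≤ v.1 → 0 < v.1 →
    ∀ (N : ℕ) [NeZero N], 100 * boxQ a (b + 1) v < (N : ℤ) → C * ((v.1 + v.2 : ℤ) : ℝ) ≤ (N : ℝ) →
    ∀ (Al : Type) [Fintype Al] [Nonempty Al] (wt : Al → ℝ), (∀ l, a ≤ wt l ∧ wt l ≤ b + 1) →
      Pr (fun ω : Ix N → Al => ¬ Gen (20 * boxQ a (b + 1) v) (env wt ω)) ≤
        1 / ((v.1 + v.2 : ℤ) : ℝ) →
      Ex (fun ω : Ix N → Al => (Fv wt v ω - Ex (Fv (N := N) wt v)) ^ 2) ≤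
        C * ((v.1 + v.2 : ℤ) : ℝ) ^ (1 - ε))
    {v : V} (h2 : 0 ≤ v.2) (h1 : v.2 ≤ v.1) (h0 : 0 < v.1) {N : ℕ} [NeZero N]
    (hN : 100 * boxQ a (b + 1) v < (N : ℤ)) (hN2 : C * ((v.1 + v.2 : ℤ) : ℝ) ≤ (N : ℝ)) :
    Ex (fun ω : Ix N → Bool => (Fv (wtB a b) v ω - Ex (Fv (N := N) (wtB a b) v)) ^ 2) ≤
      2 * (C * ((v.1 + v.2 : ℤ) : ℝ) ^ (1 - ε)) + 2 := by
  have hb : 0 < b := ha.trans hab
  set Q : ℤ := boxQ a (b + 1) v with hQ
  set n : ℝ := ((v.1 + v.2 : ℤ) : ℝ) with hn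
  have hn1 : 1 ≤ n := by
    have : (1 : ℤ) ≤ v.1 + v.2 := by omega
    rw [hn]
    exact_mod_cast this
  have habs : (|v.1| + |v.2| : ℤ) = v.1 + v.2 := by
    rw [abs_of_pos h0, abs_of_nonneg h2]
  have hnat : ((v.1.natAbs + v.2.natAbs : ℕ) : ℝ) = n := by
    rw [hn, ← habs]
    push_cast
    rw [Nat.cast_natAbs, Nat.cast_natAbs]
    push_cast
    rfl
  have hQn : (b + 1) / a * n ≤ (Q : ℝ) := by
    have := Int.le_ceil ((b + 1) / a * ((|v.1| + |v.2| : ℤ) : ℝ))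
    rw [habs] at this
    have e : Q = ⌈(b + 1) / a * ((v.1 + v.2 : ℤ) : ℝ)⌉ := by
      rw [hQ]
      unfold boxQ
      rw [habs]
    rw [e]
    exact this
  have hba : 1 ≤ (b + 1) / a := by
    rw [le_div_iff₀ ha]
    linarith
  have hQ1 : (1 : ℝ) ≤ (Q : ℝ) := by
    have : (b + 1) / a * n ≥ 1 * 1 := by
      apply mul_le_mul hba hn1 zero_le_one (by positivity)
    linarith
  have hQ1' : 1 ≤ Q := by exact_mod_cast hQ1
  set δ : ℝ := 1 / Q with hδ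
  have hQp : (0 : ℝ) < Q := by linarith
  have hδ0 : 0 < δ := by positivity
  have hδ1 : δ ≤ 1 := by
    rw [hδ, div_le_one hQp]
    exact hQ1
  -- the size of the second alphabet
  set M : ℕ := ((trfB (20 * Q)).powerset ×ˢ (trfB (20 * Q)).powerset).card with hM'
  obtain ⟨K, hK⟩ : ∃ K : ℕ, max 1 ((M : ℝ) * n) < K := exists_nat_gt _
  have hK1 : (1 : ℝ) < K := (le_max_left _ _).trans_lt hK
  have hK2 : (M : ℝ) * n < K := (le_max_right _ _).trans_lt hK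
  have hK0 : 0 < K := by
    have : (0 : ℝ) < K := by linarith
    exact_mod_cast this
  have hKp : (0 : ℝ) < K := by linarith
  have : Nonempty (Fin K) := ⟨⟨0, hK0⟩⟩
  have hwt : ∀ l : Bool × Fin K, a ≤ wtD a b δ K l ∧ wtD a b δ K l ≤ b + 1 := by
    rintro ⟨x, i⟩
    have hB : a ≤ wtB a b x ∧ wtB a b x ≤ b := by
      unfold wtB
      split_ifs
      · exact ⟨le_rfl, hab.le⟩
      · exact ⟨hab.le, le_rfl⟩
    have h3 : 0 ≤ δ * ((i : ℕ) : ℝ) / K := by positivity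
    have h4 : δ * ((i : ℕ) : ℝ) / K ≤ 1 := by
      rw [div_le_one hKp]
      have : ((i : ℕ) : ℝ) ≤ K := by exact_mod_cast i.2.le
      have h5 : (0 : ℝ) ≤ ((i : ℕ) : ℝ) := Nat.cast_nonneg _
      nlinarith
    unfold wtD
    simp only
    constructor <;> linarith
  have hgen : Pr (fun ω : Ix N → Bool × Fin K => ¬ Gen (20 * Q) (env (wtD a b δ K) ω)) ≤
      1 / n := by
    refine (trf_gen hδ0 hK0 (by omega)).trans ?_
    rw [div_le_div_iff₀ hKp (by linarith)]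
    linarith
  have hmodel := hM v h2 h1 h0 N hN hN2 (Bool × Fin K) (wtD a b δ K) hwt hgen
  have hvar := trf_var (N := N) (K := K) ha hab.le hδ0.le hK0 v
  rw [hnat] at hvar
  have hsm : δ / a * (b * n) ≤ 1 := by
    have e : δ / a * (b * n) = δ * (b / a * n) := by ring
    rw [e]
    have h6 : b / a * n ≤ Q := by
      refine le_trans ?_ hQn
      apply mul_le_mul_of_nonneg_right _ (by linarith)
      apply div_le_div_of_nonneg_right _ ha.le
      linarith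
    calc δ * (b / a * n) ≤ δ * Q := mul_le_mul_of_nonneg_left h6 hδ0.le
      _ = 1 := by rw [hδ]; field_simp
  have hsm0 : 0 ≤ δ / a * (b * n) := by positivity
  have hsm2 : (δ / a * (b * n)) ^ 2 ≤ 1 := pow_le_one₀ hsm0 hsm
  linarith

/-- the model bound implies the theorem -/
theorem s19155_of_model (hM : ModelBound) :
  ∀ a b : ℝ, 0 < a → a < b → ∃ ε : ℝ, 0 < ε ∧ ∃ C : ℝ, ∀ v : ℤ × ℤ, v ≠ 0 →
    ProbabilityTheory.variance
      (fun ω : (ℤ × ℤ) × Fin 2 → Bool =>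
        sInf {t : ℝ | ∃ (n : ℕ) (p : ℕ → ℤ × ℤ), p 0 = 0 ∧ p n = v ∧
          (∀ k < n, |(p (k+1)).1 - (p k).1| + |(p (k+1)).2 - (p k).2| = 1) ∧
          t = ∑ k ∈ Finset.range n,
            (if ω ((min (p k).1 (p (k+1)).1, min (p k).2 (p (k+1)).2),
                  (if (p k).2 = (p (k+1)).2 then (0 : Fin 2) else (1 : Fin 2))) = true
              then a else b)})
      (MeasureTheory.Measure.infinitePi
        (fun _ : (ℤ × ℤ) × Fin 2 => (PMF.uniformOfFintype Bool).toMeasure))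
    ≤ C * (Real.sqrt (((v.1 : ℝ)) ^ 2 + ((v.2 : ℝ)) ^ 2)) ^ (1 - ε) := by
  intro a b ha hab
  obtain ⟨ε, hε, hε1, C, hC, hbound⟩ := hM a (b + 1) ha (by linarith)
  refine ⟨ε, hε, 2 * (2 * C + 2), fun v hv => ?_⟩
  change latticeVar a b v ≤ _
  set v' : V := (((max v.1.natAbs v.2.natAbs : ℕ) : ℤ), ((min v.1.natAbs v.2.natAbs : ℕ) : ℤ))
    with hv'
  have h2 : 0 ≤ v'.2 := by rw [hv']; positivity
  have h1 : v'.2 ≤ v'.1 := by
    rw [hv']
    simp only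
    exact_mod_cast min_le_max
  have hpos : 0 < v.1.natAbs ∨ 0 < v.2.natAbs := by
    by_contra hcon
    push Not at hcon
    apply hv
    have h3 : v.1.natAbs = 0 := by omega
    have h4 : v.2.natAbs = 0 := by omega
    exact Prod.ext (Int.natAbs_eq_zero.mp h3) (Int.natAbs_eq_zero.mp h4)
  have h0 : 0 < v'.1 := by
    rw [hv']
    simp only
    have : 0 < max v.1.natAbs v.2.natAbs := by
      rcases hpos with h | h
      · exact lt_max_of_lt_left h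
      · exact lt_max_of_lt_right h
    exact_mod_cast this
  obtain ⟨N₀, hN₀⟩ := lattice_var_eq a b ha hab v
  obtain ⟨N₁, hN₁⟩ := exists_nat_gt (C * ((v'.1 + v'.2 : ℤ) : ℝ))
  set N : ℕ := max (max N₀ N₁) ((100 * boxQ a (b + 1) v').toNat + 1) with hN
  have hNN0 : N₀ ≤ N := (le_max_left _ _).trans (le_max_left _ _)
  have hNN1 : N₁ ≤ N := (le_max_right N₀ _).trans (le_max_left _ _)
  have hNQ : (100 * boxQ a (b + 1) v').toNat + 1 ≤ N := le_max_right _ _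
  have : NeZero N := ⟨by omega⟩
  rw [hN₀ N hNN0, trf_dihedral]
  have hmain := trf_apply ha hab hC hbound h2 h1 h0 (N := N) (by omega)
    (hN₁.le.trans (by exact_mod_cast hNN1))
  refine hmain.trans ?_
  -- constants
  have hsum : v'.1 + v'.2 = ((v.1.natAbs + v.2.natAbs : ℕ) : ℤ) := by
    rw [hv']
    simp only
    rw [← Nat.cast_add, max_add_min]
  rw [hsum, Int.cast_natCast]
  set n : ℝ := ((v.1.natAbs + v.2.natAbs : ℕ) : ℝ) with hn
  set r : ℝ := Real.sqrt (((v.1 : ℝ)) ^ 2 + ((v.2 : ℝ)) ^ 2) with hr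
  have hn1 : 1 ≤ n := by
    have : 1 ≤ v.1.natAbs + v.2.natAbs := by omega
    rw [hn]
    exact_mod_cast this
  have hnr : n ≤ 2 * r := trf_norm v.1 v.2
  have hr0 : 0 ≤ r := Real.sqrt_nonneg _
  have hp1 : 1 ≤ n ^ (1 - ε) := Real.one_le_rpow hn1 (by linarith)
  have hp2 : n ^ (1 - ε) ≤ 2 * r ^ (1 - ε) := by
    calc n ^ (1 - ε) ≤ (2 * r) ^ (1 - ε) :=
          Real.rpow_le_rpow (by linarith) hnr (by linarith)
      _ = 2 ^ (1 - ε) * r ^ (1 - ε) := Real.mul_rpow (by norm_num) hr0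
      _ ≤ 2 * r ^ (1 - ε) := by
          apply mul_le_mul_of_nonneg_right _ (Real.rpow_nonneg hr0 _)
          calc (2 : ℝ) ^ (1 - ε) ≤ (2 : ℝ) ^ (1 : ℝ) :=
                Real.rpow_le_rpow_of_exponent_le (by norm_num) (by linarith)
            _ = 2 := Real.rpow_one 2
  calc 2 * (C * n ^ (1 - ε)) + 2 ≤ (2 * C + 2) * n ^ (1 - ε) := by nlinarith
    _ ≤ (2 * C + 2) * (2 * r ^ (1 - ε)) := mul_le_mul_of_nonneg_left hp2 (by linarith)
    _ = 2 * (2 * C + 2) * r ^ (1 - ε) := by ring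

end Pool.Agent.FPZ
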