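import Mathlib

/-!
Tree lemma: a set of density at least `cc` in the leaves of the regular tree with `63` children per
vertex and large depth has a vertex all of whose `63` children contain at least `m` of its elements.

PROOF. Otherwise, by induction on the height `j`, a vertex of height `j` contains at most
`(m+1) 62^j - m` elements (one child contains at most `m` of them), so the root contains at most
`(m+1) 62^d < cc 63^d` elements.
-/

set_option autoImplicit false

namespace Pool.Agent.FPZ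

open Finset

/-- number of the elements of `S` below the vertex `i` of height `j` -/
def tcnt (S : Finset ℕ) (j i : ℕ) : ℕ :=
  (S.filter (fun n => i * 63 ^ j ≤ n ∧ n < (i + 1) * 63 ^ j)).card

theorem tcnt_succ (S : Finset ℕ) (j i : ℕ) :
    tcnt S (j + 1) i ≤ ∑ r ∈ range 63, tcnt S j (63 * i + r) := by
  unfold tcnt
  refine le_trans (card_le_card ?_) card_biUnion_le
  intro n hn
  rw [mem_filter] at hn
  obtain ⟨hnS, h1, h2⟩ := hn
  have hp : 0 < 63 ^ j := by positivity
  rw [mem_biUnion]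
  have e1 : i * 63 ^ (j + 1) = 63 * i * 63 ^ j := by rw [pow_succ]; ring
  have e2 : (i + 1) * 63 ^ (j + 1) = (63 * i + 63) * 63 ^ j := by rw [pow_succ]; ring
  rw [e1] at h1
  rw [e2] at h2
  have h3 : 63 * i ≤ n / 63 ^ j := (Nat.le_div_iff_mul_le hp).2 h1
  have h4 : n / 63 ^ j < 63 * i + 63 := (Nat.div_lt_iff_lt_mul hp).2 h2
  refine ⟨n / 63 ^ j - 63 * i, mem_range.2 (by omega), mem_filter.2 ⟨hnS, ?_, ?_⟩⟩
  · have : 63 * i + (n / 63 ^ j - 63 * i) = n / 63 ^ j := by omega
    rw [this]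
    exact Nat.div_mul_le_self n _
  · have : 63 * i + (n / 63 ^ j - 63 * i) = n / 63 ^ j := by omega
    rw [this]
    have := Nat.lt_succ_iff.2 (le_refl (n / 63 ^ j))
    exact (Nat.div_lt_iff_lt_mul hp).1 this

/-- the sum of `63` numbers, all at most `b` and one at most `m` -/
theorem sum63 {f : ℕ → ℕ} {b m r : ℕ} (hr : r < 63) (h : ∀ s, s < 63 → f s ≤ b) (hm : f r ≤ m) :
    ∑ s ∈ range 63, f s ≤ m + 62 * b := by
  rw [← add_sum_erase (range 63) f (mem_range.2 hr)]
  apply Nat.add_le_add hm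
  have hc : ((range 63).erase r).card = 62 := by
    rw [card_erase_of_mem (mem_range.2 hr), card_range]
  calc ∑ s ∈ (range 63).erase r, f s ≤ ∑ _s ∈ (range 63).erase r, b :=
        sum_le_sum fun s hs => h s (mem_range.1 (mem_of_mem_erase hs))
    _ = 62 * b := by rw [sum_const, hc, smul_eq_mul]

theorem tcnt_bound (S : Finset ℕ) (m d : ℕ)
    (h : ∀ j < d, ∀ i < 63 ^ (d - 1 - j), ∃ r < 63, tcnt S j (63 * i + r) < m) :
    ∀ j ≤ d, ∀ i < 63 ^ (d - j), tcnt S j i + m ≤ (m + 1) * 62 ^ j := by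
  intro j
  induction j with
  | zero =>
    intro _ i _
    have h1 : tcnt S 0 i ≤ 1 := by
      unfold tcnt
      rw [card_le_one]
      intro a ha b hb
      rw [mem_filter] at ha hb
      simp only [pow_zero, mul_one] at ha hb
      omega
    simp only [pow_zero, mul_one]
    omega
  | succ j ih =>
    intro hj i hi
    have hj' : j < d := by omega
    have e : d - 1 - j = d - (j + 1) := by omega
    obtain ⟨r, hr, hlt⟩ := h j hj' i (by rw [e]; exact hi)
    have hb : ∀ s, s < 63 → tcnt S j (63 * i + s) ≤ (m + 1) * 62 ^ j - m := by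
      intro s hs
      have h2 : 63 * i + s < 63 ^ (d - j) := by
        have e2 : d - j = (d - (j + 1)) + 1 := by omega
        rw [e2, pow_succ]
        have : i + 1 ≤ 63 ^ (d - (j + 1)) := hi
        have h3 : (i + 1) * 63 ≤ 63 ^ (d - (j + 1)) * 63 := Nat.mul_le_mul_right _ this
        omega
      have := ih (by omega) (63 * i + s) h2
      omega
    have hs := (tcnt_succ S j i).trans (sum63 (f := fun s => tcnt S j (63 * i + s)) hr hb hlt.le)
    have h62 : 1 ≤ 62 ^ j := Nat.one_le_pow _ _ (by norm_num)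
    have h5 : m + 1 ≤ (m + 1) * 62 ^ j := Nat.le_mul_of_pos_right _ h62
    rw [pow_succ, ← mul_assoc]
    omega

/-- tree lemma -/
theorem tree (cc : ℝ) (hcc : 0 < cc) (m : ℕ) : ∃ D : ℕ, ∀ d, D ≤ d → ∀ S : Finset ℕ,
    S ⊆ range (63 ^ d) → cc * 63 ^ d ≤ (S.card : ℝ) →
    ∃ j < d, ∃ i < 63 ^ (d - 1 - j), ∀ r < 63,
      m ≤ (S.filter (fun n => (63 * i + r) * 63 ^ j ≤ n ∧ n < (63 * i + r + 1) * 63 ^ j)).card := by
  obtain ⟨D, hD⟩ : ∃ D : ℕ, ((m : ℝ) + 1) / cc < (63 / 62 : ℝ) ^ D :=
    pow_unbounded_of_one_lt _ (by norm_num)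
  refine ⟨D, fun d hd S hS hc => ?_⟩
  by_contra hcon
  push Not at hcon
  have hb := tcnt_bound S m d hcon d le_rfl 0 (by positivity)
  have hcard : tcnt S d 0 = S.card := by
    unfold tcnt
    rw [filter_true_of_mem]
    intro n hn
    have := mem_range.1 (hS hn)
    constructor
    · simp
    · simpa using this
  rw [hcard] at hb
  have h1 : (S.card : ℝ) ≤ ((m : ℝ) + 1) * 62 ^ d := by
    have : S.card ≤ (m + 1) * 62 ^ d := by omega
    exact_mod_cast this
  have h2 : (63 / 62 : ℝ) ^ D ≤ (63 / 62 : ℝ) ^ d := pow_le_pow_right₀ (by norm_num) hd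
  have h3 : ((m : ℝ) + 1) / cc < (63 / 62 : ℝ) ^ d := lt_of_lt_of_le hD h2
  rw [div_pow, div_lt_div_iff₀ hcc (by positivity)] at h3
  linarith

end Pool.Agent.FPZ
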