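import Pool.Agent.FPZ.Defs
import Pool.Agent.FPP.TRA

/-!
Module TRF1: the passage time `Fv` of the periodic environment with the two letters `a`, `b` has the
variance of the passage time on the lattice (exactly as in the problem) for large tori.
-/

set_option autoImplicit false

noncomputable section

namespace Pool.Agent.FPZ

open Finset Pool.FPP

/-- the weights of the problem -/
def wtB (a b : ℝ) (x : Bool) : ℝ := if x = true then a else b

theorem adj_iff (x y : V) : adj x y ↔ |y.1 - x.1| + |y.2 - x.2| = 1 := by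
  constructor
  · rintro ⟨e, he⟩
    have he' : (e.1 = x ∧ traHd e = y) ∨ (traHd e = x ∧ e.1 = y) := by
      rcases he with ⟨h1, h2⟩ | ⟨h1, h2⟩
      · exact Or.inl ⟨h1, h2⟩
      · exact Or.inr ⟨h2, h1⟩
    exact (tra_step_conv he').1
  · intro h
    obtain ⟨e, he, _⟩ := tra_step h
    refine ⟨e, ?_⟩
    rcases he with ⟨h1, h2⟩ | ⟨h1, h2⟩
    · exact Or.inl ⟨h1, h2⟩
    · exact Or.inr ⟨h2, h1⟩

theorem traR_traO (N : ℕ) (x y : V) : traR N (traO x y) = red N (edg x y) := by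
  unfold traR traO red edg redV
  by_cases h : x.2 = y.2 <;> simp [h]

theorem Fv_eq_lattice {N : ℕ} [NeZero N] (a b : ℝ) (v : V) (ω : Ix N → Bool) :
    Fv (wtB a b) v ω = latticeDist a b v (fun e => ω (traR N e)) := by
  unfold Fv dst latticeDist
  congr 1
  ext t
  constructor
  · rintro ⟨n, p, ⟨h0, hn, h⟩, rfl⟩
    refine ⟨n, p, h0, hn, fun k hk => (adj_iff _ _).1 (h k hk), ?_⟩
    unfold cost
    rw [← Finset.range_eq_Ico]
    apply Finset.sum_congr rfl
    intro k _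
    exact congrArg (wtB a b) (congrArg ω (traR_traO N (p k) (p (k + 1))).symm)
  · rintro ⟨n, p, h0, hn, h, rfl⟩
    refine ⟨n, p, ⟨h0, hn, fun k hk => (adj_iff _ _).2 (h k hk)⟩, ?_⟩
    unfold cost
    rw [← Finset.range_eq_Ico]
    apply Finset.sum_congr rfl
    intro k _
    exact congrArg (wtB a b) (congrArg ω (traR_traO N (p k) (p (k + 1))))

theorem lattice_var_eq (a b : ℝ) (ha : 0 < a) (hab : a < b) (v : V) :
    ∃ N₀ : ℕ, ∀ (N : ℕ) [NeZero N], N₀ ≤ N →
      latticeVar a b v =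
        Ex (fun ω : Ix N → Bool => (Fv (wtB a b) v ω - Ex (Fv (N := N) (wtB a b) v)) ^ 2) := by
  obtain ⟨N₁, h1⟩ := transfer a b ha hab v
  set K := v.1.natAbs + v.2.natAbs with hK
  set m := ⌈b * (K : ℝ) / a⌉₊ + K with hmdef
  have hm : b * ((v.1.natAbs + v.2.natAbs : ℕ) : ℝ) < a * ((m : ℝ) + 1) := by
    have h1 : b * (K : ℝ) / a ≤ ⌈b * (K : ℝ) / a⌉₊ := Nat.le_ceil _
    have h2 : ((⌈b * (K : ℝ) / a⌉₊ : ℕ) : ℝ) ≤ (m : ℝ) := by
      exact_mod_cast (by omega : ⌈b * (K : ℝ) / a⌉₊ ≤ m)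
    have h3 : b * (K : ℝ) / a < (m : ℝ) + 1 := by linarith
    rw [div_lt_iff₀ ha] at h3
    rw [← hK]
    linarith
  refine ⟨max N₁ (2 * m + 1), fun N _ hN => ?_⟩
  have hN1 : N₁ ≤ N := (le_max_left _ _).trans hN
  have hN2 : 2 * m + 1 ≤ N := (le_max_right _ _).trans hN
  rw [h1 N hN1]
  have hF : Fv (N := N) (wtB a b) v = FF a b (redV N v) 0 := by
    funext ω
    rw [Fv_eq_lattice]
    exact tra_dist_eq ha hab v N m hm (by omega) (by omega) _ ω (fun e _ _ => rfl)
  rw [hF]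

end Pool.Agent.FPZ
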