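import Pool.Agent.FPZ.TRF1

/-!
Module TRF2: perturbation of the weights.  `wtD a b δ K (x, i) = wtB a b x + δ i / K` on the alphabet
`Bool × Fin K`.  The passage times differ by at most `(δ/a) b |v|₁`, so the variance for the two letters
`a`, `b` is at most twice the variance for the perturbed weights, plus `2 ((δ/a) b |v|₁)²`.
-/

set_option autoImplicit false

noncomputable section

namespace Pool.Agent.FPZ

open Finset Pool.FPP

/-- the perturbed weights -/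
def wtD (a b δ : ℝ) (K : ℕ) (x : Bool × Fin K) : ℝ := wtB a b x.1 + δ * ((x.2 : ℕ) : ℝ) / K

theorem trf_path (A : E → ℝ) (x y : V) : ∃ (n : ℕ) (p : ℕ → V), IsPath n p x y ∧
    n = (y.1 - x.1).natAbs + (y.2 - x.2).natAbs ∧ cost A 0 n p = cost A 0 n p := by
  obtain ⟨l, hl, hn⟩ := tra_straight _ x y rfl
  obtain ⟨p, h0, h1, h2, _⟩ := tra_walk_to_path (fun _ => (0 : ℝ)) hl
  exact ⟨l.length, p, ⟨h0, h1, fun k hk => (adj_iff _ _).2 (h2 k hk)⟩, hn, rfl⟩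

theorem trf_cost_nonneg {A : E → ℝ} (h0 : ∀ e, 0 ≤ A e) (i j : ℕ) (p : ℕ → V) :
    0 ≤ cost A i j p := Finset.sum_nonneg fun _ _ => h0 _

theorem trf_dst_le {A : E → ℝ} (h0 : ∀ e, 0 ≤ A e) {n : ℕ} {p : ℕ → V} {x y : V}
    (h : IsPath n p x y) : dst A x y ≤ cost A 0 n p := by
  refine csInf_le ⟨0, ?_⟩ ⟨n, p, h, rfl⟩
  rintro t ⟨n, p, _, rfl⟩
  exact trf_cost_nonneg h0 _ _ _

theorem trf_dst_nonneg {A : E → ℝ} (h0 : ∀ e, 0 ≤ A e) (x y : V) : 0 ≤ dst A x y := by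
  refine le_csInf ?_ ?_
  · obtain ⟨n, p, h, _, _⟩ := trf_path A x y
    exact ⟨_, n, p, h, rfl⟩
  · rintro t ⟨n, p, _, rfl⟩
    exact trf_cost_nonneg h0 _ _ _

theorem trf_dst_mul {A A' : E → ℝ} {c : ℝ} (hc : 0 < c) (h0 : ∀ e, 0 ≤ A e)
    (h : ∀ e, A e ≤ c * A' e) (x y : V) : dst A x y ≤ c * dst A' x y := by
  have h1 : dst A x y / c ≤ dst A' x y := by
    refine le_csInf ?_ ?_
    · obtain ⟨n, p, h, _, _⟩ := trf_path A' x y
      exact ⟨_, n, p, h, rfl⟩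
    · rintro t ⟨n, p, hp, rfl⟩
      rw [div_le_iff₀ hc]
      refine (trf_dst_le h0 hp).trans ?_
      unfold cost
      rw [mul_comm, Finset.mul_sum]
      exact Finset.sum_le_sum fun k _ => h _
  rw [div_le_iff₀ hc] at h1
  linarith

theorem trf_dst_le_nrm {A : E → ℝ} {b : ℝ} (h0 : ∀ e, 0 ≤ A e) (hb : ∀ e, A e ≤ b) (x y : V) :
    dst A x y ≤ b * (((y.1 - x.1).natAbs + (y.2 - x.2).natAbs : ℕ) : ℝ) := by
  obtain ⟨n, p, hp, hn, _⟩ := trf_path A x y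
  refine (trf_dst_le h0 hp).trans ?_
  unfold cost
  calc ∑ k ∈ Ico 0 n, A (edg (p k) (p (k + 1))) ≤ ∑ _k ∈ Ico 0 n, b :=
        Finset.sum_le_sum fun k _ => hb _
    _ = b * (((y.1 - x.1).natAbs + (y.2 - x.2).natAbs : ℕ) : ℝ) := by
        rw [Finset.sum_const, Nat.card_Ico, nsmul_eq_mul, Nat.sub_zero, hn]
        ring

/-- the difference of the passage times -/
theorem trf_Fv_diff {N : ℕ} [NeZero N] {a b δ : ℝ} {K : ℕ} (ha : 0 < a) (hab : a ≤ b) (hδ : 0 ≤ δ)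
    (hK : 0 < K) (v : V) (ω : Ix N → Bool × Fin K) :
    |Fv (wtB a b) v (fun i => (ω i).1) - Fv (wtD a b δ K) v ω| ≤
      δ / a * (b * ((v.1.natAbs + v.2.natAbs : ℕ) : ℝ)) := by
  set A' : E → ℝ := env (wtB a b) (fun i => (ω i).1) with hA'
  set A : E → ℝ := env (wtD a b δ K) ω with hA
  have hK' : (0 : ℝ) < K := by exact_mod_cast hK
  have hB : ∀ x, a ≤ wtB a b x ∧ wtB a b x ≤ b := by
    intro x
    unfold wtB
    split_ifs
    · exact ⟨le_rfl, hab⟩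
    · exact ⟨hab, le_rfl⟩
  have h1 : ∀ e, a ≤ A' e ∧ A' e ≤ b := fun e => hB _
  have h2 : ∀ e, A' e ≤ A e := by
    intro e
    have : 0 ≤ δ * (((ω (red N e)).2 : ℕ) : ℝ) / K := by positivity
    simp only [hA, hA', env, wtD]
    linarith
  have h3 : ∀ e, A e ≤ (1 + δ / a) * A' e := by
    intro e
    have h4 : δ * (((ω (red N e)).2 : ℕ) : ℝ) / K ≤ δ := by
      rw [div_le_iff₀ hK']
      have : (((ω (red N e)).2 : ℕ) : ℝ) ≤ K := by exact_mod_cast (ω (red N e)).2.2.le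
      exact mul_le_mul_of_nonneg_left this hδ
    have h5 : δ ≤ δ / a * A' e := by
      rw [div_mul_eq_mul_div, le_div_iff₀ ha]
      exact mul_le_mul_of_nonneg_left (h1 e).1 hδ
    have h6 : A e = A' e + δ * (((ω (red N e)).2 : ℕ) : ℝ) / K := rfl
    rw [h6]
    linarith
  have hA0' : ∀ e, 0 ≤ A' e := fun e => ha.le.trans (h1 e).1
  have hA0 : ∀ e, 0 ≤ A e := fun e => (hA0' e).trans (h2 e)
  have h7 : dst A' 0 v ≤ dst A 0 v := by
    have := trf_dst_mul (A := A') (A' := A) (c := 1) one_pos hA0' (fun e => by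
      rw [one_mul]; exact h2 e) 0 v
    linarith
  have h8 : dst A 0 v ≤ (1 + δ / a) * dst A' 0 v :=
    trf_dst_mul (by positivity) hA0 h3 0 v
  have h9 : dst A' 0 v ≤ b * ((v.1.natAbs + v.2.natAbs : ℕ) : ℝ) := by
    have := trf_dst_le_nrm hA0' (fun e => (h1 e).2) 0 v
    simpa using this
  have h10 : δ / a * dst A' 0 v ≤ δ / a * (b * ((v.1.natAbs + v.2.natAbs : ℕ) : ℝ)) :=
    mul_le_mul_of_nonneg_left h9 (by positivity)
  have h11 : Fv (wtB a b) v (fun i => (ω i).1) = dst A' 0 v := rfl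
  have h12 : Fv (wtD a b δ K) v ω = dst A 0 v := rfl
  rw [h11, h12, abs_sub_le_iff]
  constructor
  · have : 0 ≤ δ / a * (b * ((v.1.natAbs + v.2.natAbs : ℕ) : ℝ)) := by
      have : 0 ≤ b := ha.le.trans hab
      positivity
    linarith
  · linarith

/-- variance is the minimal second moment -/
theorem trf_var_le {Ω : Type*} [Fintype Ω] [Nonempty Ω] (X : Ω → ℝ) (c : ℝ) :
    Ex (fun ω => (X ω - Ex X) ^ 2) ≤ Ex (fun ω => (X ω - c) ^ 2) := by
  have h1 : Ex (fun ω => (X ω - c) ^ 2) = Ex (fun ω => (X ω - Ex X) ^ 2) + (Ex X - c) ^ 2 := by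
    have : (fun ω => (X ω - c) ^ 2) = fun ω => (X ω - Ex X) ^ 2 +
        (2 * (Ex X - c) * (X ω - Ex X) + (Ex X - c) ^ 2) := by
      funext ω; ring
    rw [this, Ex_add, Ex_add, Ex_mul_left, Ex_sub, Ex_const, Ex_const]
    ring
  rw [h1]
  linarith [sq_nonneg (Ex X - c)]

theorem trf_var_pert {Ω : Type*} [Fintype Ω] [Nonempty Ω] (X Y : Ω → ℝ) {η : ℝ}
    (h : ∀ ω, |X ω - Y ω| ≤ η) :
    Ex (fun ω => (X ω - Ex X) ^ 2) ≤ 2 * Ex (fun ω => (Y ω - Ex Y) ^ 2) + 2 * η ^ 2 := by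
  refine (trf_var_le X (Ex Y)).trans ?_
  have h1 : Ex (fun ω => (X ω - Ex Y) ^ 2) ≤
      Ex (fun ω => 2 * (Y ω - Ex Y) ^ 2 + 2 * η ^ 2) := by
    refine Ex_mono fun ω => ?_
    have h2 : (X ω - Y ω) ^ 2 ≤ η ^ 2 := by
      rw [← sq_abs (X ω - Y ω)]
      exact pow_le_pow_left₀ (abs_nonneg _) (h ω) 2
    nlinarith [sq_nonneg ((Y ω - Ex Y) - (X ω - Y ω))]
  rw [Ex_add, Ex_mul_left, Ex_const] at h1
  exact h1

/-- marginal law -/
theorem trf_marg {ι α κ : Type*} [Fintype ι] [DecidableEq ι] [Fintype α] [Fintype κ] [Nonempty κ]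
    (f : (ι → α) → ℝ) : Ex (fun ω : ι → α × κ => f (fun i => (ω i).1)) = Ex f := by
  have h := Ex_equiv (Equiv.arrowProdEquivProdArrow ι (fun _ => α) (fun _ => κ))
    (fun z : (ι → α) × (ι → κ) => f z.1)
  rw [Ex_prod] at h
  have h2 : (fun x : ι → α => Ex (fun _ : ι → κ => f x)) = f := by
    funext x
    exact Ex_const _
  rw [h2] at h
  exact h

theorem trf_var_marg {ι α κ : Type*} [Fintype ι] [DecidableEq ι] [Fintype α] [Fintype κ]
    [Nonempty κ] (f : (ι → α) → ℝ) :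
    Ex (fun ω : ι → α × κ => (f (fun i => (ω i).1) -
      Ex (fun ω : ι → α × κ => f (fun i => (ω i).1))) ^ 2) = Ex (fun ω => (f ω - Ex f) ^ 2) := by
  rw [trf_marg f]
  exact trf_marg (fun ω => (f ω - Ex f) ^ 2)

/-- the variance for the two letters is bounded by the variance for the perturbed weights -/
theorem trf_var {N : ℕ} [NeZero N] {a b δ : ℝ} {K : ℕ} (ha : 0 < a) (hab : a ≤ b) (hδ : 0 ≤ δ)
    (hK : 0 < K) (v : V) :
    Ex (fun ω : Ix N → Bool => (Fv (wtB a b) v ω - Ex (Fv (N := N) (wtB a b) v)) ^ 2) ≤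
      2 * Ex (fun ω : Ix N → Bool × Fin K => (Fv (wtD a b δ K) v ω -
        Ex (Fv (N := N) (wtD a b δ K) v)) ^ 2) +
      2 * (δ / a * (b * ((v.1.natAbs + v.2.natAbs : ℕ) : ℝ))) ^ 2 := by
  have : Nonempty (Fin K) := ⟨⟨0, hK⟩⟩
  rw [← trf_var_marg (κ := Fin K) (Fv (N := N) (wtB a b) v)]
  exact trf_var_pert _ _ (trf_Fv_diff ha hab hδ hK v)

end Pool.Agent.FPZ
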