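import Pool.Agent.FPZ.TRF2
import Pool.Agent.FPZ.PrL

/-!
Module TRF3: the environment with the perturbed weights is generic in the box with probability
tending to `1` when `K → ∞`.
-/

set_option autoImplicit false

noncomputable section

namespace Pool.Agent.FPZ

open Finset Pool.FPP Pool.Agent.FPZ.PL

/-- the edges with base point in the box -/
def trfB (Q : ℤ) : Finset E := (Icc (-Q) Q ×ˢ Icc (-Q) Q) ×ˢ univ

theorem mem_trfB (Q : ℤ) (e : E) : e ∈ trfB Q ↔ inBox Q e.1 := by
  unfold trfB inBox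
  simp only [mem_product, mem_Icc, mem_univ, and_true, abs_le]

theorem trf_red_inj {N : ℕ} {Q : ℤ} (hN : 2 * Q < (N : ℤ)) {e e' : E} (he : inBox Q e.1)
    (he' : inBox Q e'.1) (h : red N e = red N e') : e = e' := by
  obtain ⟨⟨x1, x2⟩, d⟩ := e
  obtain ⟨⟨y1, y2⟩, d'⟩ := e'
  unfold inBox at he he'
  simp only [abs_le] at he he'
  simp only [red, Prod.mk.injEq] at h
  have h1 := tra_int_eq (N := N) (m := Q.toNat) (by omega) (by omega) (by omega) h.1.1
  have h2 := tra_int_eq (N := N) (m := Q.toNat) (by omega) (by omega) (by omega) h.1.2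
  rw [h1, h2, h.2]

/-- marginal law of one coordinate -/
theorem trf_coord {ι α : Type} [Fintype ι] [DecidableEq ι] [Fintype α] [Nonempty α] (i : ι)
    (h : α → ℝ) : Ex (fun η : ι → α => h (η i)) = Ex h := by
  have h1 := Ex_equiv (Equiv.piSplitAt i (fun _ => α)) (fun z => h z.1)
  rw [Ex_prod] at h1
  have h2 : (fun x : α => Ex (fun _ : ({j // j ≠ i} → α) => h x)) = h := by
    funext x
    exact Ex_const _
  rw [h2] at h1
  exact h1

/-- if `s` holds then the letter at `i` has a weight determined by the other coordinates -/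
theorem trf_one {ι α : Type} [Fintype ι] [DecidableEq ι] [Fintype α] [Nonempty α] (i : ι)
    (wt : α → ℝ) (g : (ι → α) → ℝ) (hg : ∀ ω x, g (Function.update ω i x) = g ω) {c : ℝ}
    (hc : ∀ y, Pr (fun x : α => wt x = y) ≤ c) :
    Pr (fun ω : ι → α => wt (ω i) = g ω) ≤ c := by
  refine Pr_le_of_PrC {i} fun o => ?_
  unfold PrC
  have h1 : ∀ η : ι → α, (wt (mix {i} η o i) = g (mix {i} η o)) ↔ wt (η i) = g o := by
    intro η
    have e1 : mix {i} η o = Function.update o i (η i) := by
      funext j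
      unfold mix
      by_cases h : j = i
      · subst h; simp
      · simp [h]
    rw [e1, hg]
    simp
  rw [Pr_congr h1]
  refine le_trans (le_of_eq ?_) (hc (g o))
  unfold Pr
  classical
  have := trf_coord i (fun x : α => if wt x = g o then (1 : ℝ) else 0)
  exact this

theorem trf_wtD_point {a b δ : ℝ} {K : ℕ} (hδ : 0 < δ) (hK : 0 < K) (y : ℝ) :
    Pr (fun x : Bool × Fin K => wtD a b δ K x = y) ≤ 1 / K := by
  classical
  have hK' : (0 : ℝ) < K := by exact_mod_cast hK
  rw [Pr_card]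
  have hinj : ∀ (β : Bool) (i j : Fin K), wtD a b δ K (β, i) = wtD a b δ K (β, j) → i = j := by
    intro β i j h
    unfold wtD at h
    simp only at h
    have h1 : δ * ((i : ℕ) : ℝ) / K = δ * ((j : ℕ) : ℝ) / K := by linarith
    rw [div_left_inj' hK'.ne', mul_right_inj' hδ.ne'] at h1
    exact Fin.ext (by exact_mod_cast h1)
  have hcard : (univ.filter (fun x : Bool × Fin K => wtD a b δ K x = y)).card ≤ 2 := by
    have h2 : ((univ.filter (fun x : Bool × Fin K => wtD a b δ K x = y)).image Prod.fst).card ≤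
        2 := by
      refine (card_le_univ _).trans (by simp)
    rw [card_image_of_injOn] at h2
    · exact h2
    · rintro ⟨β, i⟩ h1 ⟨β', j⟩ h2 h3
      simp only [coe_filter, mem_univ, true_and, Set.mem_setOf_eq] at h1 h2 h3
      subst h3
      rw [hinj β i j (h1.trans h2.symm)]
  rw [Fintype.card_prod, Fintype.card_bool, Fintype.card_fin]
  rw [div_le_div_iff₀ (by positivity) hK']
  have h3 : (((univ.filter (fun x : Bool × Fin K => wtD a b δ K x = y)).card : ℕ) : ℝ) ≤ 2 := by
    exact_mod_cast hcard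
  push_cast
  nlinarith

/-- two different sets of edges have the same weight with small probability -/
theorem trf_pair {N : ℕ} [NeZero N] {a b δ : ℝ} {K : ℕ} (hδ : 0 < δ) (hK : 0 < K) {Q : ℤ}
    (hN : 2 * Q < (N : ℤ)) {S S' : Finset E} (hS : ∀ e ∈ S, inBox Q e.1)
    (hS' : ∀ e ∈ S', inBox Q e.1) {e₀ : E} (h1 : e₀ ∈ S) (h2 : e₀ ∉ S') :
    Pr (fun ω : Ix N → Bool × Fin K => ∑ e ∈ S, env (wtD a b δ K) ω e =
      ∑ e ∈ S', env (wtD a b δ K) ω e) ≤ 1 / K := by
  classical
  have : Nonempty (Fin K) := ⟨⟨0, hK⟩⟩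
  refine le_trans (Pr_mono (t := fun ω : Ix N → Bool × Fin K =>
    wtD a b δ K (ω (red N e₀)) = ∑ e ∈ S', env (wtD a b δ K) ω e -
      ∑ e ∈ S.erase e₀, env (wtD a b δ K) ω e) ?_) ?_
  · intro ω h
    rw [← add_sum_erase S _ h1] at h
    have : env (wtD a b δ K) ω e₀ = wtD a b δ K (ω (red N e₀)) := rfl
    rw [this] at h
    linarith
  · apply trf_one (red N e₀) (wtD a b δ K)
    · intro ω x
      have hoff : ∀ e : E, inBox Q e.1 → e ≠ e₀ →
          env (wtD a b δ K) (Function.update ω (red N e₀) x) e = env (wtD a b δ K) ω e := by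
        intro e he hne
        unfold env
        rw [Function.update_of_ne]
        intro h
        exact hne (trf_red_inj hN he (hS e₀ h1) h)
      congr 1
      · apply sum_congr rfl
        intro e he
        exact hoff e (hS' e he) (fun h => h2 (h ▸ he))
      · apply sum_congr rfl
        intro e he
        exact hoff e (hS e (mem_of_mem_erase he)) (ne_of_mem_erase he)
    · exact trf_wtD_point hδ hK

theorem trf_gen {N : ℕ} [NeZero N] {a b δ : ℝ} {K : ℕ} (hδ : 0 < δ) (hK : 0 < K) {Q : ℤ}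
    (hN : 2 * Q < (N : ℤ)) :
    Pr (fun ω : Ix N → Bool × Fin K => ¬ Gen Q (env (wtD a b δ K) ω)) ≤
      (((trfB Q).powerset ×ˢ (trfB Q).powerset).card : ℝ) / K := by
  classical
  have : Nonempty (Fin K) := ⟨⟨0, hK⟩⟩
  refine le_trans (Pr_mono (t := fun ω : Ix N → Bool × Fin K =>
    ∃ z ∈ (trfB Q).powerset ×ˢ (trfB Q).powerset, z.1 ≠ z.2 ∧
      ∑ e ∈ z.1, env (wtD a b δ K) ω e = ∑ e ∈ z.2, env (wtD a b δ K) ω e) ?_) ?_
  · intro ω h
    unfold Gen at h
    push Not at h
    obtain ⟨S, S', hS, hS', he, hne⟩ := h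
    refine ⟨(S, S'), ?_, hne, he⟩
    rw [mem_product, mem_powerset, mem_powerset]
    exact ⟨fun e he => (mem_trfB Q e).2 (hS e he), fun e he => (mem_trfB Q e).2 (hS' e he)⟩
  · refine (Pr_exists_le _ _).trans ?_
    rw [div_eq_mul_one_div, ← nsmul_eq_mul, ← sum_const]
    apply sum_le_sum
    rintro ⟨S, S'⟩ hz
    rw [mem_product, mem_powerset, mem_powerset] at hz
    have hS : ∀ e ∈ S, inBox Q e.1 := fun e he => (mem_trfB Q e).1 (hz.1 he)
    have hS' : ∀ e ∈ S', inBox Q e.1 := fun e he => (mem_trfB Q e).1 (hz.2 he)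
    by_cases hne : S = S'
    · subst hne
      refine le_trans (Pr_mono (t := fun _ => False) fun ω h => h.1 rfl) ?_
      rw [Pr_false]
      positivity
    · have : (∃ e, e ∈ S ∧ e ∉ S') ∨ ∃ e, e ∈ S' ∧ e ∉ S := by
        by_contra hcon
        push Not at hcon
        exact hne (Subset.antisymm hcon.1 hcon.2)
      rcases this with ⟨e₀, h1, h2⟩ | ⟨e₀, h1, h2⟩
      · exact le_trans (Pr_mono fun ω h => h.2) (trf_pair hδ hK hN hS hS' h1 h2)
      · exact le_trans (Pr_mono fun ω h => h.2.symm) (trf_pair hδ hK hN hS' hS h1 h2)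

end Pool.Agent.FPZ
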