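import Pool.Agent.FPZ.WA
import Pool.Agent.FPZ.Q4MovP
import Pool.Agent.FPZ.SHC
import Pool.Agent.FPZ.LIN

/-!
# W1, second half: meetings after the rotation by one unit

`meetB_of`: near additivity of the passage time in the window, with at least `q` non-degenerate blocks
in every strip LEFT and RIGHT, and few visits of the geodesic per column compared with `d / b`, implies
`MeetB`.  The strip `[α, β)` that is rotated is chosen with few crossings of its two boundary lines; the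
rotation then changes the passage time by at most `d / 16`, up to a small probability.
-/

set_option autoImplicit false

noncomputable section

namespace Pool.Agent.FPZ

open Finset Pool.FPP Pool.Agent.FPZ.PL

section

variable {N : ℕ} [NeZero N] {Al : Type} [Fintype Al] [Nonempty Al]

/-- the rotation changes the passage time by a small amount, up to a small probability -/
theorem wb_close (W : Win N Al) {α β : ℤ} (h0 : 0 < α) (h1 : α ≤ β) (h2 : β < col W.v)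
    (hsub : blkI N α β ⊆ W.B) {κ A d : ℝ} (hκ : 1 ≤ κ) (hA : 0 < A) (hb : 0 ≤ W.b)
    (hα : av W.B (fun ω => (vis α (α + 2) (Gn W.wt W.v ω) (Gp W.wt W.v ω) : ℝ)) W.o ≤ 2 * κ)
    (hβ : av W.B (fun ω => (vis β (β + 2) (Gn W.wt W.v ω) (Gp W.wt W.v ω) : ℝ)) W.o ≤ 2 * κ)
    (hd : 3 * W.b * A + 6 * W.b ≤ d / 16) :
    Pr (fun ξ : Ix N → Al =>
      d / 16 < |Fv W.wt W.v (rotC α β (W.M ξ)) - Fv W.wt W.v (W.M ξ)|) ≤ 8 * κ / A := by
  classical
  have hκ0 : 0 ≤ κ := by linarith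
  set Z : (Ix N → Al) → ℝ := fun ξ =>
    (vis α (α + 2) (Gn W.wt W.v (W.M ξ)) (Gp W.wt W.v (W.M ξ)) : ℝ) +
      vis β (β + 2) (Gn W.wt W.v (W.M ξ)) (Gp W.wt W.v (W.M ξ)) with hZ
  have hZn : ∀ ξ, 0 ≤ Z ξ := fun ξ => by rw [hZ]; positivity
  have hZe : Ex Z ≤ 4 * κ := by
    have h : Ex Z = av W.B (fun ω => (vis α (α + 2) (Gn W.wt W.v ω) (Gp W.wt W.v ω) : ℝ)) W.o +
        av W.B (fun ω => (vis β (β + 2) (Gn W.wt W.v ω) (Gp W.wt W.v ω) : ℝ)) W.o := by
      rw [hZ]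
      exact Ex_add _ _
    rw [h]
    linarith
  have hmix : ∀ ξ : Ix N → Al, rotC α β (W.M ξ) = W.M (rotC α β ξ) := fun ξ =>
    (q4_mix_shift W.B (blkI N α β) hsub 1 W.hBcol ξ W.o).symm
  have hP1 : Pr (fun ξ => A ≤ Z ξ) ≤ 4 * κ / A :=
    (Pr_markov hA hZn).trans (div_le_div_of_nonneg_right hZe hA.le)
  have hP2 : Pr (fun ξ => A ≤ Z (rotC α β ξ)) ≤ 4 * κ / A :=
    (le_of_eq (q4_Pr_shift (blkI N α β) 1 (q4_blkI_col α β) (fun ξ => A ≤ Z ξ))).trans hP1
  have hor : Pr (fun ξ : Ix N → Al =>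
      d / 16 < |Fv W.wt W.v (rotC α β (W.M ξ)) - Fv W.wt W.v (W.M ξ)|) ≤
      Pr (fun ξ => A ≤ Z ξ ∨ A ≤ Z (rotC α β ξ)) := by
    refine Pr_mono fun ξ hξ => ?_
    by_contra hc
    push Not at hc
    obtain ⟨hc1, hc2⟩ := hc
    have hup := shc_up (N := N) W.ha W.hwt W.hQ W.hbox h0 h1 h2 (W.M ξ)
    have hdn := shc_dn (N := N) W.ha W.hwt W.hQ W.hbox h0 h1 h2 (W.M ξ)
    have e1 : (3 * W.b * ((vis α (α + 2) (Gn W.wt W.v (W.M ξ)) (Gp W.wt W.v (W.M ξ)) : ℝ) +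
      vis β (β + 2) (Gn W.wt W.v (W.M ξ)) (Gp W.wt W.v (W.M ξ)))) ≤ 3 * W.b * A :=
      mul_le_mul_of_nonneg_left hc1.le (by positivity)
    have e2 : (3 * W.b * ((vis α (α + 2) (Gn W.wt W.v (rotC α β (W.M ξ)))
        (Gp W.wt W.v (rotC α β (W.M ξ))) : ℝ) +
        vis β (β + 2) (Gn W.wt W.v (rotC α β (W.M ξ))) (Gp W.wt W.v (rotC α β (W.M ξ))))) ≤
        3 * W.b * A := by
      rw [hmix]
      exact mul_le_mul_of_nonneg_left hc2.le (by positivity)
    have h3 : |Fv W.wt W.v (rotC α β (W.M ξ)) - Fv W.wt W.v (W.M ξ)| ≤ d / 16 := by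
      rw [abs_le]
      constructor <;> linarith
    exact absurd hξ (not_lt.2 h3)
  refine hor.trans ((Pr_or _ _).trans ?_)
  have : 8 * κ / A = 4 * κ / A + 4 * κ / A := by ring
  rw [this]
  exact add_le_add hP1 hP2

end

/-- **MeetB.**  As `meetA_of`, with the approximation at the level `d / 16`, and with a bound `κ` for the
mean number of visits per column: `C b κ ≤ d`. -/
theorem meetB_of (c0 : ℝ) (hc0 : 0 < c0) (ep : ℝ) (hep : 0 < ep) : ∃ (q : ℕ) (C : ℝ), 0 ≤ C ∧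
    ∀ (N : ℕ) [NeZero N] (Al : Type) [Fintype Al] [Nonempty Al] (W : Win N Al) (R : ℕ)
      (blk : Fin R → Finset (Ix N)), (∀ m m', m ≠ m' → Disjoint (blk m) (blk m')) →
      ∀ φ : Fin R → (Ix N → Al) → ℝ,
      (∀ m x y, (∀ i ∈ blk m, x i = y i) → φ m x = φ m y) →
      ∀ (S : Finset (Fin R)) (d f0 E : ℝ), 0 < d →
      (∀ m ∈ S, ∀ x : ℝ, Pr (fun ξ => |φ m ξ - x| ≤ d) ≤ 1 - c0) →
      Pr (fun ξ => d / 16 < |Fv W.wt W.v (W.M ξ) - f0 - ∑ m, φ m ξ|) ≤ E →
      (∀ k : ℤ, 0 ≤ k → k ≤ 8 → ∀ s : ℤ, (s = 1 ∨ s = 5) →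
        ∃ K : Finset (Fin R), K ⊆ S ∧ q ≤ K.card ∧ ∀ m ∈ K, blk m ⊆ W.part k s) →
      ∀ (x0 X1 : ℤ) (κ : ℝ), x0 ≤ W.x → W.x + 63 * W.L ≤ X1 → 1 ≤ κ →
      av W.B (fun ω => (vis x0 X1 (Gn W.wt W.v ω) (Gp W.wt W.v ω) : ℝ)) W.o ≤ κ * W.L →
      C * (W.b * κ) ≤ d →
      W.MeetB (ep + C * E) := by
  obtain ⟨q, Cm, hCm, hmeet⟩ := meeting c0 hc0 (ep / 2) (by positivity)
  -- constants
  set A0 : ℝ := 16 * (Cm + 1) / ep with hA0
  have hA0pos : 0 < A0 := by positivity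
  refine ⟨q, 2 * Cm + 48 * (A0 + 2), by positivity, ?_⟩
  intro N _ Al _ _ W R blk hblk φ hφ S d f0 E hd hS hE hK x0 X1 κ hx0 hX1 hκ hvis hCd k hk1 hk7
  classical
  have hL := W.hL
  have hLpos : (0 : ℤ) < W.L := by linarith
  have hLr : (0 : ℝ) < (W.L : ℝ) := by exact_mod_cast hLpos
  have hx := W.hx
  have hv := W.hv
  have hb0 : 0 < W.b := by
    obtain ⟨l⟩ := (inferInstance : Nonempty Al)
    exact lt_of_lt_of_le W.ha ((W.hwt l).1.trans (W.hwt l).2)
  have hE0 : 0 ≤ E := (Pr_nonneg _).trans hE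
  -- the lines
  obtain ⟨α, hα1, hα2, hα3⟩ := lin W.wt W.v W.B W.o x0 X1 (W.lo k - W.L) W.L (κ * W.L) hvis
    (by unfold Win.lo; nlinarith) hLpos (by unfold Win.lo; nlinarith)
  obtain ⟨β, hβ1, hβ2, hβ3⟩ := lin W.wt W.v W.B W.o x0 X1 (W.hi k) W.L (κ * W.L) hvis
    (by unfold Win.hi; nlinarith) hLpos (by unfold Win.hi; nlinarith)
  have hcan : 2 * (κ * (W.L : ℝ)) / W.L = 2 * κ := by field_simp
  rw [hcan] at hα3 hβ3
  have hlohi : W.lo k ≤ W.hi k := by unfold Win.lo Win.hi; nlinarith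
  refine ⟨α, β, hα1, by linarith, hβ1, by linarith, ?_⟩
  intro s hs
  obtain ⟨K, hKS, hKq, hKp⟩ := hK k (by linarith) (by linarith) s hs
  -- inclusions
  have hpart : W.part k s ⊆ blkI N α β := by
    unfold Win.part
    rcases hs with rfl | rfl
    · refine blkI_mono ?_ ?_
      · unfold Win.lo at hα2; nlinarith
      · unfold Win.hi at hβ1; nlinarith
    · refine blkI_mono ?_ ?_
      · unfold Win.lo at hα2; nlinarith
      · unfold Win.hi at hβ1; nlinarith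
  have hαβ : α ≤ β := by linarith
  have hα0 : 0 < α := by unfold Win.lo at hα1; nlinarith
  have hβv : β < col W.v := by unfold Win.hi at hβ2; nlinarith
  have hsubB : blkI N α β ⊆ W.B := by
    refine Finset.Subset.trans ?_ W.hB
    refine blkI_subset_clI ?_ ?_
    · unfold Win.lo at hα1; nlinarith
    · unfold Win.hi at hβ2; nlinarith
  have hRgP : K.biUnion blk ⊆ W.part k s := biUnion_subset.2 hKp
  have hRgR : K.biUnion blk ⊆ blkI N α β := hRgP.trans hpart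
  have hRgB : K.biUnion blk ⊆ W.B := hRgR.trans hsubB
  -- splitting of the sum
  have hsplit : ∀ ξ : Ix N → Al, ∑ m, φ m ξ = ∑ m ∈ K, φ m ξ + ∑ m ∈ univ \ K, φ m ξ := by
    intro ξ
    rw [add_comm]
    exact (Finset.sum_sdiff (subset_univ K)).symm
  have hoff : ∀ m ∈ univ \ K, ∀ i ∈ blk m, i ∉ K.biUnion blk := by
    intro m hm i hi hiK
    obtain ⟨m', hm', hi'⟩ := mem_biUnion.1 hiK
    have hne : m ≠ m' := by
      rintro rfl
      exact (mem_sdiff.1 hm).2 hm'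
    exact (Finset.disjoint_left.1 (hblk m m' hne) hi) hi'
  have hcind : ∀ x y : Ix N → Al, (∀ i, i ∉ K.biUnion blk → x i = y i) →
      f0 + ∑ m ∈ univ \ K, φ m x = f0 + ∑ m ∈ univ \ K, φ m y := by
    intro x y hxy
    congr 1
    exact Finset.sum_congr rfl fun m hm => hφ m x y fun i hi => hxy i (hoff m hm i hi)
  -- the change of the passage time
  have hd16 : 3 * W.b * (A0 * κ) + 6 * W.b ≤ d / 16 := by
    have h1 : 6 * W.b ≤ 6 * (W.b * κ) := by nlinarith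
    have h2 : 48 * (A0 + 2) * (W.b * κ) ≤ d := by
      have : 0 ≤ 2 * Cm * (W.b * κ) := by positivity
      nlinarith
    nlinarith
  have hclose := wb_close W hα0 hαβ hβv hsubB hκ (A := A0 * κ) (by positivity) hb0.le hα3 hβ3 hd16
  -- the meeting lemma
  have h := hmeet (Ix N) Al (Fin R) W.wt K blk (fun m _ m' _ hne => hblk m m' hne) hKq φ
    (fun m _ => hφ m) d hd (fun m hm => hS m (hKS hm))
    (fun ω => Fv W.wt W.v (W.M ω)) (fun ω => Fv W.wt W.v (rotC α β (W.M ω)))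
    (fun ω => f0 + ∑ m ∈ univ \ K, φ m ω) (fun ω => f0 + ∑ m ∈ univ \ K, φ m ω)
    (fun ω => GI W.wt W.v (W.M ω))
    (fun ω => ((GE W.wt W.v (rotC α β (W.M ω))).image (shE (su 1))).image (red N))
    hcind hcind ?_ ?_
  · refine le_trans (Pr_mono (t := fun ω => ¬ ∃ i ∈ K.biUnion blk, i ∈ GI W.wt W.v (W.M ω) ∧
      i ∈ ((GE W.wt W.v (rotC α β (W.M ω))).image (shE (su 1))).image (red N)) ?_) (h.trans ?_)
    · rintro ω hω ⟨i, hi, h1, h2⟩
      exact hω ⟨i, hRgP hi, h1, h2⟩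
    · have hE1 : Pr (fun ω => d / 8 < |Fv W.wt W.v (W.M ω) - (f0 + ∑ m ∈ univ \ K, φ m ω) -
          ∑ m ∈ K, φ m ω|) ≤ E := by
        refine (Pr_mono fun ω hω => ?_).trans hE
        have : Fv W.wt W.v (W.M ω) - f0 - ∑ m, φ m ω =
            Fv W.wt W.v (W.M ω) - (f0 + ∑ m ∈ univ \ K, φ m ω) - ∑ m ∈ K, φ m ω := by
          rw [hsplit ω]
          ring
        rw [this]
        linarith
      have hE2 : Pr (fun ω => d / 8 < |Fv W.wt W.v (rotC α β (W.M ω)) -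
          (f0 + ∑ m ∈ univ \ K, φ m ω) - ∑ m ∈ K, φ m ω|) ≤ E + 8 * κ / (A0 * κ) := by
        have h1 : Pr (fun ω => d / 8 < |Fv W.wt W.v (rotC α β (W.M ω)) -
            (f0 + ∑ m ∈ univ \ K, φ m ω) - ∑ m ∈ K, φ m ω|) ≤
            Pr (fun ω => (d / 16 < |Fv W.wt W.v (W.M ω) - f0 - ∑ m, φ m ω|) ∨
              (d / 16 < |Fv W.wt W.v (rotC α β (W.M ω)) - Fv W.wt W.v (W.M ω)|)) := by
          refine Pr_mono fun ω hω => ?_
          by_contra hc
          push Not at hc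
          obtain ⟨hc1, hc2⟩ := hc
          have h2 : Fv W.wt W.v (rotC α β (W.M ω)) - (f0 + ∑ m ∈ univ \ K, φ m ω) -
              ∑ m ∈ K, φ m ω = (Fv W.wt W.v (W.M ω) - f0 - ∑ m, φ m ω) +
              (Fv W.wt W.v (rotC α β (W.M ω)) - Fv W.wt W.v (W.M ω)) := by
            rw [hsplit ω]
            ring
          rw [h2] at hω
          have h3 := abs_add_le (Fv W.wt W.v (W.M ω) - f0 - ∑ m, φ m ω)
            (Fv W.wt W.v (rotC α β (W.M ω)) - Fv W.wt W.v (W.M ω))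
          linarith
        exact h1.trans ((Pr_or _ _).trans (add_le_add hE hclose))
      have hAk : 8 * κ / (A0 * κ) = 8 / A0 := by
        have : κ ≠ 0 := by positivity
        field_simp
      rw [hAk] at hE2
      have hA8 : Cm * (8 / A0) ≤ ep / 2 := by
        rw [hA0]
        have h1 : Cm * (8 / (16 * (Cm + 1) / ep)) = (Cm / (Cm + 1)) * (ep / 2) := by
          field_simp
          ring
        rw [h1]
        have h2 : Cm / (Cm + 1) ≤ 1 := by
          rw [div_le_one (by positivity)]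
          linarith
        nlinarith
      have h5 : Cm * (Pr (fun ω => d / 8 < |Fv W.wt W.v (W.M ω) -
          (f0 + ∑ m ∈ univ \ K, φ m ω) - ∑ m ∈ K, φ m ω|) +
          Pr (fun ω => d / 8 < |Fv W.wt W.v (rotC α β (W.M ω)) -
          (f0 + ∑ m ∈ univ \ K, φ m ω) - ∑ m ∈ K, φ m ω|)) ≤ Cm * (E + (E + 8 / A0)) :=
        mul_le_mul_of_nonneg_left (add_le_add hE1 hE2) hCm
      have h6 : 0 ≤ 48 * (A0 + 2) * E := by positivity
      nlinarith
  · intro ω ω' h1 h2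
    refine wit_rg (v := W.v) W.ha W.hwt (K.biUnion blk) ?_ ?_
    · intro i hi
      show W.M ω' i = W.M ω i
      unfold Win.M mix
      by_cases hiB : i ∈ W.B <;> simp [hiB, h1 i hi]
    · intro i hi hiR
      have h3 := h2 i hi hiR
      show W.wt (W.M ω' i) ≤ W.wt (W.M ω i)
      unfold Win.M mix
      simp only [hRgB hiR, if_true]
      exact h3
  · intro ω ω' h1 h2
    refine wit_rot (v := W.v) W.ha W.hwt hRgR ?_ ?_
    · intro i hi
      show W.M ω' i = W.M ω i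
      unfold Win.M mix
      by_cases hiB : i ∈ W.B <;> simp [hiB, h1 i hi]
    · intro i hi hiR
      have h3 := h2 i hi hiR
      show W.wt (W.M ω' i) ≤ W.wt (W.M ω i)
      unfold Win.M mix
      simp only [hRgB hiR, if_true]
      exact h3

end Pool.Agent.FPZ
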