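import Pool.Agent.FPZ.WClaim
import Pool.Agent.FPZ.WB
import Pool.Agent.FPZ.TREE
import Pool.Agent.FPZ.PrL
import Pool.Agent.FPZ.Q4MovP
import Pool.Agent.FPZ.PA15b

/-!
# W1: the window claim

`window_claim_of`: the window claim follows from the contradiction `w2` of sections 4 to 7 (a `Win` with
`MeetA`, `MeetB` and small errors does not exist), from near equality (section 2), the meeting lemma in
the forms `meetA_of`, `meetB_of` (section 3) and the tree lemma.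
-/

set_option autoImplicit false

noncomputable section

namespace Pool.Agent.FPZ

open Finset Pool.FPP Pool.FPA

/-- statement of the contradiction of sections 4 to 7 -/
def W2Claim : Prop := ∃ ep2 : ℝ, 0 < ep2 ∧ ∀ (N : ℕ) [NeZero N] (Al : Type) [Fintype Al]
    [Nonempty Al] (W : Win N Al), W.e0 ≤ ep2 → W.MeetA ep2 → W.MeetB ep2 → False

private theorem cB_pos' : 0 < cB := by
  unfold cB cA
  positivity

private theorem c00_pos : 0 < c00 := by
  have := cB_pos'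
  unfold c00 CA
  exact lt_min (by positivity) (by positivity)

private theorem ccc_pos : 0 < ccc := by
  have := cB_pos'
  unfold ccc
  positivity

private theorem lt63 (n : ℕ) : n < 63 ^ n := Nat.lt_pow_self (by norm_num)

section

variable {N : ℕ} [NeZero N] {Al : Type} [Fintype Al] [Nonempty Al]

/-- the fine blocks of a window -/
def fine (N : ℕ) [NeZero N] (x₀ L : ℤ) (R : ℕ) (m : Fin R) : Finset (Ix N) :=
  blkI N (x₀ + ((m : ℕ) : ℤ) * L) (x₀ + (((m : ℕ) : ℤ) + 1) * L)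

theorem U_fine (x₀ L : ℤ) (hL : 0 ≤ L) (R : ℕ) :
    U (fine N x₀ L R) univ = blkI N x₀ (x₀ + R * L) := by
  rw [← blkI_biUnion x₀ L hL R]
  unfold U fine
  ext i
  simp only [Finset.mem_biUnion, Finset.mem_univ, true_and, Finset.mem_range]
  constructor
  · rintro ⟨m, hm⟩
    exact ⟨m, m.isLt, hm⟩
  · rintro ⟨m, hm, hi⟩
    exact ⟨⟨m, hm⟩, hi⟩

theorem aS_fine (wt : Al → ℝ) (v : V) (x₀ L : ℤ) (hL : 0 ≤ L) (R : ℕ) (p : ℝ) (o : Ix N → Al) :
    aS (fine N x₀ L R) (frz (U (fine N x₀ L R) univ) o (Fv wt v)) p = aW wt v x₀ L R p o := by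
  rw [aS_frz, U_fine x₀ L hL R]
  unfold aW
  rw [Finset.sum_range]
  rfl

theorem bS_fine (wt : Al → ℝ) (v : V) (x₀ L : ℤ) (hL : 0 ≤ L) (R : ℕ) (p : ℝ) (o : Ix N → Al) :
    bS (frz (U (fine N x₀ L R) univ) o (Fv wt v)) p = bW wt v x₀ L R p o := by
  rw [bS_frz, U_fine x₀ L hL R]
  rfl

omit [Nonempty Al] in
theorem good_RL {wt : Al → ℝ} {a b : ℝ} {v : V} {Q x₀ L : ℤ} {R : ℕ} {ε₀ κ : ℝ} {o : Ix N → Al}
    (hg : GoodWin wt a b v Q x₀ L R ε₀ κ o) : (R : ℤ) * L ≤ N := by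
  have hgeo := q4_isGeo hg.ha (A := env wt o) (b := b) (fun e => hg.hwt _) 0 v
  have h1 : Gp wt v o (Gn wt v o) = v := hgeo.1.2.1
  have h2 := hg.hbox o (Gn wt v o) le_rfl
  rw [h1] at h2
  have h3 := hg.hv
  have h4 := hg.hx
  have h5 := hg.hQ
  obtain ⟨h6, h7⟩ := h2
  have h8 := le_trans (le_abs_self _) h6
  have h9 := le_trans (le_abs_self _) h7
  have h10 : 0 ≤ |v.1| := abs_nonneg _
  unfold col at h3
  omega

/-- the sub-window given by the node `(j, i)` of the tree -/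
def mkWin {wt : Al → ℝ} {a b : ℝ} {v : V} {Q x₀ L : ℤ} {d : ℕ} {ε₀ κ : ℝ} {o : Ix N → Al}
    (hg : GoodWin wt a b v Q x₀ L (63 ^ d) ε₀ κ o) (j i : ℕ) (hj : j < d)
    (hi : i < 63 ^ (d - 1 - j)) : Win N Al :=
  have hL40 : 40 ≤ L := hg.hL
  have hp : (1 : ℤ) ≤ 63 ^ j := one_le_pow₀ (by norm_num)
  have hLp : 40 ≤ (63 : ℤ) ^ j * L := by nlinarith
  have hend : x₀ + 63 * (i : ℤ) * (63 ^ j * L) + 63 * (63 ^ j * L) ≤ x₀ + ((63 ^ d : ℕ) : ℤ) * L := by
    have h1 : (i : ℤ) + 1 ≤ 63 ^ (d - 1 - j) := by exact_mod_cast hi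
    have h2 : (63 : ℤ) ^ d = 63 ^ (d - 1 - j) * (63 * 63 ^ j) := by
      rw [← pow_succ', ← pow_add]
      congr 1
      omega
    have h3 : ((i : ℤ) + 1) * (63 * 63 ^ j * L) ≤ 63 ^ (d - 1 - j) * (63 * 63 ^ j * L) :=
      mul_le_mul_of_nonneg_right h1 (by positivity)
    push_cast
    rw [h2]
    nlinarith
  have hst : x₀ ≤ x₀ + 63 * (i : ℤ) * (63 ^ j * L) := by
    have : 0 ≤ 63 * (i : ℤ) * (63 ^ j * L) := by positivity
    omega
  { wt := wt
    a := a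
    b := b
    v := v
    Q := Q
    B := blkI N x₀ (x₀ + ((63 ^ d : ℕ) : ℤ) * L)
    o := o
    x := x₀ + 63 * (i : ℤ) * (63 ^ j * L)
    L := 63 ^ j * L
    e0 := ε₀
    ha := hg.ha
    hwt := hg.hwt
    hQ := hg.hQ
    hbox := hg.hbox
    hx := lt_of_lt_of_le hg.hx hst
    hv := lt_of_le_of_lt hend hg.hv
    hL := hLp
    hodd := Odd.mul (Odd.pow (by decide)) hg.hodd
    hB := clI_subset_blkI hst hend
    hBcol := q4_blkI_col _ _
    hgen := hg.hgen
    hnb := by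
      refine le_trans (PL.PrC_mono _ (fun ω hω hnb => hω ?_) o) hg.hnb
      intro y hy hy2 i' j' hij hj' hcon
      refine hnb y (le_trans hst hy) ?_ i' j' hij hj' ⟨?_, hcon.2⟩
      · have h1 : L / 4 ≤ 63 ^ j * L / 4 := Int.ediv_le_ediv (by norm_num) (by nlinarith)
        omega
      · have h1 : L / 4 ≤ 63 ^ j * L / 4 := Int.ediv_le_ediv (by norm_num) (by nlinarith)
        omega }

end

theorem window_claim_of (hw2 : W2Claim) : WindowClaim := by
  obtain ⟨ep2, hep2, hw⟩ := hw2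
  obtain ⟨qA, CA', hCA', hA⟩ := meetA_of c00 c00_pos (ep2 / 2) (by linarith)
  obtain ⟨qB, CB', hCB', hB⟩ := meetB_of c00 c00_pos (ep2 / 2) (by linarith)
  obtain ⟨R0, hR01, hNE⟩ := near_equality
  obtain ⟨D, hD⟩ := tree ccc ccc_pos (max qA qB)
  set d : ℕ := max D R0 + 1 with hd
  have hdD : D ≤ d := by omega
  have hR0 : R0 ≤ 63 ^ d := by
    have := lt63 d
    omega
  set η : ℝ := min (1 / 64) (ep2 / (2 * (CA' + CB' + 1))) with hη
  have hη0 : 0 < η := lt_min (by norm_num) (by positivity)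
  have hη1 : η ≤ 1 / 64 := min_le_left _ _
  have hη2 : η ≤ ep2 / (2 * (CA' + CB' + 1)) := min_le_right _ _
  obtain ⟨t0, ht0, ht01, hNEt⟩ := hNE (63 ^ d) hR0 η hη0
  set Λ : ℝ := 4 * CB' + 1 with hΛ
  have hΛ1 : 1 ≤ Λ := by linarith
  have hCA : 0 < CA := by unfold CA; norm_num
  refine ⟨63 ^ d, t0, CA * ((63 ^ d : ℕ) : ℝ) * Λ ^ 3, ep2, ?_, Odd.pow (by decide), ht0,
    by positivity, hep2, ?_⟩
  · have : 63 ^ 1 ≤ 63 ^ d := Nat.pow_le_pow_right (by norm_num) (by omega)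
    omega
  intro t ht htt N _ Al _ _ wt a b v Q x₀ L κ o hg hen
  by_contra hcon
  push Not at hcon
  classical
  have hL40 := hg.hL
  have hL0 : 0 ≤ L := by omega
  have hRL := good_RL hg
  have hb : 0 < b := by
    obtain ⟨l⟩ := (inferInstance : Nonempty Al)
    exact lt_of_lt_of_le hg.ha ((hg.hwt l).1.trans (hg.hwt l).2)
  have hκ := hg.hk
  have hdisj : Pairwise fun m m' => Disjoint (fine N x₀ L (63 ^ d) m) (fine N x₀ L (63 ^ d) m') := by
    intro m m' hne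
    exact blkI_fine_disjoint x₀ L hL0 (63 ^ d) hRL m.isLt m'.isLt
      (fun h => hne (Fin.ext h))
  obtain ⟨σ, S, φ, hσ, hS, hφ, -, haσ, herr, hnc⟩ :=
    hNEt t ht htt (Ix N) Al (fine N x₀ L (63 ^ d)) hdisj (Fv wt v) o (by
      rw [aS_fine wt v x₀ L hL0, bS_fine wt v x₀ L hL0, ← mul_assoc]
      exact hcon)
  rw [aS_fine wt v x₀ L hL0] at haσ
  rw [U_fine x₀ L hL0] at herr
  -- lower bound for `σ`
  have hσΛ : Λ * (b * κ) ≤ σ := by
    by_contra hlt
    push Not at hlt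
    have hbκ : 0 < b * κ := mul_pos hb (by linarith)
    have h1 : σ ^ (2 + 2 * t) < (Λ * (b * κ)) ^ (2 + 2 * t) :=
      Real.rpow_lt_rpow hσ.le hlt (by linarith)
    have h2 : (Λ * (b * κ)) ^ (2 + 2 * t) ≤ Λ ^ 3 * (b * κ) ^ (2 + 2 * t) := by
      rw [Real.mul_rpow (by linarith) hbκ.le]
      apply mul_le_mul_of_nonneg_right _ (Real.rpow_nonneg hbκ.le _)
      rw [← Real.rpow_natCast Λ 3]
      apply Real.rpow_le_rpow_of_exponent_le hΛ1
      push_cast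
      linarith
    have h3 : CA * ((63 ^ d : ℕ) : ℝ) * Λ ^ 3 * (b * κ) ^ (2 + 2 * t) ≤
        CA * ((63 ^ d : ℕ) : ℝ) * σ ^ (2 + 2 * t) := le_trans hen haσ
    have h4 : (0 : ℝ) < CA * ((63 ^ d : ℕ) : ℝ) := by positivity
    rw [mul_assoc] at h3
    have h5 := le_of_mul_le_mul_left h3 h4
    linarith
  -- the tree
  set S' : Finset ℕ := S.map Fin.valEmbedding with hS'
  have hS'sub : S' ⊆ range (63 ^ d) := by
    intro n hn
    rw [hS', Finset.mem_map] at hn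
    obtain ⟨m, -, rfl⟩ := hn
    exact Finset.mem_range.mpr m.isLt
  have hS'card : ccc * 63 ^ d ≤ (S'.card : ℝ) := by
    rw [hS', Finset.card_map]
    push_cast at hS
    exact hS
  obtain ⟨j, hj, i, hi, hr⟩ := hD d hdD S' hS'sub hS'card
  set W : Win N Al := mkWin hg j i hj hi with hW
  have hK : ∀ k : ℤ, 0 ≤ k → k ≤ 8 → ∀ s : ℤ, (s = 1 ∨ s = 5) →
      ∃ K : Finset (Fin (63 ^ d)), K ⊆ S ∧ max qA qB ≤ K.card ∧
        ∀ m ∈ K, fine N x₀ L (63 ^ d) m ⊆ W.part k s := by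
    intro k hk0 hk8 s hs
    obtain ⟨r, hr1⟩ : ∃ r : ℕ, (r : ℤ) = 7 * k + s := ⟨(7 * k + s).toNat, by
      rw [Int.toNat_of_nonneg]
      omega⟩
    have hr63 : r < 63 := by omega
    have hcard := hr r hr63
    refine ⟨S.filter (fun m => (63 * i + r) * 63 ^ j ≤ (m : ℕ) ∧
      (m : ℕ) < (63 * i + r + 1) * 63 ^ j), Finset.filter_subset _ _, ?_, ?_⟩
    · refine le_trans hcard ?_
      rw [hS', Finset.filter_map, Finset.card_map]
      exact le_rfl
    · intro m hm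
      rw [Finset.mem_filter] at hm
      obtain ⟨-, hm1, hm2⟩ := hm
      have hm1' : (63 * (i : ℤ) + r) * 63 ^ j ≤ ((m : ℕ) : ℤ) := by exact_mod_cast hm1
      have hm2' : ((m : ℕ) : ℤ) + 1 ≤ (63 * (i : ℤ) + r + 1) * 63 ^ j := by exact_mod_cast hm2
      apply blkI_mono
      · change x₀ + 63 * (i : ℤ) * (63 ^ j * L) + (7 * k + s) * (63 ^ j * L) ≤
          x₀ + ((m : ℕ) : ℤ) * L
        rw [← hr1]
        have := mul_le_mul_of_nonneg_right hm1' hL0
        linarith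
      · change x₀ + (((m : ℕ) : ℤ) + 1) * L ≤
          x₀ + 63 * (i : ℤ) * (63 ^ j * L) + (7 * k + s + 1) * (63 ^ j * L)
        rw [← hr1]
        have := mul_le_mul_of_nonneg_right hm2' hL0
        linarith
  have hCAη : CA' * η ≤ ep2 / 2 := by
    have h1 : CA' * η ≤ CA' * (ep2 / (2 * (CA' + CB' + 1))) := mul_le_mul_of_nonneg_left hη2 hCA'
    have h2 : CA' * (ep2 / (2 * (CA' + CB' + 1))) ≤ ep2 / 2 := by
      rw [← mul_div_assoc, div_le_div_iff₀ (by positivity) (by norm_num)]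
      nlinarith
    exact le_trans h1 h2
  have hCBη : CB' * η ≤ ep2 / 2 := by
    have h1 : CB' * η ≤ CB' * (ep2 / (2 * (CA' + CB' + 1))) := mul_le_mul_of_nonneg_left hη2 hCB'
    have h2 : CB' * (ep2 / (2 * (CA' + CB' + 1))) ≤ ep2 / 2 := by
      rw [← mul_div_assoc, div_le_div_iff₀ (by positivity) (by norm_num)]
      nlinarith
    exact le_trans h1 h2
  have hησ : η * σ ≤ 1 / 64 * σ := mul_le_mul_of_nonneg_right hη1 hσ.le
  -- the two meetings
  have hMA : W.MeetA ep2 := by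
    have h := hA N Al W (63 ^ d) (fine N x₀ L (63 ^ d)) (fun m m' hne => hdisj hne) φ
      (fun m x y hxy => hφ m x y hxy) S (σ / 4) (av (blkI N x₀ (x₀ + ((63 ^ d : ℕ) : ℤ) * L))
        (Fv wt v) o) η (by linarith) hnc
      (le_trans (PL.Pr_mono fun ξ hξ => by
        have hξ' : σ / 4 / 8 < |Fv wt v (mix (blkI N x₀ (x₀ + ((63 ^ d : ℕ) : ℤ) * L)) ξ o) -
          av (blkI N x₀ (x₀ + ((63 ^ d : ℕ) : ℤ) * L)) (Fv wt v) o - ∑ m, φ m ξ| := hξ
        show η * σ < _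
        linarith) herr)
      (fun k hk0 hk8 s hs => by
        obtain ⟨K, h1, h2, h3⟩ := hK k hk0 hk8 s hs
        exact ⟨K, h1, le_trans (le_max_left _ _) h2, h3⟩)
    intro k hk0 hk8 s hs
    refine le_trans (h k hk0 hk8 s hs) ?_
    linarith
  have hMB : W.MeetB ep2 := by
    have h := hB N Al W (63 ^ d) (fine N x₀ L (63 ^ d)) (fun m m' hne => hdisj hne) φ
      (fun m x y hxy => hφ m x y hxy) S (σ / 4) (av (blkI N x₀ (x₀ + ((63 ^ d : ℕ) : ℤ) * L))
        (Fv wt v) o) η (by linarith) hnc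
      (le_trans (PL.Pr_mono fun ξ hξ => by
        have hξ' : σ / 4 / 16 < |Fv wt v (mix (blkI N x₀ (x₀ + ((63 ^ d : ℕ) : ℤ) * L)) ξ o) -
          av (blkI N x₀ (x₀ + ((63 ^ d : ℕ) : ℤ) * L)) (Fv wt v) o - ∑ m, φ m ξ| := hξ
        show η * σ < _
        linarith) herr)
      (fun k hk0 hk8 s hs => by
        obtain ⟨K, h1, h2, h3⟩ := hK k hk0 hk8 s hs
        exact ⟨K, h1, le_trans (le_max_right _ _) h2, h3⟩)
      x₀ (x₀ + ((63 ^ d : ℕ) : ℤ) * L) κ ?_ ?_ hκ ?_ ?_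
    · intro k hk0 hk8
      obtain ⟨α, β, h1, h2, h3, h4, h5⟩ := h k hk0 hk8
      refine ⟨α, β, h1, h2, h3, h4, fun s hs => le_trans (h5 s hs) ?_⟩
      linarith
    · change x₀ ≤ x₀ + 63 * (i : ℤ) * (63 ^ j * L)
      have : 0 ≤ 63 * (i : ℤ) * (63 ^ j * L) := by positivity
      omega
    · change x₀ + 63 * (i : ℤ) * (63 ^ j * L) + 63 * (63 ^ j * L) ≤ x₀ + ((63 ^ d : ℕ) : ℤ) * L
      have h1 : (i : ℤ) + 1 ≤ 63 ^ (d - 1 - j) := by exact_mod_cast hi
      have h2 : (63 : ℤ) ^ d = 63 ^ (d - 1 - j) * (63 * 63 ^ j) := by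
        rw [← pow_succ', ← pow_add]
        congr 1
        omega
      have h3 : ((i : ℤ) + 1) * (63 * 63 ^ j * L) ≤ 63 ^ (d - 1 - j) * (63 * 63 ^ j * L) :=
        mul_le_mul_of_nonneg_right h1 (by positivity)
      push_cast
      rw [h2]
      nlinarith
    · refine le_trans hg.hvis ?_
      change κ * (L : ℝ) ≤ κ * ((63 ^ j * L : ℤ) : ℝ)
      have h1 : (L : ℝ) ≤ ((63 ^ j * L : ℤ) : ℝ) := by
        have hp : (1 : ℤ) ≤ 63 ^ j := one_le_pow₀ (by norm_num)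
        exact_mod_cast (by nlinarith : L ≤ 63 ^ j * L)
      exact mul_le_mul_of_nonneg_left h1 (by linarith)
    · change CB' * (b * κ) ≤ σ / 4
      have : 0 ≤ b * κ := (mul_pos hb (by linarith)).le
      nlinarith
  exact hw N Al W le_rfl hMA hMB

end Pool.Agent.FPZ
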