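import Pool.Agent.FPZ.ML
import Pool.Agent.FPZ.PA15b

set_option autoImplicit false

noncomputable section

namespace Pool.Agent.FPZ

open Finset Pool.FPP Pool.FPA

section

variable {ι Al : Type} [Fintype ι] [DecidableEq ι] [Fintype Al] [Nonempty Al]

/-- text of the conclusion of the meeting lemma for fixed constants -/
def MeetL (c0 ep : ℝ) (q : ℕ) (C : ℝ) : Prop :=
    ∀ (ι Al sg : Type) [Fintype ι] [DecidableEq ι] [Fintype Al] [Nonempty Al] [DecidableEq sg]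
      (wt : Al → ℝ) (K : Finset sg) (blk : sg → Finset ι),
      (∀ m ∈ K, ∀ m' ∈ K, m ≠ m' → Disjoint (blk m) (blk m')) → q ≤ K.card →
      ∀ (φ : sg → (ι → Al) → ℝ),
      (∀ m ∈ K, ∀ x x' : ι → Al, (∀ i ∈ blk m, x i = x' i) → φ m x = φ m x') →
      ∀ (d : ℝ), 0 < d → (∀ m ∈ K, ∀ x, Pr (fun ω => |φ m ω - x| ≤ d) ≤ 1 - c0) →
      ∀ (F1 F2 c1 c2 : (ι → Al) → ℝ) (S1 S2 : (ι → Al) → Finset ι),
      (∀ x x' : ι → Al, (∀ i, i ∉ K.biUnion blk → x i = x' i) → c1 x = c1 x') →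
      (∀ x x' : ι → Al, (∀ i, i ∉ K.biUnion blk → x i = x' i) → c2 x = c2 x') →
      (∀ ω ω' : ι → Al, (∀ i, i ∉ K.biUnion blk → ω' i = ω i) →
        (∀ i ∈ S1 ω, i ∈ K.biUnion blk → wt (ω' i) ≤ wt (ω i)) → F1 ω' ≤ F1 ω) →
      (∀ ω ω' : ι → Al, (∀ i, i ∉ K.biUnion blk → ω' i = ω i) →
        (∀ i ∈ S2 ω, i ∈ K.biUnion blk → wt (ω' i) ≤ wt (ω i)) → F2 ω' ≤ F2 ω) →
      Pr (fun ω => ¬ ∃ i ∈ K.biUnion blk, i ∈ S1 ω ∧ i ∈ S2 ω) ≤
        ep + C * (Pr (fun ω => d / 8 < |F1 ω - c1 ω - ∑ m ∈ K, φ m ω|) +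
          Pr (fun ω => d / 8 < |F2 ω - c2 ω - ∑ m ∈ K, φ m ω|))

/-- core of `MeetB`: two functions `F1`, `F2` which are close -/
theorem meetB_core {c0 ep : ℝ} {q : ℕ} {C : ℝ} (hC : 0 ≤ C) (hm : MeetL c0 ep q C) {R : ℕ}
    (wt : Al → ℝ) (P : Finset ι) {blk : Fin R → Finset ι}
    (hd : Pairwise fun i j => Disjoint (blk i) (blk j)) (K : Finset (Fin R)) (hq : q ≤ K.card)
    (hK : ∀ m ∈ K, blk m ⊆ P) (φ : Fin R → (ι → Al) → ℝ) (hφ : ∀ m, Dep (blk m) (φ m))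
    {η σ ρ c : ℝ} (hσ : 0 < σ) (hη : η ≤ 1 / 64)
    (hnc : ∀ m ∈ K, ∀ a : ℝ, Pr (fun ξ : ι → Al => |φ m ξ - a| ≤ σ / 4) ≤ 1 - c0)
    (F1 F2 : (ι → Al) → ℝ) (S1 S2 : (ι → Al) → Finset ι)
    (herr : Pr (fun ξ : ι → Al => η * σ < |F1 ξ - c - ∑ m, φ m ξ|) ≤ η)
    (hclose : Pr (fun ξ : ι → Al => σ / 64 < |F2 ξ - F1 ξ|) ≤ ρ)
    (hw1 : ∀ ω ω' : ι → Al, (∀ i, i ∉ K.biUnion blk → ω' i = ω i) →
        (∀ i ∈ S1 ω, i ∈ K.biUnion blk → wt (ω' i) ≤ wt (ω i)) → F1 ω' ≤ F1 ω)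
    (hw2 : ∀ ω ω' : ι → Al, (∀ i, i ∉ K.biUnion blk → ω' i = ω i) →
        (∀ i ∈ S2 ω, i ∈ K.biUnion blk → wt (ω' i) ≤ wt (ω i)) → F2 ω' ≤ F2 ω) :
    Pr (fun ξ : ι → Al => ¬ ∃ i ∈ P, i ∈ S1 ξ ∧ i ∈ S2 ξ) ≤ ep + C * (η + (η + ρ)) := by
  classical
  set c1 : (ι → Al) → ℝ := fun ξ => c + ∑ m ∈ univ \ K, φ m ξ with hc1
  have hsplit : ∀ ξ : ι → Al, ∑ m, φ m ξ = ∑ m ∈ univ \ K, φ m ξ + ∑ m ∈ K, φ m ξ := fun ξ =>
    (Finset.sum_sdiff (Finset.subset_univ K)).symm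
  have hc1dep : ∀ x x' : ι → Al, (∀ i, i ∉ K.biUnion blk → x i = x' i) → c1 x = c1 x' := by
    intro x x' h
    simp only [hc1]
    congr 1
    refine Finset.sum_congr rfl fun m hm' => hφ m x x' fun i hi => h i ?_
    intro hi2
    rw [Finset.mem_biUnion] at hi2
    obtain ⟨m', hm1, hm2⟩ := hi2
    have hne : m ≠ m' := by
      rintro rfl
      exact (Finset.mem_sdiff.mp hm').2 hm1
    exact Finset.disjoint_left.mp (hd hne) hi hm2
  have h := hm ι Al (Fin R) wt K blk (fun m _ m' _ hne => hd hne) hq φ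
    (fun m _ x x' h => hφ m x x' h) (σ / 4) (by linarith) hnc F1 F2 c1 c1 S1 S2 hc1dep hc1dep hw1 hw2
  have hsub : K.biUnion blk ⊆ P := Finset.biUnion_subset.mpr hK
  have h1 : Pr (fun ξ : ι → Al => ¬ ∃ i ∈ P, i ∈ S1 ξ ∧ i ∈ S2 ξ) ≤
      Pr (fun ω => ¬ ∃ i ∈ K.biUnion blk, i ∈ S1 ω ∧ i ∈ S2 ω) := by
    refine Pr_mono fun ξ hξ hcon => hξ ?_
    obtain ⟨i, hi, hi2⟩ := hcon
    exact ⟨i, hsub hi, hi2⟩
  have h2 : Pr (fun ω => σ / 4 / 8 < |F1 ω - c1 ω - ∑ m ∈ K, φ m ω|) ≤ η := by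
    refine le_trans (Pr_mono fun ω hω => ?_) herr
    have e : F1 ω - c1 ω - ∑ m ∈ K, φ m ω = F1 ω - c - ∑ m, φ m ω := by
      simp only [hc1, hsplit]
      ring
    rw [e] at hω
    have : η * σ ≤ 1 / 64 * σ := mul_le_mul_of_nonneg_right hη hσ.le
    linarith
  have h3 : Pr (fun ω => σ / 4 / 8 < |F2 ω - c1 ω - ∑ m ∈ K, φ m ω|) ≤ η + ρ := by
    refine le_trans (Pr_mono fun ω hω => ?_) (PL.Pr_or_of_le herr hclose)
    have e : F2 ω - c1 ω - ∑ m ∈ K, φ m ω = (F1 ω - c - ∑ m, φ m ω) + (F2 ω - F1 ω) := by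
      simp only [hc1, hsplit]
      ring
    rw [e] at hω
    by_contra hcon
    push Not at hcon
    have h4 := abs_add_le (F1 ω - c - ∑ m, φ m ω) (F2 ω - F1 ω)
    have : η * σ ≤ 1 / 64 * σ := mul_le_mul_of_nonneg_right hη hσ.le
    linarith [hcon.1, hcon.2]
  refine le_trans h1 (le_trans h ?_)
  have := mul_le_mul_of_nonneg_left (add_le_add h2 h3) hC
  linarith

/-- core of `MeetA`: two configurations which share `G` -/
theorem meetA_core {c0 ep : ℝ} {q : ℕ} {C : ℝ} (hC : 0 ≤ C) (hm : MeetL c0 ep q C) {R : ℕ}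
    (wt : Al → ℝ) (F : (ι → Al) → ℝ) (SS : (ι → Al) → Finset ι)
    (hW : ∀ (Rg : Finset ι) (w w' : ι → Al), (∀ i, i ∉ Rg → w' i = w i) →
      (∀ i ∈ SS w, i ∈ Rg → wt (w' i) ≤ wt (w i)) → F w' ≤ F w)
    {B G P : Finset ι} (hGB : G ⊆ B) (hPG : P ⊆ G) (o : ι → Al) {blk : Fin R → Finset ι}
    (hd : Pairwise fun i j => Disjoint (blk i) (blk j)) (K : Finset (Fin R)) (hq : q ≤ K.card)
    (hK : ∀ m ∈ K, blk m ⊆ P) (φ : Fin R → (ι → Al) → ℝ) (hφ : ∀ m, Dep (blk m) (φ m))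
    {η σ c : ℝ} (hσ : 0 < σ) (hη : η ≤ 1 / 64)
    (hnc : ∀ m ∈ K, ∀ a : ℝ, Pr (fun ξ : ι → Al => |φ m ξ - a| ≤ σ / 4) ≤ 1 - c0)
    (herr : Pr (fun ξ : ι → Al => η * σ < |F (mix B ξ o) - c - ∑ m, φ m ξ|) ≤ η) :
    Pr (fun ζ : (ι → Al) × (ι → Al) =>
      ¬ ∃ i ∈ P, i ∈ SS (mix B ζ.1 o) ∧ i ∈ SS (mix G ζ.1 (mix B ζ.2 o))) ≤
      ep + C * (η + η) := by
  classical
  have hsub : K.biUnion blk ⊆ P := Finset.biUnion_subset.mpr hK
  have hsubG : K.biUnion blk ⊆ G := hsub.trans hPG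
  have hsubB : K.biUnion blk ⊆ B := hsubG.trans hGB
  have hmixGB : ∀ x y : ι → Al, mix G x (mix B y o) = mix B (mix G x y) o := by
    intro x y
    funext i
    by_cases hG : i ∈ G
    · simp [mix, hG, hGB hG]
    · simp [mix, hG]
  -- error function of the second configuration
  set g : (ι → Al) → ℝ := fun w => ind (σ / 32 < |F (mix B w o) - c - ∑ m, φ m w|) with hg
  have hgE : Ex g ≤ η := by
    refine le_trans ?_ herr
    rw [Pr_eq]
    refine Ex_mono fun w => ind_mono fun hw => ?_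
    have : η * σ ≤ 1 / 64 * σ := mul_le_mul_of_nonneg_right hη hσ.le
    linarith
  -- the inner probability
  have hin : ∀ y : ι → Al,
      Pr (fun x : ι → Al => ¬ ∃ i ∈ P, i ∈ SS (mix B x o) ∧ i ∈ SS (mix G x (mix B y o))) ≤
        ep + C * (η + av G g y) := by
    intro y
    set c1 : (ι → Al) → ℝ := fun ξ => c + ∑ m ∈ univ \ K, φ m ξ with hc1
    set c2 : (ι → Al) → ℝ := fun ξ => c + ∑ m ∈ univ \ K, φ m (mix G ξ y) with hc2
    have hout : ∀ m ∈ univ \ K, ∀ i ∈ blk m, i ∉ K.biUnion blk := by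
      intro m hm' i hi hi2
      rw [Finset.mem_biUnion] at hi2
      obtain ⟨m', hm1, hm2⟩ := hi2
      have hne : m ≠ m' := by
        rintro rfl
        exact (Finset.mem_sdiff.mp hm').2 hm1
      exact Finset.disjoint_left.mp (hd hne) hi hm2
    have hc1dep : ∀ x x' : ι → Al, (∀ i, i ∉ K.biUnion blk → x i = x' i) → c1 x = c1 x' := by
      intro x x' h
      simp only [hc1]
      congr 1
      exact Finset.sum_congr rfl fun m hm' => hφ m x x' fun i hi => h i (hout m hm' i hi)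
    have hc2dep : ∀ x x' : ι → Al, (∀ i, i ∉ K.biUnion blk → x i = x' i) → c2 x = c2 x' := by
      intro x x' h
      simp only [hc2]
      congr 1
      refine Finset.sum_congr rfl fun m hm' => hφ m _ _ fun i hi => ?_
      by_cases hG : i ∈ G
      · simp [mix, hG, h i (hout m hm' i hi)]
      · simp [mix, hG]
    have h := hm ι Al (Fin R) wt K blk (fun m _ m' _ hne => hd hne) hq φ
      (fun m _ x x' h => hφ m x x' h) (σ / 4) (by linarith) hnc
      (fun x => F (mix B x o)) (fun x => F (mix G x (mix B y o))) c1 c2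
      (fun x => SS (mix B x o)) (fun x => SS (mix G x (mix B y o))) hc1dep hc2dep ?_ ?_
    · have h1 : Pr (fun x : ι → Al =>
          ¬ ∃ i ∈ P, i ∈ SS (mix B x o) ∧ i ∈ SS (mix G x (mix B y o))) ≤
          Pr (fun x : ι → Al => ¬ ∃ i ∈ K.biUnion blk,
            i ∈ SS (mix B x o) ∧ i ∈ SS (mix G x (mix B y o))) := by
        refine Pr_mono fun ξ hξ hcon => hξ ?_
        obtain ⟨i, hi, hi2⟩ := hcon
        exact ⟨i, hsub hi, hi2⟩
      have h2 : Pr (fun x => σ / 4 / 8 < |F (mix B x o) - c1 x - ∑ m ∈ K, φ m x|) ≤ η := by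
        refine le_trans (Pr_mono fun ω hω => ?_) herr
        have e : F (mix B ω o) - c1 ω - ∑ m ∈ K, φ m ω = F (mix B ω o) - c - ∑ m, φ m ω := by
          simp only [hc1]
          rw [← Finset.sum_sdiff (Finset.subset_univ K)]
          ring
        rw [e] at hω
        have : η * σ ≤ 1 / 64 * σ := mul_le_mul_of_nonneg_right hη hσ.le
        linarith
      have h3 : Pr (fun x => σ / 4 / 8 < |F (mix G x (mix B y o)) - c2 x - ∑ m ∈ K, φ m x|) ≤
          av G g y := by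
        rw [Pr_eq]
        unfold av
        refine Ex_mono fun x => ?_
        simp only [hg]
        refine ind_mono fun hx => ?_
        have e : F (mix G x (mix B y o)) - c2 x - ∑ m ∈ K, φ m x =
            F (mix B (mix G x y) o) - c - ∑ m, φ m (mix G x y) := by
          rw [hmixGB]
          simp only [hc2]
          rw [← Finset.sum_sdiff (Finset.subset_univ K)]
          have : ∑ m ∈ K, φ m (mix G x y) = ∑ m ∈ K, φ m x := by
            refine Finset.sum_congr rfl fun m hm' => hφ m _ _ fun i hi => ?_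
            have : i ∈ G := hPG (hK m hm' hi)
            simp [mix, this]
          rw [this]
          ring
        rw [e] at hx
        linarith
      refine le_trans h1 (le_trans h ?_)
      have := mul_le_mul_of_nonneg_left (add_le_add h2 h3) hC
      linarith
    · -- witness property of the first function
      intro ω ω' h1 h2
      refine hW (K.biUnion blk) _ _ ?_ ?_
      · intro i hi
        by_cases hB : i ∈ B
        · simp [mix, hB, h1 i hi]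
        · simp [mix, hB]
      · intro i hi hi2
        have hB : i ∈ B := hsubB hi2
        simpa [mix, hB] using h2 i hi hi2
    · -- witness property of the second function
      intro ω ω' h1 h2
      refine hW (K.biUnion blk) _ _ ?_ ?_
      · intro i hi
        by_cases hG : i ∈ G
        · simp [mix, hG, h1 i hi]
        · simp [mix, hG]
      · intro i hi hi2
        have hG : i ∈ G := hsubG hi2
        simpa [mix, hG] using h2 i hi hi2
  have hswap := PL.Pr_equiv (Equiv.prodComm (ι → Al) (ι → Al))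
    (fun ζ : (ι → Al) × (ι → Al) =>
      ¬ ∃ i ∈ P, i ∈ SS (mix B ζ.1 o) ∧ i ∈ SS (mix G ζ.1 (mix B ζ.2 o)))
  rw [← hswap, PL.Pr_prod]
  calc Ex (fun y : ι → Al => Pr (fun x : ι → Al =>
        ¬ ∃ i ∈ P, i ∈ SS (mix B ((Equiv.prodComm (ι → Al) (ι → Al)) (y, x)).1 o) ∧
          i ∈ SS (mix G ((Equiv.prodComm (ι → Al) (ι → Al)) (y, x)).1
            (mix B ((Equiv.prodComm (ι → Al) (ι → Al)) (y, x)).2 o))))
      ≤ Ex (fun y : ι → Al => ep + C * (η + av G g y)) := Ex_mono fun y => hin y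
    _ = ep + C * (η + Ex g) := by
        have e1 : Ex (fun y : ι → Al => ep + C * (η + av G g y)) =
            Ex (fun y : ι → Al => (ep + C * η) + C * av G g y) := by
          congr 1
          funext y
          ring
        rw [e1, Ex_add, Ex_const, Ex_mul_left, Ex_av]
        ring
    _ ≤ ep + C * (η + η) := by
        have := mul_le_mul_of_nonneg_left hgE hC
        linarith

end

end Pool.Agent.FPZ
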