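import Pool.Agent.FPZ.Defs

/-!
Rotation by one unit of the strip `[α, β)`: used in W1 (`MeetB`).
-/

set_option autoImplicit false

noncomputable section

namespace Pool.Agent.FPZ

open Finset Pool.FPP

/-- the configuration whose content in the block `[α, β)` is shifted by `su 1` along the strip -/
def rotC {N : ℕ} [NeZero N] {Al : Type} (α β : ℤ) (w : Ix N → Al) : Ix N → Al :=
  mix (blkI N α β) (shiftC (su 1) w) w

end Pool.Agent.FPZ
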