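import Pool.Agent.FPZ.Q4Loc
import Pool.Agent.FPZ.Q4J1
import Pool.Agent.FPZ.Q4PR
import Pool.Agent.FPZ.Q4PF
import Pool.Agent.FPZ.GRP2

/-!
# Sections 4 to 7 put together

A window whose configurations meet (`MeetA`, `MeetB`) with small error probabilities cannot exist.
-/

set_option autoImplicit false

noncomputable section

namespace Pool.Agent.FPZ

open Finset Pool.FPP

/-- the localisation maps with a larger error -/
def Sig.weaken {N : ℕ} [NeZero N] {Al : Type} [Fintype Al] [Nonempty Al] {W : Win N Al} {ε ε' : ℝ}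
    (S : Sig W ε) (h : ε ≤ ε') : Sig W ε' :=
  ⟨S.sig, S.loc, S.rng, fun k h0 h8 => (S.prb k h0 h8).trans h⟩

/-- no window has small meeting errors -/
theorem w2 : ∃ ε₂ : ℝ, 0 < ε₂ ∧
    ∀ (N : ℕ) [NeZero N] (Al : Type) [Fintype Al] [Nonempty Al] (W : Win N Al),
      W.e0 ≤ ε₂ → W.MeetA ε₂ → W.MeetB ε₂ → False := by
  refine ⟨1 / 100000, by norm_num, ?_⟩
  intro N _ Al _ _ W he hA hB
  obtain ⟨S⟩ := loc W hA
  have hR := patR (W := W) S
  have hF := patF (W := W) S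
  have hJ := j1 (W := W) hB S
  have h1 : (3 * (1 / 100000 + W.e0) : ℝ) ≤ 1 / 1000 := by linarith
  have h2 : (6 * (3 * (1 / 100000 + W.e0) + W.e0) : ℝ) ≤ 1 / 1000 := by linarith
  have h3 : (3 * (1 / 100000 + 3 * (1 / 100000 + W.e0) + W.e0) : ℝ) ≤ 1 / 1000 := by linarith
  refine grp_geo' W (le_refl (1 / 1000 : ℝ)) (S.weaken h1) ?_ ?_ ?_ (fun ω => W.q4_geo ω)
  · intro k k1 k7
    exact (hJ k k1 k7).trans h3
  · intro s hs
    exact (hR s hs).trans h2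
  · intro κ hκ c hc hc1 k₁ k₂ k₃ g1 g2 g3 g4 g5 g6
    obtain ⟨p1, p2, p3⟩ := hF κ hκ c hc hc1 k₁ k₂ k₃ g1 g2 g3 g4 g5 g6
    exact ⟨p1.trans h2, p2.trans h2, p3.trans h2⟩

end Pool.Agent.FPZ
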