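import Pool.Agent.FPZ.W1
import Pool.Agent.FPZ.W2

/-!
# The window claim

In a good window `∑_m a_m ≤ (1 - ε₀) b`.
-/

set_option autoImplicit false

noncomputable section

namespace Pool.Agent.FPZ

/-- the window claim -/
theorem window_claim : WindowClaim := window_claim_of w2

end Pool.Agent.FPZ
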