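import Pool.Agent.FPZ.SHC

/-!
# FPZ/WIT: witness properties

The passage time does not increase when the weights on the geodesic do not increase
(`wit_dst`); for a region `Rg` (`wit_rg`); for the rotated configuration, the geodesic being
pulled back by the rotation (`wit_rot`).
-/

set_option autoImplicit false

noncomputable section

namespace Pool.Agent.FPZ

open Finset Pool.FPP

theorem wit_dst {A A' : E → ℝ} {a b : ℝ} (ha : 0 < a) (hA : Bd a b A) (hA' : ∀ e, 0 ≤ A' e)
    {x y : V} (h : ∀ e ∈ ges A x y, A' e ≤ A e) : dst A' x y ≤ dst A x y := by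
  have hg := q4_isGeo ha hA x y
  have h1 : dst A' x y ≤ cost A' 0 (gl A x y) (gp A x y) :=
    csInf_le (sym_bdd hA' x y) ⟨_, _, hg.1, rfl⟩
  refine h1.trans ?_
  rw [← hg.2]
  exact Finset.sum_le_sum fun k hk => h _ (mem_image_of_mem _ hk)

section

variable {N : ℕ} [NeZero N] {Al : Type}

/-- witness property in a region `Rg` -/
theorem wit_rg {wt : Al → ℝ} {a b : ℝ} (ha : 0 < a) (hwt : ∀ l, a ≤ wt l ∧ wt l ≤ b) {v : V}
    (Rg : Finset (Ix N)) {w w' : Ix N → Al} (h : ∀ i, i ∉ Rg → w' i = w i)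
    (h' : ∀ i ∈ GI wt v w, i ∈ Rg → wt (w' i) ≤ wt (w i)) : Fv wt v w' ≤ Fv wt v w := by
  unfold Fv
  refine wit_dst ha (a := a) (b := b) (fun e => hwt _) (fun e => ha.le.trans (hwt _).1) ?_
  intro e he
  change wt (w' (red N e)) ≤ wt (w (red N e))
  by_cases hr : red N e ∈ Rg
  · exact h' _ (mem_image_of_mem _ he) hr
  · rw [h _ hr]

theorem wit_red_shE (e : E) :
    red N (shE (su 1) e) = (((red N e).1.1 + ((su 1).1 : ZMod N), (red N e).1.2 + ((su 1).2 : ZMod N)),
      (red N e).2) := by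
  unfold red shE
  simp only [Prod.fst_add, Prod.snd_add, Int.cast_add]

/-- witness property for the rotated configuration -/
theorem wit_rot {wt : Al → ℝ} {a b : ℝ} (ha : 0 < a) (hwt : ∀ l, a ≤ wt l ∧ wt l ≤ b) {v : V}
    {α β : ℤ} {Rg : Finset (Ix N)} (hRg : Rg ⊆ blkI N α β) {w w' : Ix N → Al}
    (h : ∀ i, i ∉ Rg → w' i = w i)
    (h' : ∀ i ∈ ((GE wt v (rotC α β w)).image (shE (su 1))).image (red N), i ∈ Rg →
      wt (w' i) ≤ wt (w i)) : Fv wt v (rotC α β w') ≤ Fv wt v (rotC α β w) := by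
  unfold Fv
  refine wit_dst ha (a := a) (b := b) (fun e => hwt _) (fun e => ha.le.trans (hwt _).1) ?_
  intro e he
  change wt (rotC α β w' (red N e)) ≤ wt (rotC α β w (red N e))
  by_cases hb : red N e ∈ blkI N α β
  · have h1 : rotC α β w' (red N e) = w' (red N (shE (su 1) e)) := by
      rw [wit_red_shE]
      unfold rotC mix shiftC
      rw [if_pos hb]
    have h2 : rotC α β w (red N e) = w (red N (shE (su 1) e)) := by
      rw [wit_red_shE]
      unfold rotC mix shiftC
      rw [if_pos hb]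
    rw [h1, h2]
    by_cases hr : red N (shE (su 1) e) ∈ Rg
    · exact h' _ (mem_image_of_mem _ (mem_image_of_mem _ he)) hr
    · rw [h _ hr]
  · have h1 : rotC α β w' (red N e) = w' (red N e) := by
      unfold rotC mix
      rw [if_neg hb]
    have h2 : rotC α β w (red N e) = w (red N e) := by
      unfold rotC mix
      rw [if_neg hb]
    rw [h1, h2, h _ (fun h3 => hb (hRg h3))]

end

end Pool.Agent.FPZ
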