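import Pool.Agent.FPZ.WDefs
import Pool.Agent.FPZ.ML
import Pool.Agent.FPZ.WIT
import Pool.Agent.FPZ.STR

/-!
# W1, first half: meetings of configurations that share a group

`meetA_of`: near additivity of the passage time in the window, with at least `q` non-degenerate blocks
in every strip LEFT and RIGHT, implies `MeetA`.
-/

set_option autoImplicit false

noncomputable section

namespace Pool.Agent.FPZ

open Finset Pool.FPP Pool.Agent.FPZ.PL

section

variable {N : ℕ} [NeZero N] {Al : Type} [Fintype Al] [Nonempty Al]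

/-- the parts of a group are contained in the group -/
theorem wa_part_sub (W : Win N Al) (k s : ℤ) (hs : s = 1 ∨ s = 5) : W.part k s ⊆ W.G k := by
  have hL := W.hL
  unfold Win.part Win.G Win.lo Win.hi
  rcases hs with rfl | rfl
  · refine blkI_subset_clI ?_ ?_
    · nlinarith
    · nlinarith
  · refine blkI_subset_clI ?_ ?_
    · nlinarith
    · nlinarith

/-- the groups are contained in the window -/
theorem wa_G_sub (W : Win N Al) {k : ℤ} (h0 : 0 ≤ k) (h8 : k ≤ 8) : W.G k ⊆ W.B := by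
  classical
  have hL := W.hL
  refine Finset.Subset.trans ?_ W.hB
  intro i hi
  unfold Win.G Win.lo Win.hi clI at hi
  unfold clI
  rw [mem_filter] at hi ⊢
  obtain ⟨-, j, h1, h2, h3⟩ := hi
  refine ⟨mem_univ _, j, ?_, ?_, h3⟩
  · nlinarith
  · nlinarith

theorem wa_M_mix (W : Win N Al) {G : Finset (Ix N)} (hG : G ⊆ W.B) (ω ζ : Ix N → Al) :
    W.M (mix G ω ζ) = mix G ω (W.M ζ) := by
  funext i
  unfold Win.M mix
  by_cases h : i ∈ G
  · simp [h, hG h]
  · simp [h]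

end

/-- **MeetA.**  `blk m`, `m < R`, disjoint blocks, `φ m` a function of the content of `blk m`,
`F (M ξ) = f₀ + ∑ φ_m(ξ) ± d/8` up to probability `E`, `S` a set of blocks with concentration at most
`1 - c₀` at scale `d`, at least `q` of them in every LEFT and RIGHT strip. -/
theorem meetA_of (c0 : ℝ) (hc0 : 0 < c0) (ep : ℝ) (hep : 0 < ep) : ∃ (q : ℕ) (C : ℝ), 0 ≤ C ∧
    ∀ (N : ℕ) [NeZero N] (Al : Type) [Fintype Al] [Nonempty Al] (W : Win N Al) (R : ℕ)
      (blk : Fin R → Finset (Ix N)), (∀ m m', m ≠ m' → Disjoint (blk m) (blk m')) →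
      ∀ φ : Fin R → (Ix N → Al) → ℝ,
      (∀ m x y, (∀ i ∈ blk m, x i = y i) → φ m x = φ m y) →
      ∀ (S : Finset (Fin R)) (d f0 E : ℝ), 0 < d →
      (∀ m ∈ S, ∀ x : ℝ, Pr (fun ξ => |φ m ξ - x| ≤ d) ≤ 1 - c0) →
      Pr (fun ξ => d / 8 < |Fv W.wt W.v (W.M ξ) - f0 - ∑ m, φ m ξ|) ≤ E →
      (∀ k : ℤ, 0 ≤ k → k ≤ 8 → ∀ s : ℤ, (s = 1 ∨ s = 5) →
        ∃ K : Finset (Fin R), K ⊆ S ∧ q ≤ K.card ∧ ∀ m ∈ K, blk m ⊆ W.part k s) →
      W.MeetA (ep + C * E) := by
  obtain ⟨q, C, hC, hmeet⟩ := meeting c0 hc0 ep hep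
  refine ⟨q, 2 * C, by positivity, ?_⟩
  intro N _ Al _ _ W R blk hblk φ hφ S d f0 E hd hS hE hK k hk0 hk8 s hs
  classical
  obtain ⟨K, hKS, hKq, hKp⟩ := hK k hk0 hk8 s hs
  have hpG := wa_part_sub W k s hs
  have hGB := wa_G_sub W hk0 hk8
  have hKG : ∀ m ∈ K, blk m ⊆ W.G k := fun m hm => (hKp m hm).trans hpG
  have hRgG : K.biUnion blk ⊆ W.G k := biUnion_subset.2 hKG
  have hRgB : K.biUnion blk ⊆ W.B := hRgG.trans hGB
  have hRgP : K.biUnion blk ⊆ W.part k s := biUnion_subset.2 hKp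
  -- the error event
  set X : (Ix N → Al) → Prop := fun ξ => d / 8 < |Fv W.wt W.v (W.M ξ) - f0 - ∑ m, φ m ξ| with hX
  -- splitting of the sum
  have hsplit : ∀ ξ : Ix N → Al, ∑ m, φ m ξ = ∑ m ∈ K, φ m ξ + ∑ m ∈ univ \ K, φ m ξ := by
    intro ξ
    rw [add_comm]
    exact (Finset.sum_sdiff (subset_univ K)).symm
  have hoff : ∀ m ∈ univ \ K, ∀ i ∈ blk m, i ∉ K.biUnion blk := by
    intro m hm i hi hiK
    obtain ⟨m', hm', hi'⟩ := mem_biUnion.1 hiK
    have hne : m ≠ m' := by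
      rintro rfl
      exact (mem_sdiff.1 hm).2 hm'
    exact (Finset.disjoint_left.1 (hblk m m' hne) hi) hi'
  -- for a fixed second configuration
  have hfix : ∀ ζ : Ix N → Al,
      Pr (fun ω : Ix N → Al => ¬ ∃ i ∈ W.part k s, i ∈ GI W.wt W.v (W.M ω) ∧
        i ∈ GI W.wt W.v (mix (W.G k) ω (W.M ζ))) ≤ ep + C * (Pr X + PrC (W.G k) X ζ) := by
    intro ζ
    have h := hmeet (Ix N) Al (Fin R) W.wt K blk (fun m _ m' _ hne => hblk m m' hne) hKq φ
      (fun m _ => hφ m) d hd (fun m hm => hS m (hKS hm))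
      (fun ω => Fv W.wt W.v (W.M ω)) (fun ω => Fv W.wt W.v (mix (W.G k) ω (W.M ζ)))
      (fun ω => f0 + ∑ m ∈ univ \ K, φ m ω)
      (fun ω => f0 + ∑ m ∈ univ \ K, φ m (mix (W.G k) ω ζ))
      (fun ω => GI W.wt W.v (W.M ω)) (fun ω => GI W.wt W.v (mix (W.G k) ω (W.M ζ)))
      ?_ ?_ ?_ ?_
    · refine le_trans (Pr_mono (t := fun ω => ¬ ∃ i ∈ K.biUnion blk, i ∈ GI W.wt W.v (W.M ω) ∧
        i ∈ GI W.wt W.v (mix (W.G k) ω (W.M ζ))) ?_) (h.trans ?_)
      · rintro ω hω ⟨i, hi, h1, h2⟩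
        exact hω ⟨i, hRgP hi, h1, h2⟩
      · refine add_le_add le_rfl (mul_le_mul_of_nonneg_left (add_le_add ?_ ?_) hC)
        · refine Pr_mono fun ω hω => ?_
          rw [hX]
          have : Fv W.wt W.v (W.M ω) - f0 - ∑ m, φ m ω =
              Fv W.wt W.v (W.M ω) - (f0 + ∑ m ∈ univ \ K, φ m ω) - ∑ m ∈ K, φ m ω := by
            rw [hsplit ω]
            ring
          show d / 8 < |Fv W.wt W.v (W.M ω) - f0 - ∑ m, φ m ω|
          rw [this]
          exact hω
        · refine Pr_mono fun ω hω => ?_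
          show d / 8 < |Fv W.wt W.v (W.M (mix (W.G k) ω ζ)) - f0 -
            ∑ m, φ m (mix (W.G k) ω ζ)|
          have h1 : ∑ m ∈ K, φ m (mix (W.G k) ω ζ) = ∑ m ∈ K, φ m ω := by
            refine Finset.sum_congr rfl fun m hm => hφ m _ _ fun i hi => ?_
            simp [mix, hKG m hm hi]
          have : Fv W.wt W.v (W.M (mix (W.G k) ω ζ)) - f0 - ∑ m, φ m (mix (W.G k) ω ζ) =
              Fv W.wt W.v (mix (W.G k) ω (W.M ζ)) -
                (f0 + ∑ m ∈ univ \ K, φ m (mix (W.G k) ω ζ)) - ∑ m ∈ K, φ m ω := by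
            rw [hsplit, h1, wa_M_mix W hGB]
            ring
          rw [this]
          exact hω
    · intro x y hxy
      show f0 + ∑ m ∈ univ \ K, φ m x = f0 + ∑ m ∈ univ \ K, φ m y
      congr 1
      exact Finset.sum_congr rfl fun m hm => hφ m x y fun i hi => hxy i (hoff m hm i hi)
    · intro x y hxy
      show f0 + ∑ m ∈ univ \ K, φ m (mix (W.G k) x ζ) =
        f0 + ∑ m ∈ univ \ K, φ m (mix (W.G k) y ζ)
      congr 1
      refine Finset.sum_congr rfl fun m hm => hφ m _ _ fun i hi => ?_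
      have := hxy i (hoff m hm i hi)
      by_cases hiG : i ∈ W.G k <;> simp [mix, hiG, this]
    · intro ω ω' h1 h2
      refine wit_rg (v := W.v) W.ha W.hwt (K.biUnion blk) ?_ ?_
      · intro i hi
        show W.M ω' i = W.M ω i
        unfold Win.M mix
        by_cases hiB : i ∈ W.B <;> simp [hiB, h1 i hi]
      · intro i hi hiR
        have h3 := h2 i hi hiR
        show W.wt (W.M ω' i) ≤ W.wt (W.M ω i)
        unfold Win.M mix
        simp only [hRgB hiR, if_true]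
        exact h3
    · intro ω ω' h1 h2
      refine wit_rg (v := W.v) W.ha W.hwt (K.biUnion blk) ?_ ?_
      · intro i hi
        by_cases hiG : i ∈ W.G k <;> simp [mix, hiG, h1 i hi]
      · intro i hi hiR
        have h3 := h2 i hi hiR
        simp only [mix, hRgG hiR, if_true]
        exact h3
  -- average over the second configuration
  rw [← Pr_equiv (Equiv.prodComm (Ix N → Al) (Ix N → Al)), Pr_prod]
  calc Ex (fun ζ : Ix N → Al => Pr (fun ω : Ix N → Al => ¬ ∃ i ∈ W.part k s,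
        i ∈ GI W.wt W.v (W.M ω) ∧ i ∈ GI W.wt W.v (mix (W.G k) ω (W.M ζ))))
      ≤ Ex (fun ζ : Ix N → Al => ep + C * (Pr X + PrC (W.G k) X ζ)) := Ex_mono hfix
    _ = ep + C * (Pr X + Pr X) := by
        rw [Ex_add (fun _ => ep) (fun ζ => C * (Pr X + PrC (W.G k) X ζ)), Ex_const, Ex_mul_left,
          Ex_add (fun _ => Pr X) (fun ζ => PrC (W.G k) X ζ), Ex_const, Ex_PrC]
    _ ≤ ep + 2 * C * E := by
        nlinarith

end Pool.Agent.FPZ
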