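import Pool.Agent.FPZ.Defs

/-!
# Windows: the interface between the sections

`Win`: a sub-window of `63` congruent strips of width `L` (odd), columns `[x, x + 63 L]`, inside the
window `B` with fixed outside `o`.  Group `k` (`k = 0, …, 8`) is the closed strip
`[x + 7 k L, x + 7 (k + 1) L]`; its seven strips of width `L` are
margin, LEFT (`s = 1`), margin, MID (`s = 3`), margin, RIGHT (`s = 5`), margin.

* `MeetA W ε`: two configurations which share the group `k` (and the far outside `o`), the rest of `B`
  independent, have geodesics with a common edge in LEFT `k` and in RIGHT `k`, up to probability `ε`.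
* `MeetB W ε`: rotation by one unit of a strip containing group `k` (`1 ≤ k ≤ 7`): the geodesic and the
  pulled back geodesic of the rotated configuration have a common edge in LEFT `k` and in RIGHT `k`.

W1 (sections 2, 3, tree lemma, choice of lines): near-equality in a good window produces
`Win`, `MeetA`, `MeetB`.  W2 (sections 4, 5, 6, 7): `Win`, `MeetA`, `MeetB` with small universal `ε`
is contradictory.
-/

set_option autoImplicit false

noncomputable section

namespace Pool.Agent.FPZ

open Finset Pool.FPP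

/-- basic data of a window with its sub-window of `63` strips -/
structure Win (N : ℕ) [NeZero N] (Al : Type) [Fintype Al] [Nonempty Al] where
  /-- weights of the letters -/
  wt : Al → ℝ
  /-- lower bound of the weights -/
  a : ℝ
  /-- upper bound of the weights -/
  b : ℝ
  /-- end point of the passage -/
  v : V
  /-- size of the box that contains all geodesics -/
  Q : ℤ
  /-- the window (torus edges) -/
  B : Finset (Ix N)
  /-- the fixed outside configuration -/
  o : Ix N → Al
  /-- left column of the sub-window -/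
  x : ℤ
  /-- width of the strips -/
  L : ℤ
  /-- error probability for genericity and no backtracking -/
  e0 : ℝ
  ha : 0 < a
  hwt : ∀ l, a ≤ wt l ∧ wt l ≤ b
  hQ : 100 * Q < (N : ℤ)
  hbox : ∀ ω : Ix N → Al, ∀ i ≤ Gn wt v ω, inBox Q (Gp wt v ω i)
  hx : 0 < x
  hv : x + 63 * L < col v
  hL : 40 ≤ L
  hodd : Odd L
  hB : clI N x (x + 63 * L) ⊆ B
  hBcol : ∀ i j : Ix N, colI i = colI j → i.2 = j.2 → i ∈ B → j ∈ B
  hgen : PrC B (fun ω => ¬ Gen (20 * Q) (env wt ω)) o ≤ e0
  hnb : PrC B (fun ω => ¬ NB (L / 4) x (x + 63 * L) (Gn wt v ω) (Gp wt v ω)) o ≤ e0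

namespace Win

variable {N : ℕ} [NeZero N] {Al : Type} [Fintype Al] [Nonempty Al]

/-- left end of the group `k` -/
def lo (W : Win N Al) (k : ℤ) : ℤ := W.x + 7 * k * W.L

/-- right end of the group `k` -/
def hi (W : Win N Al) (k : ℤ) : ℤ := W.x + 7 * (k + 1) * W.L

/-- index set of the group `k` (closed strip) -/
def G (W : Win N Al) (k : ℤ) : Finset (Ix N) := clI N (W.lo k) (W.hi k)

/-- left end of the part MID of the group `k` -/
def mlo (W : Win N Al) (k : ℤ) : ℤ := W.x + (7 * k + 3) * W.L

/-- right end of the part MID of the group `k` -/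
def mhi (W : Win N Al) (k : ℤ) : ℤ := W.x + (7 * k + 4) * W.L

/-- the middle line of the group `k` is `col = mln k + 1/2`; it is the middle of the strip MID -/
def mln (W : Win N Al) (k : ℤ) : ℤ := W.mlo k + (W.L - 1) / 2

/-- index set (half open block) of the strip number `s` of the group `k` -/
def part (W : Win N Al) (k s : ℤ) : Finset (Ix N) :=
  blkI N (W.x + (7 * k + s) * W.L) (W.x + (7 * k + s + 1) * W.L)

/-- the configuration with content `ξ` in the window -/
def M (W : Win N Al) (ξ : Ix N → Al) : Ix N → Al := mix W.B ξ W.o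

/-- the trace of the geodesic in the part MID of the group `k` -/
def tr (W : Win N Al) (k : ℤ) (ω : Ix N → Al) : Finset E :=
  trc (W.mlo k) (W.mhi k) (GE W.wt W.v ω)

/-- meetings for configurations that share the group `k` -/
def MeetA (W : Win N Al) (ε : ℝ) : Prop :=
  ∀ k : ℤ, 0 ≤ k → k ≤ 8 → ∀ s : ℤ, (s = 1 ∨ s = 5) →
    Pr (fun ζ : (Ix N → Al) × (Ix N → Al) =>
      ¬ ∃ i ∈ W.part k s, i ∈ GI W.wt W.v (W.M ζ.1) ∧
        i ∈ GI W.wt W.v (mix (W.G k) ζ.1 (W.M ζ.2))) ≤ ε

/-- meetings after the rotation by one unit of a strip `[α, β)` that contains the group `k` -/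
def MeetB (W : Win N Al) (ε : ℝ) : Prop :=
  ∀ k : ℤ, 1 ≤ k → k ≤ 7 → ∃ α β : ℤ,
    W.lo k - W.L ≤ α ∧ α ≤ W.lo k ∧ W.hi k ≤ β ∧ β ≤ W.hi k + W.L ∧
    ∀ s : ℤ, (s = 1 ∨ s = 5) →
    Pr (fun ξ : Ix N → Al =>
      ¬ ∃ i ∈ W.part k s, i ∈ GI W.wt W.v (W.M ξ) ∧
        i ∈ ((GE W.wt W.v (mix (blkI N α β) (shiftC (su 1) (W.M ξ)) (W.M ξ))).image
          (shE (su 1))).image (red N)) ≤ ε

end Win

end Pool.Agent.FPZ
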